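import Pool.Agent.Lib.MP_9cae81_PC.Defs
import Pool.Agent.Lib.MP_9cae81_R.Mg.G009
import Pool.Agent.Lib.MP_9cae81_R.A4

section

/-!
# Block A2: the normalisation
-/

set_option autoImplicit false

open Finset Filter
open scoped BigOperators Topology

namespace Pool.Agent.Lib.MP_9cae81_PC

open Pool.Agent.Lib.MP_9cae81_R

/-- The total weight is at most `4 N^(1/2)`. -/
theorem A2_mass {N : ℕ} (hN : 1 ≤ N) (M : ℕ) :
    ∑ n ∈ Finset.Icc (N - M) (N + M), Wt N n ≤ 4 * (N : ℝ) ^ (1 / 2 : ℝ) := by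
  have hN0 : (0 : ℝ) < N := by exact_mod_cast hN
  have hN1 : (1 : ℝ) ≤ N := by exact_mod_cast hN
  set κ : ℝ := (N : ℝ) ^ (-(1 / 2) : ℝ) with hκ
  have hκ0 : 0 < κ := Real.rpow_pos_of_pos hN0 _
  have hκ1 : κ ≤ 1 := Real.rpow_le_one_of_one_le_of_nonpos hN1 (by norm_num)
  set r : ℝ := Real.exp (-κ) with hr
  have hr0 : 0 < r := Real.exp_pos _
  have hr1 : r < 1 := by
    rw [hr, Real.exp_lt_one_iff]
    linarith
  have hrr : κ / 2 ≤ 1 - r := by
    have h1 : 1 + κ ≤ Real.exp κ := by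
      have := Real.add_one_le_exp κ
      linarith
    have h2 : r * Real.exp κ = 1 := by
      rw [hr, ← Real.exp_add]
      simp
    nlinarith [mul_le_mul_of_nonneg_left h1 hr0.le]
  have hgeo : ∀ m : ℕ, ∑ j ∈ Finset.range m, r ^ j ≤ 2 * (N : ℝ) ^ (1 / 2 : ℝ) := by
    intro m
    have h1 : (∑ j ∈ Finset.range m, r ^ j) * (1 - r) = 1 - r ^ m := by
      rw [geom_sum_mul_neg]
    have h2 : 0 ≤ r ^ m := pow_nonneg hr0.le m
    have h3 : 0 ≤ ∑ j ∈ Finset.range m, r ^ j := Finset.sum_nonneg fun j _ => pow_nonneg hr0.le j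
    have h4 : κ * (N : ℝ) ^ (1 / 2 : ℝ) = 1 := by
      rw [hκ, ← Real.rpow_add hN0]
      norm_num
    have h5 : (∑ j ∈ Finset.range m, r ^ j) * (κ / 2) ≤ 1 := by
      nlinarith [mul_le_mul_of_nonneg_left hrr h3]
    have h6 : 0 < (N : ℝ) ^ (1 / 2 : ℝ) := Real.rpow_pos_of_pos hN0 _
    have h7 : (∑ j ∈ Finset.range m, r ^ j) =
        (∑ j ∈ Finset.range m, r ^ j) * (κ / 2) * (2 * (N : ℝ) ^ (1 / 2 : ℝ)) := by
      have : κ / 2 * (2 * (N : ℝ) ^ (1 / 2 : ℝ)) = 1 := by linarith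
      rw [mul_assoc, this, mul_one]
    rw [h7]
    nlinarith
  have hW0 : ∀ n, 0 ≤ Wt N n := fun n => (Real.exp_pos _).le
  have hWl : ∀ n, n ≤ N → Wt N n = r ^ (N - n) := by
    intro n hn
    unfold Wt
    rw [hr, ← Real.exp_nat_mul, Nat.cast_sub hn, abs_of_nonpos (by
      have : (n : ℝ) ≤ N := by exact_mod_cast hn
      linarith)]
    congr 1
    ring
  have hWr : ∀ n, N ≤ n → Wt N n = r ^ (n - N) := by
    intro n hn
    unfold Wt
    rw [hr, ← Real.exp_nat_mul, Nat.cast_sub hn, abs_of_nonneg (by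
      have : (N : ℝ) ≤ n := by exact_mod_cast hn
      linarith)]
    congr 1
    ring
  have hsub : Finset.Icc (N - M) (N + M) ⊆ Finset.range (N + 1) ∪ Finset.Ico N (N + M + 1) := by
    intro n hn
    rw [Finset.mem_Icc] at hn
    rw [Finset.mem_union, Finset.mem_range, Finset.mem_Ico]
    omega
  have h1 : ∑ n ∈ Finset.Icc (N - M) (N + M), Wt N n ≤
      ∑ n ∈ Finset.range (N + 1) ∪ Finset.Ico N (N + M + 1), Wt N n :=
    Finset.sum_le_sum_of_subset_of_nonneg hsub fun n _ _ => hW0 n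
  have h2 : ∑ n ∈ Finset.range (N + 1) ∪ Finset.Ico N (N + M + 1), Wt N n ≤
      ∑ n ∈ Finset.range (N + 1), Wt N n + ∑ n ∈ Finset.Ico N (N + M + 1), Wt N n := by
    rw [← Finset.sum_union_inter]
    have : 0 ≤ ∑ n ∈ Finset.range (N + 1) ∩ Finset.Ico N (N + M + 1), Wt N n :=
      Finset.sum_nonneg fun n _ => hW0 n
    linarith
  have h3 : ∑ n ∈ Finset.range (N + 1), Wt N n = ∑ j ∈ Finset.range (N + 1), r ^ j := by
    rw [← Finset.sum_range_reflect (fun j => r ^ j) (N + 1)]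
    refine Finset.sum_congr rfl fun n hn => ?_
    rw [Finset.mem_range] at hn
    rw [hWl n (by omega), Nat.add_sub_cancel]
  have h4 : ∑ n ∈ Finset.Ico N (N + M + 1), Wt N n = ∑ j ∈ Finset.range (M + 1), r ^ j := by
    rw [Finset.sum_Ico_eq_sum_range]
    have : N + M + 1 - N = M + 1 := by omega
    rw [this]
    refine Finset.sum_congr rfl fun j _ => ?_
    rw [hWr (N + j) (by omega), Nat.add_sub_cancel_left]
  have h5 := hgeo (N + 1)
  have h6 := hgeo (M + 1)
  linarith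

private theorem A2_I {x Y : ℝ} (hx : 0 ≤ x) (C : Cen x Y) (k : ℕ) {V : Type} [DecidableEq V]
    (c : Cl V) :
    0 ≤ qq (Iu (C.N k)) (Iv (C.N k) x) (Iw (C.N k) (C.y k)) c := by
  refine qq_nonneg ?_ ?_ ?_ c
  · unfold Iu LN
    positivity
  · unfold Iv
    positivity
  · unfold Iw
    have := C.y0 k
    positivity

private theorem A2_mono {x Y : ℝ} (hx : 0 ≤ x) (C : Cen x Y) (k n : ℕ) {g h : As (Fin n) → ℝ}
    (H : ∀ S, g S ≤ h S) : En (C.N k) x (C.y k) n g ≤ En (C.N k) x (C.y k) n h :=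
  EE_mono (fun c => A2_I hx C k c) fun F => H (Md F)

private theorem A2_f1 {n : ℕ} (hn : 1 ≤ n) (S : As (Fin n)) : ff S ≤ 1 := by
  have hne : Nonempty (Lt (Fin n)) := ⟨(⟨0, hn⟩, true)⟩
  change (AS (Fin n)).f S ≤ 1
  have h1 : (AS (Fin n)).P1 (AS (Fin n)).un S ≤ 1 := by
    unfold Sys.P1
    have hc : (0 : ℝ) < Fintype.card (Lt (Fin n)) := by exact_mod_cast Fintype.card_pos
    rw [div_le_one hc]
    calc ∑ a : Lt (Fin n), (AS (Fin n)).un ((AS (Fin n)).iu a S) ≤ ∑ _a : Lt (Fin n), (1 : ℝ) :=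
          Finset.sum_le_sum fun a _ => (AS (Fin n)).un_le_one _
      _ = Fintype.card (Lt (Fin n)) := by simp
  rw [Sys.f_eq]
  have := (AS (Fin n)).un_nonneg S
  linarith

private theorem A2_fs {n : ℕ} (hn : 1 ≤ n) {q : ℝ} (hq : 0 < q) (hq1 : q < 1) (S : As (Fin n)) :
    q * ff S ≤ ss q S := by
  have hne : Nonempty (Lt (Fin n)) := ⟨(⟨0, hn⟩, true)⟩
  change q * (AS (Fin n)).f S ≤ (AS (Fin n)).s q S
  have h1 := (AS (Fin n)).P1_s hq hq1 S
  have h2 : 0 ≤ (AS (Fin n)).P1 ((AS (Fin n)).s q) S := by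
    unfold Sys.P1
    exact div_nonneg (Finset.sum_nonneg fun a _ => (AS (Fin n)).s_nonneg hq.le hq1 _)
      (by positivity)
  have h3 : (AS (Fin n)).f S ≤ (1 + (1 - q) / q) * (AS (Fin n)).s q S := by linarith
  have h4 : q * (1 + (1 - q) / q) = 1 := by field_simp; ring
  calc q * (AS (Fin n)).f S ≤ q * ((1 + (1 - q) / q) * (AS (Fin n)).s q S) :=
        mul_le_mul_of_nonneg_left h3 hq.le
    _ = (AS (Fin n)).s q S := by rw [← mul_assoc, h4, one_mul]

/-- `m ≥ q² c₀ / N`.  Proof: `ff ≤ ss / q` (`P1 un ≤ P1 v`, `P1 v = v / q` on nonempty states, and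
both sides vanish on the empty state), so `ss² ≥ q² ff² ≥ q² ff³` as `0 ≤ ff ≤ 1`; keep only the
term `n = N` of `Br`, with weight `Wt N N = 1`. -/
theorem A2_mm {q x Y : ℝ} (hq : 0 < q) (hq1 : q < 1) (hx : 0 ≤ x) (C : Cen x Y) (k : ℕ) :
    q ^ 2 * C.c0 / C.N k ≤ mm q (C.N k) x (C.y k) := by
  have hN := C.N1 k
  have hterm : ∀ n, 0 ≤ Wt (C.N k) n * En (C.N k) x (C.y k) n (fun S => ss q S ^ 2) := fun n =>
    mul_nonneg (Real.exp_pos _).le
      (EE_nonneg (fun c => A2_I hx C k c) fun F => sq_nonneg _)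
  have h1 : Wt (C.N k) (C.N k) * En (C.N k) x (C.y k) (C.N k) (fun S => ss q S ^ 2) ≤
      mm q (C.N k) x (C.y k) := by
    unfold mm Br
    refine Finset.single_le_sum (f := fun n => Wt (C.N k) n * En (C.N k) x (C.y k) n
      (fun S => ss q S ^ 2)) (fun n _ => hterm n) ?_
    rw [Finset.mem_Icc]
    omega
  have h2 : Wt (C.N k) (C.N k) = 1 := by
    unfold Wt
    simp
  rw [h2, one_mul] at h1
  refine le_trans ?_ h1
  have h3 : En (C.N k) x (C.y k) (C.N k) (fun S => q ^ 2 * ff S ^ 3) ≤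
      En (C.N k) x (C.y k) (C.N k) (fun S => ss q S ^ 2) := by
    refine A2_mono hx C k (C.N k) fun S => ?_
    have h4 := A2_f1 hN S
    have h5 := A2_fs hN hq hq1 S
    have hne : Nonempty (Lt (Fin (C.N k))) := ⟨(⟨0, hN⟩, true)⟩
    have h6 : 0 ≤ ff S := (AS (Fin (C.N k))).f_nonneg S
    have h7 : (q * ff S) ^ 2 ≤ ss q S ^ 2 := pow_le_pow_left₀ (mul_nonneg hq.le h6) h5 2
    have h8 : ff S ^ 3 ≤ ff S ^ 2 := pow_le_pow_of_le_one h6 h4 (by norm_num)
    calc q ^ 2 * ff S ^ 3 ≤ q ^ 2 * ff S ^ 2 := mul_le_mul_of_nonneg_left h8 (sq_nonneg q)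
      _ = (q * ff S) ^ 2 := by ring
      _ ≤ ss q S ^ 2 := h7
  refine le_trans ?_ h3
  have h9 : En (C.N k) x (C.y k) (C.N k) (fun S => q ^ 2 * ff S ^ 3) =
      q ^ 2 * En (C.N k) x (C.y k) (C.N k) (fun S => ff S ^ 3) := by
    unfold En
    exact EE_mul_left _ _ _
  rw [h9, mul_div_assoc]
  exact mul_le_mul_of_nonneg_left (C.flux k) (sq_nonneg q)

private theorem A2_abs {q x Y : ℝ} (hq : 0 < q) (hq1 : q < 1) (hx : 0 ≤ x) (C : Cen x Y) (k : ℕ) :
    |Br (C.N k) x (C.y k) (fun _ S => ss q S)| ≤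
      (1 + 1 / (q ^ 2 * C.c0)) * (C.N k : ℝ) ^ (3 / 4 : ℝ) * mm q (C.N k) x (C.y k) := by
  have hN := C.N1 k
  have hN0 : (0 : ℝ) < C.N k := by exact_mod_cast hN
  have hc := C.hc
  set a : ℝ := (C.N k : ℝ) ^ (3 / 4 : ℝ) with ha
  have ha0 : 0 < a := Real.rpow_pos_of_pos hN0 _
  have hmm := A2_mm hq hq1 hx C k
  have hmass := A2_mass hN (MW (C.N k))
  -- pointwise inequality
  have hpt : ∀ t : ℝ, |t| ≤ 1 / (4 * a) + a * t ^ 2 := by
    intro t
    have h1 : 0 ≤ (2 * a * |t| - 1) ^ 2 := sq_nonneg _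
    have h2 : (2 * a * |t| - 1) ^ 2 = 4 * a ^ 2 * t ^ 2 - 4 * a * |t| + 1 := by
      rw [← sq_abs t]
      ring
    rw [h2] at h1
    rw [div_add' _ _ _ (by positivity), le_div_iff₀ (by positivity)]
    linarith
  have hEn : ∀ n, |En (C.N k) x (C.y k) n (fun S => ss q S)| ≤
      1 / (4 * a) + a * En (C.N k) x (C.y k) n (fun S => ss q S ^ 2) := by
    intro n
    have h1 : ∀ σ : ℝ, (∀ S : As (Fin n), σ * ss q S ≤ |ss q S|) →
        σ * En (C.N k) x (C.y k) n (fun S => ss q S) ≤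
          1 / (4 * a) + a * En (C.N k) x (C.y k) n (fun S => ss q S ^ 2) := by
      intro σ hσ
      have h2 : En (C.N k) x (C.y k) n (fun S => σ * ss q S) ≤
          En (C.N k) x (C.y k) n (fun S => 1 / (4 * a) + a * ss q S ^ 2) :=
        A2_mono hx C k n fun S => (hσ S).trans (hpt _)
      have h3 : En (C.N k) x (C.y k) n (fun S => σ * ss q S) =
          σ * En (C.N k) x (C.y k) n (fun S => ss q S) := by
        unfold En
        exact EE_mul_left _ _ _
      have h4 : En (C.N k) x (C.y k) n (fun S => 1 / (4 * a) + a * ss q S ^ 2) =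
          1 / (4 * a) + a * En (C.N k) x (C.y k) n (fun S => ss q S ^ 2) := by
        unfold En
        rw [EE_add, EE_const, EE_mul_left]
      rw [h3, h4] at h2
      exact h2
    rw [abs_le]
    constructor
    · have := h1 (-1) (fun S => by rw [neg_one_mul]; exact neg_le_abs _)
      linarith
    · have := h1 1 (fun S => by rw [one_mul]; exact le_abs_self _)
      linarith
  have hBr : |Br (C.N k) x (C.y k) (fun _ S => ss q S)| ≤
      1 / (4 * a) * ∑ n ∈ Finset.Icc (C.N k - MW (C.N k)) (C.N k + MW (C.N k)), Wt (C.N k) n +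
        a * mm q (C.N k) x (C.y k) := by
    unfold mm Br
    refine (Finset.abs_sum_le_sum_abs _ _).trans ?_
    rw [Finset.mul_sum, Finset.mul_sum, ← Finset.sum_add_distrib]
    refine Finset.sum_le_sum fun n _ => ?_
    have hW : 0 ≤ Wt (C.N k) n := (Real.exp_pos _).le
    rw [abs_mul, abs_of_nonneg hW]
    calc Wt (C.N k) n * |En (C.N k) x (C.y k) n (fun S => ss q S)| ≤
          Wt (C.N k) n * (1 / (4 * a) + a * En (C.N k) x (C.y k) n (fun S => ss q S ^ 2)) :=
          mul_le_mul_of_nonneg_left (hEn n) hW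
      _ = 1 / (4 * a) * Wt (C.N k) n +
          a * (Wt (C.N k) n * En (C.N k) x (C.y k) n (fun S => ss q S ^ 2)) := by ring
  refine hBr.trans ?_
  have h5 : 1 / (4 * a) * ∑ n ∈ Finset.Icc (C.N k - MW (C.N k)) (C.N k + MW (C.N k)),
      Wt (C.N k) n ≤ 1 / (4 * a) * (4 * (C.N k : ℝ) ^ (1 / 2 : ℝ)) :=
    mul_le_mul_of_nonneg_left hmass (by positivity)
  have h6 : (C.N k : ℝ) ^ (1 / 2 : ℝ) = a * a / C.N k := by
    rw [ha, ← Real.rpow_add hN0, eq_div_iff hN0.ne']
    nth_rewrite 2 [← Real.rpow_one (C.N k : ℝ)]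
    rw [← Real.rpow_add hN0]
    norm_num
  have h7 : 1 / (4 * a) * (4 * (C.N k : ℝ) ^ (1 / 2 : ℝ)) = a / C.N k := by
    rw [h6]
    field_simp
  have h8 : a / C.N k ≤ 1 / (q ^ 2 * C.c0) * a * mm q (C.N k) x (C.y k) := by
    have h9 : 1 / (q ^ 2 * C.c0) * a * (q ^ 2 * C.c0 / C.N k) = a / C.N k := by
      field_simp
    rw [← h9]
    exact mul_le_mul_of_nonneg_left hmm (by positivity)
  calc 1 / (4 * a) * ∑ n ∈ Finset.Icc (C.N k - MW (C.N k)) (C.N k + MW (C.N k)), Wt (C.N k) n +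
        a * mm q (C.N k) x (C.y k) ≤
        1 / (q ^ 2 * C.c0) * a * mm q (C.N k) x (C.y k) + a * mm q (C.N k) x (C.y k) := by
        linarith
    _ = (1 + 1 / (q ^ 2 * C.c0)) * a * mm q (C.N k) x (C.y k) := by ring

/-- Cauchy-Schwarz: `[v 1_SAT] ≤ (mass · m)^(1/2)`, hence `[v 1_SAT] ≤ K N^(3/4) m`. -/
theorem A2_ss {q x Y : ℝ} (hq : 0 < q) (hq1 : q < 1) (hx : 0 ≤ x) (C : Cen x Y) :
    ∃ K : ℝ, 0 < K ∧ ∀ᶠ k in atTop, Br (C.N k) x (C.y k) (fun _ S => ss q S) ≤
      K * (C.N k : ℝ) ^ (3 / 4 : ℝ) * mm q (C.N k) x (C.y k) := by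
  have hc := C.hc
  refine ⟨1 + 1 / (q ^ 2 * C.c0), by positivity, Filter.Eventually.of_forall fun k => ?_⟩
  exact (le_abs_self _).trans (A2_abs hq hq1 hx C k)

/-- Additive errors: `mass / N^(7/4) ≤ ε m` (as `mass ≤ 3 N^(1/2)`, `m ≥ c / N`), and
`N^(-9/10 + 3/4) → 0`. -/
theorem A2_add {q x Y : ℝ} (hq : 0 < q) (hq1 : q < 1) (hx : 0 ≤ x) (C : Cen x Y) {K : ℝ}
    {ε : ℝ} (hε : 0 < ε) : ∀ᶠ k in atTop,
    K * ((C.N k : ℝ) ^ (-(7 / 4) : ℝ) * ∑ n ∈ Finset.Icc (C.N k - MW (C.N k)) (C.N k + MW (C.N k)),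
        Wt (C.N k) n) ≤ ε * mm q (C.N k) x (C.y k) ∧
    K * ((C.N k : ℝ) ^ (-(4 / 5) : ℝ) * Br (C.N k) x (C.y k) (fun _ S => ss q S)) ≤
      ε * mm q (C.N k) x (C.y k) := by
  have hc := C.hc
  have hNr : Tendsto (fun k => (C.N k : ℝ)) atTop atTop :=
    tendsto_natCast_atTop_atTop.comp C.hN
  have ht1 : Tendsto (fun k => |K| * 4 * (C.N k : ℝ) ^ (-(1 / 4) : ℝ)) atTop (𝓝 0) := by
    have := ((tendsto_rpow_neg_atTop (by norm_num : (0 : ℝ) < 1 / 4)).comp hNr).const_mul (|K| * 4)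
    simpa using this
  have ht2 : Tendsto (fun k => |K| * (1 + 1 / (q ^ 2 * C.c0)) * (C.N k : ℝ) ^ (-(1 / 20) : ℝ))
      atTop (𝓝 0) := by
    have := ((tendsto_rpow_neg_atTop (by norm_num : (0 : ℝ) < 1 / 20)).comp hNr).const_mul
      (|K| * (1 + 1 / (q ^ 2 * C.c0)))
    simpa using this
  have e1 : ∀ᶠ k in atTop, |K| * 4 * (C.N k : ℝ) ^ (-(1 / 4) : ℝ) < ε * (q ^ 2 * C.c0) :=
    ht1.eventually (gt_mem_nhds (by positivity))
  have e2 : ∀ᶠ k in atTop, |K| * (1 + 1 / (q ^ 2 * C.c0)) * (C.N k : ℝ) ^ (-(1 / 20) : ℝ) < ε :=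
    ht2.eventually (gt_mem_nhds hε)
  filter_upwards [e1, e2] with k h1 h2
  have hN := C.N1 k
  have hN0 : (0 : ℝ) < C.N k := by exact_mod_cast hN
  have hmm := A2_mm hq hq1 hx C k
  have hmm0 : 0 ≤ mm q (C.N k) x (C.y k) := le_trans (by positivity) hmm
  constructor
  · have hmass := A2_mass hN (MW (C.N k))
    have hm0 : 0 ≤ ∑ n ∈ Finset.Icc (C.N k - MW (C.N k)) (C.N k + MW (C.N k)), Wt (C.N k) n :=
      Finset.sum_nonneg fun n _ => (Real.exp_pos _).le
    have hp : 0 < (C.N k : ℝ) ^ (-(7 / 4) : ℝ) := Real.rpow_pos_of_pos hN0 _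
    have h3 : (C.N k : ℝ) ^ (-(7 / 4) : ℝ) * (4 * (C.N k : ℝ) ^ (1 / 2 : ℝ)) =
        4 * (C.N k : ℝ) ^ (-(1 / 4) : ℝ) / C.N k := by
      rw [eq_div_iff hN0.ne']
      have e3 : (C.N k : ℝ) ^ (-(7 / 4) : ℝ) * (C.N k : ℝ) ^ (1 / 2 : ℝ) * C.N k =
          (C.N k : ℝ) ^ (-(1 / 4) : ℝ) := by
        nth_rewrite 3 [← Real.rpow_one (C.N k : ℝ)]
        rw [← Real.rpow_add hN0, ← Real.rpow_add hN0]
        norm_num
      linarith
    calc K * ((C.N k : ℝ) ^ (-(7 / 4) : ℝ) *
          ∑ n ∈ Finset.Icc (C.N k - MW (C.N k)) (C.N k + MW (C.N k)), Wt (C.N k) n) ≤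
          |K| * ((C.N k : ℝ) ^ (-(7 / 4) : ℝ) *
          ∑ n ∈ Finset.Icc (C.N k - MW (C.N k)) (C.N k + MW (C.N k)), Wt (C.N k) n) :=
          mul_le_mul_of_nonneg_right (le_abs_self K) (mul_nonneg hp.le hm0)
      _ ≤ |K| * ((C.N k : ℝ) ^ (-(7 / 4) : ℝ) * (4 * (C.N k : ℝ) ^ (1 / 2 : ℝ))) := by
          refine mul_le_mul_of_nonneg_left ?_ (abs_nonneg K)
          exact mul_le_mul_of_nonneg_left hmass hp.le
      _ = |K| * 4 * (C.N k : ℝ) ^ (-(1 / 4) : ℝ) / C.N k := by
          rw [h3]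
          ring
      _ ≤ ε * (q ^ 2 * C.c0) / C.N k := by
          rw [div_le_div_iff_of_pos_right hN0]
          exact h1.le
      _ = ε * (q ^ 2 * C.c0 / C.N k) := by ring
      _ ≤ ε * mm q (C.N k) x (C.y k) := mul_le_mul_of_nonneg_left hmm hε.le
  · have habs := A2_abs hq hq1 hx C k
    have hp : 0 < (C.N k : ℝ) ^ (-(4 / 5) : ℝ) := Real.rpow_pos_of_pos hN0 _
    have e3 : (C.N k : ℝ) ^ (-(4 / 5) : ℝ) * (C.N k : ℝ) ^ (3 / 4 : ℝ) =
        (C.N k : ℝ) ^ (-(1 / 20) : ℝ) := by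
      rw [← Real.rpow_add hN0]
      norm_num
    calc K * ((C.N k : ℝ) ^ (-(4 / 5) : ℝ) * Br (C.N k) x (C.y k) (fun _ S => ss q S)) ≤
          |K * ((C.N k : ℝ) ^ (-(4 / 5) : ℝ) * Br (C.N k) x (C.y k) (fun _ S => ss q S))| :=
          le_abs_self _
      _ = |K| * ((C.N k : ℝ) ^ (-(4 / 5) : ℝ) * |Br (C.N k) x (C.y k) (fun _ S => ss q S)|) := by
          rw [abs_mul, abs_mul, abs_of_pos hp]
      _ ≤ |K| * ((C.N k : ℝ) ^ (-(4 / 5) : ℝ) * ((1 + 1 / (q ^ 2 * C.c0)) *
          (C.N k : ℝ) ^ (3 / 4 : ℝ) * mm q (C.N k) x (C.y k))) := by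
          refine mul_le_mul_of_nonneg_left ?_ (abs_nonneg K)
          exact mul_le_mul_of_nonneg_left habs hp.le
      _ = |K| * (1 + 1 / (q ^ 2 * C.c0)) * ((C.N k : ℝ) ^ (-(4 / 5) : ℝ) *
          (C.N k : ℝ) ^ (3 / 4 : ℝ)) * mm q (C.N k) x (C.y k) := by ring
      _ ≤ ε * mm q (C.N k) x (C.y k) := by
          rw [e3]
          exact mul_le_mul_of_nonneg_right h2.le hmm0

end Pool.Agent.Lib.MP_9cae81_PC
end

section

/-!
# Rows A0_window and A0_param of block A
-/

set_option autoImplicit false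

open Finset Filter
open scoped BigOperators Topology

namespace Pool.Agent.Lib.MP_9cae81_PC

open Pool.Agent.Lib.MP_9cae81_R

theorem MW_le (N : ℕ) : (MW N : ℝ) ≤ (N : ℝ) ^ (3 / 4 : ℝ) :=
  Nat.floor_le (Real.rpow_nonneg (Nat.cast_nonneg N) _)

/-- `N^(3/4) ≤ N^(-1/4) N`. -/
theorem MW_le' {N : ℕ} (hN : 1 ≤ N) : (MW N : ℝ) ≤ (N : ℝ) ^ (-(1 / 4) : ℝ) * N := by
  have h0 : (0 : ℝ) < N := by exact_mod_cast hN
  have h1 : (N : ℝ) ^ (-(1 / 4) : ℝ) * N = (N : ℝ) ^ (3 / 4 : ℝ) := by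
    nth_rewrite 2 [← Real.rpow_one (N : ℝ)]
    rw [← Real.rpow_add h0]
    norm_num
  rw [h1]
  exact MW_le N

theorem tendsto_neg_quarter : Tendsto (fun N : ℕ => (N : ℝ) ^ (-(1 / 4) : ℝ)) atTop (𝓝 0) :=
  (tendsto_rpow_neg_atTop (by norm_num : (0 : ℝ) < 1 / 4)).comp tendsto_natCast_atTop_atTop

/-- Two-sided geometric sum. -/
theorem sum_Wt_le {N : ℕ} (hN : 1 ≤ N) (hM : MW N ≤ N) :
    ∑ n ∈ Finset.Icc (N - MW N) (N + MW N), Wt N n ≤ 1 + 2 * (N : ℝ) ^ (1 / 2 : ℝ) := by
  have h0 : (0 : ℝ) < N := by exact_mod_cast hN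
  obtain ⟨κ, hκ⟩ : ∃ κ : ℝ, κ = (N : ℝ) ^ (-(1 / 2) : ℝ) := ⟨_, rfl⟩
  have hκ0 : 0 < κ := by rw [hκ]; positivity
  have hκi : 1 / κ = (N : ℝ) ^ (1 / 2 : ℝ) := by
    rw [hκ, Real.rpow_neg h0.le, one_div, inv_inv]
  rw [← hκi]
  obtain ⟨M, hMM⟩ : ∃ M, M = MW N := ⟨_, rfl⟩
  rw [← hMM] at hM ⊢
  obtain ⟨r, hr⟩ : ∃ r : ℝ, r = Real.exp (-κ) := ⟨_, rfl⟩
  have hr0 : 0 < r := by rw [hr]; exact Real.exp_pos _
  have hr1 : κ * r ≤ 1 - r := by
    have h1 := Real.add_one_le_exp κ
    have h2 : Real.exp κ * r = 1 := by rw [hr, ← Real.exp_add]; simp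
    nlinarith
  have hr2 : r < 1 := by nlinarith [mul_pos hκ0 hr0]
  have hgeo : ∀ m : ℕ, ∑ j ∈ Finset.range m, r ^ j ≤ 1 / (1 - r) := by
    intro m
    rw [le_div_iff₀ (by linarith)]
    have := geom_sum_mul_neg r m
    rw [this]
    have : 0 < r ^ m := pow_pos hr0 m
    linarith
  have hq : r / (1 - r) ≤ 1 / κ := by
    rw [div_le_div_iff₀ (by linarith) hκ0]; linarith
  have hq1 : 1 / (1 - r) = 1 + r / (1 - r) := by
    have : 1 - r ≠ 0 := by linarith
    field_simp
    ring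
  have hpow : ∀ j : ℕ, Real.exp (-(κ * j)) = r ^ j := by
    intro j
    rw [hr, ← Real.exp_nat_mul]
    congr 1; ring
  have hsplit : Finset.Icc (N - M) (N + M) = Finset.Ico (N - M) N ∪ Finset.Ico N (N + M + 1) := by
    ext n; simp only [Finset.mem_Icc, Finset.mem_union, Finset.mem_Ico]; omega
  have hdisj : Disjoint (Finset.Ico (N - M) N) (Finset.Ico N (N + M + 1)) := by
    rw [Finset.disjoint_left]; intro n; simp only [Finset.mem_Ico]; omega
  rw [hsplit, Finset.sum_union hdisj]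
  have hW : ∀ n : ℕ, Wt N n = Real.exp (-(κ * |(n : ℝ) - N|)) := by
    intro n
    unfold Wt
    rw [hκ, neg_mul]
  have hright : ∑ n ∈ Finset.Ico N (N + M + 1), Wt N n ≤ 1 / (1 - r) := by
    rw [Finset.sum_Ico_eq_sum_range]
    have : ∀ i ∈ Finset.range (N + M + 1 - N), Wt N (N + i) = r ^ i := by
      intro i _
      rw [hW, ← hpow]
      push_cast
      rw [show (N : ℝ) + i - N = i by ring, abs_of_nonneg (Nat.cast_nonneg i)]
    rw [Finset.sum_congr rfl this]
    exact hgeo _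
  have hleft : ∑ n ∈ Finset.Ico (N - M) N, Wt N n ≤ r * (1 / (1 - r)) := by
    rw [Finset.sum_Ico_eq_sum_range]
    have hNM : N - (N - M) = M := by omega
    rw [hNM, ← Finset.sum_range_reflect]
    have : ∀ j ∈ Finset.range M, Wt N (N - M + (M - 1 - j)) = r * r ^ j := by
      intro j hj
      have hj' := Finset.mem_range.1 hj
      have e : N - M + (M - 1 - j) = N - (j + 1) := by omega
      rw [e, hW, ← pow_succ', ← hpow]
      have e2 : ((N - (j + 1) : ℕ) : ℝ) = (N : ℝ) - (j + 1) := by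
        rw [Nat.cast_sub (by omega)]; push_cast; ring
      rw [e2, show (N : ℝ) - (j + 1) - N = -(j + 1) by ring, abs_neg,
        abs_of_nonneg (by positivity)]
      push_cast
      ring_nf
    rw [Finset.sum_congr rfl this, ← Finset.mul_sum]
    exact mul_le_mul_of_nonneg_left (hgeo _) hr0.le
  have e3 : r * (1 / (1 - r)) = r / (1 - r) := by ring
  rw [e3] at hleft
  rw [hq1] at hright
  have e4 : 2 * (1 / κ) = 1 / κ + 1 / κ := by ring
  linarith

theorem window_facts {N : ℕ} (hN : 16 ≤ N) (hq : (N : ℝ) ^ (-(1 / 4) : ℝ) ≤ 1 / 8) :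
    MW N + 1 ≤ N / 2 := by
  have h0 : (16 : ℝ) ≤ N := by exact_mod_cast hN
  have h1 := MW_le' (N := N) (by omega)
  have h2 : (MW N : ℝ) ≤ N / 8 := by nlinarith
  have h3 : ((8 * MW N : ℕ) : ℝ) ≤ (N : ℕ) := by push_cast; linarith
  have h4 : 8 * MW N ≤ N := by exact_mod_cast h3
  omega

theorem A0_window : ∀ᶠ N : ℕ in atTop, MW N + 1 ≤ N / 2 ∧
    (∀ n ∈ Finset.Icc (N - MW N) (N + MW N), N ≤ 2 * n ∧ n + 1 ≤ 2 * N) ∧
    ((Finset.Icc (N - MW N) (N + MW N)).card : ℝ) ≤ 3 * (N : ℝ) ^ (3 / 4 : ℝ) ∧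
    ∑ n ∈ Finset.Icc (N - MW N) (N + MW N), Wt N n ≤ 3 * (N : ℝ) ^ (1 / 2 : ℝ) := by
  filter_upwards [eventually_ge_atTop 16,
    (tendsto_order.1 tendsto_neg_quarter).2 (1 / 8) (by norm_num)] with N hN hq
  have hw := window_facts hN hq.le
  have h1 : (1 : ℝ) ≤ N := by
    have : 1 ≤ N := by omega
    exact_mod_cast this
  refine ⟨hw, ?_, ?_, ?_⟩
  · intro n hn
    rw [Finset.mem_Icc] at hn
    omega
  · rw [Nat.card_Icc]
    have h2 : N + MW N + 1 - (N - MW N) = 2 * MW N + 1 := by omega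
    rw [h2]
    push_cast
    have h3 := MW_le N
    have h4 : (1 : ℝ) ≤ (N : ℝ) ^ (3 / 4 : ℝ) := Real.one_le_rpow h1 (by norm_num)
    linarith
  · have h2 := sum_Wt_le (N := N) (by omega) (by omega)
    have h4 : (1 : ℝ) ≤ (N : ℝ) ^ (1 / 2 : ℝ) := Real.one_le_rpow h1 (by norm_num)
    linarith

/-- In the window `|n - N| ≤ N^(-1/4) N`. -/
theorem window_abs {N : ℕ} (hN : 1 ≤ N) {n : ℕ} (hn : n ∈ Finset.Icc (N - MW N) (N + MW N)) :
    |(n : ℝ) - N| ≤ (N : ℝ) ^ (-(1 / 4) : ℝ) * N := by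
  refine le_trans ?_ (MW_le' hN)
  rw [Finset.mem_Icc] at hn
  have h1 : N ≤ n + MW N := by omega
  have h2 : n ≤ N + MW N := hn.2
  have h1' : (N : ℝ) ≤ n + MW N := by exact_mod_cast h1
  have h2' : (n : ℝ) ≤ N + MW N := by exact_mod_cast h2
  rw [abs_le]
  constructor <;> linarith

theorem A0_param {x Y : ℝ} (C : Cen x Y) {ε : ℝ} (hε : 0 < ε) : ∀ᶠ k in atTop,
    ∀ n ∈ Finset.Icc (C.N k - MW (C.N k)) (C.N k + MW (C.N k)),
      |2 * (n : ℝ) * (2 * Iv (C.N k) x + 3 * Iw (C.N k) (C.y k)) - x| ≤ ε ∧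
      |4 * (n : ℝ) ^ 2 * (3 * Iw (C.N k) (C.y k)) - 3 / 2 * C.y k| ≤ ε := by
  -- `δ = N^(-1/4) + 2/N → 0`
  have hY0 : 0 ≤ Y := (C.y0 0).trans (C.yY 0)
  have hK : 0 < |x| + 5 * Y + 1 := by positivity
  have hδ : Tendsto (fun k => ((C.N k : ℕ) : ℝ) ^ (-(1 / 4) : ℝ)) atTop (𝓝 0) :=
    tendsto_neg_quarter.comp C.hN
  have hδ2 : Tendsto (fun k => (1 : ℝ) / ((C.N k : ℕ) : ℝ)) atTop (𝓝 0) :=
    (tendsto_one_div_atTop_nhds_zero_nat (𝕜 := ℝ)).comp C.hN
  filter_upwards [(tendsto_order.1 hδ).2 (min 1 (ε / (2 * (|x| + 5 * Y + 1)))) (by positivity),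
    (tendsto_order.1 hδ2).2 (ε / (2 * (|x| + 5 * Y + 1))) (by positivity)] with k hk hk2 n hn
  have hN1 := C.N1 k
  have hw := window_abs hN1 hn
  have hy0 := C.y0 k
  have hyY := C.yY k
  generalize C.y k = y at *
  have hN0 : (0 : ℝ) < (C.N k : ℝ) := by exact_mod_cast hN1
  obtain ⟨N, hNN⟩ : ∃ N : ℝ, N = (C.N k : ℝ) := ⟨_, rfl⟩
  have hNp : 0 < N := by rw [hNN]; exact hN0
  have hNne : N ≠ 0 := hNp.ne'
  have e1 : 2 * (n : ℝ) * (2 * Iv (C.N k) x + 3 * Iw (C.N k) y) - x
      = x * ((n - N) / N) + 3 / 4 * y * (n / N) * (1 / N) := by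
    unfold Iv Iw
    rw [← hNN]
    field_simp
    ring
  have e2 : 4 * (n : ℝ) ^ 2 * (3 * Iw (C.N k) y) - 3 / 2 * y
      = 3 / 2 * y * (((n - N) / N) * ((n - N) / N + 2)) := by
    unfold Iw
    rw [← hNN]
    field_simp
    ring
  rw [e1, e2]
  rw [← hNN] at hw hk hk2
  clear e1 e2
  generalize hδe : N ^ (-(1 / 4) : ℝ) = δ at *
  have hk1 : δ < 1 := lt_of_lt_of_le hk (min_le_left _ _)
  have hk3 : δ < ε / (2 * (|x| + 5 * Y + 1)) := lt_of_lt_of_le hk (min_le_right _ _)
  have hz : |((n : ℝ) - N) / N| ≤ δ := by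
    rw [abs_div, abs_of_pos hNp, div_le_iff₀ hNp]; exact hw
  have hnz : (n : ℝ) / N = 1 + ((n : ℝ) - N) / N := by field_simp; ring
  rw [hnz]
  generalize ((n : ℝ) - N) / N = z at *
  generalize hie : 1 / N = i at *
  have hi0 : 0 < i := by rw [← hie]; positivity
  have hδ0 : 0 ≤ δ := (abs_nonneg z).trans hz
  have hz1 := (abs_le.1 hz).1
  have hz2 := (abs_le.1 hz).2
  have b1 : δ * (2 * (|x| + 5 * Y + 1)) < ε := by rwa [lt_div_iff₀ (by positivity)] at hk3
  have b2 : i * (2 * (|x| + 5 * Y + 1)) < ε := by rwa [lt_div_iff₀ (by positivity)] at hk2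
  have hx0 := abs_nonneg x
  constructor
  · have t1 : |x * z| ≤ |x| * δ := by rw [abs_mul]; gcongr
    have t2 : |3 / 4 * y * (1 + z) * i| ≤ 3 / 2 * Y * i := by
      rw [abs_of_nonneg (by have : 0 ≤ 1 + z := by linarith
                            positivity)]
      have : 3 / 4 * y * (1 + z) ≤ 3 / 4 * Y * 2 := by
        have h1 : 1 + z ≤ 2 := by linarith
        have h2 : 0 ≤ 1 + z := by linarith
        gcongr
      nlinarith
    calc |x * z + 3 / 4 * y * (1 + z) * i| ≤ |x * z| + |3 / 4 * y * (1 + z) * i| := abs_add_le _ _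
      _ ≤ |x| * δ + 3 / 2 * Y * i := add_le_add t1 t2
      _ ≤ ε := by nlinarith [mul_nonneg hx0 hδ0, mul_nonneg hY0 hi0.le, mul_nonneg hx0 hi0.le,
                    mul_nonneg hY0 hδ0]
  · have t1 : |z * (z + 2)| ≤ δ * 3 := by
      rw [abs_mul]
      have : |z + 2| ≤ 3 := by rw [abs_le]; constructor <;> linarith
      gcongr
    have t2 : |3 / 2 * y * (z * (z + 2))| ≤ 3 / 2 * Y * (δ * 3) := by
      rw [abs_mul, abs_of_nonneg (by positivity : (0 : ℝ) ≤ 3 / 2 * y)]
      gcongr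
    calc |3 / 2 * y * (z * (z + 2))| ≤ 3 / 2 * Y * (δ * 3) := t2
      _ ≤ ε := by nlinarith [mul_nonneg hx0 hδ0, mul_nonneg hY0 hδ0]

end Pool.Agent.Lib.MP_9cae81_PC
end

section

open Finset
open scoped BigOperators

namespace Pool.Agent.Lib.MP_9cae81_R

variable {ι κ : Type} [Fintype ι] [DecidableEq ι] [Fintype κ] [DecidableEq κ]

/-- Independence: independent inclusion on a sum type is a pair of independent sets. -/
theorem EE_sumType (q : ι → ℝ) (q' : κ → ℝ) (g : Finset (ι ⊕ κ) → ℝ) :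
    EE (Sum.elim q q') g = EE q (fun F => EE q' (fun G => g (F.disjSum G))) := by
  classical
  unfold EE
  have hw : ∀ (F : Finset ι) (G : Finset κ),
      wt (Sum.elim q q') (F.disjSum G) = wt q F * wt q' G := by
    intro F G
    unfold wt
    rw [Fintype.prod_sum_type]
    congr 1
    · refine Finset.prod_congr rfl fun c _ => ?_
      simp
    · refine Finset.prod_congr rfl fun c _ => ?_
      simp
  have h1 : ∑ H : Finset (ι ⊕ κ), wt (Sum.elim q q') H * g H =
      ∑ P : Finset ι × Finset κ, wt (Sum.elim q q') (P.1.disjSum P.2) * g (P.1.disjSum P.2) := by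
    refine Fintype.sum_equiv (Finset.sumEquiv (α := ι) (β := κ)).toEquiv _ _ ?_
    intro H
    have : (Finset.toLeft H).disjSum (Finset.toRight H) = H := Finset.toLeft_disjSum_toRight
    show wt (Sum.elim q q') H * g H =
      wt (Sum.elim q q') ((Finset.toLeft H).disjSum (Finset.toRight H)) *
        g ((Finset.toLeft H).disjSum (Finset.toRight H))
    rw [this]
  rw [h1, Fintype.sum_prod_type]
  refine Finset.sum_congr rfl fun F _ => ?_
  rw [Finset.mul_sum]
  refine Finset.sum_congr rfl fun G _ => ?_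
  rw [hw]; ring

/-- Merging: adding an independent random set adds the intensities. -/
theorem EE_union (q q' : ι → ℝ) (g : Finset ι → ℝ) :
    EE q (fun F => EE q' (fun G => g (F ∪ G))) = EE (fun c => q c + q' c) g := by
  classical
  have hp : ∀ F G : Finset ι,
      pimg (fun c : ι ⊕ ι => some (Sum.elim id id c)) (F.disjSum G) = F ∪ G := by
    intro F G
    ext k
    simp only [pimg, Finset.mem_filter, Finset.mem_univ, true_and, Finset.mem_union,
      Option.some.injEq]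
    constructor
    · rintro ⟨c, hc, h⟩
      rcases c with c | c
      · left
        rw [Finset.inl_mem_disjSum] at hc
        simpa using h ▸ hc
      · right
        rw [Finset.inr_mem_disjSum] at hc
        simpa using h ▸ hc
    · rintro (h | h)
      · exact ⟨Sum.inl k, Finset.inl_mem_disjSum.2 h, rfl⟩
      · exact ⟨Sum.inr k, Finset.inr_mem_disjSum.2 h, rfl⟩
  have h1 := EE_sumType q q' (fun H => g (pimg (fun c : ι ⊕ ι => some (Sum.elim id id c)) H))
  simp only [hp] at h1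
  rw [← h1, EE_pimg]
  congr 1
  funext k
  rw [Fintype.sum_sum_type]
  simp

/-- Coordinates of intensity zero are absent. -/
theorem EE_zero_coord (q : ι → ℝ) (D : Finset ι) (hD : ∀ c ∈ D, q c = 0) (g : Finset ι → ℝ) :
    EE q g = EE q (fun F => g (F \ D)) := by
  classical
  have h := EE_filter q (fun c => c ∉ D) g
  have h2 : (fun c => if c ∉ D then q c else 0) = q := by
    funext c
    by_cases hc : c ∈ D
    · simp [hc, hD c hc]
    · simp [hc]
  have h3 : ∀ F : Finset ι, F.filter (fun c => c ∉ D) = F \ D := by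
    intro F; ext c; simp
  simp only [h3] at h
  rw [h, h2]

theorem one_sub_exp_nonneg' {a : ℝ} (ha : 0 ≤ a) : 0 ≤ 1 - Real.exp (-a) := by
  have := Real.exp_le_one_iff.2 (show -a ≤ 0 by linarith)
  linarith

theorem one_sub_exp_le' (a : ℝ) : 1 - Real.exp (-a) ≤ a := by
  have := Real.add_one_le_exp (-a)
  linarith

/-- **Bonferroni.**  The part of the expectation on which some element of `D` is present is at most
the sum over `c ∈ D` of `q c` times the expectation with `c` added. -/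
theorem EE_meet_le {q : ι → ℝ} (hq : ∀ c, 0 ≤ q c) (D : Finset ι) {g : Finset ι → ℝ}
    (hg : ∀ F, 0 ≤ g F) :
    EE q (fun F => if (∃ c ∈ D, c ∈ F) then g F else 0) ≤
      ∑ c ∈ D, q c * EE q (fun F => g (insert c F)) := by
  classical
  have h1 : EE q (fun F => if (∃ c ∈ D, c ∈ F) then g F else 0) ≤
      EE q (fun F => ∑ c ∈ D, (if c ∈ F then g F else 0)) := by
    refine EE_mono hq fun F => ?_
    split_ifs with h
    · obtain ⟨c, hc, hcF⟩ := h
      refine le_trans ?_ (Finset.single_le_sum (f := fun c => if c ∈ F then g F else 0) ?_ hc)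
      · simp [hcF]
      · intro i _
        split_ifs
        · exact hg F
        · exact le_refl _
    · refine Finset.sum_nonneg fun i _ => ?_
      split_ifs
      · exact hg F
      · exact le_refl _
  refine le_trans h1 ?_
  rw [EE_sum]
  refine Finset.sum_le_sum fun c _ => ?_
  rw [EE_mem]
  exact mul_le_mul_of_nonneg_right (one_sub_exp_le' (q c)) (EE_nonneg hq fun F => hg _)

/-- The expectation differs from the one with `D` removed by at most the Bonferroni terms. -/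
theorem EE_sdiff_error {q : ι → ℝ} (hq : ∀ c, 0 ≤ q c) (D : Finset ι) (g h : Finset ι → ℝ)
    (hgh : ∀ F, (∀ c ∈ D, c ∉ F) → g F = h F) :
    |EE q g - EE q h| ≤
      ∑ c ∈ D, q c * EE q (fun F => |g (insert c F) - h (insert c F)|) := by
  classical
  have h1 : EE q g - EE q h = EE q (fun F => g F - h F) := by
    simp only [EE, mul_sub, Finset.sum_sub_distrib]
  rw [h1]
  have h2 : |EE q (fun F => g F - h F)| ≤ EE q (fun F => |g F - h F|) := by
    unfold EE
    refine le_trans (Finset.abs_sum_le_sum_abs _ _) (Finset.sum_le_sum fun F _ => ?_)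
    rw [abs_mul, abs_of_nonneg (wt_nonneg hq F)]
  refine le_trans h2 ?_
  have h3 : (fun F : Finset ι => |g F - h F|) =
      fun F => if (∃ c ∈ D, c ∈ F) then |g F - h F| else 0 := by
    funext F
    split_ifs with hF
    · rfl
    · rw [hgh F (fun c hc hcF => hF ⟨c, hc, hcF⟩), sub_self, abs_zero]
  rw [h3]
  exact EE_meet_le hq D (fun F => abs_nonneg _)

/-- Triangle inequality. -/
theorem EE_abs_le {q : ι → ℝ} (hq : ∀ c, 0 ≤ q c) (g : Finset ι → ℝ) :
    |EE q g| ≤ EE q (fun F => |g F|) := by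
  unfold EE
  refine le_trans (Finset.abs_sum_le_sum_abs _ _) (Finset.sum_le_sum fun F _ => ?_)
  rw [abs_mul, abs_of_nonneg (wt_nonneg hq F)]

/-- Fubini for two independent sets. -/
theorem EE_comm (q : ι → ℝ) (q' : κ → ℝ) (g : Finset ι → Finset κ → ℝ) :
    EE q (fun F => EE q' (fun G => g F G)) = EE q' (fun G => EE q (fun F => g F G)) := by
  simp only [EE, Finset.mul_sum]
  rw [Finset.sum_comm]
  refine Finset.sum_congr rfl fun G _ => Finset.sum_congr rfl fun F _ => by ring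

/-- Cauchy-Schwarz. -/
theorem EE_mul_sq_le {q : ι → ℝ} (hq : ∀ c, 0 ≤ q c) (g h : Finset ι → ℝ) :
    (EE q (fun F => g F * h F)) ^ 2 ≤ EE q (fun F => g F ^ 2) * EE q (fun F => h F ^ 2) := by
  unfold EE
  have := Finset.sum_mul_sq_le_sq_mul_sq (Finset.univ : Finset (Finset ι))
    (fun F => Real.sqrt (wt q F) * g F) (fun F => Real.sqrt (wt q F) * h F)
  have e1 : ∀ F : Finset ι, Real.sqrt (wt q F) * g F * (Real.sqrt (wt q F) * h F) =
      wt q F * (g F * h F) := by
    intro F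
    have := Real.mul_self_sqrt (wt_nonneg hq F)
    calc _ = (Real.sqrt (wt q F) * Real.sqrt (wt q F)) * (g F * h F) := by ring
      _ = _ := by rw [this]
  have e2 : ∀ (F : Finset ι) (g : Finset ι → ℝ), (Real.sqrt (wt q F) * g F) ^ 2 =
      wt q F * g F ^ 2 := by
    intro F g
    rw [mul_pow, Real.sq_sqrt (wt_nonneg hq F)]
  simp only [e1, e2] at this
  exact this

/-- The probability that the random set equals a given set `D`. -/
theorem EE_eq (q : ι → ℝ) (D : Finset ι) (g : Finset ι → ℝ) :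
    EE q (fun F => if F = D then g F else 0) =
      (∏ c, if c ∈ D then 1 - Real.exp (-(q c)) else Real.exp (-(q c))) * g D := by
  classical
  unfold EE
  rw [Finset.sum_eq_single D]
  · simp [wt]
  · intro F _ hF; simp [hF]
  · intro h; exact absurd (Finset.mem_univ _) h

end Pool.Agent.Lib.MP_9cae81_R
end

section

open Finset
open scoped BigOperators

namespace Pool.Agent.Lib.MP_9cae81_R

variable {ι : Type} [Fintype ι] [DecidableEq ι]

/-- Number of elements of the block `D` present in `F`. -/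
noncomputable def NN (D F : Finset ι) : ℝ := ((F ∩ D).card : ℝ)

omit [Fintype ι] in
theorem NN_eq (D F : Finset ι) : NN D F = ∑ c ∈ D, (if c ∈ F then (1 : ℝ) else 0) := by
  unfold NN
  rw [Finset.sum_ite, Finset.sum_const_zero, add_zero, Finset.sum_const, nsmul_eq_mul, mul_one]
  congr 2
  ext c; simp [and_comm]

omit [Fintype ι] in
theorem NN_nonneg (D F : Finset ι) : 0 ≤ NN D F := by unfold NN; positivity

omit [Fintype ι] in
theorem NN_le (D F : Finset ι) : NN D F ≤ D.card := by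
  unfold NN
  exact_mod_cast Finset.card_le_card Finset.inter_subset_right

/-- Mecke formula for a block of constant intensity. -/
theorem EE_count {q : ι → ℝ} {D : Finset ι} {a : ℝ} (ha : ∀ c ∈ D, q c = a)
    (h : Finset ι → ℝ) :
    EE q (fun F => NN D F * h F) =
      (1 - Real.exp (-a)) * ∑ c ∈ D, EE q (fun F => h (insert c F)) := by
  have h1 : (fun F : Finset ι => NN D F * h F) =
      fun F => ∑ c ∈ D, (if c ∈ F then h F else 0) := by
    funext F
    rw [NN_eq, Finset.sum_mul]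
    refine Finset.sum_congr rfl fun c _ => ?_
    split_ifs <;> simp
  rw [h1, EE_sum, Finset.mul_sum]
  refine Finset.sum_congr rfl fun c hc => ?_
  rw [EE_mem, ha c hc]

/-- Moment generating function of the number of elements of a block. -/
theorem EE_mgf {q : ι → ℝ} {D : Finset ι} {a : ℝ} (ha : ∀ c ∈ D, q c = a) (s : ℝ) :
    EE q (fun F => s ^ (F ∩ D).card) =
      (1 + (1 - Real.exp (-a)) * (s - 1)) ^ D.card := by
  classical
  have h1 : ∀ F : Finset ι, wt q F * s ^ (F ∩ D).card =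
      (∏ c ∈ F, (1 - Real.exp (-(q c))) * (if c ∈ D then s else 1)) *
        ∏ c ∈ Finset.univ \ F, Real.exp (-(q c)) := by
    intro F
    have h2 : wt q F = (∏ c ∈ F, (1 - Real.exp (-(q c)))) *
        ∏ c ∈ Finset.univ \ F, Real.exp (-(q c)) := by
      unfold wt
      rw [← Finset.prod_filter_mul_prod_filter_not Finset.univ (fun c => c ∈ F)]
      congr 1
      · rw [show Finset.univ.filter (fun c => c ∈ F) = F by ext c; simp]
        exact Finset.prod_congr rfl fun c hc => by simp [hc]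
      · rw [show Finset.univ.filter (fun c => c ∉ F) = Finset.univ \ F by ext c; simp]
        refine Finset.prod_congr rfl fun c hc => ?_
        have : c ∉ F := by simpa using hc
        simp [this]
    have h3 : s ^ (F ∩ D).card = ∏ c ∈ F, (if c ∈ D then s else 1) := by
      rw [Finset.prod_ite, Finset.prod_const, Finset.prod_const_one, mul_one]
      congr 2
    rw [h2, h3, Finset.prod_mul_distrib]; ring
  unfold EE
  simp only [h1]
  have h4 := Finset.prod_add (fun c => (1 - Real.exp (-(q c))) * (if c ∈ D then s else 1))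
    (fun c => Real.exp (-(q c))) (Finset.univ : Finset ι)
  rw [Finset.powerset_univ] at h4
  rw [← h4, ← Finset.prod_filter_mul_prod_filter_not Finset.univ (fun c => c ∈ D)]
  have h5 : ∏ c ∈ Finset.univ.filter (fun c => c ∈ D),
      ((1 - Real.exp (-(q c))) * (if c ∈ D then s else 1) + Real.exp (-(q c))) =
      (1 + (1 - Real.exp (-a)) * (s - 1)) ^ D.card := by
    rw [show Finset.univ.filter (fun c => c ∈ D) = D by ext c; simp]
    rw [← Finset.prod_const]
    refine Finset.prod_congr rfl fun c hc => ?_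
    rw [ha c hc]; simp [hc]; ring
  have h6 : ∏ c ∈ Finset.univ.filter (fun c => c ∉ D),
      ((1 - Real.exp (-(q c))) * (if c ∈ D then s else 1) + Real.exp (-(q c))) = 1 := by
    refine Finset.prod_eq_one fun c hc => ?_
    have : c ∉ D := by simpa using hc
    simp [this]
  rw [h5, h6, mul_one]

theorem exp_le_quad {t : ℝ} (h1 : |t| ≤ 1) : Real.exp t ≤ 1 + t + t ^ 2 := by
  have := Real.abs_exp_sub_one_sub_id_le h1
  have h2 := abs_le.1 this
  linarith [h2.2]

/-- Chernoff bounds for a block. -/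
theorem EE_chernoff {q : ι → ℝ} (hq : ∀ c, 0 ≤ q c) {D : Finset ι} {a : ℝ} (ha0 : 0 ≤ a)
    (ha : ∀ c ∈ D, q c = a) {η : ℝ} (h0 : 0 ≤ η) (h1 : η ≤ 1) :
    EE q (fun F => if |NN D F - D.card * (1 - Real.exp (-a))| ≤
        η * (D.card * (1 - Real.exp (-a))) then 0 else 1) ≤
      2 * Real.exp (-(η ^ 2 * (D.card * (1 - Real.exp (-a))) / 4)) := by
  set p := 1 - Real.exp (-a) with hp
  set M := (D.card : ℝ) * p with hM
  have hp0 : 0 ≤ p := one_sub_exp_nonneg' ha0
  have hp1 : p ≤ 1 := by have := Real.exp_pos (-a); linarith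
  have hM0 : 0 ≤ M := by positivity
  -- pointwise domination
  have hdom : ∀ F : Finset ι, (if |NN D F - M| ≤ η * M then (0 : ℝ) else 1) ≤
      Real.exp (-(η / 2 * ((1 + η) * M))) * (Real.exp (η / 2)) ^ (F ∩ D).card +
      Real.exp (η / 2 * ((1 - η) * M)) * (Real.exp (-(η / 2))) ^ (F ∩ D).card := by
    intro F
    have e1 : (Real.exp (η / 2)) ^ (F ∩ D).card = Real.exp (η / 2 * NN D F) := by
      rw [← Real.exp_nat_mul]; unfold NN; ring_nf
    have e2 : (Real.exp (-(η / 2))) ^ (F ∩ D).card = Real.exp (-(η / 2 * NN D F)) := by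
      rw [← Real.exp_nat_mul]; unfold NN; ring_nf
    rw [e1, e2, ← Real.exp_add, ← Real.exp_add]
    split_ifs with hc
    · positivity
    · rw [not_le, lt_abs] at hc
      rcases hc with hc | hc
      · have : 1 ≤ Real.exp (-(η / 2 * ((1 + η) * M)) + η / 2 * NN D F) := by
          refine Real.one_le_exp ?_
          have : 0 ≤ η / 2 * (NN D F - (1 + η) * M) := by
            refine mul_nonneg (by linarith) ?_
            linarith
          linarith
        have h2 := Real.exp_pos (η / 2 * ((1 - η) * M) + -(η / 2 * NN D F))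
        linarith
      · have : 1 ≤ Real.exp (η / 2 * ((1 - η) * M) + -(η / 2 * NN D F)) := by
          refine Real.one_le_exp ?_
          have : 0 ≤ η / 2 * ((1 - η) * M - NN D F) := by
            refine mul_nonneg (by linarith) ?_
            linarith
          linarith
        have h2 := Real.exp_pos (-(η / 2 * ((1 + η) * M)) + η / 2 * NN D F)
        linarith
  refine le_trans (EE_mono hq hdom) ?_
  rw [EE_add, EE_mul_left, EE_mul_left, EE_mgf ha, EE_mgf ha]
  have hbase : ∀ t : ℝ, |t| ≤ 1 →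
      (1 + p * (Real.exp t - 1)) ^ D.card ≤ Real.exp (M * (t + t ^ 2)) := by
    intro t ht
    have h2 : 1 + p * (Real.exp t - 1) ≤ Real.exp (p * (t + t ^ 2)) := by
      have h3 := exp_le_quad ht
      have h4 := Real.add_one_le_exp (p * (t + t ^ 2))
      nlinarith
    have h5 : 0 ≤ 1 + p * (Real.exp t - 1) := by
      have := Real.exp_pos t
      nlinarith
    calc (1 + p * (Real.exp t - 1)) ^ D.card ≤ (Real.exp (p * (t + t ^ 2))) ^ D.card :=
          pow_le_pow_left₀ h5 h2 _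
      _ = Real.exp (M * (t + t ^ 2)) := by
          rw [← Real.exp_nat_mul, hM]; ring_nf
  have b1 := hbase (η / 2) (by rw [abs_of_nonneg (by linarith)]; linarith)
  have b2 := hbase (-(η / 2)) (by rw [abs_neg, abs_of_nonneg (by linarith)]; linarith)
  have c1 : Real.exp (-(η / 2 * ((1 + η) * M))) * (1 + p * (Real.exp (η / 2) - 1)) ^ D.card ≤
      Real.exp (-(η ^ 2 * M / 4)) := by
    refine le_trans (mul_le_mul_of_nonneg_left b1 (Real.exp_pos _).le) ?_
    rw [← Real.exp_add]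
    refine Real.exp_le_exp.2 ?_
    nlinarith
  have c2 : Real.exp (η / 2 * ((1 - η) * M)) * (1 + p * (Real.exp (-(η / 2)) - 1)) ^ D.card ≤
      Real.exp (-(η ^ 2 * M / 4)) := by
    refine le_trans (mul_le_mul_of_nonneg_left b2 (Real.exp_pos _).le) ?_
    rw [← Real.exp_add]
    refine Real.exp_le_exp.2 ?_
    nlinarith
  linarith

/-- **Stationarity under adding a uniform element of a block** (multiplicative error `η`, up to an
exponentially small term). -/
theorem EE_stat {q : ι → ℝ} (hq : ∀ c, 0 ≤ q c) {D : Finset ι} (hD : D.Nonempty) {a : ℝ}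
    (ha0 : 0 < a) (ha : ∀ c ∈ D, q c = a) {η : ℝ} (h0 : 0 ≤ η) (h1 : η ≤ 1)
    {h : Finset ι → ℝ} {Hb : ℝ} (hb : ∀ F, |h F| ≤ Hb) :
    |(∑ c ∈ D, EE q (fun F => h (insert c F))) / D.card - EE q h| ≤
      η * EE q (fun F => |h F|) + Hb * ((1 + 1 / (1 - Real.exp (-a))) *
        (2 * Real.exp (-(η ^ 2 * (D.card * (1 - Real.exp (-a))) / 4)))) := by
  set p := 1 - Real.exp (-a) with hp
  have hp0 : 0 < p := by
    have : Real.exp (-a) < 1 := by rw [Real.exp_lt_one_iff]; linarith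
    linarith
  have hc0 : 0 < (D.card : ℝ) := by exact_mod_cast hD.card_pos
  set M := (D.card : ℝ) * p with hM
  have hM0 : 0 < M := by positivity
  have hHb : 0 ≤ Hb := le_trans (abs_nonneg _) (hb ∅)
  have e1 : (∑ c ∈ D, EE q (fun F => h (insert c F))) / D.card - EE q h =
      EE q (fun F => (NN D F - M) / M * h F) := by
    have h2 := EE_count (q := q) ha h
    have h3 : (fun F : Finset ι => (NN D F - M) / M * h F) =
        fun F => M⁻¹ * (NN D F * h F) - h F := by
      funext F; field_simp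
    have h4 : EE q (fun F => M⁻¹ * (NN D F * h F) - h F) =
        M⁻¹ * EE q (fun F => NN D F * h F) - EE q h := by
      rw [EE_sub, EE_mul_left]
    rw [h3, h4, h2, ← hp, hM]
    field_simp
  rw [e1]
  refine le_trans (EE_abs_le hq _) ?_
  have hpt : ∀ F : Finset ι, |(NN D F - M) / M * h F| ≤
      η * |h F| + Hb * (1 + 1 / p) * (if |NN D F - M| ≤ η * M then 0 else 1) := by
    intro F
    rw [abs_mul, abs_div, abs_of_pos hM0]
    split_ifs with hc
    · have : |NN D F - M| / M ≤ η := by rw [div_le_iff₀ hM0]; exact hc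
      have := mul_le_mul_of_nonneg_right this (abs_nonneg (h F))
      linarith
    · have h2 : |NN D F - M| / M ≤ 1 + 1 / p := by
        rw [div_le_iff₀ hM0, abs_le]
        have h3 := NN_nonneg D F
        have h4 := NN_le D F
        have h5 : (1 + 1 / p) * M = M + D.card := by rw [hM]; field_simp
        rw [h5]
        constructor <;> linarith
      have h3 : |NN D F - M| / M * |h F| ≤ (1 + 1 / p) * Hb :=
        mul_le_mul h2 (hb F) (abs_nonneg _) (by positivity)
      have h4 : 0 ≤ η * |h F| := by positivity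
      linarith
  refine le_trans (EE_mono hq hpt) ?_
  rw [EE_add, EE_mul_left, EE_mul_left]
  have h6 := EE_chernoff hq (D := D) ha0.le ha h0 h1
  rw [← hp, ← hM] at h6
  have h7 : Hb * (1 + 1 / p) * EE q (fun F => if |NN D F - M| ≤ η * M then 0 else 1) ≤
      Hb * (1 + 1 / p) * (2 * Real.exp (-(η ^ 2 * M / 4))) :=
    mul_le_mul_of_nonneg_left h6 (by positivity)
  linarith [h7]

/-- **Adding an independent random set of elements of a block** changes the expectation of a
nonnegative bounded function only by a factor close to one.  With `R = b * |D|` (mean number of added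
elements) and `τ` the exponentially small term of `EE_stat`. -/
theorem EE_shift_block {q : ι → ℝ} (hq : ∀ c, 0 ≤ q c) {D : Finset ι} (hD : D.Nonempty) {a b : ℝ}
    (ha0 : 0 < a) (hb0 : 0 ≤ b) (ha : ∀ c ∈ D, q c = a) {η : ℝ} (h0 : 0 ≤ η) (h1 : η ≤ 1)
    {h : Finset ι → ℝ} {Hb τ R : ℝ} (hnn : ∀ F, 0 ≤ h F) (hb : ∀ F, h F ≤ Hb)
    (hτ : τ = Hb * ((1 + 1 / (1 - Real.exp (-a))) *
        (2 * Real.exp (-(η ^ 2 * (D.card * (1 - Real.exp (-a))) / 4)))))
    (hR : R = b * D.card) :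
    EE (fun c => q c + if c ∈ D then b else 0) h ≤ Real.exp (R * η) * (EE q h + R * τ) ∧
      EE q h ≤ Real.exp (R * η) * (EE (fun c => q c + if c ∈ D then b else 0) h + R * τ) := by
  classical
  set r : ι → ℝ := fun c => if c ∈ D then b else 0 with hr
  set φ : ℝ → ℝ := fun t => EE (fun c => q c + t * r c) h with hφ
  have hc0 : 0 < (D.card : ℝ) := by exact_mod_cast hD.card_pos
  have hR0 : 0 ≤ R := by rw [hR]; positivity
  have hHb : 0 ≤ Hb := le_trans (hnn ∅) (hb ∅)
  have hp : 0 < 1 - Real.exp (-a) := by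
    have : Real.exp (-a) < 1 := by rw [Real.exp_lt_one_iff]; linarith
    linarith
  have hτ0 : 0 ≤ τ := by rw [hτ]; positivity
  have hd : ∀ s : ℝ, HasDerivAt φ
      (∑ c, r c * EE (fun c => q c + s * r c) (fun F => h (insert c F) - h F)) s :=
    fun s => EE_hasDerivAt q r h s
  have hval : ∀ s : ℝ, ∑ c, r c * EE (fun c => q c + s * r c) (fun F => h (insert c F) - h F) =
      R * ((∑ c ∈ D, EE (fun c => q c + s * r c) (fun F => h (insert c F))) / D.card - φ s) := by
    intro s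
    have e1 : ∑ c, r c * EE (fun c => q c + s * r c) (fun F => h (insert c F) - h F) =
        ∑ c ∈ D, b * EE (fun c => q c + s * r c) (fun F => h (insert c F) - h F) := by
      rw [← Finset.sum_subset (Finset.subset_univ D)]
      · exact Finset.sum_congr rfl fun c hc => by simp [hr, hc]
      · intro c _ hc; simp [hr, hc]
    rw [e1]
    simp only [EE_sub, mul_sub, Finset.sum_sub_distrib, Finset.sum_const, nsmul_eq_mul]
    rw [← Finset.mul_sum, hR]
    have e2 : EE (fun c => q c + s * r c) (fun F => h F) = φ s := rfl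
    rw [e2]
    field_simp
  have hφ0 : ∀ s, 0 ≤ s → 0 ≤ φ s := fun s hs => EE_nonneg
    (fun c => by have := hq c; simp only [hr]; split_ifs <;> positivity) hnn
  have hbd : ∀ s, 0 ≤ s →
      |∑ c, r c * EE (fun c => q c + s * r c) (fun F => h (insert c F) - h F)| ≤
        R * (η * φ s + τ) := by
    intro s hs
    rw [hval, abs_mul, abs_of_nonneg hR0]
    refine mul_le_mul_of_nonneg_left ?_ hR0
    have hq' : ∀ c, 0 ≤ q c + s * r c := fun c => by
      have := hq c; simp only [hr]; split_ifs <;> positivity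
    have ha' : ∀ c ∈ D, q c + s * r c = a + s * b := fun c hc => by simp [hr, hc, ha c hc]
    have ha0' : 0 < a + s * b := by positivity
    have key := EE_stat hq' hD ha0' ha' h0 h1 (h := h) (Hb := Hb)
      (fun F => by rw [abs_of_nonneg (hnn F)]; exact hb F)
    have e3 : EE (fun c => q c + s * r c) (fun F => |h F|) = φ s := by
      simp only [hφ]
      congr 1
      funext F; exact abs_of_nonneg (hnn F)
    rw [e3] at key
    refine le_trans key ?_
    have hple : 1 - Real.exp (-a) ≤ 1 - Real.exp (-(a + s * b)) := by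
      have : Real.exp (-(a + s * b)) ≤ Real.exp (-a) := Real.exp_le_exp.2 (by nlinarith)
      linarith
    have hp' : 0 < 1 - Real.exp (-(a + s * b)) := lt_of_lt_of_le hp hple
    have h5 : Hb * ((1 + 1 / (1 - Real.exp (-(a + s * b)))) *
        (2 * Real.exp (-(η ^ 2 * (D.card * (1 - Real.exp (-(a + s * b)))) / 4)))) ≤ τ := by
      rw [hτ]
      refine mul_le_mul_of_nonneg_left ?_ hHb
      refine mul_le_mul ?_ ?_ (by positivity) (by positivity)
      · have := one_div_le_one_div_of_le hp hple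
        linarith
      · refine mul_le_mul_of_nonneg_left (Real.exp_le_exp.2 ?_) (by norm_num)
        have : (D.card : ℝ) * (1 - Real.exp (-a)) ≤ D.card * (1 - Real.exp (-(a + s * b))) :=
          mul_le_mul_of_nonneg_left hple hc0.le
        nlinarith [sq_nonneg η]
    linarith
  have e0 : φ 0 = EE q h := by simp only [hφ]; congr 1; funext c; ring
  have e1 : φ 1 = EE (fun c => q c + if c ∈ D then b else 0) h := by
    simp only [hφ]; congr 1; funext c; simp [hr]
  have hexp : ∀ s : ℝ, ∀ k : ℝ, HasDerivAt (fun t : ℝ => Real.exp (k * t)) (Real.exp (k * s) * k) s := by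
    intro s k
    have h3 : HasDerivAt (fun t : ℝ => k * t) k s := by
      simpa using (hasDerivAt_id' s).const_mul k
    exact h3.exp
  constructor
  · -- upper bound
    set ψ : ℝ → ℝ := fun t => Real.exp (-(R * η) * t) * φ t - R * τ * t with hψ
    have hdψ : ∀ s : ℝ, HasDerivAt ψ (Real.exp (-(R * η) * s) * (-(R * η)) * φ s +
        Real.exp (-(R * η) * s) *
          (∑ c, r c * EE (fun c => q c + s * r c) (fun F => h (insert c F) - h F)) - R * τ) s := by
      intro s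
      have h4 : HasDerivAt (fun t : ℝ => R * τ * t) (R * τ) s := by
        simpa using (hasDerivAt_id' s).const_mul (R * τ)
      exact ((hexp s _).mul (hd s)).sub h4
    have hanti : AntitoneOn ψ (Set.Icc (0 : ℝ) 1) := by
      refine antitoneOn_of_deriv_nonpos (convex_Icc 0 1)
        (fun s _ => (hdψ s).continuousAt.continuousWithinAt)
        (fun s _ => (hdψ s).differentiableAt.differentiableWithinAt) ?_
      intro s hs
      rw [interior_Icc] at hs
      rw [(hdψ s).deriv]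
      have hE := Real.exp_pos (-(R * η) * s)
      have hE1 : Real.exp (-(R * η) * s) ≤ 1 := by
        rw [Real.exp_le_one_iff]
        have := mul_nonneg (mul_nonneg hR0 h0) hs.1.le
        linarith
      have h6 := (abs_le.1 (hbd s hs.1.le)).2
      have h7 : Real.exp (-(R * η) * s) *
          ((∑ c, r c * EE (fun c => q c + s * r c) (fun F => h (insert c F) - h F)) -
            R * η * φ s) ≤ Real.exp (-(R * η) * s) * (R * τ) :=
        mul_le_mul_of_nonneg_left (by linarith) hE.le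
      have h8 : Real.exp (-(R * η) * s) * (R * τ) ≤ 1 * (R * τ) :=
        mul_le_mul_of_nonneg_right hE1 (mul_nonneg hR0 hτ0)
      linarith
    have h01 := hanti (Set.left_mem_Icc.2 zero_le_one) (Set.right_mem_Icc.2 zero_le_one)
      zero_le_one
    simp only [hψ, mul_zero, Real.exp_zero, one_mul, sub_zero, mul_one] at h01
    rw [e0, e1] at h01
    have hE := Real.exp_pos (R * η)
    have h9 : Real.exp (R * η) * Real.exp (-(R * η)) = 1 := by
      rw [← Real.exp_add]; simp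
    have h10 : Real.exp (-(R * η)) * EE (fun c => q c + if c ∈ D then b else 0) h ≤
        EE q h + R * τ := by linarith
    calc EE (fun c => q c + if c ∈ D then b else 0) h
        = Real.exp (R * η) * (Real.exp (-(R * η)) *
            EE (fun c => q c + if c ∈ D then b else 0) h) := by rw [← mul_assoc, h9, one_mul]
      _ ≤ _ := mul_le_mul_of_nonneg_left h10 hE.le
  · -- lower bound
    set ψ : ℝ → ℝ := fun t => Real.exp ((R * η) * t) * φ t + Real.exp (R * η) * (R * τ) * t with hψ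
    have hdψ : ∀ s : ℝ, HasDerivAt ψ (Real.exp ((R * η) * s) * (R * η) * φ s +
        Real.exp ((R * η) * s) *
          (∑ c, r c * EE (fun c => q c + s * r c) (fun F => h (insert c F) - h F)) +
            Real.exp (R * η) * (R * τ)) s := by
      intro s
      have h4 : HasDerivAt (fun t : ℝ => Real.exp (R * η) * (R * τ) * t)
          (Real.exp (R * η) * (R * τ)) s := by
        simpa using (hasDerivAt_id' s).const_mul (Real.exp (R * η) * (R * τ))
      exact ((hexp s _).mul (hd s)).add h4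
    have hmono : MonotoneOn ψ (Set.Icc (0 : ℝ) 1) := by
      refine monotoneOn_of_deriv_nonneg (convex_Icc 0 1)
        (fun s _ => (hdψ s).continuousAt.continuousWithinAt)
        (fun s _ => (hdψ s).differentiableAt.differentiableWithinAt) ?_
      intro s hs
      rw [interior_Icc] at hs
      rw [(hdψ s).deriv]
      have hE := Real.exp_pos ((R * η) * s)
      have hE1 : Real.exp ((R * η) * s) ≤ Real.exp (R * η) := by
        refine Real.exp_le_exp.2 ?_
        have := mul_nonneg hR0 h0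
        nlinarith [hs.2]
      have h6 := (abs_le.1 (hbd s hs.1.le)).1
      have h7 : -(Real.exp ((R * η) * s) * (R * τ)) ≤ Real.exp ((R * η) * s) *
          ((∑ c, r c * EE (fun c => q c + s * r c) (fun F => h (insert c F) - h F)) +
            R * η * φ s) := by
        rw [← mul_neg]
        exact mul_le_mul_of_nonneg_left (by linarith) hE.le
      have h8 : Real.exp ((R * η) * s) * (R * τ) ≤ Real.exp (R * η) * (R * τ) :=
        mul_le_mul_of_nonneg_right hE1 (mul_nonneg hR0 hτ0)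
      linarith
    have h01 := hmono (Set.left_mem_Icc.2 zero_le_one) (Set.right_mem_Icc.2 zero_le_one)
      zero_le_one
    simp only [hψ, mul_zero, Real.exp_zero, one_mul, add_zero, mul_one] at h01
    rw [e0, e1] at h01
    linarith

end Pool.Agent.Lib.MP_9cae81_R
end

section

open Finset
open scoped BigOperators

namespace Pool.Agent.Lib.MP_9cae81_R

variable {V : Type} [Fintype V] [DecidableEq V]

/-- The block of unit clauses. -/
def blk1 (V : Type) [Fintype V] [DecidableEq V] : Finset (Cl V) :=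
  Finset.univ.image (fun a : Lt V => cu a)

/-- The block of 2-clauses. -/
def blk2 (V : Type) [Fintype V] [DecidableEq V] : Finset (Cl V) :=
  Finset.univ.image (fun p : Lt V × Lt V => cp p.1 p.2)

omit [Fintype V] [DecidableEq V] in
theorem cu_inj : Function.Injective (fun a : Lt V => cu a) := fun a b h => by
  simpa [cu] using h

omit [Fintype V] [DecidableEq V] in
theorem cp_inj : Function.Injective (fun p : Lt V × Lt V => cp p.1 p.2) := fun a b h => by
  have : (a.1, a.2) = (b.1, b.2) := by simpa [cp] using h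
  simpa using this

theorem card_blk1 : ((blk1 V).card : ℝ) = Fintype.card (Lt V) := by
  unfold blk1
  rw [Finset.card_image_of_injective _ cu_inj, Finset.card_univ]

theorem card_blk2 : ((blk2 V).card : ℝ) = (Fintype.card (Lt V) : ℝ) ^ 2 := by
  unfold blk2
  rw [Finset.card_image_of_injective _ cp_inj, Finset.card_univ, Fintype.card_prod]
  push_cast; ring

theorem sum_blk1 (f : Cl V → ℝ) : ∑ c ∈ blk1 V, f c = ∑ a : Lt V, f (cu a) := by
  unfold blk1
  rw [Finset.sum_image (fun a _ b _ h => cu_inj h)]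

theorem sum_blk2 (f : Cl V → ℝ) : ∑ c ∈ blk2 V, f c = ∑ p : Lt V × Lt V, f (cp p.1 p.2) := by
  unfold blk2
  rw [Finset.sum_image (fun a _ b _ h => cp_inj h)]

theorem mem_blk1 (c : Cl V) : c ∈ blk1 V ↔ ∃ a, c = cu a := by
  unfold blk1; simp [eq_comm]

theorem mem_blk2 (c : Cl V) : c ∈ blk2 V ↔ ∃ a b, c = cp a b := by
  unfold blk2; simp [eq_comm]

theorem qq_blk1 (u v w : ℝ) : ∀ c ∈ blk1 V, qq u v w c = u := by
  intro c hc
  obtain ⟨a, rfl⟩ := (mem_blk1 c).1 hc
  rfl

theorem qq_blk2 (u v w : ℝ) : ∀ c ∈ blk2 V, qq u v w c = v := by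
  intro c hc
  obtain ⟨a, b, rfl⟩ := (mem_blk2 c).1 hc
  rfl

theorem blk1_nonempty [Nonempty V] : (blk1 V).Nonempty :=
  ⟨cu (Classical.arbitrary V, true), (mem_blk1 _).2 ⟨_, rfl⟩⟩

theorem blk2_nonempty [Nonempty V] : (blk2 V).Nonempty :=
  ⟨cp (Classical.arbitrary V, true) (Classical.arbitrary V, true), (mem_blk2 _).2 ⟨_, _, rfl⟩⟩

theorem qq_add_blk1 (u v w a : ℝ) :
    (fun c : Cl V => qq u v w c + if c ∈ blk1 V then a else 0) = qq (u + a) v w := by
  funext c
  rcases c with c | c | c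
  · have : (Sum.inl c : Cl V) ∈ blk1 V := (mem_blk1 _).2 ⟨c, rfl⟩
    simp [qq, this]
  · have : (Sum.inr (Sum.inl c) : Cl V) ∉ blk1 V := fun h => by
      obtain ⟨a, ha⟩ := (mem_blk1 _).1 h
      simp [cu] at ha
    simp [qq, this]
  · have : (Sum.inr (Sum.inr c) : Cl V) ∉ blk1 V := fun h => by
      obtain ⟨a, ha⟩ := (mem_blk1 _).1 h
      simp [cu] at ha
    simp [qq, this]

theorem qq_add_blk2 (u v w b : ℝ) :
    (fun c : Cl V => qq u v w c + if c ∈ blk2 V then b else 0) = qq u (v + b) w := by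
  funext c
  rcases c with c | c | c
  · have : (Sum.inl c : Cl V) ∉ blk2 V := fun h => by
      obtain ⟨a, b, ha⟩ := (mem_blk2 _).1 h
      simp [cp] at ha
    simp [qq, this]
  · have : (Sum.inr (Sum.inl c) : Cl V) ∈ blk2 V := (mem_blk2 _).2 ⟨c.1, c.2, rfl⟩
    simp [qq, this]
  · have : (Sum.inr (Sum.inr c) : Cl V) ∉ blk2 V := fun h => by
      obtain ⟨a, b, ha⟩ := (mem_blk2 _).1 h
      simp [cp] at ha
    simp [qq, this]

omit [Fintype V] [DecidableEq V] in
theorem qq_add (u v w u' v' w' : ℝ) :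
    (fun c : Cl V => qq u v w c + qq u' v' w' c) = qq (u + u') (v + v') (w + w') := by
  funext c
  rcases c with c | c | c <;> simp [qq]

/-- Adding an independent batch of unit clauses and 2-clauses adds the intensities. -/
theorem EE_batch (u v w a b : ℝ) (h : Finset (Cl V) → ℝ) :
    EE (qq u v w) (fun F => EE (qq a b 0) (fun A => h (F ∪ A))) =
      EE (qq (u + a) (v + b) w) h := by
  rw [EE_union, qq_add, add_zero]

/-- The exponentially small term: `m` is the number of clauses of the block, `a` their intensity. -/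
noncomputable def tl (m a η : ℝ) : ℝ :=
  (1 + 1 / (1 - Real.exp (-a))) * (2 * Real.exp (-(η ^ 2 * (m * (1 - Real.exp (-a))) / 4)))

theorem tl_nonneg {m a η : ℝ} (ha : 0 ≤ a) : 0 ≤ tl m a η := by
  unfold tl
  have := one_sub_exp_nonneg' ha
  positivity

theorem tl_le {m a η m' : ℝ} {k : ℝ} (ha : 0 < a) (ha1 : a ≤ 1) (hm : 0 ≤ m) (hk : 1 / a ≤ k)
    (hm' : m' ≤ m * a / 2) :
    tl m a η ≤ (1 + 2 * k) * (2 * Real.exp (-(η ^ 2 * m' / 4))) := by
  unfold tl
  have h1 : a / 2 ≤ 1 - Real.exp (-a) := by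
    have h4 : Real.exp (-a) ≤ 1 - a / 2 := by
      -- `exp(-a) ≤ 1/(1+a) ≤ 1 - a/2` for `0 ≤ a ≤ 1`
      have h5 : Real.exp (-a) ≤ 1 / (1 + a) := by
        rw [Real.exp_neg, one_div]
        exact inv_anti₀ (by linarith) (by linarith [Real.add_one_le_exp a])
      have h6 : 1 / (1 + a) ≤ 1 - a / 2 := by
        rw [div_le_iff₀ (by linarith)]
        nlinarith
      linarith
    linarith
  have h0 : 0 < 1 - Real.exp (-a) := by linarith
  have hk0 : 0 < k := lt_of_lt_of_le (by positivity) hk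
  refine mul_le_mul ?_ ?_ (by positivity) (by positivity)
  · have h2 : 1 / (1 - Real.exp (-a)) ≤ 1 / (a / 2) := one_div_le_one_div_of_le (by linarith) h1
    have h3 : 1 / (a / 2) = 2 * (1 / a) := by field_simp
    linarith
  · refine mul_le_mul_of_nonneg_left (Real.exp_le_exp.2 ?_) (by norm_num)
    have h2 : m * (a / 2) ≤ m * (1 - Real.exp (-a)) := mul_le_mul_of_nonneg_left h1 hm
    nlinarith [sq_nonneg η]

/-- Stationarity under adding a uniform unit clause. -/
theorem P1_stat [Nonempty V] {u v w : ℝ} (hu : 0 < u) (hv : 0 ≤ v) (hw : 0 ≤ w) {η : ℝ}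
    (h0 : 0 ≤ η) (h1 : η ≤ 1) {h : Finset (Cl V) → ℝ} {Hb : ℝ} (hb : ∀ F, |h F| ≤ Hb) :
    |EE (qq u v w) (fun F => (∑ a : Lt V, h (insert (cu a) F)) / (Fintype.card (Lt V) : ℝ)) -
        EE (qq u v w) h| ≤
      η * EE (qq u v w) (fun F => |h F|) + Hb * tl (Fintype.card (Lt V)) u η := by
  have key := EE_stat (q := qq u v w) (qq_nonneg hu.le hv hw) (D := blk1 V) blk1_nonempty hu
    (qq_blk1 u v w) h0 h1 (h := h) hb
  rw [card_blk1, sum_blk1 (fun c => EE (qq u v w) (fun F => h (insert c F)))] at key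
  have e1 : EE (qq u v w) (fun F => (∑ a : Lt V, h (insert (cu a) F)) /
      (Fintype.card (Lt V) : ℝ)) =
      (∑ a : Lt V, EE (qq u v w) (fun F => h (insert (cu a) F))) / (Fintype.card (Lt V) : ℝ) := by
    have e2 : (fun F : Finset (Cl V) => (∑ a : Lt V, h (insert (cu a) F)) /
        (Fintype.card (Lt V) : ℝ)) =
        fun F => (Fintype.card (Lt V) : ℝ)⁻¹ * ∑ a : Lt V, h (insert (cu a) F) := by
      funext F; rw [div_eq_inv_mul]
    rw [e2, EE_mul_left, EE_sum, div_eq_inv_mul]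
  rw [e1]
  exact key

/-- Stationarity under adding a uniform 2-clause. -/
theorem P2_stat [Nonempty V] {u v w : ℝ} (hu : 0 ≤ u) (hv : 0 < v) (hw : 0 ≤ w) {η : ℝ}
    (h0 : 0 ≤ η) (h1 : η ≤ 1) {h : Finset (Cl V) → ℝ} {Hb : ℝ} (hb : ∀ F, |h F| ≤ Hb) :
    |EE (qq u v w) (fun F => (∑ p : Lt V × Lt V, h (insert (cp p.1 p.2) F)) /
        (Fintype.card (Lt V) : ℝ) ^ 2) - EE (qq u v w) h| ≤
      η * EE (qq u v w) (fun F => |h F|) + Hb * tl ((Fintype.card (Lt V) : ℝ) ^ 2) v η := by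
  have key := EE_stat (q := qq u v w) (qq_nonneg hu hv.le hw) (D := blk2 V) blk2_nonempty hv
    (qq_blk2 u v w) h0 h1 (h := h) hb
  rw [card_blk2, sum_blk2 (fun c => EE (qq u v w) (fun F => h (insert c F)))] at key
  have e1 : EE (qq u v w) (fun F => (∑ p : Lt V × Lt V, h (insert (cp p.1 p.2) F)) /
      (Fintype.card (Lt V) : ℝ) ^ 2) =
      (∑ p : Lt V × Lt V, EE (qq u v w) (fun F => h (insert (cp p.1 p.2) F))) /
        (Fintype.card (Lt V) : ℝ) ^ 2 := by
    have e2 : (fun F : Finset (Cl V) => (∑ p : Lt V × Lt V, h (insert (cp p.1 p.2) F)) /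
        (Fintype.card (Lt V) : ℝ) ^ 2) =
        fun F => ((Fintype.card (Lt V) : ℝ) ^ 2)⁻¹ *
          ∑ p : Lt V × Lt V, h (insert (cp p.1 p.2) F) := by
      funext F; rw [div_eq_inv_mul]
    rw [e2, EE_mul_left, EE_sum, div_eq_inv_mul]
  rw [e1]
  exact key

/-- Raising the intensity of the unit clauses by `a`. -/
theorem unit_shift [Nonempty V] {u v w a : ℝ} (hu : 0 < u) (hv : 0 ≤ v) (hw : 0 ≤ w)
    (ha : 0 ≤ a) {η : ℝ} (h0 : 0 ≤ η) (h1 : η ≤ 1) {h : Finset (Cl V) → ℝ} {Hb : ℝ}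
    (hnn : ∀ F, 0 ≤ h F) (hb : ∀ F, h F ≤ Hb) :
    EE (qq (u + a) v w) h ≤ Real.exp (a * Fintype.card (Lt V) * η) *
        (EE (qq u v w) h + a * Fintype.card (Lt V) * (Hb * tl (Fintype.card (Lt V)) u η)) ∧
      EE (qq u v w) h ≤ Real.exp (a * Fintype.card (Lt V) * η) *
        (EE (qq (u + a) v w) h +
          a * Fintype.card (Lt V) * (Hb * tl (Fintype.card (Lt V)) u η)) := by
  have key := EE_shift_block (q := qq u v w) (qq_nonneg hu.le hv hw) (D := blk1 V) blk1_nonempty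
    hu ha (qq_blk1 u v w) h0 h1 (h := h) (Hb := Hb)
    (τ := Hb * tl (Fintype.card (Lt V)) u η) (R := a * Fintype.card (Lt V)) hnn hb
    (by rw [card_blk1]; rfl) (by rw [card_blk1])
  rw [qq_add_blk1] at key
  exact key

/-- Raising the intensity of the 2-clauses by `b`. -/
theorem pair_shift [Nonempty V] {u v w b : ℝ} (hu : 0 ≤ u) (hv : 0 < v) (hw : 0 ≤ w)
    (hb' : 0 ≤ b) {η : ℝ} (h0 : 0 ≤ η) (h1 : η ≤ 1) {h : Finset (Cl V) → ℝ} {Hb : ℝ}
    (hnn : ∀ F, 0 ≤ h F) (hb : ∀ F, h F ≤ Hb) :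
    EE (qq u (v + b) w) h ≤ Real.exp (b * (Fintype.card (Lt V) : ℝ) ^ 2 * η) *
        (EE (qq u v w) h + b * (Fintype.card (Lt V) : ℝ) ^ 2 *
          (Hb * tl ((Fintype.card (Lt V) : ℝ) ^ 2) v η)) ∧
      EE (qq u v w) h ≤ Real.exp (b * (Fintype.card (Lt V) : ℝ) ^ 2 * η) *
        (EE (qq u (v + b) w) h + b * (Fintype.card (Lt V) : ℝ) ^ 2 *
          (Hb * tl ((Fintype.card (Lt V) : ℝ) ^ 2) v η)) := by
  have key := EE_shift_block (q := qq u v w) (qq_nonneg hu hv.le hw) (D := blk2 V) blk2_nonempty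
    hv hb' (qq_blk2 u v w) h0 h1 (h := h) (Hb := Hb)
    (τ := Hb * tl ((Fintype.card (Lt V) : ℝ) ^ 2) v η)
    (R := b * (Fintype.card (Lt V) : ℝ) ^ 2) hnn hb
    (by rw [card_blk2]; rfl) (by rw [card_blk2])
  rw [qq_add_blk2] at key
  exact key

/-- **Batch stationarity.**  Adding an independent batch `A` of unit clauses (intensity `a`) and
2-clauses (intensity `b`) changes the expectation of `0 ≤ h ≤ Hb` by a factor close to one.
`c1 = a |Lt|` and `c2 = b |Lt|²` are the mean numbers of added clauses. -/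
theorem batch_stat [Nonempty V] {u v w a b : ℝ} (hu : 0 < u) (hv : 0 < v) (hw : 0 ≤ w)
    (ha : 0 ≤ a) (hb' : 0 ≤ b) {η : ℝ} (h0 : 0 ≤ η) (h1 : η ≤ 1) {h : Finset (Cl V) → ℝ}
    {Hb c1 c2 τ : ℝ} (hc1 : c1 = a * Fintype.card (Lt V))
    (hc2 : c2 = b * (Fintype.card (Lt V) : ℝ) ^ 2)
    (hτ1 : tl (Fintype.card (Lt V)) u η ≤ τ)
    (hτ2 : tl ((Fintype.card (Lt V) : ℝ) ^ 2) v η ≤ τ)
    (hnn : ∀ F, 0 ≤ h F) (hb : ∀ F, h F ≤ Hb) :
    EE (qq u v w) (fun F => EE (qq a b 0) (fun A => h (F ∪ A))) ≤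
        Real.exp ((c1 + c2) * η) * (EE (qq u v w) h + (c1 + c2) * (Hb * τ)) ∧
      EE (qq u v w) h ≤ Real.exp ((c1 + c2) * η) *
        (EE (qq u v w) (fun F => EE (qq a b 0) (fun A => h (F ∪ A))) +
          (c1 + c2) * (Hb * τ)) := by
  rw [EE_batch]
  have hHb : 0 ≤ Hb := le_trans (hnn ∅) (hb ∅)
  have hc1' : 0 ≤ c1 := by rw [hc1]; positivity
  have hc2' : 0 ≤ c2 := by rw [hc2]; positivity
  have k1 := unit_shift (V := V) (u := u) (v := v) (w := w) hu hv.le hw ha h0 h1 hnn hb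
  have k2 := pair_shift (V := V) (u := u + a) (v := v) (w := w) (b := b) (by linarith) hv hw hb'
    h0 h1 hnn hb
  rw [← hc1] at k1
  rw [← hc2] at k2
  have t1 : c1 * (Hb * tl (Fintype.card (Lt V)) u η) ≤ c1 * (Hb * τ) :=
    mul_le_mul_of_nonneg_left (mul_le_mul_of_nonneg_left hτ1 hHb) hc1'
  have t2 : c2 * (Hb * tl ((Fintype.card (Lt V) : ℝ) ^ 2) v η) ≤ c2 * (Hb * τ) :=
    mul_le_mul_of_nonneg_left (mul_le_mul_of_nonneg_left hτ2 hHb) hc2'
  have hτ0 : 0 ≤ Hb * τ := mul_nonneg hHb (le_trans (tl_nonneg hu.le) hτ1)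
  have eadd : Real.exp ((c1 + c2) * η) = Real.exp (c1 * η) * Real.exp (c2 * η) := by
    rw [← Real.exp_add]; ring_nf
  have E1 : 1 ≤ Real.exp (c1 * η) := Real.one_le_exp (by positivity)
  have E2 : 1 ≤ Real.exp (c2 * η) := Real.one_le_exp (by positivity)
  constructor
  · calc EE (qq (u + a) (v + b) w) h
        ≤ Real.exp (c2 * η) * (EE (qq (u + a) v w) h + c2 * (Hb * τ)) := by
          refine le_trans k2.1 (mul_le_mul_of_nonneg_left ?_ (by positivity))
          linarith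
      _ ≤ Real.exp (c2 * η) * (Real.exp (c1 * η) * (EE (qq u v w) h + c1 * (Hb * τ)) +
            Real.exp (c1 * η) * (c2 * (Hb * τ))) := by
          refine mul_le_mul_of_nonneg_left ?_ (by positivity)
          have h5 : EE (qq (u + a) v w) h ≤
              Real.exp (c1 * η) * (EE (qq u v w) h + c1 * (Hb * τ)) :=
            le_trans k1.1 (mul_le_mul_of_nonneg_left (by linarith) (by positivity))
          have h6 : c2 * (Hb * τ) ≤ Real.exp (c1 * η) * (c2 * (Hb * τ)) :=
            le_mul_of_one_le_left (by positivity) E1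
          linarith
      _ = _ := by rw [eadd]; ring
  · calc EE (qq u v w) h
        ≤ Real.exp (c1 * η) * (EE (qq (u + a) v w) h + c1 * (Hb * τ)) :=
          le_trans k1.2 (mul_le_mul_of_nonneg_left (by linarith) (by positivity))
      _ ≤ Real.exp (c1 * η) * (Real.exp (c2 * η) * (EE (qq (u + a) (v + b) w) h +
            c2 * (Hb * τ)) + Real.exp (c2 * η) * (c1 * (Hb * τ))) := by
          refine mul_le_mul_of_nonneg_left ?_ (by positivity)
          have h5 : EE (qq (u + a) v w) h ≤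
              Real.exp (c2 * η) * (EE (qq (u + a) (v + b) w) h + c2 * (Hb * τ)) :=
            le_trans k2.2 (mul_le_mul_of_nonneg_left (by linarith) (by positivity))
          have h6 : c1 * (Hb * τ) ≤ Real.exp (c2 * η) * (c1 * (Hb * τ)) :=
            le_mul_of_one_le_left (by positivity) E2
          linarith
      _ = _ := by rw [eadd]; ring

theorem card_Lt (n : ℕ) : (Fintype.card (Lt (Fin n)) : ℝ) = 2 * n := by
  simp [Lt, Fintype.card_prod]; ring

/-- Explicit size of the exponentially small term for unit clauses of intensity `L/(2N)`. -/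
theorem tl_unit_explicit {n N : ℕ} (hN : 1 ≤ N) (hn : N ≤ 2 * n) {L η : ℝ} (hL : 1 ≤ L)
    (hLN : L ≤ 2 * N) :
    tl (Fintype.card (Lt (Fin n))) (L / (2 * N)) η ≤
      (1 + 4 * N) * (2 * Real.exp (-(η ^ 2 * L / 16))) := by
  have hN' : (1 : ℝ) ≤ N := by exact_mod_cast hN
  have hn' : (N : ℝ) ≤ 2 * n := by exact_mod_cast hn
  have key := tl_le (m := Fintype.card (Lt (Fin n))) (a := L / (2 * N)) (η := η) (m' := L / 4)
    (k := 2 * N) (by positivity) (by rw [div_le_one (by positivity)]; exact hLN) (by positivity)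
    (by
      rw [one_div, inv_div]
      exact div_le_self (by positivity) hL)
    (by
      rw [card_Lt, div_le_iff₀ (by norm_num)]
      have : 2 * (n : ℝ) * (L / (2 * N)) / 2 * 4 = L * (2 * n / N) := by field_simp; ring
      rw [this]
      have h2 : 1 ≤ 2 * (n : ℝ) / N := by rw [one_le_div (by positivity)]; exact hn'
      nlinarith)
  refine le_trans key (le_of_eq ?_)
  ring_nf

/-- Explicit size of the exponentially small term for 2-clauses of intensity `x/(4N)`. -/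
theorem tl_pair_explicit {n N : ℕ} (hN : 1 ≤ N) (hn : N ≤ 2 * n) {x η : ℝ} (hx : 1 / 2 ≤ x)
    (hx1 : x ≤ 4 * N) :
    tl ((Fintype.card (Lt (Fin n)) : ℝ) ^ 2) (x / (4 * N)) η ≤
      (1 + 16 * N) * (2 * Real.exp (-(η ^ 2 * N / 64))) := by
  have hN' : (1 : ℝ) ≤ N := by exact_mod_cast hN
  have hn' : (N : ℝ) ≤ 2 * n := by exact_mod_cast hn
  have hx0 : 0 < x := by linarith
  have key := tl_le (m := (Fintype.card (Lt (Fin n)) : ℝ) ^ 2) (a := x / (4 * N)) (η := η)
    (m' := N / 16) (k := 8 * N) (by positivity)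
    (by rw [div_le_one (by positivity)]; exact hx1) (by positivity)
    (by
      rw [one_div, inv_div, div_le_iff₀ hx0]
      nlinarith)
    (by
      rw [card_Lt, div_le_iff₀ (by norm_num)]
      have : (2 * (n : ℝ)) ^ 2 * (x / (4 * N)) / 2 * 16 = (2 * n) ^ 2 / N * (2 * x) := by
        field_simp; ring
      rw [this]
      have h2 : (N : ℝ) ≤ (2 * (n : ℝ)) ^ 2 / N := by
        rw [le_div_iff₀ (by positivity)]
        nlinarith
      nlinarith)
  refine le_trans key (le_of_eq ?_)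
  ring_nf

end Pool.Agent.Lib.MP_9cae81_R
end
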