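import Pool.Agent.Lib.MP_9cae81_PC.Defs
import Pool.Agent.Lib.MP_9cae81_R.Mg.G009
import Pool.Agent.Lib.MP_9cae81_R.A4
import Pool.Agent.Lib.MP_9cae81_PC.Mg.G001
import Pool.Agent.Lib.MP_9cae81_PC.Sys

section

/-!
# The new variable: splitting of satisfiability and projections

`jn i M A B`: the models of the formula on `n + 1` variables with old part `M`, constraints `A` for
`i` false and `B` for `i` true; `lf i U`: constraints `U` on the old variables.
-/

set_option autoImplicit false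

namespace Pool.Agent.Lib.MP_9cae81_PC

open Pool.Agent.Lib.MP_9cae81_R

variable {n : ℕ}

/-- Constraints on the variables different from `i`. -/
def lf (i : Fin (n + 1)) (U : As (Fin n)) : As (Fin (n + 1)) := {σ | i.removeNth σ ∈ U}

theorem mem_lf {i : Fin (n + 1)} {U : As (Fin n)} {σ : Fin (n + 1) → Bool} :
    σ ∈ lf i U ↔ i.removeNth σ ∈ U := Iff.rfl

theorem mem_jn {i : Fin (n + 1)} {M A B : As (Fin n)} {σ : Fin (n + 1) → Bool} :
    σ ∈ jn i M A B ↔
      i.removeNth σ ∈ M ∧ (σ i = false → i.removeNth σ ∈ A) ∧ (σ i = true → i.removeNth σ ∈ B) :=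
  Iff.rfl

theorem mem_pr {i : Fin (n + 1)} {S : As (Fin (n + 1))} {τ : Fin n → Bool} :
    τ ∈ pr i S ↔ ∃ b : Bool, i.insertNth b τ ∈ S := Iff.rfl

theorem mem_lit {V : Type} {a : Lt V} {σ : V → Bool} : σ ∈ lit a ↔ σ a.1 = a.2 := Iff.rfl

/-- An old literal. -/
theorem lit_succAbove (i : Fin (n + 1)) (j : Fin n) (b : Bool) :
    lit (i.succAbove j, b) = lf i (lit (j, b)) := by
  ext σ
  simp only [mem_lit, mem_lf, Fin.removeNth_apply]

theorem lf_univ (i : Fin (n + 1)) : lf i (Set.univ : As (Fin n)) = Set.univ := by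
  ext σ; simp [mem_lf]

theorem lf_inter (i : Fin (n + 1)) (U U' : As (Fin n)) : lf i (U ∩ U') = lf i U ∩ lf i U' := by
  ext σ; simp [mem_lf]

theorem lf_union (i : Fin (n + 1)) (U U' : As (Fin n)) : lf i (U ∪ U') = lf i U ∪ lf i U' := by
  ext σ; simp [mem_lf]

theorem lf_mono {i : Fin (n + 1)} {U U' : As (Fin n)} (h : U ⊆ U') : lf i U ⊆ lf i U' :=
  fun _ hσ => h hσ

theorem jn_mono {i : Fin (n + 1)} {M A B M' A' B' : As (Fin n)} (hM : M ⊆ M') (hA : A ⊆ A')
    (hB : B ⊆ B') : jn i M A B ⊆ jn i M' A' B' :=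
  fun _ h => ⟨hM h.1, fun e => hA (h.2.1 e), fun e => hB (h.2.2 e)⟩

/-! ### Adding constraints -/

theorem jn_inter_lf (i : Fin (n + 1)) (M A B U : As (Fin n)) :
    jn i M A B ∩ lf i U = jn i (M ∩ U) A B := by
  ext σ
  simp only [mem_jn, mem_lf, Set.mem_inter_iff]
  tauto

theorem jn_inter_lf' (i : Fin (n + 1)) (M A B U : As (Fin n)) :
    jn i M A B ∩ lf i U = jn i M (A ∩ U) (B ∩ U) := by
  ext σ
  simp only [mem_jn, mem_lf, Set.mem_inter_iff]
  rcases Bool.eq_false_or_eq_true (σ i) with h | h <;> simp [h] <;> tauto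

theorem jn_inter_true (i : Fin (n + 1)) (M A B : As (Fin n)) :
    jn i M A B ∩ lit (i, true) = jn i M ∅ B := by
  ext σ
  simp only [mem_jn, mem_lit, Set.mem_inter_iff, Set.mem_empty_iff_false]
  rcases Bool.eq_false_or_eq_true (σ i) with h | h <;> simp [h]

theorem jn_inter_false (i : Fin (n + 1)) (M A B : As (Fin n)) :
    jn i M A B ∩ lit (i, false) = jn i M A ∅ := by
  ext σ
  simp only [mem_jn, mem_lit, Set.mem_inter_iff, Set.mem_empty_iff_false]
  rcases Bool.eq_false_or_eq_true (σ i) with h | h <;> simp [h]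

/-- The clause `x₀ ∨ T`. -/
theorem jn_inter_or_true (i : Fin (n + 1)) (M A B T : As (Fin n)) :
    jn i M A B ∩ (lit (i, true) ∪ lf i T) = jn i M (A ∩ T) B := by
  ext σ
  simp only [mem_jn, mem_lit, mem_lf, Set.mem_inter_iff, Set.mem_union]
  rcases Bool.eq_false_or_eq_true (σ i) with h | h <;> simp [h]
  tauto

theorem jn_inter_or_false (i : Fin (n + 1)) (M A B T : As (Fin n)) :
    jn i M A B ∩ (lit (i, false) ∪ lf i T) = jn i M A (B ∩ T) := by
  ext σ
  simp only [mem_jn, mem_lit, mem_lf, Set.mem_inter_iff, Set.mem_union]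
  rcases Bool.eq_false_or_eq_true (σ i) with h | h <;> simp [h]
  tauto

/-! ### Projections -/

theorem pr_jn (i : Fin (n + 1)) (M A B : As (Fin n)) : pr i (jn i M A B) = M ∩ (A ∪ B) := by
  ext τ
  simp only [mem_pr, mem_jn, Set.mem_inter_iff, Set.mem_union, Fin.removeNth_insertNth,
    Fin.insertNth_apply_same]
  constructor
  · rintro ⟨b, h1, h2, h3⟩
    refine ⟨h1, ?_⟩
    cases b
    · exact Or.inl (h2 rfl)
    · exact Or.inr (h3 rfl)
  · rintro ⟨h1, h2 | h2⟩
    · exact ⟨false, h1, fun _ => h2, fun h => by simp at h⟩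
    · exact ⟨true, h1, fun h => by simp at h, fun _ => h2⟩

theorem pr_inter_lf (i : Fin (n + 1)) (S : As (Fin (n + 1))) (U : As (Fin n)) :
    pr i (S ∩ lf i U) = pr i S ∩ U := by
  ext τ
  simp only [mem_pr, mem_lf, Set.mem_inter_iff, Fin.removeNth_insertNth]
  constructor
  · rintro ⟨b, h1, h2⟩; exact ⟨⟨b, h1⟩, h2⟩
  · rintro ⟨⟨b, h1⟩, h2⟩; exact ⟨b, h1, h2⟩

theorem pr_mono {i : Fin (n + 1)} {S S' : As (Fin (n + 1))} (h : S ⊆ S') : pr i S ⊆ pr i S' :=
  fun _ ⟨b, hb⟩ => ⟨b, h hb⟩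

theorem pr_jn_true (i : Fin (n + 1)) (M A B : As (Fin n)) :
    pr i (jn i M A B ∩ lit (i, true)) = M ∩ B := by
  rw [jn_inter_true, pr_jn, Set.empty_union]

theorem pr_jn_false (i : Fin (n + 1)) (M A B : As (Fin n)) :
    pr i (jn i M A B ∩ lit (i, false)) = M ∩ A := by
  rw [jn_inter_false, pr_jn, Set.union_empty]

theorem pr_jn_or_true (i : Fin (n + 1)) (M A B T : As (Fin n)) :
    pr i (jn i M A B ∩ (lit (i, true) ∪ lf i T)) = M ∩ (B ∪ (A ∩ T)) := by
  rw [jn_inter_or_true, pr_jn, Set.union_comm]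

theorem pr_jn_or_false (i : Fin (n + 1)) (M A B T : As (Fin n)) :
    pr i (jn i M A B ∩ (lit (i, false) ∪ lf i T)) = M ∩ (A ∪ (B ∩ T)) := by
  rw [jn_inter_or_false, pr_jn]

theorem pr_jn_lf (i : Fin (n + 1)) (M A B U : As (Fin n)) :
    pr i (jn i M A B ∩ lf i U) = M ∩ (A ∪ B) ∩ U := by
  rw [pr_inter_lf, pr_jn]

theorem pr_jn_true_lf (i : Fin (n + 1)) (M A B U : As (Fin n)) :
    pr i (jn i M A B ∩ lit (i, true) ∩ lf i U) = M ∩ B ∩ U := by
  rw [pr_inter_lf, pr_jn_true]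

theorem pr_jn_or_true_lf (i : Fin (n + 1)) (M A B T U : As (Fin n)) :
    pr i (jn i M A B ∩ (lit (i, true) ∪ lf i T) ∩ lf i U) = M ∩ (B ∪ (A ∩ T)) ∩ U := by
  rw [pr_inter_lf, pr_jn_or_true]

theorem pr_eq_empty_iff (i : Fin (n + 1)) (S : As (Fin (n + 1))) : pr i S = ∅ ↔ S = ∅ := by
  constructor
  · intro h
    rw [Set.eq_empty_iff_forall_notMem]
    intro σ hσ
    have : i.removeNth σ ∈ pr i S := ⟨σ i, by rwa [Fin.insertNth_self_removeNth]⟩
    rw [h] at this
    exact this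
  · rintro rfl
    rw [Set.eq_empty_iff_forall_notMem]
    rintro τ ⟨b, hb⟩
    exact hb

theorem una_pr (i : Fin (n + 1)) (S : As (Fin (n + 1))) : una (pr i S) = una S := by
  unfold una
  have h := pr_eq_empty_iff i S
  by_cases h1 : S = ∅
  · rw [if_pos h1, if_pos (h.2 h1)]
  · rw [if_neg h1, if_neg (fun e => h1 (h.1 e))]

/-! ### Satisfiability splits -/

theorem una_empty {V : Type} : una (∅ : As V) = 1 := by simp [una]

theorem una_union {V : Type} (S A B : As V) : una (S ∩ (A ∪ B)) = una (S ∩ A) * una (S ∩ B) := by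
  unfold una
  have : S ∩ (A ∪ B) = ∅ ↔ S ∩ A = ∅ ∧ S ∩ B = ∅ := by
    rw [Set.inter_union_distrib_left, Set.union_empty_iff]
  by_cases h1 : S ∩ A = ∅ <;> by_cases h2 : S ∩ B = ∅ <;> simp [this, h1, h2]

/-- `un(F) = un(F' ∧ A) un(F' ∧ B)`. -/
theorem una_jn (i : Fin (n + 1)) (M A B : As (Fin n)) :
    una (jn i M A B) = una (M ∩ A) * una (M ∩ B) := by
  rw [← una_pr i, pr_jn, una_union]

/-- `un(F ∧ U) = un(F' ∧ A ∧ U) un(F' ∧ B ∧ U)`. -/
theorem una_jn_lf (i : Fin (n + 1)) (M A B U : As (Fin n)) :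
    una (jn i M A B ∩ lf i U) = una (M ∩ A ∩ U) * una (M ∩ B ∩ U) := by
  rw [jn_inter_lf', una_jn, Set.inter_assoc, Set.inter_assoc]

/-- `un(F ∧ x₀ ∧ U) = un(F' ∧ B ∧ U)`. -/
theorem una_jn_true_lf (i : Fin (n + 1)) (M A B U : As (Fin n)) :
    una (jn i M A B ∩ lit (i, true) ∩ lf i U) = una (M ∩ B ∩ U) := by
  rw [← una_pr i, pr_jn_true_lf]

/-- `un(F ∧ x̄₀ ∧ U) = un(F' ∧ A ∧ U)`. -/
theorem una_jn_false_lf (i : Fin (n + 1)) (M A B U : As (Fin n)) :
    una (jn i M A B ∩ lit (i, false) ∩ lf i U) = una (M ∩ A ∩ U) := by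
  rw [← una_pr i, pr_inter_lf, pr_jn_false]

/-- `un(F ∧ (x₀ ∨ T) ∧ U) = un(F' ∧ A ∧ T ∧ U) un(F' ∧ B ∧ U)`. -/
theorem una_jn_or_true_lf (i : Fin (n + 1)) (M A B T U : As (Fin n)) :
    una (jn i M A B ∩ (lit (i, true) ∪ lf i T) ∩ lf i U) =
      una (M ∩ (A ∩ T) ∩ U) * una (M ∩ B ∩ U) := by
  rw [jn_inter_or_true, una_jn_lf]

/-- `un(F ∧ (x̄₀ ∨ T) ∧ U) = un(F' ∧ A ∧ U) un(F' ∧ B ∧ T ∧ U)`. -/
theorem una_jn_or_false_lf (i : Fin (n + 1)) (M A B T U : As (Fin n)) :
    una (jn i M A B ∩ (lit (i, false) ∪ lf i T) ∩ lf i U) =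
      una (M ∩ A ∩ U) * una (M ∩ (B ∩ T) ∩ U) := by
  rw [jn_inter_or_false, una_jn_lf]

end Pool.Agent.Lib.MP_9cae81_PC
end

section

/-!
# Definitions of block A
-/

set_option autoImplicit false

open Finset Filter
open scoped BigOperators Topology

namespace Pool.Agent.Lib.MP_9cae81_PC

open Pool.Agent.Lib.MP_9cae81_R

/-- Functionals of the state: one function for every number of variables. -/
abbrev Fun : Type := (n : ℕ) → As (Fin n) → ℝ

/-- Bounded by one. -/
def B1 (h : Fun) : Prop := ∀ n S, |h n S| ≤ 1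

/-- Kills: `K` is a set of values of the variable `i` that are forbidden. -/
def kl {n : ℕ} (i : Fin (n + 1)) (K : Finset Bool) : As (Fin (n + 1)) := {σ | σ i ∉ K}

/-- Functionals with a marked literal. -/
abbrev FunL : Type := (n : ℕ) → As (Fin n) → Lt (Fin n) → ℝ

/-- Average over the marked literal. -/
noncomputable def avL (G : FunL) : Fun := fun n S =>
  (∑ a : Lt (Fin n), G n S a) / Fintype.card (Lt (Fin n))

/-- The cavity functional: the marked literal is a literal of the new variable, with the gadgets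
`A` (variable false) and `B` (variable true). -/
noncomputable def cav (v w : ℝ) (G : FunL) : Fun := fun n M =>
  (∑ a : Lt (Fin (n + 1)), GA v w 1 (fun A => GA v w 1 (fun B => G (n + 1) (jn a.1 M A B) a))) /
    Fintype.card (Lt (Fin (n + 1)))

end Pool.Agent.Lib.MP_9cae81_PC
end

section

/-!
# A5_un, A5_shift: projection of a variable changes `v` by at most `1 / (μ (n + 1))`
-/

set_option autoImplicit false

open Finset
open scoped BigOperators

namespace Pool.Agent.Lib.MP_9cae81_PC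

open Pool.Agent.Lib.MP_9cae81_R

variable {n : ℕ}

theorem A5s_mem_pr {i : Fin (n + 1)} {S : As (Fin (n + 1))} {τ : Fin n → Bool} :
    τ ∈ pr i S ↔ ∃ b : Bool, i.insertNth b τ ∈ S := Iff.rfl

theorem A5s_removeNth {i : Fin (n + 1)} {S : As (Fin (n + 1))} {σ : Fin (n + 1) → Bool}
    (h : σ ∈ S) : i.removeNth σ ∈ pr i S :=
  ⟨σ i, by rwa [Fin.insertNth_self_removeNth]⟩

theorem A5s_inter_lit (i : Fin (n + 1)) (S : As (Fin (n + 1))) (a : Lt (Fin n)) :
    pr i (S ∩ lit (i.succAbove a.1, a.2)) = pr i S ∩ lit a := by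
  ext τ
  simp only [A5s_mem_pr, Set.mem_inter_iff, lit, Set.mem_ofPred_eq, Fin.insertNth_apply_succAbove,
    exists_and_right]

theorem A5s_empty {i : Fin (n + 1)} {S : As (Fin (n + 1))} : pr i S = ∅ ↔ S = ∅ := by
  constructor
  · intro h
    rw [Set.eq_empty_iff_forall_notMem] at h ⊢
    exact fun σ hσ => h _ (A5s_removeNth hσ)
  · rintro rfl
    rw [Set.eq_empty_iff_forall_notMem]
    rintro τ ⟨b, hb⟩
    exact hb

theorem A5_un {n : ℕ} (i : Fin (n + 1)) (S : As (Fin (n + 1))) : una (pr i S) = una S := by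
  unfold una
  by_cases h : S = ∅
  · rw [if_pos h, if_pos (A5s_empty.2 h)]
  · rw [if_neg h, if_neg fun h' => h (A5s_empty.1 h')]

theorem A5s_sum (i : Fin (n + 1)) (f : Lt (Fin (n + 1)) → ℝ) :
    ∑ a : Lt (Fin (n + 1)), f a =
      ∑ a : Lt (Fin n), f (i.succAbove a.1, a.2) + ∑ s : Bool, f (i, s) := by
  rw [Fintype.sum_prod_type, Fin.sum_univ_succAbove _ i, Fintype.sum_prod_type, add_comm]

section

variable {V : Type} [Fintype V]

theorem A5s_P1 {h : As V → ℝ} (h01 : ∀ S, 0 ≤ h S ∧ h S ≤ 1) (S : As V) :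
    0 ≤ P1 h S ∧ P1 h S ≤ 1 := by
  constructor
  · exact div_nonneg (Finset.sum_nonneg fun _ _ => (h01 _).1) (Nat.cast_nonneg _)
  · refine div_le_one_of_le₀ ?_ (Nat.cast_nonneg _)
    calc ∑ a : Lt V, h ((AS V).iu a S) ≤ ∑ _a : Lt V, (1 : ℝ) :=
          Finset.sum_le_sum fun _ _ => (h01 _).2
      _ = Fintype.card (Lt V) := by simp

theorem A5s_iter {h : As V → ℝ} (h01 : ∀ S, 0 ≤ h S ∧ h S ≤ 1) (k : ℕ) (S : As V) :
    0 ≤ ((AS V).P1^[k] h) S ∧ ((AS V).P1^[k] h) S ≤ 1 := by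
  induction k generalizing S with
  | zero => exact h01 S
  | succ k ih =>
    rw [Function.iterate_succ_apply']
    exact A5s_P1 ih S

theorem A5s_summ {q : ℝ} (hq0 : 0 ≤ q) (hq1 : q < 1) {h : As V → ℝ}
    (h01 : ∀ S, 0 ≤ h S ∧ h S ≤ 1) (S : As V) :
    Summable fun k : ℕ => q ^ k * ((AS V).P1^[k] h) S := by
  refine Summable.of_nonneg_of_le (fun k => mul_nonneg (pow_nonneg hq0 k) (A5s_iter h01 k S).1)
    (fun k => ?_) (summable_geometric_of_lt_one hq0 hq1)
  exact mul_le_of_le_one_right (pow_nonneg hq0 k) (A5s_iter h01 k S).2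

end

/-- One step: the iterates of the averaging operator before and after the projection. -/
theorem A5s_iter_pr (i : Fin (n + 1)) {h : As (Fin n) → ℝ} (h01 : ∀ S, 0 ≤ h S ∧ h S ≤ 1) (k : ℕ)
    (S : As (Fin (n + 1))) :
    |((AS (Fin (n + 1))).P1^[k] (fun S => h (pr i S))) S - ((AS (Fin n)).P1^[k] h) (pr i S)| ≤
      k / (n + 1) := by
  induction k generalizing S with
  | zero => simp
  | succ k ih =>
    rw [Function.iterate_succ_apply', Function.iterate_succ_apply']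
    set g := (AS (Fin (n + 1))).P1^[k] (fun S => h (pr i S)) with hg
    set g' := (AS (Fin n)).P1^[k] h with hg'
    have b : ∀ S, 0 ≤ g S ∧ g S ≤ 1 := A5s_iter (fun S => h01 (pr i S)) k
    have b' : ∀ S, 0 ≤ g' S ∧ g' S ≤ 1 := A5s_iter h01 k
    have hn0 : (0 : ℝ) ≤ n := Nat.cast_nonneg _
    set X : ℝ := ∑ a : Lt (Fin n), g (S ∩ lit (i.succAbove a.1, a.2)) with hX
    set X' : ℝ := ∑ a : Lt (Fin n), g' (pr i S ∩ lit a) with hX'
    set T : ℝ := ∑ s : Bool, g (S ∩ lit (i, s)) with hT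
    have e1 : (AS (Fin (n + 1))).P1 g S = (X + T) / (2 * (n + 1)) := by
      have h1 : (AS (Fin (n + 1))).P1 g S =
          (∑ a : Lt (Fin (n + 1)), g (S ∩ lit a)) / (Fintype.card (Lt (Fin (n + 1))) : ℝ) := rfl
      rw [h1, A5s_sum i, Fintype.card_prod, Fintype.card_bool, Fintype.card_fin]
      push_cast
      rw [mul_comm (2 : ℝ)]
    have e2 : (AS (Fin n)).P1 g' (pr i S) = X' / (2 * n) := by
      have h1 : (AS (Fin n)).P1 g' (pr i S) =
          (∑ a : Lt (Fin n), g' (pr i S ∩ lit a)) / (Fintype.card (Lt (Fin n)) : ℝ) := rfl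
      rw [h1, Fintype.card_prod, Fintype.card_bool, Fintype.card_fin]
      push_cast
      rw [mul_comm (2 : ℝ)]
    have hcard : ∀ c : ℝ, ∑ _a : Lt (Fin n), c = 2 * n * c := by
      intro c
      rw [Finset.sum_const, Finset.card_univ, Fintype.card_prod, Fintype.card_bool,
        Fintype.card_fin, nsmul_eq_mul]
      push_cast
      ring
    have hXX : |X - X'| ≤ 2 * n * (k / (n + 1)) := by
      rw [hX, hX', ← Finset.sum_sub_distrib]
      refine (Finset.abs_sum_le_sum_abs _ _).trans ?_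
      rw [← hcard]
      refine Finset.sum_le_sum fun a _ => ?_
      have h1 := ih (S ∩ lit (i.succAbove a.1, a.2))
      rw [A5s_inter_lit] at h1
      exact h1
    have hT0 : 0 ≤ T := Finset.sum_nonneg fun s _ => (b _).1
    have hT2 : T ≤ 2 := by
      calc T ≤ ∑ _s : Bool, (1 : ℝ) := Finset.sum_le_sum fun s _ => (b _).2
        _ = 2 := by simp
    have hX0 : 0 ≤ X' := Finset.sum_nonneg fun s _ => (b' _).1
    have hX2 : X' ≤ 2 * n := by
      calc X' ≤ ∑ _a : Lt (Fin n), (1 : ℝ) := Finset.sum_le_sum fun s _ => (b' _).2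
        _ = 2 * n := by rw [hcard, mul_one]
    rw [e1, e2]
    set A : ℝ := X' / (2 * n) with hA
    have hA0 : 0 ≤ A := div_nonneg hX0 (by linarith)
    have hA1 : A ≤ 1 := div_le_one_of_le₀ hX2 (by linarith)
    have hXA : X' = 2 * n * A := by
      rcases hn0.eq_or_lt with h2 | h2
      · rw [← h2] at hX2 ⊢
        linarith
      · rw [hA]
        field_simp
    have h3 : (X + T) / (2 * (n + 1)) - A = (X - X') / (2 * (n + 1)) + (T / 2 - A) / (n + 1) := by
      rw [hXA]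
      field_simp
      ring
    rw [h3]
    have h4 : |(X - X') / (2 * ((n : ℝ) + 1))| ≤ k / (n + 1) := by
      rw [abs_div, abs_of_pos (by linarith : (0 : ℝ) < 2 * (n + 1)),
        div_le_div_iff₀ (by linarith) (by linarith)]
      have h5 : 2 * (n : ℝ) * (k / (n + 1)) * (n + 1) = 2 * n * k := by field_simp
      have h6 : |X - X'| * (n + 1) ≤ 2 * n * (k / (n + 1)) * (n + 1) :=
        mul_le_mul_of_nonneg_right hXX (by linarith)
      have hk : (0 : ℝ) ≤ k := Nat.cast_nonneg k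
      nlinarith
    have h7 : |(T / 2 - A) / ((n : ℝ) + 1)| ≤ 1 / (n + 1) := by
      rw [abs_div, abs_of_pos (by linarith : (0 : ℝ) < n + 1)]
      apply div_le_div_of_nonneg_right _ (by linarith)
      rw [abs_le]
      constructor <;> linarith
    refine (abs_add_le _ _).trans ((add_le_add h4 h7).trans (le_of_eq ?_))
    push_cast
    ring

/-- The resolvent before and after the projection of a variable. -/
theorem A5_R_pr (i : Fin (n + 1)) {h : As (Fin n) → ℝ} (h01 : ∀ S, 0 ≤ h S ∧ h S ≤ 1) {q : ℝ}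
    (hq0 : 0 < q) (hq1 : q < 1) (S : As (Fin (n + 1))) :
    |(AS (Fin (n + 1))).R q (fun S => h (pr i S)) S - (AS (Fin n)).R q h (pr i S)| ≤
      1 / (muq q * (n + 1)) := by
  have hn0 : (0 : ℝ) ≤ n := Nat.cast_nonneg _
  have s1 := A5s_summ hq0.le hq1 (h := fun S => h (pr i S)) (fun S => h01 (pr i S)) S
  have s2 := A5s_summ hq0.le hq1 h01 (pr i S)
  set f1 : ℕ → ℝ := fun k => q ^ k * ((AS (Fin (n + 1))).P1^[k] (fun S => h (pr i S))) S with hf1
  set f2 : ℕ → ℝ := fun k => q ^ k * ((AS (Fin n)).P1^[k] h) (pr i S) with hf2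
  have s3 : HasSum (fun k : ℕ => (k : ℝ) * q ^ k) (q / (1 - q) ^ 2) :=
    hasSum_coe_mul_geometric_of_norm_lt_one (by rw [Real.norm_of_nonneg hq0.le]; exact hq1)
  have s4 : Summable fun k : ℕ => |f1 k - f2 k| := (s1.sub s2).abs
  have h1 : (AS (Fin (n + 1))).R q (fun S => h (pr i S)) S - (AS (Fin n)).R q h (pr i S) =
      (1 - q) * ∑' k : ℕ, (f1 k - f2 k) := by
    unfold Sys.R
    rw [← mul_sub, s1.tsum_sub s2]
  have h2 : |∑' k : ℕ, (f1 k - f2 k)| ≤ q / (1 - q) ^ 2 / (n + 1) := by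
    have h3 : |∑' k : ℕ, (f1 k - f2 k)| ≤ ∑' k : ℕ, |f1 k - f2 k| := by
      rw [← Real.norm_eq_abs]
      simp only [← Real.norm_eq_abs] at s4 ⊢
      exact norm_tsum_le_tsum_norm s4
    refine h3.trans ?_
    have s5 : HasSum (fun k : ℕ => (k : ℝ) * q ^ k / (n + 1)) (q / (1 - q) ^ 2 / (n + 1)) :=
      s3.div_const _
    rw [← s5.tsum_eq]
    refine s4.tsum_le_tsum (fun k => ?_) s5.summable
    rw [hf1, hf2]
    simp only
    rw [← mul_sub, abs_mul, abs_of_nonneg (pow_nonneg hq0.le k)]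
    have h4 := mul_le_mul_of_nonneg_left (A5s_iter_pr i h01 k S) (pow_nonneg hq0.le k)
    refine h4.trans (le_of_eq ?_)
    ring
  rw [h1, abs_mul, abs_of_pos (by linarith : (0 : ℝ) < 1 - q)]
  have h5 := mul_le_mul_of_nonneg_left h2 (by linarith : (0 : ℝ) ≤ 1 - q)
  refine h5.trans (le_of_eq ?_)
  have h6 : 1 - q ≠ 0 := by linarith
  unfold muq
  field_simp

/-- **A5, v-shift.** -/
theorem A5_shift {n : ℕ} {q : ℝ} (hq : 0 < q) (hq1 : q < 1) (i : Fin (n + 1))
    (S : As (Fin (n + 1))) :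
    |vv q S - vv q (pr i S)| ≤ 1 / (muq q * (n + 1)) := by
  have h01 : ∀ S : As (Fin n), 0 ≤ una S ∧ una S ≤ 1 := fun S => by
    unfold una
    split_ifs <;> norm_num
  have h1 := A5_R_pr i h01 hq hq1 S
  have h2 : (fun S : As (Fin (n + 1)) => una (pr i S)) = una := funext fun S => A5_un i S
  rw [h2] at h1
  exact h1

/-- The same for `s = v 1_SAT`. -/
theorem A5_sshift (i : Fin (n + 1)) {q : ℝ} (hq0 : 0 < q) (hq1 : q < 1) (S : As (Fin (n + 1))) :
    |ss q S - ss q (pr i S)| ≤ 1 / (muq q * (n + 1)) := by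
  have h1 := A5_shift hq0 hq1 i S
  have h2 : ss q S - ss q (pr i S) = vv q S - vv q (pr i S) := by
    have h3 : ss q S = vv q S - una S := rfl
    have h4 : ss q (pr i S) = vv q (pr i S) - una (pr i S) := rfl
    rw [h3, h4, A5_un]
    ring
  rw [h2]
  exact h1

/-- Projections of the joined state. -/
theorem A5_pr {n : ℕ} (i : Fin (n + 1)) (M A B : As (Fin n)) :
    pr i (jn i M A B) = M ∩ (A ∪ B) ∧ pr i (jn i M A B ∩ lit (i, true)) = M ∩ B ∧
      pr i (jn i M A B ∩ lit (i, false)) = M ∩ A :=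
  ⟨pr_jn i M A B, pr_jn_true i M A B, pr_jn_false i M A B⟩

theorem A5_pr2 {n : ℕ} (i : Fin (n + 1)) (M A B T : As (Fin n)) :
    pr i (jn i M A B ∩ (lit (i, true) ∪ lf i T)) = M ∩ (B ∪ (A ∩ T)) ∧
    pr i (jn i M A B ∩ (lit (i, false) ∪ lf i T)) = M ∩ (A ∪ (B ∩ T)) ∧
    pr i (jn i M A B ∩ lf i T) = M ∩ (A ∪ B) ∩ T ∧
    pr i (jn i M A B ∩ lit (i, true) ∩ lf i T) = M ∩ B ∩ T ∧
    pr i (jn i M A B ∩ lit (i, false) ∩ lf i T) = M ∩ A ∩ T :=
  ⟨pr_jn_or_true i M A B T, pr_jn_or_false i M A B T, pr_jn_lf i M A B T,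
    pr_jn_true_lf i M A B T, by rw [pr_inter_lf, pr_jn_false]⟩

/-- The literals of the other variables are lifts. -/
theorem A5_lit {n : ℕ} (i : Fin (n + 1)) (a : Lt (Fin n)) :
    lf i (lit a) = lit (i.succAbove a.1, a.2) :=
  (lit_succAbove i a.1 a.2).symm

end Pool.Agent.Lib.MP_9cae81_PC
end

section

/-!
# The law of a formula seen from one variable

`i` is a variable of a formula `F` on `n + 1` variables.  `F'` = clauses without `i`; the clauses
which contain the literal `(i, true)` and not `(i, false)` put their other literals into `A`; the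
clauses which contain `(i, false)` and not `(i, true)` put them into `B`; a clause all of whose
literals are `(i, s)` forbids the value `!s`; the clauses containing `(i, true)` and `(i, false)`
are true.  `F', A, B, K` are independent, `F' ~ qq u v w`, `A, B ~ qq (2v+3w) (3w) 0`,
`K ~ u+v+w` for each of the two values.
-/

set_option autoImplicit false

open Finset
open scoped BigOperators

namespace Pool.Agent.Lib.MP_9cae81_PC

open Pool.Agent.Lib.MP_9cae81_R

variable {n : ℕ}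

/-- A literal of `Fin (n + 1)` as a sign of `i` or as a literal of the others. -/
def A4_z (i : Fin (n + 1)) (l : Lt (Fin (n + 1))) : Bool ⊕ Lt (Fin n) :=
  match finSuccEquiv' i l.1 with
  | none => Sum.inl l.2
  | some j => Sum.inr (j, l.2)

/-- Truth of a classified literal. -/
def A4_klT (i : Fin (n + 1)) (σ : Fin (n + 1) → Bool) : Bool ⊕ Lt (Fin n) → Prop
  | Sum.inl s => σ i = s
  | Sum.inr a => i.removeNth σ a.1 = a.2

theorem A4_kl_self (i : Fin (n + 1)) (s : Bool) : A4_z i (i, s) = Sum.inl s := by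
  simp [A4_z]

theorem A4_kl_other (i : Fin (n + 1)) (j : Fin n) (s : Bool) :
    A4_z i (i.succAbove j, s) = Sum.inr (j, s) := by
  simp [A4_z]

theorem A4_klT_kl (i : Fin (n + 1)) (σ : Fin (n + 1) → Bool) (l : Lt (Fin (n + 1))) :
    A4_klT i σ (A4_z i l) ↔ σ l.1 = l.2 := by
  obtain ⟨x, s⟩ := l
  rcases Fin.eq_self_or_eq_succAbove i x with h | ⟨j, h⟩
  · subst h
    rw [A4_kl_self]
    rfl
  · subst h
    rw [A4_kl_other]
    rfl

theorem A4_kl_bij (i : Fin (n + 1)) : Function.Bijective (A4_z i) := by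
  constructor
  · rintro ⟨x, s⟩ ⟨x', s'⟩ h
    rcases Fin.eq_self_or_eq_succAbove i x with hx | ⟨j, hx⟩ <;>
      rcases Fin.eq_self_or_eq_succAbove i x' with hx' | ⟨j', hx'⟩ <;> subst hx <;> subst hx'
    · rw [A4_kl_self, A4_kl_self] at h
      simpa using h
    · rw [A4_kl_self, A4_kl_other] at h
      simp at h
    · rw [A4_kl_self, A4_kl_other] at h
      simp at h
    · rw [A4_kl_other, A4_kl_other] at h
      simp only [Sum.inr.injEq, Prod.mk.injEq] at h
      rw [h.1, h.2]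
  · rintro (s | ⟨j, s⟩)
    · exact ⟨(i, s), A4_kl_self i s⟩
    · exact ⟨(i.succAbove j, s), A4_kl_other i j s⟩

/-- The types of pieces: clauses without `i`, the clauses of `A`, of `B`, and the kills. -/
abbrev A4_Pc (n : ℕ) : Type := Cl (Fin n) ⊕ (Cl (Fin n) ⊕ (Cl (Fin n) ⊕ Bool))

/-- The side of a piece. -/
def A4_sd : Bool → Cl (Fin n) → A4_Pc n
  | true, c => Sum.inr (Sum.inl c)
  | false, c => Sum.inr (Sum.inr (Sum.inl c))

/-- A kill. -/
def A4_kk (s : Bool) : A4_Pc n := Sum.inr (Sum.inr (Sum.inr s))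

/-- Piece of a unit clause. -/
def A4_pz1 : Bool ⊕ Lt (Fin n) → Option (A4_Pc n)
  | Sum.inl s => some (A4_kk s)
  | Sum.inr a' => some (Sum.inl (cu a'))

/-- Piece of a 2-clause. -/
def A4_pz2 : Bool ⊕ Lt (Fin n) → Bool ⊕ Lt (Fin n) → Option (A4_Pc n)
  | Sum.inl true, Sum.inl true => some (A4_kk true)
  | Sum.inl false, Sum.inl false => some (A4_kk false)
  | Sum.inl true, Sum.inl false => none
  | Sum.inl false, Sum.inl true => none
  | Sum.inl s, Sum.inr b' => some (A4_sd s (cu b'))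
  | Sum.inr a', Sum.inl s => some (A4_sd s (cu a'))
  | Sum.inr a', Sum.inr b' => some (Sum.inl (cp a' b'))

/-- Piece of a 3-clause. -/
def A4_pz3 : Bool ⊕ Lt (Fin n) → Bool ⊕ Lt (Fin n) → Bool ⊕ Lt (Fin n) → Option (A4_Pc n)
  | Sum.inl true, z, z' => match z, z' with
    | Sum.inl true, Sum.inl true => some (A4_kk true)
    | Sum.inl true, Sum.inr c => some (A4_sd true (cu c))
    | Sum.inr b, Sum.inl true => some (A4_sd true (cu b))
    | Sum.inr b, Sum.inr c => some (A4_sd true (cp b c))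
    | Sum.inl false, _ => none
    | _, Sum.inl false => none
  | Sum.inl false, z, z' => match z, z' with
    | Sum.inl false, Sum.inl false => some (A4_kk false)
    | Sum.inl false, Sum.inr c => some (A4_sd false (cu c))
    | Sum.inr b, Sum.inl false => some (A4_sd false (cu b))
    | Sum.inr b, Sum.inr c => some (A4_sd false (cp b c))
    | Sum.inl true, _ => none
    | _, Sum.inl true => none
  | Sum.inr a, z, z' => match z, z' with
    | Sum.inl true, Sum.inl true => some (A4_sd true (cu a))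
    | Sum.inl false, Sum.inl false => some (A4_sd false (cu a))
    | Sum.inl true, Sum.inl false => none
    | Sum.inl false, Sum.inl true => none
    | Sum.inl s, Sum.inr c => some (A4_sd s (cp a c))
    | Sum.inr b, Sum.inl s => some (A4_sd s (cp a b))
    | Sum.inr b, Sum.inr c => some (Sum.inl (ct a b c))

/-- The piece of a clause. -/
def A4_ph (i : Fin (n + 1)) : Cl (Fin (n + 1)) → Option (A4_Pc n)
  | Sum.inl a => A4_pz1 (A4_z i a)
  | Sum.inr (Sum.inl p) => A4_pz2 (A4_z i p.1) (A4_z i p.2)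
  | Sum.inr (Sum.inr t) => A4_pz3 (A4_z i t.1) (A4_z i t.2.1) (A4_z i t.2.2)

/-- Truth of a piece. -/
def A4_pT (i : Fin (n + 1)) (σ : Fin (n + 1) → Bool) : A4_Pc n → Prop
  | Sum.inl c => clT (i.removeNth σ) c
  | Sum.inr (Sum.inl c) => σ i = true ∨ clT (i.removeNth σ) c
  | Sum.inr (Sum.inr (Sum.inl c)) => σ i = false ∨ clT (i.removeNth σ) c
  | Sum.inr (Sum.inr (Sum.inr s)) => σ i = s

/-- Truth of an optional piece. -/
def A4_oT (i : Fin (n + 1)) (σ : Fin (n + 1) → Bool) (o : Option (A4_Pc n)) : Prop :=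
  ∀ k, o = some k → A4_pT i σ k

theorem A4_oT_none (i : Fin (n + 1)) (σ : Fin (n + 1) → Bool) : A4_oT i σ none ↔ True := by
  simp [A4_oT]

theorem A4_oT_some (i : Fin (n + 1)) (σ : Fin (n + 1) → Bool) (k : A4_Pc n) :
    A4_oT i σ (some k) ↔ A4_pT i σ k := by
  simp [A4_oT]

theorem A4_oT_pz1 (i : Fin (n + 1)) (σ : Fin (n + 1) → Bool) (z : Bool ⊕ Lt (Fin n)) :
    A4_oT i σ (A4_pz1 z) ↔ A4_klT i σ z := by
  rcases z with s | a
  · rw [A4_pz1, A4_oT_some]; rfl
  · rw [A4_pz1, A4_oT_some]; rfl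

theorem A4_oT_pz2 (i : Fin (n + 1)) (σ : Fin (n + 1) → Bool) (z z' : Bool ⊕ Lt (Fin n)) :
    A4_oT i σ (A4_pz2 z z') ↔ (A4_klT i σ z ∨ A4_klT i σ z') := by
  rcases z with (_ | _) | a <;> rcases z' with (_ | _) | b <;>
    simp only [A4_pz2, A4_oT_some, A4_oT_none, A4_sd, A4_kk, A4_pT, A4_klT, clT, cu, cp] <;>
    cases h : σ i <;> simp

theorem A4_oT_pz3 (i : Fin (n + 1)) (σ : Fin (n + 1) → Bool) (z z' z'' : Bool ⊕ Lt (Fin n)) :
    A4_oT i σ (A4_pz3 z z' z'') ↔ (A4_klT i σ z ∨ A4_klT i σ z' ∨ A4_klT i σ z'') := by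
  rcases z with (_ | _) | a <;> rcases z' with (_ | _) | b <;> rcases z'' with (_ | _) | c <;>
    simp only [A4_pz3, A4_oT_some, A4_oT_none, A4_sd, A4_kk, A4_pT, A4_klT, clT, cu, cp, ct] <;>
    cases h : σ i <;> simp

theorem A4_oT_ph (i : Fin (n + 1)) (σ : Fin (n + 1) → Bool) (c : Cl (Fin (n + 1))) :
    A4_oT i σ (A4_ph i c) ↔ clT σ c := by
  rcases c with a | ⟨a, b⟩ | ⟨a, b, c⟩
  · simp only [A4_ph, clT, A4_oT_pz1, A4_klT_kl]
  · simp only [A4_ph, clT, A4_oT_pz2, A4_klT_kl]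
  · simp only [A4_ph, clT, A4_oT_pz3, A4_klT_kl]

/-! ### Intensities -/

theorem A4_sum_cl {V : Type} [Fintype V] (f : Cl V → ℝ) :
    ∑ c : Cl V, f c = ∑ a, f (Sum.inl a) + (∑ a, ∑ b, f (Sum.inr (Sum.inl (a, b))) +
      ∑ a, ∑ b, ∑ c, f (Sum.inr (Sum.inr (a, b, c)))) := by
  have h2 := Fintype.sum_prod_type (fun q : Lt V × Lt V => f (Sum.inr (Sum.inl q)))
  have h3 := Fintype.sum_prod_type (fun q : Lt V × Lt V × Lt V => f (Sum.inr (Sum.inr q)))
  have h4 : ∀ a : Lt V, ∑ q : Lt V × Lt V, f (Sum.inr (Sum.inr (a, q))) =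
      ∑ b, ∑ c, f (Sum.inr (Sum.inr (a, b, c))) := fun a =>
    Fintype.sum_prod_type (fun q : Lt V × Lt V => f (Sum.inr (Sum.inr (a, q))))
  rw [Fintype.sum_sum_type, Fintype.sum_sum_type]
  refine congrArg₂ (· + ·) rfl (congrArg₂ (· + ·) h2 (h3.trans ?_))
  exact Finset.sum_congr rfl fun a _ => h4 a

theorem A4_sum_kl (i : Fin (n + 1)) (G : Bool ⊕ Lt (Fin n) → ℝ) :
    ∑ l : Lt (Fin (n + 1)), G (A4_z i l) = ∑ z, G z :=
  Fintype.sum_equiv (Equiv.ofBijective (A4_z i) (A4_kl_bij i)) (fun l => G (A4_z i l)) G (fun _ => rfl)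

theorem A4_ph_main (i : Fin (n + 1)) (u v w : ℝ) (k : Option (A4_Pc n)) :
    (∑ c : Cl (Fin (n + 1)), if A4_ph i c = k then qq u v w c else 0) =
      (∑ z : Bool ⊕ Lt (Fin n), if A4_pz1 z = k then u else 0) +
      (∑ z : Bool ⊕ Lt (Fin n), ∑ z' : Bool ⊕ Lt (Fin n),
          (if A4_pz2 z z' = k then v else 0) +
       ∑ z : Bool ⊕ Lt (Fin n), ∑ z' : Bool ⊕ Lt (Fin n),
        ∑ z'' : Bool ⊕ Lt (Fin n), (if A4_pz3 z z' z'' = k then w else 0)) := by
  rw [A4_sum_cl]
  refine congrArg₂ (· + ·) ?_ ?_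
  · rw [← A4_sum_kl i]
    rfl
  · refine congrArg₂ (· + ·) ?_ ?_
    · rw [← A4_sum_kl i]
      refine Finset.sum_congr rfl fun a _ => ?_
      rw [← A4_sum_kl i]
      rfl
    · rw [← A4_sum_kl i]
      refine Finset.sum_congr rfl fun a _ => ?_
      rw [← A4_sum_kl i]
      refine Finset.sum_congr rfl fun b _ => ?_
      rw [← A4_sum_kl i]
      rfl

private theorem A4_Law_one {X : Type} [Fintype X] [DecidableEq X] (a0 : X) (w : ℝ) :
    ∑ a : X, (if a = a0 then w else 0) = w := by simp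

private theorem A4_Law_two {X : Type} [Fintype X] [DecidableEq X] (a0 b0 : X) (w : ℝ) :
    ∑ a : X, ∑ b : X, (if a = a0 ∧ b = b0 then w else 0) = w := by
  rw [Finset.sum_eq_single a0, Finset.sum_eq_single b0]
  · simp
  · intro b _ hb
    simp [hb]
  · simp
  · intro b _ hb
    simp [hb]
  · simp

private theorem A4_Law_three {X : Type} [Fintype X] [DecidableEq X] (a0 b0 c0 : X) (w : ℝ) :
    ∑ a : X, ∑ b : X, ∑ c : X, (if a = a0 ∧ b = b0 ∧ c = c0 then w else 0) = w := by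
  rw [Finset.sum_eq_single a0]
  · simpa using A4_Law_two b0 c0 w
  · intro b _ hb
    simp [hb]
  · simp

/-- Clauses without `i`. -/
theorem A4_ph_int_inl (i : Fin (n + 1)) (u v w : ℝ) (d : Cl (Fin n)) :
    (∑ c : Cl (Fin (n + 1)), if A4_ph i c = some (Sum.inl d) then qq u v w c else 0) =
      qq u v w d := by
  rw [A4_ph_main]
  rcases d with b0 | ⟨a0, b0⟩ | ⟨a0, b0, c0⟩
  · simp only [Fintype.sum_sum_type, Fintype.sum_bool, A4_pz1, A4_pz2, A4_pz3, A4_sd, A4_kk, cu, cp, ct, qq,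
      Option.some.injEq, Sum.inl.injEq, reduceCtorEq, if_false, A4_Law_one, Finset.sum_const_zero,
      Finset.sum_add_distrib]
    ring
  · simp only [Fintype.sum_sum_type, Fintype.sum_bool, A4_pz1, A4_pz2, A4_pz3, A4_sd, A4_kk, cu, cp, ct, qq,
      Option.some.injEq, Sum.inl.injEq, Sum.inr.injEq, Prod.mk.injEq, reduceCtorEq, if_false,
      A4_Law_two, Finset.sum_const_zero, Finset.sum_add_distrib]
    ring
  · simp only [Fintype.sum_sum_type, Fintype.sum_bool, A4_pz1, A4_pz2, A4_pz3, A4_sd, A4_kk, cu, cp, ct, qq,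
      Option.some.injEq, Sum.inl.injEq, Sum.inr.injEq, Prod.mk.injEq, reduceCtorEq, if_false,
      A4_Law_three, Finset.sum_const_zero, Finset.sum_add_distrib]
    ring

/-- Clauses with one of the literals of `i`, and at least one other literal. -/
theorem A4_ph_int_sd (i : Fin (n + 1)) (u v w : ℝ) (s : Bool) (d : Cl (Fin n)) :
    (∑ c : Cl (Fin (n + 1)), if A4_ph i c = some (A4_sd s d) then qq u v w c else 0) =
      qq (2 * v + 3 * w) (3 * w) 0 d := by
  rw [A4_ph_main]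
  cases s <;> rcases d with b0 | ⟨a0, b0⟩ | ⟨a0, b0, c0⟩
  all_goals
    simp only [Fintype.sum_sum_type, Fintype.sum_bool, A4_pz1, A4_pz2, A4_pz3, A4_sd, A4_kk, cu, cp, ct, qq,
      Option.some.injEq, Sum.inl.injEq, Sum.inr.injEq, Prod.mk.injEq, reduceCtorEq, if_false,
      A4_Law_one, A4_Law_two, Finset.sum_const_zero, Finset.sum_add_distrib]
    ring

/-- The kills. -/
theorem A4_ph_int_kk (i : Fin (n + 1)) (u v w : ℝ) (s : Bool) :
    (∑ c : Cl (Fin (n + 1)), if A4_ph i c = some (A4_kk s) then qq u v w c else 0) = u + v + w := by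
  rw [A4_ph_main]
  cases s
  all_goals
    simp [Fintype.sum_sum_type, A4_pz1, A4_pz2, A4_pz3, A4_sd, A4_kk, add_assoc]

/-! ### The A4_law -/

/-- The models of a set of pieces. -/
def A4_Mp (i : Fin (n + 1)) (G : Finset (A4_Pc n)) : Set (Fin (n + 1) → Bool) :=
  {σ | ∀ k ∈ G, A4_pT i σ k}

theorem A4_Mp_pimg (i : Fin (n + 1)) (F : Finset (Cl (Fin (n + 1)))) :
    A4_Mp i (pimg (A4_ph i) F) = Md F := by
  ext σ
  simp only [A4_Mp, Md, Set.mem_ofPred_eq, pimg, Finset.mem_filter, Finset.mem_univ, true_and]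
  constructor
  · intro h c hc
    rw [← A4_oT_ph i σ c]
    exact fun k hk => h k ⟨c, hc, hk⟩
  · rintro h k ⟨c, hc, hk⟩
    exact (A4_oT_ph i σ c).2 (h c hc) k hk

theorem A4_Mp_disjSum (i : Fin (n + 1)) (F A B : Finset (Cl (Fin n))) (K : Finset Bool) :
    A4_Mp i (F.disjSum (A.disjSum (B.disjSum K))) =
      jn i (Md F) (Md A) (Md B) ∩ {σ | ∀ s ∈ K, σ i = s} := by
  ext σ
  simp only [A4_Mp, jn, Md, Set.mem_ofPred_eq, Set.mem_inter_iff]
  constructor
  · intro h
    refine ⟨⟨fun c hc => h (Sum.inl c) (by simpa using hc), fun hs c hc => ?_,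
      fun hs c hc => ?_⟩, fun s hs => h (Sum.inr (Sum.inr (Sum.inr s))) (by simpa using hs)⟩
    · rcases h (Sum.inr (Sum.inl c)) (by simpa using hc) with h1 | h1
      · rw [hs] at h1
        exact absurd h1 (by decide)
      · exact h1
    · rcases h (Sum.inr (Sum.inr (Sum.inl c))) (by simpa using hc) with h1 | h1
      · rw [hs] at h1
        exact absurd h1 (by decide)
      · exact h1
  · rintro ⟨⟨h1, h2, h3⟩, h4⟩ k hk
    rcases k with c | c | c | s
    · exact h1 c (by simpa using hk)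
    · show σ i = true ∨ clT (i.removeNth σ) c
      by_cases hs : σ i = true
      · exact Or.inl hs
      · exact Or.inr (h2 (by simpa using hs) c (by simpa using hk))
    · show σ i = false ∨ clT (i.removeNth σ) c
      by_cases hs : σ i = false
      · exact Or.inl hs
      · exact Or.inr (h3 (by simpa using hs) c (by simpa using hk))
    · exact h4 s (by simpa using hk)

theorem A4_kl (i : Fin (n + 1)) (K : Finset Bool) :
    ({σ | ∀ s ∈ K, σ i = s} : As (Fin (n + 1))) = kl i (K.map Equiv.boolNot.toEmbedding) := by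
  ext σ
  simp only [kl, Set.mem_ofPred_eq, Finset.mem_map, Equiv.coe_toEmbedding, Equiv.boolNot_apply,
    not_exists, not_and]
  refine forall_congr' fun s => forall_congr' fun _ => ?_
  cases σ i <;> cases s <;> simp

/-- The intensities of the pieces. -/
noncomputable def A4_pq (u v w : ℝ) : A4_Pc n → ℝ :=
  Sum.elim (qq u v w) (Sum.elim (qq (2 * v + 3 * w) (3 * w) 0)
    (Sum.elim (qq (2 * v + 3 * w) (3 * w) 0) (fun _ => u + v + w)))

theorem A4_pq_eq (i : Fin (n + 1)) (u v w : ℝ) :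
    (fun k => ∑ c : Cl (Fin (n + 1)), if A4_ph i c = some k then qq u v w c else 0) =
      A4_pq u v w := by
  funext k
  rcases k with c | c | c | s
  · exact A4_ph_int_inl i u v w c
  · exact A4_ph_int_sd i u v w true c
  · exact A4_ph_int_sd i u v w false c
  · exact A4_ph_int_kk i u v w s

/-- General form: functions of the set of pieces. -/
theorem A4_law_pieces (i : Fin (n + 1)) (u v w : ℝ) (g : Finset (A4_Pc n) → ℝ) :
    EE (qq u v w) (fun F : Finset (Cl (Fin (n + 1))) => g (pimg (A4_ph i) F)) =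
      EE (qq u v w) (fun F => EE (qq (2 * v + 3 * w) (3 * w) 0) (fun A =>
        EE (qq (2 * v + 3 * w) (3 * w) 0) (fun B => EE (fun _ : Bool => u + v + w) (fun K =>
          g (F.disjSum (A.disjSum (B.disjSum K))))))) := by
  rw [EE_pimg, A4_pq_eq, A4_pq, EE_sumType]
  congr 1
  funext F
  rw [EE_sumType]
  congr 1
  funext A
  rw [EE_sumType]

/-- The exact law (helper5).  Clauses without the variable `i` form the same model on `n`
variables; the clauses with `i` give independent gadgets `A` (for `i` false) and `B` (for `i` true);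
a clause all of whose literals are the literal `i` true (false) kills the value false (true),
probability `1 - exp(-(u+v+w))` each; clauses containing both literals of `i` are tautologies. -/
theorem A4_law {n : ℕ} (i : Fin (n + 1)) (u v w : ℝ) (h : As (Fin (n + 1)) → ℝ) :
    EE (qq u v w) (fun F => h (Md F)) =
      EE (qq u v w) (fun F => GA v w 1 (fun A => GA v w 1 (fun B =>
        EE (fun _ : Bool => u + v + w) (fun K => h (jn i (Md F) A B ∩ kl i K))))) := by
  have h1 := A4_law_pieces i u v w (fun G => h (A4_Mp i G))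
  simp only [A4_Mp_pimg, A4_Mp_disjSum] at h1
  rw [h1]
  have hg : (gq v w 1 : Cl (Fin n) → ℝ) = qq (2 * v + 3 * w) (3 * w) 0 := by
    unfold gq
    rw [one_mul, one_mul]
  unfold GA
  rw [hg]
  refine congrArg (EE (qq u v w)) (funext fun F => ?_)
  refine congrArg (EE (qq (2 * v + 3 * w) (3 * w) 0)) (funext fun A => ?_)
  refine congrArg (EE (qq (2 * v + 3 * w) (3 * w) 0)) (funext fun B => ?_)
  refine Eq.trans ?_ (EE_equiv Equiv.boolNot (fun _ : Bool => u + v + w)
    (fun K => h (jn i (Md F) (Md A) (Md B) ∩ kl i K)))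
  refine congrArg (EE (fun _ : Bool => u + v + w)) (funext fun K => ?_)
  rw [A4_kl]

end Pool.Agent.Lib.MP_9cae81_PC
end

section

/-!
# The gadget average `GA` and the bracket `Br`: elementary properties and the growth lemma

`GA_hasDerivAt`: `d/dτ GA τ Φ = c2 GA τ (P1 Φ - Φ) + β GA τ (P2 Φ - Φ)`.
`Br_growth`: if `c2 (P1 - 1) g_M + β (P2 - 1) g_M ≤ b g_M + U` on the subsets of `M`, then
`Br (M ↦ GA 1 (A ↦ g_M (M ∩ A))) ≤ e^b (Br (M ↦ g_M M) + sup_τ Br (M ↦ GA τ (A ↦ U (M ∩ A))))`.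
-/

set_option autoImplicit false
set_option linter.unusedSectionVars false

open Finset Filter
open scoped BigOperators Topology

namespace Pool.Agent.Lib.MP_9cae81_PC

open Pool.Agent.Lib.MP_9cae81_R

namespace B2

section

variable {V : Type}

theorem Md_empty : Md (∅ : Finset (Cl V)) = Set.univ := by
  ext σ; simp [Md]

theorem Md_insert_cu [DecidableEq V] (a : Lt V) (F : Finset (Cl V)) :
    Md (insert (cu a) F) = Md F ∩ lit a := by
  ext σ
  simp only [Md, lit, Set.mem_ofPred_eq, Set.mem_inter_iff, Finset.forall_mem_insert]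
  rw [and_comm]
  rfl

theorem Md_insert_cp [DecidableEq V] (a b : Lt V) (F : Finset (Cl V)) :
    Md (insert (cp a b) F) = Md F ∩ (lit a ∪ lit b) := by
  ext σ
  simp only [Md, lit, Set.mem_ofPred_eq, Set.mem_inter_iff, Set.mem_union,
    Finset.forall_mem_insert]
  rw [and_comm]
  rfl

end

section

variable {V : Type} [Fintype V]

theorem P1_def (h : As V → ℝ) (S : As V) :
    P1 h S = (∑ a : Lt V, h (S ∩ lit a)) / Fintype.card (Lt V) := rfl

theorem P2_def (h : As V → ℝ) (S : As V) :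
    P2 h S = (∑ a : Lt V, ∑ b : Lt V, h (S ∩ (lit a ∪ lit b))) /
      (Fintype.card (Lt V) : ℝ) ^ 2 := rfl

theorem P1_inter (g : As V → ℝ) (M A : As V) :
    P1 (fun A => g (M ∩ A)) A = P1 g (M ∩ A) := by
  rw [P1_def, P1_def]
  simp only [Set.inter_assoc]

theorem P2_inter (g : As V → ℝ) (M A : As V) :
    P2 (fun A => g (M ∩ A)) A = P2 g (M ∩ A) := by
  rw [P2_def, P2_def]
  simp only [Set.inter_assoc]

end

section

variable {V : Type} [Fintype V] [DecidableEq V]

theorem gq_nonneg {v w τ : ℝ} (hv : 0 ≤ v) (hw : 0 ≤ w) (hτ : 0 ≤ τ) (c : Cl V) :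
    0 ≤ gq v w τ c := by
  unfold gq
  rcases c with c | c | c
  · show 0 ≤ τ * (2 * v + 3 * w)
    positivity
  · show 0 ≤ τ * (3 * w)
    positivity
  · show (0 : ℝ) ≤ 0
    exact le_refl _

theorem GA_mono {v w τ : ℝ} (hv : 0 ≤ v) (hw : 0 ≤ w) (hτ : 0 ≤ τ) {Φ Ψ : As V → ℝ}
    (H : ∀ A, Φ A ≤ Ψ A) : GA v w τ Φ ≤ GA v w τ Ψ :=
  EE_mono (gq_nonneg hv hw hτ) fun F => H (Md F)

theorem GA_nonneg {v w τ : ℝ} (hv : 0 ≤ v) (hw : 0 ≤ w) (hτ : 0 ≤ τ) {Φ : As V → ℝ}
    (H : ∀ A, 0 ≤ Φ A) : 0 ≤ GA v w τ Φ :=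
  EE_nonneg (gq_nonneg hv hw hτ) fun F => H (Md F)

theorem GA_const (v w τ c : ℝ) : GA v w τ (fun _ : As V => c) = c := EE_const _ _

theorem GA_add (v w τ : ℝ) (Φ Ψ : As V → ℝ) :
    GA v w τ (fun A => Φ A + Ψ A) = GA v w τ Φ + GA v w τ Ψ := EE_add _ _ _

theorem GA_sub (v w τ : ℝ) (Φ Ψ : As V → ℝ) :
    GA v w τ (fun A => Φ A - Ψ A) = GA v w τ Φ - GA v w τ Ψ := EE_sub _ _ _

theorem GA_mul (v w τ c : ℝ) (Φ : As V → ℝ) :
    GA v w τ (fun A => c * Φ A) = c * GA v w τ Φ := EE_mul_left _ _ _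

theorem GA_sum {β : Type*} (v w τ : ℝ) (s : Finset β) (Φ : β → As V → ℝ) :
    GA v w τ (fun A => ∑ b ∈ s, Φ b A) = ∑ b ∈ s, GA v w τ (Φ b) := EE_sum _ _ _

theorem wt_zero (F : Finset (Cl V)) :
    wt (fun _ : Cl V => (0 : ℝ)) F = if F = ∅ then 1 else 0 := by
  unfold wt
  by_cases h : F = ∅
  · subst h; simp
  · rw [if_neg h]
    obtain ⟨c, hc⟩ := Finset.nonempty_iff_ne_empty.2 h
    exact Finset.prod_eq_zero (Finset.mem_univ c) (by simp [hc])

theorem gq_zero (v w : ℝ) : gq (V := V) v w 0 = fun _ => 0 := by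
  funext c
  unfold gq
  rcases c with c | c | c
  · show 0 * (2 * v + 3 * w) = 0
    ring
  · show 0 * (3 * w) = 0
    ring
  · rfl

theorem GA_zero (v w : ℝ) (Φ : As V → ℝ) : GA v w 0 Φ = Φ Set.univ := by
  unfold GA EE
  rw [gq_zero]
  simp only [wt_zero]
  rw [Finset.sum_eq_single ∅]
  · simp [Md_empty]
  · intro F _ hF; simp [hF]
  · intro h; exact absurd (Finset.mem_univ _) h

/-- The generator of the gadget process. -/
theorem GA_hasDerivAt (v w : ℝ) (Φ : As V → ℝ) (τ : ℝ) :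
    HasDerivAt (fun t => GA v w t Φ)
      ((2 * v + 3 * w) * Fintype.card (Lt V) * GA v w τ (fun A => P1 Φ A - Φ A) +
        3 * w * (Fintype.card (Lt V) : ℝ) ^ 2 * GA v w τ (fun A => P2 Φ A - Φ A)) τ := by
  by_cases hV : Nonempty V
  swap
  · have hc : (Fintype.card (Lt V) : ℝ) = 0 := by
      have : IsEmpty V := not_nonempty_iff.1 hV
      simp
    have h1 : ∀ t, GA v w t Φ = Φ Set.univ := by
      intro t
      have : IsEmpty V := not_nonempty_iff.1 hV
      have : IsEmpty (Cl V) := by infer_instance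
      have h2 : gq (V := V) v w t = fun _ => 0 := by
        funext c
        exact this.elim c
      rw [← GA_zero v w Φ]
      unfold GA
      rw [h2, gq_zero]
    have h3 : (fun t => GA v w t Φ) = fun _ => Φ Set.univ := by funext t; exact h1 t
    rw [h3, hc]
    exact (hasDerivAt_const τ (Φ Set.univ)).congr_deriv (by simp)
  · have hq : ∀ t : ℝ, gq (V := V) v w t =
        fun c => (0 : ℝ) + t * qq (V := V) (2 * v + 3 * w) (3 * w) 0 c := by
      intro t
      funext c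
      rcases c with c | c | c
      · show t * (2 * v + 3 * w) = 0 + t * (2 * v + 3 * w)
        ring
      · show t * (3 * w) = 0 + t * (3 * w)
        ring
      · show (0 : ℝ) = 0 + t * 0
        ring
    have key := EE_hasDerivAt (fun _ : Cl V => (0 : ℝ)) (qq (V := V) (2 * v + 3 * w) (3 * w) 0)
      (fun F : Finset (Cl V) => Φ (Md F)) τ
    have hfun : (fun t => GA v w t Φ) =
        fun t => EE (fun c => (0 : ℝ) + t * qq (V := V) (2 * v + 3 * w) (3 * w) 0 c)
          (fun F : Finset (Cl V) => Φ (Md F)) := by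
      funext t
      unfold GA
      rw [hq t]
    rw [hfun]
    refine key.congr_deriv ?_
    rw [← hq τ]
    have hcard : (Fintype.card (Lt V) : ℝ) ≠ 0 := by
      have : 0 < Fintype.card (Lt V) := Fintype.card_pos
      exact_mod_cast this.ne'
    have e1 : GA v w τ (fun A => P1 Φ A - Φ A) = (∑ a : Lt V, EE (gq v w τ)
        (fun F => Φ (Md (insert (cu a) F)) - Φ (Md F))) / Fintype.card (Lt V) := by
      rw [← EE_sum, div_eq_inv_mul, ← EE_mul_left]
      unfold GA
      congr 1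
      funext F
      refine ((AS V).P1_sub_self Φ (Md F)).trans ?_
      rw [div_eq_inv_mul]
      congr 1
      refine Finset.sum_congr rfl fun a _ => ?_
      rw [Md_insert_cu]
      rfl
    have e2 : GA v w τ (fun A => P2 Φ A - Φ A) = (∑ a : Lt V, ∑ b : Lt V, EE (gq v w τ)
        (fun F => Φ (Md (insert (cp a b) F)) - Φ (Md F))) / (Fintype.card (Lt V) : ℝ) ^ 2 := by
      have h1 : ∀ a : Lt V, ∑ b : Lt V, EE (gq v w τ)
          (fun F => Φ (Md (insert (cp a b) F)) - Φ (Md F)) = EE (gq v w τ)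
          (fun F => ∑ b : Lt V, (Φ (Md (insert (cp a b) F)) - Φ (Md F))) :=
        fun a => (EE_sum _ _ _).symm
      rw [Finset.sum_congr rfl fun a _ => h1 a, ← EE_sum, div_eq_inv_mul, ← EE_mul_left]
      unfold GA
      congr 1
      funext F
      refine ((AS V).P2_sub_self Φ (Md F)).trans ?_
      rw [div_eq_inv_mul]
      congr 1
      refine Finset.sum_congr rfl fun a _ => Finset.sum_congr rfl fun b _ => ?_
      rw [Md_insert_cp]
      rfl
    rw [e1, e2]
    have e3 : ∑ c : Cl V, qq (V := V) (2 * v + 3 * w) (3 * w) 0 c *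
        EE (gq v w τ) (fun F : Finset (Cl V) => Φ (Md (insert c F)) - Φ (Md F)) =
        (∑ a : Lt V, (2 * v + 3 * w) * EE (gq v w τ)
          (fun F => Φ (Md (insert (cu a) F)) - Φ (Md F))) +
        ((∑ p : Lt V × Lt V, 3 * w * EE (gq v w τ)
          (fun F => Φ (Md (insert (cp p.1 p.2) F)) - Φ (Md F))) +
        ∑ t : Lt V × Lt V × Lt V, 0 * EE (gq v w τ)
          (fun F => Φ (Md (insert (ct t.1 t.2.1 t.2.2) F)) - Φ (Md F))) := by
      erw [Fintype.sum_sum_type, Fintype.sum_sum_type]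
      rfl
    have e4 : ∑ p : Lt V × Lt V, EE (gq v w τ)
          (fun F => Φ (Md (insert (cp p.1 p.2) F)) - Φ (Md F)) =
        ∑ a : Lt V, ∑ b : Lt V, EE (gq v w τ)
          (fun F => Φ (Md (insert (cp a b) F)) - Φ (Md F)) :=
      Fintype.sum_prod_type' (fun a b => EE (gq v w τ)
          (fun F => Φ (Md (insert (cp a b) F)) - Φ (Md F)))
    rw [e3, ← Finset.mul_sum, ← Finset.mul_sum, e4]
    simp only [zero_mul, Finset.sum_const_zero, add_zero]
    field_simp

end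

/-- A scalar growth lemma. -/
theorem growth {ψ ψ' : ℝ → ℝ} (hd : ∀ τ, HasDerivAt ψ (ψ' τ) τ) {a b : ℝ} (hb : 0 ≤ b)
    (ha : 0 ≤ a) (h : ∀ τ ∈ Set.Icc (0 : ℝ) 1, ψ' τ ≤ b * ψ τ + a) :
    ψ 1 ≤ Real.exp b * (ψ 0 + a) := by
  have hF : ∀ τ, HasDerivAt (fun t => ψ t * Real.exp (-b * t) - a * t)
      (ψ' τ * Real.exp (-b * τ) + ψ τ * (Real.exp (-b * τ) * (-b)) - a) τ := by
    intro τ
    have h1 : HasDerivAt (fun t : ℝ => -b * t) (-b) τ := by
      simpa using (hasDerivAt_id' τ).const_mul (-b)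
    have h2 := (hd τ).fun_mul h1.exp
    have h3 : HasDerivAt (fun t : ℝ => a * t) a τ := by
      simpa using (hasDerivAt_id' τ).const_mul a
    exact h2.fun_sub h3
  have hanti : AntitoneOn (fun t => ψ t * Real.exp (-b * t) - a * t) (Set.Icc (0 : ℝ) 1) := by
    refine antitoneOn_of_deriv_nonpos (convex_Icc 0 1)
      (fun t _ => (hF t).continuousAt.continuousWithinAt)
      (fun t _ => (hF t).differentiableAt.differentiableWithinAt) ?_
    intro t ht
    rw [interior_Icc] at ht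
    rw [(hF t).deriv]
    have h4 := h t ⟨ht.1.le, ht.2.le⟩
    have h5 : Real.exp (-b * t) ≤ 1 := Real.exp_le_one_iff.2 (by
      have := mul_nonneg hb ht.1.le
      linarith)
    have h6 : 0 < Real.exp (-b * t) := Real.exp_pos _
    nlinarith [mul_le_mul_of_nonneg_right h4 h6.le, mul_nonneg ha (sub_nonneg.2 h5)]
  have h7 := hanti (Set.left_mem_Icc.2 zero_le_one) (Set.right_mem_Icc.2 zero_le_one) zero_le_one
  simp only [mul_one, mul_zero, sub_zero, Real.exp_zero] at h7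
  have h8 : ψ 1 * Real.exp (-b) ≤ ψ 0 + a := by linarith
  have h9 : Real.exp b * Real.exp (-b) = 1 := by rw [← Real.exp_add]; simp
  calc ψ 1 = Real.exp b * (ψ 1 * Real.exp (-b)) := by
        rw [mul_left_comm, h9, mul_one]
    _ ≤ _ := mul_le_mul_of_nonneg_left h8 (Real.exp_pos b).le

end B2

/-! ### The bracket -/

namespace B2

variable {N : ℕ} {x y : ℝ}

theorem Iu_nonneg (N : ℕ) : 0 ≤ Iu N := by
  unfold Iu LN; positivity

theorem Iv_nonneg (hx : 0 ≤ x) : 0 ≤ Iv N x := by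
  unfold Iv; positivity

theorem Iw_nonneg (hy : 0 ≤ y) : 0 ≤ Iw N y := by
  unfold Iw; positivity

theorem Wt_nonneg (N n : ℕ) : 0 ≤ Wt N n := (Real.exp_pos _).le

theorem En_mono (hx : 0 ≤ x) (hy : 0 ≤ y) {n : ℕ} {h h' : As (Fin n) → ℝ}
    (H : ∀ S, h S ≤ h' S) : En N x y n h ≤ En N x y n h' :=
  EE_mono (qq_nonneg (Iu_nonneg N) (Iv_nonneg hx) (Iw_nonneg hy)) fun F => H (Md F)

theorem En_nonneg (hx : 0 ≤ x) (hy : 0 ≤ y) {n : ℕ} {h : As (Fin n) → ℝ}
    (H : ∀ S, 0 ≤ h S) : 0 ≤ En N x y n h :=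
  EE_nonneg (qq_nonneg (Iu_nonneg N) (Iv_nonneg hx) (Iw_nonneg hy)) fun F => H (Md F)

theorem En_add {n : ℕ} (h h' : As (Fin n) → ℝ) :
    En N x y n (fun S => h S + h' S) = En N x y n h + En N x y n h' := EE_add _ _ _

theorem En_sub {n : ℕ} (h h' : As (Fin n) → ℝ) :
    En N x y n (fun S => h S - h' S) = En N x y n h - En N x y n h' := EE_sub _ _ _

theorem En_mul (c : ℝ) {n : ℕ} (h : As (Fin n) → ℝ) :
    En N x y n (fun S => c * h S) = c * En N x y n h := EE_mul_left _ _ _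

theorem En_const (c : ℝ) {n : ℕ} : En N x y n (fun _ => c) = c := EE_const _ _

/-- Monotonicity of the bracket; only the window matters. -/
theorem Br_mono (hx : 0 ≤ x) (hy : 0 ≤ y) {h h' : (n : ℕ) → As (Fin n) → ℝ}
    (H : ∀ n ∈ Finset.Icc (N - MW N) (N + MW N), ∀ S, h n S ≤ h' n S) :
    Br N x y h ≤ Br N x y h' :=
  Finset.sum_le_sum fun n hn =>
    mul_le_mul_of_nonneg_left (En_mono hx hy (H n hn)) (Wt_nonneg N n)

theorem Br_nonneg (hx : 0 ≤ x) (hy : 0 ≤ y) {h : (n : ℕ) → As (Fin n) → ℝ}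
    (H : ∀ n ∈ Finset.Icc (N - MW N) (N + MW N), ∀ S, 0 ≤ h n S) : 0 ≤ Br N x y h :=
  Finset.sum_nonneg fun n hn => mul_nonneg (Wt_nonneg N n) (En_nonneg hx hy (H n hn))

theorem Br_add (h h' : (n : ℕ) → As (Fin n) → ℝ) :
    Br N x y (fun n S => h n S + h' n S) = Br N x y h + Br N x y h' := by
  unfold Br
  rw [← Finset.sum_add_distrib]
  exact Finset.sum_congr rfl fun n _ => by rw [En_add]; ring

theorem Br_sub (h h' : (n : ℕ) → As (Fin n) → ℝ) :
    Br N x y (fun n S => h n S - h' n S) = Br N x y h - Br N x y h' := by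
  unfold Br
  rw [← Finset.sum_sub_distrib]
  exact Finset.sum_congr rfl fun n _ => by rw [En_sub]; ring

theorem Br_mul (c : ℝ) (h : (n : ℕ) → As (Fin n) → ℝ) :
    Br N x y (fun n S => c * h n S) = c * Br N x y h := by
  unfold Br
  rw [Finset.mul_sum]
  exact Finset.sum_congr rfl fun n _ => by rw [En_mul]; ring

theorem Br'_mono (hx : 0 ≤ x) (hy : 0 ≤ y) {h h' : (n : ℕ) → As (Fin n) → ℝ}
    (H : ∀ n ∈ Finset.Icc (N - MW N) (N + MW N), ∀ S, h (n + 1) S ≤ h' (n + 1) S) :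
    Br' N x y h ≤ Br' N x y h' :=
  Finset.sum_le_sum fun n hn =>
    mul_le_mul_of_nonneg_left (En_mono hx hy (H n hn)) (Wt_nonneg N n)

/-- Derivative of the bracket of a gadget average with respect to the time. -/
theorem Br_GA_hasDerivAt (v w : ℝ) (g : (n : ℕ) → As (Fin n) → As (Fin n) → ℝ) (τ : ℝ) :
    HasDerivAt (fun t => Br N x y (fun n M => GA v w t (fun A => g n M (M ∩ A))))
      (Br N x y (fun n M =>
        (2 * v + 3 * w) * Fintype.card (Lt (Fin n)) *
          GA v w τ (fun A => P1 (g n M) (M ∩ A) - g n M (M ∩ A)) +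
        3 * w * (Fintype.card (Lt (Fin n)) : ℝ) ^ 2 *
          GA v w τ (fun A => P2 (g n M) (M ∩ A) - g n M (M ∩ A)))) τ := by
  unfold Br
  refine HasDerivAt.fun_sum fun n _ => ?_
  refine HasDerivAt.const_mul _ ?_
  unfold En EE
  refine HasDerivAt.fun_sum fun F _ => ?_
  refine HasDerivAt.const_mul _ ?_
  have h := GA_hasDerivAt v w (fun A => g n (Md F) (Md F ∩ A)) τ
  simp only [P1_inter, P2_inter] at h
  exact h

/-- **The growth lemma.** -/
theorem Br_growth (hx : 0 ≤ x) (hy : 0 ≤ y) {v w : ℝ} (hv : 0 ≤ v) (hw : 0 ≤ w)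
    {g : (n : ℕ) → As (Fin n) → As (Fin n) → ℝ} {U : (n : ℕ) → As (Fin n) → ℝ} {a b : ℝ}
    (hb : 0 ≤ b) (ha : 0 ≤ a)
    (hg : ∀ n ∈ Finset.Icc (N - MW N) (N + MW N), ∀ M S, S ⊆ M →
      (2 * v + 3 * w) * Fintype.card (Lt (Fin n)) * (P1 (g n M) S - g n M S) +
        3 * w * (Fintype.card (Lt (Fin n)) : ℝ) ^ 2 * (P2 (g n M) S - g n M S) ≤
          b * g n M S + U n S)
    (hU : ∀ τ ∈ Set.Icc (0 : ℝ) 1,
      Br N x y (fun n M => GA v w τ (fun A => U n (M ∩ A))) ≤ a) :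
    Br N x y (fun n M => GA v w 1 (fun A => g n M (M ∩ A))) ≤
      Real.exp b * (Br N x y (fun n M => g n M M) + a) := by
  have key := growth (fun τ => Br_GA_hasDerivAt (N := N) (x := x) (y := y) v w g τ) hb ha ?_
  · simp only [GA_zero, Set.inter_univ] at key
    exact key
  · intro τ hτ
    have h1 : Br N x y (fun n M =>
        (2 * v + 3 * w) * Fintype.card (Lt (Fin n)) *
          GA v w τ (fun A => P1 (g n M) (M ∩ A) - g n M (M ∩ A)) +
        3 * w * (Fintype.card (Lt (Fin n)) : ℝ) ^ 2 *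
          GA v w τ (fun A => P2 (g n M) (M ∩ A) - g n M (M ∩ A))) ≤
        Br N x y (fun n M => b * GA v w τ (fun A => g n M (M ∩ A)) +
          GA v w τ (fun A => U n (M ∩ A))) := by
      refine Br_mono hx hy fun n hn M => ?_
      rw [← GA_mul, ← GA_mul, ← GA_mul, ← GA_add, ← GA_add]
      exact GA_mono hv hw hτ.1 fun A => hg n hn M (M ∩ A) Set.inter_subset_left
    refine h1.trans ?_
    rw [Br_add, Br_mul]
    linarith [hU τ hτ]

end B2

end Pool.Agent.Lib.MP_9cae81_PC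
end

section

/-!
# Pure inequalities of the steps (H1) and (H2)

`H12_vv`: the transfer principle for the resolvent `v` of states, and the inequality of the step (H2).
`H12_real`: the inequality between real numbers of the step (H1).
-/

set_option autoImplicit false

open Finset
open scoped BigOperators

namespace Pool.Agent.Lib.MP_9cae81_PC

open Pool.Agent.Lib.MP_9cae81_R

/-! ### Indicators -/

section una

variable {V : Type}

theorem H12_una01 (S : As V) : una S = 0 ∨ una S = 1 := by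
  unfold una; split_ifs <;> simp

theorem H12_una_nonneg (S : As V) : 0 ≤ una S := by
  rcases H12_una01 S with h | h <;> simp [h]

theorem H12_una_le_one (S : As V) : una S ≤ 1 := by
  rcases H12_una01 S with h | h <;> simp [h]

/-- Smaller states are more often empty. -/
theorem H12_una_anti {S T : As V} (h : S ⊆ T) : una T ≤ una S := by
  unfold una
  by_cases hT : T = ∅
  · have : S = ∅ := by rw [hT] at h; exact Set.subset_empty_iff.1 h
    simp [hT, this]
  · rw [if_neg hT]; split_ifs <;> norm_num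

end una

/-! ### The transfer principle -/

section transfer

variable {V : Type} [Fintype V] [Nonempty V] {q : ℝ}

omit [Fintype V] [Nonempty V] in
theorem H12_comm (g : As V) (a : Lt V) (x : As V) :
    (AS V).iu a (x ∩ g) = (AS V).iu a x ∩ g := by
  show x ∩ g ∩ lit a = x ∩ lit a ∩ g
  rw [Set.inter_assoc, Set.inter_comm g, ← Set.inter_assoc]

/-- `v (S ∩ g)` is the resolvent of the indicator of `y ∩ g`. -/
theorem H12_vv_eq (q : ℝ) (S g : As V) :
    vv q (S ∩ g) = (AS V).R q (fun y => una (y ∩ g)) S :=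
  (AS V).R_comm (φ := fun x => x ∩ g) (fun a x => H12_comm g a x) S

omit [Fintype V] [Nonempty V] in
theorem H12_bd (g : As V) : Bd 1 (fun y : As V => una (y ∩ g)) := fun y => by
  rw [abs_of_nonneg (H12_una_nonneg _)]
  exact H12_una_le_one _

omit [Fintype V] [Nonempty V] in
theorem H12_bd2 (g g' : As V) : Bd 2 (fun y : As V => una (y ∩ g) + una (y ∩ g')) := fun y => by
  have h1 := H12_una_nonneg (y ∩ g)
  have h2 := H12_una_le_one (y ∩ g)
  have h3 := H12_una_nonneg (y ∩ g')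
  have h4 := H12_una_le_one (y ∩ g')
  exact abs_le.2 ⟨by linarith, by linarith⟩

omit [Fintype V] [Nonempty V] in
theorem H12_bd3 (g g' g'' : As V) :
    Bd 3 (fun y : As V => una (y ∩ g) + una (y ∩ g') + una (y ∩ g'')) := fun y => by
  have h1 := H12_una_nonneg (y ∩ g)
  have h2 := H12_una_le_one (y ∩ g)
  have h3 := H12_una_nonneg (y ∩ g')
  have h4 := H12_una_le_one (y ∩ g')
  have h5 := H12_una_nonneg (y ∩ g'')
  have h6 := H12_una_le_one (y ∩ g'')
  exact abs_le.2 ⟨by linarith, by linarith⟩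

/-- **Transfer principle**, three terms on each side (take some of the sets equal to use fewer). -/
theorem H12_transfer3 (hq : 0 ≤ q) (hq1 : q < 1) {a1 a2 a3 b1 b2 b3 : As V}
    (h : ∀ y : As V, una (y ∩ a1) + una (y ∩ a2) + una (y ∩ a3) ≤
      una (y ∩ b1) + una (y ∩ b2) + una (y ∩ b3)) (S : As V) :
    vv q (S ∩ a1) + vv q (S ∩ a2) + vv q (S ∩ a3) ≤
      vv q (S ∩ b1) + vv q (S ∩ b2) + vv q (S ∩ b3) := by
  have e : ∀ g g' g'' : As V, vv q (S ∩ g) + vv q (S ∩ g') + vv q (S ∩ g'') =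
      (AS V).R q (fun y => una (y ∩ g) + una (y ∩ g') + una (y ∩ g'')) S := by
    intro g g' g''
    rw [(AS V).R_add hq hq1 (H12_bd2 g g') (H12_bd g''), (AS V).R_add hq hq1 (H12_bd g) (H12_bd g'),
      H12_vv_eq, H12_vv_eq, H12_vv_eq]
  rw [e, e]
  exact (AS V).R_mono hq hq1 (H12_bd3 _ _ _) (H12_bd3 _ _ _) h S

/-- Two terms on each side. -/
theorem H12_transfer2 (hq : 0 ≤ q) (hq1 : q < 1) {a1 a2 b1 b2 : As V}
    (h : ∀ y : As V, una (y ∩ a1) + una (y ∩ a2) ≤ una (y ∩ b1) + una (y ∩ b2)) (S : As V) :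
    vv q (S ∩ a1) + vv q (S ∩ a2) ≤ vv q (S ∩ b1) + vv q (S ∩ b2) := by
  have := H12_transfer3 hq hq1 (a1 := a1) (a2 := a2) (a3 := a1) (b1 := b1) (b2 := b2) (b3 := a1)
    (fun y => by have := h y; linarith) S
  linarith

/-- One term on each side. -/
theorem H12_transfer1 (hq : 0 ≤ q) (hq1 : q < 1) {a b : As V}
    (h : ∀ y : As V, una (y ∩ a) ≤ una (y ∩ b)) (S : As V) :
    vv q (S ∩ a) ≤ vv q (S ∩ b) := by
  have := H12_transfer2 hq hq1 (a1 := a) (a2 := a) (b1 := b) (b2 := a)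
    (fun y => by have := h y; linarith) S
  linarith

/-- `v` is monotone: it grows when the state shrinks. -/
theorem H12_vv_anti (hq : 0 ≤ q) (hq1 : q < 1) {S T : As V} (h : S ⊆ T) : vv q T ≤ vv q S := by
  have := H12_transfer1 hq hq1 (a := Set.univ) (b := S)
    (fun y => H12_una_anti (by rw [Set.inter_univ]; exact Set.inter_subset_left)) T
  rwa [Set.inter_univ, Set.inter_eq_self_of_subset_right h] at this

/-- The Lipschitz property of disjunctions. -/
theorem H12_vv_lip (hq : 0 ≤ q) (hq1 : q < 1) {g g' h h' : As V} (hg : g' ⊆ g) (hh : h' ⊆ h)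
    (S : As V) :
    vv q (S ∩ (g' ∪ h')) - vv q (S ∩ (g ∪ h)) ≤
      (vv q (S ∩ g') - vv q (S ∩ g)) + (vv q (S ∩ h') - vv q (S ∩ h)) := by
  have := H12_transfer3 hq hq1 (a1 := g' ∪ h') (a2 := g) (a3 := h) (b1 := g ∪ h) (b2 := g')
    (b3 := h') (fun y => by
      rw [una_union, una_union]
      have h1 : una (y ∩ g) ≤ una (y ∩ g') := H12_una_anti (Set.inter_subset_inter_right y hg)
      have h2 : una (y ∩ h) ≤ una (y ∩ h') := H12_una_anti (Set.inter_subset_inter_right y hh)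
      rcases H12_una01 (y ∩ g) with e1 | e1 <;> rcases H12_una01 (y ∩ g') with e2 | e2 <;>
        rcases H12_una01 (y ∩ h) with e3 | e3 <;> rcases H12_una01 (y ∩ h') with e4 | e4 <;>
        rw [e1, e2] at h1 <;> rw [e3, e4] at h2 <;> rw [e1, e2, e3, e4] <;>
        first | (norm_num; done) | (exfalso; linarith)) S
  linarith

/-- The inequality of the step (H2):
`v(S ∩ (B ∪ (A ∩ T))) - v(S ∩ (A ∪ B)) ≤ v(S ∩ (A ∩ (B ∪ T))) - v(S ∩ A)`. -/
theorem H12_vv (hq : 0 ≤ q) (hq1 : q < 1) (A B T S : As V) :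
    vv q (S ∩ (B ∪ (A ∩ T))) - vv q (S ∩ (A ∪ B)) ≤
      vv q (S ∩ (A ∩ (B ∪ T))) - vv q (S ∩ A) := by
  have := H12_transfer2 hq hq1 (a1 := B ∪ (A ∩ T)) (a2 := A) (b1 := A ∪ B) (b2 := A ∩ (B ∪ T))
    (fun y => by
      have h5 : y ∩ (A ∩ (B ∪ T)) = y ∩ A ∩ (B ∪ T) := (Set.inter_assoc _ _ _).symm
      rw [una_union, una_union, h5, una_union]
      have h1 : una (y ∩ A) ≤ una (y ∩ (A ∩ T)) := H12_una_anti (by
        rw [← Set.inter_assoc]; exact Set.inter_subset_left)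
      have h2 : una (y ∩ A) ≤ una (y ∩ A ∩ B) := H12_una_anti Set.inter_subset_left
      have h3 : una (y ∩ B) ≤ una (y ∩ A ∩ B) := H12_una_anti
        (Set.inter_subset_inter_left B Set.inter_subset_left)
      have h4 : y ∩ A ∩ T = y ∩ (A ∩ T) := Set.inter_assoc _ _ _
      rw [h4]
      rcases H12_una01 (y ∩ A) with e1 | e1 <;> rcases H12_una01 (y ∩ B) with e2 | e2 <;>
        rcases H12_una01 (y ∩ (A ∩ T)) with e3 | e3 <;>
        rcases H12_una01 (y ∩ A ∩ B) with e4 | e4 <;>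
        rw [e1, e3] at h1 <;> rw [e1, e4] at h2 <;> rw [e2, e4] at h3 <;> rw [e1, e2, e3, e4] <;>
        first | (norm_num; done) | (exfalso; linarith)) S
  linarith

end transfer

/-! ### The real inequality of the step (H1) -/

/-- `v' = v(M)`, `v0 = v(M ∩ (A ∪ B))`, `vA`, `vB`. -/
theorem H12_real {v' v0 vA vB s : ℝ} (hs : 0 < s) (hs1 : s ≤ 1) (h0 : 0 < v') (h1 : v' ≤ v0)
    (h2 : v0 ≤ vA) (h3 : v0 ≤ vB) (h4 : vB ≤ 1) :
    v0 ^ (3 - s) * (vB - v0) ^ s ≤ v' ^ (3 - s) * (vB - v0) ^ s +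
      7 * v' ^ (2 - s) * (vA - v') * (vB - v') ^ s + 4 * (vA - v') * (vB - v') := by
  have hv0 : 0 < v0 := lt_of_lt_of_le h0 h1
  have hb0 : 0 ≤ vB - v0 := by linarith
  have hp : 0 ≤ (vB - v0) ^ s := Real.rpow_nonneg hb0 s
  have hp1 : (vB - v0) ^ s ≤ (vB - v') ^ s := Real.rpow_le_rpow hb0 (by linarith) hs.le
  have ha : v0 - v' ≤ vA - v' := by linarith
  have hb : v0 - v' ≤ vB - v' := by linarith
  have ht : 0 ≤ v0 - v' := by linarith
  have e3 : v' ^ (3 - s) = v' ^ (2 - s) * v' := by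
    rw [show (3 : ℝ) - s = (2 - s) + 1 by ring, Real.rpow_add h0, Real.rpow_one]
  have hw : 0 ≤ v' ^ (2 - s) := Real.rpow_nonneg h0.le _
  have h7 : 0 ≤ 7 * v' ^ (2 - s) * (vA - v') * (vB - v') ^ s := by
    have := Real.rpow_nonneg (show 0 ≤ vB - v' by linarith) s
    have h8 : 0 ≤ vA - v' := by linarith
    positivity
  have h9 : 0 ≤ 4 * (vA - v') * (vB - v') := by
    have h8 : 0 ≤ vA - v' := by linarith
    have h10 : 0 ≤ vB - v' := by linarith
    positivity
  by_cases hc : v0 - v' ≤ v'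
  · -- first case: `v0 = v' (1 + x)`, `x ≤ 1`
    set x := (v0 - v') / v' with hx
    have hx0 : 0 ≤ x := div_nonneg ht h0.le
    have hx1 : x ≤ 1 := (div_le_one h0).2 hc
    have hv : v0 = v' * (1 + x) := by rw [hx]; field_simp; ring
    have hr : (1 + x) ^ (3 - s) ≤ 1 + 7 * x := by
      have h11 : (1 + x) ^ (3 - s) ≤ (1 + x) ^ (3 : ℝ) :=
        Real.rpow_le_rpow_of_exponent_le (by linarith) (by linarith)
      have h12 : (1 + x) ^ (3 : ℝ) = (1 + x) ^ 3 := by
        rw [← Real.rpow_natCast]; norm_num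
      rw [h12] at h11
      nlinarith [mul_nonneg hx0 (sub_nonneg.2 hx1), mul_nonneg (mul_nonneg hx0 hx0)
        (sub_nonneg.2 hx1)]
    have h13 : v0 ^ (3 - s) ≤ v' ^ (3 - s) + 7 * v' ^ (2 - s) * (v0 - v') := by
      rw [hv, Real.mul_rpow h0.le (by linarith)]
      calc v' ^ (3 - s) * (1 + x) ^ (3 - s) ≤ v' ^ (3 - s) * (1 + 7 * x) :=
            mul_le_mul_of_nonneg_left hr (Real.rpow_nonneg h0.le _)
        _ = v' ^ (3 - s) + 7 * v' ^ (2 - s) * (v' * (1 + x) - v') := by rw [e3]; ring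
    calc v0 ^ (3 - s) * (vB - v0) ^ s
        ≤ (v' ^ (3 - s) + 7 * v' ^ (2 - s) * (v0 - v')) * (vB - v0) ^ s :=
          mul_le_mul_of_nonneg_right h13 hp
      _ = v' ^ (3 - s) * (vB - v0) ^ s + 7 * v' ^ (2 - s) * (v0 - v') * (vB - v0) ^ s := by ring
      _ ≤ v' ^ (3 - s) * (vB - v0) ^ s + 7 * v' ^ (2 - s) * (vA - v') * (vB - v') ^ s := by
          refine add_le_add_right (mul_le_mul ?_ hp1 hp ?_) _
          · exact mul_le_mul_of_nonneg_left ha (by positivity)
          · have : 0 ≤ vA - v' := by linarith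
            positivity
      _ ≤ _ := by linarith
  · -- second case: `v0 ≤ 2 (v0 - v')`
    have hc' : v' < v0 - v' := lt_of_not_ge hc
    have h14 : (vB - v0) ^ s ≤ 1 := Real.rpow_le_one hb0 (by linarith) hs.le
    have h15 : v0 ^ (3 - s) ≤ v0 ^ (2 : ℝ) :=
      Real.rpow_le_rpow_of_exponent_ge hv0 (by linarith) (by linarith)
    have h16 : v0 ^ (2 : ℝ) = v0 ^ 2 := by rw [← Real.rpow_natCast]; norm_num
    rw [h16] at h15
    have h17 : v0 ^ 2 ≤ 4 * (vA - v') * (vB - v') := by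
      have h18 : v0 ≤ 2 * (v0 - v') := by linarith
      have h19 : v0 ^ 2 ≤ (2 * (v0 - v')) ^ 2 := by
        exact pow_le_pow_left₀ hv0.le h18 2
      have h20 : (v0 - v') * (v0 - v') ≤ (vA - v') * (vB - v') :=
        mul_le_mul ha hb ht (by linarith)
      nlinarith
    have h21 : 0 ≤ v' ^ (3 - s) * (vB - v0) ^ s := mul_nonneg (Real.rpow_nonneg h0.le _) hp
    calc v0 ^ (3 - s) * (vB - v0) ^ s ≤ v0 ^ (3 - s) * 1 :=
          mul_le_mul_of_nonneg_left h14 (Real.rpow_nonneg hv0.le _)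
      _ ≤ 4 * (vA - v') * (vB - v') := by linarith
      _ ≤ _ := by linarith

end Pool.Agent.Lib.MP_9cae81_PC
end
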