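import Pool.Agent.Lib.MP_9cae81_PC.Sys
import Pool.Agent.Lib.MP_9cae81_PC.Defs
import Pool.Agent.Lib.MP_9cae81_PC.Mg.G003
import Pool.Agent.Lib.MP_9cae81_PC.PDefs
import Pool.Agent.Lib.MP_9cae81_PC.Mg.G001
import Pool.Agent.Lib.MP_9cae81_PC.P3a

section

/-!
# Exact identities for the powers of `s = v 1_SAT` and the telescoping steps

`Gm` = mean square of the increment `Δ_z v` under a uniform unit clause, deaths included (`Gp` of
`Sys` is the part without deaths), `G3` = mean cube, `Gc` = mean square of the increment under a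
uniform pair clause.
-/

set_option autoImplicit false
set_option linter.unusedSectionVars false

open Finset
open scoped BigOperators

namespace Pool.Agent.Lib.MP_9cae81_PC

namespace Sys

variable {X L : Type} [Fintype L] (S : Sys X L)

/-- `E_z (Δ_z v)^2`, deaths included. -/
noncomputable def Gm (q : ℝ) (x : X) : ℝ := (∑ a : L, S.dl q a x ^ 2) / Fintype.card L

/-- `E_z (Δ_z v)^3`, deaths included. -/
noncomputable def G3 (q : ℝ) (x : X) : ℝ := (∑ a : L, S.dl q a x ^ 3) / Fintype.card L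

/-- `E_C (Δ_C v)^2`, deaths included. -/
noncomputable def Gc (q : ℝ) (x : X) : ℝ :=
  (∑ a : L, ∑ b : L, (S.v q (S.ip a b x) - S.v q x) ^ 2) / (Fintype.card L : ℝ) ^ 2

variable [Nonempty L] {q : ℝ}

theorem Gm_nonneg (x : X) : 0 ≤ S.Gm q x :=
  div_nonneg (Finset.sum_nonneg fun _ _ => sq_nonneg _) (by positivity)

theorem Gc_nonneg (x : X) : 0 ≤ S.Gc q x :=
  div_nonneg (Finset.sum_nonneg fun _ _ => Finset.sum_nonneg fun _ _ => sq_nonneg _) (by positivity)

theorem G3_nonneg (hq : 0 ≤ q) (hq1 : q < 1) (x : X) : 0 ≤ S.G3 q x :=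
  div_nonneg (Finset.sum_nonneg fun a _ => pow_nonneg (S.dl_nonneg hq hq1 a x) 3) (by positivity)

theorem Gc_le (hq : 0 < q) (hq1 : q < 1) (x : X) : S.Gc q x ≤ ((1 - q) / q * S.s q x) ^ 2 :=
  S.pair_sq_le hq hq1 x

theorem dl_of_un (hq : 0 ≤ q) (hq1 : q < 1) {x : X} (h : S.un x = 1) (a : L) :
    S.dl q a x = 0 := by
  unfold dl
  rw [S.v_of_un hq hq1 h, S.v_of_un hq hq1 (S.un_iu h a), sub_self]

theorem dl_le_one (hq : 0 ≤ q) (hq1 : q < 1) (a : L) (x : X) : S.dl q a x ≤ 1 := by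
  unfold dl
  linarith [S.v_le_one hq hq1 (S.iu a x), S.v_nonneg hq hq1 x]

theorem Gp_le_Gm (x : X) : S.Gp q x ≤ S.Gm q x := by
  unfold Gp Gm
  refine div_le_div_of_nonneg_right (Finset.sum_le_sum fun a _ => ?_) (by positivity)
  exact mul_le_of_le_one_left (sq_nonneg _) (by linarith [S.un_nonneg (S.iu a x)])

/-- `Γ ≤ μ s` (because `Δ_z v ≤ 1`). -/
theorem Gm_le (hq : 0 < q) (hq1 : q < 1) (x : X) : S.Gm q x ≤ (1 - q) / q * S.s q x := by
  have hc := card_pos' (L := L)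
  unfold Gm
  rw [div_le_iff₀ hc, mul_comm, ← S.sum_dl hq hq1]
  refine Finset.sum_le_sum fun a _ => ?_
  have h1 := S.dl_nonneg hq.le hq1 a x
  have h2 := S.dl_le_one hq.le hq1 a x
  nlinarith

/-- Increment of `s^2` under a unit clause. -/
theorem s_sq_iu (hq : 0 ≤ q) (hq1 : q < 1) (a : L) (x : X) :
    S.s q (S.iu a x) ^ 2 - S.s q x ^ 2 =
      2 * S.s q x * S.dl q a x + S.dl q a x ^ 2 - (S.un (S.iu a x) - S.un x) := by
  rcases S.un01 x with h | h
  · rcases S.un01 (S.iu a x) with h' | h'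
    · rw [S.s_of_sat h', S.s_of_sat h, h', h]; unfold dl; ring
    · rw [S.s_of_un hq hq1 h', S.s_of_sat h, h', h]; unfold dl
      rw [S.v_of_un hq hq1 h']; ring
  · rw [S.dl_of_un hq hq1 h, S.s_of_un hq hq1 h, S.s_of_un hq hq1 (S.un_iu h a), S.un_iu h a, h]
    ring

/-- Increment of `s^3` under a unit clause. -/
theorem s_cube_iu (hq : 0 ≤ q) (hq1 : q < 1) (a : L) (x : X) :
    S.s q (S.iu a x) ^ 3 - S.s q x ^ 3 =
      3 * S.s q x ^ 2 * S.dl q a x + 3 * S.s q x * S.dl q a x ^ 2 + S.dl q a x ^ 3 -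
        (S.un (S.iu a x) - S.un x) := by
  rcases S.un01 x with h | h
  · rcases S.un01 (S.iu a x) with h' | h'
    · rw [S.s_of_sat h', S.s_of_sat h, h', h]; unfold dl; ring
    · rw [S.s_of_un hq hq1 h', S.s_of_sat h, h', h]; unfold dl
      rw [S.v_of_un hq hq1 h']; ring
  · rw [S.dl_of_un hq hq1 h, S.s_of_un hq hq1 h, S.s_of_un hq hq1 (S.un_iu h a), S.un_iu h a, h]
    ring

/-- `(P1 - 1)(v² 1_SAT) = 2 μ v² 1_SAT + Γ - f`. -/
theorem P1_ssq' (hq : 0 < q) (hq1 : q < 1) (x : X) :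
    S.P1 (fun y => S.s q y ^ 2) x - S.s q x ^ 2 =
      2 * ((1 - q) / q) * S.s q x ^ 2 + S.Gm q x - S.f x := by
  have hc := card_pos' (L := L)
  rw [S.P1_sub_self (fun y => S.s q y ^ 2) x, Finset.sum_congr rfl fun a _ => S.s_sq_iu hq.le hq1 a x,
    Finset.sum_sub_distrib, Finset.sum_add_distrib, ← Finset.mul_sum, S.sum_dl hq hq1]
  unfold Gm f
  field_simp

/-- `(P1 - 1)(v³ 1_SAT) = 3 μ v³ 1_SAT + 3 v Γ + G3 - f`. -/
theorem P1_scube (hq : 0 < q) (hq1 : q < 1) (x : X) :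
    S.P1 (fun y => S.s q y ^ 3) x - S.s q x ^ 3 =
      3 * ((1 - q) / q) * S.s q x ^ 3 + 3 * S.s q x * S.Gm q x + S.G3 q x - S.f x := by
  have hc := card_pos' (L := L)
  rw [S.P1_sub_self (fun y => S.s q y ^ 3) x,
    Finset.sum_congr rfl fun a _ => S.s_cube_iu hq.le hq1 a x,
    Finset.sum_sub_distrib, Finset.sum_add_distrib, Finset.sum_add_distrib, ← Finset.mul_sum,
    ← Finset.mul_sum, S.sum_dl hq hq1]
  unfold Gm G3 f
  field_simp

/-- `Γ = Gp + f (1 - v)²`. -/
theorem Gm_eq (hq : 0 ≤ q) (hq1 : q < 1) (x : X) :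
    S.Gm q x = S.Gp q x + S.f x * (1 - S.v q x) ^ 2 := by
  have e : ∀ a : L, S.dl q a x ^ 2 = (1 - S.un (S.iu a x)) * S.dl q a x ^ 2 +
      (S.un (S.iu a x) - S.un x) * (1 - S.v q x) ^ 2 := by
    intro a
    rcases S.un01 x with h | h
    · rcases S.un01 (S.iu a x) with h' | h'
      · rw [h, h']; ring
      · rw [h, h']; unfold dl; rw [S.v_of_un hq hq1 h']; ring
    · rw [S.dl_of_un hq hq1 h, S.un_iu h a, h]; ring
  unfold Gm Gp f
  rw [Finset.sum_congr rfl fun a _ => e a, Finset.sum_add_distrib, ← Finset.sum_mul, add_div,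
    mul_div_right_comm]

/-- `G3 ≤ Gp + f (1 - v)³`. -/
theorem G3_le (hq : 0 ≤ q) (hq1 : q < 1) (x : X) :
    S.G3 q x ≤ S.Gp q x + S.f x * (1 - S.v q x) ^ 3 := by
  have e : ∀ a : L, S.dl q a x ^ 3 ≤ (1 - S.un (S.iu a x)) * S.dl q a x ^ 2 +
      (S.un (S.iu a x) - S.un x) * (1 - S.v q x) ^ 3 := by
    intro a
    rcases S.un01 x with h | h
    · rcases S.un01 (S.iu a x) with h' | h'
      · rw [h, h']
        have := pow_le_pow_of_le_one (S.dl_nonneg hq hq1 a x) (S.dl_le_one hq hq1 a x)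
          (show 2 ≤ 3 by norm_num)
        linarith
      · rw [h, h']; unfold dl; rw [S.v_of_un hq hq1 h']; apply le_of_eq; ring
    · rw [S.dl_of_un hq hq1 h, S.un_iu h a, h]; apply le_of_eq; ring
  unfold G3 Gp f
  rw [← mul_div_right_comm, ← add_div, Finset.sum_mul, ← Finset.sum_add_distrib]
  exact div_le_div_of_nonneg_right (Finset.sum_le_sum fun a _ => e a) (by positivity)

/-- `f s ≤ f (2 s - s²)`. -/
theorem f_s_le (hq : 0 ≤ q) (hq1 : q < 1) (x : X) :
    S.f x * S.s q x ≤ S.f x * (2 * S.s q x - S.s q x ^ 2) := by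
  refine mul_le_mul_of_nonneg_left ?_ (S.f_nonneg x)
  nlinarith [S.s_nonneg hq hq1 x, S.s_le_one hq hq1 x]

/-- **Bulk mass.**  `(P1 - 1)(v² - v³) 1_SAT = μ (2 v² - 3 v³) 1_SAT + Γ - 3 v Γ - G3`, and the error
`Γ - 3 v Γ - G3` is at most `3 Gp + 2 v Γ` in absolute value. -/
theorem bulk (hq : 0 < q) (hq1 : q < 1) (x : X) :
    |(S.P1 (fun y => S.s q y ^ 2) x - S.s q x ^ 2) -
      (S.P1 (fun y => S.s q y ^ 3) x - S.s q x ^ 3) -
        (1 - q) / q * (2 * S.s q x ^ 2 - 3 * S.s q x ^ 3)| ≤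
      3 * S.Gp q x + 2 * S.s q x * S.Gm q x := by
  have hq0 := hq.le
  have e : (S.P1 (fun y => S.s q y ^ 2) x - S.s q x ^ 2) -
      (S.P1 (fun y => S.s q y ^ 3) x - S.s q x ^ 3) -
        (1 - q) / q * (2 * S.s q x ^ 2 - 3 * S.s q x ^ 3) =
      S.Gm q x - 3 * S.s q x * S.Gm q x - S.G3 q x := by
    rw [S.P1_ssq' hq hq1, S.P1_scube hq hq1]; ring
  rw [e]
  have hs0 := S.s_nonneg hq0 hq1 x
  have hs1 := S.s_le_one hq0 hq1 x
  -- pointwise: `d² (1 - 3 s - d)` is between `-3 (1-u) d² - 2 s d²` and `(1-u) d²`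
  have hc := card_pos' (L := L)
  have h1 : S.Gm q x - 3 * S.s q x * S.Gm q x - S.G3 q x =
      (∑ a : L, (S.dl q a x ^ 2 * (1 - 3 * S.s q x - S.dl q a x))) / Fintype.card L := by
    unfold Gm G3
    rw [← mul_div_assoc, ← sub_div, ← sub_div, Finset.mul_sum, ← Finset.sum_sub_distrib,
      ← Finset.sum_sub_distrib]
    congr 1
    exact Finset.sum_congr rfl fun a _ => by ring
  have h2 : 3 * S.Gp q x + 2 * S.s q x * S.Gm q x =
      (∑ a : L, (3 * ((1 - S.un (S.iu a x)) * S.dl q a x ^ 2) +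
        2 * S.s q x * S.dl q a x ^ 2)) / Fintype.card L := by
    unfold Gm Gp
    rw [← mul_div_assoc, ← mul_div_assoc, ← add_div, Finset.mul_sum, Finset.mul_sum,
      ← Finset.sum_add_distrib]
  rw [h1, h2, abs_div, abs_of_pos hc]
  refine div_le_div_of_nonneg_right ?_ hc.le
  refine (Finset.abs_sum_le_sum_abs _ _).trans (Finset.sum_le_sum fun a _ => ?_)
  have hd0 := S.dl_nonneg hq0 hq1 a x
  have hd1 := S.dl_le_one hq0 hq1 a x
  have hd2 : 0 ≤ S.dl q a x ^ 2 := sq_nonneg _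
  rcases S.un01 x with h | h
  · rcases S.un01 (S.iu a x) with h' | h'
    · rw [h', abs_le]
      constructor
      · nlinarith [mul_nonneg hd2 hs0, mul_nonneg hd2 hd0]
      · nlinarith [mul_nonneg hd2 hs0, mul_nonneg hd2 hd0]
    · rw [h']
      have hd : S.dl q a x = 1 - S.s q x := by
        unfold dl
        rw [S.v_of_un hq0 hq1 h', S.s_of_sat h]
      rw [hd]
      have e2 : (1 - S.s q x) ^ 2 * (1 - 3 * S.s q x - (1 - S.s q x)) =
          -(2 * S.s q x * (1 - S.s q x) ^ 2) := by ring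
      rw [e2, abs_neg, abs_of_nonneg (by positivity)]
      linarith
  · rw [S.dl_of_un hq0 hq1 h]
    simp

/-! ### Telescoping steps -/

/-- Surviving version, one unit clause: `H = (v - v0)² 1_SAT`. -/
theorem step_s1 (hq : 0 < q) (hq1 : q < 1) (v0 : ℝ) {x : X} (hx : v0 ≤ S.v q x) :
    S.P1 (fun y => (S.v q y - v0) ^ 2 * (1 - S.un y)) x ≤
      (S.v q x - v0) ^ 2 * (1 - S.un x) + S.Gp q x +
        2 * ((1 - q) / q) * (S.v q x - v0) * S.s q x := by
  have hc := card_pos' (L := L)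
  have h0 := S.P1_sub_self (fun y => (S.v q y - v0) ^ 2 * (1 - S.un y)) x
  have e : ∀ a : L, (S.v q (S.iu a x) - v0) ^ 2 * (1 - S.un (S.iu a x)) -
      (S.v q x - v0) ^ 2 * (1 - S.un x) ≤
      (1 - S.un (S.iu a x)) * S.dl q a x ^ 2 + 2 * (S.v q x - v0) * S.dl q a x := by
    intro a
    have hd0 := S.dl_nonneg hq.le hq1 a x
    have hd : S.v q (S.iu a x) = S.v q x + S.dl q a x := by unfold dl; ring
    have h3 : 0 ≤ (S.v q x - v0) * S.dl q a x := mul_nonneg (by linarith) hd0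
    have h4 : 0 ≤ (S.v q x - v0) ^ 2 := sq_nonneg _
    rcases S.un01 x with h | h
    · rcases S.un01 (S.iu a x) with h' | h'
      · rw [h, h', hd]; apply le_of_eq; ring
      · rw [h, h']; linarith
    · rw [S.un_iu h a, h]; linarith
  have h1 : S.P1 (fun y => (S.v q y - v0) ^ 2 * (1 - S.un y)) x -
      (S.v q x - v0) ^ 2 * (1 - S.un x) ≤
      (∑ a : L, ((1 - S.un (S.iu a x)) * S.dl q a x ^ 2 + 2 * (S.v q x - v0) * S.dl q a x)) /
        Fintype.card L := by
    rw [h0]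
    exact div_le_div_of_nonneg_right (Finset.sum_le_sum fun a _ => e a) hc.le
  have h2 : (∑ a : L, ((1 - S.un (S.iu a x)) * S.dl q a x ^ 2 +
      2 * (S.v q x - v0) * S.dl q a x)) / Fintype.card L =
      S.Gp q x + 2 * ((1 - q) / q) * (S.v q x - v0) * S.s q x := by
    rw [Finset.sum_add_distrib, ← Finset.mul_sum, S.sum_dl hq hq1]
    unfold Gp
    field_simp
  linarith

/-- Complete version, one unit clause: `H = (v - v0)²`. -/
theorem step_m1 (hq : 0 < q) (hq1 : q < 1) (v0 : ℝ) (x : X) :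
    S.P1 (fun y => (S.v q y - v0) ^ 2) x =
      (S.v q x - v0) ^ 2 + S.Gm q x + 2 * ((1 - q) / q) * (S.v q x - v0) * S.s q x := by
  have hc := card_pos' (L := L)
  have h0 := S.P1_sub_self (fun y => (S.v q y - v0) ^ 2) x
  have e : ∀ a : L, (S.v q (S.iu a x) - v0) ^ 2 - (S.v q x - v0) ^ 2 =
      S.dl q a x ^ 2 + 2 * (S.v q x - v0) * S.dl q a x := by
    intro a; unfold dl; ring
  rw [Finset.sum_congr rfl fun a _ => e a, Finset.sum_add_distrib, ← Finset.mul_sum,
    S.sum_dl hq hq1] at h0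
  have h2 : (∑ a : L, S.dl q a x ^ 2 + 2 * (S.v q x - v0) *
      (Fintype.card L * ((1 - q) / q * S.s q x))) / Fintype.card L =
      S.Gm q x + 2 * ((1 - q) / q) * (S.v q x - v0) * S.s q x := by
    unfold Gm
    field_simp
  linarith

/-- Surviving version, one pair clause. -/
theorem step_s2 (hq : 0 < q) (hq1 : q < 1) (v0 : ℝ) {x : X} (hx : v0 ≤ S.v q x) :
    S.P2 (fun y => (S.v q y - v0) ^ 2 * (1 - S.un y)) x ≤
      (S.v q x - v0) ^ 2 * (1 - S.un x) + S.Gc q x +
        2 * ((1 - q) / q) * (S.v q x - v0) * S.s q x := by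
  have hc := card_pos' (L := L)
  have h0 := S.P2_sub_self (fun y => (S.v q y - v0) ^ 2 * (1 - S.un y)) x
  have h5 := S.P2_sub_self (S.v q) x
  have h6 := S.P2_v_le hq hq1 x
  have e : ∀ a b : L, (S.v q (S.ip a b x) - v0) ^ 2 * (1 - S.un (S.ip a b x)) -
      (S.v q x - v0) ^ 2 * (1 - S.un x) ≤
      (S.v q (S.ip a b x) - S.v q x) ^ 2 +
        2 * (S.v q x - v0) * (S.v q (S.ip a b x) - S.v q x) := by
    intro a b
    have hd0 := S.dp_nonneg hq.le hq1 a b x
    have h3 : 0 ≤ (S.v q x - v0) * (S.v q (S.ip a b x) - S.v q x) :=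
      mul_nonneg (by linarith) hd0
    have h4 : 0 ≤ (S.v q x - v0) ^ 2 := sq_nonneg _
    have h7 : 0 ≤ (S.v q (S.ip a b x) - S.v q x) ^ 2 := sq_nonneg _
    have h8 := S.un_le_ip a b x
    rcases S.un01 (S.ip a b x) with h' | h'
    · have h : S.un x = 0 := le_antisymm (h' ▸ h8) (S.un_nonneg x)
      rw [h, h']; apply le_of_eq; ring
    · have h9 := S.un_le_one x
      rw [h']; nlinarith
  have h1 : S.P2 (fun y => (S.v q y - v0) ^ 2 * (1 - S.un y)) x -
      (S.v q x - v0) ^ 2 * (1 - S.un x) ≤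
      (∑ a : L, ∑ b : L, ((S.v q (S.ip a b x) - S.v q x) ^ 2 +
        2 * (S.v q x - v0) * (S.v q (S.ip a b x) - S.v q x))) / (Fintype.card L : ℝ) ^ 2 := by
    rw [h0]
    exact div_le_div_of_nonneg_right
      (Finset.sum_le_sum fun a _ => Finset.sum_le_sum fun b _ => e a b) (by positivity)
  have h2 : (∑ a : L, ∑ b : L, ((S.v q (S.ip a b x) - S.v q x) ^ 2 +
        2 * (S.v q x - v0) * (S.v q (S.ip a b x) - S.v q x))) / (Fintype.card L : ℝ) ^ 2 =
      S.Gc q x + 2 * (S.v q x - v0) * (S.P2 (S.v q) x - S.v q x) := by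
    rw [h5]
    simp only [Finset.sum_add_distrib, ← Finset.mul_sum]
    unfold Gc
    ring
  have h9 : 2 * (S.v q x - v0) * (S.P2 (S.v q) x - S.v q x) ≤
      2 * (S.v q x - v0) * ((1 - q) / q * S.s q x) :=
    mul_le_mul_of_nonneg_left (by linarith) (by linarith)
  linarith

/-- Complete version, one pair clause. -/
theorem step_m2 (hq : 0 < q) (hq1 : q < 1) (v0 : ℝ) {x : X} (hx : v0 ≤ S.v q x) :
    S.P2 (fun y => (S.v q y - v0) ^ 2) x ≤
      (S.v q x - v0) ^ 2 + S.Gc q x + 2 * ((1 - q) / q) * (S.v q x - v0) * S.s q x := by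
  have hc := card_pos' (L := L)
  have h0 := S.P2_sub_self (fun y => (S.v q y - v0) ^ 2) x
  have h5 := S.P2_sub_self (S.v q) x
  have h6 := S.P2_v_le hq hq1 x
  have e : ∀ a b : L, (S.v q (S.ip a b x) - v0) ^ 2 - (S.v q x - v0) ^ 2 =
      (S.v q (S.ip a b x) - S.v q x) ^ 2 +
        2 * (S.v q x - v0) * (S.v q (S.ip a b x) - S.v q x) := by
    intro a b; ring
  have h2 : (∑ a : L, ∑ b : L, ((S.v q (S.ip a b x) - v0) ^ 2 - (S.v q x - v0) ^ 2)) /
      (Fintype.card L : ℝ) ^ 2 =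
      S.Gc q x + 2 * (S.v q x - v0) * (S.P2 (S.v q) x - S.v q x) := by
    rw [h5]
    simp only [e, Finset.sum_add_distrib, ← Finset.mul_sum]
    unfold Gc
    ring
  have h9 : 2 * (S.v q x - v0) * (S.P2 (S.v q) x - S.v q x) ≤
      2 * (S.v q x - v0) * ((1 - q) / q * S.s q x) :=
    mul_le_mul_of_nonneg_left (by linarith) (by linarith)
  linarith

end Sys

end Pool.Agent.Lib.MP_9cae81_PC
end

section

/-!
# Facts about `vv` on sets of assignments

`EU q Φ`: average of `Φ U`, `U` the set of models of a geometric number of random unit clauses.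
`vv q S = EU q (fun U => una (S ∩ U))`, so every linear inequality between the indicators
`una (S i ∩ U)` that holds for all `U` holds for the numbers `vv q (S i)`.
-/

set_option autoImplicit false
set_option linter.unusedSectionVars false

open Finset
open scoped BigOperators

namespace Pool.Agent.Lib.MP_9cae81_PC

open Pool.Agent.Lib.MP_9cae81_R

/-! ### The indicator of the empty set -/

section una

variable {V : Type} {S T U : As V}

theorem una_emp : una (∅ : As V) = 1 := by unfold una; simp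

theorem una_of_eq (h : S = ∅) : una S = 1 := by unfold una; simp [h]

theorem una_of_ne (h : S ≠ ∅) : una S = 0 := by unfold una; simp [h]

theorem una_eq_one : una S = 1 ↔ S = ∅ := by
  unfold una
  split_ifs with h <;> simp [h]

theorem una_eq_zero : una S = 0 ↔ S ≠ ∅ := by
  unfold una
  split_ifs with h <;> simp [h]

theorem una01 (S : As V) : una S = 0 ∨ una S = 1 := by
  unfold una; split_ifs <;> simp

theorem una_nonneg (S : As V) : 0 ≤ una S := by
  rcases una01 S with h | h <;> simp [h]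

theorem una_le_one (S : As V) : una S ≤ 1 := by
  rcases una01 S with h | h <;> simp [h]

theorem una_anti (h : S ⊆ T) : una T ≤ una S := by
  unfold una
  by_cases hT : T = ∅
  · have : S = ∅ := Set.subset_eq_empty h hT
    simp [hT, this]
  · rw [if_neg hT]; split_ifs <;> norm_num

theorem una_cup (S T : As V) : una (S ∪ T) = una S * una T := by
  unfold una
  by_cases h1 : S = ∅ <;> by_cases h2 : T = ∅ <;> simp [Set.union_empty_iff, h1, h2]

/-- `una` of `S ∩ (g ∪ g')` intersected with `U`. -/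
theorem una_or (S g g' U : As V) :
    una (S ∩ (g ∪ g') ∩ U) = una (S ∩ g ∩ U) * una (S ∩ g' ∩ U) := by
  rw [← una_cup]
  congr 1
  ext σ
  simp only [Set.mem_inter_iff, Set.mem_union]
  tauto

end una

/-! ### The law of the set of models of the random units -/

section EU

variable {V : Type} [Fintype V]

theorem bdAs (G : As V → ℝ) : ∃ M, Bd M G := by
  classical
  have : Fintype (As V) := Fintype.ofFinite _
  refine ⟨∑ S : As V, |G S|, fun S => ?_⟩
  exact Finset.single_le_sum (f := fun S => |G S|) (fun _ _ => abs_nonneg _) (Finset.mem_univ S)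

/-- Average over the set `U` of models of a geometric number of random unit clauses. -/
noncomputable def EU (q : ℝ) (Φ : As V → ℝ) : ℝ := (AS V).R q Φ Set.univ

theorem R_eq_EU (q : ℝ) (G : As V → ℝ) (S : As V) :
    (AS V).R q G S = EU q (fun U => G (S ∩ U)) := by
  have h := RV_comm (p := Sys.pu) (act := (AS V).iu) (q := q) (G := G) (φ := fun T => S ∩ T)
    (fun a x => by
      show S ∩ x ∩ lit a = S ∩ (x ∩ lit a)
      rw [Set.inter_assoc]) Set.univ
  simp only [Set.inter_univ] at h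
  unfold EU
  rw [Sys.R_eq]
  exact h

theorem vv_eq (q : ℝ) (S : As V) : vv q S = EU q (fun U => una (S ∩ U)) := R_eq_EU q una S

variable [Nonempty V] {q : ℝ}

theorem EU_mono (hq : 0 ≤ q) (hq1 : q < 1) {Φ Ψ : As V → ℝ} (h : ∀ U, Φ U ≤ Ψ U) :
    EU q Φ ≤ EU q Ψ := by
  obtain ⟨M, hM⟩ := bdAs Φ
  obtain ⟨M', hM'⟩ := bdAs Ψ
  exact (AS V).R_mono hq hq1 hM hM' h _

theorem EU_nonneg (hq : 0 ≤ q) (hq1 : q < 1) {Φ : As V → ℝ} (h : ∀ U, 0 ≤ Φ U) : 0 ≤ EU q Φ := by
  obtain ⟨M, hM⟩ := bdAs Φ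
  exact (AS V).R_nonneg hq hq1 hM h _

theorem EU_const (hq : 0 ≤ q) (hq1 : q < 1) (c : ℝ) : EU q (fun _ : As V => c) = c :=
  (AS V).R_const hq hq1 c _

theorem EU_add (hq : 0 ≤ q) (hq1 : q < 1) (Φ Ψ : As V → ℝ) :
    EU q (fun U => Φ U + Ψ U) = EU q Φ + EU q Ψ := by
  obtain ⟨M, hM⟩ := bdAs Φ
  obtain ⟨M', hM'⟩ := bdAs Ψ
  exact (AS V).R_add hq hq1 hM hM' _

theorem EU_sub (hq : 0 ≤ q) (hq1 : q < 1) (Φ Ψ : As V → ℝ) :
    EU q (fun U => Φ U - Ψ U) = EU q Φ - EU q Ψ := by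
  obtain ⟨M, hM⟩ := bdAs Φ
  obtain ⟨M', hM'⟩ := bdAs Ψ
  exact (AS V).R_sub hq hq1 hM hM' _

theorem EU_mul (q c : ℝ) (Φ : As V → ℝ) : EU q (fun U => c * Φ U) = c * EU q Φ := by
  unfold EU
  rw [Sys.R_eq]
  unfold RV
  have h : ∀ k : ℕ, q ^ k * (((PP (X := As V) Sys.pu (AS V).iu)^[k] fun U => c * Φ U) Set.univ) =
      c * (q ^ k * ((PP (X := As V) Sys.pu (AS V).iu)^[k] Φ) Set.univ) := by
    intro k
    rw [iter_mul]
    ring
  rw [tsum_congr h, tsum_mul_left]
  ring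

theorem EU_neg (q : ℝ) (Φ : As V → ℝ) : EU q (fun U => -Φ U) = -EU q Φ := by
  have h := EU_mul q (-1) Φ
  simpa only [neg_one_mul] using h

theorem EU_sum (hq : 0 ≤ q) (hq1 : q < 1) {ι : Type*} (s : Finset ι) (Φ : ι → As V → ℝ) :
    EU q (fun U => ∑ i ∈ s, Φ i U) = ∑ i ∈ s, EU q (Φ i) := by
  classical
  induction s using Finset.induction_on with
  | empty => simpa using EU_const (V := V) hq hq1 0
  | insert i s hi ih =>
    rw [Finset.sum_insert hi, ← ih, ← EU_add hq hq1]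
    congr 1
    funext U
    rw [Finset.sum_insert hi]

/-- THE TABLE LEMMA. -/
theorem vv_table (hq : 0 ≤ q) (hq1 : q < 1) {ι : Type*} (s : Finset ι) (c : ι → ℝ) (S : ι → As V)
    (h : ∀ U : As V, 0 ≤ ∑ i ∈ s, c i * una (S i ∩ U)) : 0 ≤ ∑ i ∈ s, c i * vv q (S i) := by
  have h1 := EU_nonneg hq hq1 h
  rw [EU_sum hq hq1] at h1
  refine h1.trans (le_of_eq (Finset.sum_congr rfl fun i _ => ?_))
  rw [EU_mul, vv_eq]

/-- Two terms. -/
theorem vv_le2 (hq : 0 ≤ q) (hq1 : q < 1) {A B : As V}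
    (h : ∀ U : As V, una (A ∩ U) ≤ una (B ∩ U)) : vv q A ≤ vv q B := by
  rw [vv_eq, vv_eq]
  exact EU_mono hq hq1 h

/-- Four terms. -/
theorem vv_le4 (hq : 0 ≤ q) (hq1 : q < 1) {A B C D : As V}
    (h : ∀ U : As V, una (A ∩ U) - una (B ∩ U) ≤ una (C ∩ U) - una (D ∩ U)) :
    vv q A - vv q B ≤ vv q C - vv q D := by
  rw [vv_eq, vv_eq, vv_eq, vv_eq, ← EU_sub hq hq1, ← EU_sub hq hq1]
  exact EU_mono hq hq1 h

/-- Six terms. -/
theorem vv_le6 (hq : 0 ≤ q) (hq1 : q < 1) {A B C D E F : As V}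
    (h : ∀ U : As V, una (A ∩ U) - una (B ∩ U) ≤
      (una (C ∩ U) - una (D ∩ U)) + (una (E ∩ U) - una (F ∩ U))) :
    vv q A - vv q B ≤ (vv q C - vv q D) + (vv q E - vv q F) := by
  rw [vv_eq, vv_eq, vv_eq, vv_eq, vv_eq q E, vv_eq q F, ← EU_sub hq hq1, ← EU_sub hq hq1,
    ← EU_sub hq hq1, ← EU_add hq hq1]
  exact EU_mono hq hq1 h

/-- Cauchy-Schwarz for `EU`. -/
theorem EU_cs (hq : 0 ≤ q) (hq1 : q < 1) (Φ Ψ : As V → ℝ) :
    EU q (fun U => Φ U * Ψ U) ^ 2 ≤ EU q (fun U => Φ U ^ 2) * EU q (fun U => Ψ U ^ 2) := by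
  set a := EU q (fun U => Φ U ^ 2) with ha
  set b := EU q (fun U => Φ U * Ψ U) with hb
  set c := EU q (fun U => Ψ U ^ 2) with hc
  have ha0 : 0 ≤ a := EU_nonneg hq hq1 fun U => sq_nonneg _
  have hc0 : 0 ≤ c := EU_nonneg hq hq1 fun U => sq_nonneg _
  have key : ∀ t : ℝ, 0 ≤ a * (t * t) + (2 * b) * t + c := by
    intro t
    have h := EU_nonneg hq hq1 (Φ := fun U : As V => (t * Φ U + Ψ U) ^ 2) fun U => sq_nonneg _
    have e : (fun U : As V => (t * Φ U + Ψ U) ^ 2) =
        fun U => (t * t * Φ U ^ 2 + 2 * t * (Φ U * Ψ U)) + Ψ U ^ 2 := by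
      funext U; ring
    rw [e, EU_add hq hq1, EU_add hq hq1, EU_mul, EU_mul, ← ha, ← hb, ← hc] at h
    linarith
  have := discrim_le_zero key
  unfold discrim at this
  nlinarith

end EU

/-! ### Facts for `vv` -/

section vv

variable {V : Type} [Fintype V] [Nonempty V] {q : ℝ}

theorem vv_nonneg (hq : 0 ≤ q) (hq1 : q < 1) (S : As V) : 0 ≤ vv q S := (AS V).v_nonneg hq hq1 S

theorem vv_le_one (hq : 0 ≤ q) (hq1 : q < 1) (S : As V) : vv q S ≤ 1 := (AS V).v_le_one hq hq1 S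

theorem vv_empty (hq : 0 ≤ q) (hq1 : q < 1) : vv q (∅ : As V) = 1 :=
  (AS V).v_of_un hq hq1 una_emp

theorem vv_le_q (hq : 0 < q) (hq1 : q < 1) {S : As V} (h : S ≠ ∅) : vv q S ≤ q :=
  (AS V).v_le_q hq hq1 (una_of_ne h)

/-- `v` is antitone. -/
theorem vv_anti (hq : 0 ≤ q) (hq1 : q < 1) {S T : As V} (h : S ⊆ T) : vv q T ≤ vv q S :=
  vv_le2 hq hq1 fun _ => una_anti (Set.inter_subset_inter_left _ h)

theorem vv_le_inter (hq : 0 ≤ q) (hq1 : q < 1) (S g : As V) : vv q S ≤ vv q (S ∩ g) :=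
  vv_anti hq hq1 Set.inter_subset_left

theorem mk_nonneg (hq : 0 ≤ q) (hq1 : q < 1) (g S : As V) : 0 ≤ mk q g S := by
  unfold mk
  linarith [vv_le_inter hq hq1 S g]

theorem mk_le_one (hq : 0 ≤ q) (hq1 : q < 1) (g S : As V) : mk q g S ≤ 1 := by
  unfold mk
  linarith [vv_nonneg hq hq1 S, vv_le_one hq hq1 (S ∩ g)]

/-- The mark is antitone in the gadget. -/
theorem mk_anti (hq : 0 ≤ q) (hq1 : q < 1) {g g' : As V} (h : g ⊆ g') (S : As V) :
    mk q g' S ≤ mk q g S := by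
  unfold mk
  linarith [vv_anti hq hq1 (Set.inter_subset_inter_right S h)]

theorem mk_univ (S : As V) : mk q Set.univ S = 0 := by
  unfold mk; rw [Set.inter_univ, sub_self]

theorem mk_empty_state (g : As V) : mk q g ∅ = 0 := by
  unfold mk; rw [Set.empty_inter, sub_self]

/-- The mark of a literal. -/
theorem mk_lit (a : Lt V) (S : As V) : mk q (lit a) S = (AS V).dl q a S := rfl

/-- `mk` as an average: the probability that `S ∩ U` is nonempty and `S ∩ g ∩ U` is empty. -/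
theorem mk_eq (hq : 0 ≤ q) (hq1 : q < 1) (g S : As V) :
    mk q g S = EU q (fun U => una (S ∩ g ∩ U) - una (S ∩ U)) := by
  unfold mk
  rw [vv_eq, vv_eq, ← EU_sub hq hq1]

/-- the mark of a disjunction: probability that both gadgets kill -/
theorem mk_union_eq (hq : 0 ≤ q) (hq1 : q < 1) (g g' S : As V) :
    mk q (g ∪ g') S = EU q (fun U => (una (S ∩ g ∩ U) - una (S ∩ U)) *
      (una (S ∩ g' ∩ U) - una (S ∩ U))) := by
  rw [mk_eq hq hq1]
  congr 1
  funext U
  rw [una_or]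
  rcases una01 (S ∩ U) with h | h
  · rw [h]; ring
  · have h1 : una (S ∩ g ∩ U) = 1 := by
      apply una_of_eq
      rw [una_eq_one] at h
      exact Set.subset_eq_empty (Set.inter_subset_inter_left _ Set.inter_subset_left) h
    have h2 : una (S ∩ g' ∩ U) = 1 := by
      apply una_of_eq
      rw [una_eq_one] at h
      exact Set.subset_eq_empty (Set.inter_subset_inter_left _ Set.inter_subset_left) h
    rw [h, h1, h2]; ring

theorem mk_union_le_left (hq : 0 ≤ q) (hq1 : q < 1) (g g' S : As V) :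
    mk q (g ∪ g') S ≤ mk q g S := mk_anti hq hq1 Set.subset_union_left S

theorem mk_union_le_right (hq : 0 ≤ q) (hq1 : q < 1) (g g' S : As V) :
    mk q (g ∪ g') S ≤ mk q g' S := mk_anti hq hq1 Set.subset_union_right S

/-- `t₀² ≤ a b` for the mark `t₀` of the disjunction. -/
theorem mk_union_sq_le (hq : 0 ≤ q) (hq1 : q < 1) (g g' S : As V) :
    mk q (g ∪ g') S ^ 2 ≤ mk q g S * mk q g' S := by
  have h0 := mk_nonneg hq hq1 (g ∪ g') S
  rw [sq]
  exact mul_le_mul (mk_union_le_left hq hq1 g g' S) (mk_union_le_right hq hq1 g g' S) h0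
    (h0.trans (mk_union_le_left hq hq1 g g' S))

/-- The disjunction is Lipschitz in one gadget (for the order). -/
theorem v2_lip (hq : 0 ≤ q) (hq1 : q < 1) {g g' : As V} (h : g ⊆ g') (k S : As V) :
    vv q (S ∩ (g ∪ k)) - vv q (S ∩ (g' ∪ k)) ≤ vv q (S ∩ g) - vv q (S ∩ g') := by
  refine vv_le4 hq hq1 fun U => ?_
  rw [una_or, una_or]
  have h1 : una (S ∩ g' ∩ U) ≤ una (S ∩ g ∩ U) :=
    una_anti (Set.inter_subset_inter_left _ (Set.inter_subset_inter_right _ h))
  have h2 := una_le_one (S ∩ k ∩ U)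
  have h3 := una_nonneg (S ∩ k ∩ U)
  nlinarith

/-- The disjunction is Lipschitz in one gadget, in general. -/
theorem v2_lip_abs (hq : 0 ≤ q) (hq1 : q < 1) (g g' k S : As V) :
    |vv q (S ∩ (g ∪ k)) - vv q (S ∩ (g' ∪ k))| ≤
      (vv q (S ∩ (g ∩ g')) - vv q (S ∩ g)) + (vv q (S ∩ (g ∩ g')) - vv q (S ∩ g')) := by
  have h1 : ∀ U : As V, una (S ∩ g ∩ U) ≤ una (S ∩ (g ∩ g') ∩ U) := fun U => una_anti
    (Set.inter_subset_inter_left _ (Set.inter_subset_inter_right _ Set.inter_subset_left))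
  have h2 : ∀ U : As V, una (S ∩ g' ∩ U) ≤ una (S ∩ (g ∩ g') ∩ U) := fun U => una_anti
    (Set.inter_subset_inter_left _ (Set.inter_subset_inter_right _ Set.inter_subset_right))
  rw [abs_le]
  constructor
  · have h := vv_le6 hq hq1 (A := S ∩ (g' ∪ k)) (B := S ∩ (g ∪ k)) (C := S ∩ (g ∩ g'))
      (D := S ∩ g) (E := S ∩ (g ∩ g')) (F := S ∩ g') fun U => by
        rw [una_or, una_or]
        have h3 := una_le_one (S ∩ k ∩ U)
        have h4 := una_nonneg (S ∩ k ∩ U)
        have h5 := h1 U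
        have h6 := h2 U
        nlinarith
    linarith
  · exact vv_le6 hq hq1 fun U => by
        rw [una_or, una_or]
        have h3 := una_le_one (S ∩ k ∩ U)
        have h4 := una_nonneg (S ∩ k ∩ U)
        have h5 := h1 U
        have h6 := h2 U
        nlinarith

/-- (H2), the inclusion: `v2(F; B, A & y) - v2(F; A, B) ≤ v2(F ∪ A; B, y) - v(F ∪ A)`. -/
theorem v2_killed (hq : 0 ≤ q) (hq1 : q < 1) (A B y S : As V) :
    vv q (S ∩ (B ∪ (A ∩ y))) - vv q (S ∩ (A ∪ B)) ≤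
      vv q (S ∩ A ∩ (B ∪ y)) - vv q (S ∩ A) := by
  refine vv_le4 hq hq1 fun U => ?_
  rw [una_or, una_or, una_or]
  have e1 : una (S ∩ (A ∩ y) ∩ U) = una (S ∩ A ∩ y ∩ U) := by rw [Set.inter_assoc S A y]
  rw [e1]
  have h1 : una (S ∩ B ∩ U) ≤ una (S ∩ A ∩ B ∩ U) :=
    una_anti (by
      intro σ hσ
      simp only [Set.mem_inter_iff] at *
      tauto)
  have h2 : una (S ∩ A ∩ U) ≤ una (S ∩ A ∩ y ∩ U) :=
    una_anti (Set.inter_subset_inter_left _ Set.inter_subset_left)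
  have h3 : una (S ∩ A ∩ U) ≤ una (S ∩ A ∩ B ∩ U) :=
    una_anti (Set.inter_subset_inter_left _ Set.inter_subset_left)
  rcases una01 (S ∩ A ∩ U) with a | a <;> rcases una01 (S ∩ B ∩ U) with b | b <;>
    rcases una01 (S ∩ A ∩ B ∩ U) with c | c <;> rcases una01 (S ∩ A ∩ y ∩ U) with d | d <;>
    rw [a, b, c, d] <;> rw [a, c] at h3 <;> rw [a, d] at h2 <;> rw [b, c] at h1 <;> linarith

/-- (H2), the left side is nonnegative. -/
theorem v2_killed_nonneg (hq : 0 ≤ q) (hq1 : q < 1) (A B y S : As V) :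
    0 ≤ vv q (S ∩ (B ∪ (A ∩ y))) - vv q (S ∩ (A ∪ B)) := by
  have := vv_anti hq hq1 (S := S ∩ (B ∪ (A ∩ y))) (T := S ∩ (A ∪ B)) (by
    intro σ hσ
    simp only [Set.mem_inter_iff, Set.mem_union] at *
    tauto)
  linarith

/-- the same with a second pair of gadgets: `y = A₂ ∪ B₂` seen through both values -/
theorem v2_killed2 (hq : 0 ≤ q) (hq1 : q < 1) (B A₂ B₂ S : As V) :
    vv q (S ∩ (B₂ ∪ (A₂ ∩ B))) - vv q (S ∩ (A₂ ∪ B₂)) ≤
      vv q (S ∩ A₂ ∩ (B ∪ B₂)) - vv q (S ∩ A₂) := by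
  have h := v2_killed hq hq1 A₂ B₂ B S
  rwa [Set.union_comm B₂ B] at h

/-! ### Second differences -/

/-- The second difference `v(S & g & y) - v(S & g) - v(S & y) + v(S)`. -/
noncomputable def sd2 (q : ℝ) (g y S : As V) : ℝ :=
  vv q (S ∩ g ∩ y) - vv q (S ∩ g) - vv q (S ∩ y) + vv q S

theorem sd2_eq_mk (g y S : As V) : sd2 q g y S = mk q y (S ∩ g) - mk q y S := by
  unfold sd2 mk; ring

theorem sd2_comm (g y S : As V) : sd2 q g y S = sd2 q y g S := by
  unfold sd2
  rw [Set.inter_right_comm]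
  ring

/-- `- mark of the disjunction ≤ second difference`. -/
theorem sd2_ge (hq : 0 ≤ q) (hq1 : q < 1) (g y S : As V) : -mk q (g ∪ y) S ≤ sd2 q g y S := by
  have h := vv_le4 hq hq1 (A := S ∩ g) (B := S ∩ (g ∪ y)) (C := S ∩ g ∩ y) (D := S ∩ y)
    fun U => by
      rw [una_or]
      have h1 : una (S ∩ g ∩ U) ≤ una (S ∩ g ∩ y ∩ U) :=
        una_anti (Set.inter_subset_inter_left _ Set.inter_subset_left)
      have h2 : una (S ∩ y ∩ U) ≤ una (S ∩ g ∩ y ∩ U) :=
        una_anti (by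
          intro σ hσ
          simp only [Set.mem_inter_iff] at *
          tauto)
      rcases una01 (S ∩ g ∩ U) with a | a <;> rcases una01 (S ∩ y ∩ U) with b | b <;>
        rcases una01 (S ∩ g ∩ y ∩ U) with c | c <;> rw [a, b, c] <;> rw [a, c] at h1 <;>
        rw [b, c] at h2 <;> linarith
  unfold sd2 mk
  linarith

/-! ### The fraction of killing literals -/

theorem ff_le_ss (hq : 0 < q) (hq1 : q < 1) (S : As V) :
    ff S ≤ (1 + (1 - q) / q) * ss q S := by
  have h1 := (AS V).P1_s hq hq1 S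
  have h2 : 0 ≤ (AS V).P1 ((AS V).s q) S := by
    unfold Sys.P1
    exact div_nonneg (Finset.sum_nonneg fun a _ => (AS V).s_nonneg hq.le hq1 _) (by positivity)
  show (AS V).f S ≤ _
  rw [h1] at h2
  show (AS V).f S ≤ (1 + (1 - q) / q) * (AS V).s q S
  linarith

/-- `f (1 - v) ≤ μ s`. -/
theorem ff_mul_le (hq : 0 < q) (hq1 : q < 1) (S : As V) :
    ff S * (1 - vv q S) ≤ (1 - q) / q * ss q S := by
  have h1 := (AS V).sum_dl hq hq1 S
  have hc := Sys.card_pos' (L := Lt V)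
  have h2 : ∑ a : Lt V, ((AS V).un ((AS V).iu a S) - (AS V).un S) * (1 - vv q S) ≤
      ∑ a : Lt V, (AS V).dl q a S := by
    refine Finset.sum_le_sum fun a _ => ?_
    have h3 := (AS V).dl_nonneg hq.le hq1 a S
    rcases (AS V).un01 ((AS V).iu a S) with h | h
    · have h4 : (AS V).un S = 0 := by
        have := (AS V).mono a S
        have := (AS V).un_nonneg S
        linarith
      rw [h, h4, sub_zero, zero_mul]
      exact h3
    · rw [h]
      unfold Sys.dl
      rw [(AS V).v_of_un hq.le hq1 h]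
      have h5 := (AS V).un_nonneg S
      have h6 := (AS V).v_le_one hq.le hq1 S
      show (1 - (AS V).un S) * (1 - (AS V).v q S) ≤ 1 - (AS V).v q S
      nlinarith
  rw [← Finset.sum_mul, h1] at h2
  show (∑ a : Lt V, ((AS V).un ((AS V).iu a S) - (AS V).un S)) / Fintype.card (Lt V) *
    (1 - (AS V).v q S) ≤ (1 - q) / q * (AS V).s q S
  rw [div_mul_eq_mul_div, div_le_iff₀ hc]
  have h7 : (∑ a : Lt V, ((AS V).un ((AS V).iu a S) - (AS V).un S)) * (1 - vv q S) =
      (∑ a : Lt V, ((AS V).un ((AS V).iu a S) - (AS V).un S)) * (1 - (AS V).v q S) := rfl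
  rw [← h7]
  linarith

theorem ff_nonneg (S : As V) : 0 ≤ ff S := (AS V).f_nonneg S

theorem ff_le_one (S : As V) : ff S ≤ 1 := by
  have hc := Sys.card_pos' (L := Lt V)
  show (∑ a : Lt V, ((AS V).un ((AS V).iu a S) - (AS V).un S)) / Fintype.card (Lt V) ≤ 1
  rw [div_le_one hc]
  calc ∑ a : Lt V, ((AS V).un ((AS V).iu a S) - (AS V).un S) ≤ ∑ _a : Lt V, (1 : ℝ) :=
        Finset.sum_le_sum fun a _ => ((AS V).fr01 a S).2
    _ = Fintype.card (Lt V) := by simp

end vv

end Pool.Agent.Lib.MP_9cae81_PC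
end

section

/-!
# No sudden jumps, pointwise part

`B2.gs`, `B2.gd`: squared increments since the state `M`, surviving and complete; one step of the
gadget process changes them by at most `Γ + (C μ s)² + small × itself`.
-/

set_option autoImplicit false
set_option linter.unusedSectionVars false

open Finset Filter
open scoped BigOperators Topology

namespace Pool.Agent.Lib.MP_9cae81_PC

open Pool.Agent.Lib.MP_9cae81_R

namespace B2

section point

variable {V : Type} [Fintype V] [Nonempty V] {q : ℝ}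

/-- Squared increment of `v` since `M`, on satisfiable states. -/
noncomputable def gs (q : ℝ) (M S : As V) : ℝ := (vv q S - vv q M) ^ 2 * (1 - una S)

/-- Squared increment of `v` since `M`, weighted by `v M`, deaths included. -/
noncomputable def gd (q : ℝ) (M S : As V) : ℝ := vv q M * (vv q S - vv q M) ^ 2

theorem gs_nonneg (q : ℝ) (M S : As V) : 0 ≤ gs q M S :=
  mul_nonneg (sq_nonneg _) (by linarith [una_le_one S])

theorem gd_nonneg (hq : 0 ≤ q) (hq1 : q < 1) (M S : As V) : 0 ≤ gd q M S :=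
  mul_nonneg (vv_nonneg hq hq1 M) (sq_nonneg _)

/-- `2 μ D s ≤ l D² + μ² s² / l`. -/
theorem amgm {μ D s l : ℝ} (hl : 0 < l) : 2 * μ * D * s ≤ l * D ^ 2 + μ ^ 2 * s ^ 2 / l := by
  have h : l * (2 * μ * D * s) ≤ l * (l * D ^ 2 + μ ^ 2 * s ^ 2 / l) := by
    have e : l * (l * D ^ 2 + μ ^ 2 * s ^ 2 / l) = l ^ 2 * D ^ 2 + μ ^ 2 * s ^ 2 := by
      field_simp
    rw [e]
    nlinarith [sq_nonneg (l * D - μ * s)]
  exact le_of_mul_le_mul_left h hl

theorem gs_step (hq : 0 < q) (hq1 : q < 1) {M S : As V} (h : S ⊆ M) {c b c' b' l : ℝ}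
    (hc : 0 ≤ c) (hcc : c ≤ c') (hb : 0 ≤ b) (hbb : b ≤ b') (hl : 0 < l) :
    c * (P1 (gs q M) S - gs q M S) + b * (P2 (gs q M) S - gs q M S) ≤
      (c' + b') * l * gs q M S +
        (c' * (AS V).Gp q S + ((c' + b') / l + b') * (muq q ^ 2 * ss q S ^ 2)) := by
  have hv : vv q M ≤ vv q S := vv_anti hq.le hq1 h
  have h1 : P1 (gs q M) S ≤ gs q M S + (AS V).Gp q S +
      2 * muq q * (vv q S - vv q M) * ss q S := (AS V).step_s1 hq hq1 (vv q M) hv
  have h2 : P2 (gs q M) S ≤ gs q M S + (AS V).Gc q S +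
      2 * muq q * (vv q S - vv q M) * ss q S := (AS V).step_s2 hq hq1 (vv q M) hv
  have h3 : (AS V).Gc q S ≤ (muq q * ss q S) ^ 2 := (AS V).Gc_le hq hq1 S
  have hμ : 0 ≤ muq q := Sys.mu_nonneg hq hq1
  have hs : 0 ≤ ss q S := (AS V).s_nonneg hq.le hq1 S
  have hG : 0 ≤ (AS V).Gp q S := (AS V).Gp_nonneg S
  have hX : 0 ≤ 2 * muq q * (vv q S - vv q M) * ss q S :=
    mul_nonneg (mul_nonneg (by positivity) (by linarith)) hs
  have hA : 2 * muq q * (vv q S - vv q M) * ss q S ≤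
      l * gs q M S + muq q ^ 2 * ss q S ^ 2 / l := by
    rcases una01 S with h0 | h0
    · have := amgm (μ := muq q) (D := vv q S - vv q M) (s := ss q S) hl
      unfold gs
      rw [h0, sub_zero, mul_one]
      exact this
    · have hs0 : ss q S = 0 := (AS V).s_of_un hq.le hq1 h0
      unfold gs
      rw [hs0, h0]
      simp
  set X := 2 * muq q * (vv q S - vv q M) * ss q S with hXdef
  have h4 : c * (P1 (gs q M) S - gs q M S) ≤ c' * ((AS V).Gp q S + X) :=
    (mul_le_mul_of_nonneg_left (by linarith) hc).trans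
      (mul_le_mul_of_nonneg_right hcc (by linarith))
  have h5 : b * (P2 (gs q M) S - gs q M S) ≤ b' * ((muq q * ss q S) ^ 2 + X) :=
    (mul_le_mul_of_nonneg_left (by linarith) hb).trans
      (mul_le_mul_of_nonneg_right hbb (by positivity))
  have h6 : (c' + b') * X ≤ (c' + b') * (l * gs q M S + muq q ^ 2 * ss q S ^ 2 / l) :=
    mul_le_mul_of_nonneg_left hA (by linarith)
  have e : (c' + b') * (l * gs q M S + muq q ^ 2 * ss q S ^ 2 / l) =
      (c' + b') * l * gs q M S + (c' + b') / l * (muq q ^ 2 * ss q S ^ 2) := by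
    field_simp
  rw [e] at h6
  nlinarith

theorem gd_step (hq : 0 < q) (hq1 : q < 1) {M S : As V} (h : S ⊆ M) {c b c' b' l : ℝ}
    (hc : 0 ≤ c) (hcc : c ≤ c') (hb : 0 ≤ b) (hbb : b ≤ b') (hl : 0 < l) :
    c * (P1 (gd q M) S - gd q M S) + b * (P2 (gd q M) S - gd q M S) ≤
      (c' + b') * l * gd q M S +
        (c' * (vv q S * (AS V).Gm q S) +
          ((c' + b') / l + b') * (muq q ^ 2 * ss q S ^ 2)) := by
  have hv : vv q M ≤ vv q S := vv_anti hq.le hq1 h
  have hM0 : 0 ≤ vv q M := vv_nonneg hq.le hq1 M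
  have hM1 : vv q M ≤ 1 := vv_le_one hq.le hq1 M
  have h1 : P1 (fun T => (vv q T - vv q M) ^ 2) S = (vv q S - vv q M) ^ 2 + (AS V).Gm q S +
      2 * muq q * (vv q S - vv q M) * ss q S := (AS V).step_m1 hq hq1 (vv q M) S
  have h2 : P2 (fun T => (vv q T - vv q M) ^ 2) S ≤ (vv q S - vv q M) ^ 2 + (AS V).Gc q S +
      2 * muq q * (vv q S - vv q M) * ss q S := (AS V).step_m2 hq hq1 (vv q M) hv
  have h3 : (AS V).Gc q S ≤ (muq q * ss q S) ^ 2 := (AS V).Gc_le hq hq1 S
  have hμ : 0 ≤ muq q := Sys.mu_nonneg hq hq1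
  have hs : 0 ≤ ss q S := (AS V).s_nonneg hq.le hq1 S
  have hG : 0 ≤ (AS V).Gm q S := (AS V).Gm_nonneg S
  have hX : 0 ≤ 2 * muq q * (vv q S - vv q M) * ss q S :=
    mul_nonneg (mul_nonneg (by positivity) (by linarith)) hs
  have hA : 2 * muq q * (vv q S - vv q M) * ss q S ≤
      l * (vv q S - vv q M) ^ 2 + muq q ^ 2 * ss q S ^ 2 / l := amgm hl
  set X := 2 * muq q * (vv q S - vv q M) * ss q S with hXdef
  set D2 := (vv q S - vv q M) ^ 2 with hD2
  have e1 : P1 (gd q M) S = vv q M * P1 (fun T => (vv q T - vv q M) ^ 2) S := by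
    rw [P1_def, P1_def]
    unfold gd
    rw [← Finset.mul_sum, mul_div_assoc]
  have e2 : P2 (gd q M) S = vv q M * P2 (fun T => (vv q T - vv q M) ^ 2) S := by
    rw [P2_def, P2_def]
    unfold gd
    simp only [← Finset.mul_sum]
    rw [mul_div_assoc]
  have hYn : 0 ≤ muq q ^ 2 * ss q S ^ 2 := by positivity
  have h4 : c * (P1 (gd q M) S - gd q M S) ≤
      c' * (vv q M * (AS V).Gm q S + vv q M * X) := by
    have : P1 (gd q M) S - gd q M S = vv q M * (AS V).Gm q S + vv q M * X := by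
      rw [e1, h1]; unfold gd; rw [← hD2]; ring
    rw [this]
    exact mul_le_mul_of_nonneg_right hcc (by positivity)
  have h5 : b * (P2 (gd q M) S - gd q M S) ≤
      b' * (vv q M * (muq q * ss q S) ^ 2 + vv q M * X) := by
    have : P2 (gd q M) S - gd q M S ≤ vv q M * (muq q * ss q S) ^ 2 + vv q M * X := by
      have := mul_le_mul_of_nonneg_left (h2.trans (add_le_add_left (add_le_add_right h3 _) _)) hM0
      rw [e2]; unfold gd; rw [← hD2]; linarith
    exact (mul_le_mul_of_nonneg_left this hb).trans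
      (mul_le_mul_of_nonneg_right hbb (by positivity))
  have h6 : (c' + b') * (vv q M * X) ≤
      (c' + b') * (l * gd q M S + muq q ^ 2 * ss q S ^ 2 / l) := by
    refine mul_le_mul_of_nonneg_left ?_ (by linarith)
    have h7 := mul_le_mul_of_nonneg_left hA hM0
    have h8 : vv q M * (muq q ^ 2 * ss q S ^ 2 / l) ≤ muq q ^ 2 * ss q S ^ 2 / l :=
      mul_le_of_le_one_left (by positivity) hM1
    unfold gd
    rw [← hD2]
    linarith
  have e : (c' + b') * (l * gd q M S + muq q ^ 2 * ss q S ^ 2 / l) =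
      (c' + b') * l * gd q M S + (c' + b') / l * (muq q ^ 2 * ss q S ^ 2) := by
    field_simp
  rw [e] at h6
  have h9 : vv q M * (AS V).Gm q S ≤ vv q S * (AS V).Gm q S := mul_le_mul_of_nonneg_right hv hG
  have h10 : vv q M * (muq q * ss q S) ^ 2 ≤ muq q ^ 2 * ss q S ^ 2 := by
    rw [mul_pow]
    exact mul_le_of_le_one_left (by positivity) hM1
  have h11 : c' * (vv q M * (AS V).Gm q S) ≤ c' * (vv q S * (AS V).Gm q S) :=
    mul_le_mul_of_nonneg_left h9 (by linarith)
  have h12 : b' * (vv q M * (muq q * ss q S) ^ 2) ≤ b' * (muq q ^ 2 * ss q S ^ 2) :=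
    mul_le_mul_of_nonneg_left h10 (by linarith)
  nlinarith

end point

end B2

end Pool.Agent.Lib.MP_9cae81_PC
end

section

/-!
# Pointwise growth of gadget averages

`GA_growth`: if `c (P1 Φ - Φ) + β (P2 Φ - Φ) ≤ b Φ + a` then `GA τ Φ ≤ e^b (Φ univ + a)` for `τ ≤ 1`.
`Ba_vv`: `GA τ (A ↦ v (M ∩ A)) ≤ exp (b μ) v M`; `Ba_mk`: `GA τ (A ↦ v (M ∩ A) - v M) ≤ 3 μ v M`.
-/

set_option autoImplicit false
set_option linter.unusedSectionVars false

open Finset Filter
open scoped BigOperators Topology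

namespace Pool.Agent.Lib.MP_9cae81_PC

open Pool.Agent.Lib.MP_9cae81_R

section

variable {V : Type} [Fintype V] [DecidableEq V]

theorem Ba_gq_scale (v w τ : ℝ) :
    (gq v w τ : Cl V → ℝ) = gq (τ * v) (τ * w) 1 := by
  unfold gq
  congr 1 <;> ring

theorem Ba_GA_scale (v w τ : ℝ) (Φ : As V → ℝ) :
    GA v w τ Φ = GA (τ * v) (τ * w) 1 Φ := by
  unfold GA
  rw [Ba_gq_scale]

theorem Ba_growth1 {v w : ℝ} (hv : 0 ≤ v) (hw : 0 ≤ w) {Φ : As V → ℝ} {a b : ℝ}
    (hb : 0 ≤ b) (ha : 0 ≤ a)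
    (h : ∀ A, (2 * v + 3 * w) * Fintype.card (Lt V) * (P1 Φ A - Φ A) +
      3 * w * (Fintype.card (Lt V) : ℝ) ^ 2 * (P2 Φ A - Φ A) ≤ b * Φ A + a) :
    GA v w 1 Φ ≤ Real.exp b * (Φ Set.univ + a) := by
  have key := B2.growth (fun τ => B2.GA_hasDerivAt v w Φ τ) (a := a) (b := b) hb ha ?_
  · rw [B2.GA_zero] at key
    exact key
  · intro τ hτ
    rw [← B2.GA_mul, ← B2.GA_mul, ← B2.GA_add, ← B2.GA_mul]
    have e1 : GA v w τ (fun A => b * Φ A) + a = GA v w τ (fun A => b * Φ A + a) := by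
      rw [B2.GA_add, B2.GA_const]
    rw [e1]
    exact B2.GA_mono hv hw hτ.1 h

/-- Pointwise growth of a gadget average. -/
theorem GA_growth {v w : ℝ} (hv : 0 ≤ v) (hw : 0 ≤ w) {Φ : As V → ℝ} {a b : ℝ}
    (hb : 0 ≤ b) (ha : 0 ≤ a) (hΦ : ∀ A, 0 ≤ Φ A)
    (h : ∀ A, (2 * v + 3 * w) * Fintype.card (Lt V) * (P1 Φ A - Φ A) +
      3 * w * (Fintype.card (Lt V) : ℝ) ^ 2 * (P2 Φ A - Φ A) ≤ b * Φ A + a)
    {τ : ℝ} (hτ : 0 ≤ τ) (hτ1 : τ ≤ 1) :
    GA v w τ Φ ≤ Real.exp b * (Φ Set.univ + a) := by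
  rw [Ba_GA_scale]
  refine Ba_growth1 (mul_nonneg hτ hv) (mul_nonneg hτ hw) hb ha fun A => ?_
  have h1 := h A
  have h2 := hΦ A
  have h3 : (2 * (τ * v) + 3 * (τ * w)) * Fintype.card (Lt V) * (P1 Φ A - Φ A) +
      3 * (τ * w) * (Fintype.card (Lt V) : ℝ) ^ 2 * (P2 Φ A - Φ A) =
      τ * ((2 * v + 3 * w) * Fintype.card (Lt V) * (P1 Φ A - Φ A) +
      3 * w * (Fintype.card (Lt V) : ℝ) ^ 2 * (P2 Φ A - Φ A)) := by ring
  rw [h3]
  have h4 := mul_le_mul_of_nonneg_left h1 hτ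
  have h5 : 0 ≤ b * Φ A + a := add_nonneg (mul_nonneg hb h2) ha
  nlinarith

theorem Ba_P1_vv [Nonempty V] {q : ℝ} (hq : 0 < q) (hq1 : q < 1) (S : As V) :
    P1 (vv q) S - vv q S ≤ muq q * vv q S := by
  have h := (AS V).P1_v hq hq1 S
  have h1 := una_nonneg S
  have h2 : 0 ≤ muq q := div_nonneg (by linarith) hq.le
  have h3 : P1 (vv q) S - vv q S = muq q * (vv q S - una S) := by
    unfold muq
    rw [show P1 (vv q) S = vv q S + (1 - q) / q * (vv q S - una S) from h]
    ring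
  rw [h3]
  exact mul_le_mul_of_nonneg_left (by linarith) h2

theorem Ba_P2_vv [Nonempty V] {q : ℝ} (hq : 0 < q) (hq1 : q < 1) (S : As V) :
    P2 (vv q) S - vv q S ≤ muq q * vv q S := by
  have h := (AS V).P2_v_le hq hq1 S
  have h1 : ss q S ≤ vv q S := (AS V).s_le_v S
  have h2 : 0 ≤ muq q := div_nonneg (by linarith) hq.le
  have h3 : P2 (vv q) S - vv q S ≤ muq q * ss q S := by
    unfold muq
    exact sub_le_iff_le_add'.2 h
  exact h3.trans (mul_le_mul_of_nonneg_left h1 h2)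

/-- `GA τ (A ↦ v (M ∩ A)) ≤ exp ((c₂ + β) μ) v M`. -/
theorem Ba_vv [Nonempty V] {q : ℝ} (hq : 0 < q) (hq1 : q < 1) {v w : ℝ} (hv : 0 ≤ v)
    (hw : 0 ≤ w) {b : ℝ}
    (hb : (2 * v + 3 * w) * Fintype.card (Lt V) + 3 * w * (Fintype.card (Lt V) : ℝ) ^ 2 ≤ b)
    (M : As V) {τ : ℝ} (hτ : 0 ≤ τ) (hτ1 : τ ≤ 1) :
    GA v w τ (fun A => vv q (M ∩ A)) ≤ Real.exp (b * muq q) * vv q M := by
  have hmu : 0 ≤ muq q := div_nonneg (by linarith) hq.le
  have hc1 : 0 ≤ (2 * v + 3 * w) * Fintype.card (Lt V) := by positivity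
  have hc2 : 0 ≤ 3 * w * (Fintype.card (Lt V) : ℝ) ^ 2 := by positivity
  have hb0 : 0 ≤ b := by linarith
  have key := GA_growth hv hw (Φ := fun A => vv q (M ∩ A)) (a := 0) (b := b * muq q)
    (mul_nonneg hb0 hmu) le_rfl (fun A => vv_nonneg hq.le hq1 _) ?_ hτ hτ1
  · simpa using key
  · intro A
    rw [B2.P1_inter, B2.P2_inter]
    have h1 := mul_le_mul_of_nonneg_left (Ba_P1_vv hq hq1 (M ∩ A)) hc1
    have h2 := mul_le_mul_of_nonneg_left (Ba_P2_vv hq hq1 (M ∩ A)) hc2
    have h3 : 0 ≤ muq q * vv q (M ∩ A) := mul_nonneg hmu (vv_nonneg hq.le hq1 _)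
    have h4 := mul_le_mul_of_nonneg_right hb h3
    show (2 * v + 3 * w) * Fintype.card (Lt V) * (P1 (vv q) (M ∩ A) - vv q (M ∩ A)) +
      3 * w * (Fintype.card (Lt V) : ℝ) ^ 2 * (P2 (vv q) (M ∩ A) - vv q (M ∩ A)) ≤
      b * muq q * vv q (M ∩ A) + 0
    nlinarith

/-- **(B-a)**: `GA τ (A ↦ v (M ∩ A)) - v M ≤ 3 μ v M` if `c₂ + β ≤ 13/5` and `μ ≤ 1/20`. -/
theorem Ba_mk [Nonempty V] {q : ℝ} (hq : 0 < q) (hq1 : q < 1) (hmu5 : muq q ≤ 1 / 20)
    {v w : ℝ} (hv : 0 ≤ v) (hw : 0 ≤ w)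
    (hb : (2 * v + 3 * w) * Fintype.card (Lt V) + 3 * w * (Fintype.card (Lt V) : ℝ) ^ 2 ≤ 13 / 5)
    (M : As V) {τ : ℝ} (hτ : 0 ≤ τ) (hτ1 : τ ≤ 1) :
    GA v w τ (fun A => vv q (M ∩ A)) - vv q M ≤ 3 * muq q * vv q M := by
  have hmu : 0 ≤ muq q := div_nonneg (by linarith) hq.le
  have h1 := Ba_vv hq hq1 hv hw hb M hτ hτ1
  have h2 : Real.exp (13 / 5 * muq q) ≤ 1 + 3 * muq q := by
    have h3 : 0 ≤ 13 / 5 * muq q := by positivity
    have h4 : 13 / 5 * muq q ≤ 1 / 2 := by linarith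
    have h5 := Real.abs_exp_sub_one_sub_id_le (x := 13 / 5 * muq q) (by rw [abs_of_nonneg h3]; linarith)
    have h6 := (abs_le.1 h5).2
    nlinarith
  have h7 := mul_le_mul_of_nonneg_right h2 (vv_nonneg hq.le hq1 M)
  nlinarith

/-- The same with `mk`. -/
theorem Ba_mk' [Nonempty V] {q : ℝ} (hq : 0 < q) (hq1 : q < 1) (hmu5 : muq q ≤ 1 / 20)
    {v w : ℝ} (hv : 0 ≤ v) (hw : 0 ≤ w)
    (hb : (2 * v + 3 * w) * Fintype.card (Lt V) + 3 * w * (Fintype.card (Lt V) : ℝ) ^ 2 ≤ 13 / 5)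
    (M : As V) {τ : ℝ} (hτ : 0 ≤ τ) (hτ1 : τ ≤ 1) :
    GA v w τ (fun A => mk q A M) ≤ 3 * muq q * vv q M := by
  have h := Ba_mk hq hq1 hmu5 hv hw hb M hτ hτ1
  have h1 : GA v w τ (fun A => mk q A M) = GA v w τ (fun A => vv q (M ∩ A)) - vv q M := by
    unfold mk
    rw [B2.GA_sub, B2.GA_const]
  rw [h1]
  exact h

end

end Pool.Agent.Lib.MP_9cae81_PC
end

section

/-!
# The marks of a state as a structure `PF`

For a state `S` (a set of assignments) `PFS q S` has the marks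
`M g h = (vv (S ∩ (Md g ∪ Md h)) - vv S) / (μ vv S)`, `μ = muq q = (1 - q) / q`.
-/

set_option autoImplicit false
set_option linter.unusedSectionVars false

open Finset
open scoped BigOperators

namespace Pool.Agent.Lib.MP_9cae81_PC

open Pool.Agent.Lib.MP_9cae81_R

/-! ### Models -/

section Md

variable {V : Type}

theorem PFI_Md_empty : Md (∅ : Finset (Cl V)) = Set.univ := by
  ext σ; simp [Md]

theorem PFI_Md_anti {F G : Finset (Cl V)} (h : F ⊆ G) : Md G ⊆ Md F :=
  fun _ hσ c hc => hσ c (h hc)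

theorem PFI_Md_cu (a : Lt V) : Md {cu a} = lit a := by
  ext σ
  simp [Md, cu, clT, lit]

theorem PFI_Md_cp (a b : Lt V) : Md {cp a b} = lit a ∪ lit b := by
  ext σ
  simp [Md, cp, clT, lit]

theorem PFI_Md_insert [DecidableEq V] (c : Cl V) (F : Finset (Cl V)) :
    Md (insert c F) = Md F ∩ Md {c} := by
  ext σ
  simp only [Md, Set.mem_ofPred_eq, Finset.mem_insert, Set.mem_inter_iff, Finset.mem_singleton]
  constructor
  · intro h
    exact ⟨fun d hd => h d (Or.inr hd), fun d hd => h d (Or.inl hd)⟩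
  · rintro ⟨h1, h2⟩ d (hd | hd)
    · exact h2 d hd
    · exact h1 d hd

theorem PFI_Md_union [DecidableEq V] (F G : Finset (Cl V)) : Md (F ∪ G) = Md F ∩ Md G := by
  ext σ
  simp only [Md, Set.mem_ofPred_eq, Finset.mem_union, Set.mem_inter_iff]
  constructor
  · intro h
    exact ⟨fun d hd => h d (Or.inl hd), fun d hd => h d (Or.inr hd)⟩
  · rintro ⟨h1, h2⟩ d (hd | hd)
    · exact h1 d hd
    · exact h2 d hd

end Md

section PFS

variable {V : Type} [Fintype V] [Nonempty V] [DecidableEq V] {q : ℝ}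

theorem muq_pos (hq : 0 < q) (hq1 : q < 1) : 0 < muq q := by
  unfold muq
  exact div_pos (by linarith) hq

/-- `v` is positive. -/
theorem vv_pos (hq : 0 < q) (hq1 : q < 1) (S : As V) : 0 < vv q S := by
  have key : ∀ T : As V, vv q T = 0 → ∀ a : Lt V, vv q (T ∩ lit a) = 0 := by
    intro T hT a
    have h1 := (AS V).sum_dl hq hq1 T
    have h2 : (AS V).s q T = 0 := by
      have h3 := (AS V).s_nonneg hq.le hq1 T
      have h4 := (AS V).s_le_v (q := q) T
      have h5 : (AS V).v q T = 0 := hT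
      linarith
    rw [h2, mul_zero, mul_zero] at h1
    have h3 := (Finset.sum_eq_zero_iff_of_nonneg
      (fun b _ => (AS V).dl_nonneg hq.le hq1 b T)).1 h1 a (Finset.mem_univ a)
    unfold Sys.dl at h3
    have h4 : (AS V).v q T = 0 := hT
    show (AS V).v q ((AS V).iu a T) = 0
    linarith
  refine lt_of_le_of_ne (vv_nonneg hq.le hq1 S) fun h => ?_
  obtain ⟨i⟩ := (inferInstance : Nonempty V)
  have h1 := key _ (key S h.symm (i, true)) (i, false)
  have h2 : S ∩ lit (i, true) ∩ lit (i, false) = ∅ := by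
    ext σ
    simp only [Set.mem_inter_iff, lit, Set.mem_ofPred_eq, Set.mem_empty_iff_false, iff_false]
    rintro ⟨⟨-, h3⟩, h4⟩
    rw [h3] at h4
    exact absurd h4 (by decide)
  rw [h2, vv_empty hq.le hq1] at h1
  exact one_ne_zero h1

/-- The marks of the state `S`. -/
noncomputable def PFS (hq : 0 < q) (hq1 : q < 1) (S : As V) : PF (Lt V) (Cl V) where
  u := cu
  pr := cp
  M g h := (vv q (S ∩ (Md g ∪ Md h)) - vv q S) / (muq q * vv q S)
  u_inj := fun a b h => Sum.inl_injective h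
  symm := fun g h => by rw [Set.union_comm]
  empty := fun g => by
    rw [PFI_Md_empty, Set.univ_union, Set.inter_univ, sub_self, zero_div]
  mono := fun g g' h h' hg hh => by
    refine div_le_div_of_nonneg_right ?_
      (mul_nonneg (muq_pos hq hq1).le (vv_nonneg hq.le hq1 S))
    refine sub_le_sub_right (vv_anti hq.le hq1 (Set.inter_subset_inter_right S ?_)) _
    exact Set.union_subset_union (PFI_Md_anti hg) (PFI_Md_anti hh)
  diag := fun g h => by
    refine div_le_div_of_nonneg_right ?_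
      (mul_nonneg (muq_pos hq hq1).le (vv_nonneg hq.le hq1 S))
    refine sub_le_sub_right (vv_anti hq.le hq1 (Set.inter_subset_inter_right S ?_)) _
    rw [Set.union_self]
    exact Set.subset_union_left
  lip := fun g g' h h' hg hh => by
    rw [← sub_div, ← sub_div, ← sub_div, ← add_div]
    refine div_le_div_of_nonneg_right ?_
      (mul_nonneg (muq_pos hq hq1).le (vv_nonneg hq.le hq1 S))
    have h1 := v2_lip hq.le hq1 (PFI_Md_anti hg) (Md h') S
    have h2 := v2_lip hq.le hq1 (PFI_Md_anti hh) (Md g) S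
    rw [Set.union_comm (Md h') (Md g), Set.union_comm (Md h) (Md g)] at h2
    simp only [Set.union_self]
    linarith
  pair := fun l l' => by
    rw [Set.union_self, PFI_Md_cp, PFI_Md_cu, PFI_Md_cu]

variable (hq : 0 < q) (hq1 : q < 1) (S : As V)

include hq hq1 in
theorem PFS_W_pos : 0 < muq q * vv q S := mul_pos (muq_pos hq hq1) (vv_pos hq hq1 S)

theorem PFS_u (a : Lt V) : (PFS hq hq1 S).u a = cu a := rfl

theorem PFS_pr (a b : Lt V) : (PFS hq hq1 S).pr a b = cp a b := rfl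

theorem PFS_M (g h : Finset (Cl V)) :
    (PFS hq hq1 S).M g h = mk q (Md g ∪ Md h) S / (muq q * vv q S) := rfl

theorem PFS_D (g : Finset (Cl V)) :
    (PFS hq hq1 S).D g = mk q (Md g) S / (muq q * vv q S) := by
  unfold PF.D
  rw [PFS_M, Set.union_self]

theorem PFS_d (a : Lt V) : (PFS hq hq1 S).d a = (AS V).dl q a S / (muq q * vv q S) := by
  unfold PF.d
  rw [PFS_M, Set.union_self, PFS_u, PFI_Md_cu, mk_lit]

theorem PFS_d' (a : Lt V) : (PFS hq hq1 S).d a = mk q (lit a) S / (muq q * vv q S) := by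
  rw [PFS_d, mk_lit]

theorem PFS_r (a b : Lt V) :
    (PFS hq hq1 S).r a b = mk q (lit a ∪ lit b) S / (muq q * vv q S) := by
  unfold PF.r
  rw [PFS_M, PFS_u, PFS_u, PFI_Md_cu, PFI_Md_cu]

theorem PFS_dx (g h : Finset (Cl V)) : (PFS hq hq1 S).dx g h =
    (vv q (S ∩ Md h) - vv q (S ∩ (Md g ∪ Md h))) / (muq q * vv q S) := by
  unfold PF.dx
  rw [PFS_M, PFS_M, Set.union_self, ← sub_div]
  unfold mk
  congr 1
  ring

theorem PFS_rx (g h : Finset (Cl V)) (a : Lt V) : (PFS hq hq1 S).rx g h a =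
    (vv q (S ∩ (Md h ∪ (Md g ∩ lit a))) - vv q (S ∩ (Md g ∪ Md h))) / (muq q * vv q S) := by
  unfold PF.rx
  rw [PFS_M, PFS_M, PFS_u, PFI_Md_insert, PFI_Md_cu, ← sub_div]
  unfold mk
  congr 1
  ring

theorem PFS_e (g : Finset (Cl V)) (p : Cl V) :
    (PFS hq hq1 S).e g p = |sd2 q (Md g) (Md {p}) S| / (muq q * vv q S) := by
  unfold PF.e
  rw [PFS_M, PFS_M, PFS_M, Set.union_self, Set.union_self, Set.union_self, PFI_Md_insert,
    ← sub_div, ← sub_div, abs_div, abs_of_pos (PFS_W_pos hq hq1 S)]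
  congr 2
  unfold mk sd2
  rw [Set.inter_assoc]
  ring

/-! ### First facts -/

theorem PFS_d_nonneg (a : Lt V) : 0 ≤ (PFS hq hq1 S).d a := by
  rw [PFS_d]
  exact div_nonneg ((AS V).dl_nonneg hq.le hq1 a S) (PFS_W_pos hq hq1 S).le

theorem PFS_M_nonneg (g h : Finset (Cl V)) : 0 ≤ (PFS hq hq1 S).M g h := by
  rw [PFS_M]
  exact div_nonneg (mk_nonneg hq.le hq1 _ S) (PFS_W_pos hq hq1 S).le

theorem PFS_D_nonneg (g : Finset (Cl V)) : 0 ≤ (PFS hq hq1 S).D g := by
  rw [PFS_D]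
  exact div_nonneg (mk_nonneg hq.le hq1 _ S) (PFS_W_pos hq hq1 S).le

theorem PFS_dx_nonneg (g h : Finset (Cl V)) : 0 ≤ (PFS hq hq1 S).dx g h := by
  rw [PFS_dx]
  refine div_nonneg ?_ (PFS_W_pos hq hq1 S).le
  linarith [vv_anti hq.le hq1 (Set.inter_subset_inter_right S
    (Set.subset_union_right : Md h ⊆ Md g ∪ Md h))]

theorem PFS_rx_nonneg (g h : Finset (Cl V)) (a : Lt V) : 0 ≤ (PFS hq hq1 S).rx g h a := by
  rw [PFS_rx]
  exact div_nonneg (v2_killed_nonneg hq.le hq1 _ _ _ S) (PFS_W_pos hq hq1 S).le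

/-- Every mark is at most `(1 - v) / (μ v)`. -/
theorem PFS_M_le (g h : Finset (Cl V)) :
    (PFS hq hq1 S).M g h ≤ (1 - vv q S) / (muq q * vv q S) := by
  rw [PFS_M]
  refine div_le_div_of_nonneg_right ?_ (PFS_W_pos hq hq1 S).le
  unfold mk
  linarith [vv_le_one hq.le hq1 (S ∩ (Md g ∪ Md h))]

/-- The mean mark of a literal is `1` for a nonempty state. -/
theorem PFS_Av_d (hS : S ≠ ∅) : Av (PFS hq hq1 S).d = 1 := by
  have h1 := (AS V).sum_dl hq hq1 S
  have hc := Sys.card_pos' (L := Lt V)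
  have hW := PFS_W_pos hq hq1 S
  have h2 : (AS V).s q S = vv q S := (AS V).s_of_sat (una_of_ne hS)
  unfold Av
  rw [Finset.sum_congr rfl fun a _ => PFS_d hq hq1 S a, ← Finset.sum_div, h1, h2, div_div]
  have h3 : (Fintype.card (Lt V) : ℝ) * ((1 - q) / q * vv q S) =
      muq q * vv q S * (Fintype.card (Lt V) : ℝ) := by
    unfold muq; ring
  rw [h3]
  exact div_self (mul_ne_zero hW.ne' hc.ne')

/-- The marks of the empty state vanish. -/
theorem PFS_empty_M (g h : Finset (Cl V)) : (PFS hq hq1 (∅ : As V)).M g h = 0 := by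
  rw [PFS_M, mk_empty_state, zero_div]

theorem PFS_Av_d_le : Av (PFS hq hq1 S).d ≤ 1 := by
  by_cases hS : S = ∅
  · subst hS
    unfold Av PF.d
    simp only [PFS_empty_M, Finset.sum_const_zero, zero_div]
    norm_num
  · exact (PFS_Av_d hq hq1 S hS).le

/-- The mean square of the marks. -/
theorem PFS_Av_dsq : Av (fun a => (PFS hq hq1 S).d a ^ 2) =
    (AS V).Gm q S / (muq q * vv q S) ^ 2 := by
  unfold Av Sys.Gm
  have h : ∀ a : Lt V, (PFS hq hq1 S).d a ^ 2 =
      (AS V).dl q a S ^ 2 / (muq q * vv q S) ^ 2 := fun a => by rw [PFS_d hq hq1 S a, div_pow]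
  rw [Finset.sum_congr rfl fun a _ => h a, ← Finset.sum_div, div_div, div_div, mul_comm]

/-! ### The law of a gadget -/

theorem PFS_gad {v w τ : ℝ} (hv : 0 ≤ v) (hw : 0 ≤ w) (hτ : 0 ≤ τ) :
    Gad (PFS hq hq1 S) (gq v w τ) (τ * (2 * v + 3 * w) * (Fintype.card (Lt V) : ℝ))
      (τ * (3 * w) * (Fintype.card (Lt V) : ℝ) ^ 2) (τ * (2 * v + 3 * w)) where
  nonneg := fun p => qq_nonneg (by positivity) (by positivity) le_rfl p
  law := fun f => by
    have hc := Sys.card_pos' (L := Lt V)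
    have h1 : ∑ p : Cl V, gq v w τ p * f p =
        τ * (2 * v + 3 * w) * (∑ a : Lt V, f (cu a)) +
        τ * (3 * w) * (∑ a : Lt V, ∑ b : Lt V, f (cp a b)) := by
      rw [Fintype.sum_sum_type, Fintype.sum_sum_type]
      have e1 : ∑ a : Lt V, gq v w τ (Sum.inl a) * f (Sum.inl a) =
          τ * (2 * v + 3 * w) * ∑ a : Lt V, f (cu a) := by
        rw [Finset.mul_sum]; rfl
      have e2 : ∑ p : Lt V × Lt V, gq v w τ (Sum.inr (Sum.inl p)) * f (Sum.inr (Sum.inl p)) =
          τ * (3 * w) * ∑ a : Lt V, ∑ b : Lt V, f (cp a b) := by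
        rw [← Fintype.sum_prod_type', Finset.mul_sum]
        rfl
      have e3 : ∑ t : Lt V × Lt V × Lt V, gq v w τ (Sum.inr (Sum.inr t)) *
          f (Sum.inr (Sum.inr t)) = 0 := by
        refine Finset.sum_eq_zero fun t _ => ?_
        show (0 : ℝ) * _ = 0
        rw [zero_mul]
      rw [e1, e2, e3, add_zero]
    rw [h1]
    unfold Av
    have h2 : ∑ a : Lt V, (∑ b : Lt V, f ((PFS hq hq1 S).pr a b)) / (Fintype.card (Lt V) : ℝ) =
        (∑ a : Lt V, ∑ b : Lt V, f (cp a b)) / (Fintype.card (Lt V) : ℝ) := by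
      rw [← Finset.sum_div]; rfl
    have h3 : ∑ a : Lt V, f ((PFS hq hq1 S).u a) = ∑ a : Lt V, f (cu a) := rfl
    rw [h2, h3]
    field_simp
  qu := fun l => by
    have hc := Sys.card_pos' (L := Lt V)
    show τ * (2 * v + 3 * w) = _
    field_simp
  small := fun p => by
    rcases p with p | p | p
    · exact le_rfl
    · show τ * (3 * w) ≤ τ * (2 * v + 3 * w)
      exact mul_le_mul_of_nonneg_left (by linarith) hτ
    · show (0 : ℝ) ≤ τ * (2 * v + 3 * w)
      positivity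

end PFS

end Pool.Agent.Lib.MP_9cae81_PC
end

section

/-!
# The interface between the probabilistic part (blocks A, B, C) and the pure part (block D)

`v = Iv N x`, `w = Iw N y` are the intensities of the pairs and triples; a gadget of the state has
the law `gq v w 1`.  The weight of a state is `ss q S ^ 3` (`v³` on nonempty states, `0` on `∅`).
All functionals are given on `n + 1` variables and extended by `0` to `n = 0` (`n ≥ 1` in the window
of `Br` for large `N`).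
-/

set_option autoImplicit false

open Finset Filter
open scoped BigOperators Topology

namespace Pool.Agent.Lib.MP_9cae81_PC

open Pool.Agent.Lib.MP_9cae81_R

/-- Functionals given on `n + 1` variables, extended by `0`. -/
def Fs (Φ : (n : ℕ) → As (Fin (n + 1)) → ℝ) : (n : ℕ) → As (Fin n) → ℝ
  | 0, _ => 0
  | n + 1, S => Φ n S

section

variable {q : ℝ} (hq : 0 < q) (hq1 : q < 1)

/-- (H1): `ω (Av d^s - E dx^s)`. -/
noncomputable def H1f (s v w : ℝ) : (n : ℕ) → As (Fin n) → ℝ := Fs fun _ S =>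
  ss q S ^ 3 * ((PFS hq hq1 S).S1 s -
    E2 (gq v w 1) (fun a b => ((PFS hq hq1 S).dx a b) ^ s))

/-- (H2): `ω (Av Av r^s - E M(A,B)^s)`. -/
noncomputable def H2f (s v w : ℝ) : (n : ℕ) → As (Fin n) → ℝ := Fs fun _ S =>
  ss q S ^ 3 * ((PFS hq hq1 S).Rs s -
    E2 (gq v w 1) (fun a b => ((PFS hq hq1 S).M a b) ^ s))

/-- (H3), at scale `t`: the bump seen by the new variable minus the bump of the old literals, with
the weight `1 / (3 δ + 15000 h)`. -/
noncomputable def H3f (δ t v w : ℝ) : (n : ℕ) → As (Fin n) → ℝ := Fs fun _ S =>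
  ss q S ^ 3 * (((PFS hq hq1 S).Nt (gq v w 1) t - (PFS hq hq1 S).Gt t) /
    (3 * δ + 15000 * (PFS hq hq1 S).hh t))

/-- (H4): the additivity defects. -/
noncomputable def H4f (s v w : ℝ) : (n : ℕ) → As (Fin n) → ℝ := Fs fun _ S =>
  ss q S ^ 3 * (PFS hq hq1 S).Er (gq v w 1) s

/-- (H5): the second moment. -/
noncomputable def H5f : (n : ℕ) → As (Fin n) → ℝ := Fs fun _ S =>
  ss q S ^ 3 * Av (fun a => ((PFS hq hq1 S).d a) ^ 2)

/-- The hypotheses (H1)-(H5) at one `N`: `T` is a finite set of scales, `err` the common bound for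
the errors, `C` the second moment, `c` the lower bound for the mass of `v³`. -/
structure Hyp (N : ℕ) (x y s δ : ℝ) (T : Finset ℝ) (err C c : ℝ) : Prop where
  hm : 0 < mm q N x y
  h1 : Br N x y (H1f hq hq1 s (Iv N x) (Iw N y)) ≤ err * mm q N x y
  h2 : Br N x y (H2f hq hq1 s (Iv N x) (Iw N y)) ≤ err * mm q N x y
  h3 : ∀ t ∈ T, Br N x y (H3f hq hq1 δ t (Iv N x) (Iw N y)) ≤ err * mm q N x y
  h4 : Br N x y (H4f hq hq1 s (Iv N x) (Iw N y)) ≤ err * mm q N x y
  h5 : Br N x y (H5f hq hq1) ≤ C * mm q N x y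
  h6 : c * mm q N x y ≤ Br N x y (fun _ S => ss q S ^ 3)

end

/-- What block C proves.  `x = 1 - 2 δ`, `s = 1 - η`, `y k ≤ Y ≤ 1`; `C` and `c` may depend on `δ`
(and on nothing else), `q0` on everything but `q` and the sequence. -/
def BlockC : Prop := ∀ s : ℝ, 3 / 4 ≤ s → s < 1 → ∀ δ : ℝ, 0 < δ → δ ≤ 1 / 20 →
  ∃ C c : ℝ, 0 < C ∧ 0 < c ∧ ∀ T : Finset ℝ, (∀ t ∈ T, 0 < t) → ∀ err : ℝ, 0 < err →
    ∃ q0 : ℝ, q0 < 1 ∧ ∀ (q : ℝ) (hq : 0 < q) (hq1 : q < 1), q0 ≤ q →
      ∀ Y : ℝ, Y ≤ 1 → ∀ D : Cen (1 - 2 * δ) Y, ∀ᶠ k in atTop,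
        Hyp hq hq1 (D.N k) (1 - 2 * δ) (D.y k) s δ T err C c

end Pool.Agent.Lib.MP_9cae81_PC
end

section

/-! EE tools: weights. -/

open Finset
open scoped BigOperators

namespace Pool.Agent.Lib.MP_9cae81_PC

open Pool.Agent.Lib.MP_9cae81_R

variable {ι : Type} [Fintype ι] [DecidableEq ι]

/-- Closed form of the weights. -/
theorem P1a_wt (q : ι → ℝ) (F : Finset ι) :
    wt q F = (∏ c ∈ F, (Real.exp (q c) - 1)) * Real.exp (-∑ c, q c) := by
  have h1 : Real.exp (-∑ c, q c) = ∏ c, Real.exp (-(q c)) := by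
    rw [← Real.exp_sum, Finset.sum_neg_distrib]
  have h2 : (∏ c ∈ F, (Real.exp (q c) - 1)) = ∏ c, if c ∈ F then Real.exp (q c) - 1 else 1 := by
    rw [Finset.prod_ite_mem, Finset.univ_inter]
  rw [h1, h2, ← Finset.prod_mul_distrib]
  unfold wt
  refine Finset.prod_congr rfl fun c _ => ?_
  by_cases hc : c ∈ F
  · simp only [hc, if_true]
    have h3 : Real.exp (q c) * Real.exp (-(q c)) = 1 := by
      rw [← Real.exp_add]; simp
    linear_combination -h3
  · simp only [hc, if_false]; ring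

/-- Comparison of weights for smaller intensities: each factor of `wt q' F` is at most
`exp (q c - q' c)` times the factor of `wt q F` (for `c ∈ F`: `1 - exp(-q' c) ≤ 1 - exp(-q c)`; for
`c ∉ F`: equality). -/
theorem wt_le (q q' : ι → ℝ) (h0 : ∀ c, 0 ≤ q' c) (h : ∀ c, q' c ≤ q c) (F : Finset ι) :
    wt q' F ≤ Real.exp (∑ c, q c) * wt q F := by
  unfold wt
  rw [Real.exp_sum, ← Finset.prod_mul_distrib]
  refine Finset.prod_le_prod (fun c _ => ?_) (fun c _ => ?_)
  · have h1 := h0 c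
    split_ifs
    · have : Real.exp (-(q' c)) ≤ 1 := Real.exp_le_one_iff.2 (by linarith)
      linarith
    · positivity
  · have h1 := h0 c
    have h2 := h c
    have h3 : Real.exp (q c) * Real.exp (-(q c)) = 1 := by
      rw [← Real.exp_add]; simp
    split_ifs
    · have h4 : Real.exp (-(q c)) ≤ Real.exp (-(q' c)) := Real.exp_le_exp.2 (by linarith)
      have h5 : 1 ≤ Real.exp (q c) := Real.one_le_exp (by linarith)
      have h6 : Real.exp (-(q c)) ≤ 1 := Real.exp_le_one_iff.2 (by linarith)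
      nlinarith
    · rw [h3]
      exact Real.exp_le_one_iff.2 (by linarith)

theorem EE_le_exp (q q' : ι → ℝ) (h0 : ∀ c, 0 ≤ q' c) (h : ∀ c, q' c ≤ q c) (g : Finset ι → ℝ)
    (hg : ∀ F, 0 ≤ g F) : EE q' g ≤ Real.exp (∑ c, q c) * EE q g := by
  unfold EE
  rw [Finset.mul_sum]
  refine Finset.sum_le_sum fun F _ => ?_
  have := mul_le_mul_of_nonneg_right (wt_le q q' h0 h F) (hg F)
  linarith

/-- `E ∑_{c ∈ F} f c ≤ ∑ q c f c`: `E 1(c ∈ F) = 1 - exp(-q c) ≤ q c` (`EE_mem`). -/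
theorem EE_sum_le (q : ι → ℝ) (h0 : ∀ c, 0 ≤ q c) (f : ι → ℝ) (hf : ∀ c, 0 ≤ f c) :
    EE q (fun F => ∑ c ∈ F, f c) ≤ ∑ c, q c * f c := by
  have h1 : (fun F : Finset ι => ∑ c ∈ F, f c) = fun F => ∑ c, if c ∈ F then f c else 0 := by
    funext F
    rw [Finset.sum_ite_mem, Finset.univ_inter]
  rw [h1, EE_sum]
  refine Finset.sum_le_sum fun c _ => ?_
  rw [EE_mem q c (fun _ => f c), EE_const]
  refine mul_le_mul_of_nonneg_right ?_ (hf c)
  have := Real.add_one_le_exp (-(q c))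
  linarith

/-- Weight of a singleton: `(1 - exp(-q c)) ∏_{others} exp(-q) ≥ q c (1 - q c) exp(-∑ q)`.
(`1 - exp(-x) ≥ x exp(-x) ≥ x (1 - x)`.) -/
theorem wt_singleton (q : ι → ℝ) (h0 : ∀ c, 0 ≤ q c) (c : ι) :
    q c * (1 - q c) * Real.exp (-∑ c, q c) ≤ wt q {c} := by
  rw [P1a_wt, Finset.prod_singleton]
  refine mul_le_mul_of_nonneg_right ?_ (Real.exp_pos _).le
  have h1 := Real.add_one_le_exp (q c)
  have h2 := h0 c
  nlinarith [mul_nonneg h2 h2]

/-- Weight of a pair `{c, c'}`, `c ≠ c'`. -/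
theorem wt_pair (q : ι → ℝ) (h0 : ∀ c, 0 ≤ q c) (h1 : ∀ c, q c ≤ 1) (c c' : ι) (hc : c ≠ c') :
    q c * (1 - q c) * (q c' * (1 - q c')) * Real.exp (-∑ c, q c) ≤ wt q {c, c'} := by
  rw [P1a_wt, Finset.prod_pair hc]
  refine mul_le_mul_of_nonneg_right ?_ (Real.exp_pos _).le
  have hq1 := h1
  have h1 := Real.add_one_le_exp (q c)
  have h2 := h0 c
  have h3 := Real.add_one_le_exp (q c')
  have h4 := h0 c'
  have h5 : q c * (1 - q c) ≤ Real.exp (q c) - 1 := by nlinarith [mul_nonneg h2 h2]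
  have h6 : q c' * (1 - q c') ≤ Real.exp (q c') - 1 := by nlinarith [mul_nonneg h4 h4]
  have h7 : 0 ≤ q c' * (1 - q c') := mul_nonneg h4 (by have := hq1 c'; linarith)
  exact mul_le_mul h5 h6 h7 (by linarith)

end Pool.Agent.Lib.MP_9cae81_PC
end

section

/-! EE tools: subadditive functionals. -/

open Finset
open scoped BigOperators

namespace Pool.Agent.Lib.MP_9cae81_PC

open Pool.Agent.Lib.MP_9cae81_R

variable {ι : Type} [Fintype ι] [DecidableEq ι]

/-- No intensity: only the empty set. -/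
theorem P1b_zero (f : Finset ι → ℝ) : EE (fun _ : ι => (0 : ℝ)) f = f ∅ := by
  unfold EE
  rw [Finset.sum_eq_single ∅]
  · simp [wt]
  · intro F _ hF
    obtain ⟨c, hc⟩ := Finset.nonempty_iff_ne_empty.2 hF
    have : wt (fun _ : ι => (0 : ℝ)) F = 0 := by
      unfold wt
      exact Finset.prod_eq_zero (Finset.mem_univ c) (by simp [hc])
    rw [this, zero_mul]
  · intro h
    exact absurd (Finset.mem_univ _) h

/-- SUBADDITIVE FUNCTIONALS.  Let `f ∅ = 0` and `f (insert p g) ≤ f g + a p + ε g p` for `p ∉ g`,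
with `ε ≥ 0`.  For intensities `q' ≤ q`:
`EE q' f ≤ ∑ q' p a p + exp(∑ q) ∑ q p EE q (ε · p)`.
Proof.  `F(τ) = EE (τ q') f`, `F(0) = f ∅ = 0`.  By `EE_hasDerivAt` (direction `q'`),
`F'(τ) = ∑ q' p EE (τ q') (f (insert p g) - f g)`, and `f (insert p g) - f g ≤ a p + ε g p` (it is
`0 ≤ a p + ε g p` if `p ∈ g`, since `a p ≥ 0`).  So `F'(τ) ≤ ∑ q' p a p + ∑ q' p EE (τ q') (ε · p)`
and `EE (τ q') (ε · p) ≤ exp(∑ q) EE q (ε · p)` by `EE_le_exp` (`τ q' ≤ q` for `0 ≤ τ ≤ 1`).  Mean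
value theorem on `[0,1]`. -/
theorem EE_subadd (q q' : ι → ℝ) (h0 : ∀ c, 0 ≤ q' c) (h : ∀ c, q' c ≤ q c) (f : Finset ι → ℝ)
    (a : ι → ℝ) (ε : Finset ι → ι → ℝ) (ha : ∀ p, 0 ≤ a p) (hε : ∀ g p, 0 ≤ ε g p) (hf0 : f ∅ = 0)
    (hf : ∀ g p, p ∉ g → f (insert p g) ≤ f g + a p + ε g p) :
    EE q' f ≤ ∑ p, q' p * a p + Real.exp (∑ c, q c) * ∑ p, q p * EE q (fun g => ε g p) := by
  have hq : ∀ c, 0 ≤ q c := fun c => (h0 c).trans (h c)
  have hder : ∀ t : ℝ, HasDerivAt (fun t => EE (fun c => (0 : ℝ) + t * q' c) f)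
      (∑ c, q' c * EE (fun c => (0 : ℝ) + t * q' c) (fun F => f (insert c F) - f F)) t :=
    fun t => EE_hasDerivAt (fun _ => 0) q' f t
  obtain ⟨t, ht, hslope⟩ := exists_hasDerivAt_eq_slope
    (fun t => EE (fun c => (0 : ℝ) + t * q' c) f)
    (fun t => ∑ c, q' c * EE (fun c => (0 : ℝ) + t * q' c) (fun F => f (insert c F) - f F))
    (zero_lt_one' ℝ) (fun x _ => (hder x).continuousAt.continuousWithinAt) (fun x _ => hder x)
  have h1 : EE (fun c => (0 : ℝ) + 1 * q' c) f = EE q' f := by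
    congr 1
    funext c
    ring
  have h2 : EE (fun c => (0 : ℝ) + 0 * q' c) f = 0 := by
    have : (fun c => (0 : ℝ) + 0 * q' c) = fun _ : ι => (0 : ℝ) := by
      funext c
      ring
    rw [this, P1b_zero, hf0]
  simp only [h1, h2, sub_zero, div_one] at hslope
  rw [← hslope]
  have ht0 : 0 ≤ t := ht.1.le
  have hq't : ∀ c, 0 ≤ (0 : ℝ) + t * q' c := fun c => by
    have := mul_nonneg ht0 (h0 c)
    linarith
  have hq'tq : ∀ c, (0 : ℝ) + t * q' c ≤ q c := fun c => by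
    have h3 : t * q' c ≤ 1 * q' c := mul_le_mul_of_nonneg_right ht.2.le (h0 c)
    have := h c
    linarith
  have hc : ∀ c, EE (fun c => (0 : ℝ) + t * q' c) (fun F => f (insert c F) - f F) ≤
      a c + Real.exp (∑ c, q c) * EE q (fun g => ε g c) := by
    intro c
    calc EE (fun c => (0 : ℝ) + t * q' c) (fun F => f (insert c F) - f F)
        ≤ EE (fun c => (0 : ℝ) + t * q' c) (fun F => a c + ε F c) := by
          refine EE_mono hq't fun F => ?_
          by_cases hcF : c ∈ F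
          · rw [Finset.insert_eq_of_mem hcF]
            have := ha c
            have := hε F c
            linarith
          · have := hf F c hcF
            linarith
      _ = a c + EE (fun c => (0 : ℝ) + t * q' c) (fun F => ε F c) := by
          rw [EE_add, EE_const]
      _ ≤ a c + Real.exp (∑ c, q c) * EE q (fun g => ε g c) := by
          have := EE_le_exp q (fun c => (0 : ℝ) + t * q' c) hq't hq'tq (fun g => ε g c)
            (fun F => hε F c)
          linarith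
  have hnn : ∀ c, 0 ≤ EE q (fun g => ε g c) := fun c => EE_nonneg hq fun F => hε F c
  calc ∑ c, q' c * EE (fun c => (0 : ℝ) + t * q' c) (fun F => f (insert c F) - f F)
      ≤ ∑ c, q' c * (a c + Real.exp (∑ c, q c) * EE q (fun g => ε g c)) :=
        Finset.sum_le_sum fun c _ => mul_le_mul_of_nonneg_left (hc c) (h0 c)
    _ = ∑ c, q' c * a c + Real.exp (∑ c, q c) * ∑ c, q' c * EE q (fun g => ε g c) := by
        rw [Finset.mul_sum, ← Finset.sum_add_distrib]
        exact Finset.sum_congr rfl fun c _ => by ring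
    _ ≤ ∑ c, q' c * a c + Real.exp (∑ c, q c) * ∑ c, q c * EE q (fun g => ε g c) := by
        have : ∑ c, q' c * EE q (fun g => ε g c) ≤ ∑ c, q c * EE q (fun g => ε g c) :=
          Finset.sum_le_sum fun c _ => mul_le_mul_of_nonneg_right (h c) (hnn c)
        have := mul_le_mul_of_nonneg_left this (Real.exp_pos (∑ c, q c)).le
        linarith

end Pool.Agent.Lib.MP_9cae81_PC
end

section

/-! EE tools: lower bound by small sets. -/

open Finset
open scoped BigOperators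

namespace Pool.Agent.Lib.MP_9cae81_PC

open Pool.Agent.Lib.MP_9cae81_R

variable {ι : Type} [Fintype ι] [DecidableEq ι]

/-- Half of the sum over ordered pairs is at most the sum over the sets with two elements. -/
private theorem P1c_pairs (φ : Finset ι → ℝ) (hφ : ∀ F, 0 ≤ φ F) :
    (1 / 2) * ∑ c, ∑ c', (if c = c' then 0 else φ {c, c'}) ≤
      ∑ F ∈ powersetCard 2 (univ : Finset ι), φ F := by
  have h1 : (∑ c, ∑ c', (if c = c' then 0 else φ {c, c'})) =
      ∑ p ∈ (univ : Finset ι).offDiag, φ {p.1, p.2} := by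
    rw [← Finset.sum_product' (s := univ) (t := univ)
      (f := fun c c' => if c = c' then 0 else φ {c, c'})]
    rw [← Finset.sum_filter_add_sum_filter_not (univ ×ˢ univ)
      (fun p : ι × ι => p.1 = p.2)]
    have h2 : ∑ p ∈ (univ ×ˢ univ : Finset (ι × ι)) with p.1 = p.2,
        (if p.1 = p.2 then (0 : ℝ) else φ {p.1, p.2}) = 0 :=
      Finset.sum_eq_zero fun p hp => by rw [if_pos (Finset.mem_filter.1 hp).2]
    rw [h2, zero_add]
    have h3 : (univ : Finset ι).offDiag =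
        (univ ×ˢ univ : Finset (ι × ι)).filter (fun p => ¬ p.1 = p.2) := by
      ext p; simp
    rw [h3]
    exact Finset.sum_congr rfl fun p hp => by rw [if_neg (Finset.mem_filter.1 hp).2]
  have h4 : ∀ p ∈ (univ : Finset ι).offDiag, ({p.1, p.2} : Finset ι) ∈
      powersetCard 2 (univ : Finset ι) := fun p hp => by
    rw [Finset.mem_powersetCard]
    exact ⟨Finset.subset_univ _, Finset.card_pair (Finset.mem_offDiag.1 hp).2.2⟩
  rw [h1, ← Finset.sum_fiberwise_of_maps_to h4, Finset.mul_sum]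
  refine Finset.sum_le_sum fun F hF => ?_
  have h5 : ∑ p ∈ (univ : Finset ι).offDiag with ({p.1, p.2} : Finset ι) = F, φ {p.1, p.2} =
      ∑ p ∈ (univ : Finset ι).offDiag with ({p.1, p.2} : Finset ι) = F, φ F :=
    Finset.sum_congr rfl fun p hp => by rw [(Finset.mem_filter.1 hp).2]
  rw [h5, Finset.sum_const, nsmul_eq_mul]
  have h6 : ((univ : Finset ι).offDiag.filter
      (fun p => ({p.1, p.2} : Finset ι) = F)).card ≤ 2 := by
    obtain ⟨a, b, hab, rfl⟩ := Finset.card_eq_two.1 (Finset.mem_powersetCard.1 hF).2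
    have h7 : (univ : Finset ι).offDiag.filter
        (fun p => ({p.1, p.2} : Finset ι) = {a, b}) ⊆ {(a, b), (b, a)} := by
      intro p hp
      obtain ⟨hp1, hp2⟩ := Finset.mem_filter.1 hp
      have hne : p.1 ≠ p.2 := (Finset.mem_offDiag.1 hp1).2.2
      have e1 : p.1 = a ∨ p.1 = b := by
        have : p.1 ∈ ({a, b} : Finset ι) := hp2 ▸ Finset.mem_insert_self _ _
        simpa using this
      have e2 : p.2 = a ∨ p.2 = b := by
        have : p.2 ∈ ({a, b} : Finset ι) := hp2 ▸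
          Finset.mem_insert_of_mem (Finset.mem_singleton_self _)
        simpa using this
      rw [Finset.mem_insert, Finset.mem_singleton]
      rcases e1 with e1 | e1 <;> rcases e2 with e2 | e2
      · exact absurd (e1.trans e2.symm) hne
      · left; exact Prod.ext e1 e2
      · right; exact Prod.ext e1 e2
      · exact absurd (e1.trans e2.symm) hne
    exact (Finset.card_le_card h7).trans Finset.card_le_two
  have h8 : (((univ : Finset ι).offDiag.filter
      (fun p => ({p.1, p.2} : Finset ι) = F)).card : ℝ) ≤ 2 := by exact_mod_cast h6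
  have h9 := hφ F
  nlinarith

/-- `EE q g ≥ wt q ∅ g ∅ + ∑_{c ∈ S} wt q {c} g {c} + ∑_{pairs of S} ...` for `g ≥ 0`; the sum over
unordered pairs is written as half of the sum over ordered pairs. -/
theorem EE_ge (q : ι → ℝ) (h0 : ∀ c, 0 ≤ q c) (h1 : ∀ c, q c ≤ 1) (g : Finset ι → ℝ)
    (hg : ∀ F, 0 ≤ g F) :
    Real.exp (-∑ c, q c) * (g ∅ + ∑ c, q c * (1 - q c) * g {c} +
      (1 / 2) * ∑ c, ∑ c', (if c = c' then 0 else
        q c * (1 - q c) * (q c' * (1 - q c')) * g {c, c'})) ≤ EE q g := by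
  have hZ : 0 ≤ Real.exp (-∑ c, q c) := (Real.exp_pos _).le
  have hφ : ∀ F, 0 ≤ wt q F * g F := fun F => mul_nonneg (wt_nonneg h0 F) (hg F)
  have hempty : wt q ∅ = Real.exp (-∑ c, q c) := by
    unfold wt
    simp only [Finset.notMem_empty, if_false]
    rw [← Real.exp_sum, Finset.sum_neg_distrib]
  have hone : Real.exp (-∑ c, q c) * (∑ c, q c * (1 - q c) * g {c}) ≤
      ∑ F ∈ powersetCard 1 (univ : Finset ι), wt q F * g F := by
    rw [Finset.powersetCard_one, Finset.sum_map, Finset.mul_sum]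
    refine Finset.sum_le_sum fun c _ => ?_
    have := mul_le_mul_of_nonneg_right (wt_singleton q h0 c) (hg {c})
    simp only [Function.Embedding.coeFn_mk]
    linarith
  have htwo : Real.exp (-∑ c, q c) * ((1 / 2) * ∑ c, ∑ c', (if c = c' then 0 else
        q c * (1 - q c) * (q c' * (1 - q c')) * g {c, c'})) ≤
      ∑ F ∈ powersetCard 2 (univ : Finset ι), wt q F * g F := by
    refine le_trans ?_ (P1c_pairs (fun F => wt q F * g F) hφ)
    have h2 : Real.exp (-∑ c, q c) * (∑ c, ∑ c', (if c = c' then 0 else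
        q c * (1 - q c) * (q c' * (1 - q c')) * g {c, c'})) ≤
        ∑ c, ∑ c', (if c = c' then 0 else wt q {c, c'} * g {c, c'}) := by
      rw [Finset.mul_sum]
      refine Finset.sum_le_sum fun c _ => ?_
      rw [Finset.mul_sum]
      refine Finset.sum_le_sum fun c' _ => ?_
      by_cases hc : c = c'
      · rw [if_pos hc, if_pos hc, mul_zero]
      · rw [if_neg hc, if_neg hc]
        have := mul_le_mul_of_nonneg_right (wt_pair q h0 h1 c c' hc) (hg {c, c'})
        linarith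
    linarith
  have hdisj : ∀ i j : ℕ, i ≠ j → Disjoint (powersetCard i (univ : Finset ι))
      (powersetCard j (univ : Finset ι)) := fun i j hij => by
    rw [Finset.disjoint_left]
    intro F h2 h3
    exact hij ((Finset.mem_powersetCard.1 h2).2.symm.trans (Finset.mem_powersetCard.1 h3).2)
  have hsum : ∑ F ∈ powersetCard 0 (univ : Finset ι) ∪ (powersetCard 1 (univ : Finset ι) ∪
      powersetCard 2 (univ : Finset ι)), wt q F * g F ≤ EE q g :=
    Finset.sum_le_sum_of_subset_of_nonneg (Finset.subset_univ _) fun F _ _ => hφ F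
  rw [Finset.sum_union (Finset.disjoint_union_right.2 ⟨hdisj 0 1 (by norm_num),
    hdisj 0 2 (by norm_num)⟩), Finset.sum_union (hdisj 1 2 (by norm_num)),
    Finset.powersetCard_zero, Finset.sum_singleton, hempty] at hsum
  linarith

end Pool.Agent.Lib.MP_9cae81_PC
end

section

/-! Splitting small and big pieces. -/

open Finset
open scoped BigOperators

namespace Pool.Agent.Lib.MP_9cae81_PC

open Pool.Agent.Lib.MP_9cae81_R

variable {ι : Type} [Fintype ι] [DecidableEq ι]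

/-- Lower bound by the empty set. -/
theorem P4a_ge_empty (q : ι → ℝ) (h0 : ∀ c, 0 ≤ q c) (h1 : ∀ c, q c ≤ 1) (g : Finset ι → ℝ)
    (hg : ∀ F, 0 ≤ g F) : Real.exp (-∑ c, q c) * g ∅ ≤ EE q g := by
  have h := EE_ge q h0 h1 g hg
  refine le_trans ?_ h
  refine mul_le_mul_of_nonneg_left ?_ (Real.exp_pos _).le
  have h2 : 0 ≤ ∑ c, q c * (1 - q c) * g {c} :=
    Finset.sum_nonneg fun c _ => mul_nonneg (mul_nonneg (h0 c) (by linarith [h1 c])) (hg _)
  have h3 : 0 ≤ ∑ c, ∑ c', (if c = c' then 0 else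
        q c * (1 - q c) * (q c' * (1 - q c')) * g {c, c'}) := by
    refine Finset.sum_nonneg fun c _ => Finset.sum_nonneg fun c' _ => ?_
    split_ifs
    · exact le_refl _
    · exact mul_nonneg (mul_nonneg (mul_nonneg (h0 c) (by linarith [h1 c]))
        (mul_nonneg (h0 c') (by linarith [h1 c']))) (hg _)
  linarith

/-- Lower bound by the singletons. -/
theorem P4a_ge_single (q : ι → ℝ) (h0 : ∀ c, 0 ≤ q c) (h1 : ∀ c, q c ≤ 1) (g : Finset ι → ℝ)
    (hg : ∀ F, 0 ≤ g F) :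
    Real.exp (-∑ c, q c) * (∑ c, q c * (1 - q c) * g {c}) ≤ EE q g := by
  have h := EE_ge q h0 h1 g hg
  refine le_trans ?_ h
  refine mul_le_mul_of_nonneg_left ?_ (Real.exp_pos _).le
  have h3 : 0 ≤ ∑ c, ∑ c', (if c = c' then 0 else
        q c * (1 - q c) * (q c' * (1 - q c')) * g {c, c'}) := by
    refine Finset.sum_nonneg fun c _ => Finset.sum_nonneg fun c' _ => ?_
    split_ifs
    · exact le_refl _
    · exact mul_nonneg (mul_nonneg (mul_nonneg (h0 c) (by linarith [h1 c]))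
        (mul_nonneg (h0 c') (by linarith [h1 c']))) (hg _)
  have := hg ∅
  linarith

/-- SPLITTING.  `sm` = small pieces, `qs = q 1(sm)`, `qb = q 1(not sm)`, `q = qs + qb`.
Proof.  `EE q g = EE qs (F ↦ EE qb (G ↦ g (F ∪ G)))` (`EE_union`), and `EE_ge` for `qb`:
`EE q g ≥ exp(-∑ qb) EE qs (g F + ∑ qb c (1 - qb c) g (F ∪ {c}) + (1/2) ∑ ∑ ...)`; for the last sum use
`EE qs h ≥ exp(-∑ qs) h ∅` (`EE_ge`).  For `E2`:
outer variable `a`: keep `a = a_s` (small only) and `a = {c}` (exactly one big piece, nothing else);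
for `a = a_s` keep in `b` one big piece with small ones, and exactly `{c, c'}`, then `a_s = ∅`;
for `a = {c}` keep `b = {c'}` exactly. -/
theorem split_lb (q : ι → ℝ) (h0 : ∀ c, 0 ≤ q c) (h1 : ∀ c, q c ≤ 1) (sm : ι → Prop)
    [DecidablePred sm] (Φ : Finset ι → Finset ι → ℝ) (hΦ : ∀ a b, 0 ≤ Φ a b) :
    Real.exp (-(2 * ∑ c, if sm c then 0 else q c)) *
      EE (fun c => if sm c then q c else 0) (fun a => EE (fun c => if sm c then q c else 0)
        (fun b => ∑ c, (if sm c then 0 else q c * (1 - q c)) * Φ a (insert c b))) +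
    Real.exp (-(2 * ∑ c, q c)) *
      ((1 / 2) * (∑ c, ∑ c', if sm c ∨ sm c' ∨ c = c' then 0 else
          q c * (1 - q c) * (q c' * (1 - q c')) * Φ ∅ {c, c'}) +
        ∑ c, ∑ c', if sm c ∨ sm c' then 0 else
          q c * (1 - q c) * (q c' * (1 - q c')) * Φ {c} {c'}) ≤ E2 q Φ := by
  set qs : ι → ℝ := fun c => if sm c then q c else 0 with hqs
  set qb : ι → ℝ := fun c => if sm c then 0 else q c with hqb
  have hq : (fun c => qs c + qb c) = q := by
    funext c; simp only [hqs, hqb]; split_ifs <;> simp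
  have qs0 : ∀ c, 0 ≤ qs c := by
    intro c; simp only [hqs]; split_ifs
    · exact h0 c
    · exact le_refl _
  have qb0 : ∀ c, 0 ≤ qb c := by
    intro c; simp only [hqb]; split_ifs
    · exact le_refl _
    · exact h0 c
  have qs1 : ∀ c, qs c ≤ 1 := by
    intro c; simp only [hqs]; split_ifs
    · exact h1 c
    · exact zero_le_one
  have qb1 : ∀ c, qb c ≤ 1 := by
    intro c; simp only [hqb]; split_ifs
    · exact zero_le_one
    · exact h1 c
  have hsum : ∑ c, q c = ∑ c, qs c + ∑ c, qb c := by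
    rw [← Finset.sum_add_distrib]; exact Finset.sum_congr rfl fun c _ => (congrFun hq c).symm
  have hsplit : ∀ g : Finset ι → ℝ, EE q g = EE qs (fun F => EE qb (fun G => g (F ∪ G))) := by
    intro g; rw [EE_union, hq]
  -- weights of big pieces
  have hw : ∀ c, qb c * (1 - qb c) = if sm c then 0 else q c * (1 - q c) := by
    intro c; simp only [hqb]; split_ifs <;> simp
  have hw0 : ∀ c, 0 ≤ (if sm c then 0 else q c * (1 - q c)) := by
    intro c; split_ifs
    · exact le_refl _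
    · exact mul_nonneg (h0 c) (by linarith [h1 c])
  set Ψ : Finset ι → ℝ := fun a => EE q (fun b => Φ a b) with hΨ
  have hΨ0 : ∀ a, 0 ≤ Ψ a := fun a => EE_nonneg h0 (hΦ a)
  -- the two parts of the outer expectation
  have houter : Real.exp (-∑ c, qb c) * EE qs (fun F => Ψ F) +
      Real.exp (-∑ c, qb c) * EE qs (fun F => ∑ c, (if sm c then 0 else q c * (1 - q c)) *
        Ψ (F ∪ {c})) ≤ E2 q Φ := by
    have e1 : E2 q Φ = EE qs (fun F => EE qb (fun G => Ψ (F ∪ G))) := by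
      unfold E2; exact hsplit Ψ
    rw [e1, ← mul_add, ← EE_add, ← EE_mul_left]
    refine EE_mono qs0 fun F => ?_
    have h := EE_ge qb qb0 qb1 (fun G => Ψ (F ∪ G)) (fun G => hΨ0 _)
    refine le_trans ?_ h
    refine mul_le_mul_of_nonneg_left ?_ (Real.exp_pos _).le
    have h3 : 0 ≤ ∑ c, ∑ c', (if c = c' then 0 else
        qb c * (1 - qb c) * (qb c' * (1 - qb c')) * Ψ (F ∪ {c, c'})) := by
      refine Finset.sum_nonneg fun c _ => Finset.sum_nonneg fun c' _ => ?_
      split_ifs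
      · exact le_refl _
      · exact mul_nonneg (mul_nonneg (mul_nonneg (qb0 c) (by linarith [qb1 c]))
          (mul_nonneg (qb0 c') (by linarith [qb1 c']))) (hΨ0 _)
    have h4 : ∑ c, qb c * (1 - qb c) * Ψ (F ∪ {c}) =
        ∑ c, (if sm c then 0 else q c * (1 - q c)) * Ψ (F ∪ {c}) :=
      Finset.sum_congr rfl fun c _ => by rw [hw c]
    rw [Finset.union_empty, h4]
    linarith
  -- inner bound for a = small
  set T2 : Finset ι → Finset ι → ℝ := fun a b => ∑ c, ∑ c', if sm c ∨ sm c' ∨ c = c' then 0 else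
          q c * (1 - q c) * (q c' * (1 - q c')) * Φ a (b ∪ {c, c'}) with hT2
  have hT20 : ∀ a b, 0 ≤ T2 a b := by
    intro a b
    refine Finset.sum_nonneg fun c _ => Finset.sum_nonneg fun c' _ => ?_
    split_ifs
    · exact le_refl _
    · exact mul_nonneg (mul_nonneg (mul_nonneg (h0 c) (by linarith [h1 c]))
        (mul_nonneg (h0 c') (by linarith [h1 c']))) (hΦ _ _)
  have hinner : ∀ a, Real.exp (-∑ c, qb c) * EE qs (fun b =>
      (∑ c, (if sm c then 0 else q c * (1 - q c)) * Φ a (insert c b)) + (1 / 2) * T2 a b) ≤ Ψ a := by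
    intro a
    have e1 : Ψ a = EE qs (fun F => EE qb (fun G => Φ a (F ∪ G))) := hsplit (fun b => Φ a b)
    rw [e1, ← EE_mul_left]
    refine EE_mono qs0 fun F => ?_
    have h := EE_ge qb qb0 qb1 (fun G => Φ a (F ∪ G)) (fun G => hΦ _ _)
    refine le_trans ?_ h
    refine mul_le_mul_of_nonneg_left ?_ (Real.exp_pos _).le
    have h4 : ∑ c, qb c * (1 - qb c) * Φ a (F ∪ {c}) =
        ∑ c, (if sm c then 0 else q c * (1 - q c)) * Φ a (insert c F) := by
      refine Finset.sum_congr rfl fun c _ => ?_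
      rw [hw c, Finset.union_comm, ← Finset.insert_eq]
    have h5 : ∑ c, ∑ c', (if c = c' then 0 else
        qb c * (1 - qb c) * (qb c' * (1 - qb c')) * Φ a (F ∪ {c, c'})) = T2 a F := by
      refine Finset.sum_congr rfl fun c _ => Finset.sum_congr rfl fun c' _ => ?_
      rw [hw c, hw c']
      by_cases hc : sm c <;> by_cases hc' : sm c' <;> by_cases hcc : c = c' <;> simp [hc, hc', hcc]
    rw [h4, h5]
    have := hΦ a (F ∪ ∅)
    linarith
  -- the part a = {c}
  have hsing : ∀ c, Real.exp (-∑ c, q c) * (∑ c', (if sm c' then 0 else q c' * (1 - q c')) *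
      Φ {c} {c'}) ≤ Ψ {c} := by
    intro c
    refine le_trans ?_ (P4a_ge_single q h0 h1 (fun b => Φ {c} b) (fun b => hΦ _ _))
    refine mul_le_mul_of_nonneg_left ?_ (Real.exp_pos _).le
    refine Finset.sum_le_sum fun c' _ => ?_
    refine mul_le_mul_of_nonneg_right ?_ (hΦ _ _)
    split_ifs
    · exact mul_nonneg (h0 c') (by linarith [h1 c'])
    · exact le_refl _
  -- assemble the first part
  have hfirst : Real.exp (-(2 * ∑ c, qb c)) *
      EE qs (fun a => EE qs (fun b => ∑ c, (if sm c then 0 else q c * (1 - q c)) *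
        Φ a (insert c b))) +
      Real.exp (-(2 * ∑ c, q c)) * ((1 / 2) * T2 ∅ ∅) ≤
      Real.exp (-∑ c, qb c) * EE qs (fun F => Ψ F) := by
    have s1 : Real.exp (-∑ c, qb c) * (Real.exp (-∑ c, qb c) *
        EE qs (fun a => EE qs (fun b =>
          (∑ c, (if sm c then 0 else q c * (1 - q c)) * Φ a (insert c b)) + (1 / 2) * T2 a b))) ≤
        Real.exp (-∑ c, qb c) * EE qs (fun F => Ψ F) := by
      refine mul_le_mul_of_nonneg_left ?_ (Real.exp_pos _).le
      rw [← EE_mul_left]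
      exact EE_mono qs0 fun F => hinner F
    have s2 : EE qs (fun a => EE qs (fun b =>
          (∑ c, (if sm c then 0 else q c * (1 - q c)) * Φ a (insert c b)) + (1 / 2) * T2 a b)) =
        EE qs (fun a => EE qs (fun b =>
          (∑ c, (if sm c then 0 else q c * (1 - q c)) * Φ a (insert c b)))) +
        EE qs (fun a => EE qs (fun b => (1 / 2) * T2 a b)) := by
      rw [← EE_add]
      congr 1
      funext a
      rw [EE_add]
    have s3 : Real.exp (-∑ c, qs c) * (Real.exp (-∑ c, qs c) * ((1 / 2) * T2 ∅ ∅)) ≤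
        EE qs (fun a => EE qs (fun b => (1 / 2) * T2 a b)) := by
      refine le_trans ?_ (P4a_ge_empty qs qs0 qs1 (fun a => EE qs (fun b => (1 / 2) * T2 a b))
        (fun a => EE_nonneg qs0 fun b => mul_nonneg (by norm_num) (hT20 a b)))
      refine mul_le_mul_of_nonneg_left ?_ (Real.exp_pos _).le
      exact P4a_ge_empty qs qs0 qs1 (fun b => (1 / 2) * T2 ∅ b)
        (fun b => mul_nonneg (by norm_num) (hT20 ∅ b))
    have x1 : Real.exp (-(2 * ∑ c, qb c)) = Real.exp (-∑ c, qb c) * Real.exp (-∑ c, qb c) := by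
      rw [← Real.exp_add]; congr 1; ring
    have x2 : Real.exp (-(2 * ∑ c, q c)) = Real.exp (-∑ c, qb c) * Real.exp (-∑ c, qb c) *
        (Real.exp (-∑ c, qs c) * Real.exp (-∑ c, qs c)) := by
      rw [← Real.exp_add, ← Real.exp_add, ← Real.exp_add]; congr 1; rw [hsum]; ring
    rw [x1, x2]
    rw [s2] at s1
    have s4 := mul_le_mul_of_nonneg_left s3
      (mul_nonneg (Real.exp_pos (-∑ c, qb c)).le (Real.exp_pos (-∑ c, qb c)).le)
    calc _ = Real.exp (-∑ c, qb c) * Real.exp (-∑ c, qb c) *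
          EE qs (fun a => EE qs (fun b => ∑ c, (if sm c then 0 else q c * (1 - q c)) *
            Φ a (insert c b))) +
          Real.exp (-∑ c, qb c) * Real.exp (-∑ c, qb c) *
            (Real.exp (-∑ c, qs c) * (Real.exp (-∑ c, qs c) * ((1 / 2) * T2 ∅ ∅))) := by ring
      _ ≤ Real.exp (-∑ c, qb c) * Real.exp (-∑ c, qb c) *
          EE qs (fun a => EE qs (fun b => ∑ c, (if sm c then 0 else q c * (1 - q c)) *
            Φ a (insert c b))) +
          Real.exp (-∑ c, qb c) * Real.exp (-∑ c, qb c) *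
            EE qs (fun a => EE qs (fun b => (1 / 2) * T2 a b)) := by linarith
      _ = Real.exp (-∑ c, qb c) * (Real.exp (-∑ c, qb c) *
          (EE qs (fun a => EE qs (fun b => (∑ c, (if sm c then 0 else q c * (1 - q c)) *
            Φ a (insert c b)))) +
          EE qs (fun a => EE qs (fun b => (1 / 2) * T2 a b)))) := by ring
      _ ≤ _ := s1
  have hsecond : Real.exp (-(2 * ∑ c, q c)) * (∑ c, ∑ c', if sm c ∨ sm c' then 0 else
          q c * (1 - q c) * (q c' * (1 - q c')) * Φ {c} {c'}) ≤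
      Real.exp (-∑ c, qb c) * EE qs (fun F => ∑ c, (if sm c then 0 else q c * (1 - q c)) *
        Ψ (F ∪ {c})) := by
    have s1 := P4a_ge_empty qs qs0 qs1 (fun F => ∑ c, (if sm c then 0 else q c * (1 - q c)) *
        Ψ (F ∪ {c})) (fun F => Finset.sum_nonneg fun c _ => mul_nonneg (hw0 c) (hΨ0 _))
    have s2 : Real.exp (-∑ c, q c) * (∑ c, ∑ c', if sm c ∨ sm c' then 0 else
          q c * (1 - q c) * (q c' * (1 - q c')) * Φ {c} {c'}) ≤
        ∑ c, (if sm c then 0 else q c * (1 - q c)) * Ψ (∅ ∪ {c}) := by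
      rw [Finset.mul_sum]
      refine Finset.sum_le_sum fun c _ => ?_
      have h := mul_le_mul_of_nonneg_left (hsing c) (hw0 c)
      rw [Finset.empty_union]
      refine le_trans (le_of_eq ?_) h
      rw [mul_left_comm, Finset.mul_sum (s := Finset.univ) (a := if sm c then 0 else q c * (1 - q c))]
      have h6 : (∑ c', if sm c ∨ sm c' then 0 else
          q c * (1 - q c) * (q c' * (1 - q c')) * Φ {c} {c'}) =
          ∑ c', (if sm c then 0 else q c * (1 - q c)) *
            ((if sm c' then 0 else q c' * (1 - q c')) * Φ {c} {c'}) := by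
        refine Finset.sum_congr rfl fun c' _ => ?_
        by_cases hc : sm c
        · simp [hc]
        · by_cases hc' : sm c'
          · simp [hc, hc']
          · simp only [hc, hc', or_self, if_false]
            ring
      rw [h6]
    have x2 : Real.exp (-(2 * ∑ c, q c)) = Real.exp (-∑ c, qb c) * Real.exp (-∑ c, qs c) *
        Real.exp (-∑ c, q c) := by
      rw [← Real.exp_add, ← Real.exp_add]; congr 1; rw [hsum]; ring
    have hbs : 0 ≤ Real.exp (-∑ c, qb c) * Real.exp (-∑ c, qs c) :=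
      mul_nonneg (Real.exp_pos _).le (Real.exp_pos _).le
    calc Real.exp (-(2 * ∑ c, q c)) * (∑ c, ∑ c', if sm c ∨ sm c' then 0 else
          q c * (1 - q c) * (q c' * (1 - q c')) * Φ {c} {c'})
        = Real.exp (-∑ c, qb c) * Real.exp (-∑ c, qs c) * (Real.exp (-∑ c, q c) *
          (∑ c, ∑ c', if sm c ∨ sm c' then 0 else
          q c * (1 - q c) * (q c' * (1 - q c')) * Φ {c} {c'})) := by rw [x2]; ring
      _ ≤ Real.exp (-∑ c, qb c) * Real.exp (-∑ c, qs c) *
          (∑ c, (if sm c then 0 else q c * (1 - q c)) * Ψ (∅ ∪ {c})) :=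
          mul_le_mul_of_nonneg_left s2 hbs
      _ = Real.exp (-∑ c, qb c) * (Real.exp (-∑ c, qs c) *
          (∑ c, (if sm c then 0 else q c * (1 - q c)) * Ψ (∅ ∪ {c}))) := by ring
      _ ≤ _ := mul_le_mul_of_nonneg_left s1 (Real.exp_pos _).le
  have hT2e : T2 ∅ ∅ = ∑ c, ∑ c', if sm c ∨ sm c' ∨ c = c' then 0 else
          q c * (1 - q c) * (q c' * (1 - q c')) * Φ ∅ {c, c'} := by
    simp only [hT2, Finset.empty_union]
  rw [mul_add, ← hT2e]
  linarith

end Pool.Agent.Lib.MP_9cae81_PC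
end

section

/-! Defects and small pieces. -/

open Finset
open scoped BigOperators

namespace Pool.Agent.Lib.MP_9cae81_PC

open Pool.Agent.Lib.MP_9cae81_R

section P4b_general

variable {L : Type} [Fintype L]

theorem P4b_Av_mono {f g : L → ℝ} (h : ∀ l, f l ≤ g l) : Av f ≤ Av g := by
  unfold Av
  exact div_le_div_of_nonneg_right (Finset.sum_le_sum fun l _ => h l) (Nat.cast_nonneg _)

theorem P4b_Av_nonneg {f : L → ℝ} (h : ∀ l, 0 ≤ f l) : 0 ≤ Av f := by
  unfold Av
  exact div_nonneg (Finset.sum_nonneg fun l _ => h l) (Nat.cast_nonneg _)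

theorem P4b_Av_const [Nonempty L] (a : ℝ) : Av (fun _ : L => a) = a := by
  unfold Av
  rw [Finset.sum_const, Finset.card_univ, nsmul_eq_mul]
  have : (Fintype.card L : ℝ) ≠ 0 := by exact_mod_cast Fintype.card_ne_zero
  field_simp

theorem P4b_Av_mul (a : ℝ) (f : L → ℝ) : Av (fun l => a * f l) = a * Av f := by
  unfold Av
  rw [← Finset.mul_sum, mul_div_assoc]

theorem P4b_Av_comm {M : Type} [Fintype M] (f : L → M → ℝ) :
    Av (fun l => Av fun m => f l m) = Av (fun m => Av fun l => f l m) := by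
  unfold Av
  simp only [← Finset.sum_div]
  rw [Finset.sum_comm, div_right_comm]

theorem P4b_EE_Av {ι : Type} [Fintype ι] [DecidableEq ι] (q : ι → ℝ) (f : Finset ι → L → ℝ) :
    EE q (fun g => Av fun l => f g l) = Av (fun l => EE q fun g => f g l) := by
  unfold Av EE
  simp only [mul_div_assoc', Finset.mul_sum, ← Finset.sum_div]
  rw [Finset.sum_comm]

theorem P4b_exp : Real.exp (11 / 5) ≤ 10 := by
  have h1 : Real.exp 1 < 2.7182818286 := Real.exp_one_lt_d9
  have h2 : Real.exp (11 / 5) ^ 5 = Real.exp 1 ^ 11 := by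
    rw [← Real.exp_nat_mul, ← Real.exp_nat_mul]
    norm_num
  have h3 : Real.exp 1 ^ 11 ≤ 10 ^ 5 := by
    calc Real.exp 1 ^ 11 ≤ 2.7182818286 ^ 11 :=
          pow_le_pow_left₀ (Real.exp_pos _).le h1.le 11
      _ ≤ 10 ^ 5 := by norm_num
  rw [← h2] at h3
  exact le_of_pow_le_pow_left₀ (by norm_num) (by norm_num) h3

theorem P4b_min_add {x y z : ℝ} (hx : 0 ≤ x) (hy : 0 ≤ y) (hz : 0 ≤ z) :
    min 1 (x + y + z) ≤ min 1 x + min 1 y + min 1 z := by
  rcases le_total 1 x with h1 | h1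
  · have a1 : min 1 x = 1 := min_eq_left h1
    have a2 : 0 ≤ min 1 y := le_min zero_le_one hy
    have a3 : 0 ≤ min 1 z := le_min zero_le_one hz
    have a4 : min 1 (x + y + z) ≤ 1 := min_le_left _ _
    linarith
  · rcases le_total 1 y with h2 | h2
    · have a1 : min 1 y = 1 := min_eq_left h2
      have a2 : 0 ≤ min 1 x := le_min zero_le_one hx
      have a3 : 0 ≤ min 1 z := le_min zero_le_one hz
      have a4 : min 1 (x + y + z) ≤ 1 := min_le_left _ _
      linarith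
    · rcases le_total 1 z with h3 | h3
      · have a1 : min 1 z = 1 := min_eq_left h3
        have a2 : 0 ≤ min 1 x := le_min zero_le_one hx
        have a3 : 0 ≤ min 1 y := le_min zero_le_one hy
        have a4 : min 1 (x + y + z) ≤ 1 := min_le_left _ _
        linarith
      · rw [min_eq_right h1, min_eq_right h2, min_eq_right h3]
        exact min_le_right _ _

theorem P4b_min_rpow {z s : ℝ} (hz : 0 ≤ z) (hs : 0 < s) (hs1 : s ≤ 1) : min 1 z ≤ z ^ s := by
  rcases le_total z 1 with h | h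
  · refine le_trans (min_le_right _ _) ?_
    rcases hz.eq_or_lt with h0 | h0
    · rw [← h0, Real.zero_rpow hs.ne']
    · calc z = z ^ (1 : ℝ) := (Real.rpow_one z).symm
        _ ≤ z ^ s := Real.rpow_le_rpow_of_exponent_ge h0 h hs1
  · exact le_trans (min_le_left _ _) (Real.one_le_rpow h hs.le)

end P4b_general

variable {L ι : Type} [Fintype L] [Nonempty L] [Fintype ι] [DecidableEq ι] (P : PF L ι)
variable {q : ι → ℝ} {c2 β ρ : ℝ}

omit [Nonempty L] in
theorem P4b_e_nonneg (g : Finset ι) (p : ι) : 0 ≤ P.e g p := abs_nonneg _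

theorem P4b_sum_q (hG : Gad P q c2 β ρ) : ∑ p, q p = c2 + β := by
  have h := hG.law (fun _ => 1)
  simp only [mul_one, P4b_Av_const] at h
  exact h

theorem P4b_exp_sum (hG : Gad P q c2 β ρ) (hc : c2 + β ≤ 11 / 5) :
    Real.exp (∑ p, q p) ≤ 10 := by
  rw [P4b_sum_q P hG]
  exact le_trans (Real.exp_le_exp.2 hc) P4b_exp

omit [Nonempty L] in
theorem P4b_Er_ge (hG : Gad P q c2 β ρ) (hβ : 0 ≤ β) (s : ℝ) :
    c2 * Av (fun l => EE q fun g => (P.e g (P.u l)) ^ s) ≤ P.Er q s := by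
  have h := hG.law (fun p => EE q fun g => (P.e g p) ^ s)
  have h2 : 0 ≤ β * Av (fun l => Av (fun l' => EE q fun g => (P.e g (P.pr l l')) ^ s)) :=
    mul_nonneg hβ (P4b_Av_nonneg fun l => P4b_Av_nonneg fun l' => EE_nonneg hG.nonneg fun g =>
      Real.rpow_nonneg (P4b_e_nonneg P g _) s)
  unfold PF.Er
  rw [h]
  linarith

omit [Nonempty L] in
theorem P4b_Er_nonneg (hG : Gad P q c2 β ρ) (s : ℝ) : 0 ≤ P.Er q s :=
  Finset.sum_nonneg fun p _ => mul_nonneg (hG.nonneg p) (EE_nonneg hG.nonneg fun g =>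
      Real.rpow_nonneg (P4b_e_nonneg P g _) s)

omit [Nonempty L] in
theorem P4b_d_nonneg (l : L) : 0 ≤ P.d l := P.M_nonneg _ _

omit [Nonempty L] in
theorem P4b_hh_nonneg {t : ℝ} (ht : 0 < t) : 0 ≤ P.hh t :=
  div_nonneg (P4b_Av_nonneg fun l => le_min (P4b_d_nonneg P l) ht.le) ht.le

omit [Nonempty L] in
theorem P4b_min_law (hG : Gad P q c2 β ρ) (hc2 : 0 ≤ c2) (hβ : 0 ≤ β) (hc : c2 + β ≤ 11 / 5)
    {t : ℝ} (ht : 0 < t) : ∑ p, q p * min (P.D {p}) t ≤ 11 / 5 * (t * P.hh t) := by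
  have h := hG.law (fun p => min (P.D {p}) t)
  rw [h]
  have e1 : t * P.hh t = Av (fun l => min (P.d l) t) := by
    unfold PF.hh
    field_simp
  have h1 : Av (fun l => min (P.D {P.u l}) t) = Av (fun l => min (P.d l) t) := rfl
  have h2 : Av (fun l => Av (fun l' => min (P.D {P.pr l l'}) t)) ≤
      Av (fun l => min (P.d l) t) := by
    have hA : Av (fun l => Av (fun l' => min (P.D {P.pr l l'}) t)) ≤
        Av (fun l => Av (fun l' : L => min (P.d l) t)) := by
      refine P4b_Av_mono fun l => P4b_Av_mono fun l' => min_le_min_right _ ?_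
      show P.M {P.pr l l'} {P.pr l l'} ≤ P.M {P.u l} {P.u l}
      rw [P.pair]
      exact P.diag _ _
    refine le_trans hA (P4b_Av_mono fun l => ?_)
    have : Nonempty L := ⟨l⟩
    rw [P4b_Av_const]
  have h3 : 0 ≤ Av (fun l => min (P.d l) t) :=
    P4b_Av_nonneg fun l => le_min (P4b_d_nonneg P l) ht.le
  rw [h1, e1]
  have h4 := mul_le_mul_of_nonneg_left h2 hβ
  have h5 := mul_le_mul_of_nonneg_right hc h3
  linarith

/-- `Av` of a defect of a fresh unit: `c2 Av_l EE q (e · (u l))^s ≤ Er` (`law`, `β ≥ 0`), and for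
intensities `q' ≤ q`: `EE q' ≤ exp(∑ q) EE q ≤ 10 EE q`.  `c2 ≥ 1/2`. -/
theorem unit_defect (hG : Gad P q c2 β ρ) (hc2 : 1 / 2 ≤ c2) (hβ : 0 ≤ β) (hc : c2 + β ≤ 11 / 5)
    (s : ℝ) (q' : ι → ℝ) (h0 : ∀ c, 0 ≤ q' c) (h : ∀ c, q' c ≤ q c) :
    EE q' (fun g => Av fun l => (P.e g (P.u l)) ^ s) ≤ 20 * P.Er q s := by
  have h1 : EE q' (fun g => Av fun l => (P.e g (P.u l)) ^ s) ≤
      Real.exp (∑ c, q c) * EE q (fun g => Av fun l => (P.e g (P.u l)) ^ s) :=
    EE_le_exp q q' h0 h _ fun g => P4b_Av_nonneg fun l =>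
      Real.rpow_nonneg (P4b_e_nonneg P g _) s
  rw [P4b_EE_Av q] at h1
  set A : ℝ := Av (fun l => EE q fun g => (P.e g (P.u l)) ^ s) with hA
  have hA0 : 0 ≤ A := P4b_Av_nonneg fun l => EE_nonneg hG.nonneg fun g =>
      Real.rpow_nonneg (P4b_e_nonneg P g _) s
  have h2 : c2 * A ≤ P.Er q s := P4b_Er_ge P hG hβ s
  have h3 : Real.exp (∑ c, q c) * A ≤ 10 * A :=
    mul_le_mul_of_nonneg_right (P4b_exp_sum P hG hc) hA0
  have h4 : 1 / 2 * A ≤ c2 * A := mul_le_mul_of_nonneg_right hc2 hA0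
  linarith

/-- Defect of two fresh units: keep the gadget `g = {u l}` exactly:
`Er ≥ c2 Av_l' ∑_l wt q {u l} (e {u l} (u l'))^s`, `wt q {u l} ≥ (c2 / |L|)(1 - ρ) exp(-11/5)`
(`wt_singleton`, `qu`).  `exp(11/5) ≤ 10`, `c2 ≥ 1/2`, `ρ ≤ 1/100`. -/
theorem unit2_defect (hG : Gad P q c2 β ρ) (hc2 : 1 / 2 ≤ c2) (hβ : 0 ≤ β) (hc : c2 + β ≤ 11 / 5)
    (hρ : ρ ≤ 1 / 100) (s : ℝ) :
    Av (fun l => Av fun l' => (P.e {P.u l} (P.u l')) ^ s) ≤ 41 * P.Er q s := by
  have hcard : (0 : ℝ) < (Fintype.card L : ℝ) := by exact_mod_cast Fintype.card_pos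
  set k : ℝ := c2 / (Fintype.card L : ℝ) * (99 / 100) * (1 / 10) with hk
  have hw : ∀ l, k ≤ wt q {P.u l} := by
    intro l
    have h1 := wt_singleton q hG.nonneg (P.u l)
    rw [hG.qu l] at h1
    have h2 : (99 : ℝ) / 100 ≤ 1 - c2 / (Fintype.card L : ℝ) := by
      have := hG.small (P.u l)
      rw [hG.qu l] at this
      linarith
    have h3 : (1 : ℝ) / 10 ≤ Real.exp (-∑ c, q c) := by
      rw [Real.exp_neg, one_div]
      exact inv_anti₀ (Real.exp_pos _) (P4b_exp_sum P hG hc)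
    have h4 : 0 ≤ c2 / (Fintype.card L : ℝ) := div_nonneg (by linarith) hcard.le
    refine le_trans ?_ h1
    rw [hk]
    exact mul_le_mul (mul_le_mul_of_nonneg_left h2 h4) h3 (by norm_num)
      (mul_nonneg h4 (by linarith))
  have hE : ∀ l', Av (fun l => (P.e {P.u l} (P.u l')) ^ s) * (c2 * (99 / 1000)) ≤
      EE q (fun g => (P.e g (P.u l')) ^ s) := by
    intro l'
    have h1 : ∑ l : L, wt q {P.u l} * (P.e {P.u l} (P.u l')) ^ s ≤
        EE q (fun g => (P.e g (P.u l')) ^ s) := by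
      unfold EE
      have hinj : Function.Injective (fun l : L => ({P.u l} : Finset ι)) := by
        intro a b hab
        exact P.u_inj (Finset.singleton_injective hab)
      calc ∑ l : L, wt q {P.u l} * (P.e {P.u l} (P.u l')) ^ s
          = ∑ F ∈ Finset.univ.map ⟨fun l : L => ({P.u l} : Finset ι), hinj⟩,
              wt q F * (P.e F (P.u l')) ^ s := by
            rw [Finset.sum_map]
            rfl
        _ ≤ ∑ F : Finset ι, wt q F * (P.e F (P.u l')) ^ s :=
            Finset.sum_le_sum_of_subset_of_nonneg (Finset.subset_univ _) fun F _ _ =>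
              mul_nonneg (wt_nonneg hG.nonneg F) (Real.rpow_nonneg (P4b_e_nonneg P F _) s)
    refine le_trans ?_ h1
    have h2 : ∑ l : L, k * (P.e {P.u l} (P.u l')) ^ s ≤
        ∑ l : L, wt q {P.u l} * (P.e {P.u l} (P.u l')) ^ s :=
      Finset.sum_le_sum fun l _ => mul_le_mul_of_nonneg_right (hw l)
        (Real.rpow_nonneg (P4b_e_nonneg P _ _) s)
    refine le_trans (le_of_eq ?_) h2
    rw [← Finset.mul_sum, hk]
    unfold Av
    field_simp
    ring
  set B : ℝ := Av (fun l => Av fun l' => (P.e {P.u l} (P.u l')) ^ s) with hB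
  have hB0 : 0 ≤ B := P4b_Av_nonneg fun l => P4b_Av_nonneg fun l' =>
      Real.rpow_nonneg (P4b_e_nonneg P _ _) s
  have h5 : B * (c2 * (99 / 1000)) ≤ Av (fun l => EE q fun g => (P.e g (P.u l)) ^ s) := by
    rw [hB, P4b_Av_comm, mul_comm, ← P4b_Av_mul]
    refine P4b_Av_mono fun l' => ?_
    rw [mul_comm]
    exact hE l'
  have h6 : c2 * (B * (c2 * (99 / 1000))) ≤ P.Er q s :=
    le_trans (mul_le_mul_of_nonneg_left h5 (by linarith)) (P4b_Er_ge P hG hβ s)
  have h7 : 1 / 4 ≤ c2 * c2 := by nlinarith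
  have h8 : 1 / 4 * (99 / 1000 * B) ≤ c2 * c2 * (99 / 1000 * B) :=
    mul_le_mul_of_nonneg_right h7 (by positivity)
  nlinarith

/-- The small part of a gadget: with `qs = q 1(D {p} < t/1024)`,
`EE qs min(1, 2050 D g / t) ≤ 4510 h_t + 20500 Er / t^s`.
`EE_subadd` with `f g = min 1 (2050 D g / t)`, `a p = min 1 (2050 D{p} / t)`,
`ε g p = (2050 e g p / t)^s`; `∑ qs p a p ≤ (2050 / t) ∑ q p min(D{p}, t) ≤ (2050 / t) (11/5) t h_t`
(`law`, `D {pr l l'} = r l l' ≤ d l`); `2050^s ≤ 2050`, `exp(11/5) ≤ 10`. -/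
theorem small_part (hG : Gad P q c2 β ρ) (hc2 : 0 ≤ c2) (hβ : 0 ≤ β) (hc : c2 + β ≤ 11 / 5)
    {t : ℝ} (ht : 0 < t) (s : ℝ) (hs : 0 < s) (hs1 : s ≤ 1) :
    EE (fun p => if P.D {p} < t / 1024 then q p else 0) (fun g => min 1 (2050 * P.D g / t)) ≤
      4510 * P.hh t + 20500 * P.Er q s / t ^ s := by
  have h0 : ∀ c, 0 ≤ (if P.D {c} < t / 1024 then q c else 0) := by
    intro c
    split_ifs
    · exact hG.nonneg c
    · exact le_refl _
  have h1 : ∀ c, (if P.D {c} < t / 1024 then q c else 0) ≤ q c := by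
    intro c
    split_ifs
    · exact le_refl _
    · exact hG.nonneg c
  have hnn : ∀ x : ℝ, 0 ≤ x → 0 ≤ 2050 * x / t := fun x hx =>
    div_nonneg (mul_nonneg (by norm_num) hx) ht.le
  have hsub := EE_subadd q (fun p => if P.D {p} < t / 1024 then q p else 0) h0 h1
    (fun g => min 1 (2050 * P.D g / t)) (fun p => min 1 (2050 * P.D {p} / t))
    (fun g p => (2050 * P.e g p / t) ^ s)
    (fun p => le_min zero_le_one (hnn _ (P.D_nonneg _)))
    (fun g p => Real.rpow_nonneg (hnn _ (P4b_e_nonneg P _ _)) s)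
    (by
      show min 1 (2050 * P.M ∅ ∅ / t) = 0
      rw [P.empty]
      simp)
    (by
      intro g p _
      have hD : P.D (insert p g) ≤ P.D g + P.D {p} + P.e g p := by
        have := le_abs_self (P.M (insert p g) (insert p g) - P.M g g - P.M {p} {p})
        unfold PF.D PF.e
        linarith
      have hD2 : 2050 * P.D (insert p g) / t ≤
          2050 * P.D g / t + 2050 * P.D {p} / t + 2050 * P.e g p / t := by
        rw [← add_div, ← add_div]
        exact div_le_div_of_nonneg_right (by linarith) ht.le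
      calc min 1 (2050 * P.D (insert p g) / t)
          ≤ min 1 (2050 * P.D g / t + 2050 * P.D {p} / t + 2050 * P.e g p / t) :=
            min_le_min_left _ hD2
        _ ≤ min 1 (2050 * P.D g / t) + min 1 (2050 * P.D {p} / t) +
              min 1 (2050 * P.e g p / t) :=
            P4b_min_add (hnn _ (P.D_nonneg _)) (hnn _ (P.D_nonneg _))
              (hnn _ (P4b_e_nonneg P _ _))
        _ ≤ _ := by
            have := P4b_min_rpow (hnn _ (P4b_e_nonneg P g p)) hs hs1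
            linarith)
  have hA : ∑ p, (if P.D {p} < t / 1024 then q p else 0) * min 1 (2050 * P.D {p} / t) ≤
      4510 * P.hh t := by
    have hB : ∀ p ∈ (Finset.univ : Finset ι),
        (if P.D {p} < t / 1024 then q p else 0) * min 1 (2050 * P.D {p} / t) ≤
        2050 / t * (q p * min (P.D {p}) t) := by
      intro p _
      split_ifs with hp
      · have e1 : min (P.D {p}) t = P.D {p} := by
          refine min_eq_left (le_trans hp.le ?_)
          linarith
        rw [e1]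
        have := mul_le_mul_of_nonneg_left (min_le_right 1 (2050 * P.D {p} / t)) (hG.nonneg p)
        refine le_trans this (le_of_eq ?_)
        ring
      · rw [zero_mul]
        exact mul_nonneg (by positivity)
          (mul_nonneg (hG.nonneg p) (le_min (P.D_nonneg _) ht.le))
    refine le_trans (Finset.sum_le_sum hB) ?_
    rw [← Finset.mul_sum]
    have := mul_le_mul_of_nonneg_left (P4b_min_law P hG hc2 hβ hc ht)
      (show (0 : ℝ) ≤ 2050 / t by positivity)
    refine le_trans this (le_of_eq ?_)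
    field_simp
    ring
  have hB : ∑ p, q p * EE q (fun g => (2050 * P.e g p / t) ^ s) ≤ 2050 * P.Er q s / t ^ s := by
    have e1 : ∑ p, q p * EE q (fun g => (2050 * P.e g p / t) ^ s) =
        (2050 ^ s / t ^ s) * P.Er q s := by
      unfold PF.Er
      rw [Finset.mul_sum]
      refine Finset.sum_congr rfl fun p _ => ?_
      have e2 : EE q (fun g => (2050 * P.e g p / t) ^ s) =
          (2050 ^ s / t ^ s) * EE q (fun g => (P.e g p) ^ s) := by
        rw [← EE_mul_left]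
        refine congrArg (EE q) (funext fun g => ?_)
        rw [Real.div_rpow (mul_nonneg (by norm_num) (P4b_e_nonneg P _ _)) ht.le,
          Real.mul_rpow (by norm_num) (P4b_e_nonneg P _ _)]
        ring
      rw [e2]
      ring
    rw [e1]
    have h2 : (2050 : ℝ) ^ s ≤ 2050 := by
      calc (2050 : ℝ) ^ s ≤ 2050 ^ (1 : ℝ) :=
            Real.rpow_le_rpow_of_exponent_le (by norm_num) hs1
        _ = 2050 := Real.rpow_one _
    have h3 : 0 < t ^ s := Real.rpow_pos_of_pos ht s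
    have h4 : 0 ≤ P.Er q s := P4b_Er_nonneg P hG s
    calc (2050 ^ s / t ^ s) * P.Er q s = 2050 ^ s * (P.Er q s / t ^ s) := by ring
      _ ≤ 2050 * (P.Er q s / t ^ s) :=
          mul_le_mul_of_nonneg_right h2 (div_nonneg h4 h3.le)
      _ = 2050 * P.Er q s / t ^ s := by ring
  have hB0 : 0 ≤ ∑ p, q p * EE q (fun g => (2050 * P.e g p / t) ^ s) :=
    Finset.sum_nonneg fun p _ => mul_nonneg (hG.nonneg p) (EE_nonneg hG.nonneg fun g =>
      Real.rpow_nonneg (hnn _ (P4b_e_nonneg P _ _)) s)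
  have hC := mul_le_mul (P4b_exp_sum P hG hc) hB hB0 (by norm_num)
  refine le_trans hsub ?_
  refine le_trans (add_le_add hA hC) (le_of_eq ?_)
  ring

/-- Total intensity of the big pieces: `∑ q p 1(D{p} ≥ t/1024) ≤ (1024 / t) ∑ q p min(D{p}, t) ≤
1024 (11/5) h_t ≤ 2253 h_t`. -/
theorem big_mass (hG : Gad P q c2 β ρ) (hc2 : 0 ≤ c2) (hβ : 0 ≤ β) (hc : c2 + β ≤ 11 / 5)
    {t : ℝ} (ht : 0 < t) :
    ∑ p, (if P.D {p} < t / 1024 then 0 else q p) ≤ 2253 * P.hh t := by
  have hB : ∀ p ∈ (Finset.univ : Finset ι),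
      (if P.D {p} < t / 1024 then 0 else q p) ≤ 1024 / t * (q p * min (P.D {p}) t) := by
    intro p _
    split_ifs with hp
    · exact mul_nonneg (by positivity)
          (mul_nonneg (hG.nonneg p) (le_min (P.D_nonneg _) ht.le))
    · have h1 : t / 1024 ≤ min (P.D {p}) t := le_min (not_lt.1 hp) (by linarith)
      calc q p = 1024 / t * (q p * (t / 1024)) := by field_simp
        _ ≤ _ := mul_le_mul_of_nonneg_left (mul_le_mul_of_nonneg_left h1 (hG.nonneg p))
            (by positivity)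
  refine le_trans (Finset.sum_le_sum hB) ?_
  rw [← Finset.mul_sum]
  have := mul_le_mul_of_nonneg_left (P4b_min_law P hG hc2 hβ hc ht)
    (show (0 : ℝ) ≤ 1024 / t by positivity)
  refine le_trans this ?_
  have e : 1024 / t * (11 / 5 * (t * P.hh t)) = 11264 / 5 * P.hh t := by
    field_simp
    ring
  rw [e]
  exact mul_le_mul_of_nonneg_right (by norm_num) (P4b_hh_nonneg P ht)

/-- `De t ≤ h_t`. -/
theorem De_le {t : ℝ} (ht : 0 < t) : P.De t ≤ P.hh t := by
  have e : P.hh t = Av (fun l => min (P.d l) t / t) := by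
    unfold PF.hh Av
    rw [← Finset.sum_div, div_right_comm]
  rw [e]
  unfold PF.De
  refine P4b_Av_mono fun l => ?_
  split_ifs with h
  · rw [min_eq_right h.1, div_self ht.ne']
  · exact div_nonneg (le_min (P4b_d_nonneg P l) ht.le) ht.le

end Pool.Agent.Lib.MP_9cae81_PC
end
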