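import Pool.Agent.Lib.MP_9cae81_PC.Mg.G001
import Pool.Agent.Lib.MP_9cae81_PC.Defs
import Pool.Agent.Lib.MP_9cae81_PC.Mg.G003
import Pool.Agent.Lib.MP_9cae81_R.Mg.G009
import Pool.Agent.Lib.MP_9cae81_R.Mg.G010

section

/-!
# Block A1, A2: stationarity of `En` under a unit clause, a 2-clause and a random gadget
-/

set_option autoImplicit false

open Finset Filter
open scoped BigOperators Topology

namespace Pool.Agent.Lib.MP_9cae81_PC

open Pool.Agent.Lib.MP_9cae81_R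

/-! ### Models and the clause operations -/

section models

variable {V : Type} [DecidableEq V]

theorem Md_insert_cu (F : Finset (Cl V)) (a : Lt V) : Md (insert (cu a) F) = Md F ∩ lit a := by
  ext σ
  simp only [Md, lit, Set.mem_ofPred_eq, Set.mem_inter_iff, Finset.mem_insert, forall_eq_or_imp]
  rw [and_comm]
  rfl

theorem Md_insert_cp (F : Finset (Cl V)) (a b : Lt V) :
    Md (insert (cp a b) F) = Md F ∩ (lit a ∪ lit b) := by
  ext σ
  simp only [Md, lit, Set.mem_ofPred_eq, Set.mem_inter_iff, Set.mem_union, Finset.mem_insert,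
    forall_eq_or_imp]
  rw [and_comm]
  rfl

theorem Md_insert_ct (F : Finset (Cl V)) (a b c : Lt V) :
    Md (insert (ct a b c) F) = Md F ∩ (lit a ∪ lit b ∪ lit c) := by
  ext σ
  simp only [Md, lit, Set.mem_ofPred_eq, Set.mem_inter_iff, Set.mem_union, Finset.mem_insert,
    forall_eq_or_imp]
  rw [and_comm, or_assoc]
  rfl

theorem Md_union (F G : Finset (Cl V)) : Md (F ∪ G) = Md F ∩ Md G := by
  ext σ
  simp only [Md, Set.mem_ofPred_eq, Set.mem_inter_iff, Finset.mem_union]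
  constructor
  · intro h
    exact ⟨fun c hc => h c (Or.inl hc), fun c hc => h c (Or.inr hc)⟩
  · rintro ⟨h1, h2⟩ c (hc | hc)
    · exact h1 c hc
    · exact h2 c hc

omit [DecidableEq V] in
theorem Md_empty : Md (∅ : Finset (Cl V)) = Set.univ := by
  ext σ; simp [Md]

omit [DecidableEq V] in
theorem una_Md (F : Finset (Cl V)) : una (Md F) = un F := by
  unfold una un SatF
  by_cases h : ∃ σ : V → Bool, ∀ c ∈ F, clT σ c
  · have h2 : Md F ≠ ∅ := by
      obtain ⟨σ, hσ⟩ := h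
      exact Set.nonempty_iff_ne_empty.1 ⟨σ, hσ⟩
    rw [if_neg h2, if_pos h]
  · have h2 : Md F = ∅ := by
      ext σ
      simp only [Md, Set.mem_ofPred_eq, Set.mem_empty_iff_false, iff_false]
      exact fun hσ => h ⟨σ, hσ⟩
    rw [if_pos h2, if_neg h]

end models

section

variable {V : Type} [Fintype V] [DecidableEq V]

theorem P1_Md (h : As V → ℝ) (F : Finset (Cl V)) :
    P1 h (Md F) = (∑ a : Lt V, h (Md (insert (cu a) F))) / (Fintype.card (Lt V) : ℝ) := by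
  simp only [Md_insert_cu]
  rfl

theorem P2_Md (h : As V → ℝ) (F : Finset (Cl V)) :
    P2 h (Md F) = (∑ p : Lt V × Lt V, h (Md (insert (cp p.1 p.2) F))) /
      (Fintype.card (Lt V) : ℝ) ^ 2 := by
  simp only [Md_insert_cp]
  rw [Fintype.sum_prod_type]
  rfl

end

/-! ### Elementary facts on the parameters -/

theorem LN_ge_one {N : ℕ} (hN : 1 ≤ N) : 1 ≤ LN N := by
  unfold LN
  exact Real.one_le_rpow (by exact_mod_cast hN) (by norm_num)

theorem LN_le {N : ℕ} (hN : 1 ≤ N) : LN N ≤ N := by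
  unfold LN
  have h1 : (1 : ℝ) ≤ N := by exact_mod_cast hN
  calc (N : ℝ) ^ (1 / 10 : ℝ) ≤ (N : ℝ) ^ (1 : ℝ) :=
        Real.rpow_le_rpow_of_exponent_le h1 (by norm_num)
    _ = N := Real.rpow_one _

theorem Iu_pos {N : ℕ} (hN : 1 ≤ N) : 0 < Iu N := by
  unfold Iu
  have h1 := LN_ge_one hN
  have h2 : (0 : ℝ) < N := by exact_mod_cast hN
  positivity

theorem Iv_pos {N : ℕ} (hN : 1 ≤ N) {x : ℝ} (hx : 0 < x) : 0 < Iv N x := by
  unfold Iv
  have h2 : (0 : ℝ) < N := by exact_mod_cast hN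
  positivity

theorem Iv_nonneg (N : ℕ) {x : ℝ} (hx : 0 ≤ x) : 0 ≤ Iv N x := by
  unfold Iv; positivity

theorem Iw_nonneg (N : ℕ) {y : ℝ} (hy : 0 ≤ y) : 0 ≤ Iw N y := by
  unfold Iw; positivity

/-- The exponentially small term. -/
noncomputable def ta (N : ℕ) (η : ℝ) : ℝ :=
  (1 + 16 * N) * (2 * Real.exp (-(η ^ 2 * LN N / 64)))

theorem ta_nonneg (N : ℕ) (η : ℝ) : 0 ≤ ta N η := by unfold ta; positivity

theorem tl_unit_le {n N : ℕ} (hN : 1 ≤ N) (hn : N ≤ 2 * n) {η : ℝ} :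
    tl (Fintype.card (Lt (Fin n))) (Iu N) η ≤ ta N η := by
  have hN' : (1 : ℝ) ≤ N := by exact_mod_cast hN
  have h1 := LN_ge_one hN
  have h2 := LN_le hN
  refine le_trans (tl_unit_explicit hN hn h1 (by linarith)) ?_
  unfold ta
  refine mul_le_mul (by linarith) ?_ (by positivity) (by positivity)
  refine mul_le_mul_of_nonneg_left (Real.exp_le_exp.2 ?_) (by norm_num)
  have : 0 ≤ η ^ 2 * LN N := by positivity
  linarith

theorem tl_pair_le {n N : ℕ} (hN : 1 ≤ N) (hn : N ≤ 2 * n) {x η : ℝ} (hx : 1 / 2 ≤ x)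
    (hx1 : x ≤ 4 * N) :
    tl ((Fintype.card (Lt (Fin n)) : ℝ) ^ 2) (Iv N x) η ≤ ta N η := by
  have h2 := LN_le hN
  refine le_trans (tl_pair_explicit hN hn hx hx1) ?_
  unfold ta
  refine mul_le_mul_of_nonneg_left ?_ (by positivity)
  refine mul_le_mul_of_nonneg_left (Real.exp_le_exp.2 ?_) (by norm_num)
  have : η ^ 2 * LN N ≤ η ^ 2 * N := mul_le_mul_of_nonneg_left h2 (by positivity)
  linarith

/-! ### A1 -/

section A1

variable {N n : ℕ} {x y η : ℝ}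

/-- Stationarity under a uniform unit clause. -/
theorem En_P1_stat (hN : 1 ≤ N) (hn : N ≤ 2 * n) (hx : 0 ≤ x) (hy : 0 ≤ y)
    (h0 : 0 ≤ η) (h1 : η ≤ 1) {h : As (Fin n) → ℝ} {Hb : ℝ} (hb : ∀ S, |h S| ≤ Hb) :
    |En N x y n (P1 h) - En N x y n h| ≤ η * En N x y n (fun S => |h S|) + Hb * ta N η := by
  have hn1 : 1 ≤ n := by omega
  have : Nonempty (Fin n) := ⟨⟨0, hn1⟩⟩
  have key := P1_stat (V := Fin n) (u := Iu N) (v := Iv N x) (w := Iw N y) (Iu_pos hN)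
    (Iv_nonneg N hx) (Iw_nonneg N hy) h0 h1 (h := fun F => h (Md F)) (Hb := Hb)
    (fun F => hb _)
  have hHb : 0 ≤ Hb := le_trans (abs_nonneg _) (hb Set.univ)
  have e1 : En N x y n (P1 h) = EE (qq (Iu N) (Iv N x) (Iw N y)) (fun F =>
      (∑ a : Lt (Fin n), h (Md (insert (cu a) F))) / (Fintype.card (Lt (Fin n)) : ℝ)) := by
    unfold En
    congr 1
    funext F
    exact P1_Md h F
  rw [e1]
  refine le_trans key ?_
  have := mul_le_mul_of_nonneg_left (tl_unit_le (η := η) hN hn) hHb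
  exact add_le_add (le_refl _) this

/-- Stationarity under a uniform 2-clause. -/
theorem En_P2_stat (hN : 1 ≤ N) (hn : N ≤ 2 * n) (hx : 1 / 2 ≤ x) (hx1 : x ≤ 4 * N) (hy : 0 ≤ y)
    (h0 : 0 ≤ η) (h1 : η ≤ 1) {h : As (Fin n) → ℝ} {Hb : ℝ} (hb : ∀ S, |h S| ≤ Hb) :
    |En N x y n (P2 h) - En N x y n h| ≤ η * En N x y n (fun S => |h S|) + Hb * ta N η := by
  have hn1 : 1 ≤ n := by omega
  have : Nonempty (Fin n) := ⟨⟨0, hn1⟩⟩
  have hx0 : 0 < x := by linarith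
  have key := P2_stat (V := Fin n) (u := Iu N) (v := Iv N x) (w := Iw N y) (Iu_pos hN).le
    (Iv_pos hN hx0) (Iw_nonneg N hy) h0 h1 (h := fun F => h (Md F)) (Hb := Hb)
    (fun F => hb _)
  have hHb : 0 ≤ Hb := le_trans (abs_nonneg _) (hb Set.univ)
  have e1 : En N x y n (P2 h) = EE (qq (Iu N) (Iv N x) (Iw N y)) (fun F =>
      (∑ p : Lt (Fin n) × Lt (Fin n), h (Md (insert (cp p.1 p.2) F))) /
        (Fintype.card (Lt (Fin n)) : ℝ) ^ 2) := by
    unfold En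
    congr 1
    funext F
    exact P2_Md h F
  rw [e1]
  refine le_trans key ?_
  have := mul_le_mul_of_nonneg_left (tl_pair_le (η := η) hN hn hx hx1) hHb
  exact add_le_add (le_refl _) this

/-! ### A2 -/

/-- Mean number of clauses of a gadget is at most `10`. -/
theorem gadget_mean (hN : 1 ≤ N) (hn2 : n ≤ 2 * N) (hx : 0 ≤ x) (hx1 : x ≤ 1) (hy : 0 ≤ y)
    (hy1 : y ≤ 1) {τ : ℝ} (hτ0 : 0 ≤ τ) (hτ : τ ≤ 1) :
    0 ≤ τ * (2 * Iv N x + 3 * Iw N y) * Fintype.card (Lt (Fin n)) +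
        τ * (3 * Iw N y) * (Fintype.card (Lt (Fin n)) : ℝ) ^ 2 ∧
    τ * (2 * Iv N x + 3 * Iw N y) * Fintype.card (Lt (Fin n)) +
        τ * (3 * Iw N y) * (Fintype.card (Lt (Fin n)) : ℝ) ^ 2 ≤ 10 := by
  have hN' : (1 : ℝ) ≤ N := by exact_mod_cast hN
  have hn' : (n : ℝ) ≤ 2 * N := by exact_mod_cast hn2
  have hn0 : (0 : ℝ) ≤ n := Nat.cast_nonneg n
  rw [card_Lt]
  unfold Iv Iw
  constructor
  · positivity
  · have e : τ * (2 * (x / (4 * N)) + 3 * (y / (8 * (N : ℝ) ^ 2))) * (2 * n) +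
        τ * (3 * (y / (8 * (N : ℝ) ^ 2))) * (2 * (n : ℝ)) ^ 2 =
        τ * (x * (n / N) + (3 / 4) * y * (n / N) * (1 / N) + (3 / 2) * y * (n / N) ^ 2) := by
      field_simp
      ring
    rw [e]
    have h1 : (n : ℝ) / N ≤ 2 := by rw [div_le_iff₀ (by linarith)]; exact hn'
    have h2 : 0 ≤ (n : ℝ) / N := by positivity
    have h3 : (1 : ℝ) / N ≤ 1 := by rw [div_le_one (by linarith)]; exact hN'
    have h4 : 0 ≤ (1 : ℝ) / N := by positivity
    have a1 : x * (n / N) ≤ 1 * 2 := mul_le_mul hx1 h1 h2 (by norm_num)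
    have a2 : (3 / 4) * y * (n / N) * (1 / N) ≤ (3 / 4) * 1 * 2 * 1 := by gcongr
    have a3 : (3 / 2) * y * (n / N) ^ 2 ≤ (3 / 2) * 1 * 2 ^ 2 := by gcongr
    have b0 : 0 ≤ x * (n / N) + (3 / 4) * y * (n / N) * (1 / N) + (3 / 2) * y * (n / N) ^ 2 := by
      positivity
    calc τ * (x * (n / N) + (3 / 4) * y * (n / N) * (1 / N) + (3 / 2) * y * (n / N) ^ 2)
        ≤ 1 * (x * (n / N) + (3 / 4) * y * (n / N) * (1 / N) + (3 / 2) * y * (n / N) ^ 2) :=
          mul_le_mul_of_nonneg_right hτ b0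
      _ ≤ 10 := by linarith

/-- **Batch stationarity**: adding a random gadget. -/
theorem En_batch (hN : 1 ≤ N) (hn : N ≤ 2 * n) (hn2 : n ≤ 2 * N) (hx : 1 / 2 ≤ x) (hx1 : x ≤ 1)
    (hy : 0 ≤ y) (hy1 : y ≤ 1) {τ : ℝ} (hτ0 : 0 ≤ τ) (hτ : τ ≤ 1)
    (h0 : 0 ≤ η) (h1 : η ≤ 1) {h : As (Fin n) → ℝ} {Hb : ℝ} (hnn : ∀ S, 0 ≤ h S)
    (hb : ∀ S, h S ≤ Hb) :
    En N x y n (fun S => GA (Iv N x) (Iw N y) τ (fun A => h (S ∩ A))) ≤
        Real.exp (10 * η) * (En N x y n h + 10 * (Hb * ta N η)) ∧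
      En N x y n h ≤ Real.exp (10 * η) *
        (En N x y n (fun S => GA (Iv N x) (Iw N y) τ (fun A => h (S ∩ A))) +
          10 * (Hb * ta N η)) := by
  have hn1 : 1 ≤ n := by omega
  have : Nonempty (Fin n) := ⟨⟨0, hn1⟩⟩
  have hx0 : 0 < x := by linarith
  have hv := Iv_pos hN hx0
  have hw := Iw_nonneg N hy
  have hHb : 0 ≤ Hb := le_trans (hnn ∅) (hb ∅)
  have key := batch_stat (V := Fin n) (u := Iu N) (v := Iv N x) (w := Iw N y)
    (a := τ * (2 * Iv N x + 3 * Iw N y)) (b := τ * (3 * Iw N y)) (Iu_pos hN) hv hw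
    (by positivity) (by positivity) h0 h1 (h := fun F => h (Md F)) (Hb := Hb)
    (c1 := τ * (2 * Iv N x + 3 * Iw N y) * Fintype.card (Lt (Fin n)))
    (c2 := τ * (3 * Iw N y) * (Fintype.card (Lt (Fin n)) : ℝ) ^ 2) (τ := ta N η) rfl rfl
    (tl_unit_le hN hn) (tl_pair_le hN hn hx (by
      have : (1 : ℝ) ≤ N := by exact_mod_cast hN
      linarith)) (fun F => hnn _) (fun F => hb _)
  obtain ⟨m0, m1⟩ := gadget_mean (n := n) hN hn2 hx0.le hx1 hy hy1 hτ0 hτ
  set c := τ * (2 * Iv N x + 3 * Iw N y) * Fintype.card (Lt (Fin n)) +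
        τ * (3 * Iw N y) * (Fintype.card (Lt (Fin n)) : ℝ) ^ 2 with hc
  have e1 : En N x y n (fun S => GA (Iv N x) (Iw N y) τ (fun A => h (S ∩ A))) =
      EE (qq (Iu N) (Iv N x) (Iw N y)) (fun F =>
        EE (qq (τ * (2 * Iv N x + 3 * Iw N y)) (τ * (3 * Iw N y)) 0) (fun A => h (Md (F ∪ A)))) := by
    unfold En GA gq
    simp only [Md_union]
  have e2 : En N x y n h = EE (qq (Iu N) (Iv N x) (Iw N y)) (fun F => h (Md F)) := rfl
  rw [e1, e2]
  have hq : ∀ c, 0 ≤ qq (V := Fin n) (Iu N) (Iv N x) (Iw N y) c :=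
    qq_nonneg (Iu_pos hN).le hv.le hw
  have hq2 : ∀ c, 0 ≤ qq (V := Fin n) (τ * (2 * Iv N x + 3 * Iw N y)) (τ * (3 * Iw N y)) 0 c :=
    qq_nonneg (by positivity) (by positivity) le_rfl
  have p1 : 0 ≤ EE (qq (Iu N) (Iv N x) (Iw N y)) (fun F : Finset (Cl (Fin n)) => h (Md F)) :=
    EE_nonneg hq fun F => hnn _
  have p2 : 0 ≤ EE (qq (Iu N) (Iv N x) (Iw N y)) (fun F : Finset (Cl (Fin n)) =>
        EE (qq (τ * (2 * Iv N x + 3 * Iw N y)) (τ * (3 * Iw N y)) 0) (fun A => h (Md (F ∪ A)))) :=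
    EE_nonneg hq fun F => EE_nonneg hq2 fun A => hnn _
  have p3 : 0 ≤ Hb * ta N η := mul_nonneg hHb (ta_nonneg N η)
  have hE : Real.exp (c * η) ≤ Real.exp (10 * η) :=
    Real.exp_le_exp.2 (mul_le_mul_of_nonneg_right m1 h0)
  have hT : c * (Hb * ta N η) ≤ 10 * (Hb * ta N η) := mul_le_mul_of_nonneg_right m1 p3
  constructor
  · refine le_trans key.1 ?_
    exact mul_le_mul hE (by linarith) (by positivity) (Real.exp_pos _).le
  · refine le_trans key.2 ?_
    exact mul_le_mul hE (by linarith) (by positivity) (Real.exp_pos _).le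

end A1

/-- The exponentially small term beats every power: `N^k * ta N (N^(-1/40)) → 0`. -/
theorem ta_tendsto (k : ℕ) :
    Tendsto (fun N : ℕ => (N : ℝ) ^ k * ta N ((N : ℝ) ^ (-(1 / 40) : ℝ))) atTop (𝓝 0) := by
  -- `η² L = N^(1/20)`
  have hr : Tendsto (fun t : ℝ => t ^ (20 * (k + 1)) * Real.exp (-((1 / 64) * t))) atTop (𝓝 0) := by
    have := Real.tendsto_pow_mul_exp_neg_atTop_nhds_zero (20 * (k + 1))
    have h2 := this.comp (tendsto_id.const_mul_atTop (show (0 : ℝ) < 1 / 64 by norm_num))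
    have h3 := h2.const_mul ((64 : ℝ) ^ (20 * (k + 1)))
    rw [mul_zero] at h3
    refine h3.congr fun t => ?_
    simp only [Function.comp, id]
    rw [mul_pow, ← mul_assoc, ← mul_assoc, ← mul_pow]
    norm_num
  have hs : Tendsto (fun N : ℕ => (N : ℝ) ^ (1 / 20 : ℝ)) atTop atTop :=
    (tendsto_rpow_atTop (by norm_num)).comp tendsto_natCast_atTop_atTop
  have h4 := (hr.comp hs).const_mul 34
  rw [mul_zero] at h4
  refine squeeze_zero' (Eventually.of_forall fun N => by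
    have := ta_nonneg N ((N : ℝ) ^ (-(1 / 40) : ℝ)); positivity) ?_ h4
  filter_upwards [eventually_ge_atTop 1] with N hN
  have hN' : (1 : ℝ) ≤ N := by exact_mod_cast hN
  have hN0 : (0 : ℝ) < N := by linarith
  simp only [Function.comp]
  unfold ta LN
  have e1 : ((N : ℝ) ^ (-(1 / 40) : ℝ)) ^ 2 * (N : ℝ) ^ (1 / 10 : ℝ) = (N : ℝ) ^ (1 / 20 : ℝ) := by
    rw [← Real.rpow_natCast ((N : ℝ) ^ (-(1 / 40) : ℝ)) 2, ← Real.rpow_mul hN0.le,
      ← Real.rpow_add hN0]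
    norm_num
  rw [e1]
  have e2 : ((N : ℝ) ^ (1 / 20 : ℝ)) ^ (20 * (k + 1)) = (N : ℝ) ^ (k + 1) := by
    rw [← Real.rpow_natCast, ← Real.rpow_mul hN0.le, ← Real.rpow_natCast]
    congr 1
    push_cast; ring
  rw [e2]
  have e3 : (N : ℝ) ^ (1 / 20 : ℝ) / 64 = 1 / 64 * (N : ℝ) ^ (1 / 20 : ℝ) := by ring
  rw [e3]
  have h5 : (N : ℝ) ^ k * (1 + 16 * N) ≤ 17 * (N : ℝ) ^ (k + 1) := by
    rw [pow_succ]
    have : 0 < (N : ℝ) ^ k := by positivity
    nlinarith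
  have h6 := Real.exp_pos (-(1 / 64 * (N : ℝ) ^ (1 / 20 : ℝ)))
  calc (N : ℝ) ^ k * ((1 + 16 * N) * (2 * Real.exp (-(1 / 64 * (N : ℝ) ^ (1 / 20 : ℝ)))))
      = (N : ℝ) ^ k * (1 + 16 * N) * 2 * Real.exp (-(1 / 64 * (N : ℝ) ^ (1 / 20 : ℝ))) := by ring
    _ ≤ 17 * (N : ℝ) ^ (k + 1) * 2 * Real.exp (-(1 / 64 * (N : ℝ) ^ (1 / 20 : ℝ))) := by
        refine mul_le_mul_of_nonneg_right ?_ h6.le
        linarith
    _ = _ := by ring

theorem ta_anti (N : ℕ) {η η' : ℝ} (h0 : 0 ≤ η) (h : η ≤ η') (hN : 1 ≤ N) :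
    ta N η' ≤ ta N η := by
  unfold ta
  refine mul_le_mul_of_nonneg_left ?_ (by positivity)
  refine mul_le_mul_of_nonneg_left (Real.exp_le_exp.2 ?_) (by norm_num)
  have h1 := LN_ge_one hN
  have h2 : η ^ 2 ≤ η' ^ 2 := pow_le_pow_left₀ h0 h 2
  have h3 : η ^ 2 * LN N ≤ η' ^ 2 * LN N := mul_le_mul_of_nonneg_right h2 (by linarith)
  linarith

/-- For fixed `η` the term `ta N η` is smaller than every power of `N`. -/
theorem ta_fixed (k : ℕ) {η : ℝ} (hη : 0 < η) :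
    Tendsto (fun N : ℕ => (N : ℝ) ^ k * ta N η) atTop (𝓝 0) := by
  have h1 : Tendsto (fun N : ℕ => (N : ℝ) ^ (-(1 / 40) : ℝ)) atTop (𝓝 0) :=
    (tendsto_rpow_neg_atTop (by norm_num)).comp tendsto_natCast_atTop_atTop
  refine squeeze_zero' (Eventually.of_forall fun N => by
    have := ta_nonneg N η; positivity) ?_ (ta_tendsto k)
  filter_upwards [h1.eventually_le_const hη, eventually_ge_atTop 1] with N hN hN1
  exact mul_le_mul_of_nonneg_left (ta_anti N (by positivity) hN hN1) (by positivity)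

/-- For fixed `η` and `K`, `K * ta N η ≤ N^(-3)` for large `N`. -/
theorem ta_eventually (K : ℝ) {η : ℝ} (hη : 0 < η) :
    ∀ᶠ N : ℕ in atTop, K * ta N η ≤ ((N : ℝ) ^ 3)⁻¹ := by
  have h := (ta_fixed 3 hη).const_mul K
  rw [mul_zero] at h
  filter_upwards [h.eventually_le_const (show (0 : ℝ) < 1 by norm_num),
    eventually_ge_atTop 1] with N hN hN1
  have h0 : (0 : ℝ) < N := by exact_mod_cast hN1
  rw [← one_div, le_div_iff₀ (by positivity)]
  linarith

end Pool.Agent.Lib.MP_9cae81_PC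
end

section

/-!
# Block A1: adding one random clause (or a batch) does not change the law much
-/

set_option autoImplicit false

open Finset Filter
open scoped BigOperators Topology

namespace Pool.Agent.Lib.MP_9cae81_PC

open Pool.Agent.Lib.MP_9cae81_R


/-- Adding a random unit clause: exact identity `E[N₁ h] = M₁ E[P₁ h]` and concentration of the
number `N₁` of unit clauses (`EE_stat` of `Stat`).  Here `η` is fixed and the error term is
exponentially small in `L_N`. -/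
theorem A1_unit {x Y : ℝ} (hx : 0 ≤ x) (C : Cen x Y) {η : ℝ} (hη : 0 < η) (hη1 : η ≤ 1) :
    ∀ᶠ k in atTop,
    ∀ n : ℕ, C.N k ≤ 2 * n → n ≤ 2 * C.N k → ∀ h : As (Fin n) → ℝ, (∀ S, |h S| ≤ 1) →
      |En (C.N k) x (C.y k) n (P1 h) - En (C.N k) x (C.y k) n h| ≤
        η * En (C.N k) x (C.y k) n (fun S => |h S|) + ((C.N k : ℝ) ^ 3)⁻¹ := by
  filter_upwards [C.hN.eventually (ta_eventually 1 hη)] with k hk n hn _ h hb
  refine le_trans (En_P1_stat (C.N1 k) hn hx (C.y0 k) hη.le hη1 hb) ?_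
  linarith



/-- The same for a random pair clause (`x ≥ 1/2`). -/
theorem A1_pair {x Y : ℝ} (hx : 1 / 2 ≤ x) (C : Cen x Y) {η : ℝ} (hη : 0 < η) (hη1 : η ≤ 1) :
    ∀ᶠ k in atTop,
    ∀ n : ℕ, C.N k ≤ 2 * n → n ≤ 2 * C.N k → ∀ h : As (Fin n) → ℝ, (∀ S, |h S| ≤ 1) →
      |En (C.N k) x (C.y k) n (P2 h) - En (C.N k) x (C.y k) n h| ≤
        η * En (C.N k) x (C.y k) n (fun S => |h S|) + ((C.N k : ℝ) ^ 3)⁻¹ := by
  have hev : ∀ᶠ N : ℕ in atTop, x ≤ 4 * (N : ℝ) := by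
    filter_upwards [tendsto_natCast_atTop_atTop.eventually_ge_atTop x] with N hN
    have : (0 : ℝ) ≤ N := Nat.cast_nonneg N
    linarith
  filter_upwards [C.hN.eventually (ta_eventually 1 hη), C.hN.eventually hev] with k hk hk2 n hn _ h hb
  refine le_trans (En_P2_stat (C.N1 k) hn hx hk2 (C.y0 k) hη.le hη1 hb) ?_
  linarith



theorem En_sub' (N : ℕ) (x y : ℝ) (n : ℕ) (g h : As (Fin n) → ℝ) :
    En N x y n (fun S => g S - h S) = En N x y n g - En N x y n h := by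
  unfold En; exact EE_sub _ _ _

theorem GA_sub' {V : Type} [Fintype V] [DecidableEq V] (v w τ : ℝ) (g h : As V → ℝ) :
    GA v w τ (fun S => g S - h S) = GA v w τ g - GA v w τ h := by
  unfold GA; exact EE_sub _ _ _

/-- The same for a random gadget at time `τ` (`EE_union`, `EE_shift_block` of `Stat`). -/
theorem A1_batch {x Y : ℝ} (hx : 1 / 2 ≤ x) (hx1 : x ≤ 1) (hY : Y ≤ 1) (C : Cen x Y) {η : ℝ}
    (hη : 0 < η) (hη1 : η ≤ 1) : ∀ᶠ k in atTop,
    ∀ n : ℕ, C.N k ≤ 2 * n → n ≤ 2 * C.N k → ∀ h : As (Fin n) → ℝ, (∀ S, |h S| ≤ 1) →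
      ∀ τ : ℝ, 0 ≤ τ → τ ≤ 1 →
      |En (C.N k) x (C.y k) n (fun S => GA (Iv (C.N k) x) (Iw (C.N k) (C.y k)) τ
          (fun A => h (S ∩ A))) - En (C.N k) x (C.y k) n h| ≤
        η * En (C.N k) x (C.y k) n (fun S => |h S|) + ((C.N k : ℝ) ^ 3)⁻¹ := by
  filter_upwards [C.hN.eventually (ta_eventually 40 (show 0 < η / 20 by positivity))]
    with k hk n hn hn2 h hb τ hτ0 hτ
  set N := C.N k with hNdef
  set y := C.y k with hydef
  have hN1 : 1 ≤ N := C.N1 k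
  have hy0 : 0 ≤ y := C.y0 k
  have hy1 : y ≤ 1 := le_trans (C.yY k) hY
  -- nonnegative case
  have hpos : ∀ g : As (Fin n) → ℝ, (∀ S, 0 ≤ g S) → (∀ S, g S ≤ 1) →
      |En N x y n (fun S => GA (Iv N x) (Iw N y) τ (fun A => g (S ∩ A))) - En N x y n g| ≤
        η * En N x y n g + 20 * ta N (η / 20) := by
    intro g hg0 hg1
    obtain ⟨k1, k2⟩ := En_batch (η := η / 20) hN1 hn hn2 hx hx1 hy0 hy1 hτ0 hτ (by positivity)
      (by linarith) (h := g) (Hb := 1) hg0 hg1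
    set X' := En N x y n (fun S => GA (Iv N x) (Iw N y) τ (fun A => g (S ∩ A))) with hX'
    set X := En N x y n g with hX
    have hx0 : 0 ≤ x := by linarith
    have hX0 : 0 ≤ X := by
      rw [hX]; unfold En
      exact EE_nonneg (qq_nonneg (Iu_pos hN1).le (Iv_nonneg N hx0) (Iw_nonneg N hy0))
        fun F => hg0 _
    have ht : 0 ≤ ta N (η / 20) := ta_nonneg _ _
    have e1 : (10 : ℝ) * (η / 20) = η / 2 := by ring
    rw [e1] at k1 k2
    have hE : Real.exp (η / 2) ≤ 1 + η := by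
      have := exp_le_quad (t := η / 2) (by rw [abs_of_pos (by positivity)]; linarith)
      nlinarith
    have hE2 : 1 ≤ Real.exp (η / 2) := Real.one_le_exp (by positivity)
    rw [abs_le]
    constructor
    · -- `X ≤ exp(η/2) (X' + 10 ta)`
      have hE3 : Real.exp (-(η / 2)) * Real.exp (η / 2) = 1 := by
        rw [← Real.exp_add]; simp
      have hE4 : 1 - η / 2 ≤ Real.exp (-(η / 2)) := by
        have := Real.add_one_le_exp (-(η / 2)); linarith
      have h5 : Real.exp (-(η / 2)) * X ≤ X' + 10 * (1 * ta N (η / 20)) := by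
        have := mul_le_mul_of_nonneg_left k2 (Real.exp_pos (-(η / 2))).le
        rw [← mul_assoc, hE3, one_mul] at this
        exact this
      have h6 : (1 - η / 2) * X ≤ Real.exp (-(η / 2)) * X := mul_le_mul_of_nonneg_right hE4 hX0
      have h7 : 0 ≤ η * X := by positivity
      linarith
    · have h5 : Real.exp (η / 2) * (X + 10 * (1 * ta N (η / 20))) ≤
          (1 + η) * (X + 10 * (1 * ta N (η / 20))) := mul_le_mul_of_nonneg_right hE (by positivity)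
      have h6 : η * (10 * (1 * ta N (η / 20))) ≤ 1 * (10 * (1 * ta N (η / 20))) :=
        mul_le_mul_of_nonneg_right hη1 (by positivity)
      have h8 : (1 + η) * (X + 10 * (1 * ta N (η / 20))) =
          X + η * X + 10 * (1 * ta N (η / 20)) + η * (10 * (1 * ta N (η / 20))) := by ring
      linarith
  -- decompose `h = h⁺ - h⁻`
  set gp : As (Fin n) → ℝ := fun S => max (h S) 0 with hgp
  set gm : As (Fin n) → ℝ := fun S => max (-(h S)) 0 with hgm
  have p1 := hpos gp (fun S => le_max_right _ _)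
    (fun S => max_le (le_trans (le_abs_self _) (hb S)) (by norm_num))
  have p2 := hpos gm (fun S => le_max_right _ _)
    (fun S => max_le (le_trans (neg_le_abs _) (hb S)) (by norm_num))
  have hdec : ∀ S, h S = gp S - gm S := fun S => by
    simp only [hgp, hgm]
    rcases le_total (h S) 0 with h0 | h0
    · rw [max_eq_right h0, max_eq_left (by linarith)]; ring
    · rw [max_eq_left h0, max_eq_right (by linarith)]; ring
  have habs : ∀ S, |h S| = gp S + gm S := fun S => by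
    simp only [hgp, hgm]
    rcases le_total (h S) 0 with h0 | h0
    · rw [max_eq_right h0, max_eq_left (by linarith), abs_of_nonpos h0]; ring
    · rw [max_eq_left h0, max_eq_right (by linarith), abs_of_nonneg h0]; ring
  have e2 : En N x y n (fun S => GA (Iv N x) (Iw N y) τ (fun A => h (S ∩ A))) =
      En N x y n (fun S => GA (Iv N x) (Iw N y) τ (fun A => gp (S ∩ A))) -
      En N x y n (fun S => GA (Iv N x) (Iw N y) τ (fun A => gm (S ∩ A))) := by
    rw [← En_sub']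
    congr 1
    funext S
    rw [← GA_sub']
    congr 1
    funext A
    exact hdec _
  have e3 : En N x y n h = En N x y n gp - En N x y n gm := by
    rw [← En_sub']
    congr 1
    funext S
    exact hdec _
  have e4 : En N x y n (fun S => |h S|) = En N x y n gp + En N x y n gm := by
    have : (fun S => |h S|) = fun S => gp S + gm S := by funext S; exact habs S
    rw [this]
    unfold En; exact EE_add _ _ _
  rw [e2, e3, e4]
  have q1 := abs_le.1 p1
  have q2 := abs_le.1 p2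
  rw [abs_le]
  constructor <;> linarith [q1.1, q1.2, q2.1, q2.2]

end Pool.Agent.Lib.MP_9cae81_PC
end

section

/-!
# Block A3: brackets with one more clause or with a batch
-/

set_option autoImplicit false

open Finset Filter
open scoped BigOperators Topology

namespace Pool.Agent.Lib.MP_9cae81_PC

open Pool.Agent.Lib.MP_9cae81_R

theorem A3_sum {N : ℕ} {x y η : ℝ}
    (hwin : ∀ n ∈ Finset.Icc (N - MW N) (N + MW N), N ≤ 2 * n ∧ n + 1 ≤ 2 * N) (T h : Fun)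
    (H : ∀ n : ℕ, N ≤ 2 * n → n ≤ 2 * N →
      |En N x y n (T n) - En N x y n (h n)| ≤
        η * En N x y n (fun S => |h n S|) + ((N : ℝ) ^ 3)⁻¹) :
    |Br N x y T - Br N x y h| ≤ η * Br N x y (fun n S => |h n S|) +
      ((N : ℝ) ^ 3)⁻¹ * ∑ n ∈ Finset.Icc (N - MW N) (N + MW N), Wt N n := by
  unfold Br
  rw [← Finset.sum_sub_distrib, Finset.mul_sum, Finset.mul_sum, ← Finset.sum_add_distrib]
  refine (Finset.abs_sum_le_sum_abs _ _).trans (Finset.sum_le_sum fun n hn => ?_)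
  have hW : 0 ≤ Wt N n := (Real.exp_pos _).le
  have h1 := H n (hwin n hn).1 (by have := (hwin n hn).2; omega)
  rw [← mul_sub, abs_mul, abs_of_nonneg hW]
  nlinarith [mul_le_mul_of_nonneg_left h1 hW]

theorem A3_Br_abs_nonneg {x Y : ℝ} (hx : 0 ≤ x) (C : Cen x Y) (k : ℕ) (h : Fun) :
    0 ≤ Br (C.N k) x (C.y k) (fun n S => |h n S|) := by
  refine Finset.sum_nonneg fun n _ => mul_nonneg (Real.exp_pos _).le ?_
  refine EE_nonneg (fun c => qq_nonneg ?_ ?_ ?_ c) fun F => abs_nonneg _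
  · unfold Iu LN
    positivity
  · unfold Iv
    positivity
  · unfold Iw
    have := C.y0 k
    positivity

theorem A3_err {q x Y : ℝ} (hq : 0 < q) (hq1 : q < 1) (hx : 0 ≤ x) (C : Cen x Y) {ε : ℝ}
    (hε : 0 < ε) : ∀ᶠ k in atTop,
      ((C.N k : ℝ) ^ 3)⁻¹ * ∑ n ∈ Finset.Icc (C.N k - MW (C.N k)) (C.N k + MW (C.N k)),
        Wt (C.N k) n ≤ ε * mm q (C.N k) x (C.y k) := by
  filter_upwards [A2_add hq hq1 hx C (K := 1) hε] with k hk
  refine le_trans ?_ (le_trans (le_of_eq (one_mul _).symm) hk.1)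
  have h1 : (1 : ℝ) ≤ C.N k := by exact_mod_cast C.N1 k
  refine mul_le_mul_of_nonneg_right ?_ (Finset.sum_nonneg fun n _ => (Real.exp_pos _).le)
  have h2 : ((C.N k : ℝ) ^ 3)⁻¹ = (C.N k : ℝ) ^ (-(3 : ℝ)) := by
    rw [Real.rpow_neg (by linarith), show (3 : ℝ) = ((3 : ℕ) : ℝ) by norm_num, Real.rpow_natCast]
  rw [h2]
  exact Real.rpow_le_rpow_of_exponent_le h1 (by norm_num)

/-- Units and pairs.  Proof: sum `A1_unit` (`A1_pair`) with the weights over the window (`A0_window`),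
and `A2_add` for the additive errors `N^(-3)`. -/
theorem A3_unit {q x Y : ℝ} (hq : 0 < q) (hq1 : q < 1) (hx : 0 ≤ x) (C : Cen x Y) {ε : ℝ}
    (hε : 0 < ε) : ∀ᶠ k in atTop, ∀ h : Fun, B1 h →
      |Br (C.N k) x (C.y k) (fun n => P1 (h n)) - Br (C.N k) x (C.y k) h| ≤
        ε * (Br (C.N k) x (C.y k) (fun n S => |h n S|) + mm q (C.N k) x (C.y k)) := by
  filter_upwards [A1_unit hx C (lt_min hε one_pos) (min_le_right ε 1), C.hN.eventually A0_window,
    A3_err hq hq1 hx C hε] with k h1 h2 h3 h hb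
  have h4 := A3_sum h2.2.1 (fun n => P1 (h n)) h fun n hn hn' => h1 n hn hn' (h n) (hb n)
  have h5 := A3_Br_abs_nonneg hx C k h
  have h6 : min ε 1 * Br (C.N k) x (C.y k) (fun n S => |h n S|) ≤
      ε * Br (C.N k) x (C.y k) (fun n S => |h n S|) :=
    mul_le_mul_of_nonneg_right (min_le_left _ _) h5
  rw [mul_add]
  exact h4.trans (add_le_add h6 h3)

theorem A3_pair {q x Y : ℝ} (hq : 0 < q) (hq1 : q < 1) (hx : 1 / 2 ≤ x) (C : Cen x Y) {ε : ℝ}
    (hε : 0 < ε) : ∀ᶠ k in atTop, ∀ h : Fun, B1 h →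
      |Br (C.N k) x (C.y k) (fun n => P2 (h n)) - Br (C.N k) x (C.y k) h| ≤
        ε * (Br (C.N k) x (C.y k) (fun n S => |h n S|) + mm q (C.N k) x (C.y k)) := by
  have hx0 : 0 ≤ x := by linarith
  filter_upwards [A1_pair hx C (lt_min hε one_pos) (min_le_right ε 1), C.hN.eventually A0_window,
    A3_err hq hq1 hx0 C hε] with k h1 h2 h3 h hb
  have h4 := A3_sum h2.2.1 (fun n => P2 (h n)) h fun n hn hn' => h1 n hn hn' (h n) (hb n)
  have h5 := A3_Br_abs_nonneg hx0 C k h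
  have h6 : min ε 1 * Br (C.N k) x (C.y k) (fun n S => |h n S|) ≤
      ε * Br (C.N k) x (C.y k) (fun n S => |h n S|) :=
    mul_le_mul_of_nonneg_right (min_le_left _ _) h5
  rw [mul_add]
  exact h4.trans (add_le_add h6 h3)

/-- Random gadgets, at every time. -/
theorem A3_batch {q x Y : ℝ} (hq : 0 < q) (hq1 : q < 1) (hx : 1 / 2 ≤ x) (hx1 : x ≤ 1)
    (hY : Y ≤ 1) (C : Cen x Y) {ε : ℝ} (hε : 0 < ε) : ∀ᶠ k in atTop, ∀ h : Fun, B1 h →
      ∀ τ : ℝ, 0 ≤ τ → τ ≤ 1 →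
      |Br (C.N k) x (C.y k) (fun n S => GA (Iv (C.N k) x) (Iw (C.N k) (C.y k)) τ
          (fun A => h n (S ∩ A))) - Br (C.N k) x (C.y k) h| ≤
        ε * (Br (C.N k) x (C.y k) (fun n S => |h n S|) + mm q (C.N k) x (C.y k)) := by
  have hx0 : 0 ≤ x := by linarith
  filter_upwards [A1_batch hx hx1 hY C (lt_min hε one_pos) (min_le_right ε 1),
    C.hN.eventually A0_window, A3_err hq hq1 hx0 C hε] with k h1 h2 h3 h hb τ hτ hτ1
  have h4 := A3_sum h2.2.1 (fun n S => GA (Iv (C.N k) x) (Iw (C.N k) (C.y k)) τ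
    (fun A => h n (S ∩ A))) h fun n hn hn' => h1 n hn hn' (h n) (hb n) τ hτ hτ1
  have h5 := A3_Br_abs_nonneg hx0 C k h
  have h6 : min ε 1 * Br (C.N k) x (C.y k) (fun n S => |h n S|) ≤
      ε * Br (C.N k) x (C.y k) (fun n S => |h n S|) :=
    mul_le_mul_of_nonneg_right (min_le_left _ _) h5
  rw [mul_add]
  exact h4.trans (add_le_add h6 h3)

end Pool.Agent.Lib.MP_9cae81_PC
end

section

/-!
# The gadget average `GA`: elementary properties and the derivative in the time `τ`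
-/

set_option autoImplicit false

open Finset
open scoped BigOperators

namespace Pool.Agent.Lib.MP_9cae81_PC

open Pool.Agent.Lib.MP_9cae81_R

variable {V : Type} [Fintype V] [DecidableEq V]

theorem GA_add (v w τ : ℝ) (Φ Ψ : As V → ℝ) :
    GA v w τ (fun S => Φ S + Ψ S) = GA v w τ Φ + GA v w τ Ψ := EE_add _ _ _

theorem GA_sub (v w τ : ℝ) (Φ Ψ : As V → ℝ) :
    GA v w τ (fun S => Φ S - Ψ S) = GA v w τ Φ - GA v w τ Ψ := EE_sub _ _ _

theorem GA_mul (v w τ a : ℝ) (Φ : As V → ℝ) :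
    GA v w τ (fun S => a * Φ S) = a * GA v w τ Φ := EE_mul_left _ _ _

theorem GA_const (v w τ a : ℝ) : GA v w τ (fun _ : As V => a) = a := EE_const _ _

theorem gq_nonneg {v w τ : ℝ} (hv : 0 ≤ v) (hw : 0 ≤ w) (hτ : 0 ≤ τ) (c : Cl V) :
    0 ≤ gq v w τ c := by
  unfold gq
  exact qq_nonneg (by positivity) (by positivity) le_rfl c

theorem GA_mono {v w τ : ℝ} (hv : 0 ≤ v) (hw : 0 ≤ w) (hτ : 0 ≤ τ) {Φ Ψ : As V → ℝ}
    (h : ∀ S, Φ S ≤ Ψ S) : GA v w τ Φ ≤ GA v w τ Ψ :=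
  EE_mono (gq_nonneg hv hw hτ) fun _ => h _

theorem GA_nonneg {v w τ : ℝ} (hv : 0 ≤ v) (hw : 0 ≤ w) (hτ : 0 ≤ τ) {Φ : As V → ℝ}
    (h : ∀ S, 0 ≤ Φ S) : 0 ≤ GA v w τ Φ :=
  EE_nonneg (gq_nonneg hv hw hτ) fun _ => h _

theorem GA_sum {β : Type*} (v w τ : ℝ) (s : Finset β) (Φ : β → As V → ℝ) :
    GA v w τ (fun S => ∑ b ∈ s, Φ b S) = ∑ b ∈ s, GA v w τ (Φ b) := EE_sum _ _ _

/-- Cauchy-Schwarz for the gadget average. -/
theorem GA_abs_le {v w τ : ℝ} (hv : 0 ≤ v) (hw : 0 ≤ w) (hτ : 0 ≤ τ) (Φ : As V → ℝ) :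
    |GA v w τ Φ| ≤ GA v w τ (fun S => |Φ S|) := by
  rw [abs_le]
  constructor
  · have h := GA_mono (V := V) hv hw hτ (Φ := fun S => (-1) * |Φ S|) (Ψ := Φ)
      (fun S => by linarith [neg_abs_le (Φ S)])
    rw [GA_mul] at h
    linarith
  · exact GA_mono hv hw hτ fun S => le_abs_self _

/-- At time `0` the gadget is trivial. -/
theorem GA_zero (v w : ℝ) (Φ : As V → ℝ) : GA v w 0 Φ = Φ Set.univ := by
  have h : (gq v w 0 : Cl V → ℝ) = fun _ => 0 := by
    funext c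
    unfold gq
    rcases c with c | c | c <;> simp [qq]
  unfold GA EE
  rw [h, Finset.sum_eq_single ∅]
  · show wt (fun _ : Cl V => (0 : ℝ)) ∅ * Φ (Md ∅) = Φ Set.univ
    rw [Md_empty]; simp [wt]
  · intro F _ hF
    obtain ⟨c, hc⟩ := Finset.nonempty_iff_ne_empty.2 hF
    have : wt (fun _ : Cl V => (0 : ℝ)) F = 0 := by
      unfold wt
      exact Finset.prod_eq_zero (Finset.mem_univ c) (by simp [hc])
    rw [this, zero_mul]
  · intro h; exact absurd (Finset.mem_univ _) h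

/-- Mean number of unit clauses of a gadget. -/
noncomputable def cU (V : Type) [Fintype V] (v w : ℝ) : ℝ := Fintype.card (Lt V) * (2 * v + 3 * w)

/-- Mean number of pairs of a gadget. -/
noncomputable def cP (V : Type) [Fintype V] (w : ℝ) : ℝ :=
  (Fintype.card (Lt V) : ℝ) ^ 2 * (3 * w)

/-- The derivative in `τ`. -/
theorem GA_hasDerivAt [Nonempty V] (v w τ : ℝ) (Φ : As V → ℝ) :
    HasDerivAt (fun t => GA v w t Φ)
      (GA v w τ (fun A => cU V v w * (P1 Φ A - Φ A) + cP V w * (P2 Φ A - Φ A))) τ := by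
  have h := EE_hasDerivAt (fun _ : Cl V => (0 : ℝ)) (gq v w 1) (fun F => Φ (Md F)) τ
  have e : ∀ t : ℝ, (fun c : Cl V => (0 : ℝ) + t * gq v w 1 c) = gq v w t := by
    intro t
    funext c
    unfold gq
    rcases c with c | c | c <;> simp [qq]
  simp only [e] at h
  have h2 : (fun t => EE (gq v w t) fun F => Φ (Md F)) = fun t => GA v w t Φ := rfl
  rw [h2] at h
  refine h.congr_deriv ?_
  have hc1 : (Fintype.card (Lt V) : ℝ) ≠ 0 := by
    have : 0 < Fintype.card (Lt V) := Fintype.card_pos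
    positivity
  rw [Fintype.sum_sum_type, Fintype.sum_sum_type]
  have e1 : ∑ a : Lt V, gq v w 1 (Sum.inl a) * EE (gq v w τ)
      (fun F => Φ (Md (insert (Sum.inl a) F)) - Φ (Md F)) =
      GA v w τ (fun A => cU V v w * (P1 Φ A - Φ A)) := by
    have : ∀ a : Lt V, gq v w 1 (Sum.inl a) * EE (gq v w τ)
        (fun F => Φ (Md (insert (Sum.inl a) F)) - Φ (Md F)) =
        (2 * v + 3 * w) * GA v w τ (fun A => Φ (A ∩ lit a) - Φ A) := by
      intro a
      have h3 : gq v w 1 (Sum.inl a : Cl V) = 2 * v + 3 * w := by simp [gq, qq]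
      rw [h3]
      congr 1
      unfold GA
      congr 1
      funext F
      show Φ (Md (insert (cu a) F)) - Φ (Md F) = Φ (Md F ∩ lit a) - Φ (Md F)
      rw [Md_insert_cu]
    rw [Finset.sum_congr rfl fun a _ => this a, ← Finset.mul_sum, ← GA_sum, ← GA_mul]
    congr 1
    funext A
    rw [(AS V).P1_sub_self Φ A]
    unfold cU
    show (2 * v + 3 * w) * ∑ a : Lt V, (Φ (A ∩ lit a) - Φ A) = _
    have : ∑ a : Lt V, (Φ ((AS V).iu a A) - Φ A) = ∑ a : Lt V, (Φ (A ∩ lit a) - Φ A) := rfl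
    rw [this]
    field_simp
  have e2 : ∑ p : Lt V × Lt V, gq v w 1 (Sum.inr (Sum.inl p)) * EE (gq v w τ)
      (fun F => Φ (Md (insert (Sum.inr (Sum.inl p)) F)) - Φ (Md F)) =
      GA v w τ (fun A => cP V w * (P2 Φ A - Φ A)) := by
    have : ∀ p : Lt V × Lt V, gq v w 1 (Sum.inr (Sum.inl p)) * EE (gq v w τ)
        (fun F => Φ (Md (insert (Sum.inr (Sum.inl p)) F)) - Φ (Md F)) =
        (3 * w) * GA v w τ (fun A => Φ (A ∩ (lit p.1 ∪ lit p.2)) - Φ A) := by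
      intro p
      have h3 : gq v w 1 (Sum.inr (Sum.inl p) : Cl V) = 3 * w := by simp [gq, qq]
      rw [h3]
      congr 1
      unfold GA
      congr 1
      funext F
      show Φ (Md (insert (cp p.1 p.2) F)) - Φ (Md F) = Φ (Md F ∩ (lit p.1 ∪ lit p.2)) - Φ (Md F)
      rw [Md_insert_cp]
    rw [Finset.sum_congr rfl fun a _ => this a, ← Finset.mul_sum, ← GA_sum, ← GA_mul]
    congr 1
    funext A
    rw [(AS V).P2_sub_self Φ A]
    unfold cP
    rw [Fintype.sum_prod_type]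
    have : ∑ a : Lt V, ∑ b : Lt V, (Φ ((AS V).ip a b A) - Φ A) =
        ∑ a : Lt V, ∑ b : Lt V, (Φ (A ∩ (lit a ∪ lit b)) - Φ A) := rfl
    rw [this]
    field_simp
  have e3 : ∑ p : Lt V × Lt V × Lt V, gq v w 1 (Sum.inr (Sum.inr p)) * EE (gq v w τ)
      (fun F => Φ (Md (insert (Sum.inr (Sum.inr p)) F)) - Φ (Md F)) = 0 := by
    refine Finset.sum_eq_zero fun p _ => ?_
    have h3 : gq v w 1 (Sum.inr (Sum.inr p) : Cl V) = 0 := by simp [gq, qq]
    rw [h3, zero_mul]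
  rw [e1, e2, e3, add_zero, ← GA_add]

end Pool.Agent.Lib.MP_9cae81_PC
end

section

/-!
# Averages over one more variable

* `avg_Lt_succ`: the average over the literals of `Fin (n + 1)` and over those of `Fin n`;
* `GA_succ`: a random gadget on `n + 1` variables is, up to probability `O(1/n)`, a random gadget on
  the `n` variables different from `i`.
-/

set_option autoImplicit false

open Finset
open scoped BigOperators

namespace Pool.Agent.Lib.MP_9cae81_PC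

open Pool.Agent.Lib.MP_9cae81_R

variable {n : ℕ}

/-- The literals of `Fin (n + 1)`: the two literals of `i` and the literals of the others. -/
theorem sum_Lt_succ (i : Fin (n + 1)) (g : Lt (Fin (n + 1)) → ℝ) :
    ∑ a, g a = g (i, true) + g (i, false) + ∑ b : Lt (Fin n), g (i.succAbove b.1, b.2) := by
  rw [Fintype.sum_prod_type, Fin.sum_univ_succAbove _ i, Fintype.sum_prod_type, Fintype.sum_bool]

theorem Lift_card (n : ℕ) : (Fintype.card (Lt (Fin n)) : ℝ) = 2 * n := by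
  rw [Fintype.card_prod, Fintype.card_fin, Fintype.card_bool]
  push_cast
  ring

/-- Comparison of the averages over the literals of `Fin (n + 1)` and of `Fin n`. -/
theorem avg_Lt_succ (i : Fin (n + 1)) (g : Lt (Fin (n + 1)) → ℝ) {K : ℝ} (hK : ∀ a, |g a| ≤ K) :
    |(∑ a, g a) / Fintype.card (Lt (Fin (n + 1))) -
      (∑ b : Lt (Fin n), g (i.succAbove b.1, b.2)) / Fintype.card (Lt (Fin n))| ≤
      2 * K / (n + 1) := by
  have hK0 : 0 ≤ K := le_trans (abs_nonneg _) (hK (i, true))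
  rw [sum_Lt_succ i, Lift_card, Lift_card]
  have hS : |∑ b : Lt (Fin n), g (i.succAbove b.1, b.2)| ≤ 2 * n * K := by
    refine le_trans (Finset.abs_sum_le_sum_abs _ _) ?_
    refine le_trans (Finset.sum_le_sum fun b _ => hK (i.succAbove b.1, b.2)) ?_
    rw [Finset.sum_const, Finset.card_univ, nsmul_eq_mul, Lift_card]
  have h1 : |g (i, true) + g (i, false)| ≤ 2 * K := by
    refine le_trans (abs_add_le _ _) ?_
    linarith [hK (i, true), hK (i, false)]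
  generalize (∑ b : Lt (Fin n), g (i.succAbove b.1, b.2)) = Sb at *
  generalize g (i, true) + g (i, false) = G at *
  have hn1 : (0 : ℝ) < n + 1 := by positivity
  rcases Nat.eq_zero_or_pos n with hn | hn
  · subst hn
    have h0 : Sb = 0 := by
      have : |Sb| ≤ 0 := by simpa using hS
      exact abs_nonpos_iff.1 this
    rw [h0]
    simp only [Nat.cast_zero, zero_add, mul_zero, div_zero, sub_zero, add_zero, Nat.cast_one,
      mul_one, div_one]
    rw [abs_div, abs_two]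
    linarith
  · have hn0 : (0 : ℝ) < n := by exact_mod_cast hn
    have e : (G + Sb) / (2 * ((n + 1 : ℕ) : ℝ)) - Sb / (2 * n) =
        (G - Sb / n) / (2 * (n + 1)) := by
      push_cast
      field_simp
      ring
    rw [e, abs_div, abs_of_pos (show (0 : ℝ) < 2 * (n + 1) by positivity),
      div_le_div_iff₀ (by positivity) hn1]
    have h2 : |G - Sb / n| ≤ 4 * K := by
      refine le_trans (abs_sub _ _) ?_
      have : |Sb / n| ≤ 2 * K := by
        rw [abs_div, abs_of_pos hn0, div_le_iff₀ hn0]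
        linarith
      linarith
    nlinarith

/-- A function of a random set with small total intensity. -/
theorem Lift_EE_near {ι : Type} [Fintype ι] [DecidableEq ι] {q : ι → ℝ} (hq : ∀ c, 0 ≤ q c)
    (g : Finset ι → ℝ) {K : ℝ} (hK : ∀ F, |g F| ≤ K) :
    |EE q g - g ∅| ≤ (∑ c, q c) * (2 * K) := by
  have hg : ∀ F : Finset ι, (∀ c ∈ (Finset.univ : Finset ι), c ∉ F) → g F = (fun _ => g ∅) F := by
    intro F hF
    have : F = ∅ := Finset.eq_empty_of_forall_notMem fun c => hF c (Finset.mem_univ c)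
    rw [this]
  have h := EE_sdiff_error hq Finset.univ g (fun _ => g ∅) hg
  rw [EE_const] at h
  refine le_trans h ?_
  rw [Finset.sum_mul]
  refine Finset.sum_le_sum fun c _ => mul_le_mul_of_nonneg_left ?_ (hq c)
  refine le_trans (EE_mono hq (h := fun _ => 2 * K) fun F => ?_) (le_of_eq (EE_const _ _))
  refine le_trans (abs_sub _ _) ?_
  linarith [hK (insert c F), hK ∅]

theorem Lift_kl_empty (i : Fin (n + 1)) : kl i ∅ = Set.univ := by
  ext σ; simp [kl]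

theorem Lift_Md_empty {V : Type} : Md (∅ : Finset (Cl V)) = Set.univ := by
  ext σ; simp [Md]

theorem Lift_jn_univ (i : Fin (n + 1)) (M : As (Fin n)) : jn i M Set.univ Set.univ = lf i M := by
  ext σ
  simp [mem_jn, mem_lf]

theorem Lift_sum_gq (v : ℝ) : ∑ c : Cl (Fin n), gq v 0 1 c = 2 * n * (2 * v) := by
  rw [Fintype.sum_sum_type, Fintype.sum_sum_type]
  have e1 : ∀ a : Lt (Fin n), gq v 0 1 (Sum.inl a : Cl (Fin n)) = 2 * v := by
    intro a; simp [gq, qq]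
  have e2 : ∀ a : Lt (Fin n) × Lt (Fin n), gq v 0 1 (Sum.inr (Sum.inl a) : Cl (Fin n)) = 0 := by
    intro a; simp [gq, qq]
  have e3 : ∀ a : Lt (Fin n) × Lt (Fin n) × Lt (Fin n),
      gq v 0 1 (Sum.inr (Sum.inr a) : Cl (Fin n)) = 0 := by
    intro a; simp [gq, qq]
  simp only [e1, e2, e3, Finset.sum_const, Finset.card_univ, nsmul_eq_mul, Lift_card, smul_zero,
    add_zero]

/-- **A gadget on one more variable.**  The bound `K` may depend on the state. -/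
theorem GA_succ (i : Fin (n + 1)) {v w τ : ℝ} (hv : 0 ≤ v) (hw : 0 ≤ w) (hτ : 0 ≤ τ)
    (Φ : As (Fin (n + 1)) → ℝ) {K : ℝ} (hK : ∀ S, |Φ S| ≤ K) :
    |GA v w τ Φ - GA v w τ (fun B => Φ (lf i B))| ≤ K * (τ * (8 * v + 24 * w + 48 * n * w)) := by
  have hK0 : 0 ≤ K := le_trans (abs_nonneg _) (hK ∅)
  set u1 : ℝ := τ * (2 * v + 3 * w) with hu1
  set v1 : ℝ := τ * (3 * w) with hv1
  have hu1n : 0 ≤ u1 := by positivity
  have hv1n : 0 ≤ v1 := by positivity
  have hgq : ∀ c : Cl (Fin n), 0 ≤ gq v1 0 1 c := gq_nonneg hv1n le_rfl zero_le_one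
  have e1 : GA v w τ Φ = EE (qq u1 v1 0) (fun F : Finset (Cl (Fin n)) =>
      GA v1 0 1 (fun A => GA v1 0 1 (fun B =>
        EE (fun _ : Bool => u1 + v1 + 0) (fun K => Φ (jn i (Md F) A B ∩ kl i K))))) :=
    A4_law i u1 v1 0 Φ
  have e2 : GA v w τ (fun B => Φ (lf i B)) =
      EE (qq u1 v1 0) (fun F : Finset (Cl (Fin n)) => Φ (lf i (Md F))) := rfl
  -- three steps: the kills, the second side, the first side
  have hb : ∀ S : As (Fin n), ∀ A B : As (Fin n),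
      |EE (fun _ : Bool => u1 + v1 + 0) (fun K => Φ (jn i S A B ∩ kl i K)) - Φ (jn i S A B)| ≤
        (u1 + v1) * 2 * (2 * K) := by
    intro S A B
    have h := Lift_EE_near (q := fun _ : Bool => u1 + v1 + 0) (fun _ => by positivity)
      (fun K => Φ (jn i S A B ∩ kl i K)) (K := K) (fun F => hK _)
    rw [Lift_kl_empty, Set.inter_univ] at h
    refine le_trans h (le_of_eq ?_)
    rw [Fintype.sum_bool]
    ring
  have hga : ∀ (Ψ : As (Fin n) → ℝ), (∀ S, |Ψ S| ≤ K) →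
      |GA v1 0 1 Ψ - Ψ Set.univ| ≤ 2 * n * (2 * v1) * (2 * K) := by
    intro Ψ hΨ
    have h := Lift_EE_near hgq (fun F => Ψ (Md F)) (K := K) (fun F => hΨ _)
    rw [Lift_Md_empty, Lift_sum_gq] at h
    exact h
  have hgabs : ∀ (Ψ Ψ' : As (Fin n) → ℝ) (c : ℝ), (∀ S, |Ψ S - Ψ' S| ≤ c) →
      |GA v1 0 1 Ψ - GA v1 0 1 Ψ'| ≤ c := by
    intro Ψ Ψ' c h
    rw [← GA_sub]
    refine le_trans (GA_abs_le hv1n le_rfl zero_le_one _) ?_
    refine le_trans (GA_mono hv1n le_rfl zero_le_one (Ψ := fun _ => c) h) (le_of_eq (GA_const _ _ _ _))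
  have hgK : ∀ (Ψ : As (Fin n) → ℝ), (∀ S, |Ψ S| ≤ K) → |GA v1 0 1 Ψ| ≤ K := by
    intro Ψ h
    refine le_trans (GA_abs_le hv1n le_rfl zero_le_one _) ?_
    refine le_trans (GA_mono hv1n le_rfl zero_le_one (Ψ := fun _ => K) h) (le_of_eq (GA_const _ _ _ _))
  have key : ∀ S : As (Fin n),
      |GA v1 0 1 (fun A => GA v1 0 1 (fun B =>
        EE (fun _ : Bool => u1 + v1 + 0) (fun K => Φ (jn i S A B ∩ kl i K)))) - Φ (lf i S)| ≤
        K * (τ * (8 * v + 24 * w + 48 * n * w)) := by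
    intro S
    have s1 : |GA v1 0 1 (fun A => GA v1 0 1 (fun B =>
        EE (fun _ : Bool => u1 + v1 + 0) (fun K => Φ (jn i S A B ∩ kl i K)))) -
        GA v1 0 1 (fun A => GA v1 0 1 (fun B => Φ (jn i S A B)))| ≤ (u1 + v1) * 2 * (2 * K) :=
      hgabs _ _ _ fun A => hgabs _ _ _ fun B => hb S A B
    have s2 : |GA v1 0 1 (fun A => GA v1 0 1 (fun B => Φ (jn i S A B))) -
        GA v1 0 1 (fun A => Φ (jn i S A Set.univ))| ≤ 2 * n * (2 * v1) * (2 * K) :=
      hgabs _ _ _ fun A => hga (fun B => Φ (jn i S A B)) fun B => hK _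
    have s3 : |GA v1 0 1 (fun A => Φ (jn i S A Set.univ)) - Φ (jn i S Set.univ Set.univ)| ≤
        2 * n * (2 * v1) * (2 * K) :=
      hga (fun A => Φ (jn i S A Set.univ)) fun A => hK _
    rw [Lift_jn_univ] at s3
    have t := abs_sub_le (GA v1 0 1 (fun A => GA v1 0 1 (fun B =>
        EE (fun _ : Bool => u1 + v1 + 0) (fun K => Φ (jn i S A B ∩ kl i K)))))
        (GA v1 0 1 (fun A => GA v1 0 1 (fun B => Φ (jn i S A B)))) (Φ (lf i S))
    have t2 := abs_sub_le (GA v1 0 1 (fun A => GA v1 0 1 (fun B => Φ (jn i S A B))))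
        (GA v1 0 1 (fun A => Φ (jn i S A Set.univ))) (Φ (lf i S))
    have e3 : (u1 + v1) * 2 * (2 * K) + (2 * n * (2 * v1) * (2 * K) + 2 * n * (2 * v1) * (2 * K)) =
        K * (τ * (8 * v + 24 * w + 48 * n * w)) := by
      rw [hu1, hv1]; ring
    linarith
  rw [e1, e2, ← EE_sub]
  have hqq : ∀ c : Cl (Fin n), 0 ≤ qq u1 v1 0 c := qq_nonneg hu1n hv1n le_rfl
  refine le_trans (EE_abs_le hqq _) ?_
  refine le_trans (EE_mono hqq (h := fun _ => K * (τ * (8 * v + 24 * w + 48 * n * w)))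
    fun F => key (Md F)) (le_of_eq (EE_const _ _))

end Pool.Agent.Lib.MP_9cae81_PC
end

section

/-!
# A7. The centre
-/

set_option autoImplicit false
set_option linter.unusedSectionVars false
set_option linter.unusedVariables false

open Finset Filter MeasureTheory
open scoped BigOperators Topology

namespace Pool.Agent.Lib.MP_9cae81_PC

open Pool.Agent.Lib.MP_9cae81_R


/-- Mean value theorem in `y`. -/
theorem A7_mvt {n : ℕ} (hn : 1 ≤ n) (l x : ℝ) {y0 y1 : ℝ} (hy : y0 < y1) :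
    ∃ y ∈ Set.Ioo y0 y1, ZZ n l x y1 - ZZ n l x y0 = ZY n l x y * (y1 - y0) := by
  have hd : ∀ s, HasDerivAt (fun t => ZZ n l x t) (ZY n l x s) s := by
    intro s
    have h := ZZ_line hn l x 0 0 0 1 s
    simpa using h
  obtain ⟨y, hy', h⟩ := exists_hasDerivAt_eq_slope (fun t => ZZ n l x t) (fun s => ZY n l x s) hy
    (fun t _ => (hd t).continuousAt.continuousWithinAt) (fun t _ => hd t)
  refine ⟨y, hy', ?_⟩
  have h3 : y1 - y0 ≠ 0 := by linarith
  rw [h]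
  field_simp

/-- (S3) choice of the centre.  Proof: `ZZ N (L N) x 0 = TT N (L N) x ≤ TT N 0 x + C (1+L)^2/N → 0`
(`TT_le`, `T_zero`), `ZZ N (L N) x y1 ≥ ZZ N 0 x y1 ≥ c0`, mean value theorem in `y`
(`∂ ZZ/∂y = ZY = N E f^3`). -/
theorem A7_centre {x y1 c0 : ℝ} (hx0 : 0 < x) (hx1 : x < 1) (hy : 0 < y1) (hc : 0 < c0) (L : ℕ → ℝ)
    (hL : ∀ N, 0 ≤ L N) (hL2 : Tendsto (fun N : ℕ => (1 + L N) ^ 2 / N) atTop (𝓝 0)) :
    ∀ᶠ N : ℕ in atTop, c0 ≤ ZZ N 0 x y1 →
      ∃ y ∈ Set.Ioo 0 y1, c0 / (2 * y1 * N) ≤ EE (qs N (L N) x y) (fun F => fN F ^ 3) := by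
  have hT : Tendsto (fun N : ℕ => TT N 0 x + (1 / (1 - x) ^ 2) * ((1 + L N) ^ 2 / N)) atTop (𝓝 0) := by
    have := (T_zero hx0 hx1).add (hL2.const_mul (1 / (1 - x) ^ 2))
    simpa using this
  have h1 : ∀ᶠ N : ℕ in atTop, TT N 0 x + (1 / (1 - x) ^ 2) * ((1 + L N) ^ 2 / N) < c0 / 2 :=
    hT.eventually (gt_mem_nhds (by linarith))
  filter_upwards [h1, eventually_ge_atTop 1] with N hN hN1 hZ
  have hN0 : (0 : ℝ) < N := by exact_mod_cast hN1
  have h2 : ZZ N (L N) x 0 < c0 / 2 := by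
    have h3 := TT_le hx0 hx1 hN1 (hL N) hx0.le le_rfl
    have h4 : ZZ N (L N) x 0 = TT N (L N) x := rfl
    rw [h4]
    have h5 : (1 / (1 - x) ^ 2) * (1 + L N) ^ 2 / N = (1 / (1 - x) ^ 2) * ((1 + L N) ^ 2 / N) := by ring
    linarith
  have h3 : c0 ≤ ZZ N (L N) x y1 := hZ.trans (ZZ_mono hN1 le_rfl hx0.le hy.le (hL N) le_rfl le_rfl)
  obtain ⟨y, hy', h⟩ := A7_mvt hN1 (L N) x hy
  refine ⟨y, hy', ?_⟩
  have h6 : ZY N (L N) x y = N * EE (qs N (L N) x y) (fun F => fN F ^ 3) := rfl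
  rw [h6] at h
  rw [div_le_iff₀ (by positivity)]
  nlinarith

/-- The same with `f ^ 2`. -/
theorem A7_centre_sq {x y1 c0 : ℝ} (hx0 : 0 < x) (hx1 : x < 1) (hy : 0 < y1) (hc : 0 < c0) (L : ℕ → ℝ)
    (hL : ∀ N, 0 ≤ L N) (hL2 : Tendsto (fun N : ℕ => (1 + L N) ^ 2 / N) atTop (𝓝 0)) :
    ∀ᶠ N : ℕ in atTop, c0 ≤ ZZ N 0 x y1 →
      ∃ y ∈ Set.Ioo 0 y1, c0 / (2 * y1 * N) ≤ EE (qs N (L N) x y) (fun F => fN F ^ 2) := by
  filter_upwards [A7_centre hx0 hx1 hy hc L hL hL2, eventually_ge_atTop 1] with N hN hN1 hZ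
  obtain ⟨y, hy', h⟩ := hN hZ
  refine ⟨y, hy', h.trans ?_⟩
  refine EE_mono (qs_nonneg N (hL N) hx0.le hy'.1.le) fun F => ?_
  have := fN_range hN1 F
  nlinarith [pow_nonneg this.1 2, this.1, this.2]

/-- `L N = N ^ a` with `0 < a < 1/2` is admissible. -/
theorem A7_L {a : ℝ} (ha : 0 < a) (ha2 : a < 1 / 2) :
    Tendsto (fun N : ℕ => (1 + (N : ℝ) ^ a) ^ 2 / N) atTop (𝓝 0) := by
  have h1 : Tendsto (fun N : ℕ => (N : ℝ) ^ (-(1 - 2 * a))) atTop (𝓝 0) :=
    (tendsto_rpow_neg_atTop (by linarith)).comp tendsto_natCast_atTop_atTop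
  have h2 : Tendsto (fun N : ℕ => 4 * (N : ℝ) ^ (-(1 - 2 * a))) atTop (𝓝 0) := by
    simpa using h1.const_mul 4
  refine squeeze_zero' (Eventually.of_forall fun N => by positivity) ?_ h2
  filter_upwards [eventually_ge_atTop 1] with N hN
  have hN0 : (1 : ℝ) ≤ N := by exact_mod_cast hN
  have hN1 : (0 : ℝ) < N := by linarith
  have h3 : (1 : ℝ) ≤ (N : ℝ) ^ a := Real.one_le_rpow hN0 ha.le
  have h4 : (1 + (N : ℝ) ^ a) ^ 2 ≤ 4 * ((N : ℝ) ^ a) ^ 2 := by nlinarith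
  have h5 : (N : ℝ) ^ (-(1 - 2 * a)) = ((N : ℝ) ^ a) ^ 2 / N := by
    rw [← Real.rpow_natCast, ← Real.rpow_mul hN1.le, eq_div_iff hN1.ne']
    nth_rewrite 2 [← Real.rpow_one (N : ℝ)]
    rw [← Real.rpow_add hN1]
    congr 1
    push_cast
    ring
  rw [h5, div_le_iff₀ hN1]
  calc (1 + (N : ℝ) ^ a) ^ 2 ≤ 4 * ((N : ℝ) ^ a) ^ 2 := h4
    _ = 4 * (((N : ℝ) ^ a) ^ 2 / N) * N := by field_simp



theorem A7_Md {V : Type} [DecidableEq V] (a : Lt V) (F : Finset (Cl V)) :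
    Md (insert (cu a) F) = Md F ∩ lit a := by
  ext σ
  simp only [Md, lit, Set.mem_ofPred_eq, Set.mem_inter_iff, Finset.mem_insert, forall_eq_or_imp]
  constructor
  · rintro ⟨h1, h2⟩; exact ⟨h2, h1⟩
  · rintro ⟨h1, h2⟩; exact ⟨h2, h1⟩

theorem A7_una {V : Type} (F : Finset (Cl V)) : una (Md F) = un F := by
  unfold una un
  by_cases h : SatF F
  · obtain ⟨σ, hσ⟩ := h
    rw [if_neg, if_pos ⟨σ, hσ⟩]
    intro h'
    have : σ ∈ Md F := hσ
    rw [h'] at this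
    exact this
  · rw [if_neg h, if_pos]
    ext σ
    simp only [Set.mem_empty_iff_false, iff_false]
    exact fun h' => h ⟨σ, h'⟩

theorem A7_ff {n : ℕ} (F : Finset (Cl (Fin n))) : ff (Md F) = fN F := by
  have h1 : ff (Md F) = (∑ a : Lt (Fin n), (una (Md F ∩ lit a) - una (Md F))) /
      Fintype.card (Lt (Fin n)) := rfl
  have h2 : (Fintype.card (Lt (Fin n)) : ℝ) = 2 * n := by
    simp [Lt, mul_comm]
  rw [h1, h2]
  unfold fN fr
  congr 1
  refine Finset.sum_congr rfl fun a _ => ?_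
  rw [← A7_Md, A7_una, A7_una]

theorem A7_qs (N : ℕ) (x y : ℝ) : qs N (LN N) x y = qq (Iu N) (Iv N x) (Iw N y) := rfl

theorem A7_LN (N : ℕ) : 0 ≤ LN N := by unfold LN; positivity

theorem A7_Iu (N : ℕ) : 0 ≤ Iu N := by unfold Iu LN; positivity

theorem A7_Iv (N : ℕ) {x : ℝ} (hx : 0 ≤ x) : 0 ≤ Iv N x := by unfold Iv; positivity

theorem A7_Iw (N : ℕ) {y : ℝ} (hy : 0 ≤ y) : 0 ≤ Iw N y := by unfold Iw; positivity

theorem A7_En_nonneg (N : ℕ) {x y : ℝ} (hx : 0 ≤ x) (hy : 0 ≤ y) (n : ℕ) {h : As (Fin n) → ℝ}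
    (hh : ∀ S, 0 ≤ h S) : 0 ≤ En N x y n h :=
  EE_nonneg (qq_nonneg (A7_Iu N) (A7_Iv N hx) (A7_Iw N hy)) fun F => hh (Md F)

theorem A7_En_mono (N : ℕ) {x y : ℝ} (hx : 0 ≤ x) (hy : 0 ≤ y) (n : ℕ) {h h' : As (Fin n) → ℝ}
    (hh : ∀ S, h S ≤ h' S) : En N x y n h ≤ En N x y n h' :=
  EE_mono (qq_nonneg (A7_Iu N) (A7_Iv N hx) (A7_Iw N hy)) fun F => hh (Md F)

/-- `q f ≤ s`. -/
theorem A7_q_ff {V : Type} [Fintype V] [Nonempty V] {q : ℝ} (hq : 0 < q) (hq1 : q < 1)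
    (S : As V) : q * ff S ≤ ss q S := by
  have hf : ff S = (AS V).P1 (AS V).un S - (AS V).un S := (AS V).f_eq S
  rcases (AS V).un01 S with h | h
  · have h1 := (AS V).P1_v hq hq1 S
    have h2 : (AS V).P1 (AS V).un S ≤ (AS V).P1 ((AS V).v q) S := by
      unfold Sys.P1
      gcongr with a _
      exact (AS V).un_le_v hq.le hq1 _
    have h3 : ss q S = (AS V).v q S := (AS V).s_of_sat h
    rw [h3, hf, h]
    rw [h, sub_zero] at h1
    have h4 : (AS V).v q S + (1 - q) / q * (AS V).v q S = (AS V).v q S / q := by field_simp; ring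
    rw [h4] at h1
    rw [h1, le_div_iff₀ hq] at h2
    linarith
  · have h1 : ff S = 0 := (AS V).f_of_un h
    rw [h1, mul_zero]
    exact (AS V).s_nonneg hq.le hq1 S

/-- `f ≤ 1`. -/
theorem A7_ff_le {V : Type} [Fintype V] [Nonempty V] (S : As V) : 0 ≤ ff S ∧ ff S ≤ 1 := by
  refine ⟨(AS V).f_nonneg S, ?_⟩
  have h : ff S = (∑ a : Lt V, ((AS V).un ((AS V).iu a S) - (AS V).un S)) / Fintype.card (Lt V) := rfl
  rw [h]
  have hc : (0 : ℝ) < Fintype.card (Lt V) := by exact_mod_cast Fintype.card_pos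
  rw [div_le_one hc]
  calc ∑ a : Lt V, ((AS V).un ((AS V).iu a S) - (AS V).un S) ≤ ∑ _a : Lt V, (1 : ℝ) :=
        Finset.sum_le_sum fun a _ => ((AS V).fr01 a S).2
    _ = Fintype.card (Lt V) := by simp

/-- **(S3)** If `P(UNSAT)` at `(0, x, y1)` does not tend to `0`, there are centres. -/
theorem A7_cen {x y1 c0 : ℝ} (hx0 : 0 < x) (hx1 : x < 1) (hy : 0 < y1) (hc : 0 < c0)
    (hZ : ∃ᶠ N : ℕ in atTop, c0 ≤ ZZ N 0 x y1) : Nonempty (Cen x y1) := by
  have hL := A7_L (a := 1 / 10) (by norm_num) (by norm_num)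
  have hev := A7_centre hx0 hx1 hy hc (fun N => LN N) A7_LN hL
  have hfr : ∃ᶠ N : ℕ in atTop, 1 ≤ N ∧ ∃ y ∈ Set.Ioo 0 y1,
      c0 / (2 * y1 * N) ≤ EE (qs N (LN N) x y) (fun F => fN F ^ 3) := by
    refine (hZ.and_eventually (hev.and (eventually_ge_atTop 1))).mono ?_
    rintro N ⟨h1, h2, h3⟩
    exact ⟨h3, h2 h1⟩
  obtain ⟨φ, hφ, hφ2⟩ := Filter.extraction_of_frequently_atTop hfr
  choose h1 y hy' hfl using hφ2
  refine ⟨⟨φ, y, c0 / (2 * y1), hφ.tendsto_atTop, h1, fun k => (hy' k).1.le, fun k => (hy' k).2.le,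
    by positivity, fun k => ?_⟩⟩
  have h2 := hfl k
  have h3 : En (φ k) x (y k) (φ k) (fun S => ff S ^ 3) =
      EE (qs (φ k) (LN (φ k)) x (y k)) (fun F => fN F ^ 3) := by
    unfold En
    rw [A7_qs]
    simp only [A7_ff]
  rw [h3]
  have h4 : c0 / (2 * y1) / (φ k : ℝ) = c0 / (2 * y1 * (φ k : ℝ)) := by rw [div_div]
  rw [h4]
  exact h2

theorem A7_Wt_self (N : ℕ) : Wt N N = 1 := by unfold Wt; simp

theorem A7_Wt_nonneg (N n : ℕ) : 0 ≤ Wt N n := (Real.exp_pos _).le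

theorem A7_Br_nonneg (N : ℕ) {x y : ℝ} (hx : 0 ≤ x) (hy : 0 ≤ y) {h : (n : ℕ) → As (Fin n) → ℝ}
    (hh : ∀ n S, 0 ≤ h n S) : 0 ≤ Br N x y h :=
  Finset.sum_nonneg fun n _ => mul_nonneg (A7_Wt_nonneg N n) (A7_En_nonneg N hx hy n (hh n))

/-- The bracket dominates its central term. -/
theorem A7_En_le_Br (N : ℕ) {x y : ℝ} (hx : 0 ≤ x) (hy : 0 ≤ y) {h : (n : ℕ) → As (Fin n) → ℝ}
    (hh : ∀ n S, 0 ≤ h n S) : En N x y N (h N) ≤ Br N x y h := by
  have hmem : N ∈ Finset.Icc (N - MW N) (N + MW N) := by simp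
  have h1 := Finset.single_le_sum (f := fun n => Wt N n * En N x y n (h n))
    (fun n _ => mul_nonneg (A7_Wt_nonneg N n) (A7_En_nonneg N hx hy n (hh n))) hmem
  rw [A7_Wt_self, one_mul] at h1
  exact h1

/-- **Lower bound of the normalisation**: `m ≥ q² c₀ / N`. -/
theorem A7_mm_ge {x Y q : ℝ} (hx : 0 ≤ x) (hq : 0 < q) (hq1 : q < 1) (c : Cen x Y) (k : ℕ) :
    q ^ 2 * c.c0 / c.N k ≤ mm q (c.N k) x (c.y k) := by
  have hN : 1 ≤ c.N k := c.N1 k
  have : Nonempty (Fin (c.N k)) := ⟨⟨0, hN⟩⟩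
  have h1 : En (c.N k) x (c.y k) (c.N k) (fun S => ss q S ^ 2) ≤ mm q (c.N k) x (c.y k) :=
    A7_En_le_Br (c.N k) hx (c.y0 k) (h := fun _ S => ss q S ^ 2) fun n S => sq_nonneg _
  have h2 : En (c.N k) x (c.y k) (c.N k) (fun S => q ^ 2 * ff S ^ 3) ≤
      En (c.N k) x (c.y k) (c.N k) (fun S => ss q S ^ 2) := by
    refine A7_En_mono _ hx (c.y0 k) _ fun S => ?_
    have h3 := A7_q_ff hq hq1 S
    have h4 := A7_ff_le S
    have h5 : (q * ff S) ^ 2 ≤ ss q S ^ 2 :=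
      pow_le_pow_left₀ (mul_nonneg hq.le h4.1) h3 2
    have h6 : ff S ^ 3 ≤ ff S ^ 2 := by nlinarith [sq_nonneg (ff S), h4.1, h4.2]
    calc q ^ 2 * ff S ^ 3 ≤ q ^ 2 * ff S ^ 2 := by gcongr
      _ = (q * ff S) ^ 2 := by ring
      _ ≤ ss q S ^ 2 := h5
  have h3 : En (c.N k) x (c.y k) (c.N k) (fun S => q ^ 2 * ff S ^ 3) =
      q ^ 2 * En (c.N k) x (c.y k) (c.N k) (fun S => ff S ^ 3) := by
    unfold En
    rw [← EE_mul_left]
  have h4 := c.flux k
  calc q ^ 2 * c.c0 / c.N k = q ^ 2 * (c.c0 / c.N k) := by ring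
    _ ≤ q ^ 2 * En (c.N k) x (c.y k) (c.N k) (fun S => ff S ^ 3) := by gcongr
    _ ≤ _ := by rw [← h3]; exact h2.trans h1


/-- **Centre.** -/
theorem A7_center {x Y : ℝ} (hx : 0 < x) (hx1 : x < 1) (hY : 0 < Y)
    (h : ¬ Tendsto (fun n : ℕ => ZZ n 0 x Y) atTop (𝓝 0)) : Nonempty (Cen x Y) := by
  have h1 : ∃ c : ℝ, 0 < c ∧ ∃ᶠ N : ℕ in atTop, c ≤ ZZ N 0 x Y := by
    by_contra hcon
    push Not at hcon
    refine h ?_
    rw [tendsto_order]
    constructor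
    · intro a ha
      filter_upwards [eventually_ge_atTop 1] with N hN
      exact lt_of_lt_of_le ha (ZZ_range hN le_rfl hx.le hY.le).1
    · intro a ha
      exact hcon a ha
  obtain ⟨c, hc, hf⟩ := h1
  exact A7_cen hx hx1 hY hc hf

end Pool.Agent.Lib.MP_9cae81_PC
end
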