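import Pool.Agent.Lib.MP_9cae81_PC.Mg.G003
import Pool.Agent.Lib.MP_9cae81_PC.Mg.G001
import Pool.Agent.Lib.MP_9cae81_R.Mg.G009
import Pool.Agent.Lib.MP_9cae81_PC.Mg.G005
import Pool.Agent.Lib.MP_9cae81_PC.Mg.G002

section

set_option autoImplicit false

open Finset Filter
open scoped BigOperators Topology

namespace Pool.Agent.Lib.MP_9cae81_PC

open Pool.Agent.Lib.MP_9cae81_R

private theorem A3s_tele (f : ℕ → ℝ) {A B : ℕ} (h : A ≤ B) :
    ∑ n ∈ Finset.Icc A B, (f (n + 1) - f n) = f (B + 1) - f A := by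
  induction B, h using Nat.le_induction with
  | base => simp
  | succ B hB ih =>
    rw [Finset.sum_Icc_succ_top (by omega), ih]; ring

/-- Abel summation with weights. -/
private theorem A3s_abel (W a e : ℕ → ℝ) {A B : ℕ} (hAB : A ≤ B) {r : ℝ} (hr : 0 ≤ r)
    (hW : ∀ n, 0 ≤ W n) (hae : ∀ n, |a n| ≤ e n) (he1 : ∀ n, e n ≤ 1)
    (hWr : ∀ n, |W n - W (n + 1)| ≤ r * W (n + 1)) :
    |∑ n ∈ Finset.Icc A B, W n * a (n + 1) - ∑ n ∈ Finset.Icc A B, W n * a n| ≤
      r * ∑ n ∈ Finset.Icc A B, W n * e n + (1 + r) * W (B + 1) + W A := by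
  have he0 : ∀ n, 0 ≤ e n := fun n => (abs_nonneg _).trans (hae n)
  have h1 : ∑ n ∈ Finset.Icc A B, W n * a (n + 1) - ∑ n ∈ Finset.Icc A B, W n * a n =
      (W (B + 1) * a (B + 1) - W A * a A) +
        ∑ n ∈ Finset.Icc A B, (W n - W (n + 1)) * a (n + 1) := by
    rw [← A3s_tele (fun n => W n * a n) hAB, ← Finset.sum_sub_distrib, ← Finset.sum_add_distrib]
    refine Finset.sum_congr rfl fun n _ => ?_
    ring
  have h2 : |∑ n ∈ Finset.Icc A B, (W n - W (n + 1)) * a (n + 1)| ≤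
      r * ∑ n ∈ Finset.Icc A B, W (n + 1) * e (n + 1) := by
    refine (Finset.abs_sum_le_sum_abs _ _).trans ?_
    rw [Finset.mul_sum]
    refine Finset.sum_le_sum fun n _ => ?_
    rw [abs_mul, ← mul_assoc]
    exact mul_le_mul (hWr n) (hae _) (abs_nonneg _) (mul_nonneg hr (hW _))
  have h3 : ∑ n ∈ Finset.Icc A B, W (n + 1) * e (n + 1) =
      ∑ n ∈ Finset.Icc A B, W n * e n + (W (B + 1) * e (B + 1) - W A * e A) := by
    rw [← A3s_tele (fun n => W n * e n) hAB, ← Finset.sum_add_distrib]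
    refine Finset.sum_congr rfl fun n _ => ?_
    ring
  have h4 : |W (B + 1) * a (B + 1)| ≤ W (B + 1) := by
    rw [abs_mul, abs_of_nonneg (hW _)]
    exact mul_le_of_le_one_right (hW _) ((hae _).trans (he1 _))
  have h5 : |W A * a A| ≤ W A := by
    rw [abs_mul, abs_of_nonneg (hW _)]
    exact mul_le_of_le_one_right (hW _) ((hae _).trans (he1 _))
  have h6 : W (B + 1) * e (B + 1) ≤ W (B + 1) := mul_le_of_le_one_right (hW _) (he1 _)
  have h7 : 0 ≤ W A * e A := mul_nonneg (hW _) (he0 _)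
  rw [h1]
  refine (abs_add_le _ _).trans ?_
  have h8 := (abs_sub (W (B + 1) * a (B + 1)) (W A * a A))
  rw [h3] at h2
  have h9 : r * (∑ n ∈ Finset.Icc A B, W n * e n + (W (B + 1) * e (B + 1) - W A * e A)) ≤
      r * (∑ n ∈ Finset.Icc A B, W n * e n + W (B + 1)) :=
    mul_le_mul_of_nonneg_left (by linarith) hr
  linarith

theorem A3_shift {q x Y : ℝ} (hq : 0 < q) (hq1 : q < 1) (hx : 0 ≤ x) (C : Cen x Y) {ε : ℝ}
    (hε : 0 < ε) : ∀ᶠ k in atTop, ∀ h : Fun, B1 h →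
      |Br' (C.N k) x (C.y k) h - Br (C.N k) x (C.y k) h| ≤
        ε * (Br (C.N k) x (C.y k) (fun n S => |h n S|) + mm q (C.N k) x (C.y k)) := by
  -- asymptotics in `N`
  have hz : Tendsto (fun N : ℕ => (N : ℝ) ^ (1 / 4 : ℝ)) atTop atTop :=
    (tendsto_rpow_atTop (by norm_num)).comp tendsto_natCast_atTop_atTop
  have hκ : Tendsto (fun N : ℕ => (N : ℝ) ^ (-(1 / 2) : ℝ)) atTop (𝓝 0) :=
    (tendsto_rpow_neg_atTop (by norm_num)).comp tendsto_natCast_atTop_atTop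
  have t1 : Tendsto (fun N : ℕ => Real.exp ((N : ℝ) ^ (-(1 / 2) : ℝ)) - 1) atTop (𝓝 0) := by
    have := (Real.continuous_exp.tendsto 0).comp hκ
    rw [Real.exp_zero] at this
    simpa using this.sub_const 1
  have t2 : Tendsto (fun N : ℕ => (9 : ℝ) * (((N : ℝ) ^ (1 / 4 : ℝ)) ^ 4 *
      Real.exp (-((N : ℝ) ^ (1 / 4 : ℝ))))) atTop (𝓝 0) := by
    have := ((Real.tendsto_pow_mul_exp_neg_atTop_nhds_zero 4).comp hz).const_mul 9
    simpa using this
  have hpos : 0 < ε * (q ^ 2 * C.c0) := by have := C.hc; positivity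
  have e1 := C.hN.eventually ((t1.eventually (gt_mem_nhds (lt_min hε one_pos))).and
    (t2.eventually (gt_mem_nhds hpos)))
  filter_upwards [e1] with k hk h hh
  obtain ⟨hk1, hk2⟩ := hk
  have hN1 : 1 ≤ C.N k := C.N1 k
  have hmm := A2_mm hq hq1 hx C k
  set N := C.N k with hNdef
  have hNr : (1 : ℝ) ≤ N := by exact_mod_cast hN1
  have hN0 : (0 : ℝ) < N := by linarith
  set κ : ℝ := (N : ℝ) ^ (-(1 / 2) : ℝ) with hκdef
  have hκ0 : 0 < κ := Real.rpow_pos_of_pos hN0 _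
  have hMle : MW N ≤ N := by
    unfold MW
    have h1 : (N : ℝ) ^ (3 / 4 : ℝ) ≤ (N : ℝ) ^ (1 : ℝ) :=
      Real.rpow_le_rpow_of_exponent_le hNr (by norm_num)
    rw [Real.rpow_one] at h1
    exact (Nat.floor_le_floor h1).trans (by simp)
  have hMge : (N : ℝ) ^ (3 / 4 : ℝ) - 1 ≤ MW N := by
    unfold MW
    have := Nat.lt_floor_add_one ((N : ℝ) ^ (3 / 4 : ℝ))
    linarith
  have hκM : (N : ℝ) ^ (1 / 4 : ℝ) - 1 ≤ κ * MW N := by
    have h1 : κ * ((N : ℝ) ^ (3 / 4 : ℝ) - 1) ≤ κ * MW N := mul_le_mul_of_nonneg_left hMge hκ0.le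
    have h2 : κ * (N : ℝ) ^ (3 / 4 : ℝ) = (N : ℝ) ^ (1 / 4 : ℝ) := by
      rw [hκdef, ← Real.rpow_add hN0]; norm_num
    have h3 : κ ≤ 1 := by
      rw [hκdef]
      exact Real.rpow_le_one_of_one_le_of_nonpos hNr (by norm_num)
    nlinarith
  -- the weights
  have hW0 : ∀ n, 0 ≤ Wt N n := fun n => (Real.exp_pos _).le
  have hWA : Wt N (N - MW N) = Real.exp (-(κ * MW N)) := by
    unfold Wt
    rw [Nat.cast_sub hMle, show ((N : ℝ) - MW N - N) = -(MW N : ℝ) by ring, abs_neg,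
      abs_of_nonneg (Nat.cast_nonneg _), ← hκdef]
    congr 1; ring
  have hWB : Wt N (N + MW N + 1) ≤ Real.exp (-(κ * MW N)) := by
    unfold Wt
    rw [← hκdef]
    refine Real.exp_le_exp.2 ?_
    have : |((N + MW N + 1 : ℕ) : ℝ) - N| = MW N + 1 := by
      push_cast
      rw [show ((N : ℝ) + MW N + 1 - N) = MW N + 1 by ring]
      exact abs_of_nonneg (by positivity)
    rw [this]
    nlinarith
  have hWr : ∀ n, |Wt N n - Wt N (n + 1)| ≤ (Real.exp κ - 1) * Wt N (n + 1) := by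
    intro n
    unfold Wt
    rw [← hκdef]
    set s : ℝ := |(n : ℝ) - N| with hs
    set t : ℝ := |((n + 1 : ℕ) : ℝ) - N| with ht
    have hst : |s - t| ≤ 1 := by
      have h1 := abs_abs_sub_abs_le_abs_sub ((n : ℝ) - N) (((n + 1 : ℕ) : ℝ) - N)
      have h2 : ((n : ℝ) - N) - (((n + 1 : ℕ) : ℝ) - N) = -1 := by push_cast; ring
      rw [h2, abs_neg, abs_one] at h1
      exact h1
    have h3 : Real.exp (-κ * s) = Real.exp (κ * (t - s)) * Real.exp (-κ * t) := by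
      rw [← Real.exp_add]; congr 1; ring
    have h4 : Real.exp (κ * (t - s)) ≤ Real.exp κ := by
      refine Real.exp_le_exp.2 ?_
      have : t - s ≤ 1 := by have := (abs_le.1 hst).1; linarith
      nlinarith
    have h5 : 1 - (Real.exp κ - 1) ≤ Real.exp (κ * (t - s)) := by
      have h6 : Real.exp (-κ) ≤ Real.exp (κ * (t - s)) := by
        refine Real.exp_le_exp.2 ?_
        have : -1 ≤ t - s := by have := (abs_le.1 hst).2; linarith
        nlinarith
      have h7 : Real.exp κ * Real.exp (-κ) = 1 := by rw [← Real.exp_add]; simp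
      have h8 := Real.exp_pos (-κ)
      have h9 : 1 ≤ Real.exp κ := Real.one_le_exp hκ0.le
      nlinarith [sq_nonneg (Real.exp κ - 1)]
    have h10 := Real.exp_pos (-κ * t)
    rw [h3, show Real.exp (κ * (t - s)) * Real.exp (-κ * t) - Real.exp (-κ * t) =
      (Real.exp (κ * (t - s)) - 1) * Real.exp (-κ * t) by ring, abs_mul, abs_of_pos h10]
    refine mul_le_mul_of_nonneg_right ?_ h10.le
    rw [abs_le]
    constructor <;> linarith
  -- expectations
  have hq0 : ∀ n : ℕ, ∀ c : Cl (Fin n), 0 ≤ qq (Iu N) (Iv N x) (Iw N (C.y k)) c := by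
    intro n
    refine qq_nonneg ?_ ?_ ?_
    · unfold Iu LN; positivity
    · unfold Iv; positivity
    · unfold Iw; have := C.y0 k; positivity
  have hae : ∀ n, |En N x (C.y k) n (h n)| ≤ En N x (C.y k) n (fun S => |h n S|) := by
    intro n
    unfold En
    rw [abs_le]
    constructor
    · have h1 := EE_mono (hq0 n) (g := fun F => -|h n (Md F)|) (h := fun F => h n (Md F))
        (fun F => neg_abs_le _)
      have h2 := EE_mul_left (qq (Iu N) (Iv N x) (Iw N (C.y k))) (-1)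
        (fun F : Finset (Cl (Fin n)) => |h n (Md F)|)
      simp only [neg_mul, one_mul] at h2
      linarith
    · exact EE_mono (hq0 n) (fun F => le_abs_self _)
  have he1 : ∀ n, En N x (C.y k) n (fun S => |h n S|) ≤ 1 := by
    intro n
    unfold En
    have h1 := EE_mono (hq0 n) (g := fun F => |h n (Md F)|) (h := fun _ => (1 : ℝ))
      (fun F => hh n _)
    rwa [EE_const] at h1
  have hr : 0 ≤ Real.exp κ - 1 := by have := Real.one_le_exp hκ0.le; linarith
  have main := A3s_abel (Wt N) (fun n => En N x (C.y k) n (h n))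
    (fun n => En N x (C.y k) n (fun S => |h n S|)) (A := N - MW N) (B := N + MW N) (by omega) hr
    hW0 hae he1 hWr
  have hBr : 0 ≤ Br N x (C.y k) (fun n S => |h n S|) := by
    unfold Br
    exact Finset.sum_nonneg fun n _ => mul_nonneg (hW0 n) ((abs_nonneg _).trans (hae n))
  -- the boundary terms
  have hk1' : Real.exp κ - 1 < ε ∧ Real.exp κ - 1 < 1 := lt_min_iff.1 hk1
  have hb : (1 + (Real.exp κ - 1)) * Wt N (N + MW N + 1) + Wt N (N - MW N) ≤
      3 * Real.exp (-(κ * MW N)) := by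
    rw [hWA]
    have := mul_le_mul_of_nonneg_left hWB (show 0 ≤ 1 + (Real.exp κ - 1) by linarith)
    nlinarith [Real.exp_pos (-(κ * MW N)), hk1'.2]
  have hexp : Real.exp (-(κ * MW N)) ≤ 3 * Real.exp (-((N : ℝ) ^ (1 / 4 : ℝ))) := by
    have h1 : Real.exp (-(κ * MW N)) ≤ Real.exp (1 + -((N : ℝ) ^ (1 / 4 : ℝ))) :=
      Real.exp_le_exp.2 (by linarith)
    rw [Real.exp_add] at h1
    have h2 : Real.exp 1 ≤ 3 := Real.exp_one_lt_three.le
    exact h1.trans (mul_le_mul_of_nonneg_right h2 (Real.exp_pos _).le)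
  have hz4 : ((N : ℝ) ^ (1 / 4 : ℝ)) ^ 4 = N := by
    rw [← Real.rpow_natCast, ← Real.rpow_mul hN0.le]; norm_num
  have hfin : 9 * Real.exp (-((N : ℝ) ^ (1 / 4 : ℝ))) ≤ ε * mm q N x (C.y k) := by
    rw [hz4] at hk2
    have h1 : 9 * Real.exp (-((N : ℝ) ^ (1 / 4 : ℝ))) ≤ ε * (q ^ 2 * C.c0 / N) := by
      rw [← mul_div_assoc, le_div_iff₀ hN0]
      linarith
    exact h1.trans (mul_le_mul_of_nonneg_left hmm hε.le)
  have h1 := mul_le_mul_of_nonneg_right hk1'.1.le hBr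
  show |Br' N x (C.y k) h - Br N x (C.y k) h| ≤ _
  unfold Br' Br at *
  linarith

end Pool.Agent.Lib.MP_9cae81_PC
end

section

/-!
# A6: the cavity step
-/

set_option autoImplicit false

open Finset Filter
open scoped BigOperators Topology

namespace Pool.Agent.Lib.MP_9cae81_PC

open Pool.Agent.Lib.MP_9cae81_R

/-- Expectation over the kills. -/
theorem A6_EEbool (t : ℝ) (g : Finset Bool → ℝ) :
    EE (fun _ : Bool => t) g = Real.exp (-t) * Real.exp (-t) * g ∅ +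
      Real.exp (-t) * (1 - Real.exp (-t)) * (g {true} + g {false}) +
      (1 - Real.exp (-t)) * (1 - Real.exp (-t)) * g univ := by
  rw [EE_split _ true, EE_split _ false, EE_split _ false (fun F => g (F.erase true))]
  have h1 : ∀ F : Finset Bool, insert true (insert false F) = univ := by decide
  have h2 : ∀ F : Finset Bool, insert true (F.erase false) = {true} := by decide
  have h3 : ∀ F : Finset Bool, (insert false F).erase true = {false} := by decide
  have h4 : ∀ F : Finset Bool, (F.erase false).erase true = ∅ := by decide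
  simp only [h1, h2, h3, h4, EE_const]
  ring

theorem A6_kl_empty {n : ℕ} (i : Fin (n + 1)) : kl i ∅ = Set.univ := by
  ext σ; simp [kl]

theorem A6_kl_univ {n : ℕ} (i : Fin (n + 1)) : kl i univ = ∅ := by
  ext σ; simp [kl]

theorem A6_kl_single {n : ℕ} (i : Fin (n + 1)) (b : Bool) : kl i {b} = lit (i, !b) := by
  ext σ
  simp only [kl, lit, Finset.mem_singleton, Set.mem_ofPred_eq]
  cases b <;> cases σ i <;> simp

theorem A6_exp_facts {t : ℝ} (ht : 0 ≤ t) : 0 ≤ Real.exp (-t) ∧ Real.exp (-t) ≤ 1 ∧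
    1 - Real.exp (-t) ≤ t := by
  refine ⟨(Real.exp_pos _).le, Real.exp_le_one_iff.2 (by linarith), ?_⟩
  have := Real.add_one_le_exp (-t)
  linarith

section

variable {V : Type} [Fintype V] [DecidableEq V]

set_option linter.unusedSectionVars false in
theorem A6_gq_nn {v w τ : ℝ} (hv : 0 ≤ v) (hw : 0 ≤ w) (hτ : 0 ≤ τ) (c : Cl V) :
    0 ≤ gq v w τ c := by
  unfold gq
  exact qq_nonneg (by positivity) (by positivity) le_rfl c

theorem A6_GA_mono {v w τ : ℝ} (hv : 0 ≤ v) (hw : 0 ≤ w) (hτ : 0 ≤ τ) {Φ Ψ : As V → ℝ}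
    (h : ∀ S, Φ S ≤ Ψ S) : GA v w τ Φ ≤ GA v w τ Ψ :=
  EE_mono (A6_gq_nn hv hw hτ) fun _ => h _

theorem A6_GA_sub (v w τ : ℝ) (Φ Ψ : As V → ℝ) :
    GA v w τ (fun A => Φ A - Ψ A) = GA v w τ Φ - GA v w τ Ψ :=
  EE_sub _ _ _

theorem A6_GA_add (v w τ : ℝ) (Φ Ψ : As V → ℝ) :
    GA v w τ (fun A => Φ A + Ψ A) = GA v w τ Φ + GA v w τ Ψ :=
  EE_add _ _ _

theorem A6_GA_mul (v w τ a : ℝ) (Φ : As V → ℝ) :
    GA v w τ (fun A => a * Φ A) = a * GA v w τ Φ :=
  EE_mul_left _ _ _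

theorem A6_GA_const (v w τ a : ℝ) : GA (V := V) v w τ (fun _ => a) = a :=
  EE_const _ _

end

/-- The triple expectation over the old formula and the two gadgets. -/
noncomputable def A6_T3 {n : ℕ} (u v w : ℝ) (Φ : As (Fin n) → As (Fin n) → As (Fin n) → ℝ) : ℝ :=
  EE (qq u v w) (fun F : Finset (Cl (Fin n)) => GA v w 1 (fun A => GA v w 1 (fun B =>
    Φ (Md F) A B)))

section

variable {n : ℕ} {u v w : ℝ}

theorem A6_T3_mono (hu : 0 ≤ u) (hv : 0 ≤ v) (hw : 0 ≤ w)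
    {Φ Ψ : As (Fin n) → As (Fin n) → As (Fin n) → ℝ} (h : ∀ M A B, Φ M A B ≤ Ψ M A B) :
    A6_T3 u v w Φ ≤ A6_T3 u v w Ψ :=
  EE_mono (qq_nonneg hu hv hw) fun _ => A6_GA_mono hv hw zero_le_one fun _ =>
    A6_GA_mono hv hw zero_le_one fun _ => h _ _ _

theorem A6_T3_add (Φ Ψ : As (Fin n) → As (Fin n) → As (Fin n) → ℝ) :
    A6_T3 u v w (fun M A B => Φ M A B + Ψ M A B) = A6_T3 u v w Φ + A6_T3 u v w Ψ := by
  unfold A6_T3
  simp only [A6_GA_add]
  exact EE_add _ _ _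

theorem A6_T3_sub (Φ Ψ : As (Fin n) → As (Fin n) → As (Fin n) → ℝ) :
    A6_T3 u v w (fun M A B => Φ M A B - Ψ M A B) = A6_T3 u v w Φ - A6_T3 u v w Ψ := by
  unfold A6_T3
  simp only [A6_GA_sub]
  exact EE_sub _ _ _

theorem A6_T3_mul (a : ℝ) (Φ : As (Fin n) → As (Fin n) → As (Fin n) → ℝ) :
    A6_T3 u v w (fun M A B => a * Φ M A B) = a * A6_T3 u v w Φ := by
  unfold A6_T3
  simp only [A6_GA_mul]
  exact EE_mul_left _ _ _

/-- The law with the kills worked out. -/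
theorem A6_law (i : Fin (n + 1)) (h : As (Fin (n + 1)) → ℝ) (h0 : h ∅ = 0) :
    EE (qq u v w) (fun F => h (Md F)) =
      A6_T3 u v w (fun M A B => Real.exp (-(u + v + w)) * Real.exp (-(u + v + w)) *
          h (jn i M A B) + Real.exp (-(u + v + w)) * (1 - Real.exp (-(u + v + w))) *
        (h (jn i M A B ∩ lit (i, false)) + h (jn i M A B ∩ lit (i, true)))) := by
  rw [A4_law i]
  unfold A6_T3
  simp only [A6_EEbool, A6_kl_empty, A6_kl_univ, A6_kl_single, Set.inter_univ, Set.inter_empty, h0,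
    mul_zero, add_zero, Bool.not_true, Bool.not_false]

/-- The part without kills. -/
theorem A6_nokill (hu : 0 ≤ u) (hv : 0 ≤ v) (hw : 0 ≤ w) (i : Fin (n + 1))
    (h : As (Fin (n + 1)) → ℝ) (h0 : h ∅ = 0) (hn : ∀ S, 0 ≤ h S) :
    A6_T3 u v w (fun M A B => h (jn i M A B)) ≤
      Real.exp (2 * (u + v + w)) * EE (qq u v w) (fun F => h (Md F)) := by
  have ht : 0 ≤ u + v + w := by positivity
  obtain ⟨e0, e1, e2⟩ := A6_exp_facts ht
  rw [A6_law i h h0]
  have h1 : A6_T3 u v w (fun M A B => Real.exp (-(u + v + w)) * Real.exp (-(u + v + w)) *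
      h (jn i M A B)) ≤ A6_T3 u v w (fun M A B => Real.exp (-(u + v + w)) *
        Real.exp (-(u + v + w)) * h (jn i M A B) + Real.exp (-(u + v + w)) *
        (1 - Real.exp (-(u + v + w))) *
        (h (jn i M A B ∩ lit (i, false)) + h (jn i M A B ∩ lit (i, true)))) := by
    refine A6_T3_mono hu hv hw fun M A B => ?_
    have := mul_nonneg (mul_nonneg e0 (by linarith : (0:ℝ) ≤ 1 - Real.exp (-(u + v + w))))
      (add_nonneg (hn (jn i M A B ∩ lit (i, false))) (hn (jn i M A B ∩ lit (i, true))))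
    linarith
  rw [A6_T3_mul] at h1
  have h2 : Real.exp (2 * (u + v + w)) * (Real.exp (-(u + v + w)) * Real.exp (-(u + v + w))) = 1 := by
    rw [← Real.exp_add, ← Real.exp_add]
    rw [show 2 * (u + v + w) + (-(u + v + w) + -(u + v + w)) = 0 by ring, Real.exp_zero]
  calc A6_T3 u v w (fun M A B => h (jn i M A B))
      = Real.exp (2 * (u + v + w)) * (Real.exp (-(u + v + w)) * Real.exp (-(u + v + w)) *
          A6_T3 u v w (fun M A B => h (jn i M A B))) := by rw [← mul_assoc, h2, one_mul]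
    _ ≤ _ := mul_le_mul_of_nonneg_left h1 (Real.exp_pos _).le

variable {q : ℝ}

theorem A6_ss_empty (hq : 0 < q) (hq1 : q < 1) {V : Type} [Fintype V] [Nonempty V] :
    ss q (∅ : As V) = 0 :=
  (AS V).s_of_un hq.le hq1 (by show una (∅ : As V) = 1; simp [una])

theorem A6_ss_nn (hq : 0 < q) (hq1 : q < 1) {V : Type} [Fintype V] [Nonempty V] (S : As V) :
    0 ≤ ss q S :=
  (AS V).s_nonneg hq.le hq1 S

/-- Bound of the difference for one literal. -/
theorem A6_one (hq : 0 < q) (hq1 : q < 1) (hu : 0 ≤ u) (hv : 0 ≤ v) (hw : 0 ≤ w)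
    (a : Lt (Fin (n + 1))) (h : As (Fin (n + 1)) → ℝ)
    (hb : ∀ S, |h S| ≤ ss q S + ss q (S ∩ lit a)) :
    |EE (qq u v w) (fun F => h (Md F)) - A6_T3 u v w (fun M A B => h (jn a.1 M A B))| ≤
      2 * (u + v + w) * Real.exp (2 * (u + v + w)) * EE (qq u v w) (fun F =>
        ss q (Md F) + 2 * (ss q (Md F ∩ lit (a.1, false)) + ss q (Md F ∩ lit (a.1, true)))) := by
  have ht : 0 ≤ u + v + w := by positivity
  obtain ⟨e0, e1, e2⟩ := A6_exp_facts ht
  set t := u + v + w with htd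
  have hE : ∀ S : As (Fin (n + 1)), 0 ≤ ss q S := fun S => A6_ss_nn hq hq1 S
  have h0 : h ∅ = 0 := by
    have := hb ∅
    rw [Set.empty_inter, A6_ss_empty hq hq1] at this
    simpa using this
  -- bounds of the two kinds of terms
  have hlit : ∀ (S : As (Fin (n + 1))) (b : Bool), |h (S ∩ lit (a.1, b))| ≤
      2 * ss q (S ∩ lit (a.1, b)) := by
    intro S b
    have h1 := hb (S ∩ lit (a.1, b))
    have h2 : ss q (S ∩ lit (a.1, b) ∩ lit a) ≤ ss q (S ∩ lit (a.1, b)) := by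
      by_cases hab : a.2 = b
      · have : S ∩ lit (a.1, b) ∩ lit a = S ∩ lit (a.1, b) := by
          ext σ
          simp only [lit, Set.mem_inter_iff, Set.mem_ofPred_eq]
          constructor
          · intro h; exact h.1
          · intro h; exact ⟨h, by rw [h.2, hab]⟩
        rw [this]
      · have : S ∩ lit (a.1, b) ∩ lit a = ∅ := by
          ext σ
          simp only [lit, Set.mem_inter_iff, Set.mem_ofPred_eq, Set.mem_empty_iff_false, iff_false]
          rintro ⟨⟨_, h1⟩, h2⟩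
          exact hab (by rw [← h2, h1])
        rw [this, A6_ss_empty hq hq1]
        exact hE _
    linarith
  have hlit2 : ∀ S : As (Fin (n + 1)), ss q (S ∩ lit a) ≤
      ss q (S ∩ lit (a.1, false)) + ss q (S ∩ lit (a.1, true)) := by
    intro S
    have ha : a = (a.1, a.2) := rfl
    cases h2 : a.2
    · rw [h2] at ha
      rw [ha]
      have := hE (S ∩ lit (a.1, true))
      linarith
    · rw [h2] at ha
      rw [ha]
      have := hE (S ∩ lit (a.1, false))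
      linarith
  rw [A6_law a.1 h h0, ← A6_T3_sub]
  set k : As (Fin (n + 1)) → ℝ := fun S => ss q S +
    2 * (ss q (S ∩ lit (a.1, false)) + ss q (S ∩ lit (a.1, true))) with hk
  have hk0 : k ∅ = 0 := by
    simp only [hk, Set.empty_inter, A6_ss_empty hq hq1]; ring
  have hkn : ∀ S, 0 ≤ k S := fun S => by
    have h1 := hE S
    have h2 := hE (S ∩ lit (a.1, false))
    have h3 := hE (S ∩ lit (a.1, true))
    simp only [hk]
    linarith
  have hpt : ∀ M A B : As (Fin n),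
      |Real.exp (-t) * Real.exp (-t) * h (jn a.1 M A B) + Real.exp (-t) * (1 - Real.exp (-t)) *
        (h (jn a.1 M A B ∩ lit (a.1, false)) + h (jn a.1 M A B ∩ lit (a.1, true))) -
        h (jn a.1 M A B)| ≤ 2 * t * k (jn a.1 M A B) := by
    intro M A B
    set S := jn a.1 M A B
    have b1 := hb S
    have b2 := hlit S false
    have b3 := hlit S true
    have b4 := hlit2 S
    have c1 := abs_le.1 b1
    have c2 := abs_le.1 b2
    have c3 := abs_le.1 b3
    have p1 := hE S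
    have p2 := hE (S ∩ lit (a.1, false))
    have p3 := hE (S ∩ lit (a.1, true))
    have p4 := hE (S ∩ lit a)
    have f1 : 0 ≤ 1 - Real.exp (-t) * Real.exp (-t) := by nlinarith
    have f2 : 1 - Real.exp (-t) * Real.exp (-t) ≤ 2 * t := by nlinarith
    have f3 : 0 ≤ Real.exp (-t) * (1 - Real.exp (-t)) := mul_nonneg e0 (by linarith)
    have f4 : Real.exp (-t) * (1 - Real.exp (-t)) ≤ t := by nlinarith
    have g1 : |(1 - Real.exp (-t) * Real.exp (-t)) * h S| ≤ 2 * t * (ss q S +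
        (ss q (S ∩ lit (a.1, false)) + ss q (S ∩ lit (a.1, true)))) := by
      rw [abs_mul, abs_of_nonneg f1]
      exact mul_le_mul f2 (by linarith) (abs_nonneg _) (by linarith)
    have g2 : |Real.exp (-t) * (1 - Real.exp (-t)) *
        (h (S ∩ lit (a.1, false)) + h (S ∩ lit (a.1, true)))| ≤
        t * (2 * ss q (S ∩ lit (a.1, false)) + 2 * ss q (S ∩ lit (a.1, true))) := by
      rw [abs_mul, abs_of_nonneg f3]
      refine mul_le_mul f4 ?_ (abs_nonneg _) ht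
      exact (abs_add_le _ _).trans (by linarith)
    have e : Real.exp (-t) * Real.exp (-t) * h S + Real.exp (-t) * (1 - Real.exp (-t)) *
        (h (S ∩ lit (a.1, false)) + h (S ∩ lit (a.1, true))) - h S =
        -((1 - Real.exp (-t) * Real.exp (-t)) * h S) + Real.exp (-t) * (1 - Real.exp (-t)) *
        (h (S ∩ lit (a.1, false)) + h (S ∩ lit (a.1, true))) := by ring
    rw [e]
    refine (abs_add_le _ _).trans ?_
    rw [abs_neg]
    have : 2 * t * k S = 2 * t * (ss q S +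
        (ss q (S ∩ lit (a.1, false)) + ss q (S ∩ lit (a.1, true)))) +
        t * (2 * ss q (S ∩ lit (a.1, false)) + 2 * ss q (S ∩ lit (a.1, true))) := by
      simp only [hk]; ring
    rw [this]
    exact add_le_add g1 g2
  have hup : A6_T3 u v w (fun M A B => Real.exp (-t) * Real.exp (-t) * h (jn a.1 M A B) +
      Real.exp (-t) * (1 - Real.exp (-t)) *
        (h (jn a.1 M A B ∩ lit (a.1, false)) + h (jn a.1 M A B ∩ lit (a.1, true))) -
        h (jn a.1 M A B)) ≤ A6_T3 u v w (fun M A B => 2 * t * k (jn a.1 M A B)) :=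
    A6_T3_mono hu hv hw fun M A B => (abs_le.1 (hpt M A B)).2
  have hlo : A6_T3 u v w (fun M A B => -(2 * t) * k (jn a.1 M A B)) ≤
      A6_T3 u v w (fun M A B => Real.exp (-t) * Real.exp (-t) * h (jn a.1 M A B) +
      Real.exp (-t) * (1 - Real.exp (-t)) *
        (h (jn a.1 M A B ∩ lit (a.1, false)) + h (jn a.1 M A B ∩ lit (a.1, true))) -
        h (jn a.1 M A B)) :=
    A6_T3_mono hu hv hw fun M A B => by
      have := (abs_le.1 (hpt M A B)).1
      linarith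
  rw [A6_T3_mul] at hup hlo
  have hfin := A6_nokill hu hv hw a.1 k hk0 hkn
  have h2t : 0 ≤ 2 * t := by linarith
  have hm := mul_le_mul_of_nonneg_left hfin h2t
  rw [abs_le]
  constructor
  · nlinarith [hlo, hm]
  · nlinarith [hup, hm]

/-- Sum over the two literals of a variable. -/
theorem A6_sumlit (f : Lt (Fin (n + 1)) → ℝ) :
    ∑ a : Lt (Fin (n + 1)), (f (a.1, false) + f (a.1, true)) = 2 * ∑ a : Lt (Fin (n + 1)), f a := by
  rw [Fintype.sum_prod_type, Fintype.sum_prod_type, Finset.mul_sum]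
  refine Finset.sum_congr rfl fun i _ => ?_
  simp only [Fintype.sum_bool]
  ring

/-- The cavity step for one number of variables. -/
theorem A6_step (hq : 0 < q) (hq1 : q < 1) (hu : 0 ≤ u) (hv : 0 ≤ v) (hw : 0 ≤ w)
    (ht1 : u + v + w ≤ 1) (G : FunL)
    (hb : ∀ n S a, |G n S a| ≤ ss q S + ss q (S ∩ lit a)) :
    |EE (qq u v w) (fun F => avL G (n + 1) (Md F)) -
      EE (qq u v w) (fun F => cav v w G n (Md F))| ≤
      (u + v + w) * (80 / q) * EE (qq u v w) (fun F : Finset (Cl (Fin (n + 1))) => ss q (Md F)) := by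
  have ht : 0 ≤ u + v + w := by positivity
  set t := u + v + w with htd
  have hc : (0 : ℝ) < Fintype.card (Lt (Fin (n + 1))) := by exact_mod_cast Fintype.card_pos
  set c : ℝ := (Fintype.card (Lt (Fin (n + 1))) : ℝ) with hcd
  have e1 : EE (qq u v w) (fun F => avL G (n + 1) (Md F)) =
      (∑ a : Lt (Fin (n + 1)), EE (qq u v w) (fun F => G (n + 1) (Md F) a)) / c := by
    unfold avL
    rw [← EE_sum, div_eq_inv_mul, ← EE_mul_left]
    simp only [div_eq_inv_mul]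
    rfl
  have e2 : EE (qq u v w) (fun F => cav v w G n (Md F)) =
      (∑ a : Lt (Fin (n + 1)), A6_T3 u v w (fun M A B => G (n + 1) (jn a.1 M A B) a)) / c := by
    unfold cav A6_T3
    rw [← EE_sum, div_eq_inv_mul, ← EE_mul_left]
    simp only [div_eq_inv_mul]
    rfl
  rw [e1, e2, ← sub_div, ← Finset.sum_sub_distrib, abs_div, abs_of_pos hc, div_le_iff₀ hc]
  refine (Finset.abs_sum_le_sum_abs _ _).trans ?_
  refine (Finset.sum_le_sum fun a _ => A6_one hq hq1 hu hv hw a (fun S => G (n + 1) S a)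
    (fun S => hb (n + 1) S a)).trans ?_
  rw [← Finset.mul_sum, ← htd]
  have e3 : ∑ a : Lt (Fin (n + 1)), EE (qq u v w) (fun F =>
        ss q (Md F) + 2 * (ss q (Md F ∩ lit (a.1, false)) + ss q (Md F ∩ lit (a.1, true)))) =
      c * EE (qq u v w) (fun F : Finset (Cl (Fin (n + 1))) => ss q (Md F)) +
        4 * (c * EE (qq u v w) (fun F : Finset (Cl (Fin (n + 1))) => P1 (ss q) (Md F))) := by
    have : ∀ a : Lt (Fin (n + 1)), EE (qq u v w) (fun F =>
        ss q (Md F) + 2 * (ss q (Md F ∩ lit (a.1, false)) + ss q (Md F ∩ lit (a.1, true)))) =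
        EE (qq u v w) (fun F : Finset (Cl (Fin (n + 1))) => ss q (Md F)) +
        2 * (EE (qq u v w) (fun F => ss q (Md F ∩ lit (a.1, false))) +
          EE (qq u v w) (fun F => ss q (Md F ∩ lit (a.1, true)))) := by
      intro a
      rw [EE_add, EE_mul_left, EE_add]
    rw [Finset.sum_congr rfl fun a _ => this a, Finset.sum_add_distrib, ← Finset.mul_sum,
      A6_sumlit (fun a => EE (qq u v w) (fun F => ss q (Md F ∩ lit a))), Finset.sum_const,
      Finset.card_univ, nsmul_eq_mul, ← EE_sum]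
    have h4 : EE (qq u v w) (fun F : Finset (Cl (Fin (n + 1))) =>
        ∑ a : Lt (Fin (n + 1)), ss q (Md F ∩ lit a)) =
        c * EE (qq u v w) (fun F : Finset (Cl (Fin (n + 1))) => P1 (ss q) (Md F)) := by
      rw [← EE_mul_left]
      congr 1
      funext F
      show _ = c * ((∑ a : Lt (Fin (n + 1)), ss q (Md F ∩ lit a)) / c)
      field_simp
    rw [h4]
    ring
  rw [e3]
  set E0 := EE (qq u v w) (fun F : Finset (Cl (Fin (n + 1))) => ss q (Md F)) with hE0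
  have hE0n : 0 ≤ E0 := EE_nonneg (qq_nonneg hu hv hw) fun F => A6_ss_nn hq hq1 _
  have h5 : EE (qq u v w) (fun F : Finset (Cl (Fin (n + 1))) => P1 (ss q) (Md F)) ≤ E0 / q := by
    rw [div_eq_inv_mul, hE0, ← EE_mul_left]
    refine EE_mono (qq_nonneg hu hv hw) fun F => ?_
    have := (AS (Fin (n + 1))).P1_s_le hq hq1 (Md F)
    have e : 1 + (1 - q) / q = q⁻¹ := by field_simp; ring
    rw [e] at this
    exact this
  have hexp : Real.exp (2 * t) ≤ 8 := by
    have h1 : Real.exp (2 * t) ≤ Real.exp 2 := Real.exp_le_exp.2 (by linarith)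
    have h2 : Real.exp 2 ≤ 8 := by
      have := Real.exp_one_lt_d9
      have e : Real.exp 2 = Real.exp 1 * Real.exp 1 := by rw [← Real.exp_add]; norm_num
      rw [e]
      nlinarith [Real.exp_pos 1]
    linarith
  have hq2 : 1 ≤ 1 / q := by rw [le_div_iff₀ hq]; linarith
  have h6 : c * E0 + 4 * (c * EE (qq u v w)
      (fun F : Finset (Cl (Fin (n + 1))) => P1 (ss q) (Md F))) ≤ c * (5 * (E0 / q)) := by
    have h7 : E0 ≤ E0 / q := by rw [le_div_iff₀ hq]; nlinarith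
    nlinarith [mul_le_mul_of_nonneg_left h5 hc.le, mul_le_mul_of_nonneg_left h7 hc.le]
  have hX : 0 ≤ c * (5 * (E0 / q)) := by positivity
  calc 2 * t * Real.exp (2 * t) * (c * E0 + 4 * (c * EE (qq u v w)
      (fun F : Finset (Cl (Fin (n + 1))) => P1 (ss q) (Md F))))
      ≤ 2 * t * 8 * (c * (5 * (E0 / q))) := by
        refine (mul_le_mul_of_nonneg_left h6 (by positivity)).trans ?_
        exact mul_le_mul_of_nonneg_right (mul_le_mul_of_nonneg_left hexp (by positivity)) hX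
    _ = t * (80 / q) * E0 * c := by ring

end

theorem A6_Wt_pos (N n : ℕ) : 0 < Wt N n := Real.exp_pos _

/-- The intensities are nonnegative and their sum is at most `N^(-9/10)`. -/
theorem A6_int {N : ℕ} (hN : 1 ≤ N) {x y : ℝ} (hx : 0 ≤ x) (hx1 : x ≤ 1) (hy : 0 ≤ y)
    (hy1 : y ≤ 1) : 0 ≤ Iu N ∧ 0 ≤ Iv N x ∧ 0 ≤ Iw N y ∧
      Iu N + Iv N x + Iw N y ≤ (N : ℝ) ^ (-(9 / 10) : ℝ) := by
  have hN0 : (1 : ℝ) ≤ N := by exact_mod_cast hN
  have hNp : (0 : ℝ) < N := by linarith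
  have hL : 0 ≤ LN N := by unfold LN; positivity
  refine ⟨by unfold Iu; positivity, by unfold Iv; positivity, by unfold Iw; positivity, ?_⟩
  have hL1 : 1 ≤ LN N := Real.one_le_rpow hN0 (by norm_num)
  have e : (N : ℝ) ^ (-(9 / 10) : ℝ) = LN N / N := by
    unfold LN
    rw [← Real.rpow_sub_one hNp.ne']
    norm_num
  rw [e]
  unfold Iu Iv Iw
  have h1 : x / (4 * (N : ℝ)) ≤ LN N / (4 * N) := by
    apply div_le_div_of_nonneg_right (by linarith) (by positivity)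
  have h2 : y / (8 * (N : ℝ) ^ 2) ≤ LN N / (8 * N) := by
    rw [div_le_div_iff₀ (by positivity) (by positivity)]
    have : y * (8 * (N : ℝ)) ≤ LN N * (8 * (N : ℝ) * N) := by
      have h3 : y ≤ LN N * N := by nlinarith
      nlinarith
    nlinarith
  have h3 : LN N / (2 * N) + LN N / (4 * N) + LN N / (8 * N) ≤ LN N / N := by
    have : LN N / (2 * N) + LN N / (4 * N) + LN N / (8 * N) = 7 / 8 * (LN N / N) := by
      field_simp; ring
    rw [this]
    have : 0 ≤ LN N / N := by positivity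
    linarith
  linarith

theorem A6_ss_B1 {q : ℝ} (hq : 0 < q) (hq1 : q < 1) : B1 (fun n (S : As (Fin n)) => ss q S) := by
  intro n S
  rcases n with _ | n
  · have h1 : ∀ (k : ℕ), ((AS (Fin 0)).P1^[k + 1] (AS (Fin 0)).un) S = 0 := by
      intro k
      rw [Function.iterate_succ_apply']
      unfold Sys.P1
      rw [Finset.sum_of_isEmpty, zero_div]
    have h2 : vv q S = (1 - q) * una S := by
      show (AS (Fin 0)).R q (AS (Fin 0)).un S = _
      unfold Sys.R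
      rw [tsum_eq_single 0]
      · simp only [pow_zero, one_mul, Function.iterate_zero, id_eq]
        rfl
      · intro k hk
        obtain ⟨j, rfl⟩ := Nat.exists_eq_succ_of_ne_zero hk
        rw [Nat.succ_eq_add_one, h1, mul_zero]
    have h3 : ss q S = -q * una S := by
      show vv q S - una S = _
      rw [h2]; ring
    show |ss q S| ≤ 1
    rw [h3]
    rcases (AS (Fin 0)).un01 S with h | h
    · have h' : una S = 0 := h
      rw [h', mul_zero, abs_zero]; exact zero_le_one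
    · have h' : una S = 1 := h
      rw [h', mul_one, abs_neg, abs_of_pos hq]; exact hq1.le
  · show |ss q S| ≤ 1
    rw [abs_of_nonneg (A6_ss_nn hq hq1 S)]
    exact (AS (Fin (n + 1))).s_le_one hq.le hq1 S

theorem A6_ss_nn' {q : ℝ} (hq : 0 < q) (hq1 : q < 1) {n : ℕ} (hn : 1 ≤ n) (S : As (Fin n)) :
    0 ≤ ss q S := by
  obtain ⟨m, rfl⟩ : ∃ m, n = m + 1 := ⟨n - 1, by omega⟩
  exact A6_ss_nn hq hq1 S

/-- **The cavity step.** -/
theorem A6_cavity {q x Y : ℝ} (hq : 0 < q) (hq1 : q < 1) (hx : 1 / 2 ≤ x) (hx1 : x ≤ 1)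
    (hY : Y ≤ 1) (C : Cen x Y) {ε : ℝ} (hε : 0 < ε) : ∀ᶠ k in atTop, ∀ G : FunL,
      (∀ n S a, |G n S a| ≤ ss q S + ss q (S ∩ lit a)) →
      |Br' (C.N k) x (C.y k) (avL G) - Br (C.N k) x (C.y k)
        (cav (Iv (C.N k) x) (Iw (C.N k) (C.y k)) G)| ≤ ε * mm q (C.N k) x (C.y k) := by
  have hx0 : 0 ≤ x := by linarith
  have hlim : Tendsto (fun k => (C.N k : ℝ) ^ (-(9 / 10) : ℝ) * (80 / q)) atTop (𝓝 0) := by
    have h1 : Tendsto (fun k => (C.N k : ℝ)) atTop atTop :=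
      tendsto_natCast_atTop_atTop.comp C.hN
    have h2 := (tendsto_rpow_neg_atTop (y := 9 / 10) (by norm_num)).comp h1
    have h3 := h2.mul_const (80 / q)
    rw [zero_mul] at h3
    exact h3
  filter_upwards [A3_shift hq hq1 hx0 C (ε := 1) one_pos, C.hN.eventually A0_window,
    A2_add (K := 160 / q) hq hq1 hx0 C (ε := ε / 2) (by positivity),
    hlim.eventually (gt_mem_nhds (show (0 : ℝ) < ε / 2 by positivity))] with k hsh hwin hadd hsm G hG
  obtain ⟨hu, hv, hw, hsum⟩ := A6_int (C.N1 k) hx0 hx1 (C.y0 k) ((C.yY k).trans hY)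
  have hN0 : (1 : ℝ) ≤ C.N k := by exact_mod_cast C.N1 k
  have hp1 : (C.N k : ℝ) ^ (-(9 / 10) : ℝ) ≤ 1 := Real.rpow_le_one_of_one_le_of_nonpos hN0 (by norm_num)
  have hp2 : (C.N k : ℝ) ^ (-(9 / 10) : ℝ) ≤ (C.N k : ℝ) ^ (-(4 / 5) : ℝ) :=
    Real.rpow_le_rpow_of_exponent_le hN0 (by norm_num)
  have hmm : 0 ≤ mm q (C.N k) x (C.y k) := by
    unfold mm Br En
    exact Finset.sum_nonneg fun n _ => mul_nonneg (A6_Wt_pos _ _).le
      (EE_nonneg (qq_nonneg hu hv hw) fun F => sq_nonneg _)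
  have h1 : |Br' (C.N k) x (C.y k) (avL G) - Br (C.N k) x (C.y k)
        (cav (Iv (C.N k) x) (Iw (C.N k) (C.y k)) G)| ≤
      (C.N k : ℝ) ^ (-(9 / 10) : ℝ) * (80 / q) * Br' (C.N k) x (C.y k) (fun _ S => ss q S) := by
    unfold Br' Br
    rw [← Finset.sum_sub_distrib, Finset.mul_sum]
    refine (Finset.abs_sum_le_sum_abs _ _).trans (Finset.sum_le_sum fun n _ => ?_)
    rw [← mul_sub, abs_mul, abs_of_pos (A6_Wt_pos _ _), mul_left_comm]
    refine mul_le_mul_of_nonneg_left ?_ (A6_Wt_pos _ _).le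
    have h2 := A6_step (n := n) hq hq1 hu hv hw (hsum.trans hp1) G hG
    refine h2.trans ?_
    have h3 : 0 ≤ EE (qq (Iu (C.N k)) (Iv (C.N k) x) (Iw (C.N k) (C.y k)))
        (fun F : Finset (Cl (Fin (n + 1))) => ss q (Md F)) :=
      EE_nonneg (qq_nonneg hu hv hw) fun F => A6_ss_nn hq hq1 _
    exact mul_le_mul_of_nonneg_right (mul_le_mul_of_nonneg_right hsum (by positivity)) h3
  have hn1 : ∀ n ∈ Finset.Icc (C.N k - MW (C.N k)) (C.N k + MW (C.N k)), 1 ≤ n := by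
    intro n hn
    have h2 := (hwin.2.1 n hn).1
    have h3 := C.N1 k
    omega
  have h4 := hsh (fun n (S : As (Fin n)) => ss q S) (A6_ss_B1 hq hq1)
  have h5 : Br (C.N k) x (C.y k) (fun n (S : As (Fin n)) => |ss q S|) =
      Br (C.N k) x (C.y k) (fun n (S : As (Fin n)) => ss q S) := by
    unfold Br En
    refine Finset.sum_congr rfl fun n hn => ?_
    congr 2
    funext F
    exact abs_of_nonneg (A6_ss_nn' hq hq1 (hn1 n hn) _)
  rw [h5] at h4
  have h6 := (abs_le.1 h4).2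
  have h7 : Br' (C.N k) x (C.y k) (fun _ S => ss q S) ≤
      2 * Br (C.N k) x (C.y k) (fun _ S => ss q S) + mm q (C.N k) x (C.y k) := by linarith
  have h8 : 0 ≤ Br (C.N k) x (C.y k) (fun _ S => ss q S) := by
    unfold Br En
    exact Finset.sum_nonneg fun n hn => mul_nonneg (A6_Wt_pos _ _).le
      (EE_nonneg (qq_nonneg hu hv hw) fun F => A6_ss_nn' hq hq1 (hn1 n hn) _)
  set P : ℝ := (C.N k : ℝ) ^ (-(9 / 10) : ℝ) with hP
  have hP0 : 0 ≤ P := by positivity
  calc |Br' (C.N k) x (C.y k) (avL G) - Br (C.N k) x (C.y k)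
        (cav (Iv (C.N k) x) (Iw (C.N k) (C.y k)) G)|
      ≤ P * (80 / q) * (2 * Br (C.N k) x (C.y k) (fun _ S => ss q S) +
          mm q (C.N k) x (C.y k)) := h1.trans (mul_le_mul_of_nonneg_left h7 (by positivity))
    _ = 160 / q * (P * Br (C.N k) x (C.y k) (fun _ S => ss q S)) +
          P * (80 / q) * mm q (C.N k) x (C.y k) := by ring
    _ ≤ 160 / q * ((C.N k : ℝ) ^ (-(4 / 5) : ℝ) * Br (C.N k) x (C.y k) (fun _ S => ss q S)) +
          ε / 2 * mm q (C.N k) x (C.y k) := by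
        refine add_le_add ?_ ?_
        · exact mul_le_mul_of_nonneg_left (mul_le_mul_of_nonneg_right hp2 h8) (by positivity)
        · exact mul_le_mul_of_nonneg_right hsm.le hmm
    _ ≤ ε * mm q (C.N k) x (C.y k) := by linarith [hadd.2]

end Pool.Agent.Lib.MP_9cae81_PC
end

section

/-!
# No sudden jumps, the new variable
-/

set_option autoImplicit false
set_option linter.unusedSectionVars false

open Finset Filter
open scoped BigOperators Topology

namespace Pool.Agent.Lib.MP_9cae81_PC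

open Pool.Agent.Lib.MP_9cae81_R

namespace B2

/-- Squared increment under the marked literal, on surviving states. -/
noncomputable def Gs (q : ℝ) : FunL := fun _ S a =>
  (1 - una (S ∩ lit a)) * (vv q (S ∩ lit a) - vv q S) ^ 2

/-- Squared increment under the marked literal, weighted by `v`, deaths included. -/
noncomputable def Gd (q : ℝ) : FunL := fun _ S a => vv q S * (vv q (S ∩ lit a) - vv q S) ^ 2

variable {q : ℝ} {n : ℕ}

theorem avL_Gs (q : ℝ) (n : ℕ) (S : As (Fin n)) : avL (Gs q) n S = (AS (Fin n)).Gp q S := rfl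

theorem avL_Gd (q : ℝ) (n : ℕ) (S : As (Fin n)) :
    avL (Gd q) n S = vv q S * (AS (Fin n)).Gm q S := by
  unfold avL Gd Sys.Gm
  rw [← Finset.mul_sum, mul_div_assoc]
  rfl

theorem Gs_nonneg (S : As (Fin n)) (a : Lt (Fin n)) : 0 ≤ Gs q n S a :=
  mul_nonneg (by linarith [una_le_one (S ∩ lit a)]) (sq_nonneg _)

theorem Gd_nonneg (hq : 0 ≤ q) (hq1 : q < 1) (S : As (Fin n)) (a : Lt (Fin n)) :
    0 ≤ Gd q n S a := by
  have : Nonempty (Fin n) := ⟨a.1⟩
  exact mul_nonneg (vv_nonneg hq hq1 S) (sq_nonneg _)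

theorem Gs_bound (hq : 0 ≤ q) (hq1 : q < 1) (S : As (Fin n)) (a : Lt (Fin n)) :
    |Gs q n S a| ≤ ss q S + ss q (S ∩ lit a) := by
  have : Nonempty (Fin n) := ⟨a.1⟩
  rw [abs_of_nonneg (Gs_nonneg S a)]
  have h0 : 0 ≤ ss q S := (AS (Fin n)).s_nonneg hq hq1 S
  have h1 : 0 ≤ ss q (S ∩ lit a) := (AS (Fin n)).s_nonneg hq hq1 _
  unfold Gs
  rcases una01 (S ∩ lit a) with h | h
  · have h2 : ss q (S ∩ lit a) = vv q (S ∩ lit a) := (AS (Fin n)).s_of_sat h
    have h3 := vv_le_one hq hq1 (S ∩ lit a)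
    have h4 := vv_nonneg hq hq1 S
    have h5 := vv_le_inter hq hq1 S (lit a)
    rw [h, h2]
    nlinarith
  · rw [h]; linarith

theorem Gd_bound (hq : 0 ≤ q) (hq1 : q < 1) (S : As (Fin n)) (a : Lt (Fin n)) :
    |Gd q n S a| ≤ ss q S + ss q (S ∩ lit a) := by
  have : Nonempty (Fin n) := ⟨a.1⟩
  rw [abs_of_nonneg (Gd_nonneg hq hq1 S a)]
  have h1 : 0 ≤ ss q (S ∩ lit a) := (AS (Fin n)).s_nonneg hq hq1 _
  unfold Gd
  rcases una01 S with h | h
  · have h2 : ss q S = vv q S := (AS (Fin n)).s_of_sat h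
    have h3 := vv_le_one hq hq1 (S ∩ lit a)
    have h4 := vv_nonneg hq hq1 S
    have h5 := vv_le_inter hq hq1 S (lit a)
    rw [h2]
    have h6 : (vv q (S ∩ lit a) - vv q S) ^ 2 ≤ 1 := by nlinarith
    have := mul_le_of_le_one_right h4 h6
    linarith
  · have h2 : S = ∅ := una_eq_one.1 h
    have h3 : 0 ≤ ss q S := (AS (Fin n)).s_nonneg hq hq1 S
    have h4 : S ∩ lit a = S := by rw [h2, Set.empty_inter]
    have h5 : vv q (S ∩ lit a) - vv q S = 0 := by rw [h4, sub_self]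
    rw [h5]
    have h6 : vv q S * (0 : ℝ) ^ 2 = 0 := by ring
    rw [h6]
    linarith

/-- The gadget on the side of the marked literal. -/
def sel (a : Lt (Fin (n + 1))) (A B : As (Fin n)) : As (Fin n) := if a.2 then B else A

theorem jn_pr (a : Lt (Fin (n + 1))) (M A B : As (Fin n)) :
    pr a.1 (jn a.1 M A B) = M ∩ (A ∪ B) ∧
      pr a.1 (jn a.1 M A B ∩ lit a) = M ∩ sel a A B := by
  obtain ⟨i, s⟩ := a
  have h := A5_pr i M A B
  refine ⟨h.1, ?_⟩
  cases s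
  · exact h.2.2
  · exact h.2.1

/-- Comparison of the increment under the marked literal with the gadget on its side. -/
theorem jn_diff (hq : 0 < q) (hq1 : q < 1) [Nonempty (Fin n)] (a : Lt (Fin (n + 1)))
    (M A B : As (Fin n)) :
    0 ≤ vv q (jn a.1 M A B ∩ lit a) - vv q (jn a.1 M A B) ∧
      vv q (jn a.1 M A B ∩ lit a) - vv q (jn a.1 M A B) ≤
        vv q (M ∩ sel a A B) - vv q (M ∩ (A ∪ B)) + 2 * (1 / (muq q * (n + 1))) ∧
      vv q (jn a.1 M A B) ≤ vv q (M ∩ (A ∪ B)) + 1 / (muq q * (n + 1)) ∧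
      una (jn a.1 M A B ∩ lit a) = una (M ∩ sel a A B) := by
  obtain ⟨h1, h2⟩ := jn_pr a M A B
  have h3 := A5_shift hq hq1 a.1 (jn a.1 M A B)
  have h4 := A5_shift hq hq1 a.1 (jn a.1 M A B ∩ lit a)
  rw [h1] at h3
  rw [h2] at h4
  have h5 := abs_le.1 h3
  have h6 := abs_le.1 h4
  refine ⟨?_, ?_, ?_, ?_⟩
  · linarith [vv_le_inter hq.le hq1 (jn a.1 M A B) (lit a)]
  · linarith [h5.1, h6.2]
  · linarith [h5.2]
  · rw [← A5_un a.1, h2]

theorem sel_sub (a : Lt (Fin (n + 1))) (A B : As (Fin n)) : sel a A B ⊆ A ∪ B := by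
  unfold sel
  split_ifs
  · exact Set.subset_union_right
  · exact Set.subset_union_left

theorem muq_pos (hq : 0 < q) (hq1 : q < 1) : 0 < muq q := div_pos (by linarith) hq

theorem Gs_jn (hq : 0 < q) (hq1 : q < 1) [Nonempty (Fin n)] (a : Lt (Fin (n + 1)))
    (M A B : As (Fin n)) {η : ℝ} (hη : 0 < η) :
    Gs q (n + 1) (jn a.1 M A B) a ≤ (1 + η) * gs q M (M ∩ sel a A B) +
      (1 + 1 / η) * (4 * (1 / (muq q * (n + 1))) ^ 2) := by
  obtain ⟨h1, h2, -, h4⟩ := jn_diff hq hq1 a M A B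
  have hμ := muq_pos hq hq1
  set e := 1 / (muq q * ((n : ℝ) + 1)) with he
  have he0 : 0 ≤ e := by positivity
  set d := vv q (jn a.1 M A B ∩ lit a) - vv q (jn a.1 M A B) with hd
  have h5 : vv q M ≤ vv q (M ∩ (A ∪ B)) := vv_le_inter hq.le hq1 _ _
  have h6 : vv q M ≤ vv q (M ∩ sel a A B) := vv_le_inter hq.le hq1 _ _
  unfold Gs gs
  rw [h4, ← hd]
  set t := vv q (M ∩ sel a A B) - vv q M with ht
  have ht0 : 0 ≤ t := by linarith
  have hdt : d ≤ t + 2 * e := by linarith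
  have hu := una_le_one (M ∩ sel a A B)
  have hu0 := una_nonneg (M ∩ sel a A B)
  have hη' : 0 < 1 / η := by positivity
  have h7 : d ^ 2 ≤ (1 + η) * t ^ 2 + (1 + 1 / η) * (4 * e ^ 2) := by
    have h8 : d ^ 2 ≤ (t + 2 * e) ^ 2 := pow_le_pow_left₀ h1 hdt 2
    have h9 : 4 * (t * e) ≤ η * t ^ 2 + 1 / η * (4 * e ^ 2) := by
      have h10 : η * (4 * (t * e)) ≤ η * (η * t ^ 2 + 1 / η * (4 * e ^ 2)) := by
        have : η * (η * t ^ 2 + 1 / η * (4 * e ^ 2)) = (η * t) ^ 2 + 4 * e ^ 2 := by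
          field_simp
        rw [this]
        nlinarith [sq_nonneg (η * t - 2 * e)]
      exact le_of_mul_le_mul_left h10 hη
    nlinarith
  have h11 : 0 ≤ (1 + 1 / η) * (4 * e ^ 2) := by positivity
  calc (1 - una (M ∩ sel a A B)) * d ^ 2
      ≤ (1 - una (M ∩ sel a A B)) * ((1 + η) * t ^ 2 + (1 + 1 / η) * (4 * e ^ 2)) :=
        mul_le_mul_of_nonneg_left h7 (by linarith)
    _ ≤ _ := by nlinarith [mul_nonneg hu0 h11]

theorem mk_sel (a : Lt (Fin (n + 1))) (M A B : As (Fin n)) :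
    ∃ T' : As (Fin n), (T' = A ∨ T' = B) ∧ T' ⊆ A ∪ B ∧
      mk q T' M * mk q (sel a A B) M = mk q A M * mk q B M := by
  unfold sel
  cases h : a.2
  · exact ⟨B, Or.inr rfl, Set.subset_union_right, by simp [mul_comm]⟩
  · exact ⟨A, Or.inl rfl, Set.subset_union_left, by simp⟩

theorem Gd_jn (hq : 0 < q) (hq1 : q < 1) [Nonempty (Fin n)] (a : Lt (Fin (n + 1)))
    (M A B : As (Fin n)) (he1 : 1 / (muq q * ((n : ℝ) + 1)) ≤ 1) :
    Gd q (n + 1) (jn a.1 M A B) a ≤ gd q M (M ∩ sel a A B) + mk q A M * mk q B M +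
      9 * (1 / (muq q * (n + 1))) * mk q (sel a A B) M +
      8 * (1 / (muq q * (n + 1))) ^ 2 := by
  obtain ⟨h1, h2, h3, -⟩ := jn_diff hq hq1 a M A B
  obtain ⟨T', hT', hT'2, hT'3⟩ := mk_sel (q := q) a M A B
  have hμ := muq_pos hq hq1
  set e := 1 / (muq q * ((n : ℝ) + 1)) with he
  have he0 : 0 ≤ e := by positivity
  set d := vv q (jn a.1 M A B ∩ lit a) - vv q (jn a.1 M A B) with hd
  set V0 := vv q (jn a.1 M A B) with hV0
  have hV0n : 0 ≤ V0 := vv_nonneg hq.le hq1 _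
  set vAB := vv q (M ∩ (A ∪ B)) with hvAB
  have hAB0 : 0 ≤ vAB := vv_nonneg hq.le hq1 _
  have hAB1 : vAB ≤ 1 := vv_le_one hq.le hq1 _
  have h5 : vv q M ≤ vAB := vv_le_inter hq.le hq1 _ _
  have h6 : vAB ≤ vv q (M ∩ sel a A B) :=
    vv_anti hq.le hq1 (Set.inter_subset_inter_right M (sel_sub a A B))
  have h7 : vAB ≤ vv q M + mk q T' M := by
    have : vAB ≤ vv q (M ∩ T') := vv_anti hq.le hq1 (Set.inter_subset_inter_right M hT'2)
    unfold mk
    linarith
  have h8 : vv q (M ∩ sel a A B) ≤ 1 := vv_le_one hq.le hq1 _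
  set b := mk q (sel a A B) M with hb
  have hb' : b = vv q (M ∩ sel a A B) - vv q M := rfl
  have hM0 : 0 ≤ vv q M := vv_nonneg hq.le hq1 M
  set t := vv q (M ∩ sel a A B) - vAB with ht
  have ht0 : 0 ≤ t := by linarith
  have ht1 : t ≤ 1 := by linarith
  have htb : t ≤ b := by rw [hb']; linarith
  have hb0 : 0 ≤ b := le_trans ht0 htb
  have hb1 : b ≤ 1 := by rw [hb']; linarith
  have hT0 : 0 ≤ mk q T' M := mk_nonneg hq.le hq1 _ _
  have h9 : V0 * d ^ 2 ≤ (vAB + e) * (t + 2 * e) ^ 2 :=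
    mul_le_mul h3 (pow_le_pow_left₀ h1 h2 2) (sq_nonneg _) (by linarith)
  have h10 : (vAB + e) * (t + 2 * e) ^ 2 ≤ vAB * t ^ 2 + 9 * e * t + 8 * e ^ 2 := by
    have e1 : (vAB + e) * (t + 2 * e) ^ 2 =
        vAB * t ^ 2 + e * t ^ 2 + (vAB + e) * (4 * (t * e) + 4 * e ^ 2) := by ring
    rw [e1]
    have e2 : e * t ^ 2 ≤ e * t := by
      refine mul_le_mul_of_nonneg_left ?_ he0
      nlinarith
    have e3 : (vAB + e) * (4 * (t * e) + 4 * e ^ 2) ≤ 2 * (4 * (t * e) + 4 * e ^ 2) :=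
      mul_le_mul_of_nonneg_right (by linarith) (by positivity)
    linarith
  have h11 : vAB * t ^ 2 ≤ vv q M * b ^ 2 + mk q T' M * b := by
    have e1 : t ^ 2 ≤ b ^ 2 := pow_le_pow_left₀ ht0 htb 2
    have e2 : b ^ 2 ≤ b := by nlinarith
    have e3 : vAB * t ^ 2 ≤ (vv q M + mk q T' M) * b ^ 2 :=
      mul_le_mul h7 e1 (sq_nonneg _) (by linarith)
    have e4 : mk q T' M * b ^ 2 ≤ mk q T' M * b := mul_le_mul_of_nonneg_left e2 hT0
    linarith
  have h12 : 9 * e * t ≤ 9 * e * b := mul_le_mul_of_nonneg_left htb (by positivity)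
  have h13 : gd q M (M ∩ sel a A B) = vv q M * b ^ 2 := rfl
  have h14 : Gd q (n + 1) (jn a.1 M A B) a = V0 * d ^ 2 := rfl
  rw [h13, h14]
  linarith

/-! ### Averages over the two gadgets -/

theorem GA_prod (v w : ℝ) (f g : As (Fin n) → ℝ) :
    GA v w 1 (fun A => GA v w 1 (fun B => f A * g B)) = GA v w 1 f * GA v w 1 g := by
  have : (fun A : As (Fin n) => GA v w 1 (fun B => f A * g B)) = fun A => GA v w 1 g * f A := by
    funext A
    rw [GA_mul, mul_comm]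
  rw [this, GA_mul, mul_comm]

theorem GA_sel (v w : ℝ) (a : Lt (Fin (n + 1))) (f : As (Fin n) → ℝ) :
    GA v w 1 (fun A => GA v w 1 (fun B => f (sel a A B))) = GA v w 1 f := by
  unfold sel
  cases h : a.2
  · simp only [Bool.false_eq_true, if_false]
    simp only [GA_const]
  · simp only [if_true]
    rw [GA_const]

theorem cav_le {v w : ℝ} {G : FunL} {M : As (Fin n)} {c : ℝ}
    (H : ∀ a : Lt (Fin (n + 1)),
      GA v w 1 (fun A => GA v w 1 (fun B => G (n + 1) (jn a.1 M A B) a)) ≤ c) :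
    cav v w G n M ≤ c := by
  have hc : (0 : ℝ) < Fintype.card (Lt (Fin (n + 1))) := by exact_mod_cast Fintype.card_pos
  unfold cav
  rw [div_le_iff₀ hc]
  calc _ ≤ ∑ _a : Lt (Fin (n + 1)), c := Finset.sum_le_sum fun a _ => H a
    _ = c * Fintype.card (Lt (Fin (n + 1))) := by
      rw [Finset.sum_const, Finset.card_univ, nsmul_eq_mul, mul_comm]

theorem cav_Gs (hq : 0 < q) (hq1 : q < 1) [Nonempty (Fin n)] {v w : ℝ} (hv : 0 ≤ v) (hw : 0 ≤ w)
    (M : As (Fin n)) {η : ℝ} (hη : 0 < η) :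
    cav v w (Gs q) n M ≤ (1 + η) * GA v w 1 (fun B => gs q M (M ∩ B)) +
      (1 + 1 / η) * (4 * (1 / (muq q * (n + 1))) ^ 2) := by
  refine cav_le fun a => ?_
  calc GA v w 1 (fun A => GA v w 1 (fun B => Gs q (n + 1) (jn a.1 M A B) a))
      ≤ GA v w 1 (fun A => GA v w 1 (fun B => (1 + η) * gs q M (M ∩ sel a A B) +
          (1 + 1 / η) * (4 * (1 / (muq q * (n + 1))) ^ 2))) :=
        GA_mono hv hw zero_le_one fun A => GA_mono hv hw zero_le_one fun B =>
          Gs_jn hq hq1 a M A B hη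
    _ = GA v w 1 (fun T : As (Fin n) => (1 + η) * gs q M (M ∩ T) +
          (1 + 1 / η) * (4 * (1 / (muq q * (n + 1))) ^ 2)) :=
        GA_sel v w a (fun T => (1 + η) * gs q M (M ∩ T) +
          (1 + 1 / η) * (4 * (1 / (muq q * (n + 1))) ^ 2))
    _ = _ := by rw [GA_add, GA_mul, GA_const]

theorem cav_Gd (hq : 0 < q) (hq1 : q < 1) [Nonempty (Fin n)] {v w : ℝ} (hv : 0 ≤ v) (hw : 0 ≤ w)
    (M : As (Fin n)) (he1 : 1 / (muq q * ((n : ℝ) + 1)) ≤ 1) :
    cav v w (Gd q) n M ≤ GA v w 1 (fun B => gd q M (M ∩ B)) +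
      GA v w 1 (fun B => mk q B M) ^ 2 +
      9 * (1 / (muq q * (n + 1))) * GA v w 1 (fun B => mk q B M) +
      8 * (1 / (muq q * (n + 1))) ^ 2 := by
  refine cav_le fun a => ?_
  set e := 1 / (muq q * ((n : ℝ) + 1)) with he
  calc GA v w 1 (fun A => GA v w 1 (fun B => Gd q (n + 1) (jn a.1 M A B) a))
      ≤ GA v w 1 (fun A => GA v w 1 (fun B => (gd q M (M ∩ sel a A B) + 9 * e * mk q (sel a A B) M +
          8 * e ^ 2) + mk q A M * mk q B M)) :=
        GA_mono hv hw zero_le_one fun A => GA_mono hv hw zero_le_one fun B => by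
          have := Gd_jn hq hq1 a M A B he1
          rw [← he] at this
          linarith
    _ = GA v w 1 (fun T : As (Fin n) => gd q M (M ∩ T) + 9 * e * mk q T M + 8 * e ^ 2) +
        GA v w 1 (fun A => mk q A M) * GA v w 1 (fun B => mk q B M) := by
        rw [← GA_prod, ← GA_sel v w a (fun T => gd q M (M ∩ T) + 9 * e * mk q T M + 8 * e ^ 2),
          ← GA_add]
        congr 1
        funext A
        rw [← GA_add]
    _ = _ := by rw [GA_add, GA_add, GA_mul, GA_const]; ring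

/-- The average mark of a gadget is `O(μ) s`. -/
theorem GA_mk_le (hq : 3 / 4 ≤ q) (hq1 : q < 1) [Nonempty (Fin n)] {v w : ℝ} (hv : 0 ≤ v)
    (hw : 0 ≤ w) (hc : (2 * v + 3 * w) * Fintype.card (Lt (Fin n)) ≤ 1)
    (hb : 3 * w * (Fintype.card (Lt (Fin n)) : ℝ) ^ 2 ≤ 2) (M : As (Fin n)) :
    GA v w 1 (fun B => mk q B M) ≤ 6 * muq q * ss q M := by
  have hq0 : 0 < q := by linarith
  have hμ := muq_pos hq0 hq1
  have hμ1 : 3 * muq q ≤ 1 := by
    unfold muq
    rw [← mul_div_assoc, div_le_one hq0]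
    linarith
  rcases una01 M with h | h
  · have hs : ss q M = vv q M := (AS (Fin n)).s_of_sat h
    have hd := fun τ => GA_hasDerivAt v w (fun A => vv q (M ∩ A)) τ
    have key := growth (b := 3 * muq q) (a := 0) hd (by positivity) le_rfl ?_
    · simp only [GA_zero, Set.inter_univ, add_zero] at key
      have h1 : GA v w 1 (fun B => mk q B M) = GA v w 1 (fun A => vv q (M ∩ A)) - vv q M := by
        unfold mk
        rw [GA_sub, GA_const]
      rw [h1, hs]
      have h2 : Real.exp (3 * muq q) - 1 ≤ 2 * (3 * muq q) := by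
        have := Real.abs_exp_sub_one_le (x := 3 * muq q) (by
          rw [abs_of_pos (by positivity)]; exact hμ1)
        rw [abs_of_pos (show 0 < 3 * muq q by positivity)] at this
        exact (le_abs_self _).trans this
      have h3 : 0 ≤ vv q M := vv_nonneg hq0.le hq1 M
      nlinarith
    · intro τ hτ
      have hP1 : ∀ A : As (Fin n), P1 (fun A => vv q (M ∩ A)) A - vv q (M ∩ A) ≤
          muq q * vv q (M ∩ A) := by
        intro A
        have h4 : P1 (fun A => vv q (M ∩ A)) A = P1 (fun S => vv q S) (M ∩ A) :=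
          P1_inter (fun S => vv q S) M A
        have h5 : P1 (fun S => vv q S) (M ∩ A) = vv q (M ∩ A) + muq q * (vv q (M ∩ A) -
          una (M ∩ A)) := (AS (Fin n)).P1_v hq0 hq1 (M ∩ A)
        rw [h4, h5]
        nlinarith [una_nonneg (M ∩ A)]
      have hP2 : ∀ A : As (Fin n), P2 (fun A => vv q (M ∩ A)) A - vv q (M ∩ A) ≤
          muq q * vv q (M ∩ A) := by
        intro A
        have h4 : P2 (fun A => vv q (M ∩ A)) A = P2 (fun S => vv q S) (M ∩ A) :=
          P2_inter (fun S => vv q S) M A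
        have h5 : P2 (fun S => vv q S) (M ∩ A) ≤ vv q (M ∩ A) + muq q * ss q (M ∩ A) :=
          (AS (Fin n)).P2_v_le hq0 hq1 (M ∩ A)
        have h6 : ss q (M ∩ A) ≤ vv q (M ∩ A) := (AS (Fin n)).s_le_v _
        rw [h4]
        nlinarith
      have hg1 : GA v w τ (fun A => P1 (fun A => vv q (M ∩ A)) A - vv q (M ∩ A)) ≤
          muq q * GA v w τ (fun A => vv q (M ∩ A)) := by
        rw [← GA_mul]
        exact GA_mono hv hw hτ.1 hP1
      have hg2 : GA v w τ (fun A => P2 (fun A => vv q (M ∩ A)) A - vv q (M ∩ A)) ≤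
          muq q * GA v w τ (fun A => vv q (M ∩ A)) := by
        rw [← GA_mul]
        exact GA_mono hv hw hτ.1 hP2
      have hg0 : 0 ≤ muq q * GA v w τ (fun A => vv q (M ∩ A)) :=
        mul_nonneg hμ.le (GA_nonneg hv hw hτ.1 fun A => vv_nonneg hq0.le hq1 _)
      have hc0 : 0 ≤ (2 * v + 3 * w) * Fintype.card (Lt (Fin n)) := by positivity
      have hb0 : 0 ≤ 3 * w * (Fintype.card (Lt (Fin n)) : ℝ) ^ 2 := by positivity
      set X := muq q * GA v w τ (fun A => vv q (M ∩ A)) with hX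
      have k1 := (mul_le_mul_of_nonneg_left hg1 hc0).trans (mul_le_mul_of_nonneg_right hc hg0)
      have k2 := (mul_le_mul_of_nonneg_left hg2 hb0).trans (mul_le_mul_of_nonneg_right hb hg0)
      have k3 : 3 * muq q * GA v w τ (fun A => vv q (M ∩ A)) = 3 * X := by rw [hX]; ring
      rw [add_zero, k3]
      linarith
  · have h2 : M = ∅ := una_eq_one.1 h
    have hs : ss q M = 0 := (AS (Fin n)).s_of_un hq0.le hq1 h
    have h3 : (fun B : As (Fin n) => mk q B M) = fun _ => 0 := by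
      funext B
      rw [h2]
      exact mk_empty_state B
    rw [h3, GA_const, hs, mul_zero]

end B2

end Pool.Agent.Lib.MP_9cae81_PC
end

section

/-!
# (H1): the mark of a literal of the new variable
-/

set_option autoImplicit false

open Finset Filter
open scoped BigOperators Topology

namespace Pool.Agent.Lib.MP_9cae81_PC

open Pool.Agent.Lib.MP_9cae81_R

/-! ### Real inequalities -/

theorem H1_real_shift {x x' y y' δ s : ℝ} (hs0 : 0 ≤ s) (hs1 : s ≤ 1) (hδ : 0 ≤ δ) (hδ1 : δ ≤ 1)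
    (hx : 0 ≤ x) (hx' : 0 ≤ x') (hx1' : x' ≤ 1) (hy : 0 ≤ y) (hy1 : y ≤ 1) (hy' : 0 ≤ y')
    (hxx : x ≤ x' + δ) (hyy : y ≤ y' + 2 * δ) :
    x ^ (3 - s) * y ^ s ≤ x' ^ (3 - s) * y' ^ s +
      (δ ^ (1 - s) + (2 * δ) ^ s) * x' ^ 2 + 4 * δ * x' + 2 * δ ^ 2 := by
  have hsplit : ∀ z : ℝ, 0 ≤ z → z ^ (3 - s) = z ^ 2 * z ^ (1 - s) := by
    intro z hz
    have h1 := Real.rpow_add_of_nonneg hz (by norm_num : (0 : ℝ) ≤ 2) (by linarith : 0 ≤ 1 - s)
    rw [show (2 : ℝ) + (1 - s) = 3 - s by ring] at h1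
    rw [h1, Real.rpow_two]
  have hX1 : x ^ (1 - s) ≤ x' ^ (1 - s) + δ ^ (1 - s) :=
    (Real.rpow_le_rpow hx hxx (by linarith)).trans
      (Real.rpow_add_le_add_rpow hx' hδ (by linarith) (by linarith))
  have hY1 : y ^ s ≤ y' ^ s + (2 * δ) ^ s :=
    (Real.rpow_le_rpow hy hyy hs0).trans (Real.rpow_add_le_add_rpow hy' (by linarith) hs0 hs1)
  have hx1s : x' ^ (1 - s) ≤ 1 := Real.rpow_le_one hx' hx1' (by linarith)
  have hx0s : 0 ≤ x' ^ (1 - s) := Real.rpow_nonneg hx' _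
  have hd1s : δ ^ (1 - s) ≤ 1 := Real.rpow_le_one hδ hδ1 (by linarith)
  have hd0s : 0 ≤ δ ^ (1 - s) := Real.rpow_nonneg hδ _
  have hy1s : y ^ s ≤ 1 := Real.rpow_le_one hy hy1 hs0
  have hy0s : 0 ≤ y ^ s := Real.rpow_nonneg hy _
  have hy0s' : 0 ≤ y' ^ s := Real.rpow_nonneg hy' _
  have h2d : 0 ≤ (2 * δ) ^ s := Real.rpow_nonneg (by linarith) _
  have hx2 : x ^ 2 ≤ (x' + δ) ^ 2 := pow_le_pow_left₀ hx hxx 2
  have h1 : x ^ 2 * x ^ (1 - s) ≤ (x' + δ) ^ 2 * (x' ^ (1 - s) + δ ^ (1 - s)) :=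
    mul_le_mul hx2 hX1 (Real.rpow_nonneg hx _) (by positivity)
  have h2 : (x' + δ) ^ 2 * (x' ^ (1 - s) + δ ^ (1 - s)) ≤
      x' ^ 2 * x' ^ (1 - s) + δ ^ (1 - s) * x' ^ 2 + 4 * δ * x' + 2 * δ ^ 2 := by
    have h3 : (2 * δ * x' + δ ^ 2) * (x' ^ (1 - s) + δ ^ (1 - s)) ≤ (2 * δ * x' + δ ^ 2) * 2 :=
      mul_le_mul_of_nonneg_left (by linarith) (by positivity)
    nlinarith
  rw [hsplit x hx, hsplit x' hx']
  have hE : 0 ≤ δ ^ (1 - s) * x' ^ 2 + 4 * δ * x' + 2 * δ ^ 2 := by positivity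
  calc x ^ 2 * x ^ (1 - s) * y ^ s
      ≤ (x' ^ 2 * x' ^ (1 - s) + (δ ^ (1 - s) * x' ^ 2 + 4 * δ * x' + 2 * δ ^ 2)) * y ^ s :=
        mul_le_mul_of_nonneg_right (by linarith) hy0s
    _ = x' ^ 2 * x' ^ (1 - s) * y ^ s + (δ ^ (1 - s) * x' ^ 2 + 4 * δ * x' + 2 * δ ^ 2) * y ^ s := by
        ring
    _ ≤ x' ^ 2 * x' ^ (1 - s) * (y' ^ s + (2 * δ) ^ s) +
        (δ ^ (1 - s) * x' ^ 2 + 4 * δ * x' + 2 * δ ^ 2) * 1 :=
        add_le_add (mul_le_mul_of_nonneg_left hY1 (by positivity))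
          (mul_le_mul_of_nonneg_left hy1s hE)
    _ ≤ _ := by
        have h4 : x' ^ 2 * x' ^ (1 - s) * (2 * δ) ^ s ≤ x' ^ 2 * 1 * (2 * δ) ^ s :=
          mul_le_mul_of_nonneg_right (mul_le_mul_of_nonneg_left hx1s (by positivity)) h2d
        nlinarith

theorem H1_tangent {x t s : ℝ} (hs0 : 0 ≤ s) (hs1 : s ≤ 1) (hx : 0 ≤ x) (ht : 0 < t) :
    x ^ s ≤ s * t ^ (s - 1) * x + (1 - s) * t ^ s := by
  have h1 := Real.geom_mean_le_arith_mean2_weighted hs0 (by linarith : 0 ≤ 1 - s) hx ht.le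
    (by ring)
  have h2 : 0 < t ^ (s - 1) := Real.rpow_pos_of_pos ht _
  have h3 : t ^ (1 - s) * t ^ (s - 1) = 1 := by
    rw [← Real.rpow_add ht, show 1 - s + (s - 1) = 0 by ring, Real.rpow_zero]
  have h4 : t * t ^ (s - 1) = t ^ s := by
    nth_rewrite 1 [← Real.rpow_one t]
    rw [← Real.rpow_add ht, show 1 + (s - 1) = s by ring]
  have h5 := mul_le_mul_of_nonneg_right h1 h2.le
  calc x ^ s = x ^ s * (t ^ (1 - s) * t ^ (s - 1)) := by rw [h3, mul_one]
    _ = x ^ s * t ^ (1 - s) * t ^ (s - 1) := by ring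
    _ ≤ (s * x + (1 - s) * t) * t ^ (s - 1) := h5
    _ = s * t ^ (s - 1) * x + (1 - s) * (t * t ^ (s - 1)) := by ring
    _ = _ := by rw [h4]

section

variable {V : Type} [Fintype V] [DecidableEq V]

theorem H1_GA_pow {v w s t : ℝ} (hv : 0 ≤ v) (hw : 0 ≤ w) (hs0 : 0 ≤ s) (hs1 : s ≤ 1)
    (ht : 0 < t) {Φ : As V → ℝ} (h0 : ∀ A, 0 ≤ Φ A) (h : GA v w 1 Φ ≤ t) :
    GA v w 1 (fun A => Φ A ^ s) ≤ t ^ s := by
  have h1 : GA v w 1 (fun A => Φ A ^ s) ≤
      GA v w 1 (fun A => s * t ^ (s - 1) * Φ A + (1 - s) * t ^ s) :=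
    B2.GA_mono hv hw zero_le_one fun A => H1_tangent hs0 hs1 (h0 A) ht
  have h2 : GA v w 1 (fun A : As V => s * t ^ (s - 1) * Φ A + (1 - s) * t ^ s) =
      s * t ^ (s - 1) * GA v w 1 Φ + (1 - s) * t ^ s := by
    rw [B2.GA_add v w 1 (fun A => s * t ^ (s - 1) * Φ A) (fun _ => (1 - s) * t ^ s), B2.GA_mul,
      B2.GA_const]
  have h4 : t ^ (s - 1) * t = t ^ s := by
    nth_rewrite 2 [← Real.rpow_one t]
    rw [← Real.rpow_add ht, show s - 1 + 1 = s by ring]
  have h5 : s * t ^ (s - 1) * GA v w 1 Φ ≤ s * t ^ (s - 1) * t :=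
    mul_le_mul_of_nonneg_left h (mul_nonneg hs0 (Real.rpow_nonneg ht.le _))
  rw [h2] at h1
  refine h1.trans ?_
  have h6 : s * t ^ (s - 1) * t = s * t ^ s := by rw [mul_assoc, h4]
  linarith

theorem H1_mk [Nonempty V] {q : ℝ} (hq : 0 < q) (hq1 : q < 1) {v w : ℝ} (hv : 0 ≤ v) (hw : 0 ≤ w)
    (hb : (2 * v + 3 * w) * Fintype.card (Lt V) + 3 * w * (Fintype.card (Lt V) : ℝ) ^ 2 ≤ 10)
    (hmu : muq q ≤ 1 / 20) (M : As V) :
    GA v w 1 (fun A => vv q (M ∩ A) - vv q M) ≤ 20 * muq q * vv q M := by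
  have h1 := Ba_vv hq hq1 hv hw hb M (τ := 1) zero_le_one le_rfl
  have hmu0 := muq_pos hq hq1
  have h2 : Real.exp (10 * muq q) ≤ 1 + 20 * muq q := by
    have h3 := Real.abs_exp_sub_one_le (x := 10 * muq q)
      (by rw [abs_of_nonneg (by linarith)]; linarith)
    rw [abs_of_nonneg (by linarith : 0 ≤ 10 * muq q)] at h3
    have h4 := le_abs_self (Real.exp (10 * muq q) - 1)
    linarith
  have h3 : GA v w 1 (fun A => vv q (M ∩ A) - vv q M) =
      GA v w 1 (fun A => vv q (M ∩ A)) - vv q M := by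
    rw [B2.GA_sub v w 1 (fun A => vv q (M ∩ A)) (fun _ => vv q M), B2.GA_const]
  have h4 := mul_le_mul_of_nonneg_right h2 (vv_nonneg hq.le hq1 M)
  rw [h3]
  linarith

omit [DecidableEq V] in
theorem H1_ss_le_vv {q : ℝ} (S : As V) : ss q S ≤ vv q S := by
  have h1 : ss q S = vv q S - una S := rfl
  have h2 := una_nonneg S
  linarith

omit [DecidableEq V] in
theorem H1_ss_of_ne {q : ℝ} {S : As V} (h : S ≠ ∅) : ss q S = vv q S := by
  have h1 : ss q S = vv q S - una S := rfl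
  rw [h1, una_of_ne h, sub_zero]

/-- The main inequality at one state: `A`, `B` are the gadgets. -/
theorem H1_pt [Nonempty V] {q : ℝ} (hq : 0 < q) (hq1 : q < 1) {v w : ℝ} (hv : 0 ≤ v) (hw : 0 ≤ w)
    (hb : (2 * v + 3 * w) * Fintype.card (Lt V) + 3 * w * (Fintype.card (Lt V) : ℝ) ^ 2 ≤ 10)
    (hmu : muq q ≤ 1 / 20) {s : ℝ} (hs0 : 0 < s) (hs1 : s ≤ 1) (M : As V) :
    GA v w 1 (fun A => GA v w 1 (fun B => ss q (M ∩ (A ∪ B)) ^ (3 - s) *
      (vv q (M ∩ B) - vv q (M ∩ (A ∪ B))) ^ s)) ≤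
    ss q M ^ (3 - s) * GA v w 1 (fun A => GA v w 1 (fun B =>
      (vv q (M ∩ B) - vv q (M ∩ (A ∪ B))) ^ s)) +
      (7 * (20 * muq q) ^ s * (20 * muq q) + 4 * (20 * muq q) ^ 2) * ss q M ^ 2 := by
  have hmu0 := muq_pos hq hq1
  set κ : ℝ := 20 * muq q with hκ
  have hκ0 : 0 < κ := by positivity
  by_cases hM : M = ∅
  · subst hM
    have h0 : ss q (∅ : As V) = 0 := A6_ss_empty hq hq1
    have h1 : (0 : ℝ) ^ (3 - s) = 0 := Real.zero_rpow (by linarith)
    have h2 : (fun A : As V => GA v w 1 (fun B => ss q (∅ ∩ (A ∪ B)) ^ (3 - s) *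
        (vv q (∅ ∩ B) - vv q (∅ ∩ (A ∪ B))) ^ s)) = fun _ => 0 := by
      funext A
      have h3 : (fun B : As V => ss q (∅ ∩ (A ∪ B)) ^ (3 - s) *
          (vv q (∅ ∩ B) - vv q (∅ ∩ (A ∪ B))) ^ s) = fun _ => 0 := by
        funext B
        rw [Set.empty_inter, h0, h1, zero_mul]
      rw [h3, B2.GA_const]
    rw [h2, B2.GA_const, h0, h1]
    simp
  · rw [H1_ss_of_ne hM]
    set v' : ℝ := vv q M with hv'
    have hv0 : 0 < v' := vv_pos hq hq1 M
    have hv1 : v' ≤ 1 := vv_le_one hq.le hq1 M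
    have hmk := H1_mk hq hq1 hv hw hb hmu M
    rw [← hκ, ← hv'] at hmk
    have hkv : 0 < κ * v' := by positivity
    have hmks : GA v w 1 (fun B => (vv q (M ∩ B) - v') ^ s) ≤ (κ * v') ^ s :=
      H1_GA_pow hv hw hs0.le hs1 hkv
        (fun B => by have := vv_le_inter hq.le hq1 M B; linarith) hmk
    have hpt : ∀ A B : As V, ss q (M ∩ (A ∪ B)) ^ (3 - s) *
        (vv q (M ∩ B) - vv q (M ∩ (A ∪ B))) ^ s ≤
        v' ^ (3 - s) * (vv q (M ∩ B) - vv q (M ∩ (A ∪ B))) ^ s +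
        (7 * v' ^ (2 - s) * (vv q (M ∩ A) - v') * (vv q (M ∩ B) - v') ^ s +
        4 * (vv q (M ∩ A) - v') * (vv q (M ∩ B) - v')) := by
      intro A B
      have e1 : v' ≤ vv q (M ∩ (A ∪ B)) := vv_le_inter hq.le hq1 M _
      have e2 : vv q (M ∩ (A ∪ B)) ≤ vv q (M ∩ A) :=
        vv_anti hq.le hq1 (Set.inter_subset_inter_right M Set.subset_union_left)
      have e3 : vv q (M ∩ (A ∪ B)) ≤ vv q (M ∩ B) :=
        vv_anti hq.le hq1 (Set.inter_subset_inter_right M Set.subset_union_right)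
      have e4 := H12_real hs0 hs1 hv0 e1 e2 e3 (vv_le_one hq.le hq1 _)
      have e5 : ss q (M ∩ (A ∪ B)) ^ (3 - s) ≤ vv q (M ∩ (A ∪ B)) ^ (3 - s) :=
        Real.rpow_le_rpow (A6_ss_nn hq hq1 _) (H1_ss_le_vv _) (by linarith)
      have e6 : 0 ≤ (vv q (M ∩ B) - vv q (M ∩ (A ∪ B))) ^ s :=
        Real.rpow_nonneg (by linarith) _
      have e7 := mul_le_mul_of_nonneg_right e5 e6
      linarith
    -- the inner average
    have hin : ∀ A : As V, GA v w 1 (fun B => ss q (M ∩ (A ∪ B)) ^ (3 - s) *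
        (vv q (M ∩ B) - vv q (M ∩ (A ∪ B))) ^ s) ≤
        v' ^ (3 - s) * GA v w 1 (fun B => (vv q (M ∩ B) - vv q (M ∩ (A ∪ B))) ^ s) +
        (7 * v' ^ (2 - s) * (κ * v') ^ s + 4 * (κ * v')) * (vv q (M ∩ A) - v') := by
      intro A
      have hA : 0 ≤ vv q (M ∩ A) - v' := by
        have := vv_le_inter hq.le hq1 M A
        linarith
      have i1 := B2.GA_mono hv hw zero_le_one (hpt A)
      rw [B2.GA_add v w 1 (fun B => v' ^ (3 - s) * (vv q (M ∩ B) - vv q (M ∩ (A ∪ B))) ^ s)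
        (fun B => 7 * v' ^ (2 - s) * (vv q (M ∩ A) - v') * (vv q (M ∩ B) - v') ^ s +
        4 * (vv q (M ∩ A) - v') * (vv q (M ∩ B) - v')),
        B2.GA_add v w 1 (fun B => 7 * v' ^ (2 - s) * (vv q (M ∩ A) - v') * (vv q (M ∩ B) - v') ^ s)
        (fun B => 4 * (vv q (M ∩ A) - v') * (vv q (M ∩ B) - v')), B2.GA_mul, B2.GA_mul,
        B2.GA_mul] at i1
      have i2 : 7 * v' ^ (2 - s) * (vv q (M ∩ A) - v') *
          GA v w 1 (fun B => (vv q (M ∩ B) - v') ^ s) ≤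
          7 * v' ^ (2 - s) * (vv q (M ∩ A) - v') * (κ * v') ^ s :=
        mul_le_mul_of_nonneg_left hmks (by positivity)
      have i3 : 4 * (vv q (M ∩ A) - v') * GA v w 1 (fun B => vv q (M ∩ B) - v') ≤
          4 * (vv q (M ∩ A) - v') * (κ * v') :=
        mul_le_mul_of_nonneg_left hmk (by positivity)
      linarith
    have hout := B2.GA_mono hv hw zero_le_one hin
    rw [B2.GA_add v w 1 (fun A => v' ^ (3 - s) *
      GA v w 1 (fun B => (vv q (M ∩ B) - vv q (M ∩ (A ∪ B))) ^ s))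
      (fun A => (7 * v' ^ (2 - s) * (κ * v') ^ s + 4 * (κ * v')) * (vv q (M ∩ A) - v')),
      B2.GA_mul, B2.GA_mul] at hout
    refine hout.trans ?_
    have hs2 : v' ^ (2 - s) * (κ * v') ^ s = κ ^ s * v' ^ 2 := by
      rw [Real.mul_rpow hκ0.le hv0.le]
      have : v' ^ (2 - s) * v' ^ s = v' ^ 2 := by
        rw [← Real.rpow_add hv0, show 2 - s + s = (2 : ℝ) by ring, Real.rpow_two]
      calc v' ^ (2 - s) * (κ ^ s * v' ^ s) = κ ^ s * (v' ^ (2 - s) * v' ^ s) := by ring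
        _ = _ := by rw [this]
    have hks : 0 < κ ^ s := Real.rpow_pos_of_pos hκ0 _
    have h5 : (7 * v' ^ (2 - s) * (κ * v') ^ s + 4 * (κ * v')) *
        GA v w 1 (fun A => vv q (M ∩ A) - v') ≤
        (7 * v' ^ (2 - s) * (κ * v') ^ s + 4 * (κ * v')) * (κ * v') :=
      mul_le_mul_of_nonneg_left hmk (by positivity)
    have h6 : (7 * v' ^ (2 - s) * (κ * v') ^ s + 4 * (κ * v')) * (κ * v') ≤
        (7 * κ ^ s * κ + 4 * κ ^ 2) * v' ^ 2 := by
      have e1 : (7 * v' ^ (2 - s) * (κ * v') ^ s + 4 * (κ * v')) * (κ * v') =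
          7 * (v' ^ (2 - s) * (κ * v') ^ s) * (κ * v') + 4 * κ ^ 2 * v' ^ 2 := by ring
      rw [e1, hs2]
      have e2 : 7 * (κ ^ s * v' ^ 2) * (κ * v') = (7 * κ ^ s * κ * v' ^ 2) * v' := by ring
      have e3 : (7 * κ ^ s * κ * v' ^ 2) * v' ≤ (7 * κ ^ s * κ * v' ^ 2) * 1 :=
        mul_le_mul_of_nonneg_left hv1 (by positivity)
      rw [e2]
      linarith
    linarith

/-- The mean of `s` and `s²` of the state with the new variable. -/
theorem H1_ss0 [Nonempty V] {q : ℝ} (hq : 0 < q) (hq1 : q < 1) {v w : ℝ} (hv : 0 ≤ v) (hw : 0 ≤ w)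
    (hb : (2 * v + 3 * w) * Fintype.card (Lt V) + 3 * w * (Fintype.card (Lt V) : ℝ) ^ 2 ≤ 10)
    (hmu : muq q ≤ 1 / 20) (M : As V) :
    GA v w 1 (fun A => GA v w 1 (fun B => ss q (M ∩ (A ∪ B)) ^ 2)) ≤ 4 * ss q M ^ 2 ∧
    GA v w 1 (fun A => GA v w 1 (fun B => ss q (M ∩ (A ∪ B)))) ≤ 2 * ss q M := by
  have hmu0 := muq_pos hq hq1
  by_cases hM : M = ∅
  · subst hM
    have h0 : ss q (∅ : As V) = 0 := A6_ss_empty hq hq1
    constructor
    · have h2 : (fun A : As V => GA v w 1 (fun B => ss q (∅ ∩ (A ∪ B)) ^ 2)) = fun _ => 0 := by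
        funext A
        have h3 : (fun B : As V => ss q (∅ ∩ (A ∪ B)) ^ 2) = fun _ => 0 := by
          funext B
          rw [Set.empty_inter, h0]
          norm_num
        rw [h3, B2.GA_const]
      rw [h2, B2.GA_const, h0]
      norm_num
    · have h2 : (fun A : As V => GA v w 1 (fun B => ss q (∅ ∩ (A ∪ B)))) = fun _ => 0 := by
        funext A
        have h3 : (fun B : As V => ss q (∅ ∩ (A ∪ B))) = fun _ => 0 := by
          funext B
          rw [Set.empty_inter, h0]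
        rw [h3, B2.GA_const]
      rw [h2, B2.GA_const, h0]
      norm_num
  · rw [H1_ss_of_ne hM]
    set v' : ℝ := vv q M with hv'
    have hv0 : 0 < v' := vv_pos hq hq1 M
    have hv1 : v' ≤ 1 := vv_le_one hq.le hq1 M
    have hmk := H1_mk hq hq1 hv hw hb hmu M
    rw [← hv'] at hmk
    have hmk' : GA v w 1 (fun A => vv q (M ∩ A) - v') ≤ v' := by
      refine hmk.trans ?_
      have : 20 * muq q * v' ≤ 1 * v' := mul_le_mul_of_nonneg_right (by linarith) hv0.le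
      linarith
    have e1 : ∀ A B : As V, v' ≤ vv q (M ∩ (A ∪ B)) := fun A B => vv_le_inter hq.le hq1 M _
    have e2 : ∀ A B : As V, vv q (M ∩ (A ∪ B)) ≤ vv q (M ∩ A) := fun A B =>
      vv_anti hq.le hq1 (Set.inter_subset_inter_right M Set.subset_union_left)
    have e3 : ∀ A B : As V, vv q (M ∩ (A ∪ B)) ≤ vv q (M ∩ B) := fun A B =>
      vv_anti hq.le hq1 (Set.inter_subset_inter_right M Set.subset_union_right)
    constructor
    · have hpt : ∀ A B : As V, ss q (M ∩ (A ∪ B)) ^ 2 ≤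
          2 * v' ^ 2 + 2 * (vv q (M ∩ A) - v') * (vv q (M ∩ B) - v') := by
        intro A B
        have f1 : ss q (M ∩ (A ∪ B)) ^ 2 ≤ vv q (M ∩ (A ∪ B)) ^ 2 :=
          pow_le_pow_left₀ (A6_ss_nn hq hq1 _) (H1_ss_le_vv _) 2
        have f2 : (vv q (M ∩ (A ∪ B)) - v') * (vv q (M ∩ (A ∪ B)) - v') ≤
            (vv q (M ∩ A) - v') * (vv q (M ∩ B) - v') :=
          mul_le_mul (by linarith [e2 A B]) (by linarith [e3 A B]) (by linarith [e1 A B])
            (by linarith [e1 A B, e2 A B])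
        nlinarith [sq_nonneg (vv q (M ∩ (A ∪ B)) - 2 * v')]
      have hin : ∀ A : As V, GA v w 1 (fun B => ss q (M ∩ (A ∪ B)) ^ 2) ≤
          2 * v' ^ 2 + 2 * v' * (vv q (M ∩ A) - v') := by
        intro A
        have hA : 0 ≤ vv q (M ∩ A) - v' := by
          have := vv_le_inter hq.le hq1 M A
          linarith
        have i1 := B2.GA_mono hv hw zero_le_one (hpt A)
        rw [B2.GA_add v w 1 (fun _ => 2 * v' ^ 2)
          (fun B => 2 * (vv q (M ∩ A) - v') * (vv q (M ∩ B) - v')), B2.GA_const,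
          B2.GA_mul] at i1
        have i3 : 2 * (vv q (M ∩ A) - v') * GA v w 1 (fun B => vv q (M ∩ B) - v') ≤
            2 * (vv q (M ∩ A) - v') * v' :=
          mul_le_mul_of_nonneg_left hmk' (by positivity)
        linarith
      have hout := B2.GA_mono hv hw zero_le_one hin
      rw [B2.GA_add v w 1 (fun _ => 2 * v' ^ 2) (fun A => 2 * v' * (vv q (M ∩ A) - v')),
        B2.GA_const, B2.GA_mul] at hout
      have h5 : 2 * v' * GA v w 1 (fun A => vv q (M ∩ A) - v') ≤ 2 * v' * v' :=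
        mul_le_mul_of_nonneg_left hmk' (by positivity)
      nlinarith
    · have hin : ∀ A : As V, GA v w 1 (fun B => ss q (M ∩ (A ∪ B))) ≤
          v' + (vv q (M ∩ A) - v') := by
        intro A
        have i1 : GA v w 1 (fun B => ss q (M ∩ (A ∪ B))) ≤
            GA v w 1 (fun _ => v' + (vv q (M ∩ A) - v')) :=
          B2.GA_mono hv hw zero_le_one fun B => by
            have := H1_ss_le_vv (q := q) (M ∩ (A ∪ B))
            linarith [e2 A B]
        rwa [B2.GA_const] at i1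
      have hout := B2.GA_mono hv hw zero_le_one hin
      rw [B2.GA_add v w 1 (fun _ => v') (fun A => (vv q (M ∩ A) - v')), B2.GA_const] at hout
      linarith

end

/-! ### The cavity functional -/

/-- `s^(3-s)` times the power of the mark of the literal. -/
noncomputable def H1_G (q s : ℝ) : FunL := fun _ S a => ss q S ^ (3 - s) * mk q (lit a) S ^ s

/-- The corresponding average over the gadgets. -/
noncomputable def H1_T (q s v w : ℝ) : Fun := fun _ M =>
  ss q M ^ (3 - s) * GA v w 1 (fun A => GA v w 1 (fun B =>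
    (vv q (M ∩ B) - vv q (M ∩ (A ∪ B))) ^ s))

theorem H1_GA_comm {V : Type} [Fintype V] [DecidableEq V] (v w : ℝ) (Φ : As V → As V → ℝ) :
    GA v w 1 (fun A => GA v w 1 (fun B => Φ A B)) = GA v w 1 (fun B => GA v w 1 (fun A => Φ A B)) :=
  EE_comm _ _ _

theorem H1_cav {n : ℕ} [Nonempty (Fin n)] {q : ℝ} (hq : 0 < q) (hq1 : q < 1) {v w : ℝ}
    (hv : 0 ≤ v) (hw : 0 ≤ w)
    (hb : (2 * v + 3 * w) * Fintype.card (Lt (Fin n)) +
      3 * w * (Fintype.card (Lt (Fin n)) : ℝ) ^ 2 ≤ 10)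
    (hmu : muq q ≤ 1 / 20) {s : ℝ} (hs0 : 0 < s) (hs1 : s ≤ 1) {δ : ℝ}
    (hδ : 1 / (muq q * (n + 1)) ≤ δ) (hδ1 : δ ≤ 1) (M : As (Fin n)) :
    cav v w (H1_G q s) n M ≤ H1_T q s v w n M +
      (7 * (20 * muq q) ^ s * (20 * muq q) + 4 * (20 * muq q) ^ 2) * ss q M ^ 2 +
      4 * (δ ^ (1 - s) + (2 * δ) ^ s) * ss q M ^ 2 + 8 * δ * ss q M + 2 * δ ^ 2 := by
  have hmu0 := muq_pos hq hq1
  have hδ0 : 0 < δ := lt_of_lt_of_le (by positivity) hδ
  set R : ℝ := H1_T q s v w n M +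
      (7 * (20 * muq q) ^ s * (20 * muq q) + 4 * (20 * muq q) ^ 2) * ss q M ^ 2 +
      4 * (δ ^ (1 - s) + (2 * δ) ^ s) * ss q M ^ 2 + 8 * δ * ss q M + 2 * δ ^ 2 with hR
  set η : ℝ := δ ^ (1 - s) + (2 * δ) ^ s with hη
  have hη0 : 0 ≤ η := add_nonneg (Real.rpow_nonneg hδ0.le _) (Real.rpow_nonneg (by linarith) _)
  obtain ⟨hS2, hS1⟩ := H1_ss0 hq hq1 hv hw hb hmu M
  have hmain := H1_pt hq hq1 hv hw hb hmu hs0 hs1 M
  -- one literal, up to the name of the gadgets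
  have key : ∀ (Z : As (Fin n) → As (Fin n) → As (Fin (n + 1))) (a : Lt (Fin (n + 1))),
      (∀ A B, |ss q (Z A B) - ss q (M ∩ (A ∪ B))| ≤ δ) →
      (∀ A B, |vv q (Z A B) - vv q (M ∩ (A ∪ B))| ≤ δ) →
      (∀ A B, |vv q (Z A B ∩ lit a) - vv q (M ∩ B)| ≤ δ) →
      GA v w 1 (fun A => GA v w 1 (fun B => H1_G q s (n + 1) (Z A B) a)) ≤ R := by
    intro Z a h1 h2 h3
    have hpt : ∀ A B : As (Fin n), H1_G q s (n + 1) (Z A B) a ≤
        ss q (M ∩ (A ∪ B)) ^ (3 - s) * (vv q (M ∩ B) - vv q (M ∩ (A ∪ B))) ^ s +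
        (η * ss q (M ∩ (A ∪ B)) ^ 2 + (4 * δ * ss q (M ∩ (A ∪ B)) + 2 * δ ^ 2)) := by
      intro A B
      have e3 : vv q (M ∩ (A ∪ B)) ≤ vv q (M ∩ B) :=
        vv_anti hq.le hq1 (Set.inter_subset_inter_right M Set.subset_union_right)
      have g1 := abs_le.1 (h1 A B)
      have g2 := abs_le.1 (h2 A B)
      have g3 := abs_le.1 (h3 A B)
      have hss1 : ss q (M ∩ (A ∪ B)) ≤ 1 := (H1_ss_le_vv _).trans (vv_le_one hq.le hq1 _)
      have hmkd : mk q (lit a) (Z A B) = vv q (Z A B ∩ lit a) - vv q (Z A B) := rfl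
      have := H1_real_shift (x := ss q (Z A B)) (x' := ss q (M ∩ (A ∪ B)))
        (y := mk q (lit a) (Z A B)) (y' := vv q (M ∩ B) - vv q (M ∩ (A ∪ B))) (δ := δ) (s := s)
        hs0.le hs1 hδ0.le hδ1 (A6_ss_nn hq hq1 _) (A6_ss_nn hq hq1 _) hss1
        (mk_nonneg hq.le hq1 _ _) (mk_le_one hq.le hq1 _ _) (by linarith) (by linarith)
        (by rw [hmkd]; linarith)
      unfold H1_G
      linarith
    have hin : ∀ A : As (Fin n), GA v w 1 (fun B => H1_G q s (n + 1) (Z A B) a) ≤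
        GA v w 1 (fun B => ss q (M ∩ (A ∪ B)) ^ (3 - s) *
          (vv q (M ∩ B) - vv q (M ∩ (A ∪ B))) ^ s) +
        (η * GA v w 1 (fun B => ss q (M ∩ (A ∪ B)) ^ 2) +
          (4 * δ * GA v w 1 (fun B => ss q (M ∩ (A ∪ B))) + 2 * δ ^ 2)) := by
      intro A
      have i1 := B2.GA_mono hv hw zero_le_one (hpt A)
      rwa [B2.GA_add v w 1 (fun B => ss q (M ∩ (A ∪ B)) ^ (3 - s) *
          (vv q (M ∩ B) - vv q (M ∩ (A ∪ B))) ^ s)
          (fun B => η * ss q (M ∩ (A ∪ B)) ^ 2 + (4 * δ * ss q (M ∩ (A ∪ B)) + 2 * δ ^ 2)),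
        B2.GA_add v w 1 (fun B => η * ss q (M ∩ (A ∪ B)) ^ 2)
          (fun B => 4 * δ * ss q (M ∩ (A ∪ B)) + 2 * δ ^ 2),
        B2.GA_add v w 1 (fun B => 4 * δ * ss q (M ∩ (A ∪ B))) (fun _ => 2 * δ ^ 2),
        B2.GA_mul, B2.GA_mul, B2.GA_const] at i1
    have hout := B2.GA_mono hv hw zero_le_one hin
    rw [B2.GA_add v w 1 (fun A => GA v w 1 (fun B => ss q (M ∩ (A ∪ B)) ^ (3 - s) *
          (vv q (M ∩ B) - vv q (M ∩ (A ∪ B))) ^ s))
        (fun A => η * GA v w 1 (fun B => ss q (M ∩ (A ∪ B)) ^ 2) +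
          (4 * δ * GA v w 1 (fun B => ss q (M ∩ (A ∪ B))) + 2 * δ ^ 2)),
      B2.GA_add v w 1 (fun A => η * GA v w 1 (fun B => ss q (M ∩ (A ∪ B)) ^ 2))
        (fun A => 4 * δ * GA v w 1 (fun B => ss q (M ∩ (A ∪ B))) + 2 * δ ^ 2),
      B2.GA_add v w 1 (fun A => 4 * δ * GA v w 1 (fun B => ss q (M ∩ (A ∪ B))))
        (fun _ => 2 * δ ^ 2),
      B2.GA_mul, B2.GA_mul, B2.GA_const] at hout
    refine hout.trans ?_
    have j1 := mul_le_mul_of_nonneg_left hS2 hη0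
    have j2 : 4 * δ * GA v w 1 (fun A => GA v w 1 (fun B => ss q (M ∩ (A ∪ B)))) ≤
        4 * δ * (2 * ss q M) := mul_le_mul_of_nonneg_left hS1 (by linarith)
    have j3 : H1_T q s v w n M = ss q M ^ (3 - s) * GA v w 1 (fun A => GA v w 1 (fun B =>
      (vv q (M ∩ B) - vv q (M ∩ (A ∪ B))) ^ s)) := rfl
    rw [hR, j3]
    linarith
  have hall : ∀ a : Lt (Fin (n + 1)),
      GA v w 1 (fun A => GA v w 1 (fun B => H1_G q s (n + 1) (jn a.1 M A B) a)) ≤ R := by
    rintro ⟨i, b⟩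
    cases b with
    | true =>
      refine key (fun A B => jn i M A B) (i, true) (fun A B => ?_) (fun A B => ?_) fun A B => ?_
      · have := A5_sshift i hq hq1 (jn i M A B)
        rw [(A5_pr i M A B).1] at this
        exact this.trans hδ
      · have := A5_shift hq hq1 i (jn i M A B)
        rw [(A5_pr i M A B).1] at this
        exact this.trans hδ
      · have := A5_shift hq hq1 i (jn i M A B ∩ lit (i, true))
        rw [(A5_pr i M A B).2.1] at this
        exact this.trans hδ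
    | false =>
      rw [H1_GA_comm v w (fun A B => H1_G q s (n + 1) (jn (i, false).1 M A B) (i, false))]
      refine key (fun B A => jn i M A B) (i, false) (fun B A => ?_) (fun B A => ?_) fun B A => ?_
      · have := A5_sshift i hq hq1 (jn i M A B)
        rw [(A5_pr i M A B).1, Set.union_comm] at this
        exact this.trans hδ
      · have := A5_shift hq hq1 i (jn i M A B)
        rw [(A5_pr i M A B).1, Set.union_comm] at this
        exact this.trans hδ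
      · have := A5_shift hq hq1 i (jn i M A B ∩ lit (i, false))
        rw [(A5_pr i M A B).2.2] at this
        exact this.trans hδ
  have hc : (0 : ℝ) < Fintype.card (Lt (Fin (n + 1))) := by exact_mod_cast Fintype.card_pos
  unfold cav
  rw [div_le_iff₀ hc]
  refine (Finset.sum_le_sum fun a _ => hall a).trans ?_
  rw [Finset.sum_const, Finset.card_univ, nsmul_eq_mul, mul_comm]

/-- The bound needed for the cavity step. -/
theorem H1_G_bd {q : ℝ} (hq : 0 < q) (hq1 : q < 1) {s : ℝ} (hs0 : 0 ≤ s) (hs1 : s ≤ 1) (n : ℕ)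
    (S : As (Fin n)) (a : Lt (Fin n)) : 0 ≤ H1_G q s n S a ∧ H1_G q s n S a ≤ ss q S ^ 2 ∧
      H1_G q s n S a ≤ ss q S := by
  have : Nonempty (Fin n) := ⟨a.1⟩
  have h0 : 0 ≤ ss q S := A6_ss_nn hq hq1 S
  have h1 : ss q S ≤ 1 := (H1_ss_le_vv S).trans (vv_le_one hq.le hq1 S)
  have h2 := mk_nonneg hq.le hq1 (lit a) S
  have h3 := mk_le_one hq.le hq1 (lit a) S
  have h4 : mk q (lit a) S ^ s ≤ 1 := Real.rpow_le_one h2 h3 hs0
  have h5 : 0 ≤ mk q (lit a) S ^ s := Real.rpow_nonneg h2 _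
  have h6 : ss q S ^ (3 - s) = ss q S ^ 2 * ss q S ^ (1 - s) := by
    have := Real.rpow_add_of_nonneg h0 (by norm_num : (0 : ℝ) ≤ 2) (by linarith : 0 ≤ 1 - s)
    rw [show (2 : ℝ) + (1 - s) = 3 - s by ring] at this
    rw [this, Real.rpow_two]
  have h7 : ss q S ^ (1 - s) ≤ 1 := Real.rpow_le_one h0 h1 (by linarith)
  have h8 : 0 ≤ ss q S ^ (1 - s) := Real.rpow_nonneg h0 _
  have h9 : H1_G q s n S a ≤ ss q S ^ 2 := by
    unfold H1_G
    rw [h6, mul_assoc]
    have : ss q S ^ (1 - s) * mk q (lit a) S ^ s ≤ 1 := mul_le_one₀ h7 h5 h4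
    calc _ ≤ ss q S ^ 2 * 1 := mul_le_mul_of_nonneg_left this (sq_nonneg _)
      _ = _ := mul_one _
  refine ⟨?_, h9, h9.trans (by nlinarith)⟩
  unfold H1_G
  exact mul_nonneg (Real.rpow_nonneg h0 _) h5

theorem H1_avL_bd {q : ℝ} (hq : 0 < q) (hq1 : q < 1) {s : ℝ} (hs0 : 0 ≤ s) (hs1 : s ≤ 1) (n : ℕ)
    (S : As (Fin n)) : 0 ≤ avL (H1_G q s) n S ∧ avL (H1_G q s) n S ≤ ss q S ^ 2 ∧
      avL (H1_G q s) n S ≤ 1 := by
  unfold avL
  rcases Nat.eq_zero_or_pos n with hn | hn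
  · subst hn
    have h1 : (Fintype.card (Lt (Fin 0)) : ℝ) = 0 := by simp
    rw [h1, div_zero]
    exact ⟨le_rfl, sq_nonneg _, zero_le_one⟩
  · have : Nonempty (Fin n) := ⟨⟨0, hn⟩⟩
    have hc : (0 : ℝ) < Fintype.card (Lt (Fin n)) := by exact_mod_cast Fintype.card_pos
    have hle : (∑ a : Lt (Fin n), H1_G q s n S a) / Fintype.card (Lt (Fin n)) ≤ ss q S ^ 2 := by
      rw [div_le_iff₀ hc]
      refine (Finset.sum_le_sum fun a _ => (H1_G_bd hq hq1 hs0 hs1 n S a).2.1).trans ?_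
      rw [Finset.sum_const, Finset.card_univ, nsmul_eq_mul, mul_comm]
    have h0 : 0 ≤ ss q S := A6_ss_nn hq hq1 S
    have h1 : ss q S ≤ 1 := (H1_ss_le_vv S).trans (vv_le_one hq.le hq1 S)
    refine ⟨div_nonneg (Finset.sum_nonneg fun a _ => (H1_G_bd hq hq1 hs0 hs1 n S a).1) hc.le, hle,
      hle.trans (by nlinarith)⟩

/-! ### The window and the intensities -/

theorem H1_window {N n : ℕ} (hN : 16 ≤ N) (hn : n ∈ Finset.Icc (N - MW N) (N + MW N)) :
    1 ≤ n ∧ n ≤ 2 * N ∧ (N : ℝ) ≤ 2 * (n + 1) := by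
  have hN16 : (16 : ℝ) ≤ N := by exact_mod_cast hN
  have hN0 : (0 : ℝ) < N := by linarith
  have h1 : (2 : ℝ) ≤ (N : ℝ) ^ (1 / 4 : ℝ) := by
    have h2 : ((16 : ℝ)) ^ (1 / 4 : ℝ) = 2 := by
      rw [show (16 : ℝ) = 2 ^ (4 : ℝ) by norm_num, ← Real.rpow_mul (by norm_num)]
      norm_num
    rw [← h2]
    exact Real.rpow_le_rpow (by norm_num) hN16 (by norm_num)
  have h3 : (N : ℝ) ^ (3 / 4 : ℝ) * (N : ℝ) ^ (1 / 4 : ℝ) = N := by
    rw [← Real.rpow_add hN0]
    norm_num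
  have h4 : 0 ≤ (N : ℝ) ^ (3 / 4 : ℝ) := Real.rpow_nonneg hN0.le _
  have h5 : (MW N : ℝ) ≤ (N : ℝ) ^ (3 / 4 : ℝ) := Nat.floor_le h4
  have h6 : (MW N : ℝ) ≤ N / 2 := by nlinarith
  have h7 : 2 * MW N ≤ N := by
    have : (2 * (MW N : ℝ)) ≤ N := by linarith
    exact_mod_cast this
  obtain ⟨h8, h9⟩ := Finset.mem_Icc.1 hn
  refine ⟨by omega, by omega, ?_⟩
  have h10 : N ≤ 2 * (n + 1) := by omega
  exact_mod_cast h10

theorem H1_inten {N n : ℕ} (hN : 16 ≤ N) (hn : n ≤ 2 * N) {x y : ℝ} (hx1 : x ≤ 1)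
    (hy1 : y ≤ 1) :
    (2 * Iv N x + 3 * Iw N y) * Fintype.card (Lt (Fin n)) +
      3 * Iw N y * (Fintype.card (Lt (Fin n)) : ℝ) ^ 2 ≤ 10 := by
  have hN16 : (16 : ℝ) ≤ N := by exact_mod_cast hN
  have hN0 : (0 : ℝ) < N := by linarith
  have hn' : (n : ℝ) ≤ 2 * N := by exact_mod_cast hn
  have hn0 : (0 : ℝ) ≤ n := Nat.cast_nonneg n
  have hc : (Fintype.card (Lt (Fin n)) : ℝ) = 2 * n := by
    rw [Fintype.card_prod, Fintype.card_bool, Fintype.card_fin]
    push_cast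
    ring
  rw [hc]
  unfold Iv Iw
  set r : ℝ := n / N with hr
  have hr0 : 0 ≤ r := div_nonneg hn0 hN0.le
  have hr2 : r ≤ 2 := by
    rw [hr, div_le_iff₀ hN0]
    exact hn'
  have hnr : (n : ℝ) = r * N := by
    rw [hr]
    field_simp
  have e1 : (2 * (x / (4 * N)) + 3 * (y / (8 * (N : ℝ) ^ 2))) * (2 * n) +
      3 * (y / (8 * (N : ℝ) ^ 2)) * (2 * n) ^ 2 = x * r + 3 / 4 * y * r / N + 3 / 2 * y * r ^ 2 := by
    rw [hnr]
    field_simp
    ring
  rw [e1]
  have e2 : x * r ≤ 1 * 2 := mul_le_mul hx1 hr2 hr0 zero_le_one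
  have e3 : y * r ≤ 1 * 2 := mul_le_mul hy1 hr2 hr0 zero_le_one
  have e4 : 3 / 4 * y * r / N ≤ 1 := by
    rw [div_le_one hN0]
    linarith
  have e5 : y * r ^ 2 ≤ 1 * 4 :=
    mul_le_mul hy1 (by nlinarith) (sq_nonneg _) zero_le_one
  linarith

/-! ### The functional -/

theorem H1_H1f {q : ℝ} (hq : 0 < q) (hq1 : q < 1) {s : ℝ} (hs1 : s ≤ 1) {v w : ℝ}
    {n : ℕ} (hn : 1 ≤ n) (S : As (Fin n)) :
    H1f hq hq1 s v w n S =
      (muq q ^ s)⁻¹ * (avL (H1_G q s) n S - H1_T q s v w n S) := by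
  obtain ⟨m, rfl⟩ : ∃ m, n = m + 1 := ⟨n - 1, by omega⟩
  have hmu0 := muq_pos hq hq1
  have hc : (0 : ℝ) < Fintype.card (Lt (Fin (m + 1))) := by exact_mod_cast Fintype.card_pos
  have e0 : H1f hq hq1 s v w (m + 1) S = ss q S ^ 3 * ((PFS hq hq1 S).S1 s -
      E2 (gq v w 1) (fun a b => ((PFS hq hq1 S).dx a b) ^ s)) := rfl
  rw [e0]
  by_cases hS : S = ∅
  · subst hS
    have h0 : ss q (∅ : As (Fin (m + 1))) = 0 := A6_ss_empty hq hq1
    have h1 : (0 : ℝ) ^ (3 - s) = 0 := Real.zero_rpow (by linarith)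
    have e1 : avL (H1_G q s) (m + 1) (∅ : As (Fin (m + 1))) = 0 := by
      unfold avL H1_G
      simp only [h0, h1, zero_mul, Finset.sum_const_zero, zero_div]
    have e2 : H1_T q s v w (m + 1) (∅ : As (Fin (m + 1))) = 0 := by
      unfold H1_T
      rw [h0, h1, zero_mul]
    rw [e1, e2, h0]
    simp
  · have hz : 0 < vv q S := vv_pos hq hq1 S
    have hss := H1_ss_of_ne (q := q) hS
    set z : ℝ := vv q S with hzd
    have hcz : 0 < muq q * z := mul_pos hmu0 hz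
    have e1 : (PFS hq hq1 S).S1 s =
        (∑ a : Lt (Fin (m + 1)), mk q (lit a) S ^ s) / Fintype.card (Lt (Fin (m + 1))) /
          (muq q * z) ^ s := by
      have h1 : (PFS hq hq1 S).S1 s =
        (∑ a : Lt (Fin (m + 1)), ((PFS hq hq1 S).d a) ^ s) / Fintype.card (Lt (Fin (m + 1))) := rfl
      have h2 : ∀ a : Lt (Fin (m + 1)), ((PFS hq hq1 S).d a) ^ s =
          mk q (lit a) S ^ s / (muq q * z) ^ s := fun a => by
        rw [PFS_d', Real.div_rpow (mk_nonneg hq.le hq1 _ _) hcz.le]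
      rw [h1, Finset.sum_congr rfl fun a _ => h2 a, ← Finset.sum_div, div_right_comm]
    have e2 : E2 (gq v w 1) (fun a b => ((PFS hq hq1 S).dx a b) ^ s) =
        GA v w 1 (fun A => GA v w 1 (fun B =>
          (vv q (S ∩ B) - vv q (S ∩ (A ∪ B))) ^ s)) / (muq q * z) ^ s := by
      have h1 : E2 (gq v w 1) (fun a b => ((PFS hq hq1 S).dx a b) ^ s) =
          GA v w 1 (fun A => GA v w 1 (fun B =>
            ((muq q * z) ^ s)⁻¹ * (vv q (S ∩ B) - vv q (S ∩ (A ∪ B))) ^ s)) := by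
        unfold E2 GA
        refine congrArg _ (funext fun a => congrArg _ (funext fun b => ?_))
        have h2 : vv q (S ∩ (Md a ∪ Md b)) ≤ vv q (S ∩ Md b) :=
          vv_anti hq.le hq1 (Set.inter_subset_inter_right S Set.subset_union_right)
        show (PFS hq hq1 S).dx a b ^ s =
          ((muq q * z) ^ s)⁻¹ * (vv q (S ∩ Md b) - vv q (S ∩ (Md a ∪ Md b))) ^ s
        rw [PFS_dx, Real.div_rpow (by linarith) hcz.le, div_eq_inv_mul]
      rw [h1, div_eq_inv_mul, ← B2.GA_mul]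
      refine congrArg _ (funext fun A => ?_)
      rw [B2.GA_mul]
    have e3 : avL (H1_G q s) (m + 1) S = z ^ (3 - s) *
        ((∑ a : Lt (Fin (m + 1)), mk q (lit a) S ^ s) / Fintype.card (Lt (Fin (m + 1)))) := by
      unfold avL H1_G
      rw [← Finset.mul_sum, hss, mul_div_assoc]
    have e4 : H1_T q s v w (m + 1) S = z ^ (3 - s) * GA v w 1 (fun A => GA v w 1 (fun B =>
          (vv q (S ∩ B) - vv q (S ∩ (A ∪ B))) ^ s)) := by
      unfold H1_T
      rw [hss]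
    have e5 : z ^ 3 / (muq q * z) ^ s = (muq q ^ s)⁻¹ * z ^ (3 - s) := by
      rw [Real.mul_rpow hmu0.le hz.le, Real.rpow_sub hz]
      have h1 : z ^ (3 : ℝ) = z ^ 3 := by exact_mod_cast Real.rpow_natCast z 3
      rw [h1]
      have h2 : 0 < muq q ^ s := Real.rpow_pos_of_pos hmu0 _
      have h3 : 0 < z ^ s := Real.rpow_pos_of_pos hz _
      field_simp
    rw [e1, e2, e3, e4, hss]
    set P : ℝ := (∑ a : Lt (Fin (m + 1)), mk q (lit a) S ^ s) / Fintype.card (Lt (Fin (m + 1)))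
    set Q : ℝ := GA v w 1 (fun A => GA v w 1 (fun B =>
          (vv q (S ∩ B) - vv q (S ∩ (A ∪ B))) ^ s))
    calc z ^ 3 * (P / (muq q * z) ^ s - Q / (muq q * z) ^ s)
        = z ^ 3 / (muq q * z) ^ s * (P - Q) := by ring
      _ = (muq q ^ s)⁻¹ * (z ^ (3 - s) * P - z ^ (3 - s) * Q) := by
          rw [e5]
          ring

/-- **(H1)**, for `x ∈ [1/2, 1]`. -/
theorem H1_gen {s : ℝ} (hs : 3 / 4 ≤ s) (hs1 : s < 1) {x : ℝ} (hx : 1 / 2 ≤ x) (hx1 : x ≤ 1)
    {err : ℝ} (herr : 0 < err) {q : ℝ} (hq : 0 < q) (hq1 : q < 1) (hmu : muq q ≤ 1 / 20)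
    (hmu' : muq q ≤ err / 8800) {Y : ℝ} (hY : Y ≤ 1) (D : Cen x Y) : ∀ᶠ k in atTop,
      Br (D.N k) x (D.y k) (H1f hq hq1 s (Iv (D.N k) x) (Iw (D.N k) (D.y k))) ≤
        err * mm q (D.N k) x (D.y k) := by
  have hx0 : 0 ≤ x := by linarith
  have hs0 : 0 < s := by linarith
  have hmu0 := muq_pos hq hq1
  have hmu1 : muq q ≤ 1 := by linarith
  set U : ℝ := muq q ^ s with hU
  have hU0 : 0 < U := Real.rpow_pos_of_pos hmu0 _
  have hmuU : muq q ≤ U := by
    have := Real.rpow_le_rpow_of_exponent_ge hmu0 hmu1 hs1.le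
    rwa [Real.rpow_one] at this
  -- the main error term
  have hmainerr : 7 * (20 * muq q) ^ s * (20 * muq q) + 4 * (20 * muq q) ^ 2 ≤ err / 2 * U := by
    have h1 : (20 * muq q) ^ s ≤ 20 * U := by
      rw [Real.mul_rpow (by norm_num) hmu0.le]
      refine mul_le_mul_of_nonneg_right ?_ hU0.le
      have := Real.rpow_le_rpow_of_exponent_le (by norm_num : (1 : ℝ) ≤ 20) hs1.le
      rwa [Real.rpow_one] at this
    have h2 : 7 * (20 * muq q) ^ s * (20 * muq q) ≤ 7 * (20 * U) * (20 * muq q) := by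
      have : 0 ≤ 20 * muq q := by linarith
      nlinarith
    have h3 : muq q ^ 2 ≤ muq q * U := by nlinarith
    have h4 : muq q * U ≤ err / 8800 * U := mul_le_mul_of_nonneg_right hmu' hU0.le
    nlinarith
  set ε : ℝ := err * U / 20 with hε
  have hε0 : 0 < ε := by positivity
  set δk : ℕ → ℝ := fun k => 2 / (muq q * D.N k) with hδk
  have hNr : Tendsto (fun k => (D.N k : ℝ)) atTop atTop := tendsto_natCast_atTop_atTop.comp D.hN
  have hδlim : Tendsto δk atTop (𝓝 0) :=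
    Tendsto.const_div_atTop (hNr.const_mul_atTop hmu0) 2
  have hηlim : Tendsto (fun k => 4 * (δk k ^ (1 - s) + (2 * δk k) ^ s)) atTop (𝓝 0) := by
    have h1 : Tendsto (fun k => δk k ^ (1 - s)) atTop (𝓝 ((0 : ℝ) ^ (1 - s))) :=
      hδlim.rpow_const (Or.inr (by linarith))
    have h2 : Tendsto (fun k => (2 * δk k) ^ s) atTop (𝓝 ((2 * 0 : ℝ) ^ s)) :=
      (hδlim.const_mul 2).rpow_const (Or.inr hs0.le)
    have h3 := (h1.add h2).const_mul 4
    rw [mul_zero, Real.zero_rpow (by linarith), Real.zero_rpow hs0.ne', add_zero, mul_zero] at h3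
    exact h3
  have eη : ∀ᶠ k in atTop, 4 * (δk k ^ (1 - s) + (2 * δk k) ^ s) < ε :=
    hηlim.eventually (gt_mem_nhds hε0)
  have eδ : ∀ᶠ k in atTop, δk k < 1 := hδlim.eventually (gt_mem_nhds one_pos)
  have eN : ∀ᶠ k in atTop, 16 ≤ D.N k := D.hN.eventually_ge_atTop 16
  have eS := A3_shift hq hq1 hx0 D hε0
  have eC := A6_cavity hq hq1 hx hx1 hY D hε0
  have eA := A2_add hq hq1 hx0 D (K := 16 / muq q + 8 / muq q ^ 2) hε0
  filter_upwards [eη, eδ, eN, eS, eC, eA] with k kη kδ kN kS kC kA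
  set N := D.N k with hNd
  set y := D.y k with hyd
  have hy0 : 0 ≤ y := D.y0 k
  have hy1 : y ≤ 1 := (D.yY k).trans hY
  have hN1 : (1 : ℝ) ≤ N := by exact_mod_cast D.N1 k
  have hN0 : (0 : ℝ) < N := by linarith
  have hmm0 : 0 ≤ mm q N x y := le_trans (by have := D.hc; positivity) (A2_mm hq hq1 hx0 D k)
  have hδ0 : 0 < δk k := by
    show 0 < 2 / (muq q * N)
    positivity
  have hIv : 0 ≤ Iv N x := B2.Iv_nonneg hx0
  have hIw : 0 ≤ Iw N y := B2.Iw_nonneg hy0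
  set G := avL (H1_G q s) with hG
  set T := H1_T q s (Iv N x) (Iw N y) with hT
  -- the functional
  have hfun : Br N x y (H1f hq hq1 s (Iv N x) (Iw N y)) = U⁻¹ * (Br N x y G - Br N x y T) := by
    rw [← B2.Br_sub, ← B2.Br_mul]
    refine le_antisymm (B2.Br_mono hx0 hy0 fun n hn S => ?_)
      (B2.Br_mono hx0 hy0 fun n hn S => ?_)
    · rw [H1_H1f hq hq1 hs1.le (H1_window kN hn).1 S]
    · rw [H1_H1f hq hq1 hs1.le (H1_window kN hn).1 S]
  -- shift of the number of variables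
  have h1 := kS G (fun n S => by
    obtain ⟨g1, _, g3⟩ := H1_avL_bd hq hq1 hs0.le hs1.le n S
    rw [abs_of_nonneg g1]
    exact g3)
  have h2 : Br N x y (fun n S => |G n S|) ≤ mm q N x y := by
    refine B2.Br_mono hx0 hy0 fun n _ S => ?_
    obtain ⟨g1, g2, _⟩ := H1_avL_bd hq hq1 hs0.le hs1.le n S
    rw [abs_of_nonneg g1]
    exact g2
  have h3 := kC (H1_G q s) (fun n S a => by
    obtain ⟨g1, _, g3⟩ := H1_G_bd hq hq1 hs0.le hs1.le n S a
    have : Nonempty (Fin n) := ⟨a.1⟩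
    rw [abs_of_nonneg g1]
    have := A6_ss_nn hq hq1 (S ∩ lit a)
    linarith)
  -- the cavity functional
  set c : ℝ := 7 * (20 * muq q) ^ s * (20 * muq q) + 4 * (20 * muq q) ^ 2 +
    4 * (δk k ^ (1 - s) + (2 * δk k) ^ s) with hc
  have h4 : Br N x y (cav (Iv N x) (Iw N y) (H1_G q s)) ≤
      Br N x y (fun n S => T n S + (c * ss q S ^ 2 + (8 * δk k * ss q S + 2 * δk k ^ 2))) := by
    refine B2.Br_mono hx0 hy0 fun n hn S => ?_
    obtain ⟨w1, w2, w3⟩ := H1_window kN hn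
    have : Nonempty (Fin n) := ⟨⟨0, w1⟩⟩
    have hd : 1 / (muq q * ((n : ℝ) + 1)) ≤ δk k := by
      show 1 / (muq q * ((n : ℝ) + 1)) ≤ 2 / (muq q * N)
      rw [div_le_div_iff₀ (by positivity) (by positivity)]
      nlinarith
    have := H1_cav hq hq1 hIv hIw (H1_inten kN w2 hx1 hy1) hmu hs0 hs1.le hd kδ.le S
    rw [hc, hT]
    linarith
  have h5 : Br N x y (fun n S => T n S + (c * ss q S ^ 2 + (8 * δk k * ss q S + 2 * δk k ^ 2))) =
      Br N x y T + (c * mm q N x y + (8 * δk k * Br N x y (fun _ S => ss q S) +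
        2 * δk k ^ 2 * ∑ n ∈ Finset.Icc (N - MW N) (N + MW N), Wt N n)) := by
    have e0 : Br N x y (fun _ _ => 2 * δk k ^ 2) =
        2 * δk k ^ 2 * ∑ n ∈ Finset.Icc (N - MW N) (N + MW N), Wt N n := by
      unfold Br
      rw [Finset.mul_sum]
      refine Finset.sum_congr rfl fun n _ => ?_
      rw [B2.En_const, mul_comm]
    rw [B2.Br_add T (fun n S => c * ss q S ^ 2 + (8 * δk k * ss q S + 2 * δk k ^ 2)),
      B2.Br_add (fun n S => c * ss q S ^ 2) (fun n S => 8 * δk k * ss q S + 2 * δk k ^ 2),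
      B2.Br_add (fun n S => 8 * δk k * ss q S) (fun _ _ => 2 * δk k ^ 2),
      B2.Br_mul, B2.Br_mul, e0]
    rfl
  -- the small terms
  have hss0 : 0 ≤ Br N x y (fun _ S => ss q S) :=
    B2.Br_nonneg hx0 hy0 fun n hn S => A6_ss_nn' hq hq1 (H1_window kN hn).1 S
  have hW0 : 0 ≤ ∑ n ∈ Finset.Icc (N - MW N) (N + MW N), Wt N n :=
    Finset.sum_nonneg fun n _ => (Real.exp_pos _).le
  obtain ⟨a1, a2⟩ := kA
  have h6 : 8 * δk k * Br N x y (fun _ S => ss q S) ≤ ε * mm q N x y := by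
    refine le_trans ?_ a2
    rw [← mul_assoc]
    refine mul_le_mul_of_nonneg_right ?_ hss0
    have p1 : (N : ℝ)⁻¹ ≤ (N : ℝ) ^ (-(4 / 5) : ℝ) := by
      rw [← Real.rpow_neg_one]
      exact Real.rpow_le_rpow_of_exponent_le hN1 (by norm_num)
    have p2 : 8 * δk k = 16 / muq q * (N : ℝ)⁻¹ := by
      show 8 * (2 / (muq q * N)) = 16 / muq q * (N : ℝ)⁻¹
      field_simp
      norm_num
    rw [p2]
    have p3 : 0 ≤ 16 / muq q := by positivity
    have p4 : 0 ≤ 8 / muq q ^ 2 := by positivity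
    exact mul_le_mul (by linarith) p1 (by positivity) (by linarith)
  have h7 : 2 * δk k ^ 2 * ∑ n ∈ Finset.Icc (N - MW N) (N + MW N), Wt N n ≤
      ε * mm q N x y := by
    refine le_trans ?_ a1
    rw [← mul_assoc]
    refine mul_le_mul_of_nonneg_right ?_ hW0
    have p1 : ((N : ℝ) ^ 2)⁻¹ ≤ (N : ℝ) ^ (-(7 / 4) : ℝ) := by
      rw [← Real.rpow_natCast, ← Real.rpow_neg hN0.le]
      refine Real.rpow_le_rpow_of_exponent_le hN1 ?_
      push_cast
      norm_num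
    have p2 : 2 * δk k ^ 2 = 8 / muq q ^ 2 * ((N : ℝ) ^ 2)⁻¹ := by
      show 2 * (2 / (muq q * N)) ^ 2 = 8 / muq q ^ 2 * ((N : ℝ) ^ 2)⁻¹
      field_simp
      norm_num
    rw [p2]
    have p3 : 0 ≤ 16 / muq q := by positivity
    have p4 : 0 ≤ 8 / muq q ^ 2 := by positivity
    exact mul_le_mul (by linarith) p1 (by positivity) (by linarith)
  have h8 : c * mm q N x y ≤ (err / 2 * U + ε) * mm q N x y :=
    mul_le_mul_of_nonneg_right (by rw [hc]; linarith) hmm0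
  have h9 := abs_le.1 h1
  have h10 := abs_le.1 h3
  have h11 : ε * (Br N x y (fun n S => |G n S|) + mm q N x y) ≤ ε * (2 * mm q N x y) :=
    mul_le_mul_of_nonneg_left (by linarith) hε0.le
  have h12 : Br N x y G - Br N x y T ≤ err * U * mm q N x y := by
    have e1 : ε * mm q N x y = err * U * mm q N x y / 20 := by
      rw [hε]
      ring
    have e2 : 0 ≤ err * U * mm q N x y := by positivity
    have e3 : (err / 2 * U + ε) * mm q N x y = err * U * mm q N x y / 2 + ε * mm q N x y := by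
      ring
    rw [e3] at h8
    rw [h5] at h4
    linarith [h9.1, h9.2, h10.1, h10.2]
  rw [hfun]
  calc U⁻¹ * (Br N x y G - Br N x y T) ≤ U⁻¹ * (err * U * mm q N x y) :=
        mul_le_mul_of_nonneg_left h12 (by positivity)
    _ = err * mm q N x y := by
        field_simp

/-- **(H1)**, in the form of `BlockC`. -/
theorem H1_main (s : ℝ) (hs : 3 / 4 ≤ s) (hs1 : s < 1) (δ : ℝ) (hδ : 0 < δ) (hδ1 : δ ≤ 1 / 20)
    (err : ℝ) (herr : 0 < err) :
    ∃ q0 : ℝ, q0 < 1 ∧ ∀ (q : ℝ) (hq : 0 < q) (hq1 : q < 1), q0 ≤ q →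
      ∀ Y : ℝ, Y ≤ 1 → ∀ D : Cen (1 - 2 * δ) Y, ∀ᶠ k in atTop,
        Br (D.N k) (1 - 2 * δ) (D.y k)
          (H1f hq hq1 s (Iv (D.N k) (1 - 2 * δ)) (Iw (D.N k) (D.y k))) ≤
          err * mm q (D.N k) (1 - 2 * δ) (D.y k) := by
  set m : ℝ := min (1 / 20) (err / 8800) with hm
  have hm0 : 0 < m := lt_min (by norm_num) (by positivity)
  refine ⟨1 / (1 + m), ?_, fun q hq hq1 hqq Y hY D => ?_⟩
  · rw [div_lt_one (by linarith)]
    linarith
  · have hmu : muq q ≤ m := by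
      unfold muq
      rw [div_le_iff₀ hq]
      rw [div_le_iff₀ (by linarith)] at hqq
      linarith
    exact H1_gen hs hs1 (by linarith) (by linarith) herr hq hq1 (hmu.trans (min_le_left _ _))
      (hmu.trans (min_le_right _ _)) hY D

end Pool.Agent.Lib.MP_9cae81_PC
end
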