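import Pool.Agent.Lib.MP_9cae81_PC.Mg.G004
import Pool.Agent.Lib.MP_9cae81_PC.D5

section

/-!
# No sudden jumps: `[E_z (Δ_z v)² 1_SAT]` and `[v E_z (Δ_z v)²]` are `O(μ² / δ²) m`
-/

set_option autoImplicit false
set_option linter.unusedSectionVars false
set_option maxHeartbeats 1000000

open Finset Filter
open scoped BigOperators Topology

namespace Pool.Agent.Lib.MP_9cae81_PC

open Pool.Agent.Lib.MP_9cae81_R

namespace B2

variable {q x Y : ℝ}

theorem Br_congr {N : ℕ} {x y : ℝ} {h h' : (n : ℕ) → As (Fin n) → ℝ}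
    (H : ∀ n ∈ Finset.Icc (N - MW N) (N + MW N), ∀ S, h n S = h' n S) :
    Br N x y h = Br N x y h' := by
  unfold Br
  refine Finset.sum_congr rfl fun n hn => ?_
  have : h n = h' n := by funext S; exact H n hn S
  rw [this]

theorem Br_const {N : ℕ} {x y : ℝ} (c : ℝ) :
    Br N x y (fun _ _ => c) = c * ∑ n ∈ Finset.Icc (N - MW N) (N + MW N), Wt N n := by
  unfold Br
  rw [Finset.mul_sum]
  exact Finset.sum_congr rfl fun n _ => by rw [En_const, mul_comm]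

/-- The window for large `k`. -/
theorem win_ev (C : Cen x Y) : ∀ᶠ k in atTop,
    ∀ n ∈ Finset.Icc (C.N k - MW (C.N k)) (C.N k + MW (C.N k)),
      1 ≤ n ∧ C.N k ≤ 2 * n ∧ n + 1 ≤ 2 * C.N k := by
  have h := C.hN.eventually A0_window
  filter_upwards [h] with k hk n hn
  obtain ⟨h1, h2⟩ := hk.2.1 n hn
  have := C.N1 k
  exact ⟨by omega, h1, h2⟩

/-- Stationarity under gadgets, for functionals bounded by one for `n ≥ 1`. -/
theorem batch_ev (hq : 0 < q) (hq1 : q < 1) (hx : 1 / 2 ≤ x) (hx1 : x ≤ 1) (hY : Y ≤ 1)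
    (C : Cen x Y) {ε : ℝ} (hε : 0 < ε) : ∀ᶠ k in atTop, ∀ h : Fun,
      (∀ n, 1 ≤ n → ∀ S, |h n S| ≤ 1) → ∀ τ : ℝ, 0 ≤ τ → τ ≤ 1 →
      |Br (C.N k) x (C.y k) (fun n S => GA (Iv (C.N k) x) (Iw (C.N k) (C.y k)) τ
          (fun A => h n (S ∩ A))) - Br (C.N k) x (C.y k) h| ≤
        ε * (Br (C.N k) x (C.y k) (fun n S => |h n S|) + mm q (C.N k) x (C.y k)) := by
  filter_upwards [A3_batch hq hq1 hx hx1 hY C hε, win_ev C] with k hk hw h hh τ hτ hτ1
  have hb : B1 (fun n S => if 1 ≤ n then h n S else 0) := by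
    intro n S
    by_cases hn : 1 ≤ n
    · simp only [hn, if_true]; exact hh n hn S
    · simp only [hn, if_false, abs_zero]; norm_num
  have key := hk _ hb τ hτ hτ1
  have e1 := Br_congr (N := C.N k) (x := x) (y := C.y k)
    (h := fun n S => GA (Iv (C.N k) x) (Iw (C.N k) (C.y k)) τ
      (fun A => if 1 ≤ n then h n (S ∩ A) else 0))
    (h' := fun n S => GA (Iv (C.N k) x) (Iw (C.N k) (C.y k)) τ
      (fun A => h n (S ∩ A))) fun n hn S => by
        have := (hw n hn).1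
        simp only [this, if_true]
  have e2 := Br_congr (N := C.N k) (x := x) (y := C.y k)
    (h := fun n S => if 1 ≤ n then h n S else 0) (h' := h) fun n hn S => by
        have := (hw n hn).1
        simp only [this, if_true]
  have e3 := Br_congr (N := C.N k) (x := x) (y := C.y k)
    (h := fun n S => |if 1 ≤ n then h n S else 0|) (h' := fun n S => |h n S|) fun n hn S => by
        have := (hw n hn).1
        simp only [this, if_true]
  rw [e1, e2, e3] at key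
  exact key

/-- One more variable, for functionals bounded by one for `n ≥ 1`. -/
theorem shift_ev (hq : 0 < q) (hq1 : q < 1) (hx : 0 ≤ x) (C : Cen x Y) {ε : ℝ} (hε : 0 < ε) :
    ∀ᶠ k in atTop, ∀ h : Fun, (∀ n, 1 ≤ n → ∀ S, |h n S| ≤ 1) →
      |Br' (C.N k) x (C.y k) h - Br (C.N k) x (C.y k) h| ≤
        ε * (Br (C.N k) x (C.y k) (fun n S => |h n S|) + mm q (C.N k) x (C.y k)) := by
  filter_upwards [A3_shift hq hq1 hx C hε, win_ev C] with k hk hw h hh
  have hb : B1 (fun n S => if 1 ≤ n then h n S else 0) := by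
    intro n S
    by_cases hn : 1 ≤ n
    · simp only [hn, if_true]; exact hh n hn S
    · simp only [hn, if_false, abs_zero]; norm_num
  have key := hk _ hb
  have e2 := Br_congr (N := C.N k) (x := x) (y := C.y k)
    (h := fun n S => if 1 ≤ n then h n S else 0) (h' := h) fun n hn S => by
        have := (hw n hn).1
        simp only [this, if_true]
  have e3 := Br_congr (N := C.N k) (x := x) (y := C.y k)
    (h := fun n S => |if 1 ≤ n then h n S else 0|) (h' := fun n S => |h n S|) fun n hn S => by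
        have := (hw n hn).1
        simp only [this, if_true]
  have e4 : Br' (C.N k) x (C.y k) (fun n S => if 1 ≤ n then h n S else 0) =
      Br' (C.N k) x (C.y k) h := by
    unfold Br'
    refine Finset.sum_congr rfl fun n _ => ?_
    have : (1 : ℕ) ≤ n + 1 := by omega
    simp only [this, if_true]
  rw [e2, e3, e4] at key
  exact key

theorem Br'_nonneg {N : ℕ} {x y : ℝ} (hx : 0 ≤ x) (hy : 0 ≤ y) {h : (n : ℕ) → As (Fin n) → ℝ}
    (H : ∀ n S, 0 ≤ h n S) : 0 ≤ Br' N x y h :=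
  Finset.sum_nonneg fun n _ => mul_nonneg (Wt_nonneg N n) (En_nonneg hx hy (H (n + 1)))

/-- The mean numbers of clauses of the gadget, for large `k`. -/
theorem param_ev (C : Cen x Y) (hY : Y ≤ 1) {ε : ℝ} (hε : 0 < ε) (hε1 : ε ≤ 1 / 2) :
    ∀ᶠ k in atTop, ∀ n ∈ Finset.Icc (C.N k - MW (C.N k)) (C.N k + MW (C.N k)),
      (2 * Iv (C.N k) x + 3 * Iw (C.N k) (C.y k)) * Fintype.card (Lt (Fin n)) ≤ x + ε ∧
      3 * Iw (C.N k) (C.y k) * (Fintype.card (Lt (Fin n)) : ℝ) ^ 2 ≤ 2 := by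
  filter_upwards [A0_param C hε] with k hk n hn
  obtain ⟨h1, h2⟩ := hk n hn
  have hcard : (Fintype.card (Lt (Fin n)) : ℝ) = 2 * n := by
    simp [Lt, Fintype.card_prod]; ring
  have h3 := (abs_le.1 h1).2
  have h4 := (abs_le.1 h2).2
  have h5 := C.yY k
  rw [hcard]
  constructor
  · linarith
  · have : 3 * Iw (C.N k) (C.y k) * (2 * (n : ℝ)) ^ 2 =
      4 * (n : ℝ) ^ 2 * (3 * Iw (C.N k) (C.y k)) := by ring
    rw [this]
    linarith

/-- The comparison error of the projection is negligible. -/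
theorem e_ev (hq : 0 < q) (hq1 : q < 1) (hx : 0 ≤ x) (C : Cen x Y) {K ε : ℝ} (hK : 0 ≤ K)
    (hε : 0 < ε) : ∀ᶠ k in atTop,
    K * Br (C.N k) x (C.y k) (fun n _ => (1 / (muq q * ((n : ℝ) + 1))) ^ 2) ≤
        ε * mm q (C.N k) x (C.y k) ∧
      K * Br (C.N k) x (C.y k) (fun n S => 1 / (muq q * ((n : ℝ) + 1)) * ss q S) ≤
        ε * mm q (C.N k) x (C.y k) ∧
      (∀ n ∈ Finset.Icc (C.N k - MW (C.N k)) (C.N k + MW (C.N k)),
        1 / (muq q * ((n : ℝ) + 1)) ≤ 1) := by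
  have hμ := muq_pos hq hq1
  have hN : ∀ᶠ k in atTop, 2 / muq q ≤ (C.N k : ℝ) :=
    (tendsto_natCast_atTop_atTop.comp C.hN).eventually_ge_atTop _
  filter_upwards [A2_add hq hq1 hx C (K := K * (4 / muq q ^ 2)) hε,
    A2_add hq hq1 hx C (K := K * (2 / muq q)) hε, win_ev C, hN] with k h1 h2 hw hN
  have hy := C.y0 k
  have hN1 : (1 : ℝ) ≤ C.N k := by exact_mod_cast C.N1 k
  have hN0 : (0 : ℝ) < C.N k := by linarith
  have he : ∀ n ∈ Finset.Icc (C.N k - MW (C.N k)) (C.N k + MW (C.N k)),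
      1 / (muq q * ((n : ℝ) + 1)) ≤ 2 / muq q * (C.N k : ℝ)⁻¹ := by
    intro n hn
    have h3 : (C.N k : ℝ) ≤ 2 * n := by exact_mod_cast (hw n hn).2.1
    rw [div_mul_eq_mul_div, ← div_eq_mul_inv, div_div, div_le_div_iff₀ (by positivity)
      (by positivity)]
    nlinarith
  refine ⟨?_, ?_, ?_⟩
  · refine le_trans ?_ h1.1
    have h3 : Br (C.N k) x (C.y k) (fun n _ => (1 / (muq q * ((n : ℝ) + 1))) ^ 2) ≤
        Br (C.N k) x (C.y k) (fun _ _ => (2 / muq q * (C.N k : ℝ)⁻¹) ^ 2) :=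
      Br_mono hx hy fun n hn _ => pow_le_pow_left₀ (by positivity) (he n hn) 2
    have h4 : (2 / muq q * (C.N k : ℝ)⁻¹) ^ 2 ≤ 4 / muq q ^ 2 * (C.N k : ℝ) ^ (-(7 / 4) : ℝ) := by
      have h5 : ((C.N k : ℝ)⁻¹) ^ 2 ≤ (C.N k : ℝ) ^ (-(7 / 4) : ℝ) := by
        have : ((C.N k : ℝ)⁻¹) ^ 2 = (C.N k : ℝ) ^ (-2 : ℝ) := by
          rw [Real.rpow_neg hN0.le, inv_pow]
          norm_num
        rw [this]
        exact Real.rpow_le_rpow_of_exponent_le hN1 (by norm_num)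
      rw [mul_pow, div_pow]
      have : (2 : ℝ) ^ 2 = 4 := by norm_num
      rw [this]
      exact mul_le_mul_of_nonneg_left h5 (by positivity)
    have hS : 0 ≤ ∑ n ∈ Finset.Icc (C.N k - MW (C.N k)) (C.N k + MW (C.N k)), Wt (C.N k) n :=
      Finset.sum_nonneg fun n _ => Wt_nonneg _ n
    have h6 := Br_const (N := C.N k) (x := x) (y := C.y k) ((2 / muq q * (C.N k : ℝ)⁻¹) ^ 2)
    rw [h6] at h3
    calc K * Br (C.N k) x (C.y k) (fun n _ => (1 / (muq q * ((n : ℝ) + 1))) ^ 2)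
        ≤ K * ((4 / muq q ^ 2 * (C.N k : ℝ) ^ (-(7 / 4) : ℝ)) *
          ∑ n ∈ Finset.Icc (C.N k - MW (C.N k)) (C.N k + MW (C.N k)), Wt (C.N k) n) :=
          mul_le_mul_of_nonneg_left (h3.trans (mul_le_mul_of_nonneg_right h4 hS)) hK
      _ = _ := by ring
  · refine le_trans ?_ h2.2
    have hss : ∀ n ∈ Finset.Icc (C.N k - MW (C.N k)) (C.N k + MW (C.N k)),
        ∀ S : As (Fin n), 0 ≤ ss q S := by
      intro n hn S
      have : Nonempty (Fin n) := ⟨⟨0, (hw n hn).1⟩⟩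
      exact (AS (Fin n)).s_nonneg hq.le hq1 S
    have h3 : Br (C.N k) x (C.y k) (fun n S => 1 / (muq q * ((n : ℝ) + 1)) * ss q S) ≤
        Br (C.N k) x (C.y k) (fun _ S => (2 / muq q * (C.N k : ℝ)⁻¹) * ss q S) :=
      Br_mono hx hy fun n hn S => mul_le_mul_of_nonneg_right (he n hn) (hss n hn S)
    rw [Br_mul] at h3
    have h4 : (C.N k : ℝ)⁻¹ ≤ (C.N k : ℝ) ^ (-(4 / 5) : ℝ) := by
      rw [← Real.rpow_neg_one]
      exact Real.rpow_le_rpow_of_exponent_le hN1 (by norm_num)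
    have hS : 0 ≤ Br (C.N k) x (C.y k) (fun _ S => ss q S) := Br_nonneg hx hy hss
    calc K * Br (C.N k) x (C.y k) (fun n S => 1 / (muq q * ((n : ℝ) + 1)) * ss q S)
        ≤ K * ((2 / muq q * (C.N k : ℝ) ^ (-(4 / 5) : ℝ)) *
          Br (C.N k) x (C.y k) (fun _ S => ss q S)) :=
          mul_le_mul_of_nonneg_left (h3.trans (mul_le_mul_of_nonneg_right
            (mul_le_mul_of_nonneg_left h4 (by positivity)) hS)) hK
      _ = _ := by ring
  · intro n hn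
    refine (he n hn).trans ?_
    rw [← div_eq_mul_inv, div_le_one hN0]
    exact hN

/-- The closing computation. -/
theorem close {G m δ ε μ c K P : ℝ} (hG : 0 ≤ G) (hm : 0 ≤ m) (hδ : 0 < δ) (hδ1 : δ ≤ 1 / 2)
    (hε : 0 ≤ ε) (hε1 : ε ≤ δ / 36) (hεμ : ε ≤ μ ^ 2) (hc0 : 0 ≤ c) (hc : c ≤ 1 - δ + ε)
    (hK0 : 0 ≤ K) (hK : K ≤ 37 / δ) (hP : P ≤ 40)
    (h : G ≤ (1 + ε) * ((1 + δ / 3) * (c * ((1 + ε) * G + ε * m) +
      K * (μ ^ 2 * ((1 + ε) * m + ε * m)))) + P * μ ^ 2 * m + 5 * ε * m + ε * G) :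
    G ≤ 150 * μ ^ 2 / δ ^ 2 * m := by
  set A := (1 + ε) * (1 + δ / 3) with hA
  have hA0 : 0 ≤ A := by positivity
  have hμ2 : 0 ≤ μ ^ 2 := sq_nonneg μ
  have hc1 : c ≤ 1 := by linarith
  have hε72 : ε ≤ 1 / 72 := by linarith
  have hA1 : A ≤ 6 / 5 := by
    have : A ≤ (1 + 1 / 72) * (1 + (1 / 2) / 3) :=
      mul_le_mul (by linarith) (by linarith) (by linarith) (by norm_num)
    linarith
  -- the coefficient of `G`
  have hr : (1 + δ / 3) * (1 - δ + ε) ≤ 1 - 2 * δ / 3 + 7 / 6 * ε := by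
    nlinarith [sq_nonneg δ, mul_nonneg hε (show 0 ≤ 1 / 2 - δ by linarith)]
  have hr1 : 1 - 2 * δ / 3 + 7 / 6 * ε ≤ 1 := by linarith
  have hcoef : A * c * (1 + ε) + ε ≤ 1 - δ / 2 := by
    have h1 : A * c * (1 + ε) ≤ (1 + ε) ^ 2 * ((1 + δ / 3) * (1 - δ + ε)) := by
      have h2 : (1 + δ / 3) * c ≤ (1 + δ / 3) * (1 - δ + ε) :=
        mul_le_mul_of_nonneg_left hc (by positivity)
      have h3 := mul_le_mul_of_nonneg_left h2 (show 0 ≤ (1 + ε) ^ 2 by positivity)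
      have e : A * c * (1 + ε) = (1 + ε) ^ 2 * ((1 + δ / 3) * c) := by rw [hA]; ring
      rw [e]; exact h3
    have h4 : (1 + ε) ^ 2 * ((1 + δ / 3) * (1 - δ + ε)) ≤
        (1 + 3 * ε) * (1 - 2 * δ / 3 + 7 / 6 * ε) := by
      refine mul_le_mul (by nlinarith) hr ?_ (by positivity)
      exact mul_nonneg (by positivity) (by linarith)
    have h5 : (1 + 3 * ε) * (1 - 2 * δ / 3 + 7 / 6 * ε) ≤ 1 - 2 * δ / 3 + 7 / 6 * ε + 3 * ε := by
      have := mul_le_mul_of_nonneg_left hr1 (show 0 ≤ 3 * ε by positivity)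
      linarith
    linarith
  -- the coefficient of `m`
  have hKμ : K * (μ ^ 2 * ((1 + ε) + ε)) ≤ 37 / δ * μ ^ 2 * (37 / 36) := by
    have h1 : μ ^ 2 * ((1 + ε) + ε) ≤ μ ^ 2 * (37 / 36) :=
      mul_le_mul_of_nonneg_left (by linarith) hμ2
    have h2 := mul_le_mul hK h1 (by positivity) (by positivity)
    linarith
  have hd1 : μ ^ 2 ≤ 1 / 2 * (μ ^ 2 / δ) := by
    have : μ ^ 2 * δ ≤ μ ^ 2 * (1 / 2) := mul_le_mul_of_nonneg_left hδ1 hμ2
    rw [← mul_div_assoc, le_div_iff₀ hδ]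
    linarith
  have hmcoef : A * (c * ε + K * (μ ^ 2 * ((1 + ε) + ε))) + P * μ ^ 2 + 5 * ε ≤
      75 * (μ ^ 2 / δ) := by
    have h1 : c * ε ≤ μ ^ 2 := by nlinarith
    have e : 37 / δ * μ ^ 2 * (37 / 36) = 1369 / 36 * (μ ^ 2 / δ) := by field_simp; ring
    rw [e] at hKμ
    have hq0 : 0 ≤ μ ^ 2 / δ := by positivity
    have h2 : A * (c * ε + K * (μ ^ 2 * ((1 + ε) + ε))) ≤
        6 / 5 * (μ ^ 2 + 1369 / 36 * (μ ^ 2 / δ)) :=
      mul_le_mul hA1 (by linarith) (by positivity) (by norm_num)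
    have h3 : P * μ ^ 2 ≤ 40 * μ ^ 2 := mul_le_mul_of_nonneg_right hP hμ2
    linarith
  have hmain : G * (δ / 2) ≤ 75 * (μ ^ 2 / δ) * m := by
    have e : (1 + ε) * ((1 + δ / 3) * (c * ((1 + ε) * G + ε * m) +
      K * (μ ^ 2 * ((1 + ε) * m + ε * m)))) + P * μ ^ 2 * m + 5 * ε * m + ε * G =
      (A * c * (1 + ε) + ε) * G +
        (A * (c * ε + K * (μ ^ 2 * ((1 + ε) + ε))) + P * μ ^ 2 + 5 * ε) * m := by
      rw [hA]; ring
    rw [e] at h
    have h1 := mul_le_mul_of_nonneg_right hcoef hG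
    have h2 := mul_le_mul_of_nonneg_right hmcoef hm
    nlinarith
  have e : 150 * μ ^ 2 / δ ^ 2 * m = 75 * (μ ^ 2 / δ) * m * (2 / δ) := by field_simp; ring
  rw [e]
  have h3 := mul_le_mul_of_nonneg_right hmain (show 0 ≤ 2 / δ by positivity)
  have e2 : G * (δ / 2) * (2 / δ) = G := by field_simp
  rw [e2] at h3
  exact h3

theorem exp_le {b δ : ℝ} (hb : b ≤ δ / 4) (hδ : 0 ≤ δ) (hδ1 : δ ≤ 1 / 2) :
    Real.exp b ≤ 1 + δ / 3 := by
  refine (Real.exp_le_exp.2 hb).trans ?_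
  have h := Real.exp_bound' (x := δ / 4) (by positivity) (by linarith) (n := 2) (by norm_num)
  have e : ∑ m ∈ Finset.range 2, (δ / 4) ^ m / (m.factorial : ℝ) = 1 + δ / 4 := by
    simp [Finset.sum_range_succ]
  rw [e] at h
  refine h.trans ?_
  have e2 : (δ / 4) ^ 2 * ((2 : ℕ) + 1) / (((2 : ℕ).factorial : ℝ) * (2 : ℕ)) =
      3 / 64 * δ ^ 2 := by
    simp [Nat.factorial]; ring
  rw [e2]
  nlinarith

theorem K_le {x ε : ℝ} (hx : 1 / 2 ≤ x) (hx1 : x < 1) (hε1 : ε ≤ (1 - x) / 36) :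
    (x + ε + 2) / ((1 - x) / 12) + 2 ≤ 37 / (1 - x) := by
  have hδ : 0 < 1 - x := by linarith
  have e : (x + ε + 2) / ((1 - x) / 12) = 12 * (x + ε + 2) / (1 - x) := by field_simp
  rw [e, div_add' _ _ _ hδ.ne', div_le_div_iff_of_pos_right hδ]
  nlinarith

/-- The common part of the two estimates: the growth lemma along the gadget. -/
theorem grow_ev (hq : 3 / 4 ≤ q) (hq1 : q < 1) (hx : 1 / 2 ≤ x) (hx1 : x < 1) (hY : Y ≤ 1)
    (C : Cen x Y) {ε : ℝ} (hε : 0 < ε) (hε1 : ε ≤ (1 - x) / 36) : ∀ᶠ k in atTop,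
    ∀ (g : (n : ℕ) → As (Fin n) → As (Fin n) → ℝ) (U : Fun),
      (∀ n, 1 ≤ n → ∀ M S, 0 ≤ g n M S) → (∀ n, 1 ≤ n → ∀ S, 0 ≤ U n S ∧ U n S ≤ 1) →
      (∀ n M, 1 ≤ n → g n M M = 0) →
      (∀ n, 1 ≤ n → ∀ (M S : As (Fin n)) (c b c' b' l : ℝ), S ⊆ M → 0 ≤ c → c ≤ c' → 0 ≤ b →
        b ≤ b' → 0 < l →
        c * (P1 (g n M) S - g n M S) + b * (P2 (g n M) S - g n M S) ≤
        (c' + b') * l * g n M S +
          (c' * U n S + ((c' + b') / l + b') * (muq q ^ 2 * ss q S ^ 2))) →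
      Br (C.N k) x (C.y k) (fun n M => GA (Iv (C.N k) x) (Iw (C.N k) (C.y k)) 1
          (fun A => g n M (M ∩ A))) ≤
        (1 + (1 - x) / 3) * ((x + ε) * ((1 + ε) * Br (C.N k) x (C.y k) U +
          ε * mm q (C.N k) x (C.y k)) +
          ((x + ε + 2) / ((1 - x) / 12) + 2) * (muq q ^ 2 *
            ((1 + ε) * mm q (C.N k) x (C.y k) + ε * mm q (C.N k) x (C.y k)))) := by
  have hq0 : 0 < q := by linarith
  have hx0 : 0 ≤ x := by linarith
  have hμ := muq_pos hq0 hq1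
  filter_upwards [batch_ev hq0 hq1 hx hx1.le hY C hε, win_ev C,
    param_ev C hY hε (by linarith)] with k hb hw hp g U hg hU hg0 hstep
  have hy := C.y0 k
  have hv : 0 ≤ Iv (C.N k) x := Iv_nonneg hx0
  have hw' : 0 ≤ Iw (C.N k) (C.y k) := Iw_nonneg hy
  set v := Iv (C.N k) x with hvdef
  set w := Iw (C.N k) (C.y k) with hwdef
  set m := mm q (C.N k) x (C.y k) with hm
  have hmm : m = Br (C.N k) x (C.y k) (fun _ S => ss q S ^ 2) := rfl
  have hm0 : 0 ≤ m := Br_nonneg hx0 hy fun n _ S => sq_nonneg _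
  set l := (1 - x) / 12 with hl
  have hl0 : 0 < l := by rw [hl]; linarith
  have hss : ∀ n, 1 ≤ n → ∀ S : As (Fin n), 0 ≤ ss q S ∧ ss q S ≤ 1 := by
    intro n hn S
    have : Nonempty (Fin n) := ⟨⟨0, hn⟩⟩
    exact ⟨(AS (Fin n)).s_nonneg hq0.le hq1 S, (AS (Fin n)).s_le_one hq0.le hq1 S⟩
  -- stationarity
  have hUb : ∀ τ, 0 ≤ τ → τ ≤ 1 → Br (C.N k) x (C.y k)
      (fun n S => GA v w τ (fun A => U n (S ∩ A))) ≤
      (1 + ε) * Br (C.N k) x (C.y k) U + ε * m := by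
    intro τ hτ hτ1
    have h1 := hb U (fun n hn S => by
      rw [abs_of_nonneg (hU n hn S).1]; exact (hU n hn S).2) τ hτ hτ1
    have h2 : Br (C.N k) x (C.y k) (fun n S => |U n S|) = Br (C.N k) x (C.y k) U :=
      Br_congr fun n hn S => abs_of_nonneg (hU n (hw n hn).1 S).1
    rw [h2] at h1
    have h3 := (abs_le.1 h1).2
    linarith
  have hsb : ∀ τ, 0 ≤ τ → τ ≤ 1 → Br (C.N k) x (C.y k)
      (fun n S => GA v w τ (fun A => ss q (S ∩ A) ^ 2)) ≤ (1 + ε) * m + ε * m := by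
    intro τ hτ hτ1
    have h1 := hb (fun _ S => ss q S ^ 2) (fun n hn S => by
      rw [abs_of_nonneg (sq_nonneg _)]
      have := hss n hn S
      exact pow_le_one₀ this.1 this.2) τ hτ hτ1
    have h2 : Br (C.N k) x (C.y k) (fun n S => |ss q S ^ 2|) = m :=
      Br_congr fun n hn S => abs_of_nonneg (sq_nonneg _)
    rw [h2, ← hmm] at h1
    have h3 := (abs_le.1 h1).2
    linarith
  set c' := x + ε with hc'
  have hc'0 : 0 ≤ c' := by linarith
  have hc'1 : c' ≤ 1 := by linarith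
  set K2 := (c' + 2) / l + 2 with hK2
  have hK20 : 0 ≤ K2 := by positivity
  have key := Br_growth (N := C.N k) (x := x) (y := C.y k) hx0 hy hv hw' (g := g)
    (U := fun n S => if 1 ≤ n then c' * U n S + K2 * (muq q ^ 2 * ss q S ^ 2) else 0)
    (a := c' * ((1 + ε) * Br (C.N k) x (C.y k) U + ε * m) +
      K2 * (muq q ^ 2 * ((1 + ε) * m + ε * m))) (b := (c' + 2) * l) (by positivity) ?_ ?_ ?_
  · have h0 : Br (C.N k) x (C.y k) (fun n M => g n M M) = 0 := by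
      rw [Br_congr (h' := fun _ _ => (0 : ℝ)) fun n hn M => hg0 n M (hw n hn).1, Br_const,
        zero_mul]
    rw [h0, zero_add] at key
    refine key.trans (mul_le_mul_of_nonneg_right (exp_le ?_ (by linarith) (by linarith)) ?_)
    · rw [hl]
      nlinarith
    · have hB : 0 ≤ Br (C.N k) x (C.y k) U := Br_nonneg hx0 hy fun n hn S =>
        (hU n (hw n hn).1 S).1
      positivity
  · have hB : 0 ≤ Br (C.N k) x (C.y k) U := Br_nonneg hx0 hy fun n hn S =>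
        (hU n (hw n hn).1 S).1
    positivity
  · intro n hn M S hSM
    have h1 := (hw n hn).1
    obtain ⟨h2, h3⟩ := hp n hn
    simp only [h1, if_true]
    exact hstep n h1 M S _ _ c' 2 l hSM (by positivity) h2 (by positivity) h3 hl0
  · intro τ hτ
    have e : Br (C.N k) x (C.y k) (fun n M => GA v w τ (fun A =>
        (fun n S => if 1 ≤ n then c' * U n S + K2 * (muq q ^ 2 * ss q S ^ 2) else 0) n
          (M ∩ A))) =
        c' * Br (C.N k) x (C.y k) (fun n S => GA v w τ (fun A => U n (S ∩ A))) +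
        K2 * muq q ^ 2 * Br (C.N k) x (C.y k)
          (fun n S => GA v w τ (fun A => ss q (S ∩ A) ^ 2)) := by
      rw [← Br_mul, ← Br_mul, ← Br_add]
      refine Br_congr fun n hn S => ?_
      have h1 := (hw n hn).1
      simp only [h1, if_true]
      rw [← GA_mul, ← GA_mul, ← GA_add]
      congr 1
      funext A
      ring
    rw [e]
    have h1 := mul_le_mul_of_nonneg_left (hUb τ hτ.1 hτ.2) hc'0
    have h2 := mul_le_mul_of_nonneg_left (hsb τ hτ.1 hτ.2)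
      (show 0 ≤ K2 * muq q ^ 2 by positivity)
    calc _ ≤ c' * ((1 + ε) * Br (C.N k) x (C.y k) U + ε * m) +
          K2 * muq q ^ 2 * ((1 + ε) * m + ε * m) := add_le_add h1 h2
      _ = _ := by ring

/-- **No sudden jumps, surviving literals.** -/
theorem main_s {q x Y : ℝ} (hq : 3 / 4 ≤ q) (hq1 : q < 1) (hx : 1 / 2 ≤ x) (hx1 : x < 1)
    (hY : Y ≤ 1) (C : Cen x Y) : ∀ᶠ k in atTop,
    Br (C.N k) x (C.y k) (fun n S => (AS (Fin n)).Gp q S) ≤
      150 * muq q ^ 2 / (1 - x) ^ 2 * mm q (C.N k) x (C.y k) := by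
  have hq0 : 0 < q := by linarith
  have hx0 : 0 ≤ x := by linarith
  have hμ := muq_pos hq0 hq1
  set ε := min ((1 - x) / 36) (muq q ^ 2) with hεdef
  have hε : 0 < ε := lt_min (by linarith) (by positivity)
  have hε1 : ε ≤ (1 - x) / 36 := min_le_left _ _
  have hε2 : ε ≤ muq q ^ 2 := min_le_right _ _
  have hε' : 0 < 1 / ε := by positivity
  filter_upwards [grow_ev hq hq1 hx hx1 hY C hε hε1, win_ev C, shift_ev hq0 hq1 hx0 C hε,
    A6_cavity hq0 hq1 hx hx1.le hY C hε,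
    e_ev hq0 hq1 hx0 C (K := (1 + 1 / ε) * 4) (by positivity) hε] with k hg hw hs hc he
  have hy := C.y0 k
  have hv : 0 ≤ Iv (C.N k) x := Iv_nonneg hx0
  have hw' : 0 ≤ Iw (C.N k) (C.y k) := Iw_nonneg hy
  have hm0 : 0 ≤ mm q (C.N k) x (C.y k) := Br_nonneg hx0 hy fun n _ S => sq_nonneg _
  have hne : ∀ n, 1 ≤ n → Nonempty (Fin n) := fun n hn => ⟨⟨0, hn⟩⟩
  have hGp0 : ∀ n, ∀ S : As (Fin n), 0 ≤ (AS (Fin n)).Gp q S := by
    intro n S
    unfold Sys.Gp
    exact div_nonneg (Finset.sum_nonneg fun a _ => mul_nonneg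
      (by linarith [(AS (Fin n)).un_le_one ((AS (Fin n)).iu a S)]) (sq_nonneg _)) (by positivity)
  have hGp1 : ∀ n, 1 ≤ n → ∀ S : As (Fin n), 0 ≤ (AS (Fin n)).Gp q S ∧
      (AS (Fin n)).Gp q S ≤ 1 := by
    intro n hn S
    have := hne n hn
    refine ⟨(AS (Fin n)).Gp_nonneg S, ?_⟩
    have h1 := (AS (Fin n)).Gp_le_Gm (q := q) S
    have h2 := (AS (Fin n)).Gm_le hq0 hq1 S
    have h3 := (AS (Fin n)).s_le_one hq0.le hq1 S
    have h4 := (AS (Fin n)).s_nonneg hq0.le hq1 S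
    have h5 : (1 - q) / q ≤ 1 := by rw [div_le_one hq0]; linarith
    have h6 : 0 ≤ (1 - q) / q := Sys.mu_nonneg hq0 hq1
    nlinarith
  have hT := hg (fun n M S => gs q M S) (fun n S => (AS (Fin n)).Gp q S)
    (fun n hn M S => by
      have := hne n hn
      exact gs_nonneg q M S) hGp1 (fun n M _ => by unfold gs; simp) ?_
  swap
  · intro n hn M S c b c' b' l hSM h1 h2 h3 h4 h5
    have := hne n hn
    exact gs_step hq0 hq1 hSM h1 h2 h3 h4 h5
  set G := Br (C.N k) x (C.y k) (fun n S => (AS (Fin n)).Gp q S) with hG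
  set m := mm q (C.N k) x (C.y k) with hm
  set T := Br (C.N k) x (C.y k) (fun n M => GA (Iv (C.N k) x) (Iw (C.N k) (C.y k)) 1
          (fun A => gs q M (M ∩ A))) with hTdef
  have hG0 : 0 ≤ G := Br_nonneg hx0 hy fun n _ S => hGp0 n S
  -- one more variable
  have h1 := hs (fun n S => (AS (Fin n)).Gp q S) (fun n hn S => by
    rw [abs_of_nonneg (hGp1 n hn S).1]; exact (hGp1 n hn S).2)
  have h2 : Br (C.N k) x (C.y k) (fun n S => |(AS (Fin n)).Gp q S|) = G :=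
    Br_congr fun n hn S => abs_of_nonneg (hGp0 n S)
  rw [h2, ← hG] at h1
  have h3 := (abs_le.1 h1).1
  -- the cavity
  have h4 := (abs_le.1 (hc (Gs q) (fun n S a => Gs_bound hq0.le hq1 S a))).2
  have h5 : Br' (C.N k) x (C.y k) (avL (Gs q)) =
      Br' (C.N k) x (C.y k) (fun n S => (AS (Fin n)).Gp q S) := rfl
  rw [h5] at h4
  have h6 : Br (C.N k) x (C.y k) (cav (Iv (C.N k) x) (Iw (C.N k) (C.y k)) (Gs q)) ≤
      (1 + ε) * T + (1 + 1 / ε) * 4 *
        Br (C.N k) x (C.y k) (fun n _ => (1 / (muq q * ((n : ℝ) + 1))) ^ 2) := by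
    rw [hTdef, ← Br_mul, ← Br_mul, ← Br_add]
    refine Br_mono hx0 hy fun n hn M => ?_
    have := hne n (hw n hn).1
    have := cav_Gs hq0 hq1 hv hw' M hε
    calc _ ≤ _ := this
      _ = _ := by ring
  have h7 := he.1
  refine close (ε := ε) (c := x + ε) (K := (x + ε + 2) / ((1 - x) / 12) + 2) (P := 0) hG0 hm0
    (by linarith) (by linarith) hε.le hε1 hε2 (by linarith) (by linarith)
    (by have : 0 < (1 - x) / 12 := by linarith
        positivity) ?_ (by norm_num) ?_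
  · exact K_le hx hx1 hε1
  · have h8 : (1 + ε) * T ≤ (1 + ε) * ((1 + (1 - x) / 3) * ((x + ε) * ((1 + ε) * G + ε * m) +
          ((x + ε + 2) / ((1 - x) / 12) + 2) * (muq q ^ 2 * ((1 + ε) * m + ε * m)))) :=
      mul_le_mul_of_nonneg_left hT (by positivity)
    have hεm : 0 ≤ ε * m := mul_nonneg hε.le hm0
    linarith

/-- **No sudden jumps, deaths included, weight `v`.** -/
theorem main_d {q x Y : ℝ} (hq : 3 / 4 ≤ q) (hq1 : q < 1) (hx : 1 / 2 ≤ x) (hx1 : x < 1)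
    (hY : Y ≤ 1) (C : Cen x Y) : ∀ᶠ k in atTop,
    Br (C.N k) x (C.y k) (fun n S => vv q S * (AS (Fin n)).Gm q S) ≤
      150 * muq q ^ 2 / (1 - x) ^ 2 * mm q (C.N k) x (C.y k) := by
  have hq0 : 0 < q := by linarith
  have hx0 : 0 ≤ x := by linarith
  have hμ := muq_pos hq0 hq1
  set ε := min ((1 - x) / 36) (muq q ^ 2) with hεdef
  have hε : 0 < ε := lt_min (by linarith) (by positivity)
  have hε1 : ε ≤ (1 - x) / 36 := min_le_left _ _
  have hε2 : ε ≤ muq q ^ 2 := min_le_right _ _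
  have hε' : 0 < 1 / ε := by positivity
  filter_upwards [grow_ev hq hq1 hx hx1 hY C hε hε1, win_ev C, shift_ev hq0 hq1 hx0 C hε,
    A6_cavity hq0 hq1 hx hx1.le hY C hε, param_ev C hY hε (by linarith),
    e_ev hq0 hq1 hx0 C (K := 8) (by norm_num) hε,
    e_ev hq0 hq1 hx0 C (K := 54 * muq q) (by positivity) hε] with k hg hw hs hc hp he he2
  have hy := C.y0 k
  have hv : 0 ≤ Iv (C.N k) x := Iv_nonneg hx0
  have hw' : 0 ≤ Iw (C.N k) (C.y k) := Iw_nonneg hy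
  have hm0 : 0 ≤ mm q (C.N k) x (C.y k) := Br_nonneg hx0 hy fun n _ S => sq_nonneg _
  have hne : ∀ n, 1 ≤ n → Nonempty (Fin n) := fun n hn => ⟨⟨0, hn⟩⟩
  have hGm1 : ∀ n, 1 ≤ n → ∀ S : As (Fin n), 0 ≤ vv q S * (AS (Fin n)).Gm q S ∧
      vv q S * (AS (Fin n)).Gm q S ≤ 1 := by
    intro n hn S
    have := hne n hn
    have h1 := (AS (Fin n)).Gm_nonneg (q := q) S
    have h2 := (AS (Fin n)).Gm_le hq0 hq1 S
    have h3 := (AS (Fin n)).s_le_one hq0.le hq1 S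
    have h4 := (AS (Fin n)).s_nonneg hq0.le hq1 S
    have h5 : (1 - q) / q ≤ 1 := by rw [div_le_one hq0]; linarith
    have h6 : 0 ≤ (1 - q) / q := Sys.mu_nonneg hq0 hq1
    have h7 := vv_nonneg hq0.le hq1 S
    have h8 := vv_le_one hq0.le hq1 S
    have h9 : (AS (Fin n)).Gm q S ≤ 1 := by nlinarith
    exact ⟨mul_nonneg h7 h1, by nlinarith⟩
  have hT := hg (fun n M S => gd q M S) (fun n S => vv q S * (AS (Fin n)).Gm q S)
    (fun n hn M S => by
      have := hne n hn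
      exact gd_nonneg hq0.le hq1 M S) hGm1 (fun n M _ => by unfold gd; simp) ?_
  swap
  · intro n hn M S c b c' b' l hSM h1 h2 h3 h4 h5
    have := hne n hn
    exact gd_step hq0 hq1 hSM h1 h2 h3 h4 h5
  set G := Br (C.N k) x (C.y k) (fun n S => vv q S * (AS (Fin n)).Gm q S) with hG
  set m := mm q (C.N k) x (C.y k) with hm
  have hmm : m = Br (C.N k) x (C.y k) (fun _ S => ss q S ^ 2) := rfl
  set T := Br (C.N k) x (C.y k) (fun n M => GA (Iv (C.N k) x) (Iw (C.N k) (C.y k)) 1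
          (fun A => gd q M (M ∩ A))) with hTdef
  have hG0 : 0 ≤ G := Br_nonneg hx0 hy fun n hn S => (hGm1 n (hw n hn).1 S).1
  -- one more variable
  have h1 := hs (fun n S => vv q S * (AS (Fin n)).Gm q S) (fun n hn S => by
    rw [abs_of_nonneg (hGm1 n hn S).1]; exact (hGm1 n hn S).2)
  have h2 : Br (C.N k) x (C.y k) (fun n S => |vv q S * (AS (Fin n)).Gm q S|) = G :=
    Br_congr fun n hn S => abs_of_nonneg (hGm1 n (hw n hn).1 S).1
  rw [h2, ← hG] at h1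
  have h3 := (abs_le.1 h1).1
  -- the cavity
  have h4 := (abs_le.1 (hc (Gd q) (fun n S a => Gd_bound hq0.le hq1 S a))).2
  have h5 : Br' (C.N k) x (C.y k) (avL (Gd q)) =
      Br' (C.N k) x (C.y k) (fun n S => vv q S * (AS (Fin n)).Gm q S) := by
    congr 1
    funext n S
    exact avL_Gd q n S
  rw [h5] at h4
  have h6 : Br (C.N k) x (C.y k) (cav (Iv (C.N k) x) (Iw (C.N k) (C.y k)) (Gd q)) ≤
      T + 36 * muq q ^ 2 * m +
        54 * muq q * Br (C.N k) x (C.y k) (fun n S => 1 / (muq q * ((n : ℝ) + 1)) * ss q S) +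
        8 * Br (C.N k) x (C.y k) (fun n _ => (1 / (muq q * ((n : ℝ) + 1))) ^ 2) := by
    rw [hTdef, hmm, ← Br_mul, ← Br_mul, ← Br_mul, ← Br_add, ← Br_add, ← Br_add]
    refine Br_mono hx0 hy fun n hn M => ?_
    have := hne n (hw n hn).1
    obtain ⟨hp1, hp2⟩ := hp n hn
    have h7 := cav_Gd hq0 hq1 hv hw' M (he.2.2 n hn)
    have h8 := GA_mk_le hq hq1 hv hw' (hp1.trans (by linarith)) hp2 M
    have h9 : 0 ≤ GA (Iv (C.N k) x) (Iw (C.N k) (C.y k)) 1 (fun B => mk q B M) :=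
      GA_nonneg hv hw' zero_le_one fun B => mk_nonneg hq0.le hq1 B M
    have hs0 : 0 ≤ ss q M := (AS (Fin n)).s_nonneg hq0.le hq1 M
    have h10 : GA (Iv (C.N k) x) (Iw (C.N k) (C.y k)) 1 (fun B => mk q B M) ^ 2 ≤
        36 * muq q ^ 2 * ss q M ^ 2 := by
      have := pow_le_pow_left₀ h9 h8 2
      calc _ ≤ _ := this
        _ = _ := by ring
    have he0 : 0 ≤ 1 / (muq q * ((n : ℝ) + 1)) := by positivity
    have h11 := mul_le_mul_of_nonneg_left h8 (show 0 ≤ 9 * (1 / (muq q * ((n : ℝ) + 1))) by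
      positivity)
    have e1 : 9 * (1 / (muq q * ((n : ℝ) + 1))) * (6 * muq q * ss q M) =
        54 * muq q * (1 / (muq q * ((n : ℝ) + 1)) * ss q M) := by ring
    rw [e1] at h11
    linarith
  have h7 := he.1
  have h8 := he2.2.1
  refine close (ε := ε) (c := x + ε) (K := (x + ε + 2) / ((1 - x) / 12) + 2) (P := 36) hG0 hm0
    (by linarith) (by linarith) hε.le hε1 hε2 (by linarith) (by linarith)
    (by have : 0 < (1 - x) / 12 := by linarith
        positivity) ?_ (by norm_num) ?_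
  · exact K_le hx hx1 hε1
  · have hT0 : 0 ≤ T := Br_nonneg hx0 hy fun n hn M => by
      have := hne n (hw n hn).1
      exact GA_nonneg hv hw' zero_le_one fun A => gd_nonneg hq0.le hq1 M _
    have h9 : T ≤ (1 + ε) * ((1 + (1 - x) / 3) * ((x + ε) * ((1 + ε) * G + ε * m) +
          ((x + ε + 2) / ((1 - x) / 12) + 2) * (muq q ^ 2 * ((1 + ε) * m + ε * m)))) := by
      refine le_trans ?_ (mul_le_mul_of_nonneg_left hT (show 0 ≤ 1 + ε by positivity))
      exact le_mul_of_one_le_left hT0 (by linarith)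
    have hεm : 0 ≤ ε * m := mul_nonneg hε.le hm0
    linarith

end B2

/-- **No sudden jumps, surviving literals.** -/
theorem B2s {q x Y : ℝ} (hq : 3 / 4 ≤ q) (hq1 : q < 1) (hx : 1 / 2 ≤ x) (hx1 : x < 1)
    (hY : Y ≤ 1) (C : Cen x Y) : ∀ᶠ k in atTop,
    Br (C.N k) x (C.y k) (fun n S => (AS (Fin n)).Gp q S) ≤
      150 * muq q ^ 2 / (1 - x) ^ 2 * mm q (C.N k) x (C.y k) :=
  B2.main_s hq hq1 hx hx1 hY C

/-- **No sudden jumps, deaths included, weight `v`.** -/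
theorem B2d {q x Y : ℝ} (hq : 3 / 4 ≤ q) (hq1 : q < 1) (hx : 1 / 2 ≤ x) (hx1 : x < 1)
    (hY : Y ≤ 1) (C : Cen x Y) : ∀ᶠ k in atTop,
    Br (C.N k) x (C.y k) (fun n S => vv q S * (AS (Fin n)).Gm q S) ≤
      150 * muq q ^ 2 / (1 - x) ^ 2 * mm q (C.N k) x (C.y k) :=
  B2.main_d hq hq1 hx hx1 hY C

end Pool.Agent.Lib.MP_9cae81_PC
end

section

/-!
# The hypotheses `DH` hold for all large `k`
-/

set_option autoImplicit false

open Finset Filter
open scoped BigOperators Topology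

namespace Pool.Agent.Lib.MP_9cae81_PC

open Pool.Agent.Lib.MP_9cae81_R

/-- The constant of (B2s) and (B2d). -/
noncomputable def KB2 (x : ℝ) : ℝ := 150 / (1 - x) ^ 2

theorem one_le_KB2 {x : ℝ} (hx : 1 / 2 ≤ x) (hx1 : x < 1) : 1 ≤ KB2 x := by
  unfold KB2
  have h0 : 0 < (1 - x) ^ 2 := pow_pos (by linarith) 2
  rw [le_div_iff₀ h0]
  nlinarith

/-- **All hypotheses of `DH`, eventually.** -/
theorem DH_ev {q x Y ε : ℝ} (hq : 3 / 4 ≤ q) (hq1 : q < 1) (hKmu : KB2 x * muq q ≤ 1 / 2)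
    (hx : 1 / 2 ≤ x) (hx1 : x < 1) (hY : Y ≤ 1) (C : Cen x Y)
    (hε : 0 < ε) (hε3 : ε ≤ muq q ^ 3 / 8) :
    ∀ᶠ k in atTop, DH q (C.N k) x (C.y k) (KB2 x) ε := by
  have hq0 : 0 < q := by linarith
  have hmu1 : muq q ≤ 1 := by
    unfold muq
    rw [div_le_one hq0]
    linarith
  refine DH_of hq0 hq1 hmu1 (one_le_KB2 hx hx1) hKmu hx hx1.le hY C hε hε3 ?_ ?_
  · filter_upwards [B2s hq hq1 hx hx1 hY C] with k hk
    refine hk.trans (le_of_eq ?_)
    unfold KB2; ring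
  · filter_upwards [B2d hq hq1 hx hx1 hY C] with k hk
    refine hk.trans (le_of_eq ?_)
    unfold KB2; ring

end Pool.Agent.Lib.MP_9cae81_PC
end
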