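import Pool.Agent.Lib.MP_9cae81_PC.Mg.G008
import Pool.Agent.Lib.MP_9cae81_PC.Mg.G005
import Pool.Agent.Lib.MP_9cae81_PC.Mg.G001
import Pool.Agent.Lib.MP_9cae81_PC.Mg.G002
import Pool.Agent.Lib.MP_9cae81_PC.Mg.G004

section

/-!
# (H2) at the level of the bracket

`CT_cav`: an upper bound for `Br (avL G)` from a pointwise upper bound for the cavity functional.
`H2_br`: `Br (H2f ..) ≤ err * mm`.
-/

set_option autoImplicit false
set_option linter.unusedSectionVars false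

open Finset Filter
open scoped BigOperators Topology

namespace Pool.Agent.Lib.MP_9cae81_PC

open Pool.Agent.Lib.MP_9cae81_R

/-! ### The bracket -/

theorem CT_Wt_pos (N n : ℕ) : 0 < Wt N n := Real.exp_pos _

theorem CT_LN_nn (N : ℕ) : 0 ≤ LN N := Real.rpow_nonneg (Nat.cast_nonneg N) _

theorem CT_int_nn {N : ℕ} {x y : ℝ} (hx : 0 ≤ x) (hy : 0 ≤ y) {V : Type} [DecidableEq V]
    (c : Cl V) :
    0 ≤ qq (Iu N) (Iv N x) (Iw N y) c :=
  qq_nonneg (div_nonneg (CT_LN_nn N) (by positivity)) (div_nonneg hx (by positivity))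
    (div_nonneg hy (by positivity)) c

theorem CT_Iv_nn {N : ℕ} {x : ℝ} (hx : 0 ≤ x) : 0 ≤ Iv N x := div_nonneg hx (by positivity)

theorem CT_Iw_nn {N : ℕ} {y : ℝ} (hy : 0 ≤ y) : 0 ≤ Iw N y := div_nonneg hy (by positivity)

theorem CT_Br_mono {N : ℕ} {x y : ℝ} (hx : 0 ≤ x) (hy : 0 ≤ y) {h h' : Fun}
    (H : ∀ n ∈ Finset.Icc (N - MW N) (N + MW N), ∀ S, h n S ≤ h' n S) :
    Br N x y h ≤ Br N x y h' :=
  Finset.sum_le_sum fun n hn => mul_le_mul_of_nonneg_left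
    (EE_mono (CT_int_nn hx hy) fun F => H n hn (Md F)) (CT_Wt_pos N n).le

theorem CT_Br_nn {N : ℕ} {x y : ℝ} (hx : 0 ≤ x) (hy : 0 ≤ y) {h : Fun}
    (H : ∀ n S, 0 ≤ h n S) : 0 ≤ Br N x y h :=
  Finset.sum_nonneg fun n _ => mul_nonneg (CT_Wt_pos N n).le
    (EE_nonneg (CT_int_nn hx hy) fun F => H n (Md F))

theorem CT_Br_add (N : ℕ) (x y : ℝ) (h h' : Fun) :
    Br N x y (fun n S => h n S + h' n S) = Br N x y h + Br N x y h' := by
  unfold Br
  rw [← Finset.sum_add_distrib]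
  refine Finset.sum_congr rfl fun n _ => ?_
  rw [← mul_add]
  congr 1
  exact EE_add _ _ _

theorem CT_Br_sub (N : ℕ) (x y : ℝ) (h h' : Fun) :
    Br N x y (fun n S => h n S - h' n S) = Br N x y h - Br N x y h' := by
  unfold Br
  rw [← Finset.sum_sub_distrib]
  refine Finset.sum_congr rfl fun n _ => ?_
  rw [← mul_sub]
  congr 1
  exact EE_sub _ _ _

theorem CT_Br_mul (N : ℕ) (x y a : ℝ) (h : Fun) :
    Br N x y (fun n S => a * h n S) = a * Br N x y h := by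
  unfold Br
  rw [Finset.mul_sum]
  refine Finset.sum_congr rfl fun n _ => ?_
  have : En N x y n (fun S => a * h n S) = a * En N x y n (h n) := EE_mul_left _ _ _
  rw [this]
  ring

theorem CT_Br_const (N : ℕ) (x y a : ℝ) : Br N x y (fun _ _ => a) =
    a * ∑ n ∈ Finset.Icc (N - MW N) (N + MW N), Wt N n := by
  unfold Br
  rw [Finset.mul_sum]
  refine Finset.sum_congr rfl fun n _ => ?_
  have : En N x y n (fun _ => a) = a := EE_const _ _
  rw [this]
  ring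

theorem CT_Br_congr {N : ℕ} {x y : ℝ} {h h' : Fun}
    (H : ∀ n ∈ Finset.Icc (N - MW N) (N + MW N), ∀ S, h n S = h' n S) :
    Br N x y h = Br N x y h' := by
  unfold Br
  refine Finset.sum_congr rfl fun n hn => ?_
  have : h n = h' n := funext fun S => H n hn S
  rw [this]

/-- On the window of a large `N` one has `1 ≤ n` and `N ≤ 2 n`. -/
theorem CT_window {x Y : ℝ} (C : Cen x Y) : ∀ᶠ k in atTop,
    ∀ n ∈ Finset.Icc (C.N k - MW (C.N k)) (C.N k + MW (C.N k)),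
      1 ≤ n ∧ C.N k ≤ 2 * n ∧ n + 1 ≤ 2 * C.N k := by
  filter_upwards [C.hN.eventually A0_window] with k hk n hn
  obtain ⟨-, h2, -⟩ := hk
  obtain ⟨h3, h4⟩ := h2 n hn
  have := C.N1 k
  exact ⟨by omega, h3, h4⟩

/-- `N^(-1/4) → 0` along the sequence. -/
theorem CT_small {x Y : ℝ} (C : Cen x Y) {K ε : ℝ} (hε : 0 < ε) : ∀ᶠ k in atTop,
    K * (C.N k : ℝ) ^ (-(1 / 4) : ℝ) ≤ ε := by
  have h1 : Tendsto (fun k => (C.N k : ℝ) ^ (-(1 / 4) : ℝ)) atTop (𝓝 0) :=
    (tendsto_rpow_neg_atTop (by norm_num : (0 : ℝ) < 1 / 4)).comp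
      (tendsto_natCast_atTop_atTop.comp C.hN)
  have h2 : Tendsto (fun k => K * (C.N k : ℝ) ^ (-(1 / 4) : ℝ)) atTop (𝓝 (K * 0)) :=
    h1.const_mul K
  rw [mul_zero] at h2
  exact (h2.eventually (eventually_le_nhds hε))

/-! ### The cavity upper bound -/

/-- **Upper bound through the new variable.** -/
theorem CT_cav {q x Y : ℝ} (hq : 0 < q) (hq1 : q < 1) (hx : 1 / 2 ≤ x) (hx1 : x ≤ 1) (hY : Y ≤ 1)
    (C : Cen x Y) (K : ℝ) {ε : ℝ} (hε : 0 < ε) : ∀ᶠ k in atTop,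
    ∀ (G : FunL) (h : Fun) (g : (n : ℕ) → As (Fin n) → As (Fin n) → As (Fin n) → ℝ),
      (∀ n S a, 0 ≤ G n S a ∧ G n S a ≤ ss q S ^ 2) →
      (∀ n S, 0 ≤ h n S ∧ h n S ≤ ss q S ^ 2) →
      (∀ n : ℕ, 1 ≤ n → C.N k ≤ 2 * n → n + 1 ≤ 2 * C.N k →
        ∀ (M A B : As (Fin n)) (i : Fin (n + 1)) (b : Bool),
        G (n + 1) (jn i M A B) (i, b) ≤ (if b then g n M A B else g n M B A) +
          K * (C.N k : ℝ) ^ (-(1 / 4) : ℝ) * ss q (jn i M A B) ^ 2 +
          K * (C.N k : ℝ) ^ (-(7 / 4) : ℝ)) →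
      (∀ n : ℕ, 1 ≤ n → ∀ M A : As (Fin n),
        GA (Iv (C.N k) x) (Iw (C.N k) (C.y k)) 1 (fun B => g n M A B) = h n (M ∩ A)) →
      Br (C.N k) x (C.y k) (avL G) ≤ Br (C.N k) x (C.y k) h +
        ε * mm q (C.N k) x (C.y k) := by
  have hx0 : 0 ≤ x := by linarith
  obtain ⟨δ, hδ, hδ1, hδε⟩ : ∃ δ : ℝ, 0 < δ ∧ δ ≤ 1 ∧ 12 * δ ≤ ε :=
    ⟨min 1 (ε / 12), lt_min one_pos (by positivity), min_le_left _ _, by
      have := min_le_right 1 (ε / 12); linarith⟩
  filter_upwards [A3_shift hq hq1 hx0 C hδ, A6_cavity hq hq1 hx hx1 hY C hδ,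
    A3_batch hq hq1 hx hx1 hY C hδ, A2_add hq hq1 hx0 C (K := K) hδ, CT_window C,
    CT_small C (K := K) hδ] with k hshift hcav hbatch hadd hwin hsmall G h g hG hh hpt hGA
  set N := C.N k with hN
  set y := C.y k with hy
  set v := Iv N x with hv
  set w := Iw N y with hw
  have hy0 : 0 ≤ y := C.y0 k
  have hv0 : 0 ≤ v := CT_Iv_nn hx0
  have hw0 : 0 ≤ w := CT_Iw_nn hy0
  have hm0 : 0 ≤ mm q N x y := CT_Br_nn hx0 hy0 fun n S => sq_nonneg _
  -- functionals between `0` and `ss²`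
  have hss : ∀ (n : ℕ) (S : As (Fin n)), ss q S ^ 2 ≤ 1 := by
    intro n S
    rcases Nat.eq_zero_or_pos n with h0 | h0
    · subst h0
      have h1 : ss q S = -(q * una S) := by
        have e1 : (AS (Fin 0)).v q S = (1 - q) * una S := by
          show (1 - q) * ∑' k : ℕ, q ^ k * (((AS (Fin 0)).P1)^[k] (AS (Fin 0)).un) S = _
          congr 1
          rw [tsum_eq_single 0]
          · rw [pow_zero, one_mul, Function.iterate_zero]; rfl
          · intro j hj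
            obtain ⟨j', rfl⟩ := Nat.exists_eq_succ_of_ne_zero hj
            rw [Function.iterate_succ_apply']
            unfold Sys.P1
            have : Fintype.card (Lt (Fin 0)) = 0 := by simp
            rw [this]
            simp
        show (AS (Fin 0)).v q S - una S = _
        rw [e1]
        ring
      rw [h1]
      have h2 := una_nonneg S
      have h3 := una_le_one S
      have h4 : q * una S ≤ 1 := by nlinarith
      have h5 : 0 ≤ q * una S := by positivity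
      nlinarith
    · have : Nonempty (Fin n) := ⟨⟨0, h0⟩⟩
      have h1 := CT_ss_nn hq hq1 S
      have h2 := CT_ss_le_one hq hq1 S
      nlinarith
  have bnd : ∀ f : Fun, (∀ n S, 0 ≤ f n S ∧ f n S ≤ ss q S ^ 2) →
      B1 f ∧ Br N x y (fun n S => |f n S|) ≤ mm q N x y := by
    intro f hf
    constructor
    · intro n S
      rw [abs_of_nonneg (hf n S).1]
      exact (hf n S).2.trans (hss n S)
    · refine CT_Br_mono hx0 hy0 fun n _ S => ?_
      rw [abs_of_nonneg (hf n S).1]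
      exact (hf n S).2
  have avb : ∀ f : FunL, (∀ n S a, 0 ≤ f n S a ∧ f n S a ≤ ss q S ^ 2) →
      ∀ n S, 0 ≤ avL f n S ∧ avL f n S ≤ ss q S ^ 2 := by
    intro f hf n S
    unfold avL
    constructor
    · exact div_nonneg (Finset.sum_nonneg fun a _ => (hf n S a).1) (Nat.cast_nonneg _)
    · rcases Nat.eq_zero_or_pos (Fintype.card (Lt (Fin n))) with h0 | h0
      · rw [h0]
        simp only [Nat.cast_zero, div_zero]
        positivity
      · have h1 : (0 : ℝ) < Fintype.card (Lt (Fin n)) := by exact_mod_cast h0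
        rw [div_le_iff₀ h1]
        calc ∑ a : Lt (Fin n), f n S a ≤ ∑ _a : Lt (Fin n), ss q S ^ 2 :=
              Finset.sum_le_sum fun a _ => (hf n S a).2
          _ = _ := by rw [Finset.sum_const, Finset.card_univ, nsmul_eq_mul]; ring
  have cavb : ∀ f : FunL, (∀ n S a, 0 ≤ f n S a ∧ f n S a ≤ ss q S ^ 2) →
      ∀ n S a, |f n S a| ≤ ss q S + ss q (S ∩ lit a) := by
    intro f hf n S a
    have : Nonempty (Fin n) := ⟨a.1⟩
    have h1 := CT_ss_nn hq hq1 S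
    have h2 := CT_ss_le_one hq hq1 S
    have h3 := CT_ss_nn hq hq1 (S ∩ lit a)
    rw [abs_of_nonneg (hf n S a).1]
    have h4 := (hf n S a).2
    nlinarith
  -- the functional `ss²` with a marked literal
  set SS : FunL := fun n S _ => ss q S ^ 2 with hSS
  have hSSb : ∀ n S a, 0 ≤ SS n S a ∧ SS n S a ≤ ss q S ^ 2 := fun n S a =>
    ⟨sq_nonneg _, le_refl _⟩
  have c1 : Br N x y (cav v w SS) ≤ 4 * mm q N x y := by
    have h1 := hcav SS (cavb SS hSSb)
    obtain ⟨hb1, hb2⟩ := bnd (avL SS) (avb SS hSSb)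
    have h2 := hshift (avL SS) hb1
    have h3 : Br N x y (avL SS) ≤ mm q N x y := CT_Br_mono hx0 hy0 fun n _ S => (avb SS hSSb n S).2
    have h4 := (abs_le.1 h1).1
    have h5 := (abs_le.1 h2).2
    have h6 : δ * (Br N x y (fun n S => |avL SS n S|) + mm q N x y) ≤ 1 * (mm q N x y + mm q N x y) :=
      mul_le_mul hδ1 (by linarith) (by
        have : 0 ≤ Br N x y (fun n S => |avL SS n S|) := CT_Br_nn hx0 hy0 fun n S => abs_nonneg _
        linarith) zero_le_one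
    have h7 : δ * mm q N x y ≤ 1 * mm q N x y := mul_le_mul_of_nonneg_right hδ1 hm0
    linarith
  -- the chain
  have s1 : Br N x y (avL G) ≤ Br' N x y (avL G) + 2 * δ * mm q N x y := by
    obtain ⟨hb1, hb2⟩ := bnd (avL G) (avb G hG)
    have h1 := (abs_le.1 (hshift (avL G) hb1)).1
    have h2 : δ * (Br N x y (fun n S => |avL G n S|) + mm q N x y) ≤
        δ * (mm q N x y + mm q N x y) := mul_le_mul_of_nonneg_left (by linarith) hδ.le
    linarith
  have s2 : Br' N x y (avL G) ≤ Br N x y (cav v w G) + δ * mm q N x y := by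
    have h1 := (abs_le.1 (hcav G (cavb G hG))).2
    linarith
  set ε1 := K * (N : ℝ) ^ (-(1 / 4) : ℝ) with hε1
  set ε2 := K * (N : ℝ) ^ (-(7 / 4) : ℝ) with hε2
  have s3 : Br N x y (cav v w G) ≤ Br N x y (fun n M => GA v w 1 (fun A => h n (M ∩ A))) +
      ε1 * Br N x y (cav v w SS) + Br N x y (fun _ _ => ε2) := by
    rw [← CT_Br_mul, ← CT_Br_add, ← CT_Br_add]
    refine CT_Br_mono hx0 hy0 fun n hn M => ?_
    obtain ⟨hn1, hn2, hn3⟩ := hwin n hn
    have hc : (0 : ℝ) < Fintype.card (Lt (Fin (n + 1))) := by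
      have : 0 < Fintype.card (Lt (Fin (n + 1))) := Fintype.card_pos_iff.2 ⟨(0, true)⟩
      exact_mod_cast this
    have hterm : ∀ a : Lt (Fin (n + 1)), GA v w 1 (fun A => GA v w 1 (fun B =>
        G (n + 1) (jn a.1 M A B) a)) ≤ GA v w 1 (fun A => h n (M ∩ A)) +
        ε1 * GA v w 1 (fun A => GA v w 1 (fun B => SS (n + 1) (jn a.1 M A B) a)) + ε2 := by
      rintro ⟨i, b⟩
      have h1 : GA v w 1 (fun A => GA v w 1 (fun B => G (n + 1) (jn i M A B) (i, b))) ≤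
          GA v w 1 (fun A => GA v w 1 (fun B => ((if b then g n M A B else g n M B A) +
            ε1 * ss q (jn i M A B) ^ 2) + ε2)) :=
        CT_GA_mono hv0 hw0 fun A => CT_GA_mono hv0 hw0 fun B => hpt n hn1 hn2 hn3 M A B i b
      refine h1.trans (le_of_eq ?_)
      have h2 : ∀ A : As (Fin n), GA v w 1 (fun B => ((if b then g n M A B else g n M B A) +
            ε1 * ss q (jn i M A B) ^ 2) + ε2) =
          (GA v w 1 (fun B => if b then g n M A B else g n M B A) +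
            ε1 * GA v w 1 (fun B => ss q (jn i M A B) ^ 2)) + ε2 := by
        intro A
        rw [CT_GA_add, CT_GA_add, CT_GA_mul, CT_GA_const]
      simp only [h2]
      rw [CT_GA_add, CT_GA_add, CT_GA_mul, CT_GA_const]
      have h3 : GA v w 1 (fun A => GA v w 1 (fun B => if b then g n M A B else g n M B A)) =
          GA v w 1 (fun A => h n (M ∩ A)) := by
        cases b
        · simp only [Bool.false_eq_true, if_false]
          rw [CT_GA_comm]
          simp only [hGA n hn1 M]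
        · simp only [if_true]
          simp only [hGA n hn1 M]
      rw [h3]
    unfold cav
    rw [div_le_iff₀ hc]
    calc ∑ a : Lt (Fin (n + 1)), GA v w 1 (fun A => GA v w 1 (fun B =>
          G (n + 1) (jn a.1 M A B) a))
        ≤ ∑ a : Lt (Fin (n + 1)), (GA v w 1 (fun A => h n (M ∩ A)) +
          ε1 * GA v w 1 (fun A => GA v w 1 (fun B => SS (n + 1) (jn a.1 M A B) a)) + ε2) :=
          Finset.sum_le_sum fun a _ => hterm a
      _ = _ := by
          rw [Finset.sum_add_distrib, Finset.sum_add_distrib, ← Finset.mul_sum, Finset.sum_const,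
            Finset.sum_const, Finset.card_univ, nsmul_eq_mul, nsmul_eq_mul]
          field_simp
  have s4 : Br N x y (fun n M => GA v w 1 (fun A => h n (M ∩ A))) ≤ Br N x y h +
      2 * δ * mm q N x y := by
    obtain ⟨hb1, hb2⟩ := bnd h hh
    have h1 := (abs_le.1 (hbatch h hb1 1 zero_le_one le_rfl)).2
    have h2 : δ * (Br N x y (fun n S => |h n S|) + mm q N x y) ≤
        δ * (mm q N x y + mm q N x y) := mul_le_mul_of_nonneg_left (by linarith) hδ.le
    linarith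
  have s5 : ε1 * Br N x y (cav v w SS) ≤ 4 * δ * mm q N x y := by
    have h0 : 0 ≤ Br N x y (cav v w SS) := CT_Br_nn hx0 hy0 fun n M => by
      unfold cav
      exact div_nonneg (Finset.sum_nonneg fun a _ => CT_GA_nn hv0 hw0 fun A =>
        CT_GA_nn hv0 hw0 fun B => sq_nonneg _) (Nat.cast_nonneg _)
    calc ε1 * Br N x y (cav v w SS) ≤ δ * Br N x y (cav v w SS) :=
          mul_le_mul_of_nonneg_right hsmall h0
      _ ≤ δ * (4 * mm q N x y) := mul_le_mul_of_nonneg_left c1 hδ.le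
      _ = _ := by ring
  have s6 : Br N x y (fun _ _ => ε2) ≤ δ * mm q N x y := by
    rw [CT_Br_const, hε2, mul_assoc]
    exact hadd.1
  have h7 : 12 * δ * mm q N x y ≤ ε * mm q N x y := mul_le_mul_of_nonneg_right hδε hm0
  have h8 : 0 ≤ δ * mm q N x y := by positivity
  linarith

/-! ### (H2) -/

section H2

variable {q : ℝ}

/-- First functional: `ss^(3-s) Av_l mk(a ∨ l)^s`. -/
noncomputable def H2G1 (q s : ℝ) : FunL := fun _ S a =>
  ss q S ^ (3 - s) * Av (fun l => mk q (lit a ∪ lit l) S ^ s)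

/-- Second functional: `ss^(3-s) E_D mk(D ∨ a)^s`. -/
noncomputable def H2G2 (q s v w : ℝ) : FunL := fun _ S a =>
  ss q S ^ (3 - s) * GA v w 1 (fun D => mk q (D ∪ lit a) S ^ s)

/-- Third functional: `ss^(3-s) E_A E_B mk(A ∨ B)^s`. -/
noncomputable def H2F3 (q s v w : ℝ) : Fun := fun n S =>
  if n = 0 then 0 else ss q S ^ (3 - s) * GA v w 1 (fun A => GA v w 1 (fun B => mk q (A ∪ B) S ^ s))

theorem CT_Av_nn {L : Type} [Fintype L] {f : L → ℝ} (h : ∀ l, 0 ≤ f l) : 0 ≤ Av f :=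
  div_nonneg (Finset.sum_nonneg fun l _ => h l) (Nat.cast_nonneg _)

theorem CT_Av_le_one {L : Type} [Fintype L] {f : L → ℝ} (h : ∀ l, f l ≤ 1) : Av f ≤ 1 := by
  unfold Av
  rcases Nat.eq_zero_or_pos (Fintype.card L) with h0 | h0
  · rw [h0]; simp
  · have h1 : (0 : ℝ) < Fintype.card L := by exact_mod_cast h0
    rw [div_le_one h1]
    calc ∑ l, f l ≤ ∑ _l : L, (1 : ℝ) := Finset.sum_le_sum fun l _ => h l
      _ = _ := by simp

theorem CT_GA_Av {V L : Type} [Fintype V] [DecidableEq V] [Fintype L] (v w : ℝ)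
    (Φ : L → As V → ℝ) : GA v w 1 (fun A => Av (fun l => Φ l A)) =
      Av (fun l => GA v w 1 (Φ l)) := by
  unfold Av GA
  simp only [div_eq_inv_mul]
  rw [EE_mul_left, EE_sum]

variable (hq : 0 < q) (hq1 : q < 1)
include hq hq1

theorem H2G1_b {s : ℝ} (hs : 0 ≤ s) (hs1 : s ≤ 1) (n : ℕ) (S : As (Fin n)) (a : Lt (Fin n)) :
    0 ≤ H2G1 q s n S a ∧ H2G1 q s n S a ≤ ss q S ^ 2 := by
  have : Nonempty (Fin n) := ⟨a.1⟩
  have h0 : 0 ≤ Av (fun l => mk q (lit a ∪ lit l) S ^ s) :=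
    CT_Av_nn fun l => (CT_mk_rpow hq hq1 hs _ S).1
  have h1 : Av (fun l => mk q (lit a ∪ lit l) S ^ s) ≤ 1 :=
    CT_Av_le_one fun l => (CT_mk_rpow hq hq1 hs _ S).2
  have h2 := CT_ss_rpow_le hq hq1 hs1 S
  have h3 := CT_ss_rpow_nn hq hq1 s S
  unfold H2G1
  exact ⟨mul_nonneg h3 h0, by nlinarith⟩

theorem H2G2_b {s v w : ℝ} (hs : 0 ≤ s) (hs1 : s ≤ 1) (hv : 0 ≤ v) (hw : 0 ≤ w) (n : ℕ)
    (S : As (Fin n)) (a : Lt (Fin n)) :
    0 ≤ H2G2 q s v w n S a ∧ H2G2 q s v w n S a ≤ ss q S ^ 2 := by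
  have : Nonempty (Fin n) := ⟨a.1⟩
  have h0 : 0 ≤ GA v w 1 (fun D => mk q (D ∪ lit a) S ^ s) :=
    CT_GA_nn hv hw fun D => (CT_mk_rpow hq hq1 hs _ S).1
  have h1 : GA v w 1 (fun D => mk q (D ∪ lit a) S ^ s) ≤ 1 :=
    CT_GA_le_one hv hw fun D => (CT_mk_rpow hq hq1 hs _ S).2
  have h2 := CT_ss_rpow_le hq hq1 hs1 S
  have h3 := CT_ss_rpow_nn hq hq1 s S
  unfold H2G2
  exact ⟨mul_nonneg h3 h0, by nlinarith⟩

theorem H2F3_b {s v w : ℝ} (hs : 0 ≤ s) (hs1 : s ≤ 1) (hv : 0 ≤ v) (hw : 0 ≤ w) (n : ℕ)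
    (S : As (Fin n)) : 0 ≤ H2F3 q s v w n S ∧ H2F3 q s v w n S ≤ ss q S ^ 2 := by
  unfold H2F3
  split_ifs with hn
  · exact ⟨le_refl _, sq_nonneg _⟩
  · have : Nonempty (Fin n) := ⟨⟨0, Nat.pos_of_ne_zero hn⟩⟩
    have h0 : 0 ≤ GA v w 1 (fun A => GA v w 1 (fun B => mk q (A ∪ B) S ^ s)) :=
      CT_GA_nn hv hw fun A => CT_GA_nn hv hw fun B => (CT_mk_rpow hq hq1 hs _ S).1
    have h1 : GA v w 1 (fun A => GA v w 1 (fun B => mk q (A ∪ B) S ^ s)) ≤ 1 :=
      CT_GA_le_one hv hw fun A => CT_GA_le_one hv hw fun B => (CT_mk_rpow hq hq1 hs _ S).2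
    have h2 := CT_ss_rpow_le hq hq1 hs1 S
    have h3 := CT_ss_rpow_nn hq hq1 s S
    exact ⟨mul_nonneg h3 h0, by nlinarith⟩

/-- the error of one new variable, in terms of `N` -/
theorem CT_err {N n : ℕ} (hN : 1 ≤ N) (hn : N ≤ 2 * n) {s : ℝ} :
    (1 / (muq q * ((n : ℝ) + 1))) ^ (s : ℝ) ≤ (2 / muq q) ^ s * (N : ℝ) ^ (-s) ∨ s < 0 := by
  by_cases hs : s < 0
  · exact Or.inr hs
  · left
    push Not at hs
    have hm : 0 < muq q := by unfold muq; exact div_pos (by linarith) hq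
    have hN0 : (0 : ℝ) < N := by exact_mod_cast hN
    have hn' : (N : ℝ) ≤ 2 * n := by exact_mod_cast hn
    have h1 : 1 / (muq q * ((n : ℝ) + 1)) ≤ 2 / muq q * (1 / N) := by
      rw [div_mul_div_comm, div_le_div_iff₀ (by positivity) (by positivity)]
      nlinarith
    have h2 : (2 / muq q) ^ s * (N : ℝ) ^ (-s) = (2 / muq q * (1 / N)) ^ s := by
      rw [Real.mul_rpow (by positivity) (by positivity), Real.rpow_neg hN0.le, one_div,
        Real.inv_rpow hN0.le]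
    rw [h2]
    exact Real.rpow_le_rpow (by positivity) h1 hs

/-- `1 / N ≤ N^(-1/4)`. -/
theorem CT_inv_le {N : ℕ} (hN : 1 ≤ N) : (1 : ℝ) / N ≤ (N : ℝ) ^ (-(1 / 4) : ℝ) := by
  have hN1 : (1 : ℝ) ≤ N := by exact_mod_cast hN
  rw [one_div, ← Real.rpow_neg_one]
  exact Real.rpow_le_rpow_of_exponent_le hN1 (by norm_num)

/-- The error of one new variable is at most `K N^(-1/4) X² + K N^(-7/4)`. -/
theorem CT_err2 {N n : ℕ} (hN : 1 ≤ N) (hn : N ≤ 2 * n) {X : ℝ} :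
    4 * (1 / (muq q * ((n : ℝ) + 1))) ^ (1 / 4 : ℝ) * X ^ 2 +
        2 * (1 / (muq q * ((n : ℝ) + 1))) ^ (7 / 4 : ℝ) + X ^ 2 / (n + 1) ≤
      (4 * (2 / muq q) ^ (1 / 4 : ℝ) + 2) * (N : ℝ) ^ (-(1 / 4) : ℝ) * X ^ 2 +
        2 * (2 / muq q) ^ (7 / 4 : ℝ) * (N : ℝ) ^ (-(7 / 4) : ℝ) := by
  have h1 := (CT_err hq hq1 hN hn (s := 1 / 4)).resolve_right (by norm_num)
  have h2 := (CT_err hq hq1 hN hn (s := 7 / 4)).resolve_right (by norm_num)
  have h3 := CT_inv_le hq hq1 hN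
  have hN0 : (0 : ℝ) < N := by exact_mod_cast hN
  have hn' : (N : ℝ) ≤ 2 * n := by exact_mod_cast hn
  have h4 : X ^ 2 / ((n : ℝ) + 1) ≤ 2 * (N : ℝ) ^ (-(1 / 4) : ℝ) * X ^ 2 := by
    have h5 : 1 / ((n : ℝ) + 1) ≤ 2 * (1 / N) := by
      rw [mul_one_div, div_le_div_iff₀ (by positivity) hN0]
      linarith
    have h6 : X ^ 2 / ((n : ℝ) + 1) = X ^ 2 * (1 / ((n : ℝ) + 1)) := by ring
    rw [h6]
    nlinarith [sq_nonneg X]
  have h5 := mul_le_mul_of_nonneg_right h1 (sq_nonneg X)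
  linarith

theorem H2_step1 {s : ℝ} (hs : 1 / 4 ≤ s) (hs1 : s ≤ 1) {x Y : ℝ} (hx : 1 / 2 ≤ x) (hx1 : x ≤ 1)
    (hY : Y ≤ 1) (C : Cen x Y) {ε : ℝ} (hε : 0 < ε) : ∀ᶠ k in atTop,
      Br (C.N k) x (C.y k) (avL (H2G1 q s)) ≤
        Br (C.N k) x (C.y k) (avL (H2G2 q s (Iv (C.N k) x) (Iw (C.N k) (C.y k)))) +
          ε * mm q (C.N k) x (C.y k) := by
  have hx0 : 0 ≤ x := by linarith
  have hs0 : 0 ≤ s := by linarith
  have hm : 0 < muq q := by unfold muq; exact div_pos (by linarith) hq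
  filter_upwards [CT_cav hq hq1 hx hx1 hY C
    (4 * (2 / muq q) ^ (1 / 4 : ℝ) + 2 * (2 / muq q) ^ (7 / 4 : ℝ) + 20) hε] with k hk
  set N := C.N k with hN
  set y := C.y k with hy
  set v := Iv N x with hv
  set w := Iw N y with hw
  have hy0 : 0 ≤ y := C.y0 k
  have hv0 : 0 ≤ v := CT_Iv_nn hx0
  have hw0 : 0 ≤ w := CT_Iw_nn hy0
  have hN1 : 1 ≤ N := C.N1 k
  have avb : ∀ n S, 0 ≤ avL (H2G2 q s v w) n S ∧ avL (H2G2 q s v w) n S ≤ ss q S ^ 2 := by
    intro n S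
    unfold avL
    constructor
    · exact div_nonneg (Finset.sum_nonneg fun a _ => (H2G2_b hq hq1 hs0 hs1 hv0 hw0 n S a).1)
        (Nat.cast_nonneg _)
    · rcases Nat.eq_zero_or_pos (Fintype.card (Lt (Fin n))) with h0 | h0
      · rw [h0]
        simp only [Nat.cast_zero, div_zero]
        positivity
      · have h1 : (0 : ℝ) < Fintype.card (Lt (Fin n)) := by exact_mod_cast h0
        rw [div_le_iff₀ h1]
        calc ∑ a : Lt (Fin n), H2G2 q s v w n S a ≤ ∑ _a : Lt (Fin n), ss q S ^ 2 :=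
              Finset.sum_le_sum fun a _ => (H2G2_b hq hq1 hs0 hs1 hv0 hw0 n S a).2
          _ = _ := by rw [Finset.sum_const, Finset.card_univ, nsmul_eq_mul]; ring
  refine hk (H2G1 q s) (avL (H2G2 q s v w))
    (fun n M A B => ss q (M ∩ A) ^ (3 - s) * Av (fun l => mk q (B ∪ lit l) (M ∩ A) ^ s))
    (H2G1_b hq hq1 hs0 hs1) avb ?_ ?_
  · intro n hn1 hn2 _ M A B i b
    have : Nonempty (Fin n) := ⟨⟨0, hn1⟩⟩
    set T := jn i M A B with hT
    set X := ss q T with hX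
    have hX0 : 0 ≤ X := CT_ss_nn hq hq1 T
    have he := CT_err2 hq hq1 hN1 hn2 (X := X)
    have hN4 : 0 ≤ (N : ℝ) ^ (-(1 / 4) : ℝ) := Real.rpow_nonneg (Nat.cast_nonneg _) _
    have hN7 : 0 ≤ (N : ℝ) ^ (-(7 / 4) : ℝ) := Real.rpow_nonneg (Nat.cast_nonneg _) _
    have hm4 : 0 ≤ (2 / muq q) ^ (1 / 4 : ℝ) := Real.rpow_nonneg (by positivity) _
    have hm7 : 0 ≤ (2 / muq q) ^ (7 / 4 : ℝ) := Real.rpow_nonneg (by positivity) _
    have hee : 0 ≤ 4 * (1 / (muq q * ((n : ℝ) + 1))) ^ (1 / 4 : ℝ) * X ^ 2 +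
        2 * (1 / (muq q * ((n : ℝ) + 1))) ^ (7 / 4 : ℝ) := by positivity
    have hup : ∀ P Q : As (Fin n), (∀ U : As (Fin n),
        X ^ (3 - s) * mk q (lit (i, b) ∪ lf i U) T ^ s ≤
          ss q (M ∩ P) ^ (3 - s) * mk q (Q ∪ U) (M ∩ P) ^ s +
          4 * (1 / (muq q * (n + 1))) ^ (1 / 4 : ℝ) * X ^ 2 +
          2 * (1 / (muq q * (n + 1))) ^ (7 / 4 : ℝ)) →
        H2G1 q s (n + 1) T (i, b) ≤
          ss q (M ∩ P) ^ (3 - s) * Av (fun l => mk q (Q ∪ lit l) (M ∩ P) ^ s) +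
          (4 * (2 / muq q) ^ (1 / 4 : ℝ) + 2 * (2 / muq q) ^ (7 / 4 : ℝ) + 20) *
            (N : ℝ) ^ (-(1 / 4) : ℝ) * X ^ 2 +
          (4 * (2 / muq q) ^ (1 / 4 : ℝ) + 2 * (2 / muq q) ^ (7 / 4 : ℝ) + 20) *
            (N : ℝ) ^ (-(7 / 4) : ℝ) := by
      intro P Q hU
      have h1 := CT_Av_up (K := X ^ 2)
        (ε := 4 * (1 / (muq q * ((n : ℝ) + 1))) ^ (1 / 4 : ℝ) * X ^ 2 +
          2 * (1 / (muq q * ((n : ℝ) + 1))) ^ (7 / 4 : ℝ)) i
        (fun l => X ^ (3 - s) * mk q (lit (i, b) ∪ lit l) T ^ s)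
        (fun l => ss q (M ∩ P) ^ (3 - s) * mk q (Q ∪ lit l) (M ∩ P) ^ s)
        (fun l => by
          have h2 := CT_ss_rpow_le hq hq1 hs1 T
          have h3 := CT_ss_rpow_nn hq hq1 s T
          have h4 := CT_mk_rpow hq hq1 hs0 (lit (i, b) ∪ lit l) T
          show X ^ (3 - s) * _ ≤ X ^ 2
          nlinarith)
        (fun l => mul_nonneg (CT_ss_rpow_nn hq hq1 s _) (CT_mk_rpow hq hq1 hs0 _ _).1) hee
        (fun a => by
          have h2 := hU (lit a)
          rw [← lit_succAbove i a.1 a.2] at h2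
          linarith)
      have e1 : Av (fun l => X ^ (3 - s) * mk q (lit (i, b) ∪ lit l) T ^ s) =
          H2G1 q s (n + 1) T (i, b) := by
        unfold H2G1 Av
        rw [← Finset.mul_sum]
        ring
      have e2 : Av (fun l => ss q (M ∩ P) ^ (3 - s) * mk q (Q ∪ lit l) (M ∩ P) ^ s) =
          ss q (M ∩ P) ^ (3 - s) * Av (fun l => mk q (Q ∪ lit l) (M ∩ P) ^ s) := by
        unfold Av
        rw [← Finset.mul_sum]
        ring
      rw [e1, e2] at h1
      have h6 : 0 ≤ (2 / muq q) ^ (7 / 4 : ℝ) * (N : ℝ) ^ (-(1 / 4) : ℝ) * X ^ 2 := by positivity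
      have h7 : 0 ≤ (2 / muq q) ^ (1 / 4 : ℝ) * (N : ℝ) ^ (-(7 / 4) : ℝ) := by positivity
      have h8 : 0 ≤ (N : ℝ) ^ (-(1 / 4) : ℝ) * X ^ 2 := by positivity
      linarith
    cases b
    · simp only [Bool.false_eq_true, if_false]
      exact hup B A fun U => CT_H2_false hq hq1 hs hs1 i M A B U
    · simp only [if_true]
      exact hup A B fun U => CT_H2_true hq hq1 hs hs1 i M A B U
  · intro n hn1 M A
    rw [CT_GA_mul, CT_GA_Av v w (fun l (B : As (Fin n)) => mk q (B ∪ lit l) (M ∩ A) ^ s)]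
    unfold avL H2G2 Av
    rw [← Finset.mul_sum]
    ring

theorem H2_step2 {s : ℝ} (hs : 1 / 4 ≤ s) (hs1 : s ≤ 1) {x Y : ℝ} (hx : 1 / 2 ≤ x) (hx1 : x ≤ 1)
    (hY : Y ≤ 1) (C : Cen x Y) {ε : ℝ} (hε : 0 < ε) : ∀ᶠ k in atTop,
      Br (C.N k) x (C.y k) (avL (H2G2 q s (Iv (C.N k) x) (Iw (C.N k) (C.y k)))) ≤
        Br (C.N k) x (C.y k) (H2F3 q s (Iv (C.N k) x) (Iw (C.N k) (C.y k))) +
          ε * mm q (C.N k) x (C.y k) := by
  have hx0 : 0 ≤ x := by linarith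
  have hs0 : 0 ≤ s := by linarith
  have hm : 0 < muq q := by unfold muq; exact div_pos (by linarith) hq
  filter_upwards [CT_cav hq hq1 hx hx1 hY C
    (4 * (2 / muq q) ^ (1 / 4 : ℝ) + 2 * (2 / muq q) ^ (7 / 4 : ℝ) + 20) hε] with k hk
  set N := C.N k with hN
  set y := C.y k with hy
  set v := Iv N x with hv
  set w := Iw N y with hw
  have hy0 : 0 ≤ y := C.y0 k
  have hy1 : y ≤ 1 := (C.yY k).trans hY
  have hv0 : 0 ≤ v := CT_Iv_nn hx0
  have hw0 : 0 ≤ w := CT_Iw_nn hy0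
  have hN1 : 1 ≤ N := C.N1 k
  have hN0 : (0 : ℝ) < N := by exact_mod_cast hN1
  refine hk (H2G2 q s v w) (H2F3 q s v w)
    (fun n M A B => ss q (M ∩ A) ^ (3 - s) * GA v w 1 (fun D => mk q (B ∪ D) (M ∩ A) ^ s))
    (H2G2_b hq hq1 hs0 hs1 hv0 hw0) (H2F3_b hq hq1 hs0 hs1 hv0 hw0) ?_ ?_
  · intro n hn1 hn2 hn3 M A B i b
    have : Nonempty (Fin n) := ⟨⟨0, hn1⟩⟩
    set T := jn i M A B with hT
    set X := ss q T with hX
    have hX0 : 0 ≤ X := CT_ss_nn hq hq1 T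
    have he := CT_err2 hq hq1 hN1 hn2 (X := X)
    have hN4 : 0 ≤ (N : ℝ) ^ (-(1 / 4) : ℝ) := Real.rpow_nonneg (Nat.cast_nonneg _) _
    have hN7 : 0 ≤ (N : ℝ) ^ (-(7 / 4) : ℝ) := Real.rpow_nonneg (Nat.cast_nonneg _) _
    have hm4 : 0 ≤ (2 / muq q) ^ (1 / 4 : ℝ) := Real.rpow_nonneg (by positivity) _
    have hm7 : 0 ≤ (2 / muq q) ^ (7 / 4 : ℝ) := Real.rpow_nonneg (by positivity) _
    have hX2 := CT_ss_rpow_le hq hq1 hs1 T
    have hXs := CT_ss_rpow_nn hq hq1 s T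
    -- the clauses of the gadget with the new variable
    have hκ : 24 * w * n + 4 * v + 12 * w ≤ 9 * (N : ℝ) ^ (-(1 / 4) : ℝ) := by
      have hn' : (n : ℝ) ≤ 2 * N := by
        have : n ≤ 2 * N := by omega
        exact_mod_cast this
      have h1 : w * n ≤ 1 / (4 * N) := by
        rw [hw]
        unfold Iw
        rw [div_mul_eq_mul_div, div_le_div_iff₀ (by positivity) (by positivity)]
        have h2 : y * n ≤ 1 * (2 * N) := mul_le_mul hy1 hn' (Nat.cast_nonneg _) zero_le_one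
        nlinarith
      have h2 : v ≤ 1 / (4 * N) := by
        rw [hv]
        unfold Iv
        gcongr
      have h3 : w ≤ 1 / (8 * N) := by
        rw [hw]
        unfold Iw
        rw [div_le_div_iff₀ (by positivity) (by positivity)]
        have h4 : (1 : ℝ) ≤ N := by exact_mod_cast hN1
        nlinarith
      have h4 := CT_inv_le hq hq1 hN1
      have h5 : 24 * (1 / (4 * (N : ℝ))) + 4 * (1 / (4 * N)) + 12 * (1 / (8 * N)) =
          17 / 2 * (1 / N) := by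
        field_simp
        norm_num
      have h6 : 24 * w * n = 24 * (w * n) := by ring
      have h7 : 0 ≤ 1 / (N : ℝ) := by positivity
      rw [h6]
      linarith
    have hup : ∀ P Q : As (Fin n), (∀ U : As (Fin n),
        X ^ (3 - s) * mk q (lit (i, b) ∪ lf i U) T ^ s ≤
          ss q (M ∩ P) ^ (3 - s) * mk q (Q ∪ U) (M ∩ P) ^ s +
          4 * (1 / (muq q * (n + 1))) ^ (1 / 4 : ℝ) * X ^ 2 +
          2 * (1 / (muq q * (n + 1))) ^ (7 / 4 : ℝ)) →
        H2G2 q s v w (n + 1) T (i, b) ≤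
          ss q (M ∩ P) ^ (3 - s) * GA v w 1 (fun D => mk q (Q ∪ D) (M ∩ P) ^ s) +
          (4 * (2 / muq q) ^ (1 / 4 : ℝ) + 2 * (2 / muq q) ^ (7 / 4 : ℝ) + 20) *
            (N : ℝ) ^ (-(1 / 4) : ℝ) * X ^ 2 +
          (4 * (2 / muq q) ^ (1 / 4 : ℝ) + 2 * (2 / muq q) ^ (7 / 4 : ℝ) + 20) *
            (N : ℝ) ^ (-(7 / 4) : ℝ) := by
      intro P Q hU
      have h1 := CT_GA_lift i hv0 hw0 (fun D => mk q (D ∪ lit (i, b)) T ^ s)
        (fun D => (CT_mk_rpow hq hq1 hs0 _ T).1) (fun D => (CT_mk_rpow hq hq1 hs0 _ T).2)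
      have h2 : X ^ (3 - s) * GA v w 1 (fun D : As (Fin n) => mk q (lf i D ∪ lit (i, b)) T ^ s) ≤
          ss q (M ∩ P) ^ (3 - s) * GA v w 1 (fun D => mk q (Q ∪ D) (M ∩ P) ^ s) +
          (4 * (1 / (muq q * ((n : ℝ) + 1))) ^ (1 / 4 : ℝ) * X ^ 2 +
          2 * (1 / (muq q * ((n : ℝ) + 1))) ^ (7 / 4 : ℝ)) := by
        rw [← CT_GA_mul, ← CT_GA_mul]
        have h3 := CT_GA_const (V := Fin n) v w
          (4 * (1 / (muq q * ((n : ℝ) + 1))) ^ (1 / 4 : ℝ) * X ^ 2 +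
          2 * (1 / (muq q * ((n : ℝ) + 1))) ^ (7 / 4 : ℝ))
        rw [← h3, ← CT_GA_add]
        refine CT_GA_mono hv0 hw0 fun D => ?_
        have h4 := hU D
        rw [Set.union_comm (lf i D) (lit (i, b))]
        linarith
      have h3 : X ^ (3 - s) * GA v w 1 (fun D => mk q (D ∪ lit (i, b)) T ^ s) ≤
          X ^ (3 - s) * (GA v w 1 (fun D => mk q (lf i D ∪ lit (i, b)) T ^ s) +
            (24 * w * n + 4 * v + 12 * w)) := mul_le_mul_of_nonneg_left h1 hXs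
      have h4 : X ^ (3 - s) * (24 * w * n + 4 * v + 12 * w) ≤
          X ^ 2 * (9 * (N : ℝ) ^ (-(1 / 4) : ℝ)) :=
        mul_le_mul hX2 hκ (by positivity) (sq_nonneg _)
      have h5 : 0 ≤ X ^ 2 / ((n : ℝ) + 1) := by positivity
      have h6 : 0 ≤ (2 / muq q) ^ (7 / 4 : ℝ) * (N : ℝ) ^ (-(1 / 4) : ℝ) * X ^ 2 := by positivity
      have h7 : 0 ≤ (2 / muq q) ^ (1 / 4 : ℝ) * (N : ℝ) ^ (-(7 / 4) : ℝ) := by positivity
      have h8 : 0 ≤ (N : ℝ) ^ (-(1 / 4) : ℝ) * X ^ 2 := by positivity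
      show X ^ (3 - s) * GA v w 1 (fun D => mk q (D ∪ lit (i, b)) T ^ s) ≤ _
      linarith
    cases b
    · simp only [Bool.false_eq_true, if_false]
      exact hup B A fun U => CT_H2_false hq hq1 hs hs1 i M A B U
    · simp only [if_true]
      exact hup A B fun U => CT_H2_true hq hq1 hs hs1 i M A B U
  · intro n hn1 M A
    rw [CT_GA_mul]
    unfold H2F3
    rw [if_neg (by omega)]

/-- The functional of (H2) in terms of the marks which are not normalised. -/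
theorem H2_eq {s : ℝ} (hs1 : s ≤ 1) (v w : ℝ) (n : ℕ) (hn : 1 ≤ n) (S : As (Fin n)) :
    H2f hq hq1 s v w n S =
      (muq q ^ s)⁻¹ * (avL (H2G1 q s) n S - H2F3 q s v w n S) := by
  obtain ⟨m, rfl⟩ : ∃ m, n = m + 1 := ⟨n - 1, by omega⟩
  have hm : 0 < muq q := by unfold muq; exact div_pos (by linarith) hq
  have e0 : H2f hq hq1 s v w (m + 1) S = ss q S ^ 3 * ((PFS hq hq1 S).Rs s -
    E2 (gq v w 1) (fun a b => ((PFS hq hq1 S).M a b) ^ s)) := rfl
  have eA : avL (H2G1 q s) (m + 1) S = ss q S ^ (3 - s) *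
      Av (fun a => Av (fun l => mk q (lit a ∪ lit l) S ^ s)) := by
    unfold avL H2G1
    rw [← Finset.mul_sum]
    unfold Av
    ring
  have eF : H2F3 q s v w (m + 1) S = ss q S ^ (3 - s) *
      GA v w 1 (fun A => GA v w 1 (fun B => mk q (A ∪ B) S ^ s)) := by
    unfold H2F3
    rw [if_neg (by omega)]
  rw [e0, eA, eF]
  by_cases hS : S = ∅
  · subst hS
    rw [CT_ss_empty hq hq1, Real.zero_rpow (by linarith)]
    ring
  · have hv : ss q S = vv q S := CT_ss_ne hS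
    have hp : 0 < vv q S := vv_pos hq hq1 S
    have hR : (PFS hq hq1 S).Rs s = (muq q ^ s)⁻¹ * (vv q S ^ s)⁻¹ *
        Av (fun a => Av (fun l => mk q (lit a ∪ lit l) S ^ s)) := by
      unfold PF.Rs
      have h1 : ∀ a l : Lt (Fin (m + 1)), (PFS hq hq1 S).r a l ^ s =
          (muq q ^ s)⁻¹ * (vv q S ^ s)⁻¹ * mk q (lit a ∪ lit l) S ^ s := by
        intro a l
        rw [PFS_r, Real.div_rpow (mk_nonneg hq.le hq1 _ S) (by positivity),
          Real.mul_rpow hm.le hp.le]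
        field_simp
      simp only [h1]
      unfold Av
      simp only [← Finset.mul_sum, mul_div_assoc]
    have hM : E2 (gq v w 1) (fun a b => ((PFS hq hq1 S).M a b) ^ s) =
        (muq q ^ s)⁻¹ * (vv q S ^ s)⁻¹ *
        GA v w 1 (fun A => GA v w 1 (fun B => mk q (A ∪ B) S ^ s)) := by
      have h1 : ∀ a b : Finset (Cl (Fin (m + 1))), (PFS hq hq1 S).M a b ^ s =
          (muq q ^ s)⁻¹ * (vv q S ^ s)⁻¹ * mk q (Md a ∪ Md b) S ^ s := by
        intro a b
        rw [PFS_M, Real.div_rpow (mk_nonneg hq.le hq1 _ S) (by positivity),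
          Real.mul_rpow hm.le hp.le]
        field_simp
      unfold E2
      simp only [h1]
      unfold GA
      simp only [EE_mul_left]
    rw [hR, hM, hv]
    have h3 : vv q S ^ (3 - s) = vv q S ^ 3 * (vv q S ^ s)⁻¹ := by
      rw [Real.rpow_sub hp, div_eq_mul_inv]
      norm_cast
    rw [h3]
    ring

end H2

/-- **(H2)** at the level of the bracket. -/
theorem H2_br {q : ℝ} (hq : 0 < q) (hq1 : q < 1) {s : ℝ} (hs : 1 / 4 ≤ s) (hs1 : s ≤ 1)
    {x Y : ℝ} (hx : 1 / 2 ≤ x) (hx1 : x ≤ 1) (hY : Y ≤ 1) (C : Cen x Y) {err : ℝ}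
    (herr : 0 < err) : ∀ᶠ k in atTop,
      Br (C.N k) x (C.y k) (H2f hq hq1 s (Iv (C.N k) x) (Iw (C.N k) (C.y k))) ≤
        err * mm q (C.N k) x (C.y k) := by
  have hm : 0 < muq q := by unfold muq; exact div_pos (by linarith) hq
  have hms : 0 < muq q ^ s := Real.rpow_pos_of_pos hm s
  have hε : 0 < err * muq q ^ s / 2 := by positivity
  filter_upwards [H2_step1 hq hq1 hs hs1 hx hx1 hY C hε, H2_step2 hq hq1 hs hs1 hx hx1 hY C hε,
    CT_window C] with k h1 h2 hwin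
  have e1 : Br (C.N k) x (C.y k) (H2f hq hq1 s (Iv (C.N k) x) (Iw (C.N k) (C.y k))) =
      (muq q ^ s)⁻¹ * (Br (C.N k) x (C.y k) (avL (H2G1 q s)) -
        Br (C.N k) x (C.y k) (H2F3 q s (Iv (C.N k) x) (Iw (C.N k) (C.y k)))) := by
    rw [← CT_Br_sub, ← CT_Br_mul]
    exact CT_Br_congr fun n hn S => H2_eq hq hq1 hs1 _ _ n (hwin n hn).1 S
  rw [e1]
  have h3 : Br (C.N k) x (C.y k) (avL (H2G1 q s)) -
      Br (C.N k) x (C.y k) (H2F3 q s (Iv (C.N k) x) (Iw (C.N k) (C.y k))) ≤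
      muq q ^ s * (err * mm q (C.N k) x (C.y k)) := by linarith
  calc (muq q ^ s)⁻¹ * (Br (C.N k) x (C.y k) (avL (H2G1 q s)) -
        Br (C.N k) x (C.y k) (H2F3 q s (Iv (C.N k) x) (Iw (C.N k) (C.y k))))
      ≤ (muq q ^ s)⁻¹ * (muq q ^ s * (err * mm q (C.N k) x (C.y k))) :=
        mul_le_mul_of_nonneg_left h3 (by positivity)
    _ = err * mm q (C.N k) x (C.y k) := by
        rw [← mul_assoc, inv_mul_cancel₀ hms.ne', one_mul]

end Pool.Agent.Lib.MP_9cae81_PC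
end

section

/-!
# (H3) at the level of the bracket
-/

set_option autoImplicit false

open Finset Filter
open scoped BigOperators Topology

namespace Pool.Agent.Lib.MP_9cae81_PC

open Pool.Agent.Lib.MP_9cae81_R

section Point

variable {V : Type} [Fintype V] [Nonempty V] [DecidableEq V] {q : ℝ} (hq : 0 < q) (hq1 : q < 1)

omit [DecidableEq V] in
include hq hq1 in
theorem H3_ss_le_one (S : As V) : ss q S ≤ 1 := by
  by_cases h : S = ∅
  · rw [h, H3_ss_emp hq hq1]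
    exact zero_le_one
  · rw [H3_ss_ne h]
    exact vv_le_one hq.le hq1 S

omit [DecidableEq V] in
include hq hq1 in
/-- A disjunction is satisfiable if one of its members is. -/
theorem H3_ss_or (M A B : As V) : ss q (M ∩ (A ∪ B)) ≤ ss q (M ∩ A) + ss q (M ∩ B) := by
  have hA := H3_ss_nn hq hq1 (M ∩ A)
  have hB := H3_ss_nn hq hq1 (M ∩ B)
  by_cases h : M ∩ (A ∪ B) = ∅
  · rw [h, H3_ss_emp hq hq1]
    linarith
  · rw [H3_ss_ne h]
    by_cases h1 : M ∩ A = ∅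
    · have h2 : M ∩ B ≠ ∅ := by
        intro h2
        apply h
        rw [Set.inter_union_distrib_left, h1, h2, Set.union_empty]
      have h3 : vv q (M ∩ (A ∪ B)) ≤ vv q (M ∩ B) :=
        vv_anti hq.le hq1 (Set.inter_subset_inter_right M Set.subset_union_right)
      rw [H3_ss_ne h2]
      linarith
    · have h3 : vv q (M ∩ (A ∪ B)) ≤ vv q (M ∩ A) :=
        vv_anti hq.le hq1 (Set.inter_subset_inter_right M Set.subset_union_left)
      rw [H3_ss_ne h1]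
      linarith

include hq hq1 in
theorem H3_avL_bound {n : ℕ} (hn : 1 ≤ n) {t δ : ℝ} (ht : 0 < t) (hδ : 0 < δ) (S : As (Fin n)) :
    0 ≤ avL (fun _ S a => G3 q t δ S a) n S ∧
      3 * δ * avL (fun _ S a => G3 q t δ S a) n S ≤ ss q S ^ 3 := by
  have : Nonempty (Fin n) := ⟨⟨0, hn⟩⟩
  have e2 : avL (fun _ S a => G3 q t δ S a) n S = Av (fun a : Lt (Fin n) => G3 q t δ S a) := rfl
  rw [e2]
  refine ⟨H3_Av_nonneg fun a => (H3_G3_bound hq hq1 ht hδ S a).1, ?_⟩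
  rw [← H3_Av_mul]
  refine (H3_Av_le fun a => (H3_G3_bound hq hq1 ht hδ S a).2).trans (H3_Av_const_le ?_)
  exact pow_nonneg (H3_ss_nn hq hq1 S) 3

end Point

theorem H3_Br_const {N : ℕ} {x y : ℝ} (c : ℝ) :
    Br N x y (fun _ _ => c) = c * ∑ n ∈ Finset.Icc (N - MW N) (N + MW N), Wt N n := by
  unfold Br
  rw [Finset.mul_sum]
  exact Finset.sum_congr rfl fun n _ => by rw [B2.En_const]; ring

/-- **(H3) at the level of the bracket**, from the two inputs `hd` (change of the weight) and `he`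
(additivity). -/
theorem H3_of {x Y : ℝ} (hx : 1 / 2 ≤ x) (hx1 : x ≤ 1) (hY : Y ≤ 1) (C : Cen x Y) {q : ℝ}
    (hq : 0 < q) (hq1 : q < 1) (hm1 : muq q ≤ 1) {t δ : ℝ} (ht : 0 < t) (hδ : 0 < δ)
    {κ1 κ2 : ℝ}
    (hd : ∀ᶠ k in atTop, Br (C.N k) x (C.y k) (fun _ M =>
      GA (Iv (C.N k) x) (Iw (C.N k) (C.y k)) 1 (fun A =>
        GA (Iv (C.N k) x) (Iw (C.N k) (C.y k)) 1 (fun B =>
          |ss q (M ∩ (A ∪ B)) ^ 3 - ss q M ^ 3|))) ≤ κ1 * mm q (C.N k) x (C.y k))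
    (he : ∀ᶠ k in atTop, Br (C.N k) x (C.y k) (fun _ M =>
      GA (Iv (C.N k) x) (Iw (C.N k) (C.y k)) 1 (fun A =>
        GA (Iv (C.N k) x) (Iw (C.N k) (C.y k)) 1 (fun B => X3 q M A B))) ≤
          κ2 * mm q (C.N k) x (C.y k))
    {ε : ℝ} (hε : 0 < ε) :
    ∀ᶠ k in atTop, Br (C.N k) x (C.y k)
      (H3f hq hq1 δ t (Iv (C.N k) x) (Iw (C.N k) (C.y k))) ≤
        (1 / (3 * δ) * κ1 + 2 * B3C t δ * κ2 + ε) * mm q (C.N k) x (C.y k) := by
  have hx0 : 0 ≤ x := by linarith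
  have hm := muq_pos hq hq1
  have hH := H3_H3C_pos ht hδ hm
  have hB := H3_B3C_pos ht hδ
  -- the small number
  obtain ⟨ε1, hε1, hε1'⟩ : ∃ ε1 : ℝ, 0 < ε1 ∧ ε1 / (3 * δ) + 2 * ε1 / (3 * δ) + 3 * ε1 ≤ ε := by
    refine ⟨ε / (1 / δ + 3), by positivity, ?_⟩
    have h1 : ε / (1 / δ + 3) / (3 * δ) + 2 * (ε / (1 / δ + 3)) / (3 * δ) +
        3 * (ε / (1 / δ + 3)) = ε := by
      field_simp
      ring
    exact h1.le
  have F1 := A3_shift hq hq1 hx0 C hε1
  have F2 := A6_cavity hq hq1 hx hx1 hY C hε1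
  have F3 := C.hN.eventually A0_window
  have F4 := A3_batch hq hq1 hx hx1 hY C (ε := 1) one_pos
  have F5 := A2_add hq hq1 hx0 C (K := H3C t δ (muq q) * (8 / muq q)) hε1
  have F6 := A2_add hq hq1 hx0 C (K := H3C t δ (muq q) * (4 / muq q ^ 2)) hε1
  have F7 : ∀ᶠ k in atTop, H3C t δ (muq q) * (4 / muq q) / (C.N k : ℝ) ≤ ε1 := by
    have h1 : Tendsto (fun k => H3C t δ (muq q) * (4 / muq q) / (C.N k : ℝ)) atTop (𝓝 0) :=
      tendsto_const_nhds.div_atTop (tendsto_natCast_atTop_atTop.comp C.hN)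
    exact (h1.eventually (gt_mem_nhds hε1)).mono fun k hk => hk.le
  filter_upwards [F1, F2, F3, F4, F5, F6, F7, hd, he] with k f1 f2 f3 f4 f5 f6 f7 fd fe
  clear F1 F2 F3 F4 F5 F6 F7 hd he
  set N := C.N k with hN
  set y := C.y k with hy
  have hy0 : 0 ≤ y := C.y0 k
  set v := Iv N x with hvdef
  set w := Iw N y with hwdef
  have hv : 0 ≤ v := B2.Iv_nonneg hx0
  have hw : 0 ≤ w := B2.Iw_nonneg hy0
  have hN1 : 1 ≤ N := C.N1 k
  have hNpos : (0 : ℝ) < N := by exact_mod_cast hN1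
  have win : ∀ n ∈ Finset.Icc (N - MW N) (N + MW N), 1 ≤ n ∧ N ≤ 2 * n := by
    intro n hn
    have h1 := (f3.2.1 n hn).1
    exact ⟨by omega, h1⟩
  set μ := muq q with hμ
  set e : ℝ := 2 / (μ * N) with he_def
  have he0 : 0 < e := by positivity
  have hmm : 0 ≤ mm q N x y := B2.Br_nonneg hx0 hy0 fun _ _ _ => sq_nonneg _
  -- e bounds
  have heb : ∀ n : ℕ, N ≤ 2 * n → 1 / (μ * ((n : ℝ) + 1)) ≤ e ∧ 1 / ((n : ℝ) + 1) ≤ e := by
    intro n hn
    have h1 : (N : ℝ) ≤ 2 * ((n : ℝ) + 1) := by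
      have : (N : ℝ) ≤ 2 * n := by exact_mod_cast hn
      linarith
    have h2 : 1 / (μ * ((n : ℝ) + 1)) ≤ e := by
      rw [he_def, div_le_div_iff₀ (by positivity) (by positivity)]
      nlinarith
    refine ⟨h2, le_trans ?_ h2⟩
    refine div_le_div_of_nonneg_left zero_le_one (by positivity) ?_
    nlinarith [(by positivity : (0 : ℝ) < (n : ℝ) + 1)]
  -- names
  set G : FunL := fun _ S a => G3 q t δ S a with hG
  set cC : Fun := fun _ M => GA v w 1 (fun A => GA v w 1 (fun B => C3 q t δ M A B)) with hcC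
  -- step 1: dictionary
  have s1 : Br N x y (H3f hq hq1 δ t v w) = Br N x y cC - Br N x y (avL G) := by
    rw [← B2.Br_sub]
    refine le_antisymm (B2.Br_mono hx0 hy0 fun n hn S => ?_)
      (B2.Br_mono hx0 hy0 fun n hn S => ?_)
    · obtain ⟨m, rfl⟩ : ∃ m, n = m + 1 := ⟨n - 1, by have := (win n hn).1; omega⟩
      exact (H3_dict hq hq1 S).le
    · obtain ⟨m, rfl⟩ : ∃ m, n = m + 1 := ⟨n - 1, by have := (win n hn).1; omega⟩
      exact (H3_dict hq hq1 S).ge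
  -- step 2: cavity functional against C3
  have s2 : Br N x y cC ≤ Br N x y (cav v w G) +
      Br N x y (fun _ M => GA v w 1 (fun A => GA v w 1 (fun B => E3 q t δ e M A B))) := by
    rw [← B2.Br_add]
    refine B2.Br_mono hx0 hy0 fun n hn S => ?_
    obtain ⟨hn1, hn2⟩ := win n hn
    obtain ⟨e1, e2⟩ := heb n hn2
    have h1 := H3_cav hq hq1 hn1 ht hδ hv hw e1 e2 S
    have h2 := (abs_le.1 h1).1
    show GA v w 1 (fun A => GA v w 1 (fun B => C3 q t δ S A B)) ≤ _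
    linarith
  -- step 3: cavity
  have s3 : |Br' N x y (avL (fun n S a => 3 * δ * G n S a)) -
      Br N x y (cav v w (fun n S a => 3 * δ * G n S a))| ≤ ε1 * mm q N x y := by
    refine f2 _ fun n S a => ?_
    have : Nonempty (Fin n) := ⟨a.1⟩
    obtain ⟨g1, g2⟩ := H3_G3_bound hq hq1 ht hδ S a
    have h0 : 0 ≤ 3 * δ * G n S a := mul_nonneg (by positivity) g1
    rw [abs_of_nonneg h0]
    have h1 := H3_ss_nn hq hq1 S
    have h2 := H3_ss_nn hq hq1 (S ∩ lit a)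
    have h3 := H3_ss_le_one hq hq1 S
    have h4 : ss q S ^ 3 ≤ ss q S := by
      have h5 : ss q S * ss q S ≤ 1 := mul_le_one₀ h3 h1 h3
      calc ss q S ^ 3 = ss q S * (ss q S * ss q S) := by ring
        _ ≤ ss q S * 1 := mul_le_mul_of_nonneg_left h5 h1
        _ = _ := mul_one _
    have h6 : 3 * δ * G n S a ≤ ss q S ^ 3 := g2
    linarith
  have avm : avL (fun n S a => 3 * δ * G n S a) = fun n S => 3 * δ * avL G n S := by
    funext n S
    unfold avL
    rw [← Finset.mul_sum]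
    ring
  have cvm : cav v w (fun n S a => 3 * δ * G n S a) = fun n S => 3 * δ * cav v w G n S := by
    funext n M
    unfold cav
    simp only [B2.GA_mul]
    rw [← Finset.mul_sum]
    ring
  have Br'm : ∀ (c : ℝ) (h : Fun), Br' N x y (fun n S => c * h n S) = c * Br' N x y h := by
    intro c h
    unfold Br'
    rw [Finset.mul_sum]
    exact Finset.sum_congr rfl fun n _ => by rw [B2.En_mul]; ring
  rw [avm, cvm, Br'm, B2.Br_mul] at s3
  -- step 4: shift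
  have s4 : |Br' N x y (fun n S => 3 * δ * avL G n S) - Br N x y (fun n S => 3 * δ * avL G n S)| ≤
      ε1 * (Br N x y (fun n S => |3 * δ * avL G n S|) + mm q N x y) := by
    refine f1 _ fun n S => ?_
    rcases Nat.eq_zero_or_pos n with h0 | hn
    · subst h0
      have : avL G 0 S = 0 := by
        unfold avL
        simp
      rw [this, mul_zero, abs_zero]
      exact zero_le_one
    · have : Nonempty (Fin n) := ⟨⟨0, hn⟩⟩
      obtain ⟨g1, g2⟩ := H3_avL_bound hq hq1 hn ht hδ S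
      rw [abs_of_nonneg (mul_nonneg (by positivity) g1)]
      have h1 := H3_ss_nn hq hq1 S
      have h3 := H3_ss_le_one hq hq1 S
      exact g2.trans (pow_le_one₀ h1 h3)
  have s4b : Br N x y (fun n S => |3 * δ * avL G n S|) ≤ mm q N x y := by
    refine B2.Br_mono hx0 hy0 fun n hn S => ?_
    have hn1 := (win n hn).1
    have : Nonempty (Fin n) := ⟨⟨0, hn1⟩⟩
    obtain ⟨g1, g2⟩ := H3_avL_bound hq hq1 hn1 ht hδ S
    show |3 * δ * avL G n S| ≤ ss q S ^ 2
    rw [abs_of_nonneg (mul_nonneg (by positivity) g1)]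
    have h1 := H3_ss_nn hq hq1 S
    have h3 := H3_ss_le_one hq hq1 S
    refine g2.trans ?_
    calc ss q S ^ 3 = ss q S ^ 2 * ss q S := by ring
      _ ≤ ss q S ^ 2 * 1 := mul_le_mul_of_nonneg_left h3 (by positivity)
      _ = _ := mul_one _
  rw [Br'm, B2.Br_mul] at s4
  -- step 5: the error
  have s5 : Br N x y (fun _ M => GA v w 1 (fun A => GA v w 1 (fun B => E3 q t δ e M A B))) ≤
      H3C t δ μ * (e * Br N x y (fun _ M => GA v w 1 (fun A => GA v w 1
        (fun B => ss q (M ∩ (A ∪ B)))))) +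
      H3C t δ μ * (e * (e * ∑ n ∈ Finset.Icc (N - MW N) (N + MW N), Wt N n)) +
      1 / (3 * δ) * (κ1 * mm q N x y) + 2 * B3C t δ * (κ2 * mm q N x y) := by
    have h1 : Br N x y (fun _ M => GA v w 1 (fun A => GA v w 1 (fun B => E3 q t δ e M A B))) =
        H3C t δ μ * (e * Br N x y (fun _ M => GA v w 1 (fun A => GA v w 1
          (fun B => ss q (M ∩ (A ∪ B)))))) +
        H3C t δ μ * (e * (e * ∑ n ∈ Finset.Icc (N - MW N) (N + MW N), Wt N n)) +
        1 / (3 * δ) * Br N x y (fun _ M => GA v w 1 (fun A => GA v w 1 (fun B =>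
          |ss q (M ∩ (A ∪ B)) ^ 3 - ss q M ^ 3|))) +
        2 * B3C t δ * Br N x y (fun _ M => GA v w 1 (fun A => GA v w 1 (fun B =>
          X3 q M A B))) := by
      rw [← H3_Br_const (x := x) (y := y) e, ← B2.Br_mul e, ← B2.Br_mul e, ← B2.Br_mul,
        ← B2.Br_mul, ← B2.Br_mul, ← B2.Br_mul, ← B2.Br_add, ← B2.Br_add, ← B2.Br_add]
      congr 1
      funext n M
      rw [← B2.GA_mul, ← B2.GA_mul, ← B2.GA_mul, ← B2.GA_mul,
        ← B2.GA_const (V := Fin n) v w 1 (H3C t δ μ * (e * e)), ← B2.GA_add, ← B2.GA_add,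
        ← B2.GA_add]
      congr 1
      funext A
      rw [← B2.GA_mul, ← B2.GA_mul, ← B2.GA_mul, ← B2.GA_mul,
        ← B2.GA_const (V := Fin n) v w 1 (H3C t δ μ * (e * e)), ← B2.GA_add, ← B2.GA_add,
        ← B2.GA_add]
      congr 1
      funext B
      unfold E3
      ring
    rw [h1]
    have h2 : 0 ≤ 1 / (3 * δ) := by positivity
    have h3 := mul_le_mul_of_nonneg_left fd h2
    have h4 := mul_le_mul_of_nonneg_left fe (by positivity : 0 ≤ 2 * B3C t δ)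
    linarith
  -- step 6: the projection error
  have s6 : Br N x y (fun _ M => GA v w 1 (fun A => GA v w 1 (fun B => ss q (M ∩ (A ∪ B))))) ≤
      4 * Br N x y (fun _ S => ss q S) + 2 * mm q N x y := by
    have h1 : Br N x y (fun _ M => GA v w 1 (fun A => GA v w 1 (fun B =>
        ss q (M ∩ (A ∪ B))))) ≤
        Br N x y (fun _ M => 2 * GA v w 1 (fun A => ss q (M ∩ A))) := by
      refine B2.Br_mono hx0 hy0 fun n hn M => ?_
      have hn1 := (win n hn).1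
      have : Nonempty (Fin n) := ⟨⟨0, hn1⟩⟩
      have h2 : GA v w 1 (fun A => GA v w 1 (fun B => ss q (M ∩ (A ∪ B)))) ≤
          GA v w 1 (fun A => GA v w 1 (fun B => ss q (M ∩ A) + ss q (M ∩ B))) :=
        B2.GA_mono hv hw zero_le_one fun A => B2.GA_mono hv hw zero_le_one fun B =>
          H3_ss_or hq hq1 M A B
      refine h2.trans (le_of_eq ?_)
      have h3 : (fun A : As (Fin n) => GA v w 1 (fun B => ss q (M ∩ A) + ss q (M ∩ B))) =
          fun A => ss q (M ∩ A) + GA v w 1 (fun B => ss q (M ∩ B)) := by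
        funext A
        rw [B2.GA_add, B2.GA_const]
      rw [h3, B2.GA_add, B2.GA_const]
      ring
    rw [B2.Br_mul] at h1
    have h4 := f4 (fun n S => ss q S) (A6_ss_B1 hq hq1) 1 zero_le_one le_rfl
    have h5 := (abs_le.1 h4).2
    have h6 : Br N x y (fun n S => |ss q S|) = Br N x y (fun _ S => ss q S) := by
      refine le_antisymm (B2.Br_mono hx0 hy0 fun n hn S => ?_)
        (B2.Br_mono hx0 hy0 fun n hn S => le_abs_self _)
      have hn1 := (win n hn).1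
      have : Nonempty (Fin n) := ⟨⟨0, hn1⟩⟩
      exact (abs_of_nonneg (H3_ss_nn hq hq1 S)).le
    rw [h6] at h5
    have h7 : Br N x y (fun _ M => GA v w 1 (fun A => ss q (M ∩ A))) ≤
        2 * Br N x y (fun _ S => ss q S) + mm q N x y := by linarith
    linarith
  -- step 7: powers of N
  have hN1r : (1 : ℝ) ≤ N := by exact_mod_cast hN1
  have p1 : (N : ℝ)⁻¹ ≤ (N : ℝ) ^ (-(4 / 5) : ℝ) := by
    rw [← Real.rpow_neg_one]
    exact Real.rpow_le_rpow_of_exponent_le hN1r (by norm_num)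
  have p2 : ((N : ℝ) ^ 2)⁻¹ ≤ (N : ℝ) ^ (-(7 / 4) : ℝ) := by
    rw [← Real.rpow_natCast, ← Real.rpow_neg hNpos.le]
    exact Real.rpow_le_rpow_of_exponent_le hN1r (by norm_num)
  have hss0 : 0 ≤ Br N x y (fun _ S => ss q S) := by
    refine B2.Br_nonneg hx0 hy0 fun n hn S => ?_
    have hn1 := (win n hn).1
    have : Nonempty (Fin n) := ⟨⟨0, hn1⟩⟩
    exact H3_ss_nn hq hq1 S
  have hW0 : 0 ≤ ∑ n ∈ Finset.Icc (N - MW N) (N + MW N), Wt N n :=
    Finset.sum_nonneg fun n _ => B2.Wt_nonneg N n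
  have s7 : H3C t δ μ * (e * Br N x y (fun _ M => GA v w 1 (fun A => GA v w 1
      (fun B => ss q (M ∩ (A ∪ B)))))) ≤ 2 * ε1 * mm q N x y := by
    calc H3C t δ μ * (e * Br N x y (fun _ M => GA v w 1 (fun A => GA v w 1
          (fun B => ss q (M ∩ (A ∪ B))))))
        ≤ H3C t δ μ * (e * (4 * Br N x y (fun _ S => ss q S) + 2 * mm q N x y)) :=
          mul_le_mul_of_nonneg_left (mul_le_mul_of_nonneg_left s6 he0.le) hH.le
      _ = H3C t δ μ * (8 / μ) * ((N : ℝ)⁻¹ * Br N x y (fun _ S => ss q S)) +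
          H3C t δ μ * (4 / μ) / N * mm q N x y := by
          rw [he_def]
          field_simp
          ring
      _ ≤ H3C t δ μ * (8 / μ) * ((N : ℝ) ^ (-(4 / 5) : ℝ) * Br N x y (fun _ S => ss q S)) +
          ε1 * mm q N x y := by
          refine add_le_add (mul_le_mul_of_nonneg_left (mul_le_mul_of_nonneg_right p1 hss0)
            (by positivity)) (mul_le_mul_of_nonneg_right f7 hmm)
      _ ≤ ε1 * mm q N x y + ε1 * mm q N x y := add_le_add f5.2 le_rfl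
      _ = _ := by ring
  have s8 : H3C t δ μ * (e * (e * ∑ n ∈ Finset.Icc (N - MW N) (N + MW N), Wt N n)) ≤
      ε1 * mm q N x y := by
    calc H3C t δ μ * (e * (e * ∑ n ∈ Finset.Icc (N - MW N) (N + MW N), Wt N n))
        = H3C t δ μ * (4 / μ ^ 2) * (((N : ℝ) ^ 2)⁻¹ *
            ∑ n ∈ Finset.Icc (N - MW N) (N + MW N), Wt N n) := by
          rw [he_def]
          field_simp
          ring
      _ ≤ H3C t δ μ * (4 / μ ^ 2) * ((N : ℝ) ^ (-(7 / 4) : ℝ) *
            ∑ n ∈ Finset.Icc (N - MW N) (N + MW N), Wt N n) :=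
          mul_le_mul_of_nonneg_left (mul_le_mul_of_nonneg_right p2 hW0) (by positivity)
      _ ≤ _ := f6.1
  -- step 8: conclusion
  have t1 : Br N x y (cav v w G) - Br' N x y (avL G) ≤ ε1 / (3 * δ) * mm q N x y := by
    have h1 := (abs_le.1 s3).1
    have h2 : 3 * δ * (Br N x y (cav v w G) - Br' N x y (avL G)) ≤ ε1 * mm q N x y := by linarith
    rw [div_mul_eq_mul_div, le_div_iff₀ (by positivity)]
    linarith
  have t2 : Br' N x y (avL G) - Br N x y (avL G) ≤ 2 * ε1 / (3 * δ) * mm q N x y := by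
    have h1 := (abs_le.1 s4).2
    have h3 : ε1 * (Br N x y (fun n S => |3 * δ * avL G n S|) + mm q N x y) ≤
        ε1 * (mm q N x y + mm q N x y) :=
      mul_le_mul_of_nonneg_left (add_le_add s4b le_rfl) hε1.le
    have h2 : 3 * δ * (Br' N x y (avL G) - Br N x y (avL G)) ≤ 2 * ε1 * mm q N x y := by linarith
    rw [div_mul_eq_mul_div, le_div_iff₀ (by positivity)]
    linarith
  have t3 : (ε1 / (3 * δ) + 2 * ε1 / (3 * δ) + 3 * ε1) * mm q N x y ≤ ε * mm q N x y :=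
    mul_le_mul_of_nonneg_right hε1' hmm
  rw [s1]
  calc Br N x y cC - Br N x y (avL G)
      ≤ ε1 / (3 * δ) * mm q N x y + 2 * ε1 / (3 * δ) * mm q N x y +
        (2 * ε1 * mm q N x y + ε1 * mm q N x y +
          1 / (3 * δ) * (κ1 * mm q N x y) + 2 * B3C t δ * (κ2 * mm q N x y)) := by linarith
    _ = (ε1 / (3 * δ) + 2 * ε1 / (3 * δ) + 3 * ε1) * mm q N x y +
        (1 / (3 * δ) * κ1 + 2 * B3C t δ * κ2) * mm q N x y := by ring
    _ ≤ ε * mm q N x y + (1 / (3 * δ) * κ1 + 2 * B3C t δ * κ2) * mm q N x y :=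
        add_le_add t3 le_rfl
    _ = _ := by ring

end Pool.Agent.Lib.MP_9cae81_PC
end
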