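import Pool.Agent.Lib.MP_9cae81_PC.D
import Pool.Agent.Lib.MP_9cae81_PC.Mg.G002
import Pool.Agent.Lib.MP_9cae81_PC.Mg.G003
import Pool.Agent.Lib.MP_9cae81_PC.Mg.G004
import Pool.Agent.Lib.MP_9cae81_PC.Mg.G001
import Pool.Agent.Lib.MP_9cae81_PC.Mg.G005
import Pool.Agent.Lib.MP_9cae81_PC.Mg.G006
import Pool.Agent.Lib.MP_9cae81_PC.Mg.G009
import Pool.Agent.Lib.MP_9cae81_PC.H3d
import Pool.Agent.Lib.MP_9cae81_PC.H3e

section

/-!
# Additivity between one gadget and one fresh piece (unit or pair)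

The additivity between a gadget and a unit (`D3a`) is applied to a new variable whose gadgets are
trivial (variable false) and one piece `p` (variable true).
-/

set_option autoImplicit false
set_option linter.unusedSectionVars false

open Finset Filter
open scoped BigOperators Topology

namespace Pool.Agent.Lib.MP_9cae81_PC

open Pool.Agent.Lib.MP_9cae81_R

/-! ### Restriction of an expectation to special sets -/

section

variable {ι : Type} [Fintype ι] [DecidableEq ι]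

theorem D3p_EE_empty {q : ι → ℝ} (hq : ∀ c, 0 ≤ q c) {g : Finset ι → ℝ} (hg : ∀ F, 0 ≤ g F) :
    Real.exp (-∑ c, q c) * g ∅ ≤ EE q g := by
  unfold EE
  have h := Finset.single_le_sum (f := fun F => wt q F * g F)
    (fun F _ => mul_nonneg (wt_nonneg hq F) (hg F)) (Finset.mem_univ ∅)
  refine le_trans (le_of_eq ?_) h
  simp only [P1a_wt, Finset.prod_empty, one_mul]

theorem D3p_EE_single {q : ι → ℝ} (hq : ∀ c, 0 ≤ q c) {g : Finset ι → ℝ} (hg : ∀ F, 0 ≤ g F) :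
    Real.exp (-∑ c, q c) * ∑ c, q c * g {c} ≤ EE q g := by
  unfold EE
  have h1 : ∑ c, wt q {c} * g {c} ≤ ∑ F : Finset ι, wt q F * g F := by
    have e : ∑ c, wt q {c} * g {c} =
        ∑ F ∈ Finset.univ.image (fun c : ι => ({c} : Finset ι)), wt q F * g F := by
      rw [Finset.sum_image]
      intro a _ b _ h
      exact Finset.singleton_injective h
    rw [e]
    exact Finset.sum_le_sum_of_subset_of_nonneg (Finset.subset_univ _)
      fun F _ _ => mul_nonneg (wt_nonneg hq F) (hg F)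
  refine le_trans ?_ h1
  rw [Finset.mul_sum]
  refine Finset.sum_le_sum fun c _ => ?_
  have h2 : q c * Real.exp (-∑ c, q c) ≤ wt q {c} := by
    rw [P1a_wt, Finset.prod_singleton]
    refine mul_le_mul_of_nonneg_right ?_ (Real.exp_pos _).le
    linarith [Real.add_one_le_exp (q c)]
  calc Real.exp (-∑ c, q c) * (q c * g {c}) = q c * Real.exp (-∑ c, q c) * g {c} := by ring
    _ ≤ _ := mul_le_mul_of_nonneg_right h2 (hg _)

end

/-! ### The functional -/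

/-- `s(S)` times the mean square second difference along a gadget and the marked literal. -/
noncomputable def D3pG (q v w : ℝ) : FunL := fun _ S a =>
  ss q S * GA v w 1 (fun g => sd2 q g (lit a) S ^ 2)

section point

variable {n : ℕ} {q v w : ℝ}

theorem D3p_sd2_sq_le {V : Type} [Fintype V] [Nonempty V] (hq : 0 < q) (hq1 : q < 1)
    (g y S : As V) : sd2 q g y S ^ 2 ≤ 1 := by
  have h1 := sd2_eq_mk (q := q) g y S
  have h2 := mk_nonneg hq.le hq1 y (S ∩ g)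
  have h3 := mk_le_one hq.le hq1 y (S ∩ g)
  have h4 := mk_nonneg hq.le hq1 y S
  have h5 := mk_le_one hq.le hq1 y S
  rw [sq_le_one_iff_abs_le_one, abs_le]
  constructor <;> linarith

theorem D3p_sd2_sq_le_mk {V : Type} [Fintype V] [Nonempty V] (hq : 0 < q) (hq1 : q < 1)
    (g y S : As V) : sd2 q g y S ^ 2 ≤ mk q y (S ∩ g) + mk q y S := by
  have h1 := sd2_eq_mk (q := q) g y S
  have h2 := mk_nonneg hq.le hq1 y (S ∩ g)
  have h4 := mk_nonneg hq.le hq1 y S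
  have h6 : |sd2 q g y S| ≤ mk q y (S ∩ g) + mk q y S := by
    rw [abs_le]; constructor <;> linarith
  have h7 : |sd2 q g y S| ≤ 1 := sq_le_one_iff_abs_le_one _ |>.1 (D3p_sd2_sq_le hq hq1 g y S)
  rw [← sq_abs]
  nlinarith [abs_nonneg (sd2 q g y S)]

/-- One new variable with trivial gadget (variable false) and gadget `Md {p}` (variable true). -/
theorem D3p_one [Nonempty (Fin n)] (hq : 0 < q) (hq1 : q < 1) (hv : 0 ≤ v) (hw : 0 ≤ w)
    (i : Fin (n + 1)) (M T : As (Fin n)) {e e2 : ℝ}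
    (he : 1 / (muq q * (n + 1)) ≤ e) (he2 : 8 * v + 24 * w + 48 * n * w ≤ e2) :
    ss q M * GA v w 1 (fun g => sd2 q g T M ^ 2) ≤
      2 * D3pG q v w (n + 1) (jn i M Set.univ T) (i, true) + 2 * e2 * (ss q M + e) +
        32 * e ^ 2 + e * GA v w 1 (fun g => sd2 q g T M ^ 2) := by
  have hmu := D.muq_pos hq hq1
  have he0 : 0 ≤ e := le_trans (by positivity) he
  have he20 : 0 ≤ e2 := le_trans (by positivity) he2
  set S0 : As (Fin (n + 1)) := jn i M Set.univ T with hS0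
  -- projections
  have p0 : pr i S0 = M := by
    rw [hS0, pr_jn, Set.univ_union, Set.inter_univ]
  have p1 : ∀ g : As (Fin n), pr i (S0 ∩ lf i g) = M ∩ g := by
    intro g
    rw [pr_inter_lf, p0]
  have p2 : pr i (S0 ∩ lit (i, true)) = M ∩ T := by
    rw [hS0, pr_jn_true]
  have p3 : ∀ g : As (Fin n), pr i (S0 ∩ lf i g ∩ lit (i, true)) = M ∩ g ∩ T := by
    intro g
    rw [Set.inter_right_comm, pr_inter_lf, p2, Set.inter_right_comm]
  have hsh : ∀ S : As (Fin (n + 1)), |vv q S - vv q (pr i S)| ≤ e := fun S =>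
    (A5_shift hq hq1 i S).trans he
  have hss : |ss q S0 - ss q M| ≤ e := by
    have := (A5_sshift i hq hq1 S0).trans he
    rwa [p0] at this
  have hssn : 0 ≤ ss q S0 := D.ss_nonneg hq.le hq1 S0
  have hsd : ∀ g : As (Fin n), |sd2 q (lf i g) (lit (i, true)) S0 - sd2 q g T M| ≤ 4 * e := by
    intro g
    have h1 := abs_le.1 (hsh (S0 ∩ lf i g ∩ lit (i, true)))
    have h2 := abs_le.1 (hsh (S0 ∩ lf i g))
    have h3 := abs_le.1 (hsh (S0 ∩ lit (i, true)))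
    have h4 := abs_le.1 (hsh S0)
    rw [p3] at h1
    rw [p1] at h2
    rw [p2] at h3
    rw [p0] at h4
    unfold sd2
    rw [abs_le]
    constructor <;> linarith [h1.1, h1.2, h2.1, h2.2, h3.1, h3.2, h4.1, h4.2]
  have hsq : ∀ g : As (Fin n), sd2 q g T M ^ 2 ≤
      2 * sd2 q (lf i g) (lit (i, true)) S0 ^ 2 + 32 * e ^ 2 := by
    intro g
    have h := abs_le.1 (hsd g)
    set X := sd2 q g T M
    set Z := sd2 q (lf i g) (lit (i, true)) S0
    have h5 : (Z - X) ^ 2 ≤ (4 * e) ^ 2 := sq_le_sq' h.1 h.2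
    nlinarith [sq_nonneg (2 * Z - X)]
  have hGA : GA v w 1 (fun g => sd2 q g T M ^ 2) ≤
      2 * GA v w 1 (fun g : As (Fin n) => sd2 q (lf i g) (lit (i, true)) S0 ^ 2) + 32 * e ^ 2 := by
    rw [← B2.GA_mul, ← B2.GA_const (V := Fin n) v w 1 (32 * e ^ 2), ← B2.GA_add]
    exact B2.GA_mono hv hw zero_le_one fun g => hsq g
  have hsucc := GA_succ i hv hw zero_le_one
    (fun g : As (Fin (n + 1)) => sd2 q g (lit (i, true)) S0 ^ 2) (K := 1) (fun S => by
      rw [abs_of_nonneg (sq_nonneg _)]; exact D3p_sd2_sq_le hq hq1 _ _ _)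
  have hsucc2 := (abs_le.1 hsucc).1
  have hG : D3pG q v w (n + 1) S0 (i, true) =
      ss q S0 * GA v w 1 (fun g : As (Fin (n + 1)) => sd2 q g (lit (i, true)) S0 ^ 2) := rfl
  rw [hG]
  set X := GA v w 1 (fun g => sd2 q g T M ^ 2) with hX
  set Z := GA v w 1 (fun g : As (Fin n) => sd2 q (lf i g) (lit (i, true)) S0 ^ 2) with hZ
  set W := GA v w 1 (fun g : As (Fin (n + 1)) => sd2 q g (lit (i, true)) S0 ^ 2) with hW
  have hX0 : 0 ≤ X := B2.GA_nonneg hv hw zero_le_one fun g => sq_nonneg _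
  have h6 : Z ≤ W + e2 := by
    have : (1 : ℝ) * (1 * (8 * v + 24 * w + 48 * n * w)) ≤ e2 := by linarith
    linarith
  have h7 := abs_le.1 hss
  have hsM : ss q M ≤ ss q S0 + e := by linarith [h7.1, h7.2]
  have hsM2 : ss q S0 ≤ ss q M + e := by linarith [h7.1, h7.2]
  have h8 : ss q M * X ≤ ss q S0 * X + e * X := by nlinarith
  have h9 : ss q S0 * X ≤ ss q S0 * (2 * Z + 32 * e ^ 2) := mul_le_mul_of_nonneg_left hGA hssn
  have h10 : ss q S0 * Z ≤ ss q S0 * (W + e2) := mul_le_mul_of_nonneg_left h6 hssn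
  have h11 : ss q S0 * e2 ≤ (ss q M + e) * e2 := mul_le_mul_of_nonneg_right hsM2 he20
  have h12 : ss q S0 * (32 * e ^ 2) ≤ 1 * (32 * e ^ 2) :=
    mul_le_mul_of_nonneg_right (D.ss_le_one hq.le hq1 S0) (by positivity)
  nlinarith

/-- The sum over the pieces of a gadget of a function of the models. -/
theorem D3p_sum {V : Type} [Fintype V] [Nonempty V] (v w : ℝ) (f : As V → ℝ) :
    ∑ p : Cl V, gq v w 1 p * f (Md {p}) =
      (2 * v + 3 * w) * (∑ a : Lt V, f (lit a)) +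
        3 * w * (∑ a : Lt V, ∑ b : Lt V, f (lit a ∪ lit b)) := by
  classical
  rw [Fintype.sum_sum_type, Fintype.sum_sum_type]
  have e1 : ∑ a : Lt V, gq v w 1 (Sum.inl a) * f (Md {Sum.inl a}) =
      (2 * v + 3 * w) * ∑ a : Lt V, f (lit a) := by
    rw [Finset.mul_sum]
    refine Finset.sum_congr rfl fun a _ => ?_
    have h : Md {(Sum.inl a : Cl V)} = lit a := by ext σ; simp [Md, clT, lit]
    rw [h]
    show 1 * (2 * v + 3 * w) * f (lit a) = _
    ring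
  have e2 : ∑ p : Lt V × Lt V, gq v w 1 (Sum.inr (Sum.inl p)) * f (Md {Sum.inr (Sum.inl p)}) =
      3 * w * ∑ a : Lt V, ∑ b : Lt V, f (lit a ∪ lit b) := by
    rw [← Fintype.sum_prod_type', Finset.mul_sum]
    refine Finset.sum_congr rfl fun p _ => ?_
    have h : Md {(Sum.inr (Sum.inl p) : Cl V)} = lit p.1 ∪ lit p.2 := by
      ext σ; simp [Md, clT, lit]
    rw [h]
    show 1 * (3 * w) * f (lit p.1 ∪ lit p.2) = _
    ring
  have e3 : ∑ t : Lt V × Lt V × Lt V, gq v w 1 (Sum.inr (Sum.inr t)) *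
      f (Md {Sum.inr (Sum.inr t)}) = 0 := by
    refine Finset.sum_eq_zero fun t _ => ?_
    show (0 : ℝ) * _ = 0
    rw [zero_mul]
  rw [e1, e2, e3, add_zero]

theorem D3p_sumq {V : Type} [Fintype V] [Nonempty V] (v w : ℝ) :
    ∑ p : Cl V, gq v w 1 p = (2 * v + 3 * w) * Fintype.card (Lt V) +
      3 * w * (Fintype.card (Lt V) : ℝ) ^ 2 := by
  have h := D3p_sum (V := V) v w (fun _ => 1)
  simp only [mul_one, Finset.sum_const, Finset.card_univ, nsmul_eq_mul] at h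
  rw [h]
  ring

/-- The mean mark of the pieces of a gadget. -/
theorem D3p_mk_le {V : Type} [Fintype V] [Nonempty V] (hq : 0 < q) (hq1 : q < 1)
    (hw : 0 ≤ w) {c : ℝ}
    (hc : (2 * v + 3 * w) * Fintype.card (Lt V) + 3 * w * (Fintype.card (Lt V) : ℝ) ^ 2 ≤ c)
    (S : As V) : ∑ p : Cl V, gq v w 1 p * mk q (Md {p}) S ≤ c * muq q * ss q S := by
  have hmu := D.muq_pos hq hq1
  have hcard := Sys.card_pos' (L := Lt V)
  have h1 := D3p_sum (V := V) v w (fun T => mk q T S)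
  rw [h1]
  have e1 : ∑ a : Lt V, mk q (lit a) S = Fintype.card (Lt V) * (muq q * ss q S) := by
    have h := (AS V).P1_v hq hq1 S
    have h' : (AS V).P1 ((AS V).v q) S = (∑ a : Lt V, vv q (S ∩ lit a)) / Fintype.card (Lt V) := rfl
    rw [h', div_eq_iff hcard.ne'] at h
    unfold mk
    rw [Finset.sum_sub_distrib, h]
    simp only [Finset.sum_const, Finset.card_univ, nsmul_eq_mul]
    show _ = (Fintype.card (Lt V) : ℝ) * ((1 - q) / q * ((AS V).v q S - (AS V).un S))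
    ring
  have e2 : ∑ a : Lt V, ∑ b : Lt V, mk q (lit a ∪ lit b) S ≤
      (Fintype.card (Lt V) : ℝ) ^ 2 * (muq q * ss q S) := by
    have h : ∑ a : Lt V, ∑ b : Lt V, mk q (lit a ∪ lit b) S ≤
        ∑ _a : Lt V, ∑ b : Lt V, mk q (lit b) S :=
      Finset.sum_le_sum fun a _ => Finset.sum_le_sum fun b _ =>
        mk_union_le_right hq.le hq1 (lit a) (lit b) S
    refine h.trans (le_of_eq ?_)
    rw [Finset.sum_const, Finset.card_univ, nsmul_eq_mul, e1]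
    ring
  have hs := D.ss_nonneg hq.le hq1 S
  have h3 : 0 ≤ muq q * ss q S := mul_nonneg hmu.le hs
  have h4 := mul_le_mul_of_nonneg_left e2 (show 0 ≤ 3 * w by positivity)
  have h5 := mul_le_mul_of_nonneg_right hc h3
  rw [e1]
  linarith

/-- Rough bound of the mean square second difference. -/
theorem D3p_Q_le [Nonempty (Fin n)] (hq : 0 < q) (hq1 : q < 1) (hmu1 : muq q ≤ 1) (hv : 0 ≤ v)
    (hw : 0 ≤ w) {c : ℝ} (hc : (2 * v + 3 * w) * Fintype.card (Lt (Fin n)) +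
      3 * w * (Fintype.card (Lt (Fin n)) : ℝ) ^ 2 ≤ c) (M : As (Fin n)) (hM : M ≠ ∅) :
    ∑ p : Cl (Fin n), gq v w 1 p * GA v w 1 (fun g => sd2 q g (Md {p}) M ^ 2) ≤
      c * (Real.exp c + 1) * ss q M := by
  have hmu := D.muq_pos hq hq1
  have hc0 : 0 ≤ c := le_trans (by positivity) hc
  have hgq : ∀ p : Cl (Fin n), 0 ≤ gq v w 1 p := B2.gq_nonneg hv hw zero_le_one
  have h1 : ∑ p : Cl (Fin n), gq v w 1 p * GA v w 1 (fun g => sd2 q g (Md {p}) M ^ 2) ≤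
      ∑ p : Cl (Fin n), gq v w 1 p * GA v w 1 (fun g => mk q (Md {p}) (M ∩ g) +
        mk q (Md {p}) M) :=
    Finset.sum_le_sum fun p _ => mul_le_mul_of_nonneg_left
      (B2.GA_mono hv hw zero_le_one fun g => D3p_sd2_sq_le_mk hq hq1 g (Md {p}) M) (hgq p)
  have h2 : ∑ p : Cl (Fin n), gq v w 1 p * GA v w 1 (fun g => mk q (Md {p}) (M ∩ g) +
        mk q (Md {p}) M) =
      GA v w 1 (fun g => ∑ p : Cl (Fin n), gq v w 1 p * mk q (Md {p}) (M ∩ g)) +
        ∑ p : Cl (Fin n), gq v w 1 p * mk q (Md {p}) M := by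
    rw [B2.GA_sum, ← Finset.sum_add_distrib]
    refine Finset.sum_congr rfl fun p _ => ?_
    rw [B2.GA_add, B2.GA_const, B2.GA_mul, mul_add]
  have h3 : GA v w 1 (fun g => ∑ p : Cl (Fin n), gq v w 1 p * mk q (Md {p}) (M ∩ g)) ≤
      GA v w 1 (fun g => c * muq q * vv q (M ∩ g)) :=
    B2.GA_mono hv hw zero_le_one fun g => (D3p_mk_le hq hq1 hw hc (M ∩ g)).trans
      (mul_le_mul_of_nonneg_left (D.ss_le_vv _) (mul_nonneg hc0 hmu.le))
  have h4 : ((2 * v + 3 * w) * Fintype.card (Lt (Fin n)) +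
      3 * w * (Fintype.card (Lt (Fin n)) : ℝ) ^ 2) * muq q ≤ c := by
    have := mul_le_mul hc hmu1 hmu.le hc0
    linarith
  have h5 := GA_vv_le hq hq1 hv hw h4 M
  have h6 := D3p_mk_le hq hq1 hw hc M
  rw [B2.GA_mul] at h3
  have hsM : ss q M = vv q M := D.ss_of_ne hM
  rw [← hsM] at h5
  have h7 : c * muq q * GA v w 1 (fun A => vv q (M ∩ A)) ≤ c * muq q * (Real.exp c * ss q M) :=
    mul_le_mul_of_nonneg_left h5 (mul_nonneg hc0 hmu.le)
  have h8 : c * muq q ≤ c := by nlinarith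
  have hs := D.ss_nonneg hq.le hq1 M
  have h9 : c * muq q * ((Real.exp c + 1) * ss q M) ≤ c * ((Real.exp c + 1) * ss q M) :=
    mul_le_mul_of_nonneg_right h8 (mul_nonneg (by positivity) hs)
  linarith

theorem D3pG_nonneg [Nonempty (Fin n)] (hq : 0 < q) (hq1 : q < 1) (hv : 0 ≤ v) (hw : 0 ≤ w)
    (S : As (Fin n)) (a : Lt (Fin n)) : 0 ≤ D3pG q v w n S a :=
  mul_nonneg (D.ss_nonneg hq.le hq1 S) (B2.GA_nonneg hv hw zero_le_one fun _ => sq_nonneg _)

/-- Lower bound for the cavity functional. -/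
theorem D3p_cav [Nonempty (Fin n)] (hq : 0 < q) (hq1 : q < 1) (hv : 0 ≤ v)
    (hw : 0 ≤ w) {c : ℝ} (hc : (2 * v + 3 * w) * Fintype.card (Lt (Fin n)) +
      3 * w * (Fintype.card (Lt (Fin n)) : ℝ) ^ 2 ≤ c) (M : As (Fin n)) {R : ℝ}
    (hR : ∀ i : Fin (n + 1), R ≤ ∑ p : Cl (Fin n), gq v w 1 p *
      D3pG q v w (n + 1) (jn i M Set.univ (Md {p})) (i, true)) (hR0 : 0 ≤ R) :
    R ≤ 2 * Real.exp (2 * c) * cav v w (D3pG q v w) n M := by
  have hgq : ∀ p : Cl (Fin n), 0 ≤ gq v w 1 p := B2.gq_nonneg hv hw zero_le_one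
  have hG : ∀ (i : Fin (n + 1)) (A B : As (Fin n)) (a : Lt (Fin (n + 1))),
      0 ≤ D3pG q v w (n + 1) (jn i M A B) a := fun i A B a => D3pG_nonneg hq hq1 hv hw _ _
  have hexp : Real.exp (-c) ≤ Real.exp (-∑ p : Cl (Fin n), gq v w 1 p) := by
    rw [D3p_sumq]
    exact Real.exp_le_exp.2 (by linarith)
  have h1 : ∀ i : Fin (n + 1), Real.exp (-c) * (Real.exp (-c) * R) ≤
      GA v w 1 (fun A => GA v w 1 (fun B => D3pG q v w (n + 1) (jn i M A B) (i, true))) := by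
    intro i
    have e1 : Real.exp (-∑ p : Cl (Fin n), gq v w 1 p) *
        GA v w 1 (fun B => D3pG q v w (n + 1) (jn i M Set.univ B) (i, true)) ≤
        GA v w 1 (fun A => GA v w 1 (fun B => D3pG q v w (n + 1) (jn i M A B) (i, true))) := by
      have := D3p_EE_empty hgq (g := fun F => GA v w 1 (fun B =>
        D3pG q v w (n + 1) (jn i M (Md F) B) (i, true)))
        (fun F => B2.GA_nonneg hv hw zero_le_one fun B => hG _ _ _ _)
      rw [Lift_Md_empty] at this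
      exact this
    have e2 : Real.exp (-∑ p : Cl (Fin n), gq v w 1 p) * (∑ p : Cl (Fin n), gq v w 1 p *
        D3pG q v w (n + 1) (jn i M Set.univ (Md {p})) (i, true)) ≤
        GA v w 1 (fun B => D3pG q v w (n + 1) (jn i M Set.univ B) (i, true)) :=
      D3p_EE_single hgq (g := fun F => D3pG q v w (n + 1) (jn i M Set.univ (Md F)) (i, true))
        (fun F => hG _ _ _ _)
    have e3 : Real.exp (-c) * R ≤ GA v w 1 (fun B =>
        D3pG q v w (n + 1) (jn i M Set.univ B) (i, true)) := by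
      refine le_trans ?_ e2
      refine mul_le_mul hexp (hR i) hR0 (Real.exp_pos _).le
    refine le_trans ?_ e1
    refine mul_le_mul hexp e3 ?_ (Real.exp_pos _).le
    exact mul_nonneg (Real.exp_pos _).le hR0
  have h2 : (n + 1 : ℝ) * (Real.exp (-c) * (Real.exp (-c) * R)) ≤
      ∑ a : Lt (Fin (n + 1)), GA v w 1 (fun A => GA v w 1 (fun B =>
        D3pG q v w (n + 1) (jn a.1 M A B) a)) := by
    rw [Fintype.sum_prod_type]
    have e4 : (n + 1 : ℝ) * (Real.exp (-c) * (Real.exp (-c) * R)) =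
        ∑ _i : Fin (n + 1), Real.exp (-c) * (Real.exp (-c) * R) := by
      rw [Finset.sum_const, Finset.card_univ, Fintype.card_fin, nsmul_eq_mul]
      push_cast
      ring
    rw [e4]
    refine Finset.sum_le_sum fun i _ => ?_
    rw [Fintype.sum_bool]
    have e5 : 0 ≤ GA v w 1 (fun A => GA v w 1 (fun B =>
        D3pG q v w (n + 1) (jn i M A B) (i, false))) :=
      B2.GA_nonneg hv hw zero_le_one fun A => B2.GA_nonneg hv hw zero_le_one fun B => hG _ _ _ _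
    have e6 := h1 i
    show Real.exp (-c) * (Real.exp (-c) * R) ≤
      GA v w 1 (fun A => GA v w 1 (fun B => D3pG q v w (n + 1) (jn i M A B) (i, true))) +
      GA v w 1 (fun A => GA v w 1 (fun B => D3pG q v w (n + 1) (jn i M A B) (i, false)))
    linarith
  have h3 : cav v w (D3pG q v w) n M = (∑ a : Lt (Fin (n + 1)), GA v w 1 (fun A =>
      GA v w 1 (fun B => D3pG q v w (n + 1) (jn a.1 M A B) a))) / (2 * (n + 1)) := by
    unfold cav
    rw [Lift_card]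
    push_cast
    rfl
  rw [h3]
  have hn : (0 : ℝ) < 2 * (n + 1) := by positivity
  have h4 : Real.exp (2 * c) * (Real.exp (-c) * Real.exp (-c)) = 1 := by
    rw [← Real.exp_add, ← Real.exp_add]
    ring_nf
    exact Real.exp_zero
  have h5 : R * (2 * (n + 1)) = 2 * Real.exp (2 * c) *
      ((n + 1) * (Real.exp (-c) * (Real.exp (-c) * R))) := by
    calc R * (2 * (n + 1)) = (Real.exp (2 * c) * (Real.exp (-c) * Real.exp (-c))) *
          (R * (2 * (n + 1))) := by rw [h4, one_mul]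
      _ = _ := by ring
  rw [mul_div_assoc', le_div_iff₀ hn, h5]
  exact mul_le_mul_of_nonneg_left h2 (by positivity)

/-- **The pointwise inequality.** -/
theorem D3p_point [Nonempty (Fin n)] (hq : 0 < q) (hq1 : q < 1) (hmu1 : muq q ≤ 1) (hv : 0 ≤ v)
    (hw : 0 ≤ w) {c : ℝ} (hc : (2 * v + 3 * w) * Fintype.card (Lt (Fin n)) +
      3 * w * (Fintype.card (Lt (Fin n)) : ℝ) ^ 2 ≤ c) (M : As (Fin n)) {e e2 : ℝ}
    (he : 1 / (muq q * (n + 1)) ≤ e) (he2 : 8 * v + 24 * w + 48 * n * w ≤ e2) :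
    ss q M * ∑ p : Cl (Fin n), gq v w 1 p * GA v w 1 (fun g => sd2 q g (Md {p}) M ^ 2) ≤
      4 * Real.exp (2 * c) * cav v w (D3pG q v w) n M +
        (2 * c * e2 + c * (Real.exp c + 1) * e) * ss q M + 2 * c * e2 * e + 32 * c * e ^ 2 := by
  have hmu := D.muq_pos hq hq1
  have hc0 : 0 ≤ c := le_trans (by positivity) hc
  have he0 : 0 ≤ e := le_trans (by positivity) he
  have he20 : 0 ≤ e2 := le_trans (by positivity) he2
  have hgq : ∀ p : Cl (Fin n), 0 ≤ gq v w 1 p := B2.gq_nonneg hv hw zero_le_one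
  have hG : ∀ (i : Fin (n + 1)) (A B : As (Fin n)) (a : Lt (Fin (n + 1))),
      0 ≤ D3pG q v w (n + 1) (jn i M A B) a := fun i A B a => D3pG_nonneg hq hq1 hv hw _ _
  have hcav0 : 0 ≤ cav v w (D3pG q v w) n M := by
    unfold cav
    refine div_nonneg (Finset.sum_nonneg fun a _ => ?_) (Nat.cast_nonneg _)
    exact B2.GA_nonneg hv hw zero_le_one fun A => B2.GA_nonneg hv hw zero_le_one fun B =>
      hG _ _ _ _
  have hs := D.ss_nonneg hq.le hq1 M
  by_cases hM : M = ∅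
  · rw [hM, D.ss_empty hq.le hq1, ← hM]
    have h1 : 0 ≤ 4 * Real.exp (2 * c) * cav v w (D3pG q v w) n M := by positivity
    have h2 : 0 ≤ 2 * c * e2 * e := by positivity
    have h3 : 0 ≤ 32 * c * e ^ 2 := by positivity
    linarith
  set Q := ∑ p : Cl (Fin n), gq v w 1 p * GA v w 1 (fun g => sd2 q g (Md {p}) M ^ 2) with hQ
  have hQle : Q ≤ c * (Real.exp c + 1) * ss q M := D3p_Q_le hq hq1 hmu1 hv hw hc M hM
  have hQ0 : 0 ≤ Q := Finset.sum_nonneg fun p _ => mul_nonneg (hgq p)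
    (B2.GA_nonneg hv hw zero_le_one fun _ => sq_nonneg _)
  have hone : ∀ i : Fin (n + 1), ss q M * Q ≤ 2 * (∑ p : Cl (Fin n), gq v w 1 p *
      D3pG q v w (n + 1) (jn i M Set.univ (Md {p})) (i, true)) +
      c * (2 * e2 * (ss q M + e) + 32 * e ^ 2) + e * Q := by
    intro i
    have h1 : ss q M * Q ≤ ∑ p : Cl (Fin n), gq v w 1 p *
        (2 * D3pG q v w (n + 1) (jn i M Set.univ (Md {p})) (i, true) +
          (2 * e2 * (ss q M + e) + 32 * e ^ 2) +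
          e * GA v w 1 (fun g => sd2 q g (Md {p}) M ^ 2)) := by
      rw [hQ, Finset.mul_sum]
      refine Finset.sum_le_sum fun p _ => ?_
      have h2 := D3p_one hq hq1 hv hw i M (Md {p}) he he2
      calc ss q M * (gq v w 1 p * GA v w 1 (fun g => sd2 q g (Md {p}) M ^ 2)) =
            gq v w 1 p * (ss q M * GA v w 1 (fun g => sd2 q g (Md {p}) M ^ 2)) := by ring
        _ ≤ _ := mul_le_mul_of_nonneg_left (by linarith) (hgq p)
    refine h1.trans ?_
    have h3 : ∑ p : Cl (Fin n), gq v w 1 p *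
        (2 * D3pG q v w (n + 1) (jn i M Set.univ (Md {p})) (i, true) +
          (2 * e2 * (ss q M + e) + 32 * e ^ 2) +
          e * GA v w 1 (fun g => sd2 q g (Md {p}) M ^ 2)) =
        2 * (∑ p : Cl (Fin n), gq v w 1 p *
          D3pG q v w (n + 1) (jn i M Set.univ (Md {p})) (i, true)) +
        (∑ p : Cl (Fin n), gq v w 1 p) * (2 * e2 * (ss q M + e) + 32 * e ^ 2) + e * Q := by
      rw [hQ, Finset.mul_sum, Finset.mul_sum, Finset.sum_mul, ← Finset.sum_add_distrib,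
        ← Finset.sum_add_distrib]
      exact Finset.sum_congr rfl fun p _ => by ring
    rw [h3, D3p_sumq]
    have h4 : 0 ≤ 2 * e2 * (ss q M + e) + 32 * e ^ 2 := by positivity
    have h5 := mul_le_mul_of_nonneg_right hc h4
    linarith
  set R := (ss q M * Q - c * (2 * e2 * (ss q M + e) + 32 * e ^ 2) - e * Q) / 2 with hRdef
  have heQ : e * Q ≤ e * (c * (Real.exp c + 1) * ss q M) := mul_le_mul_of_nonneg_left hQle he0
  rcases le_total R 0 with hR | hR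
  · have h1 : 0 ≤ 4 * Real.exp (2 * c) * cav v w (D3pG q v w) n M := by positivity
    nlinarith
  · have h1 := D3p_cav hq hq1 hv hw hc M (R := R) (fun i => by
      have := hone i
      rw [hRdef]
      linarith) hR
    nlinarith

end point

/-! ### The bracket -/

theorem D3p_avL {n : ℕ} [Nonempty (Fin n)] {q v w : ℝ} (hq : 0 < q) (hq1 : q < 1) (hv : 0 ≤ v)
    (hw : 0 ≤ w) (S : As (Fin n)) : 0 ≤ avL (D3pG q v w) n S ∧
      avL (D3pG q v w) n S ≤ GA v w 1 (fun g => vv q S * SD q g S) ∧ avL (D3pG q v w) n S ≤ 1 := by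
  have hcard := Sys.card_pos' (L := Lt (Fin n))
  have hs := D.ss_nonneg hq.le hq1 S
  have e1 : avL (D3pG q v w) n S = ss q S * GA v w 1 (fun g => SD q g S) := by
    unfold avL D3pG SD
    rw [← Finset.mul_sum, mul_div_assoc]
    congr 1
    rw [← B2.GA_sum, div_eq_inv_mul, ← B2.GA_mul]
    congr 1
    funext g
    rw [div_eq_inv_mul]
  have hSD1 : ∀ g : As (Fin n), SD q g S ≤ 1 := by
    intro g
    unfold SD
    rw [div_le_one hcard]
    have : ∑ a : Lt (Fin n), sd2 q g (lit a) S ^ 2 ≤ ∑ _a : Lt (Fin n), (1 : ℝ) :=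
      Finset.sum_le_sum fun a _ => D3p_sd2_sq_le hq hq1 g (lit a) S
    simpa using this
  have hX0 : 0 ≤ GA v w 1 (fun g => SD q g S) := B2.GA_nonneg hv hw zero_le_one fun g =>
    D.SD_nonneg g S
  have hX1 : GA v w 1 (fun g => SD q g S) ≤ 1 := by
    have := B2.GA_mono hv hw zero_le_one (Φ := fun g => SD q g S) (Ψ := fun _ => 1) hSD1
    rwa [B2.GA_const] at this
  refine ⟨?_, ?_, ?_⟩
  · rw [e1]; exact mul_nonneg hs hX0
  · rw [e1, B2.GA_mul]
    exact mul_le_mul_of_nonneg_right (D.ss_le_vv S) hX0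
  · rw [e1]
    have := mul_le_mul (D.ss_le_one hq.le hq1 S) hX1 hX0 zero_le_one
    linarith

/-- **Additivity between one gadget and one piece**, from the additivity `h3` between one gadget and
one unit. -/
theorem D3p {q x Y : ℝ} (hq : 0 < q) (hq1 : q < 1) (hmu1 : muq q ≤ 1) (hx : 1 / 2 ≤ x)
    (hx1 : x ≤ 1) (hY : Y ≤ 1) (C : Cen x Y) {K3 : ℝ} (hK3 : 0 ≤ K3)
    (h3 : ∀ᶠ k in atTop, Br (C.N k) x (C.y k) (fun n S =>
      GA (Iv (C.N k) x) (Iw (C.N k) (C.y k)) 1 (fun g => vv q S * SD q g S)) ≤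
        K3 * mm q (C.N k) x (C.y k)) {ε : ℝ} (hε : 0 < ε) :
    ∀ᶠ k in atTop, Br (C.N k) x (C.y k) (fun n S => ss q S * ∑ p : Cl (Fin n),
      gq (Iv (C.N k) x) (Iw (C.N k) (C.y k)) 1 p *
        GA (Iv (C.N k) x) (Iw (C.N k) (C.y k)) 1 (fun g => sd2 q g (Md {p}) S ^ 2)) ≤
      (4 * Real.exp 8 * K3 + ε) * mm q (C.N k) x (C.y k) := by
  have hmu := D.muq_pos hq hq1
  have hx0 : 0 ≤ x := by linarith
  set E8 : ℝ := Real.exp (2 * 4) with hE8
  have hE80 : 0 < E8 := Real.exp_pos _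
  set ε1 : ℝ := ε / (4 * E8 * (K3 + 2) + 2) with hε1
  have hden : 0 < 4 * E8 * (K3 + 2) + 2 := by positivity
  have hε1p : 0 < ε1 := div_pos hε hden
  have hε1e : ε1 * (4 * E8 * (K3 + 2) + 2) = ε := by rw [hε1]; field_simp
  set c1 : ℝ := 2 * 4 * 17 + 4 * (Real.exp 4 + 1) * (2 / muq q) with hc1
  set c2 : ℝ := 2 * 4 * 17 * (2 / muq q) + 32 * 4 * (2 / muq q) ^ 2 with hc2
  have hc10 : 0 ≤ c1 := by positivity
  have hc20 : 0 ≤ c2 := by positivity
  filter_upwards [h3, C.hN.eventually A0_window, A0_param C (ε := 1 / 4) (by norm_num),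
    A2_add hq hq1 hx0 C (K := c1) hε1p, A2_add hq hq1 hx0 C (K := c2) hε1p,
    A6_cavity hq hq1 hx hx1 hY C hε1p, A3_shift hq hq1 hx0 C hε1p] with k k3 kw kp ka1 ka2 kc ks
  have hN1 : 1 ≤ C.N k := C.N1 k
  have hNr : (1 : ℝ) ≤ C.N k := by exact_mod_cast hN1
  have hNp : (0 : ℝ) < C.N k := by linarith
  have hy0 := C.y0 k
  have hy1 : C.y k ≤ 1 := (C.yY k).trans hY
  set v := Iv (C.N k) x with hv
  set w := Iw (C.N k) (C.y k) with hw
  have hv0 : 0 ≤ v := B2.Iv_nonneg hx0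
  have hw0 : 0 ≤ w := B2.Iw_nonneg hy0
  set m := mm q (C.N k) x (C.y k) with hm
  set N := C.N k with hN
  have hm0 : 0 ≤ m := B2.Br_nonneg hx0 hy0 fun n hn S => sq_nonneg _
  -- bounds for the intensities in the window
  have hwin : ∀ n ∈ Finset.Icc (N - MW N) (N + MW N), 1 ≤ n ∧ (N : ℝ) ≤ 2 * n ∧
      (n : ℝ) + 1 ≤ 2 * N ∧ (2 * v + 3 * w) * Fintype.card (Lt (Fin n)) +
        3 * w * (Fintype.card (Lt (Fin n)) : ℝ) ^ 2 ≤ 4 := by
    intro n hn
    have h1 := kw.2.1 n hn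
    have h2 : 1 ≤ n := by omega
    have h4 : (N : ℝ) ≤ 2 * n := by exact_mod_cast h1.1
    have h5 : (n : ℝ) + 1 ≤ 2 * N := by exact_mod_cast h1.2
    refine ⟨h2, h4, h5, ?_⟩
    have h6 := kp n hn
    have h7 := (abs_le.1 h6.1).2
    have h8 := (abs_le.1 h6.2).2
    rw [Lift_card]
    nlinarith
  -- the pointwise inequality
  have hpt : ∀ n ∈ Finset.Icc (N - MW N) (N + MW N), ∀ S : As (Fin n),
      ss q S * ∑ p : Cl (Fin n), gq v w 1 p * GA v w 1 (fun g => sd2 q g (Md {p}) S ^ 2) ≤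
      4 * E8 * cav v w (D3pG q v w) n S + (c1 / N * ss q S + c2 / N ^ 2 * 1) := by
    intro n hn S
    obtain ⟨g1, g2, g3, g4⟩ := hwin n hn
    have := D.neF g1
    have hnn : (0 : ℝ) ≤ n := Nat.cast_nonneg n
    have he : 1 / (muq q * ((n : ℝ) + 1)) ≤ 2 / muq q / N := by
      rw [div_div, div_le_div_iff₀ (by positivity) (by positivity)]
      nlinarith
    have he2 : 8 * v + 24 * w + 48 * n * w ≤ 17 / N := by
      have e1 : v = x / (4 * N) := rfl
      have e2 : w = C.y k / (8 * (N : ℝ) ^ 2) := rfl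
      rw [e1, e2, le_div_iff₀ hNp]
      have e3 : (8 * (x / (4 * N)) + 24 * (C.y k / (8 * (N : ℝ) ^ 2)) +
          48 * n * (C.y k / (8 * (N : ℝ) ^ 2))) * N =
          2 * x + 3 * (C.y k / N) + 6 * C.y k * (n / N) := by
        field_simp
        ring
      rw [e3]
      have e4 : C.y k / N ≤ 1 := by rw [div_le_one hNp]; linarith
      have e5 : (n : ℝ) / N ≤ 2 := by rw [div_le_iff₀ hNp]; linarith
      have e6 : 0 ≤ (n : ℝ) / N := by positivity
      have e7 : C.y k * (n / N) ≤ 1 * 2 := mul_le_mul hy1 e5 e6 zero_le_one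
      linarith
    have h1 := D3p_point hq hq1 hmu1 hv0 hw0 g4 S he he2
    refine h1.trans (le_of_eq ?_)
    rw [hc1, hc2, hE8]
    ring
  have hBr : Br N x (C.y k) (fun n S => ss q S * ∑ p : Cl (Fin n), gq v w 1 p *
      GA v w 1 (fun g => sd2 q g (Md {p}) S ^ 2)) ≤
      4 * E8 * Br N x (C.y k) (cav v w (D3pG q v w)) +
        (c1 / N * Br N x (C.y k) (fun _ S => ss q S) +
          c2 / N ^ 2 * Br N x (C.y k) (fun _ _ => 1)) := by
    refine (B2.Br_mono hx0 hy0 hpt).trans (le_of_eq ?_)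
    rw [B2.Br_add, B2.Br_add, B2.Br_mul, B2.Br_mul, B2.Br_mul]
  -- the cavity
  have hG : ∀ n S a, |D3pG q v w n S a| ≤ ss q S + ss q (S ∩ lit a) := by
    intro n S a
    have : Nonempty (Fin n) := ⟨a.1⟩
    rw [abs_of_nonneg (D3pG_nonneg hq hq1 hv0 hw0 S a)]
    have h1 := D.ss_nonneg hq.le hq1 (S ∩ lit a)
    have h2 : GA v w 1 (fun g => sd2 q g (lit a) S ^ 2) ≤ 1 := by
      have := B2.GA_mono hv0 hw0 zero_le_one (Φ := fun g => sd2 q g (lit a) S ^ 2)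
        (Ψ := fun _ => 1) (fun g => D3p_sd2_sq_le hq hq1 g (lit a) S)
      rwa [B2.GA_const] at this
    have h3 := mul_le_mul_of_nonneg_left h2 (D.ss_nonneg hq.le hq1 S)
    have h4 : D3pG q v w n S a = ss q S * GA v w 1 (fun g => sd2 q g (lit a) S ^ 2) := rfl
    linarith
  have hc := (abs_le.1 (kc (D3pG q v w) hG)).1
  have hB1 : B1 (avL (D3pG q v w)) := by
    intro n S
    rcases Nat.eq_zero_or_pos n with h0 | h0
    · subst h0
      have : avL (D3pG q v w) 0 S = 0 := by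
        unfold avL
        simp
      rw [this, abs_zero]
      exact zero_le_one
    · have := D.neF h0
      have h1 := D3p_avL hq hq1 hv0 hw0 S
      rw [abs_of_nonneg h1.1]
      exact h1.2.2
  have hs := (abs_le.1 (ks (avL (D3pG q v w)) hB1)).2
  have habs : Br N x (C.y k) (fun n S => |avL (D3pG q v w) n S|) ≤ K3 * m := by
    refine le_trans (B2.Br_mono hx0 hy0 fun n hn S => ?_) k3
    have := D.neF (hwin n hn).1
    have h1 := D3p_avL hq hq1 hv0 hw0 S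
    rw [abs_of_nonneg h1.1]
    exact h1.2.1
  have hav : Br N x (C.y k) (avL (D3pG q v w)) ≤ K3 * m := by
    refine le_trans (B2.Br_mono hx0 hy0 fun n hn S => ?_) k3
    have := D.neF (hwin n hn).1
    exact (D3p_avL hq hq1 hv0 hw0 S).2.1
  have hcav : Br N x (C.y k) (cav v w (D3pG q v w)) ≤ K3 * m + ε1 * (K3 * m + m) + ε1 * m := by
    have h1 : ε1 * (Br N x (C.y k) (fun n S => |avL (D3pG q v w) n S|) + m) ≤
        ε1 * (K3 * m + m) := mul_le_mul_of_nonneg_left (by linarith) hε1p.le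
    linarith
  -- the errors
  have hmass : Br N x (C.y k) (fun _ _ => (1 : ℝ)) =
      ∑ n ∈ Finset.Icc (N - MW N) (N + MW N), Wt N n := by
    unfold Br
    refine Finset.sum_congr rfl fun n _ => ?_
    rw [B2.En_const, mul_one]
  have hr1 : 1 / (N : ℝ) ≤ (N : ℝ) ^ (-(4 / 5) : ℝ) := by
    rw [one_div, ← Real.rpow_neg_one]
    exact Real.rpow_le_rpow_of_exponent_le hNr (by norm_num)
  have hr2 : 1 / (N : ℝ) ^ 2 ≤ (N : ℝ) ^ (-(7 / 4) : ℝ) := by
    have : 1 / (N : ℝ) ^ 2 = (N : ℝ) ^ (-2 : ℝ) := by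
      rw [Real.rpow_neg hNp.le, one_div]
      norm_cast
    rw [this]
    exact Real.rpow_le_rpow_of_exponent_le hNr (by norm_num)
  have hss0 : 0 ≤ Br N x (C.y k) (fun _ S => ss q S) := B2.Br_nonneg hx0 hy0 fun n hn S => by
    have := D.neF (hwin n hn).1
    exact D.ss_nonneg hq.le hq1 S
  have hma0 : 0 ≤ ∑ n ∈ Finset.Icc (N - MW N) (N + MW N), Wt N n :=
    Finset.sum_nonneg fun n _ => B2.Wt_nonneg N n
  have hE1 : c1 / N * Br N x (C.y k) (fun _ S => ss q S) ≤ ε1 * m := by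
    refine le_trans ?_ ka1.2
    have h1 : c1 / N = c1 * (1 / N) := by ring
    rw [h1, mul_assoc]
    exact mul_le_mul_of_nonneg_left (mul_le_mul_of_nonneg_right hr1 hss0) hc10
  have hE2 : c2 / N ^ 2 * Br N x (C.y k) (fun _ _ => 1) ≤ ε1 * m := by
    refine le_trans ?_ ka2.1
    have h1 : c2 / (N : ℝ) ^ 2 = c2 * (1 / (N : ℝ) ^ 2) := by ring
    rw [h1, mul_assoc, hmass]
    exact mul_le_mul_of_nonneg_left (mul_le_mul_of_nonneg_right hr2 hma0) hc20
  have hE : Real.exp 8 = E8 := by rw [hE8]; norm_num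
  rw [hE]
  have hfin : 4 * E8 * Br N x (C.y k) (cav v w (D3pG q v w)) ≤
      4 * E8 * (K3 * m + ε1 * (K3 * m + m) + ε1 * m) :=
    mul_le_mul_of_nonneg_left hcav (by positivity)
  have hfin2 : 4 * E8 * (K3 * m + ε1 * (K3 * m + m) + ε1 * m) + (ε1 * m + ε1 * m) =
      (4 * E8 * K3 + ε1 * (4 * E8 * (K3 + 2) + 2)) * m := by ring
  rw [hε1e] at hfin2
  linarith

end Pool.Agent.Lib.MP_9cae81_PC
end

section

/-!
# (H4), (H5), (H6)

`H5_of`: the second moment; `h6_of`: the mass of `v³`; `H4_ev`: the additivity defects.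
-/

set_option autoImplicit false
set_option linter.unusedSectionVars false

open Finset Filter
open scoped BigOperators Topology

namespace Pool.Agent.Lib.MP_9cae81_PC

open Pool.Agent.Lib.MP_9cae81_R

/-- (H5): second moment of the marks. -/
theorem H5_of {q : ℝ} (hq : 0 < q) (hq1 : q < 1) {N : ℕ} {x y K ε : ℝ} (H : DH q N x y K ε) :
    Br N x y (H5f hq hq1) ≤ K * mm q N x y := by
  have hmu := D.muq_pos hq hq1
  have h1 : Br N x y (H5f hq hq1) ≤
      Br N x y (fun n S => (1 / muq q ^ 2) * (vv q S * (AS (Fin n)).Gm q S)) := by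
    refine B2.Br_mono H.x0 H.y0 fun n hn S => ?_
    obtain ⟨n', rfl⟩ : ∃ n', n = n' + 1 := ⟨n - 1, by have := H.win n hn; omega⟩
    show ss q S ^ 3 * Av (fun a => (PFS hq hq1 S).d a ^ 2) ≤ _
    rw [PFS_Av_dsq]
    have hG := (AS (Fin (n' + 1))).Gm_nonneg (q := q) S
    by_cases hS : S = ∅
    · rw [hS, D.ss_empty hq.le hq1, ← hS]
      have := vv_nonneg hq.le hq1 S
      have h0 : 0 ≤ (1 / muq q ^ 2) * (vv q S * (AS (Fin (n' + 1))).Gm q S) := by positivity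
      simpa using h0
    · have hV := vv_pos hq hq1 S
      rw [D.ss_of_ne hS]
      refine le_of_eq ?_
      field_simp
  refine h1.trans ?_
  rw [B2.Br_mul]
  have h2 := mul_le_mul_of_nonneg_left H.B2d (show 0 ≤ 1 / muq q ^ 2 by positivity)
  refine h2.trans (le_of_eq ?_)
  field_simp

/-- (H6): the mass of `v³`. -/
theorem h6_of {q : ℝ} {N : ℕ} {x y K ε : ℝ} (H : DH q N x y K ε) (hK : 6 * K * muq q ≤ 1 / 2) :
    1 / 2 * mm q N x y ≤ Br N x y (fun _ S => ss q S ^ 3) := by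
  have h1 := (abs_le.1 H.D4).1
  have h2 := mul_le_mul_of_nonneg_right hK H.mm0
  linarith

/-- Elementary: `z^s ≤ λ + λ^(1 - 2/s) z²`. -/
theorem H4_young {s z l : ℝ} (hs : 0 < s) (hz : 0 ≤ z) (hl : 0 < l) (hs2 : s ≤ 2) :
    z ^ s ≤ l + l ^ (1 - 2 / s) * z ^ 2 := by
  have h0 : 0 ≤ l ^ (1 - 2 / s) * z ^ 2 := by positivity
  rcases le_total (z ^ s) l with h | h
  · linarith
  · have hz0 : 0 < z := by
      rcases hz.lt_or_eq with h' | h'
      · exact h'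
      · exfalso
        rw [← h', Real.zero_rpow hs.ne'] at h
        linarith
    have hzs : 0 < z ^ s := Real.rpow_pos_of_pos hz0 s
    -- `l^(1-2/s) ≥ (z^s)^(1-2/s)` as the exponent is nonpositive
    have hexp : 1 - 2 / s ≤ 0 := by
      have : 1 ≤ 2 / s := by rw [le_div_iff₀ hs]; linarith
      linarith
    have h1 : (z ^ s) ^ (1 - 2 / s) ≤ l ^ (1 - 2 / s) := Real.rpow_le_rpow_of_nonpos hl h hexp
    have h2 : (z ^ s) ^ (1 - 2 / s) * z ^ 2 = z ^ s := by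
      rw [← Real.rpow_natCast z 2, ← Real.rpow_mul hz, ← Real.rpow_add hz0]
      congr 1
      have : s ≠ 0 := hs.ne'
      push_cast
      field_simp
      ring
    have h3 : (z ^ s) ^ (1 - 2 / s) * z ^ 2 ≤ l ^ (1 - 2 / s) * z ^ 2 :=
      mul_le_mul_of_nonneg_right h1 (by positivity)
    linarith

/-- The pointwise bound for (H4). -/
theorem H4_point {V : Type} [Fintype V] [Nonempty V] [DecidableEq V] {q : ℝ} (hq : 0 < q)
    (hq1 : q < 1) {v w s l c : ℝ} (hs : 0 < s) (hs2 : s ≤ 2) (hl : 0 < l) (hv : 0 ≤ v)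
    (hw : 0 ≤ w) (hc : (2 * v + 3 * w) * Fintype.card (Lt V) +
      3 * w * (Fintype.card (Lt V) : ℝ) ^ 2 ≤ c) (S : As V) :
    ss q S ^ 3 * (PFS hq hq1 S).Er (gq v w 1) s ≤ c * l * ss q S ^ 2 +
      l ^ (1 - 2 / s) / muq q ^ 2 * (ss q S * ∑ p : Cl V, gq v w 1 p *
        GA v w 1 (fun g => sd2 q g (Md {p}) S ^ 2)) := by
  have hmu := D.muq_pos hq hq1
  have hc0 : 0 ≤ c := le_trans (by positivity) hc
  have hgq : ∀ p : Cl V, 0 ≤ gq v w 1 p := B2.gq_nonneg hv hw zero_le_one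
  by_cases hS : S = ∅
  · rw [hS, D.ss_empty hq.le hq1]
    simp
  have hV := vv_pos hq hq1 S
  have hV1 : vv q S ≤ 1 := vv_le_one hq.le hq1 S
  rw [D.ss_of_ne hS]
  set U := vv q S with hU
  unfold PF.Er
  have h1 : ∀ p : Cl V, EE (gq v w 1) (fun g => ((PFS hq hq1 S).e g p) ^ s) ≤
      l + l ^ (1 - 2 / s) / (muq q * U) ^ 2 * GA v w 1 (fun g => sd2 q g (Md {p}) S ^ 2) := by
    intro p
    have e1 : l + l ^ (1 - 2 / s) / (muq q * U) ^ 2 *
        GA v w 1 (fun g => sd2 q g (Md {p}) S ^ 2) =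
        EE (gq v w 1) (fun g : Finset (Cl V) =>
          l + l ^ (1 - 2 / s) / (muq q * U) ^ 2 * sd2 q (Md g) (Md {p}) S ^ 2) := by
      rw [EE_add, EE_const, EE_mul_left]
      rfl
    rw [e1]
    refine EE_mono hgq fun g => ?_
    rw [PFS_e]
    have h2 := H4_young (s := s) (z := |sd2 q (Md g) (Md {p}) S| / (muq q * U)) hs
      (by positivity) hl hs2
    refine h2.trans (le_of_eq ?_)
    rw [div_pow, sq_abs]
    ring
  have h3 : ∑ p : Cl V, gq v w 1 p * EE (gq v w 1) (fun g => ((PFS hq hq1 S).e g p) ^ s) ≤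
      ∑ p : Cl V, gq v w 1 p * (l + l ^ (1 - 2 / s) / (muq q * U) ^ 2 *
        GA v w 1 (fun g => sd2 q g (Md {p}) S ^ 2)) :=
    Finset.sum_le_sum fun p _ => mul_le_mul_of_nonneg_left (h1 p) (hgq p)
  have h4 : ∑ p : Cl V, gq v w 1 p * (l + l ^ (1 - 2 / s) / (muq q * U) ^ 2 *
        GA v w 1 (fun g => sd2 q g (Md {p}) S ^ 2)) =
      (∑ p : Cl V, gq v w 1 p) * l + l ^ (1 - 2 / s) / (muq q * U) ^ 2 *
        ∑ p : Cl V, gq v w 1 p * GA v w 1 (fun g => sd2 q g (Md {p}) S ^ 2) := by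
    rw [Finset.sum_mul, Finset.mul_sum, ← Finset.sum_add_distrib]
    exact Finset.sum_congr rfl fun p _ => by ring
  rw [h4, D3p_sumq] at h3
  set Q := ∑ p : Cl V, gq v w 1 p * GA v w 1 (fun g => sd2 q g (Md {p}) S ^ 2) with hQ
  have h5 := mul_le_mul_of_nonneg_left h3 (show 0 ≤ U ^ 3 by positivity)
  refine h5.trans ?_
  have h6 : U ^ 3 * (((2 * v + 3 * w) * Fintype.card (Lt V) +
      3 * w * (Fintype.card (Lt V) : ℝ) ^ 2) * l) ≤ c * l * U ^ 2 := by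
    have h7 : U ^ 3 ≤ U ^ 2 := pow_le_pow_of_le_one hV.le hV1 (by norm_num)
    have h8 := mul_le_mul_of_nonneg_right hc hl.le
    calc _ ≤ U ^ 3 * (c * l) := mul_le_mul_of_nonneg_left h8 (by positivity)
      _ ≤ U ^ 2 * (c * l) := mul_le_mul_of_nonneg_right h7 (by positivity)
      _ = _ := by ring
  have h9 : U ^ 3 * (l ^ (1 - 2 / s) / (muq q * U) ^ 2 * Q) =
      l ^ (1 - 2 / s) / muq q ^ 2 * (U * Q) := by
    field_simp
  rw [mul_add, h9]
  linarith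

/-- **(H4)**: the additivity defects are negligible for small `μ`. -/
theorem H4_ev {s K err : ℝ} (hs0 : 0 < s) (hs1 : s ≤ 1) (hK : 0 ≤ K) (herr : 0 < err) :
    ∃ μ0 : ℝ, 0 < μ0 ∧ ∀ (q : ℝ) (hq : 0 < q) (hq1 : q < 1), muq q ≤ μ0 → muq q ≤ 1 →
      ∀ (x Y : ℝ), 1 / 2 ≤ x → x ≤ 1 → Y ≤ 1 → ∀ (C : Cen x Y) (ε : ℕ → ℝ),
        (∀ᶠ k in atTop, DH q (C.N k) x (C.y k) K (ε k)) →
        ∀ᶠ k in atTop, Br (C.N k) x (C.y k)
          (H4f hq hq1 s (Iv (C.N k) x) (Iw (C.N k) (C.y k))) ≤ err * mm q (C.N k) x (C.y k) := by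
  set l : ℝ := err / 16 with hl
  have hl0 : 0 < l := by positivity
  set P : ℝ := l ^ (1 - 2 / s) with hP
  have hP0 : 0 < P := Real.rpow_pos_of_pos hl0 _
  set B : ℝ := 2400 * Real.exp 8 * (K + 1) * P with hB
  have hB0 : 0 < B := by positivity
  refine ⟨(err / (4 * B)) ^ 2, by positivity, ?_⟩
  intro q hq hq1 hmu0 hmu1 x Y hx hx1 hY C ε hDH
  have hmu := D.muq_pos hq hq1
  have hx0 : 0 ≤ x := by linarith
  set μ := muq q with hμ
  have hsq : Real.sqrt μ ≤ err / (4 * B) := Real.sqrt_le_iff.2 ⟨by positivity, hmu0⟩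
  have hsq0 : 0 ≤ Real.sqrt μ := Real.sqrt_nonneg μ
  set K3 : ℝ := 600 * K * μ ^ 2 * Real.sqrt μ with hK3
  have hK30 : 0 ≤ K3 := by positivity
  set ε' : ℝ := μ ^ 2 * (err / (4 * P)) with hε'
  have hε'0 : 0 < ε' := by positivity
  have h3 : ∀ᶠ k in atTop, Br (C.N k) x (C.y k) (fun n S =>
      GA (Iv (C.N k) x) (Iw (C.N k) (C.y k)) 1 (fun g => vv q S * SD q g S)) ≤
        K3 * mm q (C.N k) x (C.y k) := by
    filter_upwards [hDH] with k hk
    exact hk.D3a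
  filter_upwards [D3p hq hq1 hmu1 hx hx1 hY C hK30 h3 hε'0, hDH] with k k3 H
  have hm0 := H.mm0
  have h1 : Br (C.N k) x (C.y k) (H4f hq hq1 s (Iv (C.N k) x) (Iw (C.N k) (C.y k))) ≤
      Br (C.N k) x (C.y k) (fun n S => 4 * l * ss q S ^ 2 + P / μ ^ 2 *
        (ss q S * ∑ p : Cl (Fin n), gq (Iv (C.N k) x) (Iw (C.N k) (C.y k)) 1 p *
          GA (Iv (C.N k) x) (Iw (C.N k) (C.y k)) 1 (fun g => sd2 q g (Md {p}) S ^ 2))) := by
    refine B2.Br_mono H.x0 H.y0 fun n hn S => ?_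
    have hc2 := H.hc2 n hn
    have hβ := H.hβ n hn
    obtain ⟨n', rfl⟩ : ∃ n', n = n' + 1 := ⟨n - 1, by have := H.win n hn; omega⟩
    show ss q S ^ 3 * (PFS hq hq1 S).Er (gq (Iv (C.N k) x) (Iw (C.N k) (C.y k)) 1) s ≤ _
    exact H4_point hq hq1 hs0 (by linarith) hl0 H.hv0 H.hw0 (by linarith) S
  rw [B2.Br_add, B2.Br_mul, B2.Br_mul] at h1
  have hmm : Br (C.N k) x (C.y k) (fun _ S => ss q S ^ 2) = mm q (C.N k) x (C.y k) := rfl
  rw [hmm] at h1
  set m := mm q (C.N k) x (C.y k) with hm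
  set Z := Br (C.N k) x (C.y k) (fun n S => ss q S * ∑ p : Cl (Fin n),
    gq (Iv (C.N k) x) (Iw (C.N k) (C.y k)) 1 p *
      GA (Iv (C.N k) x) (Iw (C.N k) (C.y k)) 1 (fun g => sd2 q g (Md {p}) S ^ 2)) with hZ
  have h2 : P / μ ^ 2 * Z ≤ P / μ ^ 2 * ((4 * Real.exp 8 * K3 + ε') * m) :=
    mul_le_mul_of_nonneg_left k3 (by positivity)
  have h4 : P / μ ^ 2 * ((4 * Real.exp 8 * K3 + ε') * m) =
      (2400 * Real.exp 8 * K * P * Real.sqrt μ + err / 4) * m := by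
    rw [hK3, hε']
    field_simp
    ring
  have h5 : 2400 * Real.exp 8 * K * P * Real.sqrt μ ≤ err / 4 := by
    have h6 : 2400 * Real.exp 8 * K * P ≤ B := by
      rw [hB]
      have : 0 ≤ 2400 * Real.exp 8 * P := by positivity
      nlinarith
    calc 2400 * Real.exp 8 * K * P * Real.sqrt μ ≤ B * (err / (4 * B)) :=
          mul_le_mul h6 hsq hsq0 hB0.le
      _ = err / 4 := by field_simp
  have h7 : (2400 * Real.exp 8 * K * P * Real.sqrt μ + err / 4) * m ≤ (err / 4 + err / 4) * m :=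
    mul_le_mul_of_nonneg_right (by linarith) hm0
  have h8 : 4 * l * m = err / 4 * m := by rw [hl]; ring
  nlinarith

end Pool.Agent.Lib.MP_9cae81_PC
end

section

/-!
# Assembly of block C from its single statements
-/

set_option autoImplicit false

open Finset Filter
open scoped BigOperators Topology

namespace Pool.Agent.Lib.MP_9cae81_PC

open Pool.Agent.Lib.MP_9cae81_R

/-- `F` holds for all `q` close enough to `1` (not depending on the sequence), for every sequence,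
eventually. -/
def Ev (x : ℝ) (F : ∀ q : ℝ, 0 < q → q < 1 → ℕ → ℝ → Prop) : Prop :=
  ∃ q0 : ℝ, q0 < 1 ∧ ∀ (q : ℝ) (hq : 0 < q) (hq1 : q < 1), q0 ≤ q →
    ∀ Y : ℝ, Y ≤ 1 → ∀ D : Cen x Y, ∀ᶠ k in atTop, F q hq hq1 (D.N k) (D.y k)

theorem Ev_and {x : ℝ} {F G : ∀ q : ℝ, 0 < q → q < 1 → ℕ → ℝ → Prop} (hF : Ev x F)
    (hG : Ev x G) : Ev x (fun q hq hq1 N y => F q hq hq1 N y ∧ G q hq hq1 N y) := by
  obtain ⟨q1, h1, H1⟩ := hF
  obtain ⟨q2, h2, H2⟩ := hG
  refine ⟨max q1 q2, max_lt h1 h2, fun q hq hq1 hle Y hY D => ?_⟩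
  exact (H1 q hq hq1 (le_trans (le_max_left _ _) hle) Y hY D).and
    (H2 q hq hq1 (le_trans (le_max_right _ _) hle) Y hY D)

theorem Ev_all {x : ℝ} (T : Finset ℝ) {F : ℝ → ∀ q : ℝ, 0 < q → q < 1 → ℕ → ℝ → Prop}
    (hF : ∀ t ∈ T, Ev x (F t)) : Ev x (fun q hq hq1 N y => ∀ t ∈ T, F t q hq hq1 N y) := by
  classical
  induction T using Finset.induction_on with
  | empty =>
    exact ⟨0, by norm_num, fun q hq hq1 _ Y _ D => Eventually.of_forall fun k t ht => by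
      simp at ht⟩
  | insert a s ha ih =>
    obtain ⟨q0, h0, H⟩ := Ev_and (hF a (Finset.mem_insert_self a s))
      (ih fun t ht => hF t (Finset.mem_insert_of_mem ht))
    refine ⟨q0, h0, fun q hq hq1 hle Y hY D => ?_⟩
    filter_upwards [H q hq hq1 hle Y hY D] with k hk
    intro t ht
    rcases Finset.mem_insert.1 ht with rfl | ht
    · exact hk.1
    · exact hk.2 t ht

/-- The assembly: `h1` ... `h6` are the results of block C. -/
theorem blockC_of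
    (h1 : ∀ s δ err : ℝ, 3 / 4 ≤ s → s < 1 → 0 < δ → δ ≤ 1 / 20 → 0 < err →
      Ev (1 - 2 * δ) (fun q hq hq1 N y =>
        Br N (1 - 2 * δ) y (H1f hq hq1 s (Iv N (1 - 2 * δ)) (Iw N y)) ≤
          err * mm q N (1 - 2 * δ) y))
    (h2 : ∀ s δ err : ℝ, 3 / 4 ≤ s → s < 1 → 0 < δ → δ ≤ 1 / 20 → 0 < err →
      Ev (1 - 2 * δ) (fun q hq hq1 N y =>
        Br N (1 - 2 * δ) y (H2f hq hq1 s (Iv N (1 - 2 * δ)) (Iw N y)) ≤
          err * mm q N (1 - 2 * δ) y))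
    (h3 : ∀ t δ err : ℝ, 0 < t → 0 < δ → δ ≤ 1 / 20 → 0 < err →
      Ev (1 - 2 * δ) (fun q hq hq1 N y =>
        Br N (1 - 2 * δ) y (H3f hq hq1 δ t (Iv N (1 - 2 * δ)) (Iw N y)) ≤
          err * mm q N (1 - 2 * δ) y))
    (h4 : ∀ s δ err : ℝ, 3 / 4 ≤ s → s < 1 → 0 < δ → δ ≤ 1 / 20 → 0 < err →
      Ev (1 - 2 * δ) (fun q hq hq1 N y =>
        Br N (1 - 2 * δ) y (H4f hq hq1 s (Iv N (1 - 2 * δ)) (Iw N y)) ≤
          err * mm q N (1 - 2 * δ) y))
    (h5 : ∀ δ : ℝ, 0 < δ → δ ≤ 1 / 20 → ∃ C : ℝ, 0 < C ∧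
      Ev (1 - 2 * δ) (fun q hq hq1 N y =>
        Br N (1 - 2 * δ) y (H5f hq hq1) ≤ C * mm q N (1 - 2 * δ) y))
    (h6 : ∀ δ : ℝ, 0 < δ → δ ≤ 1 / 20 → ∃ c : ℝ, 0 < c ∧
      Ev (1 - 2 * δ) (fun q _ _ N y =>
        c * mm q N (1 - 2 * δ) y ≤ Br N (1 - 2 * δ) y (fun _ S => ss q S ^ 3))) :
    BlockC := by
  intro s hs hs1 δ hδ hδ20
  obtain ⟨C, hC, e5⟩ := h5 δ hδ hδ20
  obtain ⟨c, hc, e6⟩ := h6 δ hδ hδ20
  refine ⟨C, c, hC, hc, fun T hT err herr => ?_⟩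
  have e1 := h1 s δ err hs hs1 hδ hδ20 herr
  have e2 := h2 s δ err hs hs1 hδ hδ20 herr
  have e3 := Ev_all T fun t ht => h3 t δ err (hT t ht) hδ hδ20 herr
  have e4 := h4 s δ err hs hs1 hδ hδ20 herr
  obtain ⟨q0, hq0, H⟩ := Ev_and e1 (Ev_and e2 (Ev_and e3 (Ev_and e4 (Ev_and e5 e6))))
  refine ⟨q0, hq0, fun q hq hq1 hle Y hY D => ?_⟩
  filter_upwards [H q hq hq1 hle Y hY D] with k hk
  obtain ⟨k1, k2, k3, k4, k5, k6⟩ := hk
  refine ⟨?_, k1, k2, k3, k4, k5, k6⟩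
  have hNk : (0 : ℝ) < D.N k := by exact_mod_cast D.N1 k
  have hpos : 0 < q ^ 2 * D.c0 / D.N k := div_pos (mul_pos (by positivity) D.hc) hNk
  exact lt_of_lt_of_le hpos (A2_mm hq hq1 (by linarith) D k)

/-! ### The single statements -/

theorem BC_muq {q μ0 : ℝ} (hq : 0 < q) (hμ : 0 < μ0) (h : 1 / (1 + μ0) ≤ q) : muq q ≤ μ0 := by
  unfold muq
  rw [div_le_iff₀ hq]
  rw [div_le_iff₀ (by linarith)] at h
  linarith

theorem BC_q0 {μ0 : ℝ} (hμ : 0 < μ0) : 1 / (1 + μ0) < 1 := by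
  rw [div_lt_one (by linarith)]
  linarith

/-- The hypotheses `DH`, for `q` close to `1`. -/
theorem BC_DH {δ μ1 : ℝ} (hδ : 0 < δ) (hδ20 : δ ≤ 1 / 20) (hμ1 : 0 < μ1) :
    ∃ q0 : ℝ, q0 < 1 ∧ ∀ (q : ℝ) (_ : 0 < q) (_ : q < 1), q0 ≤ q →
      muq q ≤ μ1 ∧ muq q ≤ 1 / 20 ∧ 6 * KB2 (1 - 2 * δ) * muq q ≤ 1 / 2 ∧
      ∀ Y : ℝ, Y ≤ 1 → ∀ D : Cen (1 - 2 * δ) Y,
        ∀ᶠ k in atTop, DH q (D.N k) (1 - 2 * δ) (D.y k) (KB2 (1 - 2 * δ)) (muq q ^ 3 / 8) := by
  have hK : 1 ≤ KB2 (1 - 2 * δ) := one_le_KB2 (by linarith) (by linarith)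
  have hK0 : 0 < KB2 (1 - 2 * δ) := by linarith
  obtain ⟨μ0, hμ0⟩ : ∃ μ : ℝ, μ = min μ1 (min (1 / 20) (1 / (12 * KB2 (1 - 2 * δ)))) := ⟨_, rfl⟩
  have h1 : 0 < μ0 := by
    rw [hμ0]
    exact lt_min hμ1 (lt_min (by norm_num) (by positivity))
  have h2 : μ0 ≤ μ1 := by rw [hμ0]; exact min_le_left _ _
  have h3 : μ0 ≤ 1 / 20 := by rw [hμ0]; exact le_trans (min_le_right _ _) (min_le_left _ _)
  have h4 : μ0 ≤ 1 / (12 * KB2 (1 - 2 * δ)) := by
    rw [hμ0]; exact le_trans (min_le_right _ _) (min_le_right _ _)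
  refine ⟨1 / (1 + μ0), BC_q0 h1, fun q hq hq1 hle => ?_⟩
  have h5 := BC_muq hq h1 hle
  have h6 : 6 * KB2 (1 - 2 * δ) * muq q ≤ 1 / 2 := by
    have h7 : muq q ≤ 1 / (12 * KB2 (1 - 2 * δ)) := h5.trans h4
    rw [le_div_iff₀ (by positivity)] at h7
    linarith
  refine ⟨h5.trans h2, h5.trans h3, h6, fun Y hY D => ?_⟩
  have hmu : 0 < muq q := by unfold muq; exact div_pos (by linarith) hq
  have h34 : 3 / 4 ≤ q := by
    refine le_trans ?_ hle
    rw [div_le_div_iff₀ (by norm_num) (by linarith)]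
    linarith
  have h8 : KB2 (1 - 2 * δ) * muq q ≤ 1 / 2 := by
    have : 0 ≤ KB2 (1 - 2 * δ) * muq q := by positivity
    linarith
  exact DH_ev h34 hq1 h8 (by linarith) (by linarith) hY D (by positivity) le_rfl

theorem BC_h2 (s δ err : ℝ) (hs : 3 / 4 ≤ s) (hs1 : s < 1) (hδ : 0 < δ) (hδ20 : δ ≤ 1 / 20)
    (herr : 0 < err) :
    Ev (1 - 2 * δ) (fun q hq hq1 N y =>
      Br N (1 - 2 * δ) y (H2f hq hq1 s (Iv N (1 - 2 * δ)) (Iw N y)) ≤
        err * mm q N (1 - 2 * δ) y) :=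
  ⟨0, by norm_num, fun q hq hq1 _ Y hY D =>
    H2_br hq hq1 (by linarith) hs1.le (by linarith) (by linarith) hY D herr⟩

theorem BC_h4 (s δ err : ℝ) (hs : 3 / 4 ≤ s) (hs1 : s < 1) (hδ : 0 < δ) (hδ20 : δ ≤ 1 / 20)
    (herr : 0 < err) :
    Ev (1 - 2 * δ) (fun q hq hq1 N y =>
      Br N (1 - 2 * δ) y (H4f hq hq1 s (Iv N (1 - 2 * δ)) (Iw N y)) ≤
        err * mm q N (1 - 2 * δ) y) := by
  have hK : 1 ≤ KB2 (1 - 2 * δ) := one_le_KB2 (by linarith) (by linarith)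
  obtain ⟨μ0, hμ0, H⟩ := H4_ev (s := s) (K := KB2 (1 - 2 * δ)) (err := err) (by linarith) hs1.le
    (by linarith) herr
  obtain ⟨q0, hq0, H2⟩ := BC_DH hδ hδ20 hμ0
  refine ⟨q0, hq0, fun q hq hq1 hle Y hY D => ?_⟩
  obtain ⟨h1, h2, -, h3⟩ := H2 q hq hq1 hle
  exact H q hq hq1 h1 (by linarith) _ Y (by linarith) (by linarith) hY D
    (fun _ => muq q ^ 3 / 8) (h3 Y hY D)

theorem BC_h5 (δ : ℝ) (hδ : 0 < δ) (hδ20 : δ ≤ 1 / 20) : ∃ C : ℝ, 0 < C ∧
    Ev (1 - 2 * δ) (fun q hq hq1 N y =>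
      Br N (1 - 2 * δ) y (H5f hq hq1) ≤ C * mm q N (1 - 2 * δ) y) := by
  have hK : 1 ≤ KB2 (1 - 2 * δ) := one_le_KB2 (by linarith) (by linarith)
  obtain ⟨q0, hq0, H2⟩ := BC_DH hδ hδ20 one_pos
  refine ⟨KB2 (1 - 2 * δ), by linarith, q0, hq0, fun q hq hq1 hle Y hY D => ?_⟩
  filter_upwards [(H2 q hq hq1 hle).2.2.2 Y hY D] with k hk
  exact H5_of hq hq1 hk

theorem BC_h6 (δ : ℝ) (hδ : 0 < δ) (hδ20 : δ ≤ 1 / 20) : ∃ c : ℝ, 0 < c ∧
    Ev (1 - 2 * δ) (fun q _ _ N y =>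
      c * mm q N (1 - 2 * δ) y ≤ Br N (1 - 2 * δ) y (fun _ S => ss q S ^ 3)) := by
  obtain ⟨q0, hq0, H2⟩ := BC_DH hδ hδ20 one_pos
  refine ⟨1 / 2, by norm_num, q0, hq0, fun q hq hq1 hle Y hY D => ?_⟩
  filter_upwards [(H2 q hq hq1 hle).2.2.2 Y hY D] with k hk
  exact h6_of hk (H2 q hq hq1 hle).2.2.1

theorem BC_h3 (t δ err : ℝ) (ht : 0 < t) (hδ : 0 < δ) (hδ20 : δ ≤ 1 / 20) (herr : 0 < err) :
    Ev (1 - 2 * δ) (fun q hq hq1 N y =>
      Br N (1 - 2 * δ) y (H3f hq hq1 δ t (Iv N (1 - 2 * δ)) (Iw N y)) ≤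
        err * mm q N (1 - 2 * δ) y) := by
  have hK : 1 ≤ KB2 (1 - 2 * δ) := one_le_KB2 (by linarith) (by linarith)
  obtain ⟨K, hKdef⟩ : ∃ K : ℝ, K = KB2 (1 - 2 * δ) := ⟨_, rfl⟩
  rw [← hKdef] at hK
  have hK0 : 0 < K := by linarith
  have hB : 0 < B3C t δ := by unfold B3C; positivity
  obtain ⟨z, hz⟩ : ∃ z : ℝ, z = err / (3000 * B3C t δ * K) := ⟨_, rfl⟩
  have hz0 : 0 < z := by rw [hz]; positivity
  obtain ⟨μ1, hμ1⟩ : ∃ μ : ℝ, μ = min (err * δ / 600) (z ^ 4) := ⟨_, rfl⟩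
  have hμ1p : 0 < μ1 := by rw [hμ1]; exact lt_min (by positivity) (by positivity)
  obtain ⟨q0, hq0, H2⟩ := BC_DH hδ hδ20 hμ1p
  refine ⟨q0, hq0, fun q hq hq1 hle Y hY D => ?_⟩
  obtain ⟨h1, h2, -, h3⟩ := H2 q hq hq1 hle
  have hDH := h3 Y hY D
  rw [← hKdef] at hDH
  have hmu : 0 < muq q := by unfold muq; exact div_pos (by linarith) hq
  have hm1 : muq q ≤ err * δ / 600 := h1.trans (by rw [hμ1]; exact min_le_left _ _)
  have hm2 : muq q ≤ z ^ 4 := h1.trans (by rw [hμ1]; exact min_le_right _ _)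
  have hm3 : muq q ^ (1 / 4 : ℝ) ≤ z := by
    have h4 : muq q ^ (1 / 4 : ℝ) ≤ (z ^ 4) ^ (1 / 4 : ℝ) :=
      Real.rpow_le_rpow hmu.le hm2 (by norm_num)
    have h5 : (z ^ 4) ^ (1 / 4 : ℝ) = z := by
      rw [← Real.rpow_natCast, ← Real.rpow_mul hz0.le]
      norm_num
    rwa [h5] at h4
  have hd : ∀ᶠ k in atTop, Br (D.N k) (1 - 2 * δ) (D.y k) (fun _ M =>
      GA (Iv (D.N k) (1 - 2 * δ)) (Iw (D.N k) (D.y k)) 1 (fun A =>
        GA (Iv (D.N k) (1 - 2 * δ)) (Iw (D.N k) (D.y k)) 1 (fun B =>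
          |ss q (M ∩ (A ∪ B)) ^ 3 - ss q M ^ 3|))) ≤
            (600 * muq q) * mm q (D.N k) (1 - 2 * δ) (D.y k) := by
    filter_upwards [hDH] with k hk
    exact H3d_DH hk
  have he : ∀ᶠ k in atTop, Br (D.N k) (1 - 2 * δ) (D.y k) (fun _ M =>
      GA (Iv (D.N k) (1 - 2 * δ)) (Iw (D.N k) (D.y k)) 1 (fun A =>
        GA (Iv (D.N k) (1 - 2 * δ)) (Iw (D.N k) (D.y k)) 1 (fun B => X3 q M A B))) ≤
          (500 * K * muq q ^ (1 / 4 : ℝ)) * mm q (D.N k) (1 - 2 * δ) (D.y k) := by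
    filter_upwards [hDH] with k hk
    exact H3e_DH hk
  have h6 := H3_of (by linarith : (1 : ℝ) / 2 ≤ 1 - 2 * δ) (by linarith) hY D hq hq1 (by linarith)
    ht hδ hd he (by positivity : 0 < err / 3)
  filter_upwards [h6, hDH] with k hk hk2
  refine hk.trans (mul_le_mul_of_nonneg_right ?_ hk2.mm0)
  have a1 : 1 / (3 * δ) * (600 * muq q) ≤ err / 3 := by
    have : 1 / (3 * δ) * (600 * muq q) ≤ 1 / (3 * δ) * (600 * (err * δ / 600)) :=
      mul_le_mul_of_nonneg_left (by linarith) (by positivity)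
    refine this.trans (le_of_eq ?_)
    field_simp
  have a2 : 2 * B3C t δ * (500 * K * muq q ^ (1 / 4 : ℝ)) ≤ err / 3 := by
    have : 2 * B3C t δ * (500 * K * muq q ^ (1 / 4 : ℝ)) ≤ 2 * B3C t δ * (500 * K * z) := by
      refine mul_le_mul_of_nonneg_left (mul_le_mul_of_nonneg_left hm3 (by positivity))
        (by positivity)
    refine this.trans (le_of_eq ?_)
    rw [hz]
    field_simp
    norm_num
  linarith

theorem BC_h1 (s δ err : ℝ) (hs : 3 / 4 ≤ s) (hs1 : s < 1) (hδ : 0 < δ) (hδ20 : δ ≤ 1 / 20)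
    (herr : 0 < err) :
    Ev (1 - 2 * δ) (fun q hq hq1 N y =>
      Br N (1 - 2 * δ) y (H1f hq hq1 s (Iv N (1 - 2 * δ)) (Iw N y)) ≤
        err * mm q N (1 - 2 * δ) y) := H1_main s hs hs1 δ hδ hδ20 err herr

/-- **Block C.** -/
theorem blockC : BlockC := blockC_of BC_h1 BC_h2 BC_h3 BC_h4 BC_h5 BC_h6

end Pool.Agent.Lib.MP_9cae81_PC
end
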