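import Pool.Agent.Lib.MP_9cae81_PC.Mg.G005
import Pool.Agent.Lib.MP_9cae81_PC.PDefs
import Pool.Agent.Lib.MP_9cae81_PC.Mg.G003
import Pool.Agent.Lib.MP_9cae81_R.Mg.G009
import Pool.Agent.Lib.MP_9cae81_PC.H3a
import Pool.Agent.Lib.MP_9cae81_PC.Mg.G001

section

/-!
# Common tools of block C: numbers, one new variable, gadgets
-/

set_option autoImplicit false
set_option linter.unusedSectionVars false

open Finset Filter
open scoped BigOperators Topology

namespace Pool.Agent.Lib.MP_9cae81_PC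

open Pool.Agent.Lib.MP_9cae81_R

/-! ### Numbers -/

/-- `x^p ≤ x'^p + 3 x e` for `x ≤ x' + e`, `2 ≤ p ≤ 3`. -/
theorem CT_pow {p x x' e : ℝ} (hp : 2 ≤ p) (hp3 : p ≤ 3) (he : 0 ≤ e) (hx0 : 0 ≤ x) (hx1 : x ≤ 1)
    (hx' : 0 ≤ x') (hxx : x ≤ x' + e) : x ^ p ≤ x' ^ p + 3 * (x * e) := by
  rcases le_total x x' with h | h
  · have := Real.rpow_le_rpow hx0 h (by linarith : 0 ≤ p)
    have h2 : 0 ≤ x * e := mul_nonneg hx0 he
    linarith
  · rcases eq_or_lt_of_le hx0 with h0 | h0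
    · have hx'0 : x' = 0 := le_antisymm (h.trans h0.symm.le) hx'
      rw [← h0, hx'0]
      simp
    · have hb := one_add_mul_self_le_rpow_one_add (s := x' / x - 1)
        (by have : 0 ≤ x' / x := by positivity
            linarith) (p := p) (by linarith)
      rw [add_sub_cancel] at hb
      have h1 : x ^ p * (1 + p * (x' / x - 1)) ≤ x ^ p * (x' / x) ^ p :=
        mul_le_mul_of_nonneg_left hb (Real.rpow_nonneg hx0 p)
      have h2 : x ^ p * (x' / x) ^ p = x' ^ p := by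
        rw [← Real.mul_rpow hx0 (by positivity), mul_div_cancel₀ _ h0.ne']
      rw [h2] at h1
      have h3 : x ^ p ≤ x ^ 2 := by
        rw [← Real.rpow_natCast]
        exact Real.rpow_le_rpow_of_exponent_ge h0 hx1 (by push_cast; linarith)
      have h4 : x ^ p * (p * (1 - x' / x)) ≤ 3 * (x * e) := by
        have h5 : 0 ≤ 1 - x' / x := by
          have : x' / x ≤ 1 := (div_le_one h0).2 h
          linarith
        have h6 : p * (1 - x' / x) ≤ 3 * (1 - x' / x) := mul_le_mul_of_nonneg_right hp3 h5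
        have h7 : x * (1 - x' / x) ≤ e := by
          have : x * (1 - x' / x) = x - x' := by field_simp
          linarith
        calc x ^ p * (p * (1 - x' / x)) ≤ x ^ 2 * (3 * (1 - x' / x)) :=
              mul_le_mul h3 h6 (mul_nonneg (by linarith) h5) (by positivity)
          _ = 3 * (x * (x * (1 - x' / x))) := by ring
          _ ≤ 3 * (x * e) := by
              have := mul_le_mul_of_nonneg_left h7 hx0
              linarith
      nlinarith

/-- Comparison of `x^(3-s) y^s` under small changes of `x` and `y`. -/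
theorem CT_num {s x x' y y' e : ℝ} (hs : 1 / 4 ≤ s) (hs1 : s ≤ 1) (he : 0 ≤ e) (hx0 : 0 ≤ x)
    (hx1 : x ≤ 1) (hx' : 0 ≤ x') (hy0 : 0 ≤ y) (hy1 : y ≤ 1) (hy' : 0 ≤ y') (hy'1 : y' ≤ 1)
    (hxx : x ≤ x' + e) (hyy : y ≤ y' + 2 * e) :
    x ^ (3 - s) * y ^ s ≤ x' ^ (3 - s) * y' ^ s + 4 * e ^ (1 / 4 : ℝ) * x ^ 2 +
      2 * e ^ (7 / 4 : ℝ) := by
  have hs0 : 0 < s := by linarith
  have hx2 : x ^ (3 - s) ≤ x ^ 2 := by
    rcases eq_or_lt_of_le hx0 with h | h
    · rw [← h, Real.zero_rpow (by linarith)]; norm_num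
    · rw [← Real.rpow_natCast]
      exact Real.rpow_le_rpow_of_exponent_ge h hx1 (by push_cast; linarith)
  have hxs0 : 0 ≤ x ^ (3 - s) := Real.rpow_nonneg hx0 _
  have hys1 : y ^ s ≤ 1 := Real.rpow_le_one hy0 hy1 hs0.le
  have hys'1 : y' ^ s ≤ 1 := Real.rpow_le_one hy' hy'1 hs0.le
  have hys0 : 0 ≤ y ^ s := Real.rpow_nonneg hy0 _
  have hys'0 : 0 ≤ y' ^ s := Real.rpow_nonneg hy' _
  have hE1 : 0 ≤ e ^ (1 / 4 : ℝ) := Real.rpow_nonneg he _
  have hE2 : 0 ≤ e ^ (7 / 4 : ℝ) := Real.rpow_nonneg he _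
  have hx's0 : 0 ≤ x' ^ (3 - s) := Real.rpow_nonneg hx' _
  rcases lt_or_ge 1 e with h1 | h1
  · have h2 : 1 ≤ e ^ (1 / 4 : ℝ) := Real.one_le_rpow h1.le (by norm_num)
    have h3 : x ^ (3 - s) * y ^ s ≤ x ^ 2 * 1 := mul_le_mul hx2 hys1 hys0 (by positivity)
    have h4 : x ^ 2 ≤ e ^ (1 / 4 : ℝ) * x ^ 2 := by nlinarith [sq_nonneg x]
    have h5 : 0 ≤ x' ^ (3 - s) * y' ^ s := mul_nonneg hx's0 hys'0
    nlinarith [sq_nonneg x]
  · have h2 : y ^ s ≤ y' ^ s + 2 * e ^ (1 / 4 : ℝ) := by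
      have h3 : y ^ s ≤ (y' + 2 * e) ^ s := Real.rpow_le_rpow hy0 hyy hs0.le
      have h4 := Real.rpow_add_le_add_rpow hy' (by positivity : 0 ≤ 2 * e) hs0.le hs1
      have h5 : (2 * e) ^ s ≤ 2 * e ^ (1 / 4 : ℝ) := by
        rw [Real.mul_rpow (by norm_num) he]
        have h6 : (2 : ℝ) ^ s ≤ 2 := by
          have := Real.rpow_le_rpow_of_exponent_le (x := 2) (by norm_num) hs1
          rwa [Real.rpow_one] at this
        have h7 : e ^ s ≤ e ^ (1 / 4 : ℝ) := by
          rcases eq_or_lt_of_le he with h | h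
          · rw [← h, Real.zero_rpow hs0.ne', Real.zero_rpow (by norm_num)]
          · exact Real.rpow_le_rpow_of_exponent_ge h h1 hs
        exact mul_le_mul h6 h7 (Real.rpow_nonneg he _) (by norm_num)
      linarith
    have h3 := CT_pow (p := 3 - s) (by linarith) (by linarith) he hx0 hx1 hx' hxx
    have h4 : x * e ≤ (e ^ (1 / 4 : ℝ) * x ^ 2 + e ^ (7 / 4 : ℝ)) / 2 := by
      rcases eq_or_lt_of_le he with h | h
      · rw [← h]
        have : 0 ≤ (0 : ℝ) ^ (1 / 4 : ℝ) * x ^ 2 := by positivity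
        have : 0 ≤ (0 : ℝ) ^ (7 / 4 : ℝ) := by positivity
        rw [mul_zero]
        positivity
      · have e1 : e ^ (1 / 4 : ℝ) = (e ^ (1 / 8 : ℝ)) ^ 2 := by
          rw [← Real.rpow_natCast, ← Real.rpow_mul h.le]; norm_num
        have e2 : e ^ (7 / 4 : ℝ) = (e ^ (7 / 8 : ℝ)) ^ 2 := by
          rw [← Real.rpow_natCast, ← Real.rpow_mul h.le]; norm_num
        have e3 : e ^ (1 / 8 : ℝ) * e ^ (7 / 8 : ℝ) = e := by
          rw [← Real.rpow_add h]; norm_num
        rw [e1, e2]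
        nlinarith [sq_nonneg (e ^ (1 / 8 : ℝ) * x - e ^ (7 / 8 : ℝ))]
    calc x ^ (3 - s) * y ^ s ≤ x ^ (3 - s) * (y' ^ s + 2 * e ^ (1 / 4 : ℝ)) :=
          mul_le_mul_of_nonneg_left h2 hxs0
      _ = x ^ (3 - s) * y' ^ s + x ^ (3 - s) * (2 * e ^ (1 / 4 : ℝ)) := by ring
      _ ≤ (x' ^ (3 - s) + 3 * (x * e)) * y' ^ s + x ^ 2 * (2 * e ^ (1 / 4 : ℝ)) :=
          add_le_add (mul_le_mul_of_nonneg_right h3 hys'0)
            (mul_le_mul_of_nonneg_right hx2 (by positivity))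
      _ = x' ^ (3 - s) * y' ^ s + 3 * (x * e) * y' ^ s + 2 * e ^ (1 / 4 : ℝ) * x ^ 2 := by ring
      _ ≤ x' ^ (3 - s) * y' ^ s + 3 * (x * e) * 1 + 2 * e ^ (1 / 4 : ℝ) * x ^ 2 := by
          have h5 : 0 ≤ 3 * (x * e) := by positivity
          have := mul_le_mul_of_nonneg_left hys'1 h5
          linarith
      _ ≤ _ := by
          have h6 : 0 ≤ e ^ (1 / 4 : ℝ) * x ^ 2 := by positivity
          linarith

/-! ### The weight `ss` -/

section state

variable {V : Type} [Fintype V] [Nonempty V] {q : ℝ}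

theorem CT_ss_nn (hq : 0 < q) (hq1 : q < 1) (S : As V) : 0 ≤ ss q S :=
  (AS V).s_nonneg hq.le hq1 S

theorem CT_ss_le_one (hq : 0 < q) (hq1 : q < 1) (S : As V) : ss q S ≤ 1 :=
  (AS V).s_le_one hq.le hq1 S

theorem CT_ss_le_vv (S : As V) : ss q S ≤ vv q S := (AS V).s_le_v S

theorem CT_ss_ne {S : As V} (h : S ≠ ∅) : ss q S = vv q S := (AS V).s_of_sat (una_of_ne h)

theorem CT_ss_empty (hq : 0 < q) (hq1 : q < 1) : ss q (∅ : As V) = 0 :=
  (AS V).s_of_un hq.le hq1 (una_of_eq rfl)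

theorem CT_ss_rpow_le (hq : 0 < q) (hq1 : q < 1) {s : ℝ} (hs1 : s ≤ 1) (S : As V) :
    ss q S ^ (3 - s) ≤ ss q S ^ 2 := by
  have h0 := CT_ss_nn hq hq1 S
  rcases eq_or_lt_of_le h0 with h | h
  · rw [← h, Real.zero_rpow (by linarith)]; norm_num
  · rw [← Real.rpow_natCast]
    exact Real.rpow_le_rpow_of_exponent_ge h (CT_ss_le_one hq hq1 S) (by push_cast; linarith)

theorem CT_ss_rpow_nn (hq : 0 < q) (hq1 : q < 1) (s : ℝ) (S : As V) : 0 ≤ ss q S ^ (3 - s) :=
  Real.rpow_nonneg (CT_ss_nn hq hq1 S) _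

theorem CT_mk_rpow (hq : 0 < q) (hq1 : q < 1) {s : ℝ} (hs : 0 ≤ s) (g S : As V) :
    0 ≤ mk q g S ^ s ∧ mk q g S ^ s ≤ 1 :=
  ⟨Real.rpow_nonneg (mk_nonneg hq.le hq1 g S) _,
    Real.rpow_le_one (mk_nonneg hq.le hq1 g S) (mk_le_one hq.le hq1 g S) hs⟩

/-- (H2), pointwise, on the old variables. -/
theorem CT_H2 (hq : 0 < q) (hq1 : q < 1) {s : ℝ} (hs : 0 < s) (hs1 : s ≤ 1) (A B U M : As V) :
    ss q (M ∩ (A ∪ B)) ^ (3 - s) *
        (vv q (M ∩ (B ∪ (A ∩ U))) - vv q (M ∩ (A ∪ B))) ^ s ≤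
      ss q (M ∩ A) ^ (3 - s) * mk q (B ∪ U) (M ∩ A) ^ s := by
  have h0 := v2_killed_nonneg hq.le hq1 A B U M
  by_cases hA : M ∩ A = ∅
  · have e1 : M ∩ (B ∪ (A ∩ U)) = M ∩ B := by
      rw [Set.inter_union_distrib_left, ← Set.inter_assoc, hA, Set.empty_inter, Set.union_empty]
    have e2 : M ∩ (A ∪ B) = M ∩ B := by
      rw [Set.inter_union_distrib_left, hA, Set.empty_union]
    rw [e1, e2, sub_self, Real.zero_rpow hs.ne', mul_zero]
    exact mul_nonneg (CT_ss_rpow_nn hq hq1 s _) (CT_mk_rpow hq hq1 hs.le _ _).1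
  · have h1 : ss q (M ∩ (A ∪ B)) ≤ ss q (M ∩ A) := by
      rw [CT_ss_ne hA]
      exact (CT_ss_le_vv _).trans
        (vv_anti hq.le hq1 (Set.inter_subset_inter_right M Set.subset_union_left))
    have h2 : vv q (M ∩ (B ∪ (A ∩ U))) - vv q (M ∩ (A ∪ B)) ≤ mk q (B ∪ U) (M ∩ A) :=
      v2_killed hq.le hq1 A B U M
    exact mul_le_mul (Real.rpow_le_rpow (CT_ss_nn hq hq1 _) h1 (by linarith))
      (Real.rpow_le_rpow h0 h2 hs.le) (Real.rpow_nonneg h0 _) (CT_ss_rpow_nn hq hq1 s _)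

end state

/-! ### One new variable -/

section new

variable {n : ℕ} {q : ℝ}

/-- `ss` on `n + 1` and on `n` variables. -/
theorem CT_ss_pr (hq : 0 < q) (hq1 : q < 1) (i : Fin (n + 1)) (T : As (Fin (n + 1))) :
    |ss q T - ss q (pr i T)| ≤ 1 / (muq q * (n + 1)) := by
  have h1 := A5_shift hq hq1 i T
  have h2 : una (pr i T) = una T := una_pr i T
  have h3 : ss q T - ss q (pr i T) = vv q T - vv q (pr i T) := by
    show ((AS (Fin (n + 1))).v q T - una T) - ((AS (Fin n)).v q (pr i T) - una (pr i T)) = _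
    rw [h2]
    show _ = (AS (Fin (n + 1))).v q T - (AS (Fin n)).v q (pr i T)
    ring
  rw [h3]
  exact h1

/-- The new literal (true) with the constraint `U`. -/
theorem CT_H2_true (hq : 0 < q) (hq1 : q < 1) [Nonempty (Fin n)] {s : ℝ} (hs : 1 / 4 ≤ s)
    (hs1 : s ≤ 1) (i : Fin (n + 1)) (M A B U : As (Fin n)) :
    ss q (jn i M A B) ^ (3 - s) * mk q (lit (i, true) ∪ lf i U) (jn i M A B) ^ s ≤
      ss q (M ∩ A) ^ (3 - s) * mk q (B ∪ U) (M ∩ A) ^ s +
        4 * (1 / (muq q * (n + 1))) ^ (1 / 4 : ℝ) * ss q (jn i M A B) ^ 2 +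
        2 * (1 / (muq q * (n + 1))) ^ (7 / 4 : ℝ) := by
  have hm : 0 < muq q := by unfold muq; exact div_pos (by linarith) hq
  have he : 0 ≤ 1 / (muq q * ((n : ℝ) + 1)) := by positivity
  have h1 := CT_ss_pr hq hq1 i (jn i M A B)
  have h2 := A5_shift hq hq1 i (jn i M A B)
  have h3 := A5_shift hq hq1 i (jn i M A B ∩ (lit (i, true) ∪ lf i U))
  rw [pr_jn] at h1 h2
  rw [pr_jn_or_true] at h3
  have hk := CT_H2 hq hq1 (s := s) (by linarith) hs1 A B U M
  have h0 := v2_killed_nonneg hq.le hq1 A B U M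
  have h01 : vv q (M ∩ (B ∪ (A ∩ U))) - vv q (M ∩ (A ∪ B)) ≤ 1 := by
    linarith [vv_le_one hq.le hq1 (M ∩ (B ∪ (A ∩ U))), vv_nonneg hq.le hq1 (M ∩ (A ∪ B))]
  have h4 := mk_nonneg hq.le hq1 (lit (i, true) ∪ lf i U) (jn i M A B)
  have h5 := mk_le_one hq.le hq1 (lit (i, true) ∪ lf i U) (jn i M A B)
  have h6 := CT_num (s := s) (x := ss q (jn i M A B)) (x' := ss q (M ∩ (A ∪ B)))
    (y := mk q (lit (i, true) ∪ lf i U) (jn i M A B))
    (y' := vv q (M ∩ (B ∪ (A ∩ U))) - vv q (M ∩ (A ∪ B)))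
    (e := 1 / (muq q * ((n : ℝ) + 1))) hs hs1 he (CT_ss_nn hq hq1 _) (CT_ss_le_one hq hq1 _)
    (CT_ss_nn hq hq1 _) h4 h5 h0 h01
    (by linarith [(abs_le.1 h1).2])
    (by
      unfold mk
      linarith [(abs_le.1 h2).1, (abs_le.1 h3).2])
  linarith

theorem CT_jn_comm (i : Fin (n + 1)) (M A B : As (Fin n)) : pr i (jn i M A B) = pr i (jn i M B A) := by
  rw [pr_jn, pr_jn, Set.union_comm]

/-- The new literal (false) with the constraint `U`. -/
theorem CT_H2_false (hq : 0 < q) (hq1 : q < 1) [Nonempty (Fin n)] {s : ℝ} (hs : 1 / 4 ≤ s)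
    (hs1 : s ≤ 1) (i : Fin (n + 1)) (M A B U : As (Fin n)) :
    ss q (jn i M A B) ^ (3 - s) * mk q (lit (i, false) ∪ lf i U) (jn i M A B) ^ s ≤
      ss q (M ∩ B) ^ (3 - s) * mk q (A ∪ U) (M ∩ B) ^ s +
        4 * (1 / (muq q * (n + 1))) ^ (1 / 4 : ℝ) * ss q (jn i M A B) ^ 2 +
        2 * (1 / (muq q * (n + 1))) ^ (7 / 4 : ℝ) := by
  have hm : 0 < muq q := by unfold muq; exact div_pos (by linarith) hq
  have he : 0 ≤ 1 / (muq q * ((n : ℝ) + 1)) := by positivity
  have h1 := CT_ss_pr hq hq1 i (jn i M A B)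
  have h2 := A5_shift hq hq1 i (jn i M A B)
  have h3 := A5_shift hq hq1 i (jn i M A B ∩ (lit (i, false) ∪ lf i U))
  rw [pr_jn] at h1 h2
  rw [pr_jn_or_false] at h3
  rw [Set.union_comm A B] at h1 h2
  have hk := CT_H2 hq hq1 (s := s) (by linarith) hs1 B A U M
  have h0 := v2_killed_nonneg hq.le hq1 B A U M
  have h01 : vv q (M ∩ (A ∪ (B ∩ U))) - vv q (M ∩ (B ∪ A)) ≤ 1 := by
    linarith [vv_le_one hq.le hq1 (M ∩ (A ∪ (B ∩ U))), vv_nonneg hq.le hq1 (M ∩ (B ∪ A))]
  have h4 := mk_nonneg hq.le hq1 (lit (i, false) ∪ lf i U) (jn i M A B)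
  have h5 := mk_le_one hq.le hq1 (lit (i, false) ∪ lf i U) (jn i M A B)
  have h6 := CT_num (s := s) (x := ss q (jn i M A B)) (x' := ss q (M ∩ (B ∪ A)))
    (y := mk q (lit (i, false) ∪ lf i U) (jn i M A B))
    (y' := vv q (M ∩ (A ∪ (B ∩ U))) - vv q (M ∩ (B ∪ A)))
    (e := 1 / (muq q * ((n : ℝ) + 1))) hs hs1 he (CT_ss_nn hq hq1 _) (CT_ss_le_one hq hq1 _)
    (CT_ss_nn hq hq1 _) h4 h5 h0 h01
    (by linarith [(abs_le.1 h1).2])
    (by
      unfold mk
      linarith [(abs_le.1 h2).1, (abs_le.1 h3).2])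
  linarith

/-- Average over the literals of `n + 1` variables, upper bound. -/
theorem CT_Av_up {K ε : ℝ} (i : Fin (n + 1)) (f : Lt (Fin (n + 1)) → ℝ) (f' : Lt (Fin n) → ℝ)
    (hf : ∀ l, f l ≤ K) (hf' : ∀ l, 0 ≤ f' l) (hε : 0 ≤ ε)
    (h : ∀ a : Lt (Fin n), f (i.succAbove a.1, a.2) ≤ f' a + ε) :
    Av f ≤ Av f' + ε + K / (n + 1) := by
  have c1 : (Fintype.card (Lt (Fin (n + 1))) : ℝ) = 2 * (n + 1) := by
    simp only [Fintype.card_prod, Fintype.card_fin, Fintype.card_bool]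
    push_cast
    ring
  have c2 : (Fintype.card (Lt (Fin n)) : ℝ) = 2 * n := by
    simp only [Fintype.card_prod, Fintype.card_fin, Fintype.card_bool]
    push_cast
    ring
  have hs : ∑ l, f l = (∑ a : Lt (Fin n), f (i.succAbove a.1, a.2)) +
      (f (i, true) + f (i, false)) := by
    rw [Fintype.sum_prod_type, Fin.sum_univ_succAbove _ i, Fintype.sum_prod_type, add_comm]
    congr 1
    rw [Fintype.sum_bool]
  have h1 : ∑ a : Lt (Fin n), f (i.succAbove a.1, a.2) ≤ ∑ a, f' a + 2 * n * ε := by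
    calc ∑ a : Lt (Fin n), f (i.succAbove a.1, a.2) ≤ ∑ a : Lt (Fin n), (f' a + ε) :=
          Finset.sum_le_sum fun a _ => h a
      _ = _ := by
          rw [Finset.sum_add_distrib, Finset.sum_const, Finset.card_univ, nsmul_eq_mul, c2]
  have h2 := hf (i, true)
  have h3 := hf (i, false)
  have hS0 : 0 ≤ ∑ a, f' a := Finset.sum_nonneg fun a _ => hf' a
  unfold Av
  rw [c1, c2, hs]
  have hn : (0 : ℝ) ≤ n := Nat.cast_nonneg n
  have hY0 : n = 0 → ∑ a, f' a = 0 := by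
    intro h0
    subst h0
    exact Finset.sum_eq_zero fun a _ => a.1.elim0
  generalize ∑ a : Lt (Fin n), f (i.succAbove a.1, a.2) = X at *
  generalize ∑ a, f' a = Y at *
  have h4 : Y / (2 * (n + 1)) ≤ Y / (2 * n) := by
    rcases eq_or_lt_of_le hn with h0 | h0
    · rw [hY0 (by exact_mod_cast h0.symm)]
      simp
    · gcongr
      linarith
  calc (X + (f (i, true) + f (i, false))) / (2 * (n + 1))
      ≤ (Y + 2 * n * ε + 2 * K) / (2 * (n + 1)) := by gcongr; linarith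
    _ = Y / (2 * (n + 1)) + ε * (n / (n + 1)) + K / (n + 1) := by field_simp
    _ ≤ Y / (2 * n) + ε * 1 + K / (n + 1) := by
        gcongr
        rw [div_le_one (by positivity)]
        linarith
    _ = _ := by ring

end new

/-! ### Gadgets -/

section gadget

/-- `EE g ≤ g ∅ + (total intensity)` for `0 ≤ g ≤ 1`. -/
theorem CT_EE_empty {ι : Type} [Fintype ι] [DecidableEq ι] {q : ι → ℝ} (hq : ∀ c, 0 ≤ q c)
    (g : Finset ι → ℝ) (h0 : ∀ F, 0 ≤ g F) (h1 : ∀ F, g F ≤ 1) : EE q g ≤ g ∅ + ∑ c, q c := by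
  have h := EE_sdiff_error hq Finset.univ g (fun _ => g ∅) (fun F hF => by
    have : F = ∅ := Finset.eq_empty_of_forall_notMem fun c hc => hF c (Finset.mem_univ c) hc
    rw [this])
  have h2 : EE q (fun _ : Finset ι => g ∅) = g ∅ := EE_const _ _
  rw [h2] at h
  have h3 : ∀ c : ι, q c * EE q (fun F => |g (insert c F) - g ∅|) ≤ q c := by
    intro c
    have h4 : EE q (fun F => |g (insert c F) - g ∅|) ≤ EE q (fun _ => (1 : ℝ)) := by
      refine EE_mono hq fun F => ?_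
      rw [abs_le]
      constructor <;> linarith [h0 (insert c F), h1 (insert c F), h0 ∅, h1 ∅]
    rw [EE_const] at h4
    have := mul_le_mul_of_nonneg_left h4 (hq c)
    linarith
  have h5 := Finset.sum_le_sum fun c (_ : c ∈ Finset.univ) => h3 c
  linarith [(abs_le.1 h).2]

variable {V : Type} [Fintype V] [DecidableEq V]

theorem CT_gq_nn {v w τ : ℝ} (hv : 0 ≤ v) (hw : 0 ≤ w) (hτ : 0 ≤ τ) (c : Cl V) :
    0 ≤ gq v w τ c := by
  unfold gq
  exact qq_nonneg (by positivity) (by positivity) le_rfl c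

theorem CT_GA_mono {v w : ℝ} (hv : 0 ≤ v) (hw : 0 ≤ w) {Φ Ψ : As V → ℝ}
    (h : ∀ S, Φ S ≤ Ψ S) : GA v w 1 Φ ≤ GA v w 1 Ψ :=
  EE_mono (CT_gq_nn hv hw zero_le_one) fun _ => h _

theorem CT_GA_add (v w : ℝ) (Φ Ψ : As V → ℝ) :
    GA v w 1 (fun S => Φ S + Ψ S) = GA v w 1 Φ + GA v w 1 Ψ := EE_add _ _ _

theorem CT_GA_mul (v w a : ℝ) (Φ : As V → ℝ) :
    GA v w 1 (fun S => a * Φ S) = a * GA v w 1 Φ := EE_mul_left _ _ _

theorem CT_GA_const (v w a : ℝ) : GA v w 1 (fun _ : As V => a) = a := EE_const _ _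

theorem CT_GA_comm {W : Type} [Fintype W] [DecidableEq W] (v w v' w' : ℝ) (Φ : As V → As W → ℝ) :
    GA v w 1 (fun A => GA v' w' 1 (fun B => Φ A B)) =
      GA v' w' 1 (fun B => GA v w 1 (fun A => Φ A B)) := EE_comm _ _ _

theorem CT_GA_nn {v w : ℝ} (hv : 0 ≤ v) (hw : 0 ≤ w) {Φ : As V → ℝ}
    (h : ∀ S, 0 ≤ Φ S) : 0 ≤ GA v w 1 Φ :=
  EE_nonneg (CT_gq_nn hv hw zero_le_one) fun _ => h _

theorem CT_GA_le_one {v w : ℝ} (hv : 0 ≤ v) (hw : 0 ≤ w) {Φ : As V → ℝ}
    (h : ∀ S, Φ S ≤ 1) : GA v w 1 Φ ≤ 1 := by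
  have := CT_GA_mono hv hw h
  rwa [CT_GA_const] at this

theorem CT_sum_gq (v w : ℝ) : ∑ c : Cl V, gq v w 1 c =
    (2 * v + 3 * w) * Fintype.card (Lt V) + 3 * w * (Fintype.card (Lt V) : ℝ) ^ 2 := by
  rw [Fintype.sum_sum_type, Fintype.sum_sum_type]
  have e1 : ∀ a : Lt V, gq v w 1 (Sum.inl a : Cl V) = 2 * v + 3 * w := fun a => by
    simp [gq, qq]
  have e2 : ∀ a : Lt V × Lt V, gq v w 1 (Sum.inr (Sum.inl a) : Cl V) = 3 * w := fun a => by
    simp [gq, qq]
  have e3 : ∀ a : Lt V × Lt V × Lt V, gq v w 1 (Sum.inr (Sum.inr a) : Cl V) = 0 := fun a => by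
    simp [gq, qq]
  simp only [e1, e2, e3, Finset.sum_const, Finset.card_univ, nsmul_eq_mul, Fintype.card_prod]
  push_cast
  ring

/-- A gadget on `n + 1` variables is the lift of a gadget on `n` variables up to an error of the
size of the mean number of its clauses with the variable `i`. -/
theorem CT_GA_lift {n : ℕ} (i : Fin (n + 1)) {v w : ℝ} (hv : 0 ≤ v) (hw : 0 ≤ w)
    (Φ : As (Fin (n + 1)) → ℝ) (h0 : ∀ S, 0 ≤ Φ S) (h1 : ∀ S, Φ S ≤ 1) :
    GA v w 1 Φ ≤ GA v w 1 (fun D => Φ (lf i D)) + (24 * w * n + 4 * v + 12 * w) := by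
  have hlaw := A4_law i (1 * (2 * v + 3 * w)) (1 * (3 * w)) 0 Φ
  have e : GA v w 1 Φ = EE (qq (1 * (2 * v + 3 * w)) (1 * (3 * w)) 0) (fun F => Φ (Md F)) := rfl
  rw [e, hlaw]
  have hw3 : 0 ≤ 1 * (3 * w) := by positivity
  have key : ∀ D : As (Fin n), GA (1 * (3 * w)) 0 1 (fun A => GA (1 * (3 * w)) 0 1 (fun B =>
        EE (fun _ : Bool => 1 * (2 * v + 3 * w) + 1 * (3 * w) + 0)
          (fun K => Φ (jn i D A B ∩ kl i K)))) ≤
      Φ (lf i D) + (24 * w * n + 4 * v + 12 * w) := by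
    intro D
    have hK : ∀ A B : As (Fin n), EE (fun _ : Bool => 1 * (2 * v + 3 * w) + 1 * (3 * w) + 0)
        (fun K => Φ (jn i D A B ∩ kl i K)) ≤ Φ (jn i D A B) + (4 * v + 12 * w) := by
      intro A B
      have h := CT_EE_empty (q := fun _ : Bool => 1 * (2 * v + 3 * w) + 1 * (3 * w) + 0)
        (fun _ => by positivity) (fun K => Φ (jn i D A B ∩ kl i K)) (fun K => h0 _)
        (fun K => h1 _)
      have e1 : kl i ∅ = (Set.univ : As (Fin (n + 1))) := by
        ext σ; simp [kl]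
      simp only [e1, Set.inter_univ, Finset.sum_const, Finset.card_univ, Fintype.card_bool] at h
      refine h.trans (le_of_eq ?_)
      rw [nsmul_eq_mul]
      push_cast
      ring
    have hc : (Fintype.card (Lt (Fin n)) : ℝ) = 2 * n := by
      simp only [Fintype.card_prod, Fintype.card_fin, Fintype.card_bool]
      push_cast
      ring
    have hG : ∀ Ψ : As (Fin n) → ℝ, (∀ S, 0 ≤ Ψ S) → (∀ S, Ψ S ≤ 1) →
        GA (1 * (3 * w)) 0 1 Ψ ≤ Ψ Set.univ + 12 * w * n := by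
      intro Ψ hΨ0 hΨ1
      have h := CT_EE_empty (q := (gq (1 * (3 * w)) 0 1 : Cl (Fin n) → ℝ))
        (CT_gq_nn hw3 le_rfl zero_le_one) (fun F => Ψ (Md F)) (fun F => hΨ0 _) (fun F => hΨ1 _)
      have e2 : Md (∅ : Finset (Cl (Fin n))) = Set.univ := by
        ext σ; simp [Md]
      rw [CT_sum_gq, e2, hc] at h
      refine h.trans (le_of_eq ?_)
      ring
    have hB : ∀ A : As (Fin n), GA (1 * (3 * w)) 0 1 (fun B =>
        EE (fun _ : Bool => 1 * (2 * v + 3 * w) + 1 * (3 * w) + 0)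
          (fun K => Φ (jn i D A B ∩ kl i K))) ≤
        Φ (jn i D A Set.univ) + 12 * w * n + (4 * v + 12 * w) := by
      intro A
      refine (CT_GA_mono hw3 le_rfl (hK A)).trans ?_
      rw [CT_GA_add, CT_GA_const]
      have := hG (fun B => Φ (jn i D A B)) (fun B => h0 _) (fun B => h1 _)
      linarith
    refine (CT_GA_mono hw3 le_rfl hB).trans ?_
    have e3 : (fun A : As (Fin n) => Φ (jn i D A Set.univ) + 12 * w * n + (4 * v + 12 * w)) =
        fun A => Φ (jn i D A Set.univ) + (12 * w * n + (4 * v + 12 * w)) := by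
      funext A; ring
    rw [e3, CT_GA_add, CT_GA_const]
    have h2 := hG (fun A => Φ (jn i D A Set.univ)) (fun B => h0 _) (fun B => h1 _)
    have e4 : jn i D Set.univ Set.univ = lf i D := by
      ext σ
      simp [jn, lf]
    simp only [e4] at h2
    linarith
  have h2 := EE_mono (q := (qq (1 * (2 * v + 3 * w)) (1 * (3 * w)) 0 : Cl (Fin n) → ℝ))
    (qq_nonneg (by positivity) (by positivity) le_rfl) (fun F => key (Md F))
  refine h2.trans (le_of_eq ?_)
  rw [EE_add, EE_const]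
  rfl

end gadget

end Pool.Agent.Lib.MP_9cae81_PC
end

section

/-!
# (H3), numbers: change of the base from `F' ∧ (A ∨ B)` to `F'`
-/

set_option autoImplicit false

open Finset
open scoped BigOperators

namespace Pool.Agent.Lib.MP_9cae81_PC

/-- The functional seen by the new variable: `v` is the value of `F'`, `v0` of `F' ∧ (A ∨ B)`, `x` of
`F' ∧ B`, `y l` of `F' ∧ l`, `r l` of `F' ∧ (B ∨ (A ∧ l))`. -/
noncomputable def cN {L : Type} [Fintype L] (t δ m v v0 x : ℝ) (y r : L → ℝ) : ℝ :=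
  v ^ 3 * (Av fun l => ph t ((x - v0) / (m * v)) ((y l - v) / (m * v)) ((r l - v0) / (m * v))) /
    (3 * δ + 15000 * hN t m v y)

/-- **Change of base**, numbers. -/
theorem H3_base {L : Type} [Fintype L] {t δ m v v0 x : ℝ} {y y0 r : L → ℝ} (ht : 0 < t)
    (hδ : 0 < δ) (hm : 0 < m) (hv : 0 < v) (hv0 : v ≤ v0) (hx : v0 ≤ x)
    (hy : ∀ l, v ≤ y l) (hy0 : ∀ l, v0 ≤ y0 l) (hr : ∀ l, v0 ≤ r l) (hrx : ∀ l, r l ≤ x)
    (hAv : Av (fun l => (y l - v) / (m * v)) ≤ 1) :
    |gN t δ m v0 x y0 r - cN t δ m v v0 x y r| ≤ 1 / (3 * δ) * |v0 ^ 3 - v ^ 3| +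
      (1026 / (3 * δ * t) + 15000 / (9 * δ ^ 2 * t)) *
        (2 * (v * (x - v0) * (v0 - v) / m) + v ^ 2 * (v0 - v) +
          v ^ 2 * Av (fun l => |(y0 l - v0) - (y l - v)|) / m) := by
  have hv0p : 0 < v0 := lt_of_lt_of_le hv hv0
  set φ := Av fun l => ph t ((x - v0) / (m * v0)) ((y0 l - v0) / (m * v0)) ((r l - v0) / (m * v0))
    with hφ
  set φ' := Av fun l => ph t ((x - v0) / (m * v)) ((y l - v) / (m * v)) ((r l - v0) / (m * v))
    with hφ'
  have hφ0 : 0 ≤ φ := H3_Av_nonneg fun l => ph_nonneg _ _ _ _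
  have hφ1 : φ ≤ 1 := H3_Av_le_one fun l => ph_le_one _ _ _ _
  have hφ0' : 0 ≤ φ' := H3_Av_nonneg fun l => ph_nonneg _ _ _ _
  have hφ1' : φ' ≤ 1 := H3_Av_le_one fun l => ph_le_one _ _ _ _
  set E := Av (fun l => |(y0 l - v0) - (y l - v)|) with hE
  have hE0 : 0 ≤ E := H3_Av_nonneg fun l => abs_nonneg _
  -- a ratio
  have ratio : ∀ p : ℝ, 0 ≤ p → |p / (m * v0) - p / (m * v)| ≤ p * (v0 - v) / (m * v ^ 2) := by
    intro p hp
    rw [abs_sub_comm, abs_of_nonneg (by
      have : p / (m * v0) ≤ p / (m * v) := by gcongr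
      linarith)]
    rw [show p / (m * v) - p / (m * v0) = p * (v0 - v) / (m * v * v0) by
      field_simp]
    have h1 : 0 ≤ p * (v0 - v) := mul_nonneg hp (by linarith)
    have h2 : m * v ^ 2 ≤ m * v * v0 := by
      rw [pow_two, ← mul_assoc]
      exact mul_le_mul_of_nonneg_left hv0 (by positivity)
    exact div_le_div_of_nonneg_left h1 (by positivity) h2
  have db : ∀ l, |(y0 l - v0) / (m * v0) - (y l - v) / (m * v)| ≤
      |(y0 l - v0) - (y l - v)| / (m * v) + (y l - v) * (v0 - v) / (m * v ^ 2) := by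
    intro l
    have h1 : (y0 l - v0) / (m * v0) - (y l - v) / (m * v) =
        ((y0 l - v0) - (y l - v)) / (m * v0) + ((y l - v) / (m * v0) - (y l - v) / (m * v)) := by
      ring
    rw [h1]
    refine (abs_add_le _ _).trans (add_le_add ?_ (ratio _ (by linarith [hy l])))
    rw [abs_div, abs_of_pos (by positivity : 0 < m * v0)]
    gcongr
  have hAv' : Av (fun l => y l - v) ≤ m * v := by
    have h1 : Av (fun l => (y l - v) / (m * v)) = Av (fun l => y l - v) / (m * v) :=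
      (H3_Av_div _ _).symm
    rw [h1, div_le_one (by positivity)] at hAv
    exact hAv
  have hAvn : 0 ≤ Av (fun l => y l - v) := H3_Av_nonneg fun l => by linarith [hy l]
  -- average of the change of the second mark
  have DB : v ^ 3 * Av (fun l => |(y0 l - v0) / (m * v0) - (y l - v) / (m * v)|) ≤
      v ^ 2 * E / m + v ^ 2 * (v0 - v) := by
    have h1 : Av (fun l => |(y0 l - v0) / (m * v0) - (y l - v) / (m * v)|) ≤
        1 / (m * v) * E + (v0 - v) / (m * v ^ 2) * Av (fun l => y l - v) := by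
      refine (H3_Av_le db).trans (le_of_eq ?_)
      rw [H3_Av_add, hE, ← H3_Av_mul, ← H3_Av_mul]
      congr 1
      · congr 1; funext l; ring
      · congr 1; funext l; ring
    calc v ^ 3 * Av (fun l => |(y0 l - v0) / (m * v0) - (y l - v) / (m * v)|)
        ≤ v ^ 3 * (1 / (m * v) * E + (v0 - v) / (m * v ^ 2) * Av (fun l => y l - v)) :=
          mul_le_mul_of_nonneg_left h1 (by positivity)
      _ ≤ v ^ 3 * (1 / (m * v) * E + (v0 - v) / (m * v ^ 2) * (m * v)) := by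
          refine mul_le_mul_of_nonneg_left (add_le_add le_rfl (mul_le_mul_of_nonneg_left hAv' ?_))
            (by positivity)
          exact div_nonneg (by linarith) (by positivity)
      _ = _ := by field_simp
  have DA : v ^ 3 * |(x - v0) / (m * v0) - (x - v0) / (m * v)| ≤ v * (x - v0) * (v0 - v) / m := by
    calc v ^ 3 * |(x - v0) / (m * v0) - (x - v0) / (m * v)|
        ≤ v ^ 3 * ((x - v0) * (v0 - v) / (m * v ^ 2)) :=
          mul_le_mul_of_nonneg_left (ratio _ (by linarith)) (by positivity)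
      _ = _ := by field_simp
  have DR : ∀ l, v ^ 3 * |(r l - v0) / (m * v0) - (r l - v0) / (m * v)| ≤
      v * (x - v0) * (v0 - v) / m := by
    intro l
    calc v ^ 3 * |(r l - v0) / (m * v0) - (r l - v0) / (m * v)|
        ≤ v ^ 3 * ((r l - v0) * (v0 - v) / (m * v ^ 2)) :=
          mul_le_mul_of_nonneg_left (ratio _ (by linarith [hr l])) (by positivity)
      _ = v * (r l - v0) * (v0 - v) / m := by field_simp
      _ ≤ _ := by
          refine div_le_div_of_nonneg_right ?_ hm.le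
          refine mul_le_mul_of_nonneg_right (mul_le_mul_of_nonneg_left ?_ hv.le) (by linarith)
          linarith [hrx l]
  set Z := v * (x - v0) * (v0 - v) / m with hZ
  have hZ0 : 0 ≤ Z := by
    rw [hZ]
    exact div_nonneg (mul_nonneg (mul_nonneg hv.le (by linarith)) (by linarith)) hm.le
  -- the bump
  have k2 : v ^ 3 * |φ - φ'| ≤ 1026 / t * (2 * Z + (v ^ 2 * E / m + v ^ 2 * (v0 - v))) := by
    have h1 : |φ - φ'| ≤ Av (fun l => 1026 / t * (|(x - v0) / (m * v0) - (x - v0) / (m * v)| +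
        |(y0 l - v0) / (m * v0) - (y l - v) / (m * v)| +
        |(r l - v0) / (m * v0) - (r l - v0) / (m * v)|)) := by
      refine (H3_Av_sub_abs _ _).trans (H3_Av_le fun l => ?_)
      refine H3_ph_lip ht (div_nonneg (by linarith) (by positivity))
        (div_nonneg (by linarith) (by positivity)) (div_nonneg (by linarith [hy0 l]) (by positivity))
        (div_nonneg (by linarith [hy l]) (by positivity))
    have h2 : v ^ 3 * |φ - φ'| ≤ Av (fun l => 1026 / t * (2 * Z +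
        v ^ 3 * |(y0 l - v0) / (m * v0) - (y l - v) / (m * v)|)) := by
      refine (mul_le_mul_of_nonneg_left h1 (by positivity : 0 ≤ v ^ 3)).trans ?_
      rw [← H3_Av_mul]
      refine H3_Av_le fun l => ?_
      have h3 := DR l
      have h4 : v ^ 3 * (1026 / t * (|(x - v0) / (m * v0) - (x - v0) / (m * v)| +
          |(y0 l - v0) / (m * v0) - (y l - v) / (m * v)| +
          |(r l - v0) / (m * v0) - (r l - v0) / (m * v)|)) =
          1026 / t * (v ^ 3 * |(x - v0) / (m * v0) - (x - v0) / (m * v)| +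
            v ^ 3 * |(r l - v0) / (m * v0) - (r l - v0) / (m * v)| +
            v ^ 3 * |(y0 l - v0) / (m * v0) - (y l - v) / (m * v)|) := by ring
      rw [h4]
      refine mul_le_mul_of_nonneg_left ?_ (by positivity)
      linarith
    refine h2.trans ?_
    rw [H3_Av_mul, H3_Av_add, H3_Av_mul, H3_Av_mul]
    refine mul_le_mul_of_nonneg_left (add_le_add ?_ DB) (by positivity)
    exact mul_le_mul_of_nonneg_left (H3_Av_const_le hZ0) (by norm_num)
  -- the weight
  have hh0 : 0 ≤ hN t m v0 y0 := H3_hN_nonneg ht hm hv0p hy0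
  have hh0' : 0 ≤ hN t m v y := H3_hN_nonneg ht hm hv hy
  set W := 1 / (3 * δ + 15000 * hN t m v0 y0) with hW
  set W' := 1 / (3 * δ + 15000 * hN t m v y) with hW'
  have dW : |W - W'| ≤ 15000 / (9 * δ ^ 2) * |hN t m v0 y0 - hN t m v y| := H3_W hδ hh0 hh0'
  obtain ⟨hW0, hW1⟩ := H3_W_le hδ hh0
  obtain ⟨hW0', hW1'⟩ := H3_W_le hδ hh0'
  rw [← hW] at hW0 hW1
  rw [← hW'] at hW0' hW1'
  have k3 : v ^ 3 * |hN t m v0 y0 - hN t m v y| ≤ (v ^ 2 * E / m + v ^ 2 * (v0 - v)) / t := by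
    have h1 : |hN t m v0 y0 - hN t m v y| ≤
        Av (fun l => |(y0 l - v0) / (m * v0) - (y l - v) / (m * v)|) / t := by
      unfold hN
      rw [← sub_div, abs_div, abs_of_pos ht]
      refine div_le_div_of_nonneg_right ?_ ht.le
      refine (H3_Av_sub_abs _ _).trans (H3_Av_le fun l => ?_)
      refine (abs_min_sub_min_le_max _ _ _ _).trans ?_
      rw [sub_self, abs_zero]
      exact max_le (le_refl _) (abs_nonneg _)
    calc v ^ 3 * |hN t m v0 y0 - hN t m v y|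
        ≤ v ^ 3 * (Av (fun l => |(y0 l - v0) / (m * v0) - (y l - v) / (m * v)|) / t) :=
          mul_le_mul_of_nonneg_left h1 (by positivity)
      _ = (v ^ 3 * Av (fun l => |(y0 l - v0) / (m * v0) - (y l - v) / (m * v)|)) / t := by ring
      _ ≤ _ := div_le_div_of_nonneg_right DB ht.le
  have k4 : v ^ 3 * |W - W'| ≤
      15000 / (9 * δ ^ 2) * ((v ^ 2 * E / m + v ^ 2 * (v0 - v)) / t) := by
    calc v ^ 3 * |W - W'| ≤ v ^ 3 * (15000 / (9 * δ ^ 2) * |hN t m v0 y0 - hN t m v y|) :=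
          mul_le_mul_of_nonneg_left dW (by positivity)
      _ = 15000 / (9 * δ ^ 2) * (v ^ 3 * |hN t m v0 y0 - hN t m v y|) := by ring
      _ ≤ _ := mul_le_mul_of_nonneg_left k3 (by positivity)
  have g1 : gN t δ m v0 x y0 r = v0 ^ 3 * (φ * W) := by
    unfold gN
    rw [hφ, hW]
    ring
  have g2 : cN t δ m v v0 x y r = v ^ 3 * (φ' * W') := by
    unfold cN
    rw [hφ', hW']
    ring
  rw [g1, g2]
  set Y := v ^ 2 * E / m + v ^ 2 * (v0 - v) with hY
  have hY0 : 0 ≤ Y := by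
    rw [hY]
    have : 0 ≤ v0 - v := by linarith
    positivity
  calc |v0 ^ 3 * (φ * W) - v ^ 3 * (φ' * W')|
      = |(v0 ^ 3 - v ^ 3) * (φ * W) + (v ^ 3 * (φ - φ') * W + v ^ 3 * φ' * (W - W'))| := by
        congr 1; ring
    _ ≤ |(v0 ^ 3 - v ^ 3) * (φ * W)| + (|v ^ 3 * (φ - φ') * W| + |v ^ 3 * φ' * (W - W')|) :=
        (abs_add_le _ _).trans (add_le_add le_rfl (abs_add_le _ _))
    _ = |v0 ^ 3 - v ^ 3| * (φ * W) + ((v ^ 3 * |φ - φ'|) * W + (v ^ 3 * |W - W'|) * φ') := by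
        rw [abs_mul, abs_of_nonneg (mul_nonneg hφ0 hW0.le), abs_mul, abs_mul, abs_mul, abs_mul,
          abs_of_pos hW0, abs_of_nonneg hφ0', abs_of_pos (by positivity : 0 < v ^ 3)]
        ring
    _ ≤ |v0 ^ 3 - v ^ 3| * (1 * (1 / (3 * δ))) +
        ((1026 / t * (2 * Z + Y)) * (1 / (3 * δ)) + (15000 / (9 * δ ^ 2) * (Y / t)) * 1) := by
        refine add_le_add ?_ (add_le_add ?_ ?_)
        · exact mul_le_mul_of_nonneg_left (mul_le_mul hφ1 hW1 hW0.le zero_le_one) (abs_nonneg _)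
        · exact mul_le_mul k2 hW1 hW0.le (by positivity)
        · exact mul_le_mul k4 hφ1' hφ0' (by positivity)
    _ ≤ 1 / (3 * δ) * |v0 ^ 3 - v ^ 3| +
        (1026 / (3 * δ * t) + 15000 / (9 * δ ^ 2 * t)) * (2 * Z + Y) := by
        have h5 : (1026 / t * (2 * Z + Y)) * (1 / (3 * δ)) = 1026 / (3 * δ * t) * (2 * Z + Y) := by
          field_simp
        have h6 : 15000 / (9 * δ ^ 2) * (Y / t) * 1 ≤ 15000 / (9 * δ ^ 2 * t) * (2 * Z + Y) := by
          have : 15000 / (9 * δ ^ 2) * (Y / t) * 1 = 15000 / (9 * δ ^ 2 * t) * Y := by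
            field_simp
          rw [this]
          refine mul_le_mul_of_nonneg_left ?_ (by positivity)
          linarith
        rw [h5]
        nlinarith
    _ = _ := by
        rw [hY]
        ring

end Pool.Agent.Lib.MP_9cae81_PC
end

section

/-!
# (H3), states

`G3` is the functional of (H3) with a marked literal, `C3` the same seen by the new variable with
the base `F'`; `E3` is the error.
-/

set_option autoImplicit false

open Finset Filter
open scoped BigOperators Topology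

namespace Pool.Agent.Lib.MP_9cae81_PC

open Pool.Agent.Lib.MP_9cae81_R

section Def

variable {V : Type} [Fintype V]

open Classical in
/-- The functional with a marked literal. -/
noncomputable def G3 (q t δ : ℝ) (S : As V) (a : Lt V) : ℝ :=
  if S = ∅ then 0 else gN t δ (muq q) (vv q S) (vv q (S ∩ lit a)) (fun l => vv q (S ∩ lit l))
    (fun l => vv q (S ∩ (lit a ∪ lit l)))

open Classical in
/-- The functional seen by the new variable. -/
noncomputable def C3 (q t δ : ℝ) (M A B : As V) : ℝ :=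
  if M = ∅ then 0 else cN t δ (muq q) (vv q M) (vv q (M ∩ (A ∪ B))) (vv q (M ∩ B))
    (fun l => vv q (M ∩ lit l)) (fun l => vv q (M ∩ (B ∪ (A ∩ lit l))))

/-- The three error terms. -/
noncomputable def X3 (q : ℝ) (M A B : As V) : ℝ :=
  ss q M * ((vv q (M ∩ A) - vv q M) * (vv q (M ∩ B) - vv q M)) / muq q +
    ss q M ^ 2 * (vv q (M ∩ A) - vv q M) +
    ss q M ^ 2 * Av (fun y => |sd2 q (A ∪ B) (lit y) M|) / muq q

/-- The constant of the base change. -/
noncomputable def B3C (t δ : ℝ) : ℝ := 1026 / (3 * δ * t) + 15000 / (9 * δ ^ 2 * t)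

/-- The error. -/
noncomputable def E3 (q t δ e : ℝ) (M A B : As V) : ℝ :=
  H3C t δ (muq q) * (e * (ss q (M ∩ (A ∪ B)) + e)) +
    1 / (3 * δ) * |ss q (M ∩ (A ∪ B)) ^ 3 - ss q M ^ 3| + 2 * B3C t δ * X3 q M A B

end Def

section State

variable {V : Type} [Fintype V] [Nonempty V] [DecidableEq V] {q : ℝ} (hq : 0 < q)
  (hq1 : q < 1)

omit [DecidableEq V] in
theorem H3_ss_ne {S : As V} (h : S ≠ ∅) : ss q S = vv q S := (AS V).s_of_sat (una_of_ne h)

omit [DecidableEq V] in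
include hq hq1 in
theorem H3_ss_emp : ss q (∅ : As V) = 0 := by
  have h1 : ss q (∅ : As V) = vv q (∅ : As V) - una (∅ : As V) := rfl
  rw [h1, vv_empty hq.le hq1, una_emp, sub_self]

omit [DecidableEq V] in
include hq hq1 in
theorem H3_ss_nn (S : As V) : 0 ≤ ss q S := (AS V).s_nonneg hq.le hq1 S

omit [DecidableEq V] in
include hq hq1 in
theorem H3_X3_nonneg (M A B : As V) : 0 ≤ X3 q M A B := by
  have h1 := H3_ss_nn hq hq1 M
  have h2 : 0 ≤ vv q (M ∩ A) - vv q M := by linarith [vv_le_inter hq.le hq1 M A]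
  have h3 : 0 ≤ vv q (M ∩ B) - vv q M := by linarith [vv_le_inter hq.le hq1 M B]
  have h4 := muq_pos hq hq1
  have h5 : 0 ≤ Av (fun y : Lt V => |sd2 q (A ∪ B) (lit y) M|) :=
    H3_Av_nonneg fun _ => abs_nonneg _
  unfold X3
  positivity

theorem H3_B3C_pos {t δ : ℝ} (ht : 0 < t) (hδ : 0 < δ) : 0 < B3C t δ := by
  unfold B3C
  positivity

theorem H3_H3C_pos {t δ m : ℝ} (ht : 0 < t) (hδ : 0 < δ) (hm : 0 < m) : 0 < H3C t δ m := by
  unfold H3C
  positivity

include hq hq1 in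
/-- The functional is dominated by `v³ / (3 δ)`. -/
theorem H3_G3_bound {t δ : ℝ} (ht : 0 < t) (hδ : 0 < δ) (S : As V) (a : Lt V) :
    0 ≤ G3 q t δ S a ∧ 3 * δ * G3 q t δ S a ≤ ss q S ^ 3 := by
  unfold G3
  by_cases h : S = ∅
  · rw [if_pos h, h, H3_ss_emp hq hq1]
    constructor <;> norm_num
  · rw [if_neg h, H3_ss_ne h]
    have hv := vv_pos hq hq1 S
    have hm := muq_pos hq hq1
    have hh : 0 ≤ hN t (muq q) (vv q S) (fun l => vv q (S ∩ lit l)) :=
      H3_hN_nonneg ht hm hv fun l => vv_le_inter hq.le hq1 S _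
    set φ := Av fun l => ph t ((vv q (S ∩ lit a) - vv q S) / (muq q * vv q S))
      ((vv q (S ∩ lit l) - vv q S) / (muq q * vv q S))
      ((vv q (S ∩ (lit a ∪ lit l)) - vv q S) / (muq q * vv q S)) with hφ
    have hφ0 : 0 ≤ φ := H3_Av_nonneg fun l => ph_nonneg _ _ _ _
    have hφ1 : φ ≤ 1 := H3_Av_le_one fun l => ph_le_one _ _ _ _
    have e1 : gN t δ (muq q) (vv q S) (vv q (S ∩ lit a)) (fun l => vv q (S ∩ lit l))
        (fun l => vv q (S ∩ (lit a ∪ lit l))) = vv q S ^ 3 * φ /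
        (3 * δ + 15000 * hN t (muq q) (vv q S) (fun l => vv q (S ∩ lit l))) := rfl
    rw [e1]
    have hD : 0 < 3 * δ + 15000 * hN t (muq q) (vv q S) (fun l => vv q (S ∩ lit l)) := by
      positivity
    refine ⟨by positivity, ?_⟩
    rw [mul_div_assoc', div_le_iff₀ hD]
    have h3 : 0 ≤ vv q S ^ 3 := by positivity
    calc 3 * δ * (vv q S ^ 3 * φ) ≤ 3 * δ * (vv q S ^ 3 * 1) :=
          mul_le_mul_of_nonneg_left (mul_le_mul_of_nonneg_left hφ1 h3) (by positivity)
      _ = vv q S ^ 3 * (3 * δ) := by ring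
      _ ≤ _ := mul_le_mul_of_nonneg_left (by linarith) h3

include hq hq1 in
/-- The base change, states. -/
theorem H3_state_base {t δ : ℝ} (ht : 0 < t) (hδ : 0 < δ) {M A B : As V}
    (hM : M ≠ ∅) :
    |gN t δ (muq q) (vv q (M ∩ (A ∪ B))) (vv q (M ∩ B)) (fun l => vv q (M ∩ (A ∪ B) ∩ lit l))
      (fun l => vv q (M ∩ (B ∪ (A ∩ lit l)))) - C3 q t δ M A B| ≤
      1 / (3 * δ) * |vv q (M ∩ (A ∪ B)) ^ 3 - ss q M ^ 3| + 2 * B3C t δ * X3 q M A B := by
  have hv := vv_pos hq hq1 M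
  have hm := muq_pos hq hq1
  have hv0 : vv q M ≤ vv q (M ∩ (A ∪ B)) := vv_le_inter hq.le hq1 M _
  have hx : vv q (M ∩ (A ∪ B)) ≤ vv q (M ∩ B) :=
    vv_anti hq.le hq1 (Set.inter_subset_inter_right M Set.subset_union_right)
  have hxA : vv q (M ∩ (A ∪ B)) ≤ vv q (M ∩ A) :=
    vv_anti hq.le hq1 (Set.inter_subset_inter_right M Set.subset_union_left)
  unfold C3
  rw [if_neg hM, H3_ss_ne hM]
  have key := H3_base (t := t) (δ := δ) (m := muq q) (v := vv q M) (v0 := vv q (M ∩ (A ∪ B)))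
    (x := vv q (M ∩ B)) (y := fun l : Lt V => vv q (M ∩ lit l))
    (y0 := fun l => vv q (M ∩ (A ∪ B) ∩ lit l)) (r := fun l => vv q (M ∩ (B ∪ (A ∩ lit l))))
    ht hδ hm hv hv0 hx (fun l => vv_le_inter hq.le hq1 M _)
    (fun l => vv_le_inter hq.le hq1 _ _)
    (fun l => vv_anti hq.le hq1 (Set.inter_subset_inter_right M (by
      intro σ hσ
      rcases hσ with hσ | hσ
      · exact Or.inr hσ
      · exact Or.inl hσ.1)))
    (fun l => vv_anti hq.le hq1 (Set.inter_subset_inter_right M Set.subset_union_left))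
    (by
      have h1 := PFS_Av_d_le hq hq1 M
      have h2 : (PFS hq hq1 M).d = fun l : Lt V =>
          (vv q (M ∩ lit l) - vv q M) / (muq q * vv q M) := by
        funext l
        rw [PFS_d' hq hq1 M l]
        rfl
      rw [h2] at h1
      exact h1)
  refine key.trans (add_le_add le_rfl ?_)
  have hE : Av (fun l : Lt V => |vv q (M ∩ (A ∪ B) ∩ lit l) - vv q (M ∩ (A ∪ B)) -
      (vv q (M ∩ lit l) - vv q M)|) = Av (fun y => |sd2 q (A ∪ B) (lit y) M|) := by
    congr 1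
    funext l
    congr 1
    unfold sd2
    ring
  rw [hE]
  unfold X3 B3C
  rw [H3_ss_ne hM]
  set E := Av (fun y : Lt V => |sd2 q (A ∪ B) (lit y) M|) with hEdef
  have hE0 : 0 ≤ E := H3_Av_nonneg fun _ => abs_nonneg _
  set v := vv q M
  set v0 := vv q (M ∩ (A ∪ B))
  set xB := vv q (M ∩ B)
  set xA := vv q (M ∩ A)
  have hK : 0 ≤ 1026 / (3 * δ * t) + 15000 / (9 * δ ^ 2 * t) := by positivity
  rw [show 2 * (1026 / (3 * δ * t) + 15000 / (9 * δ ^ 2 * t)) *
      (v * ((xA - v) * (xB - v)) / muq q + v ^ 2 * (xA - v) + v ^ 2 * E / muq q) =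
      (1026 / (3 * δ * t) + 15000 / (9 * δ ^ 2 * t)) * (2 *
        (v * ((xA - v) * (xB - v)) / muq q + v ^ 2 * (xA - v) + v ^ 2 * E / muq q)) by ring]
  refine mul_le_mul_of_nonneg_left ?_ hK
  have h1 : v * (xB - v0) * (v0 - v) / muq q ≤ v * ((xA - v) * (xB - v)) / muq q := by
    refine div_le_div_of_nonneg_right ?_ hm.le
    rw [mul_assoc]
    refine mul_le_mul_of_nonneg_left ?_ hv.le
    rw [mul_comm]
    exact mul_le_mul (by linarith) (by linarith) (by linarith) (by linarith)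
  have h2 : v ^ 2 * (v0 - v) ≤ v ^ 2 * (xA - v) :=
    mul_le_mul_of_nonneg_left (by linarith) (by positivity)
  have h3 : 0 ≤ v ^ 2 * (xA - v) := mul_nonneg (by positivity) (by linarith)
  have h4 : 0 ≤ v ^ 2 * E / muq q := by positivity
  linarith

end State

section Cavity

variable {n : ℕ} {q : ℝ} (hq : 0 < q) (hq1 : q < 1)

include hq hq1 in
/-- The new variable. -/
theorem H3_cav_gen (hn : 0 < n) {t δ e : ℝ} (ht : 0 < t) (hδ : 0 < δ)
    (he : 1 / (muq q * (n + 1)) ≤ e) (he' : 1 / ((n : ℝ) + 1) ≤ e) (i : Fin (n + 1))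
    (M A B : As (Fin n)) (J : As (Fin (n + 1))) (b : Lt (Fin (n + 1)))
    (hpr : pr i J = M ∩ (A ∪ B)) (hprb : pr i (J ∩ lit b) = M ∩ B)
    (hprl : ∀ T, pr i (J ∩ lf i T) = M ∩ (A ∪ B) ∩ T)
    (hpro : ∀ T, pr i (J ∩ (lit b ∪ lf i T)) = M ∩ (B ∪ (A ∩ T))) :
    |G3 q t δ J b - C3 q t δ M A B| ≤ E3 q t δ e M A B := by
  have : Nonempty (Fin n) := ⟨⟨0, hn⟩⟩
  have hm := muq_pos hq hq1
  have hH := (H3_H3C_pos ht hδ hm : 0 < H3C t δ (muq q))
  have hB := H3_B3C_pos ht hδ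
  have hX := H3_X3_nonneg hq hq1 M A B
  have he0 : 0 < e := lt_of_lt_of_le (by positivity) he'
  have hS0 := H3_ss_nn hq hq1 (M ∩ (A ∪ B))
  have hune : J = ∅ ↔ M ∩ (A ∪ B) = ∅ := by
    rw [← una_eq_one, ← una_eq_one, ← A5_un i J, hpr]
  by_cases h0 : M ∩ (A ∪ B) = ∅
  · have h1 : G3 q t δ (J) b = 0 := by
      unfold G3
      rw [if_pos (hune.2 h0)]
    rw [h1, zero_sub, abs_neg]
    unfold E3
    rw [h0, H3_ss_emp hq hq1]
    by_cases hM : M = ∅
    · unfold C3
      rw [if_pos hM, abs_zero]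
      have h4 : 0 ≤ H3C t δ (muq q) * (e * (0 + e)) :=
        mul_nonneg hH.le (mul_nonneg he0.le (by linarith))
      have h5 : 0 ≤ 2 * B3C t δ * X3 q M A B := mul_nonneg (by linarith) hX
      have h6 : 0 ≤ 1 / (3 * δ) * |(0 : ℝ) ^ 3 - ss q M ^ 3| := by positivity
      linarith
    · have hv := vv_pos hq hq1 M
      have h2 : |C3 q t δ M A B| ≤ 1 / (3 * δ) * ss q M ^ 3 := by
        unfold C3 cN
        rw [if_neg hM, H3_ss_ne hM]
        have hh : 0 ≤ hN t (muq q) (vv q M) (fun l => vv q (M ∩ lit l)) :=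
          H3_hN_nonneg ht hm hv fun l => vv_le_inter hq.le hq1 M _
        obtain ⟨w0, w1⟩ := H3_W_le hδ hh
        set φ := Av fun l => ph t ((vv q (M ∩ B) - vv q (M ∩ (A ∪ B))) / (muq q * vv q M))
          ((vv q (M ∩ lit l) - vv q M) / (muq q * vv q M))
          ((vv q (M ∩ (B ∪ A ∩ lit l)) - vv q (M ∩ (A ∪ B))) / (muq q * vv q M)) with hφ
        have hφ0 : 0 ≤ φ := H3_Av_nonneg fun l => ph_nonneg _ _ _ _
        have hφ1 : φ ≤ 1 := H3_Av_le_one fun l => ph_le_one _ _ _ _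
        rw [abs_of_nonneg (by positivity)]
        calc vv q M ^ 3 * φ / (3 * δ + 15000 * hN t (muq q) (vv q M) (fun l => vv q (M ∩ lit l)))
            = vv q M ^ 3 * φ * (1 / (3 * δ + 15000 * hN t (muq q) (vv q M)
                (fun l => vv q (M ∩ lit l)))) := by ring
          _ ≤ vv q M ^ 3 * 1 * (1 / (3 * δ)) := by
              refine mul_le_mul (mul_le_mul_of_nonneg_left hφ1 (by positivity)) w1 w0.le
                (by positivity)
          _ = _ := by ring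
      refine h2.trans ?_
      have h3 : |(0 : ℝ) ^ 3 - ss q M ^ 3| = ss q M ^ 3 := by
        have h6 : 0 ≤ ss q M ^ 3 := pow_nonneg (H3_ss_nn hq hq1 M) 3
        rw [show (0 : ℝ) ^ 3 - ss q M ^ 3 = -(ss q M ^ 3) by ring, abs_neg, abs_of_nonneg h6]
      rw [h3]
      have h4 : 0 ≤ H3C t δ (muq q) * (e * (0 + e)) :=
        mul_nonneg hH.le (mul_nonneg he0.le (by linarith))
      have h5 : 0 ≤ 2 * B3C t δ * X3 q M A B := mul_nonneg (by linarith) hX
      linarith
  · have hM : M ≠ ∅ := fun h => h0 (by rw [h, Set.empty_inter])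
    have hS : J ≠ ∅ := fun h => h0 (hune.1 h)
    have h1 : G3 q t δ (J) b = gN t δ (muq q) (vv q (J))
        (vv q (J ∩ lit b)) (fun l => vv q (J ∩ lit l))
        (fun l => vv q (J ∩ (lit b ∪ lit l))) := by
      unfold G3
      rw [if_neg hS]
    have sh : ∀ S : As (Fin (n + 1)), |vv q S - vv q (pr i S)| ≤ e :=
      fun S => (A5_shift hq hq1 i S).trans he
    have hnum := H3_num hn i (t := t) (δ := δ) (m := muq q) (v := vv q (J))
      (v' := vv q (M ∩ (A ∪ B))) (x := vv q (J ∩ lit b)) (x' := vv q (M ∩ B))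
      (e := e) (y := fun l => vv q (J ∩ lit l))
      (r := fun l => vv q (J ∩ (lit b ∪ lit l)))
      (y' := fun l => vv q (M ∩ (A ∪ B) ∩ lit l)) (r' := fun l => vv q (M ∩ (B ∪ (A ∩ lit l))))
      ht hδ hm (vv_pos hq hq1 _) (vv_pos hq hq1 _) (vv_le_one hq.le hq1 _) (vv_le_one hq.le hq1 _)
      he' (vv_anti hq.le hq1 (Set.inter_subset_inter_right M Set.subset_union_right))
      (fun l => vv_le_inter hq.le hq1 _ _) (fun l => vv_le_inter hq.le hq1 _ _)
      (fun l => vv_anti hq.le hq1 (Set.inter_subset_inter_right M (by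
        intro σ hσ
        rcases hσ with hσ | hσ
        · exact Or.inr hσ
        · exact Or.inl hσ.1)))
      (fun l => vv_anti hq.le hq1 (Set.inter_subset_inter_right _ Set.subset_union_left))
      (fun l => vv_anti hq.le hq1 (Set.inter_subset_inter_right M Set.subset_union_left))
      (fun l => vv_le_inter hq.le hq1 _ _)
      (by have := sh (J); rwa [hpr] at this)
      (by have := sh (J ∩ lit b); rwa [hprb] at this)
      (fun a => by
        have := sh (J ∩ lit (i.succAbove a.1, a.2))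
        rwa [← A5_lit, hprl] at this)
      (fun a => by
        have := sh (J ∩ (lit b ∪ lit (i.succAbove a.1, a.2)))
        rwa [← A5_lit, hpro] at this)
    have hbase := H3_state_base hq hq1 ht hδ (A := A) (B := B) hM
    rw [h1]
    unfold E3
    rw [H3_ss_ne h0]
    calc |gN t δ (muq q) (vv q (J)) (vv q (J ∩ lit b))
          (fun l => vv q (J ∩ lit l))
          (fun l => vv q (J ∩ (lit b ∪ lit l))) - C3 q t δ M A B|
        ≤ _ := abs_sub_le _ (gN t δ (muq q) (vv q (M ∩ (A ∪ B))) (vv q (M ∩ B))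
            (fun l => vv q (M ∩ (A ∪ B) ∩ lit l)) (fun l => vv q (M ∩ (B ∪ (A ∩ lit l))))) _
      _ ≤ _ := add_le_add hnum hbase
      _ = _ := by ring

include hq hq1 in
theorem H3_cav_true (hn : 0 < n) {t δ e : ℝ} (ht : 0 < t) (hδ : 0 < δ)
    (he : 1 / (muq q * (n + 1)) ≤ e) (he' : 1 / ((n : ℝ) + 1) ≤ e) (i : Fin (n + 1))
    (M A B : As (Fin n)) :
    |G3 q t δ (jn i M A B) (i, true) - C3 q t δ M A B| ≤ E3 q t δ e M A B :=
  H3_cav_gen hq hq1 hn ht hδ he he' i M A B _ _ (pr_jn i M A B) (pr_jn_true i M A B)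
    (fun T => pr_jn_lf i M A B T) (fun T => pr_jn_or_true i M A B T)

include hq hq1 in
theorem H3_cav_false (hn : 0 < n) {t δ e : ℝ} (ht : 0 < t) (hδ : 0 < δ)
    (he : 1 / (muq q * (n + 1)) ≤ e) (he' : 1 / ((n : ℝ) + 1) ≤ e) (i : Fin (n + 1))
    (M A B : As (Fin n)) :
    |G3 q t δ (jn i M A B) (i, false) - C3 q t δ M B A| ≤ E3 q t δ e M B A :=
  H3_cav_gen hq hq1 hn ht hδ he he' i M B A _ _
    (by rw [Set.union_comm]; exact pr_jn i M A B) (pr_jn_false i M A B)
    (fun T => by rw [Set.union_comm]; exact pr_jn_lf i M A B T)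
    (fun T => pr_jn_or_false i M A B T)

/-- Two independent gadgets may be exchanged. -/
theorem H3_GA_swap {V : Type} [Fintype V] [DecidableEq V] (v w : ℝ) (f : As V → As V → ℝ) :
    GA v w 1 (fun A => GA v w 1 (fun B => f B A)) = GA v w 1 (fun A => GA v w 1 (fun B => f A B)) :=
  EE_comm (gq v w 1) (gq v w 1) (fun F G => f (Md G) (Md F))

include hq hq1 in
/-- The cavity functional against the functional of the new variable. -/
theorem H3_cav (hn : 0 < n) {t δ e v w : ℝ} (ht : 0 < t) (hδ : 0 < δ) (hv : 0 ≤ v) (hw : 0 ≤ w)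
    (he : 1 / (muq q * (n + 1)) ≤ e) (he' : 1 / ((n : ℝ) + 1) ≤ e) (M : As (Fin n)) :
    |cav v w (fun _ S a => G3 q t δ S a) n M -
      GA v w 1 (fun A => GA v w 1 (fun B => C3 q t δ M A B))| ≤
      GA v w 1 (fun A => GA v w 1 (fun B => E3 q t δ e M A B)) := by
  set X := GA v w 1 (fun A => GA v w 1 (fun B => C3 q t δ M A B)) with hX
  set Y := GA v w 1 (fun A => GA v w 1 (fun B => E3 q t δ e M A B)) with hY
  have hone : ∀ a : Lt (Fin (n + 1)),
      |GA v w 1 (fun A => GA v w 1 (fun B => G3 q t δ (jn a.1 M A B) a)) - X| ≤ Y := by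
    rintro ⟨i, b⟩
    have gen : ∀ f g : As (Fin n) → As (Fin n) → ℝ,
        (∀ A B, |G3 q t δ (jn i M A B) (i, b) - f A B| ≤ g A B) →
        |GA v w 1 (fun A => GA v w 1 (fun B => G3 q t δ (jn i M A B) (i, b))) -
          GA v w 1 (fun A => GA v w 1 (fun B => f A B))| ≤
        GA v w 1 (fun A => GA v w 1 (fun B => g A B)) := by
      intro f g h
      rw [← B2.GA_sub]
      have e1 : (fun A => GA v w 1 (fun B => G3 q t δ (jn i M A B) (i, b)) -
          GA v w 1 (fun B => f A B)) =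
          fun A => GA v w 1 (fun B => G3 q t δ (jn i M A B) (i, b) - f A B) := by
        funext A
        rw [B2.GA_sub]
      rw [e1, abs_le]
      constructor
      · rw [neg_le_iff_add_nonneg, ← B2.GA_add]
        refine B2.GA_nonneg hv hw zero_le_one fun A => ?_
        rw [← B2.GA_add]
        refine B2.GA_nonneg hv hw zero_le_one fun B => ?_
        linarith [(abs_le.1 (h A B)).1]
      · refine B2.GA_mono hv hw zero_le_one fun A => B2.GA_mono hv hw zero_le_one fun B => ?_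
        exact (abs_le.1 (h A B)).2
    cases b
    · have h1 := gen (fun A B => C3 q t δ M B A) (fun A B => E3 q t δ e M B A)
        (fun A B => H3_cav_false hq hq1 hn ht hδ he he' i M A B)
      rw [H3_GA_swap v w (fun A B => C3 q t δ M A B),
        H3_GA_swap v w (fun A B => E3 q t δ e M A B)] at h1
      exact h1
    · exact gen _ _ (fun A B => H3_cav_true hq hq1 hn ht hδ he he' i M A B)
  have hc : 0 < (Fintype.card (Lt (Fin (n + 1))) : ℝ) := by
    have : Nonempty (Lt (Fin (n + 1))) := ⟨(0, true)⟩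
    exact_mod_cast Fintype.card_pos
  unfold cav
  have e2 : (∑ a : Lt (Fin (n + 1)), GA v w 1 (fun A => GA v w 1
      (fun B => G3 q t δ (jn a.1 M A B) a))) / (Fintype.card (Lt (Fin (n + 1))) : ℝ) - X =
      (∑ a : Lt (Fin (n + 1)), (GA v w 1 (fun A => GA v w 1
      (fun B => G3 q t δ (jn a.1 M A B) a)) - X)) / (Fintype.card (Lt (Fin (n + 1))) : ℝ) := by
    rw [Finset.sum_sub_distrib, Finset.sum_const, Finset.card_univ, nsmul_eq_mul]
    field_simp
  rw [e2, abs_div, abs_of_pos hc, div_le_iff₀ hc]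
  refine (Finset.abs_sum_le_sum_abs _ _).trans ?_
  refine (Finset.sum_le_card_nsmul _ _ Y fun a _ => hone a).trans (le_of_eq ?_)
  rw [Finset.card_univ, nsmul_eq_mul, mul_comm]

end Cavity

/-! ### The dictionary with the interface -/

section Dict

variable {q : ℝ} (hq : 0 < q) (hq1 : q < 1)

theorem H3_dict {n : ℕ} {t δ v w : ℝ} (S : As (Fin (n + 1))) :
    H3f hq hq1 δ t v w (n + 1) S =
      GA v w 1 (fun A => GA v w 1 (fun B => C3 q t δ S A B)) -
        avL (fun _ S a => G3 q t δ S a) (n + 1) S := by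
  show ss q S ^ 3 * (((PFS hq hq1 S).Nt (gq v w 1) t - (PFS hq hq1 S).Gt t) /
    (3 * δ + 15000 * (PFS hq hq1 S).hh t)) = _
  by_cases hS : S = ∅
  · subst hS
    rw [H3_ss_emp hq hq1]
    have h1 : ∀ A B : As (Fin (n + 1)), C3 q t δ (∅ : As (Fin (n + 1))) A B = 0 := by
      intro A B
      unfold C3
      rw [if_pos rfl]
    have h2 : ∀ a : Lt (Fin (n + 1)), G3 q t δ (∅ : As (Fin (n + 1))) a = 0 := by
      intro a
      unfold G3
      rw [if_pos rfl]
    simp only [h1, B2.GA_const, avL, h2, Finset.sum_const_zero, zero_div, sub_zero]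
    ring
  · have hhh : (PFS hq hq1 S).hh t = hN t (muq q) (vv q S) (fun l => vv q (S ∩ lit l)) := by
      unfold PF.hh hN
      simp only [PFS_d']
      rfl
    set W := 3 * δ + 15000 * hN t (muq q) (vv q S) (fun l => vv q (S ∩ lit l)) with hW
    rw [H3_ss_ne hS, hhh, ← hW, sub_div, mul_sub]
    congr 1
    · have e1 : ∀ A B : As (Fin (n + 1)), C3 q t δ S A B = vv q S ^ 3 / W *
          Av (fun l : Lt (Fin (n + 1)) => ph t ((vv q (S ∩ B) - vv q (S ∩ (A ∪ B))) /
            (muq q * vv q S)) ((vv q (S ∩ lit l) - vv q S) / (muq q * vv q S))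
            ((vv q (S ∩ (B ∪ (A ∩ lit l))) - vv q (S ∩ (A ∪ B))) / (muq q * vv q S))) := by
        intro A B
        unfold C3
        rw [if_neg hS]
        unfold cN
        rw [← hW]
        ring
      simp only [e1, B2.GA_mul]
      rw [show vv q S ^ 3 * ((PFS hq hq1 S).Nt (gq v w 1) t / W) =
        vv q S ^ 3 / W * (PFS hq hq1 S).Nt (gq v w 1) t by ring]
      congr 1
      unfold PF.Nt E2
      simp only [PFS_dx, PFS_rx, PFS_d']
      rfl
    · have e1 : ∀ a : Lt (Fin (n + 1)), G3 q t δ S a = vv q S ^ 3 / W *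
          Av (fun l : Lt (Fin (n + 1)) => ph t ((vv q (S ∩ lit a) - vv q S) /
            (muq q * vv q S)) ((vv q (S ∩ lit l) - vv q S) / (muq q * vv q S))
            ((vv q (S ∩ (lit a ∪ lit l)) - vv q S) / (muq q * vv q S))) := by
        intro a
        unfold G3
        rw [if_neg hS]
        unfold gN
        rw [← hW]
        ring
      have e2 : avL (fun _ S a => G3 q t δ S a) (n + 1) S =
          Av (fun a : Lt (Fin (n + 1)) => G3 q t δ S a) := rfl
      rw [e2]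
      simp only [e1]
      rw [H3_Av_mul]
      rw [show vv q S ^ 3 * ((PFS hq hq1 S).Gt t / W) =
        vv q S ^ 3 / W * (PFS hq hq1 S).Gt t by ring]
      congr 1
      unfold PF.Gt
      simp only [PFS_d', PFS_r]
      rfl

end Dict

end Pool.Agent.Lib.MP_9cae81_PC
end
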