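import Mathlib
import Pool.Agent.Lib.MP_9cae81_R.Mg.G009
import Pool.Agent.Lib.MP_9cae81_PC.Mg.G005
import Pool.Agent.Lib.MP_9cae81_PC.P3a

section

/-! MP_9cae81 PC: the pointwise bound (C*) for the table functional of `x ^ (1 - η)`. -/
namespace MP9cae81PC

open Real

/-- The table functional of `ψ(x) = x ^ (1 - η)`: `a = d_A`, `b = d_B`, `R = d_(A or B)`. -/
noncomputable def Kt (η a b R : ℝ) : ℝ :=
  2 * R ^ (1 - η) + (a + b) ^ (1 - η) - 2 * a ^ (1 - η) - 2 * b ^ (1 - η)
    + (a - R) ^ (1 - η) + (b - R) ^ (1 - η)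

theorem Kt_symm (η a b R : ℝ) : Kt η a b R = Kt η b a R := by
  unfold Kt; rw [add_comm a b]; ring

/-- pointwise Hellinger bound. -/
theorem xlogx_ge {x y m : ℝ} (hx : 0 ≤ x) (hy : 0 < y) (hxm : x ≤ m) (hym : y ≤ m) :
    (x - y) ^ 2 / (4 * m) ≤ x * log x - x * log y - x + y := by
  have hm : 0 < m := lt_of_lt_of_le hy hym
  have h1 : (√x - √y) ^ 2 ≤ x * log x - x * log y - x + y := by
    rcases hx.eq_or_lt with h0 | h0
    · subst h0
      simp [Real.sq_sqrt hy.le]
    · have hs : 0 < √x := Real.sqrt_pos.2 h0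
      have ht : 0 < √y := Real.sqrt_pos.2 hy
      have hl : 1 - (√x / √y)⁻¹ ≤ log (√x / √y) :=
        Real.one_sub_inv_le_log_of_pos (div_pos hs ht)
      have hl2 : log (√x / √y) = (log x - log y) / 2 := by
        rw [Real.log_div hs.ne' ht.ne', Real.log_sqrt hx, Real.log_sqrt hy.le]; ring
      rw [hl2, inv_div] at hl
      have hxs : √x * √x = x := Real.mul_self_sqrt hx
      have hys : √y * √y = y := Real.mul_self_sqrt hy.le
      have h2 : x * (1 - √y / √x) ≤ x * ((log x - log y) / 2) :=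
        mul_le_mul_of_nonneg_left hl hx
      have h3 : x * (√y / √x) = √x * √y := by
        rw [← mul_div_assoc, div_eq_iff hs.ne']
        nlinarith
      nlinarith
  refine le_trans ?_ h1
  rw [div_le_iff₀ (by positivity)]
  have hxs : √x * √x = x := Real.mul_self_sqrt hx
  have hys : √y * √y = y := Real.mul_self_sqrt hy.le
  have h4 : (x - y) = (√x - √y) * (√x + √y) := by nlinarith
  have h5 : (√x + √y) ^ 2 ≤ 4 * m := by
    nlinarith [sq_nonneg (√x - √y)]
  rw [h4, mul_pow]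
  exact mul_le_mul_of_nonneg_left h5 (sq_nonneg _)

/-- `total * mutual information` is at least `dev² / (2 b)`. -/
theorem MI_ge {a b R : ℝ} (hb : 0 < b) (hab : b ≤ a) (hR : 0 ≤ R) (hRb : R ≤ b) :
    (R - a * b / (a + b)) ^ 2 / (2 * b) ≤
      2 * (R * log R) + (a + b) * log (a + b) - 2 * (a * log a) - 2 * (b * log b)
        + (a - R) * log (a - R) + (b - R) * log (b - R) := by
  have ha : 0 < a := lt_of_lt_of_le hb hab
  have hT : 0 < a + b := by positivity
  have e1 : log (a * b / (a + b)) = log a + log b - log (a + b) := by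
    rw [Real.log_div (by positivity) hT.ne', Real.log_mul ha.ne' hb.ne']
  have e2 : log (a * a / (a + b)) = 2 * log a - log (a + b) := by
    rw [Real.log_div (by positivity) hT.ne', Real.log_mul ha.ne' ha.ne']; ring
  have e3 : log (b * b / (a + b)) = 2 * log b - log (a + b) := by
    rw [Real.log_div (by positivity) hT.ne', Real.log_mul hb.ne' hb.ne']; ring
  have hm : a * b / (a + b) ≤ b := by
    rw [div_le_iff₀ hT]; nlinarith
  have q1 := xlogx_ge (x := R) (y := a * b / (a + b)) (m := b) hR (by positivity) hRb hm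
  have q2 := xlogx_ge (x := a - R) (y := a * a / (a + b)) (m := max (a - R) (a * a / (a + b)))
    (by linarith) (by positivity) (le_max_left _ _) (le_max_right _ _)
  have q3 := xlogx_ge (x := b - R) (y := b * b / (a + b)) (m := max (b - R) (b * b / (a + b)))
    (by linarith) (by positivity) (le_max_left _ _) (le_max_right _ _)
  have q2' : 0 ≤ (a - R) * log (a - R) - (a - R) * log (a * a / (a + b)) - (a - R)
      + a * a / (a + b) := le_trans (by
        have : 0 < max (a - R) (a * a / (a + b)) := lt_of_lt_of_le (by positivity)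
          (le_max_right _ _)
        positivity) q2
  have q3' : 0 ≤ (b - R) * log (b - R) - (b - R) * log (b * b / (a + b)) - (b - R)
      + b * b / (a + b) := le_trans (by
        have : 0 < max (b - R) (b * b / (a + b)) := lt_of_lt_of_le (by positivity)
          (le_max_right _ _)
        positivity) q3
  have s : 2 * (a * b / (a + b)) + a * a / (a + b) + b * b / (a + b) = a + b := by
    field_simp; ring
  have s2 : (R - a * b / (a + b)) ^ 2 / (2 * b) = 2 * ((R - a * b / (a + b)) ^ 2 / (4 * b)) := by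
    field_simp; ring
  rw [e1] at q1
  rw [e2] at q2'
  rw [e3] at q3'
  rw [s2]
  nlinarith

theorem rpow_ge {η x : ℝ} (hx : 0 ≤ x) (hη : η < 1) : x - η * (x * log x) ≤ x ^ (1 - η) := by
  rcases hx.eq_or_lt with h0 | h0
  · subst h0; simp; rw [Real.zero_rpow (by linarith)]
  · have h1 : x ^ (1 - η) = x * exp (-(η * log x)) := by
      rw [Real.rpow_def_of_pos h0, show log x * (1 - η) = log x + -(η * log x) by ring,
        Real.exp_add, Real.exp_log h0]
    have h2 : -(η * log x) + 1 ≤ exp (-(η * log x)) := Real.add_one_le_exp _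
    rw [h1]
    nlinarith [mul_le_mul_of_nonneg_left h2 hx]

theorem exp_le_of_nonpos {y : ℝ} (hy : y ≤ 0) : exp y ≤ 1 + y + y ^ 2 / 2 := by
  have h := Real.quadratic_le_exp_of_nonneg (x := -y) (by linarith)
  -- `exp y = 1 / exp (-y)`
  have h1 : exp y * exp (-y) = 1 := by rw [← Real.exp_add]; simp
  have h2 : 0 < exp (-y) := Real.exp_pos _
  have h3 : 1 ≤ (1 + y + y ^ 2 / 2) * exp (-y) := by
    have h4 : 0 < 1 + y + y ^ 2 / 2 := by nlinarith [sq_nonneg (y + 1)]
    have h5 : (1 + y + y ^ 2 / 2) * (1 + -y + (-y) ^ 2 / 2) ≤ (1 + y + y ^ 2 / 2) * exp (-y) :=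
      mul_le_mul_of_nonneg_left h h4.le
    nlinarith [sq_nonneg (y ^ 2)]
  by_contra hc
  push Not at hc
  have := mul_lt_mul_of_pos_right hc h2
  linarith

/-- upper bound, `x ≥ 1` -/
theorem rpow_le_big {η x : ℝ} (hx : 1 ≤ x) (hη0 : 0 ≤ η) :
    x ^ (1 - η) ≤ x - η * (x * log x) + η ^ 2 * x ^ 3 := by
  have h0 : 0 < x := by linarith
  have hl : 0 ≤ log x := Real.log_nonneg hx
  have hl2 : log x ≤ x := by linarith [Real.log_le_sub_one_of_pos h0]
  have h1 : x ^ (1 - η) = x * exp (-(η * log x)) := by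
    rw [Real.rpow_def_of_pos h0, show log x * (1 - η) = log x + -(η * log x) by ring,
      Real.exp_add, Real.exp_log h0]
  have h2 := exp_le_of_nonpos (y := -(η * log x)) (by nlinarith [mul_nonneg hη0 hl])
  rw [h1]
  have h3 := mul_le_mul_of_nonneg_left h2 h0.le
  have h4 : log x ^ 2 ≤ x ^ 2 := by gcongr
  have h5 : 0 ≤ η ^ 2 * x := by positivity
  nlinarith [mul_le_mul_of_nonneg_left h4 h5, mul_nonneg h5 (sq_nonneg x)]

/-- upper bound, `x ≤ 1` -/
theorem rpow_le_small {η x : ℝ} (hx0 : 0 ≤ x) (hx : x ≤ 1) (hη0 : 0 ≤ η) (hη : η ≤ 1 / 2) :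
    x ^ (1 - η) ≤ x - η * (x * log x) + 16 * η ^ 2 := by
  rcases hx0.eq_or_lt with h0 | h0
  · subst h0; rw [Real.zero_rpow (by linarith)]; simp; positivity
  · have hl : log x ≤ 0 := Real.log_nonpos hx0 hx
    set y : ℝ := -(η * log x) with hy
    have hy0 : 0 ≤ y := by rw [hy]; nlinarith [mul_nonneg hη0 (neg_nonneg.2 hl)]
    have h1 : x ^ (1 - η) = x * exp y := by
      rw [Real.rpow_def_of_pos h0, show log x * (1 - η) = log x + y by rw [hy]; ring,
        Real.exp_add, Real.exp_log h0]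
    have h2 : 1 - y ≤ exp (-y) := by linarith [Real.add_one_le_exp (-y)]
    have h3 : exp y * exp (-y) = 1 := by rw [← Real.exp_add]; simp
    have h4 : exp y ≤ 1 + y * exp y := by
      nlinarith [mul_le_mul_of_nonneg_left h2 (Real.exp_pos y).le]
    have h5 : exp y ≤ 1 + y + y ^ 2 * exp y := by nlinarith [mul_le_mul_of_nonneg_left h4 hy0]
    -- `z = x ^ (1/4)`
    set z : ℝ := exp (log x / 4) with hz
    have hz0 : 0 < z := Real.exp_pos _
    have hz1 : z ≤ 1 := by
      rw [hz, ← Real.exp_zero]; exact Real.exp_le_exp.2 (by linarith)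
    have hlz : log z = log x / 4 := by rw [hz, Real.log_exp]
    have h6 : 1 - z⁻¹ ≤ log z := Real.one_sub_inv_le_log_of_pos hz0
    have h7 : z - 1 ≤ z * log z := by
      have := mul_le_mul_of_nonneg_left h6 hz0.le
      rw [mul_sub, mul_inv_cancel₀ hz0.ne'] at this; linarith
    have h8 : z * log z ≤ 0 := by rw [hlz]; nlinarith
    have h9 : (z * log z) ^ 2 ≤ 1 := by nlinarith
    have h10 : x * exp y ≤ z ^ 2 := by
      have : z ^ 2 = exp (log x / 2) := by rw [hz, ← Real.exp_nat_mul]; congr 1; push_cast; ring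
      rw [← h1, this, Real.rpow_def_of_pos h0]
      exact Real.exp_le_exp.2 (by nlinarith)
    have h11 : y ^ 2 * (x * exp y) ≤ 16 * η ^ 2 := by
      have e : y ^ 2 = 16 * η ^ 2 * log z ^ 2 := by rw [hy, hlz]; ring
      have h12 : y ^ 2 * (x * exp y) ≤ y ^ 2 * z ^ 2 :=
        mul_le_mul_of_nonneg_left h10 (sq_nonneg _)
      have h13 : y ^ 2 * z ^ 2 = 16 * η ^ 2 * (z * log z) ^ 2 := by rw [e]; ring
      have h14 : 16 * η ^ 2 * (z * log z) ^ 2 ≤ 16 * η ^ 2 * 1 :=
        mul_le_mul_of_nonneg_left h9 (by positivity)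
      linarith
    have h15 := mul_le_mul_of_nonneg_left h5 h0.le
    have h16 : x * y = - (η * (x * log x)) := by rw [hy]; ring
    rw [h1]
    nlinarith

/-- first regime: `b = 1 ≤ a ≤ M`. -/
theorem Kt_le_one {η a R M : ℝ} (hη0 : 0 ≤ η) (hη : η ≤ 1 / 2) (ha : 1 ≤ a) (haM : a ≤ M)
    (hR : 0 ≤ R) (hR1 : R ≤ 1) :
    Kt η a 1 R ≤ - η * ((R - a * 1 / (a + 1)) ^ 2 / 2) + η ^ 2 * (64 + 2 * (M + 1) ^ 3) := by
  have h1 := rpow_le_small hR hR1 hη0 hη
  have h2 := rpow_le_big (η := η) (x := a + 1) (by linarith) hη0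
  have h3 := rpow_ge (η := η) (x := a) (by linarith) (by linarith)
  have h4 : (1 : ℝ) ^ (1 - η) = 1 := Real.one_rpow _
  have h5 := rpow_le_small (η := η) (x := 1 - R) (by linarith) (by linarith) hη0 hη
  have h7 : (a + 1) ^ 3 ≤ (M + 1) ^ 3 := by gcongr
  have h6 : (a - R) ^ (1 - η) ≤ (a - R) - η * ((a - R) * log (a - R)) +
      16 * η ^ 2 + η ^ 2 * (M + 1) ^ 3 := by
    rcases le_total (a - R) 1 with h | h
    · have := rpow_le_small (η := η) (x := a - R) (by linarith) h hη0 hη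
      have : 0 ≤ η ^ 2 * (M + 1) ^ 3 := by
        have : 0 ≤ M + 1 := by linarith
        positivity
      linarith
    · have h8 := rpow_le_big (η := η) (x := a - R) h hη0
      have h9 : (a - R) ^ 3 ≤ (M + 1) ^ 3 := by
        have : a - R ≤ M + 1 := by linarith
        gcongr
      have h10 := mul_le_mul_of_nonneg_left h9 (sq_nonneg η)
      nlinarith [sq_nonneg η]
  have h8 := MI_ge (a := a) (b := 1) (R := R) one_pos ha hR hR1
  have h9 := mul_le_mul_of_nonneg_left h8 hη0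
  have h10 := mul_le_mul_of_nonneg_left h7 (sq_nonneg η)
  unfold Kt
  simp only [Real.log_one, mul_zero, sub_zero, mul_one] at h8 h9 ⊢
  rw [h4]
  nlinarith

/-- second regime: `b = 1`, `a ≥ exp L`, `η L ≤ 1`, `L ≥ 0`. -/
theorem Kt_le_two {η a R L : ℝ} (hη0 : 0 ≤ η) (hη : η ≤ 1 / 2) (hL : 0 ≤ L) (hηL : η * L ≤ 1)
    (ha : exp L ≤ a) (hR : 0 ≤ R) (hR1 : R ≤ 1) :
    Kt η a 1 R ≤ - η * (R - a * 1 / (a + 1)) ^ 2 + η * (exp (-L) + exp (1 - L / 4))
      + 16 * η ^ 2 := by
  have hL1 : 1 ≤ exp L := by linarith [Real.add_one_le_exp L]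
  have ha1 : 1 ≤ a := hL1.trans ha
  have ha0 : 0 < a := by linarith
  set t : ℝ := 1 - R with ht
  have ht0 : 0 ≤ t := by linarith
  have ht1 : t ≤ 1 := by linarith
  have hR' : R = 1 - t := by linarith
  have hap : 0 < a ^ (1 - η) := Real.rpow_pos_of_pos ha0 _
  have hinv : -1 ≤ -(R / a) := by
    have : R / a ≤ 1 := (div_le_one ha0).2 (by linarith)
    linarith
  have b1 : (a + 1) ^ (1 - η) ≤ a ^ (1 - η) * (1 + (1 - η) * a⁻¹) := by
    have e : a + 1 = a * (1 + a⁻¹) := by field_simp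
    rw [e, Real.mul_rpow ha0.le (by positivity)]
    have := rpow_one_add_le_one_add_mul_self (s := a⁻¹) (p := 1 - η) (by
      have : 0 < a⁻¹ := by positivity
      linarith) (by linarith) (by linarith)
    exact mul_le_mul_of_nonneg_left this hap.le
  have b2 : (a - R) ^ (1 - η) ≤ a ^ (1 - η) * (1 + (1 - η) * (-(R / a))) := by
    have e : a - R = a * (1 + -(R / a)) := by field_simp; ring
    rw [e, Real.mul_rpow ha0.le (by linarith)]
    have := rpow_one_add_le_one_add_mul_self (s := -(R / a)) (p := 1 - η) hinv (by linarith)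
      (by linarith)
    exact mul_le_mul_of_nonneg_left this hap.le
  have b3 : R ^ (1 - η) ≤ 1 + (1 - η) * (-t) := by
    have := rpow_one_add_le_one_add_mul_self (s := -t) (p := 1 - η) (by linarith) (by linarith)
      (by linarith)
    rw [hR', sub_eq_add_neg]; exact this
  have b4 := rpow_le_small ht0 ht1 hη0 hη
  have b5 : (1 : ℝ) ^ (1 - η) = 1 := Real.one_rpow _
  -- `a ^ (1 - η) / a ≤ 1 - η L / 2`
  have b6 : a ^ (1 - η) * a⁻¹ ≤ 1 - η * L / 2 := by
    have e : a ^ (1 - η) * a⁻¹ = exp (-(η * log a)) := by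
      have e0 : a⁻¹ = exp (-(log a)) := by rw [Real.exp_neg, Real.exp_log ha0]
      rw [e0, Real.rpow_def_of_pos ha0, ← Real.exp_add]; congr 1; ring
    have hlog : L ≤ log a := by
      rw [← Real.log_exp L]; exact Real.log_le_log (Real.exp_pos _) ha
    have h2 : exp (-(η * log a)) ≤ exp (-(η * L)) :=
      Real.exp_le_exp.2 (by nlinarith [mul_le_mul_of_nonneg_left hlog hη0])
    have h3 := exp_le_of_nonpos (y := -(η * L)) (by nlinarith [mul_nonneg hη0 hL])
    have h4 : 0 ≤ η * L := mul_nonneg hη0 hL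
    rw [e]; nlinarith
  have b7 : (a + 1) ^ (1 - η) + (a - R) ^ (1 - η) - 2 * a ^ (1 - η) ≤
      (1 - η) * t * (a ^ (1 - η) * a⁻¹) := by
    have e : a ^ (1 - η) * (1 + (1 - η) * a⁻¹) + a ^ (1 - η) * (1 + (1 - η) * (-(R / a)))
        - 2 * a ^ (1 - η) = (1 - η) * t * (a ^ (1 - η) * a⁻¹) := by
      rw [ht]; field_simp; ring
    linarith
  have b8 : (1 - η) * t * (a ^ (1 - η) * a⁻¹) ≤ (1 - η) * t * (1 - η * L / 2) :=
    mul_le_mul_of_nonneg_left b6 (mul_nonneg (by linarith) ht0)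
  -- `t log (1/t) + t (2 - L/4) ≤ exp (1 - L/4)`
  have b9 : - (t * log t) + t * (2 - L / 4) ≤ exp (1 - L / 4) := by
    rcases ht0.eq_or_lt with h0 | h0
    · rw [← h0]; simp; positivity
    · have hz : 0 < exp (1 - L / 4) / t := by positivity
      have h1 := Real.log_le_sub_one_of_pos hz
      rw [Real.log_div (Real.exp_pos _).ne' h0.ne', Real.log_exp] at h1
      have h2 := mul_le_mul_of_nonneg_left h1 h0.le
      have h3 : t * (exp (1 - L / 4) / t - 1) = exp (1 - L / 4) - t := by field_simp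
      rw [h3] at h2
      nlinarith
  -- the deviation
  have b10 : R - a * 1 / (a + 1) = 1 / (a + 1) - t := by rw [hR']; field_simp; ring
  have b11 : (1 / (a + 1) - t) ^ 2 ≤ t + exp (-L) := by
    have hs0 : 0 < 1 / (a + 1) := by positivity
    have hs1 : 1 / (a + 1) ≤ exp (-L) := by
      rw [Real.exp_neg, one_div]
      exact inv_anti₀ (Real.exp_pos _) (by linarith)
    have hs2 : 1 / (a + 1) ≤ 1 := by rw [div_le_one (by positivity)]; linarith
    nlinarith [mul_nonneg hs0.le ht0]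
  have b12 := mul_le_mul_of_nonneg_left b9 hη0
  have b13 := mul_le_mul_of_nonneg_left b11 hη0
  have b14 : 0 ≤ (1 / 2 - η) * (t * (η * L)) :=
    mul_nonneg (by linarith) (mul_nonneg ht0 (mul_nonneg hη0 hL))
  have b15 : (1 - η) * t * (1 - η * L / 2) ≤ (1 - η) * t - t * (η * L) / 4 := by nlinarith
  rw [b10]
  unfold Kt
  rw [b5]
  have b16 : (1 - R) ^ (1 - η) = t ^ (1 - η) := by rw [ht]
  rw [b16]
  nlinarith

theorem Kt_scale {η a b R : ℝ} (hb : 0 < b) (ha : 0 ≤ a) (hR : 0 ≤ R) (hRa : R ≤ a)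
    (hRb : R ≤ b) : Kt η a b R = b ^ (1 - η) * Kt η (a / b) 1 (R / b) := by
  have e1 : R = b * (R / b) := by field_simp
  have e2 : a = b * (a / b) := by field_simp
  have h1 : R ^ (1 - η) = b ^ (1 - η) * (R / b) ^ (1 - η) := by
    rw [← Real.mul_rpow hb.le (by positivity)]; congr 1
  have h2 : a ^ (1 - η) = b ^ (1 - η) * (a / b) ^ (1 - η) := by
    rw [← Real.mul_rpow hb.le (by positivity)]; congr 1
  have h3 : (a + b) ^ (1 - η) = b ^ (1 - η) * (a / b + 1) ^ (1 - η) := by
    rw [← Real.mul_rpow hb.le (by positivity)]; congr 1; field_simp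
  have h4 : (a - R) ^ (1 - η) = b ^ (1 - η) * (a / b - R / b) ^ (1 - η) := by
    rw [← Real.mul_rpow hb.le (by rw [← sub_div]; exact div_nonneg (by linarith) hb.le)]
    congr 1; field_simp
  have h5 : (b - R) ^ (1 - η) = b ^ (1 - η) * (1 - R / b) ^ (1 - η) := by
    rw [← Real.mul_rpow hb.le (by
      have : R / b ≤ 1 := (div_le_one hb).2 hRb
      linarith)]
    congr 1; field_simp
  unfold Kt
  rw [h1, h2, h3, h4, h5, Real.one_rpow]; ring

/-- **(C\*)** the pointwise bound for all tables. -/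
theorem Kt_le (κ : ℝ) (hκ : 0 < κ) : ∃ η0 : ℝ, 0 < η0 ∧ η0 ≤ 1 / 2 ∧
    ∀ η : ℝ, 0 < η → η ≤ η0 → ∀ a b R : ℝ, 0 ≤ R → R ≤ a → R ≤ b →
      Kt η a b R ≤ η * (min a b) ^ (1 - η) *
        (κ - (1 / 2) * ((R - a * b / (a + b)) / min a b) ^ 2) := by
  -- choose `L`
  obtain ⟨L, hL0, hL⟩ : ∃ L : ℝ, 0 ≤ L ∧ exp (-L) + exp (1 - L / 4) ≤ κ / 2 := by
    have t1 : Filter.Tendsto (fun L : ℝ => exp (-L) + exp (1 - L / 4)) Filter.atTop (nhds (0 + 0)) := by
      refine Filter.Tendsto.add ?_ ?_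
      · exact Real.tendsto_exp_atBot.comp Filter.tendsto_neg_atTop_atBot
      · refine Real.tendsto_exp_atBot.comp ?_
        have : Filter.Tendsto (fun L : ℝ => 1 + (-(1/4)) * L) Filter.atTop Filter.atBot :=
          Filter.tendsto_atBot_add_const_left _ _
            (Filter.tendsto_id.const_mul_atTop_of_neg (by norm_num))
        refine this.congr (fun L => by ring)
    rw [add_zero] at t1
    have := (t1.eventually (gt_mem_nhds (show (0 : ℝ) < κ / 2 by positivity))).and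
      (Filter.eventually_ge_atTop (0 : ℝ))
    obtain ⟨L, h1, h2⟩ := this.exists
    exact ⟨L, h2, h1.le⟩
  set M : ℝ := exp L with hM
  set C : ℝ := 64 + 2 * (M + 1) ^ 3 with hC
  have hMpos : 0 < M := Real.exp_pos _
  have hCpos : 0 < C := by positivity
  refine ⟨min (1 / 2) (min (1 / (L + 1)) (κ / (2 * C + 32))), by positivity, min_le_left _ _, ?_⟩
  intro η hη hη0 a b R hR hRa hRb
  have g1 : η ≤ 1 / 2 := hη0.trans (min_le_left _ _)
  have g2 : η ≤ 1 / (L + 1) := hη0.trans ((min_le_right _ _).trans (min_le_left _ _))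
  have g3 : η ≤ κ / (2 * C + 32) := hη0.trans ((min_le_right _ _).trans (min_le_right _ _))
  have g2' : η * L ≤ 1 := by
    rw [le_div_iff₀ (by positivity)] at g2; nlinarith
  have g3' : η * C ≤ κ / 2 ∧ η * 16 ≤ κ / 2 := by
    rw [le_div_iff₀ (by positivity)] at g3
    constructor <;> nlinarith
  -- core: `b ≤ a`
  have core : ∀ a b R : ℝ, 0 ≤ R → R ≤ b → b ≤ a →
      Kt η a b R ≤ η * b ^ (1 - η) * (κ - (1 / 2) * ((R - a * b / (a + b)) / b) ^ 2) := by
    intro a b R hR hRb hba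
    rcases (hR.trans hRb).eq_or_lt with h0 | h0
    · subst h0
      have hR0 : R = 0 := le_antisymm hRb hR
      subst hR0
      have z0 : (0 : ℝ) ^ (1 - η) = 0 := Real.zero_rpow (by linarith)
      unfold Kt
      simp only [add_zero, sub_zero, z0, mul_zero]
      linarith
    · have ha : 0 < a := by linarith
      rw [Kt_scale h0 ha.le hR (by linarith) hRb]
      have hp : 0 < b ^ (1 - η) := Real.rpow_pos_of_pos h0 _
      have k1 : 1 ≤ a / b := (one_le_div h0).2 hba
      have k2 : 0 ≤ R / b := by positivity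
      have k3 : R / b ≤ 1 := (div_le_one h0).2 hRb
      have e : (R - a * b / (a + b)) / b = R / b - (a / b) * 1 / (a / b + 1) := by
        field_simp
      rw [e]
      have key : Kt η (a / b) 1 (R / b) ≤
          η * (κ - (1 / 2) * (R / b - (a / b) * 1 / (a / b + 1)) ^ 2) := by
        rcases le_total (a / b) M with h | h
        · have := Kt_le_one hη.le g1 k1 h k2 k3
          nlinarith [mul_le_mul_of_nonneg_left g3'.1 hη.le]
        · have := Kt_le_two hη.le g1 hL0 g2' h k2 k3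
          nlinarith [mul_le_mul_of_nonneg_left g3'.2 hη.le, mul_le_mul_of_nonneg_left hL hη.le,
            mul_nonneg hη.le (sq_nonneg (R / b - (a / b) * 1 / (a / b + 1)))]
      calc b ^ (1 - η) * Kt η (a / b) 1 (R / b)
          ≤ b ^ (1 - η) * (η * (κ - (1 / 2) * (R / b - (a / b) * 1 / (a / b + 1)) ^ 2)) :=
            mul_le_mul_of_nonneg_left key hp.le
        _ = _ := by ring
  rcases le_total b a with h | h
  · rw [min_eq_right h]; exact core a b R hR hRb h
  · rw [min_eq_left h, Kt_symm, add_comm a b, mul_comm a b]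
    exact core b a R hR hRa h

end MP9cae81PC
end

section

open Finset
open scoped BigOperators

namespace Pool.Agent.Lib.MP_9cae81_R

variable {ι : Type} [Fintype ι] [DecidableEq ι]

set_option linter.unusedSectionVars false

/-- `2p + p² ≤ 2q` for `p = 1 - exp (-q)`. -/
theorem two_p_add_sq_le {q : ℝ} (hq : 0 ≤ q) :
    2 * (1 - Real.exp (-q)) + (1 - Real.exp (-q)) ^ 2 ≤ 2 * q := by
  set h : ℝ → ℝ := fun t => 2 * t - (2 * (1 - Real.exp (-t)) + (1 - Real.exp (-t)) ^ 2) with hh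
  have hd : ∀ t : ℝ, HasDerivAt h (2 * (1 - Real.exp (-t)) ^ 2) t := by
    intro t
    have h1 : HasDerivAt (fun t : ℝ => Real.exp (-t)) (Real.exp (-t) * (-1)) t :=
      ((hasDerivAt_id t).neg).exp
    have h2 : HasDerivAt (fun t : ℝ => 1 - Real.exp (-t)) (Real.exp (-t)) t := by
      have := h1.const_sub 1
      simpa using this
    have h3 : HasDerivAt (fun t : ℝ => (1 - Real.exp (-t)) ^ 2)
        (2 * (1 - Real.exp (-t)) * Real.exp (-t)) t := by
      have := h2.fun_pow 2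
      simpa using this
    have h4 := ((hasDerivAt_id t).const_mul (2 : ℝ)).fun_sub ((h2.const_mul 2).fun_add h3)
    have h5 : HasDerivAt h (2 * 1 - (2 * Real.exp (-t) +
        2 * (1 - Real.exp (-t)) * Real.exp (-t))) t := h4
    convert h5 using 1
    ring
  have hmono : Monotone h := by
    apply monotone_of_deriv_nonneg
    · exact fun t => (hd t).differentiableAt
    · intro t
      rw [(hd t).deriv]
      positivity
  have h0 : h 0 = 0 := by simp [hh]
  have := hmono hq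
  rw [h0] at this
  simp only [hh] at this
  linarith

/-- Partial sum of the marks of the pieces of `F` that lie in `T`. -/
noncomputable def Sp (x : ι → ℝ) (T F : Finset ι) : ℝ := ∑ c ∈ T, if c ∈ F then x c else 0

theorem Sp_nonneg {x : ι → ℝ} (hx : ∀ c, 0 ≤ x c) (T F : Finset ι) : 0 ≤ Sp x T F :=
  Finset.sum_nonneg fun c _ => by split_ifs <;> [exact hx c; exact le_rfl]

theorem Sp_insert (x : ι → ℝ) {T : Finset ι} {c : ι} (hc : c ∉ T) (F : Finset ι) :
    Sp x (insert c T) (insert c F) = Sp x T F + x c := by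
  unfold Sp
  rw [Finset.sum_insert hc, if_pos (Finset.mem_insert_self c F), add_comm]
  congr 1
  refine Finset.sum_congr rfl fun d hd => ?_
  have : d ≠ c := fun h => hc (h ▸ hd)
  simp [this]

theorem Sp_erase (x : ι → ℝ) {T : Finset ι} {c : ι} (hc : c ∉ T) (F : Finset ι) :
    Sp x (insert c T) (F.erase c) = Sp x T F := by
  unfold Sp
  rw [Finset.sum_insert hc, if_neg (Finset.notMem_erase c F), zero_add]
  refine Finset.sum_congr rfl fun d hd => ?_
  have : d ≠ c := fun h => hc (h ▸ hd)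
  simp [this]

theorem Sp_insert' (x : ι → ℝ) {T : Finset ι} {c : ι} (hc : c ∉ T) (F : Finset ι) :
    Sp x T (insert c F) = Sp x T F := by
  unfold Sp
  refine Finset.sum_congr rfl fun d hd => ?_
  have : d ≠ c := fun h => hc (h ▸ hd)
  simp [this]

theorem Sp_erase' (x : ι → ℝ) {T : Finset ι} {c : ι} (hc : c ∉ T) (F : Finset ι) :
    Sp x T (F.erase c) = Sp x T F := by
  unfold Sp
  refine Finset.sum_congr rfl fun d hd => ?_
  have : d ≠ c := fun h => hc (h ▸ hd)
  simp [this]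

theorem Sp_univ (x : ι → ℝ) (F : Finset ι) : Sp x Finset.univ F = ∑ c ∈ F, x c := by
  unfold Sp
  simp [Finset.sum_ite_mem]

/-- The double expectation. -/
noncomputable def EE2 (q : ι → ℝ) (h : Finset ι → Finset ι → ℝ) : ℝ :=
  EE q (fun F => EE q (fun G => h F G))

theorem EE2_split (q : ι → ℝ) (c : ι) (h : Finset ι → Finset ι → ℝ) :
    EE2 q h = EE2 q (fun F G =>
      (1 - Real.exp (-(q c))) ^ 2 * h (insert c F) (insert c G) +
      (1 - Real.exp (-(q c))) * Real.exp (-(q c)) * (h (insert c F) (G.erase c)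
        + h (F.erase c) (insert c G)) +
      Real.exp (-(q c)) ^ 2 * h (F.erase c) (G.erase c)) := by
  have key : ∀ g : Finset ι → Finset ι → ℝ, EE2 q g =
      (1 - Real.exp (-(q c))) * EE2 q (fun F G => g (insert c F) G) +
        Real.exp (-(q c)) * EE2 q (fun F G => g (F.erase c) G) := fun g => EE_split q c _
  have key' : ∀ g : Finset ι → Finset ι → ℝ, EE2 q g =
      (1 - Real.exp (-(q c))) * EE2 q (fun F G => g F (insert c G)) +
        Real.exp (-(q c)) * EE2 q (fun F G => g F (G.erase c)) := by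
    intro g
    unfold EE2
    rw [← EE_mul_left, ← EE_mul_left, ← EE_add]
    congr 1
    funext F
    exact EE_split q c _
  have add : ∀ g h : Finset ι → Finset ι → ℝ,
      EE2 q (fun F G => g F G + h F G) = EE2 q g + EE2 q h := by
    intro g h
    unfold EE2
    rw [← EE_add]
    congr 1
    funext F
    exact EE_add q _ _
  have mul : ∀ (a : ℝ) (g : Finset ι → Finset ι → ℝ),
      EE2 q (fun F G => a * g F G) = a * EE2 q g := by
    intro a g
    unfold EE2
    rw [← EE_mul_left]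
    congr 1
    funext F
    exact EE_mul_left q a _
  rw [key h, key' (fun F G => h (insert c F) G), key' (fun F G => h (F.erase c) G),
    add, add, mul, mul, mul, add]
  ring

theorem EE2_mono {q : ι → ℝ} (hq : ∀ c, 0 ≤ q c) {g h : Finset ι → Finset ι → ℝ}
    (H : ∀ F G, g F G ≤ h F G) : EE2 q g ≤ EE2 q h :=
  EE_mono hq fun F => EE_mono hq fun G => H F G

theorem EE2_const (q : ι → ℝ) (a : ℝ) : EE2 q (fun _ _ => a) = a := by
  unfold EE2
  rw [EE_const, EE_const]

theorem EE2_add (q : ι → ℝ) (g h : Finset ι → Finset ι → ℝ) :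
    EE2 q (fun F G => g F G + h F G) = EE2 q g + EE2 q h := by
  unfold EE2
  rw [← EE_add]
  congr 1
  funext F
  exact EE_add q _ _

/-- Abstract form.  `ψ` is nondecreasing, subadditive, and its increments are convex. -/
theorem compound_abs {q x : ι → ℝ} (hq : ∀ c, 0 ≤ q c) (hx : ∀ c, 0 ≤ x c) (ψ : ℝ → ℝ)
    (h0 : ψ 0 = 0) (hmono : ∀ a b, 0 ≤ a → a ≤ b → ψ a ≤ ψ b)
    (hsub : ∀ a y, 0 ≤ a → 0 ≤ y → ψ (a + y) ≤ ψ a + ψ y)
    (hconv : ∀ a b y, 0 ≤ a → 0 ≤ b → 0 ≤ y →
      ψ (a + y) + ψ (b + y) + ψ (a + b) ≤ ψ a + ψ b + ψ y + ψ (a + b + y))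
    (T : Finset ι) :
    EE2 q (fun F G => 2 * ψ (Sp x T F) + 2 * ψ (Sp x T G) - ψ (Sp x T F + Sp x T G))
      ≤ 2 * ∑ c ∈ T, q c * ψ (x c) := by
  induction T using Finset.induction_on with
  | empty =>
    have : (fun F G : Finset ι => 2 * ψ (Sp x ∅ F) + 2 * ψ (Sp x ∅ G) - ψ (Sp x ∅ F + Sp x ∅ G))
        = fun _ _ => 0 := by
      funext F G; simp [Sp, h0]
    rw [this, EE2_const]; simp
  | insert c T hc ih =>
    rw [EE2_split q c]
    simp_rw [Sp_insert x hc, Sp_erase x hc]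
    set p := 1 - Real.exp (-(q c)) with hp
    have hp0 : 0 ≤ p := by
      have : Real.exp (-(q c)) ≤ 1 := Real.exp_le_one_iff.2 (by have := hq c; linarith)
      rw [hp]; linarith
    have hexp : Real.exp (-(q c)) = 1 - p := by rw [hp]; ring
    have hpq : 2 * p + p ^ 2 ≤ 2 * q c := two_p_add_sq_le (hq c)
    rw [hexp]
    have hψx : 0 ≤ ψ (x c) := by have := hmono 0 (x c) le_rfl (hx c); rwa [h0] at this
    have hpt : ∀ F G : Finset ι,
        p ^ 2 * (2 * ψ (Sp x T F + x c) + 2 * ψ (Sp x T G + x c)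
            - ψ (Sp x T F + x c + (Sp x T G + x c))) +
        p * (1 - p) * ((2 * ψ (Sp x T F + x c) + 2 * ψ (Sp x T G)
            - ψ (Sp x T F + x c + Sp x T G)) +
          (2 * ψ (Sp x T F) + 2 * ψ (Sp x T G + x c)
            - ψ (Sp x T F + (Sp x T G + x c)))) +
        (1 - p) ^ 2 * (2 * ψ (Sp x T F) + 2 * ψ (Sp x T G) - ψ (Sp x T F + Sp x T G))
        ≤ (2 * ψ (Sp x T F) + 2 * ψ (Sp x T G) - ψ (Sp x T F + Sp x T G))
          + 2 * q c * ψ (x c) := by
      intro F G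
      have hS := Sp_nonneg hx T F
      have hS' := Sp_nonneg hx T G
      set S := Sp x T F
      set S' := Sp x T G
      set y := x c
      have hy : 0 ≤ y := hx c
      have e1 : S + y + (S' + y) = S + S' + y + y := by ring
      have e2 : S + y + S' = S + S' + y := by ring
      have e3 : S + (S' + y) = S + S' + y := by ring
      rw [e1, e2, e3]
      have c1 := hconv S S' y hS hS' hy
      have c2 := hsub (S + S') y (by positivity) hy
      have c3 := hmono (S + S' + y) (S + S' + y + y) (by positivity) (by linarith)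
      have c4 : (2 * p + p ^ 2) * ψ y ≤ 2 * q c * ψ y :=
        mul_le_mul_of_nonneg_right hpq hψx
      have c5 : 0 ≤ p * (ψ S + ψ S' + ψ y + ψ (S + S' + y) - (ψ (S + y) + ψ (S' + y) + ψ (S + S'))) :=
        mul_nonneg hp0 (by linarith)
      have c6 : 0 ≤ p ^ 2 * (ψ (S + S') + ψ y - ψ (S + S' + y)) :=
        mul_nonneg (sq_nonneg p) (by linarith)
      have c7 : 0 ≤ p ^ 2 * (ψ (S + S' + y + y) - ψ (S + S' + y)) :=
        mul_nonneg (sq_nonneg p) (by linarith)
      nlinarith [c4, c5, c6, c7]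
    refine (EE2_mono hq hpt).trans ?_
    rw [EE2_add, EE2_const, Finset.sum_insert hc]
    linarith

/-- `t ↦ t ^ p` is convex on `(0,∞)` for `p ≤ 0`. -/
theorem convexOn_rpow_nonpos {p : ℝ} (hp : p ≤ 0) :
    ConvexOn ℝ (Set.Ioi 0) (fun t : ℝ => t ^ p) := by
  have h1 : ConcaveOn ℝ (Set.Ioi (0 : ℝ)) Real.log := strictConcaveOn_log_Ioi.concaveOn
  have h2 : ConvexOn ℝ (Set.Ioi (0 : ℝ)) (fun t => p * Real.log t) := by
    have := (h1.neg).smul (neg_nonneg.2 hp)
    refine this.congr fun t _ => ?_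
    simp
  have h3 : ConvexOn ℝ ((fun t => p * Real.log t) '' (Set.Ioi (0 : ℝ))) Real.exp := by
    refine convexOn_exp.subset (Set.subset_univ _) ?_
    have : (fun t => p * Real.log t) '' (Set.Ioi (0 : ℝ)) = (fun u => p * u) '' (Set.univ) := by
      ext z
      constructor
      · rintro ⟨t, _, rfl⟩
        exact ⟨Real.log t, Set.mem_univ _, rfl⟩
      · rintro ⟨u, _, rfl⟩
        exact ⟨Real.exp u, Real.exp_pos u, by simp⟩
    rw [this]
    exact convex_univ.linear_image (LinearMap.mulLeft ℝ p)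
  have h4 := h3.comp h2 (Real.exp_monotone.monotoneOn _)
  refine h4.congr fun t ht => ?_
  simp only [Function.comp]
  rw [Real.rpow_def_of_pos ht, mul_comm]

/-- The increments of `x ↦ x ^ s` are convex. -/
theorem rpow_conv {s : ℝ} (hs0 : 0 < s) (hs1 : s ≤ 1) (a b y : ℝ) (ha : 0 ≤ a) (hb : 0 ≤ b)
    (hy : 0 ≤ y) :
    (a + y) ^ s + (b + y) ^ s + (a + b) ^ s ≤ a ^ s + b ^ s + y ^ s + (a + b + y) ^ s := by
  rcases eq_or_lt_of_le hb with rfl | hb
  · simp
    rw [Real.zero_rpow hs0.ne']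
    linarith
  rcases eq_or_lt_of_le hy with rfl | hy
  · simp only [add_zero]
    rw [Real.zero_rpow hs0.ne']
    linarith
  set g : ℝ → ℝ := fun a => (a + b + y) ^ s - (a + b) ^ s - (a + y) ^ s + a ^ s with hg
  have hmono : MonotoneOn g (Set.Ici 0) := by
    apply monotoneOn_of_deriv_nonneg (convex_Ici 0)
    · have hc : Continuous (fun x : ℝ => x ^ s) := Real.continuous_rpow_const hs0.le
      apply Continuous.continuousOn
      have c1 : Continuous fun a : ℝ => (a + b + y) ^ s := hc.comp (by fun_prop)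
      have c2 : Continuous fun a : ℝ => (a + b) ^ s := hc.comp (by fun_prop)
      have c3 : Continuous fun a : ℝ => (a + y) ^ s := hc.comp (by fun_prop)
      exact ((c1.sub c2).sub c3).add hc
    · intro t ht
      rw [interior_Ici] at ht
      have ht' : (0 : ℝ) < t := ht
      have d1 : DifferentiableAt ℝ (fun a : ℝ => (a + b + y) ^ s) t :=
        DifferentiableAt.rpow_const (by fun_prop) (Or.inl (by positivity))
      have d2 : DifferentiableAt ℝ (fun a : ℝ => (a + b) ^ s) t :=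
        DifferentiableAt.rpow_const (by fun_prop) (Or.inl (by positivity))
      have d3 : DifferentiableAt ℝ (fun a : ℝ => (a + y) ^ s) t :=
        DifferentiableAt.rpow_const (by fun_prop) (Or.inl (by positivity))
      have d4 : DifferentiableAt ℝ (fun a : ℝ => a ^ s) t :=
        DifferentiableAt.rpow_const (by fun_prop) (Or.inl (by positivity))
      exact (((d1.sub d2).sub d3).add d4).differentiableWithinAt
    · intro t ht
      rw [interior_Ici] at ht
      have ht' : (0 : ℝ) < t := ht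
      have hd : ∀ w : ℝ, 0 ≤ w → HasDerivAt (fun a : ℝ => (a + w) ^ s) (s * (t + w) ^ (s - 1)) t := by
        intro w hw
        have h1 : HasDerivAt (fun a : ℝ => a + w) 1 t := (hasDerivAt_id t).add_const w
        have h2 := h1.rpow_const (p := s) (Or.inl (by positivity : t + w ≠ 0))
        convert h2 using 1
        ring
      have d1 := hd (b + y) (by positivity)
      have d2 := hd b hb.le
      have d3 := hd y hy.le
      have d4 := hd 0 le_rfl
      have e1 : (fun a : ℝ => (a + (b + y)) ^ s) = fun a => (a + b + y) ^ s := by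
        funext a; rw [add_assoc]
      have e4 : (fun a : ℝ => (a + 0) ^ s) = fun a => a ^ s := by funext a; rw [add_zero]
      rw [e1] at d1
      rw [e4] at d4
      have d := ((d1.fun_sub d2).fun_sub d3).fun_add d4
      have d' : HasDerivAt g (s * (t + (b + y)) ^ (s - 1) - s * (t + b) ^ (s - 1) -
        s * (t + y) ^ (s - 1) + s * (t + 0) ^ (s - 1)) t := d
      rw [d'.deriv, add_zero]
      have hconv := convexOn_rpow_nonpos (by linarith : s - 1 ≤ 0)
      have hby : 0 < b + y := by positivity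
      have k1 := hconv.2 (show t ∈ Set.Ioi (0 : ℝ) from ht')
        (show t + (b + y) ∈ Set.Ioi (0 : ℝ) from by simp only [Set.mem_Ioi]; positivity)
        (show 0 ≤ y / (b + y) by positivity) (show 0 ≤ b / (b + y) by positivity)
        (by field_simp; ring)
      have k2 := hconv.2 (show t ∈ Set.Ioi (0 : ℝ) from ht')
        (show t + (b + y) ∈ Set.Ioi (0 : ℝ) from by simp only [Set.mem_Ioi]; positivity)
        (show 0 ≤ b / (b + y) by positivity) (show 0 ≤ y / (b + y) by positivity)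
        (by field_simp)
      simp only [smul_eq_mul] at k1 k2
      have f1 : y / (b + y) * t + b / (b + y) * (t + (b + y)) = t + b := by
        field_simp; ring
      have f2 : b / (b + y) * t + y / (b + y) * (t + (b + y)) = t + y := by
        field_simp; ring
      rw [f1] at k1
      rw [f2] at k2
      have f3 : y / (b + y) + b / (b + y) = 1 := by field_simp; ring
      have k3 : (t + b) ^ (s - 1) + (t + y) ^ (s - 1) ≤ t ^ (s - 1) + (t + (b + y)) ^ (s - 1) := by
        have : (y / (b + y) * t ^ (s - 1) + b / (b + y) * (t + (b + y)) ^ (s - 1)) +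
            (b / (b + y) * t ^ (s - 1) + y / (b + y) * (t + (b + y)) ^ (s - 1))
            = t ^ (s - 1) + (t + (b + y)) ^ (s - 1) := by
          have : b / (b + y) = 1 - y / (b + y) := by linarith
          rw [this]; ring
        linarith
      nlinarith
  have := hmono (Set.mem_Ici.2 le_rfl) (Set.mem_Ici.2 ha) ha
  simp only [hg, zero_add, Real.zero_rpow hs0.ne'] at this
  linarith

/-- **Compound lemma.** `F`, `G` independent random sets of pieces with intensities `q`. -/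
theorem compound_rpow {q x : ι → ℝ} (hq : ∀ c, 0 ≤ q c) (hx : ∀ c, 0 ≤ x c) {s : ℝ}
    (hs0 : 0 < s) (hs1 : s ≤ 1) :
    4 * EE q (fun F => (∑ c ∈ F, x c) ^ s)
      - EE q (fun F => EE q (fun G => (∑ c ∈ F, x c + ∑ c ∈ G, x c) ^ s))
      ≤ 2 * ∑ c, q c * x c ^ s := by
  have h := compound_abs hq hx (fun t => t ^ s) (Real.zero_rpow hs0.ne')
    (fun a b ha hab => Real.rpow_le_rpow ha hab hs0.le)
    (fun a y ha hy => Real.rpow_add_le_add_rpow ha hy hs0.le hs1)
    (fun a b y ha hb hy => rpow_conv hs0 hs1 a b y ha hb hy) Finset.univ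
  simp_rw [Sp_univ] at h
  have e : EE2 q (fun F G => 2 * (∑ c ∈ F, x c) ^ s + 2 * (∑ c ∈ G, x c) ^ s
      - (∑ c ∈ F, x c + ∑ c ∈ G, x c) ^ s)
      = 4 * EE q (fun F => (∑ c ∈ F, x c) ^ s)
      - EE q (fun F => EE q (fun G => (∑ c ∈ F, x c + ∑ c ∈ G, x c) ^ s)) := by
    unfold EE2
    have : ∀ F : Finset ι, EE q (fun G => 2 * (∑ c ∈ F, x c) ^ s + 2 * (∑ c ∈ G, x c) ^ s
        - (∑ c ∈ F, x c + ∑ c ∈ G, x c) ^ s) = 2 * (∑ c ∈ F, x c) ^ s
        + 2 * EE q (fun G => (∑ c ∈ G, x c) ^ s)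
        - EE q (fun G => (∑ c ∈ F, x c + ∑ c ∈ G, x c) ^ s) := by
      intro F
      rw [EE_sub, EE_add, EE_const, EE_mul_left]
    rw [show (fun F : Finset ι => EE q (fun G => 2 * (∑ c ∈ F, x c) ^ s + 2 * (∑ c ∈ G, x c) ^ s
        - (∑ c ∈ F, x c + ∑ c ∈ G, x c) ^ s)) = fun F => 2 * (∑ c ∈ F, x c) ^ s
        + 2 * EE q (fun G => (∑ c ∈ G, x c) ^ s)
        - EE q (fun G => (∑ c ∈ F, x c + ∑ c ∈ G, x c) ^ s) from funext this]
    rw [EE_sub, EE_add, EE_const, EE_mul_left]
    ring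
  rw [e] at h
  exact h

end Pool.Agent.Lib.MP_9cae81_R
end

section

/-! Additivity defect and the exact inequality of the compound law. -/

open Finset
open scoped BigOperators

namespace Pool.Agent.Lib.MP_9cae81_PC

open Pool.Agent.Lib.MP_9cae81_R

variable {L ι : Type} [Fintype L] [Nonempty L] [Fintype ι] [DecidableEq ι] (P : PF L ι)
variable {q : ι → ℝ} {c2 β ρ : ℝ}

theorem P2a_Av_one : Av (fun _ : L => (1 : ℝ)) = 1 := by
  unfold Av
  have : (Fintype.card L : ℝ) ≠ 0 := by exact_mod_cast Fintype.card_ne_zero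
  rw [Finset.sum_const, Finset.card_univ, nsmul_eq_mul, mul_one, div_self this]

theorem P2a_exp : Real.exp (11 / 5) ≤ 10 := by
  have h1 : Real.exp 1 < 2.7182818286 := Real.exp_one_lt_d9
  have h0 : 0 < Real.exp 1 := Real.exp_pos 1
  have h2 : Real.exp (1 / 5) ≤ 5 / 4 := by
    have h3 : (4 : ℝ) / 5 ≤ Real.exp (-(1 / 5)) := by
      have := Real.add_one_le_exp (-(1 / 5 : ℝ)); linarith
    have h4 : Real.exp (1 / 5) * Real.exp (-(1 / 5)) = 1 := by rw [← Real.exp_add]; simp
    have h5 : 0 < Real.exp (1 / 5) := Real.exp_pos _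
    nlinarith
  have h6 : Real.exp (11 / 5) = Real.exp 1 * Real.exp 1 * Real.exp (1 / 5) := by
    rw [← Real.exp_add, ← Real.exp_add]; norm_num
  have h7 : Real.exp 1 * Real.exp 1 ≤ 8 := by nlinarith
  have h8 : 0 < Real.exp (1 / 5) := Real.exp_pos _
  rw [h6]
  nlinarith

theorem P2a_abs_add {s : ℝ} (hs : 0 < s) (hs1 : s ≤ 1) (x y : ℝ) :
    |x + y| ^ s ≤ |x| ^ s + |y| ^ s :=
  (Real.rpow_le_rpow (abs_nonneg _) (abs_add_le x y) hs.le).trans
    (Real.rpow_add_le_add_rpow (abs_nonneg _) (abs_nonneg _) hs.le hs1)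

theorem P2a_Er_nonneg (hG : Gad P q c2 β ρ) (s : ℝ) : 0 ≤ P.Er q s :=
  Finset.sum_nonneg fun p _ => mul_nonneg (hG.nonneg p)
    (EE_nonneg hG.nonneg fun _ => Real.rpow_nonneg (abs_nonneg _) _)

/-- `E |D g - ∑_{p ∈ g} D {p}| ^ s ≤ 10 Er`: `EE_subadd` with `f g = |D g - ∑ D {p}| ^ s`, `a = 0`,
`ε g p = (e g p) ^ s` (`|x + y| ^ s ≤ |x| ^ s + |y| ^ s`), `q' = q`, `∑ q ≤ 11/5`,
`exp(11/5) ≤ 10`. -/
theorem add_defect (hG : Gad P q c2 β ρ) (hc : c2 + β ≤ 11 / 5) (s : ℝ) (hs : 0 < s) (hs1 : s ≤ 1) :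
    EE q (fun g => |P.D g - ∑ p ∈ g, P.D {p}| ^ s) ≤ 10 * P.Er q s := by
  have h := EE_subadd q q hG.nonneg (fun c => le_refl _)
    (fun g => |P.D g - ∑ p ∈ g, P.D {p}| ^ s) (fun _ => 0) (fun g p => (P.e g p) ^ s)
    (fun _ => le_refl _) (fun g p => Real.rpow_nonneg (abs_nonneg _) _) ?_ ?_
  · have hsum : ∑ c, q c = c2 + β := by
      have h1 := hG.law (fun _ => 1)
      simpa [P2a_Av_one] using h1
    have hexp : Real.exp (∑ c, q c) ≤ 10 := by
      rw [hsum]
      exact (Real.exp_le_exp.2 hc).trans P2a_exp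
    have hEr : 0 ≤ P.Er q s := P2a_Er_nonneg P hG s
    have h2 : Real.exp (∑ c, q c) * P.Er q s ≤ 10 * P.Er q s :=
      mul_le_mul_of_nonneg_right hexp hEr
    refine h.trans ?_
    simp only [mul_zero, Finset.sum_const_zero, zero_add]
    exact h2
  · have h0 : P.D ∅ = 0 := P.empty ∅
    simp only [h0, Finset.sum_empty, sub_zero, abs_zero]
    exact Real.zero_rpow hs.ne'
  · intro g p hp
    simp only [add_zero]
    rw [Finset.sum_insert hp]
    have hx : P.D (insert p g) - (P.D {p} + ∑ x ∈ g, P.D {x}) =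
        (P.D g - ∑ x ∈ g, P.D {x}) + (P.M (insert p g) (insert p g) - P.M g g - P.M {p} {p}) := by
      unfold PF.D; ring
    rw [hx]
    exact P2a_abs_add hs hs1 _ _

/-- THE MAIN INEQUALITY, first half.  `MP_9cae81_R.compound_rpow` with `x c = D {c}` (`E2 = EE2`, rfl);
`∑ q p (D {p}) ^ s = c2 S1 + β Rs` by `hG.law` and `P.pair`; replace `∑_{p ∈ g} D {p}` by `D g` with
`|x ^ s - y ^ s| ≤ |x - y| ^ s` and `add_defect` (six times: coefficients 2, 2 and twice 1). -/
theorem bern (hG : Gad P q c2 β ρ) (hc : c2 + β ≤ 11 / 5) (s : ℝ) (hs : 0 < s) (hs1 : s ≤ 1) :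
    E2 q (fun a b => 2 * (P.D a) ^ s + 2 * (P.D b) ^ s - (P.D a + P.D b) ^ s) ≤
      2 * c2 * P.S1 s + 2 * β * P.Rs s + 60 * P.Er q s := by
  set T : Finset ι → ℝ := fun g => ∑ p ∈ g, P.D {p} with hT
  set δ : Finset ι → ℝ := fun g => |P.D g - T g| ^ s with hδ
  have hT0 : ∀ g, 0 ≤ T g := fun g => Finset.sum_nonneg fun p _ => PF.D_nonneg P {p}
  have hD0 : ∀ g, 0 ≤ P.D g := fun g => PF.D_nonneg P g
  -- pointwise comparison
  have up : ∀ g, (P.D g) ^ s ≤ (T g) ^ s + δ g := by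
    intro g
    have h1 : P.D g = |T g + (P.D g - T g)| := by
      rw [show T g + (P.D g - T g) = P.D g by ring, abs_of_nonneg (hD0 g)]
    have h2 := P2a_abs_add hs hs1 (T g) (P.D g - T g)
    rw [← h1, abs_of_nonneg (hT0 g)] at h2
    exact h2
  have lo : ∀ a b, (T a + T b) ^ s ≤ (P.D a + P.D b) ^ s + δ a + δ b := by
    intro a b
    have h1 : T a + T b = |(P.D a + P.D b) + ((T a - P.D a) + (T b - P.D b))| := by
      rw [show (P.D a + P.D b) + ((T a - P.D a) + (T b - P.D b)) = T a + T b by ring,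
        abs_of_nonneg (add_nonneg (hT0 a) (hT0 b))]
    have h2 := P2a_abs_add hs hs1 (P.D a + P.D b) ((T a - P.D a) + (T b - P.D b))
    rw [← h1, abs_of_nonneg (add_nonneg (hD0 a) (hD0 b))] at h2
    have h3 := P2a_abs_add hs hs1 (T a - P.D a) (T b - P.D b)
    have h4 : |T a - P.D a| = |P.D a - T a| := abs_sub_comm _ _
    have h5 : |T b - P.D b| = |P.D b - T b| := abs_sub_comm _ _
    rw [h4, h5] at h3
    simp only [hδ]
    linarith
  have hcomp := MP_9cae81_R.compound_rpow (q := q) (x := fun c => P.D {c}) hG.nonneg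
    (fun c => PF.D_nonneg P {c}) hs hs1
  have hlaw : ∑ c, q c * (P.D {c}) ^ s = c2 * P.S1 s + β * P.Rs s := by
    rw [hG.law (fun c => (P.D {c}) ^ s)]
    have e2 : ∀ l l', P.D {P.pr l l'} = P.M {P.u l} {P.u l'} := fun l l' => P.pair l l'
    simp only [e2]
    rfl
  have hdef : EE q δ ≤ 10 * P.Er q s := add_defect P hG hc s hs hs1
  -- integrate
  have step : E2 q (fun a b => 2 * (P.D a) ^ s + 2 * (P.D b) ^ s - (P.D a + P.D b) ^ s) ≤
      E2 q (fun a b => (2 * (T a) ^ s + 3 * δ a) + ((2 * (T b) ^ s + 3 * δ b)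
        - (T a + T b) ^ s)) := by
    refine EE_mono hG.nonneg fun a => EE_mono hG.nonneg fun b => ?_
    have h1 := up a
    have h2 := up b
    have h3 := lo a b
    linarith
  have val : E2 q (fun a b => (2 * (T a) ^ s + 3 * δ a) + ((2 * (T b) ^ s + 3 * δ b)
        - (T a + T b) ^ s)) =
      4 * EE q (fun F => (T F) ^ s) - EE q (fun F => EE q (fun G => (T F + T G) ^ s))
        + 6 * EE q δ := by
    unfold E2
    have i1 : ∀ a, EE q (fun b => (2 * (T a) ^ s + 3 * δ a) + ((2 * (T b) ^ s + 3 * δ b)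
        - (T a + T b) ^ s)) = (2 * (T a) ^ s + 3 * δ a) + ((2 * EE q (fun b => (T b) ^ s)
          + 3 * EE q δ) - EE q (fun b => (T a + T b) ^ s)) := by
      intro a
      rw [EE_add q (fun _ => 2 * (T a) ^ s + 3 * δ a), EE_const, EE_sub, EE_add, EE_mul_left,
        EE_mul_left]
    simp only [i1]
    rw [EE_add q (fun a => 2 * (T a) ^ s + 3 * δ a), EE_add, EE_mul_left, EE_mul_left,
      EE_sub q (fun _ => 2 * EE q (fun b => (T b) ^ s) + 3 * EE q δ), EE_const]
    ring
  rw [val] at step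
  have hcomp' : 4 * EE q (fun F => (T F) ^ s)
      - EE q (fun F => EE q (fun G => (T F + T G) ^ s)) ≤ 2 * ∑ c, q c * (P.D {c}) ^ s := hcomp
  rw [hlaw] at hcomp'
  linarith

end Pool.Agent.Lib.MP_9cae81_PC
end

section

/-! E min(D a, D b) ^ s. -/

open Finset
open scoped BigOperators

namespace Pool.Agent.Lib.MP_9cae81_PC

open Pool.Agent.Lib.MP_9cae81_R

variable {L ι : Type} [Fintype L] [Nonempty L] [Fintype ι] [DecidableEq ι] (P : PF L ι)
variable {q : ι → ℝ} {c2 β ρ : ℝ}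

theorem P2c_M_nonneg (g h : Finset ι) : 0 ≤ P.M g h := by
  have h1 := P.mono ∅ g h h (Finset.empty_subset _) (Finset.Subset.refl _)
  rw [P.empty] at h1
  exact h1

theorem P2c_D_nonneg (g : Finset ι) : 0 ≤ P.D g := P2c_M_nonneg P g g

theorem P2c_d_nonneg (l : L) : 0 ≤ P.d l := P2c_M_nonneg P _ _

theorem P2c_r_nonneg (l l' : L) : 0 ≤ P.r l l' := P2c_M_nonneg P _ _

theorem P2c_r_le (l l' : L) : P.r l l' ≤ min (P.d l) (P.d l') := by
  refine le_min (P.diag _ _) ?_
  unfold PF.r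
  rw [P.symm]
  exact P.diag _ _

/-- Average is monotone. -/
theorem P2c_Av_mono {f g : L → ℝ} (h : ∀ l, f l ≤ g l) : Av f ≤ Av g := by
  unfold Av
  exact div_le_div_of_nonneg_right (Finset.sum_le_sum fun l _ => h l) (Nat.cast_nonneg _)

theorem P2c_Av_nonneg {f : L → ℝ} (h : ∀ l, 0 ≤ f l) : 0 ≤ Av f := by
  unfold Av
  exact div_nonneg (Finset.sum_nonneg fun l _ => h l) (Nat.cast_nonneg _)

theorem P2c_Av_const (a : ℝ) : Av (fun _ : L => a) = a := by
  unfold Av
  rw [Finset.sum_const, nsmul_eq_mul, Finset.card_univ]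
  have : (Fintype.card L : ℝ) ≠ 0 := Nat.cast_ne_zero.2 Fintype.card_ne_zero
  field_simp

theorem P2c_Av_comm (f : L → L → ℝ) :
    Av (fun l => Av (fun l' => f l l')) = Av (fun l' => Av (fun l => f l l')) := by
  unfold Av
  rw [← Finset.sum_div, ← Finset.sum_div, Finset.sum_comm]

theorem P2c_Av_add (f g : L → ℝ) : Av (fun l => f l + g l) = Av f + Av g := by
  unfold Av
  rw [Finset.sum_add_distrib, add_div]

theorem P2c_Av_mul (a : ℝ) (f : L → ℝ) : Av (fun l => a * f l) = a * Av f := by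
  unfold Av
  rw [← Finset.mul_sum, mul_div_assoc]

/-- Subadditivity of the power for a finite sum. -/
theorem P2c_rpow_sum {κ : Type} (S : Finset κ) (f : κ → ℝ) (hf : ∀ k ∈ S, 0 ≤ f k) {s : ℝ}
    (hs : 0 < s) (hs1 : s ≤ 1) : (∑ k ∈ S, f k) ^ s ≤ ∑ k ∈ S, (f k) ^ s := by
  classical
  induction S using Finset.induction_on with
  | empty => simp [Real.zero_rpow hs.ne']
  | insert a S ha ih =>
    rw [Finset.sum_insert ha, Finset.sum_insert ha]
    have h1 := Real.rpow_add_le_add_rpow (hf a (Finset.mem_insert_self _ _))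
      (Finset.sum_nonneg fun k hk => hf k (Finset.mem_insert_of_mem hk)) hs.le hs1
    have h2 := ih fun k hk => hf k (Finset.mem_insert_of_mem hk)
    linarith

/-- `min(∑ x, y) ≤ ∑ min(x, y)`. -/
theorem P2c_min_sum {κ : Type} (S : Finset κ) (f : κ → ℝ) (hf : ∀ k ∈ S, 0 ≤ f k) {y : ℝ}
    (hy : 0 ≤ y) : min (∑ k ∈ S, f k) y ≤ ∑ k ∈ S, min (f k) y := by
  classical
  induction S using Finset.induction_on with
  | empty => simp
  | insert a S ha ih =>
    rw [Finset.sum_insert ha, Finset.sum_insert ha]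
    have h2 := ih fun k hk => hf k (Finset.mem_insert_of_mem hk)
    have h3 := hf a (Finset.mem_insert_self _ _)
    have h4 : 0 ≤ ∑ k ∈ S, f k := Finset.sum_nonneg fun k hk => hf k (Finset.mem_insert_of_mem hk)
    have h5 : min (f a + ∑ k ∈ S, f k) y ≤ min (f a) y + min (∑ k ∈ S, f k) y := by
      rcases le_total (f a) y with h | h
      · rcases le_total (∑ k ∈ S, f k) y with h' | h'
        · rw [min_eq_left h, min_eq_left h']; exact min_le_left _ _
        · rw [min_eq_left h, min_eq_right h']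
          exact (min_le_right _ _).trans (by linarith)
      · rw [min_eq_right h]
        exact (min_le_right _ _).trans (by have := le_min h4 hy; linarith)
    linarith

/-- The pointwise bound. -/
theorem P2c_point (a b : Finset ι) (s : ℝ) (hs : 0 < s) (hs1 : s ≤ 1) :
    (min (P.D a) (P.D b)) ^ s ≤
      (∑ p ∈ a, ∑ p' ∈ b, (min (P.D {p}) (P.D {p'})) ^ s) +
        |P.D a - ∑ p ∈ a, P.D {p}| ^ s + |P.D b - ∑ p ∈ b, P.D {p}| ^ s := by
  set A := ∑ p ∈ a, P.D {p} with hA
  set B := ∑ p ∈ b, P.D {p} with hB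
  have hA0 : 0 ≤ A := Finset.sum_nonneg fun p _ => P2c_D_nonneg P _
  have hB0 : 0 ≤ B := Finset.sum_nonneg fun p _ => P2c_D_nonneg P _
  have h1 : min (P.D a) (P.D b) ≤ min A B + |P.D a - A| + |P.D b - B| := by
    have e1 := le_abs_self (P.D a - A)
    have e2 := le_abs_self (P.D b - B)
    have e3 := abs_nonneg (P.D a - A)
    have e4 := abs_nonneg (P.D b - B)
    rcases le_total A B with h | h
    · rw [min_eq_left h]
      exact (min_le_left _ _).trans (by linarith)
    · rw [min_eq_right h]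
      exact (min_le_right _ _).trans (by linarith)
  have h2 : min A B ≤ ∑ p ∈ a, ∑ p' ∈ b, min (P.D {p}) (P.D {p'}) := by
    refine (P2c_min_sum a (fun p => P.D {p}) (fun p _ => P2c_D_nonneg P _) hB0).trans ?_
    refine Finset.sum_le_sum fun p _ => ?_
    rw [min_comm]
    refine (P2c_min_sum b (fun p => P.D {p}) (fun p _ => P2c_D_nonneg P _)
      (P2c_D_nonneg P _)).trans ?_
    exact Finset.sum_le_sum fun p' _ => le_of_eq (min_comm _ _)
  have h0 : 0 ≤ min (P.D a) (P.D b) := le_min (P2c_D_nonneg P _) (P2c_D_nonneg P _)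
  have hm0 : ∀ p p' : ι, 0 ≤ min (P.D {p}) (P.D {p'}) := fun p p' =>
    le_min (P2c_D_nonneg P _) (P2c_D_nonneg P _)
  have hS0 : 0 ≤ ∑ p ∈ a, ∑ p' ∈ b, min (P.D {p}) (P.D {p'}) :=
    Finset.sum_nonneg fun p _ => Finset.sum_nonneg fun p' _ => hm0 p p'
  calc (min (P.D a) (P.D b)) ^ s
      ≤ ((∑ p ∈ a, ∑ p' ∈ b, min (P.D {p}) (P.D {p'})) + |P.D a - A| + |P.D b - B|) ^ s :=
        Real.rpow_le_rpow h0 (by linarith) hs.le
    _ ≤ ((∑ p ∈ a, ∑ p' ∈ b, min (P.D {p}) (P.D {p'})) + |P.D a - A|) ^ s + |P.D b - B| ^ s :=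
        Real.rpow_add_le_add_rpow (by positivity) (abs_nonneg _) hs.le hs1
    _ ≤ ((∑ p ∈ a, ∑ p' ∈ b, min (P.D {p}) (P.D {p'})) ^ s + |P.D a - A| ^ s) +
          |P.D b - B| ^ s := by
        have := Real.rpow_add_le_add_rpow hS0 (abs_nonneg (P.D a - A)) hs.le hs1
        linarith
    _ ≤ _ := by
        have e1 := P2c_rpow_sum a (fun p => ∑ p' ∈ b, min (P.D {p}) (P.D {p'}))
          (fun p _ => Finset.sum_nonneg fun p' _ => hm0 p p') hs hs1
        have e2 : ∑ p ∈ a, (∑ p' ∈ b, min (P.D {p}) (P.D {p'})) ^ s ≤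
            ∑ p ∈ a, ∑ p' ∈ b, (min (P.D {p}) (P.D {p'})) ^ s :=
          Finset.sum_le_sum fun p _ => P2c_rpow_sum b (fun p' => min (P.D {p}) (P.D {p'}))
            (fun p' _ => hm0 p p') hs hs1
        linarith

/-- `E min(D a, D b) ^ s ≤ 5 k + 20 Er`:
`min(D a, D b) ≤ min(∑_a, ∑_b) + |D a - ∑_a| + |D b - ∑_b|`, subadditivity of `x ^ s`,
`min(∑ x_i, ∑ y_j) ≤ ∑ ∑ min(x_i, y_j)`, `E ∑_{p ∈ a} ∑_{p' ∈ b} f ≤ ∑ ∑ q p q p' f`
(`EE_sum_le` twice), `law` twice with `D {pr l l'} = r l l' ≤ d l`; `(c2+β)² ≤ 121/25 ≤ 5`. -/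
theorem Em_le (hG : Gad P q c2 β ρ) (hc2 : 0 ≤ c2) (hβ : 0 ≤ β) (hc : c2 + β ≤ 11 / 5) (s : ℝ)
    (hs : 0 < s) (hs1 : s ≤ 1) :
    P.Em q s ≤ 5 * P.Ks s + 20 * P.Er q s := by
  have hq : ∀ c, 0 ≤ q c := hG.nonneg
  set F : ι → ι → ℝ := fun p p' => (min (P.D {p}) (P.D {p'})) ^ s with hF
  have hF0 : ∀ p p', 0 ≤ F p p' := fun p p' =>
    Real.rpow_nonneg (le_min (P2c_D_nonneg P _) (P2c_D_nonneg P _)) _
  set X : Finset ι → ℝ := fun g => |P.D g - ∑ p ∈ g, P.D {p}| ^ s with hX
  have hXle : EE q X ≤ 10 * P.Er q s := add_defect P hG hc s hs hs1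
  -- step 1: pointwise
  have h1 : P.Em q s ≤ EE q (fun a => EE q (fun b => (∑ p ∈ a, ∑ p' ∈ b, F p p') + X a + X b)) := by
    unfold PF.Em E2
    exact EE_mono hq fun a => EE_mono hq fun b => P2c_point P a b s hs hs1
  have h2 : EE q (fun a => EE q (fun b => (∑ p ∈ a, ∑ p' ∈ b, F p p') + X a + X b)) =
      EE q (fun a => EE q (fun b => ∑ p ∈ a, ∑ p' ∈ b, F p p')) + EE q X + EE q X := by
    have e1 : ∀ a, EE q (fun b => (∑ p ∈ a, ∑ p' ∈ b, F p p') + X a + X b) =
        EE q (fun b => ∑ p ∈ a, ∑ p' ∈ b, F p p') + X a + EE q X := by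
      intro a
      rw [EE_add, EE_add, EE_const]
    simp_rw [e1]
    rw [EE_add, EE_add, EE_const]
  -- step 2: the double sum
  have h3 : EE q (fun a => EE q (fun b => ∑ p ∈ a, ∑ p' ∈ b, F p p')) ≤
      ∑ p, q p * ∑ p', q p' * F p p' := by
    have e1 : ∀ a, EE q (fun b => ∑ p ∈ a, ∑ p' ∈ b, F p p') ≤
        ∑ p ∈ a, ∑ p', q p' * F p p' := by
      intro a
      rw [EE_sum]
      exact Finset.sum_le_sum fun p _ => EE_sum_le q hq (fun p' => F p p') (hF0 p)
    refine (EE_mono hq e1).trans ?_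
    exact EE_sum_le q hq (fun p => ∑ p', q p' * F p p')
      (fun p => Finset.sum_nonneg fun p' _ => mul_nonneg (hq p') (hF0 p p'))
  -- step 3: the law
  have hpr : ∀ l l', P.D {P.pr l l'} = P.r l l' := fun l l' => P.pair l l'
  have hu : ∀ l, P.D {P.u l} = P.d l := fun l => rfl
  have inner : ∀ p, ∑ p', q p' * F p p' ≤
      (c2 + β) * Av (fun l => (min (P.D {p}) (P.d l)) ^ s) := by
    intro p
    rw [hG.law (fun p' => F p p')]
    have e1 : Av (fun l => Av (fun l' => F p (P.pr l l'))) ≤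
        Av (fun l => (min (P.D {p}) (P.d l)) ^ s) := by
      have : ∀ l l', F p (P.pr l l') ≤ (min (P.D {p}) (P.d l)) ^ s := by
        intro l l'
        simp only [hF]
        rw [hpr]
        refine Real.rpow_le_rpow (le_min (P2c_D_nonneg P _) (P2c_r_nonneg P l l')) ?_ hs.le
        exact min_le_min_left _ ((P2c_r_le P l l').trans (min_le_left _ _))
      refine P2c_Av_mono fun l => ?_
      have := P2c_Av_mono (fun l' => this l l')
      rwa [P2c_Av_const] at this
    have e2 : c2 * Av (fun l => F p (P.u l)) = c2 * Av (fun l => (min (P.D {p}) (P.d l)) ^ s) := rfl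
    rw [e2]
    have := mul_le_mul_of_nonneg_left e1 hβ
    linarith
  have hG0 : ∀ p, 0 ≤ Av (fun l => (min (P.D {p}) (P.d l)) ^ s) := fun p =>
    P2c_Av_nonneg fun l => Real.rpow_nonneg (le_min (P2c_D_nonneg P _) (P2c_d_nonneg P _)) _
  have hcβ : 0 ≤ c2 + β := by linarith
  have h4 : ∑ p, q p * ∑ p', q p' * F p p' ≤
      (c2 + β) * ∑ p, q p * Av (fun l => (min (P.D {p}) (P.d l)) ^ s) := by
    rw [Finset.mul_sum]
    refine Finset.sum_le_sum fun p _ => ?_
    have := mul_le_mul_of_nonneg_left (inner p) (hq p)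
    linarith
  have h5 : ∑ p, q p * Av (fun l => (min (P.D {p}) (P.d l)) ^ s) ≤ (c2 + β) * P.Ks s := by
    rw [hG.law (fun p => Av (fun l => (min (P.D {p}) (P.d l)) ^ s))]
    have e1 : Av (fun l => Av (fun l' => Av (fun l'' =>
        (min (P.D {P.pr l l'}) (P.d l'')) ^ s))) ≤ P.Ks s := by
      unfold PF.Ks
      refine P2c_Av_mono fun l => ?_
      have e : ∀ l', Av (fun l'' => (min (P.D {P.pr l l'}) (P.d l'')) ^ s) ≤
          Av (fun l'' => (min (P.d l) (P.d l'')) ^ s) := by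
        intro l'
        refine P2c_Av_mono fun l'' => ?_
        rw [hpr]
        refine Real.rpow_le_rpow (le_min (P2c_r_nonneg P l l') (P2c_d_nonneg P _)) ?_ hs.le
        exact min_le_min_right _ ((P2c_r_le P l l').trans (min_le_left _ _))
      have := P2c_Av_mono e
      rwa [P2c_Av_const] at this
    have e2 : Av (fun l => Av (fun l'' => (min (P.D {P.u l}) (P.d l'')) ^ s)) = P.Ks s := rfl
    rw [e2]
    have := mul_le_mul_of_nonneg_left e1 hβ
    linarith
  have hK0 : 0 ≤ P.Ks s := by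
    unfold PF.Ks
    exact P2c_Av_nonneg fun l => P2c_Av_nonneg fun l' =>
      Real.rpow_nonneg (le_min (P2c_d_nonneg P _) (P2c_d_nonneg P _)) _
  have h6 := mul_le_mul_of_nonneg_left h5 hcβ
  have h7 : (c2 + β) * ((c2 + β) * P.Ks s) ≤ 5 * P.Ks s := by
    have : (c2 + β) * (c2 + β) ≤ 5 := by nlinarith
    have := mul_le_mul_of_nonneg_right this hK0
    linarith
  linarith

/-- `Rs ≤ Ks` because `r l l' ≤ min(d l, d l')` (`diag` and `symm`). -/
theorem Rs_le (s : ℝ) (hs : 0 < s) : P.Rs s ≤ P.Ks s := by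
  unfold PF.Rs PF.Ks
  refine P2c_Av_mono fun l => P2c_Av_mono fun l' => ?_
  exact Real.rpow_le_rpow (P2c_r_nonneg P l l') (P2c_r_le P l l') hs.le

end Pool.Agent.Lib.MP_9cae81_PC
end

section

/-! The main inequality per formula. -/

open Finset
open scoped BigOperators

namespace Pool.Agent.Lib.MP_9cae81_PC

open Pool.Agent.Lib.MP_9cae81_R

variable {L ι : Type} [Fintype L] [Nonempty L] [Fintype ι] [DecidableEq ι] (P : PF L ι)
variable {q : ι → ℝ} {c2 β ρ : ℝ}

private theorem P2d_E2_mono {q : ι → ℝ} (hq : ∀ c, 0 ≤ q c) {F G : Finset ι → Finset ι → ℝ}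
    (H : ∀ a b, F a b ≤ G a b) : E2 q F ≤ E2 q G :=
  EE_mono hq fun a => EE_mono hq fun b => H a b

private theorem P2d_E2_add (q : ι → ℝ) (F G : Finset ι → Finset ι → ℝ) :
    E2 q (fun a b => F a b + G a b) = E2 q F + E2 q G := by
  unfold E2
  rw [← EE_add]
  congr 1
  funext a
  rw [EE_add]

private theorem P2d_E2_sub (q : ι → ℝ) (F G : Finset ι → Finset ι → ℝ) :
    E2 q (fun a b => F a b - G a b) = E2 q F - E2 q G := by
  unfold E2
  rw [← EE_sub]
  congr 1
  funext a
  rw [EE_sub]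

private theorem P2d_E2_mul (q : ι → ℝ) (c : ℝ) (F : Finset ι → Finset ι → ℝ) :
    E2 q (fun a b => c * F a b) = c * E2 q F := by
  unfold E2
  rw [← EE_mul_left]
  congr 1
  funext a
  rw [EE_mul_left]

private theorem P2d_E2_swap (q : ι → ℝ) (F : Finset ι → Finset ι → ℝ) :
    E2 q (fun a b => F b a) = E2 q F := by
  unfold E2
  exact EE_comm q q (fun a b => F b a)

/-- THE MAIN INEQUALITY per formula, from `bern`, `KB.Kt_le` and `Em_le`.
With `a = D g`, `b = D h`, `R = M g h`: `E2[-Kt] = E2[2a^s + 2b^s - (a+b)^s] - 2 E2[R^s] -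
E2[(a-R)^s] - E2[(b-R)^s]` and the last two are equal (exchange the two gadgets, `symm`), both
`E2[(dx g h)^s]`.  Upper bound by `bern`; lower bound `-Kt ≥ η min^s ((1/2) (dev/min)² - κ)`. -/
theorem main_ineq (hG : Gad P q c2 β ρ) (hc2 : 0 ≤ c2) (hβ : 0 ≤ β) (hc : c2 + β ≤ 11 / 5)
    (η κ δ ε : ℝ) (hη : 0 < η) (hη2 : η ≤ 1 / 2) (hκ : 0 < κ)
    (hK : ∀ a b R : ℝ, 0 ≤ R → R ≤ a → R ≤ b → MP9cae81PC.Kt η a b R ≤
      η * (min a b) ^ (1 - η) * (κ - (1 / 2) * ((R - a * b / (a + b)) / min a b) ^ 2))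
    (hδ : c2 ≤ 1 - δ) (hε : β ≤ 1 + ε) (hε0 : 0 ≤ ε) :
    (η / 2) * P.DevE q (1 - η) + 2 * δ * P.S1 (1 - η) ≤
      (5 * η * κ + 2 * ε) * P.Ks (1 - η) +
      2 * (P.S1 (1 - η) - E2 q (fun a b => (P.dx a b) ^ (1 - η))) +
      2 * (P.Rs (1 - η) - E2 q (fun a b => (P.M a b) ^ (1 - η))) +
      (60 + 20 * η * κ) * P.Er q (1 - η) := by
  have hq := hG.nonneg
  set s : ℝ := 1 - η with hs
  have hs0 : 0 < s := by rw [hs]; linarith
  have hs1 : s ≤ 1 := by rw [hs]; linarith
  have hM0 : ∀ g h, 0 ≤ P.M g h := by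
    intro g h
    have h1 := P.mono ∅ g ∅ h (Finset.empty_subset _) (Finset.empty_subset _)
    rw [P.empty] at h1
    exact h1
  have hMg : ∀ g h, P.M g h ≤ P.D g := fun g h => P.diag g h
  have hMh : ∀ g h, P.M g h ≤ P.D h := by
    intro g h
    rw [P.symm g h]
    exact P.diag h g
  -- pointwise bound
  have hpt : ∀ g h, MP9cae81PC.Kt η (P.D g) (P.D h) (P.M g h) ≤
      (η * κ) * (min (P.D g) (P.D h)) ^ s - (η / 2) * PF.dv s (P.D g) (P.D h) (P.M g h) := by
    intro g h
    have h1 := hK (P.D g) (P.D h) (P.M g h) (hM0 g h) (hMg g h) (hMh g h)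
    refine h1.trans (le_of_eq ?_)
    unfold PF.dv par
    ring
  have hE : E2 q (fun g h => MP9cae81PC.Kt η (P.D g) (P.D h) (P.M g h)) ≤
      (η * κ) * P.Em q s - (η / 2) * P.DevE q s := by
    refine (P2d_E2_mono hq hpt).trans (le_of_eq ?_)
    rw [P2d_E2_sub, P2d_E2_mul, P2d_E2_mul]
    rfl
  -- expansion of the expectation
  have hexp : E2 q (fun g h => MP9cae81PC.Kt η (P.D g) (P.D h) (P.M g h)) =
      2 * E2 q (fun g h => (P.M g h) ^ s) -
        E2 q (fun g h => 2 * (P.D g) ^ s + 2 * (P.D h) ^ s - (P.D g + P.D h) ^ s) +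
        (E2 q (fun g h => (P.dx g h) ^ s) + E2 q (fun g h => (P.dx g h) ^ s)) := by
    have h1 : E2 q (fun g h => (P.dx g h) ^ s) = E2 q (fun g h => (P.dx h g) ^ s) :=
      (P2d_E2_swap q (fun g h => (P.dx g h) ^ s)).symm
    nth_rw 2 [h1]
    rw [← P2d_E2_mul, ← P2d_E2_sub, ← P2d_E2_add, ← P2d_E2_add]
    congr 1
    funext g h
    unfold MP9cae81PC.Kt PF.dx PF.D
    rw [P.symm h g, ← hs]
    ring
  have hb := bern P hG hc s hs0 hs1
  have hEm := Em_le P hG hc2 hβ hc s hs0 hs1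
  have hRs := Rs_le P s hs0
  have hS1nn : 0 ≤ P.S1 s := by
    unfold PF.S1 Av
    refine div_nonneg (Finset.sum_nonneg fun l _ => ?_) (by positivity)
    exact Real.rpow_nonneg (hM0 _ _) _
  have hRsnn : 0 ≤ P.Rs s := by
    unfold PF.Rs Av
    refine div_nonneg (Finset.sum_nonneg fun l _ => ?_) (by positivity)
    refine div_nonneg (Finset.sum_nonneg fun l' _ => ?_) (by positivity)
    exact Real.rpow_nonneg (hM0 _ _) _
  have e1 : (η * κ) * P.Em q s ≤ (η * κ) * (5 * P.Ks s + 20 * P.Er q s) :=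
    mul_le_mul_of_nonneg_left hEm (by positivity)
  have e2 : (c2 - 1) * P.S1 s ≤ (-δ) * P.S1 s :=
    mul_le_mul_of_nonneg_right (by linarith) hS1nn
  have e3 : (β - 1) * P.Rs s ≤ ε * P.Rs s :=
    mul_le_mul_of_nonneg_right (by linarith) hRsnn
  have e4 : ε * P.Rs s ≤ ε * P.Ks s := mul_le_mul_of_nonneg_left hRs hε0
  rw [hexp] at hE
  linarith

end Pool.Agent.Lib.MP_9cae81_PC
end
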