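import Mathlib
import Pool.Agent.Lib.MP_9cae81_PC.P3a
import Pool.Agent.Lib.MP_9cae81_PC.Mg.G005

section

/-! Perturbation of the marks of the new variable. -/

open Finset
open scoped BigOperators

namespace Pool.Agent.Lib.MP_9cae81_PC

open Pool.Agent.Lib.MP_9cae81_R

variable {L ι : Type} [Fintype L] [Fintype ι] [DecidableEq ι] (P : PF L ι)

/-- ONE UNIT.  `b ∪ {u l}` on the side of `x`, `a` on the other side: both marks of the new variable
move by at most `D a + D b +` defects from those of `l`.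
`dx = D(b ∪ l) - M a (b ∪ l)`, `0 ≤ M a _ ≤ D a`, `d l ≤ D(b ∪ l) ≤ D b + d l + e b (u l)`;
`rx - r l y = (M (b ∪ l) (a ∪ y) - M l y) - M a (b ∪ l)` and `lip`. -/
theorem pert_one (a b : Finset ι) (l y : L) :
    |P.dx a (insert (P.u l) b) - P.d l| + |P.rx a (insert (P.u l) b) y - P.r l y| ≤
      2 * P.D a + 2 * P.D b + 2 * P.e b (P.u l) + P.e a (P.u y) := by
  have h1 : P.M {P.u l} {P.u l} ≤ P.M (insert (P.u l) b) (insert (P.u l) b) :=
    P.mono _ _ _ _ (by simp) (by simp)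
  have h2 : P.M (insert (P.u l) b) (insert (P.u l) b) ≤
      P.M b b + P.M {P.u l} {P.u l} + P.e b (P.u l) := by
    have := le_abs_self
      (P.M (insert (P.u l) b) (insert (P.u l) b) - P.M b b - P.M {P.u l} {P.u l})
    unfold PF.e
    linarith
  have h3 : P.M (insert (P.u y) a) (insert (P.u y) a) ≤
      P.M a a + P.M {P.u y} {P.u y} + P.e a (P.u y) := by
    have := le_abs_self
      (P.M (insert (P.u y) a) (insert (P.u y) a) - P.M a a - P.M {P.u y} {P.u y})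
    unfold PF.e
    linarith
  have h4 : 0 ≤ P.M a (insert (P.u l) b) := P.M_nonneg _ _
  have h5 : P.M a (insert (P.u l) b) ≤ P.M a a := P.diag _ _
  have h6 : P.M {P.u l} {P.u y} ≤ P.M (insert (P.u l) b) (insert (P.u y) a) :=
    P.mono _ _ _ _ (by simp) (by simp)
  have h7 : P.M (insert (P.u l) b) (insert (P.u y) a) - P.M {P.u l} {P.u y} ≤
      (P.M (insert (P.u l) b) (insert (P.u l) b) - P.M {P.u l} {P.u l}) +
      (P.M (insert (P.u y) a) (insert (P.u y) a) - P.M {P.u y} {P.u y}) :=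
    P.lip _ _ _ _ (by simp) (by simp)
  have h8 : 0 ≤ P.M b b := P.M_nonneg _ _
  have h9 : 0 ≤ P.M a a := P.M_nonneg _ _
  have h10 : 0 ≤ P.e b (P.u l) := abs_nonneg _
  have h11 : 0 ≤ P.e a (P.u y) := abs_nonneg _
  have k1 : |P.dx a (insert (P.u l) b) - P.d l| ≤ P.D a + P.D b + P.e b (P.u l) := by
    rw [abs_le]
    unfold PF.dx PF.d PF.D
    constructor <;> linarith
  have k2 : |P.rx a (insert (P.u l) b) y - P.r l y| ≤
      P.D a + P.D b + P.e b (P.u l) + P.e a (P.u y) := by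
    rw [abs_le]
    unfold PF.rx PF.r PF.D
    constructor <;> linarith
  linarith

private theorem P3b_pert_swap (a b : Finset ι) (l y : L) :
    |P.d l - P.dx a (insert (P.u l) b)| + |P.r l y - P.rx a (insert (P.u l) b) y| ≤
      2 * P.D a + 2 * P.D b + 2 * P.e b (P.u l) + P.e a (P.u y) := by
  rw [abs_sub_comm (P.d l), abs_sub_comm (P.r l y)]
  exact pert_one P a b l y

private theorem P3b_min_le_rpow {x s : ℝ} (hx : 0 ≤ x) (hs : 0 < s) (hs1 : s ≤ 1) :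
    min 1 x ≤ x ^ s := by
  rcases le_total x 1 with h | h
  · rw [min_eq_right h]
    rcases eq_or_lt_of_le hx with h0 | h0
    · rw [← h0, Real.zero_rpow hs.ne']
    · calc x = x ^ (1 : ℝ) := (Real.rpow_one x).symm
        _ ≤ x ^ s := Real.rpow_le_rpow_of_exponent_ge h0 h hs1
  · rw [min_eq_left h]
    exact Real.one_le_rpow h hs.le

private theorem P3b_min_add {x y z w : ℝ} (hx : 0 ≤ x) (hy : 0 ≤ y) (hz : 0 ≤ z) (hw : 0 ≤ w) :
    min 1 (x + y + z + w) ≤ min 1 x + min 1 y + min 1 z + min 1 w := by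
  have a1 : 0 ≤ min 1 x := le_min zero_le_one hx
  have a2 : 0 ≤ min 1 y := le_min zero_le_one hy
  have a3 : 0 ≤ min 1 z := le_min zero_le_one hz
  have a4 : 0 ≤ min 1 w := le_min zero_le_one hw
  rcases le_total 1 x with h1 | h1
  · have : min 1 x = 1 := min_eq_left h1
    have := min_le_left 1 (x + y + z + w)
    linarith
  rcases le_total 1 y with h2 | h2
  · have : min 1 y = 1 := min_eq_left h2
    have := min_le_left 1 (x + y + z + w)
    linarith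
  rcases le_total 1 z with h3 | h3
  · have : min 1 z = 1 := min_eq_left h3
    have := min_le_left 1 (x + y + z + w)
    linarith
  rcases le_total 1 w with h4 | h4
  · have : min 1 w = 1 := min_eq_left h4
    have := min_le_left 1 (x + y + z + w)
    linarith
  rw [min_eq_right h1, min_eq_right h2, min_eq_right h3, min_eq_right h4]
  exact min_le_right _ _

/-- Consequence for the bump: the loss is at most
`1(bump > 0) (min(1, 2050 D a / t) + min(1, 2050 D b / t)) + (2050 e b / t)^s + (1025 e a / t)^s`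
(`min 1 (x + y) ≤ min 1 x + min 1 y`, `min 1 x ≤ x ^ s`; where the bump of `(l, y)` vanishes the
left side is `≥ 0`). -/
theorem ph_one_unit {t : ℝ} (ht : 0 < t) (s : ℝ) (hs : 0 < s) (hs1 : s ≤ 1) (a b : Finset ι)
    (l y : L) :
    ph t (P.d l) (P.d y) (P.r l y)
      - (if 0 < ph t (P.d l) (P.d y) (P.r l y) then
          min 1 (2050 * P.D a / t) + min 1 (2050 * P.D b / t) else 0)
      - (2050 * P.e b (P.u l) / t) ^ s - (1025 * P.e a (P.u y) / t) ^ s ≤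
    ph t (P.dx a (insert (P.u l) b)) (P.d y) (P.rx a (insert (P.u l) b) y) := by
  have hDa : 0 ≤ P.D a := P.D_nonneg a
  have hDb : 0 ≤ P.D b := P.D_nonneg b
  have he1 : 0 ≤ P.e b (P.u l) := abs_nonneg _
  have he2 : 0 ≤ P.e a (P.u y) := abs_nonneg _
  have hx1 : 0 ≤ 2050 * P.e b (P.u l) / t := by positivity
  have hx2 : 0 ≤ 1025 * P.e a (P.u y) / t := by positivity
  have hp1 : 0 ≤ (2050 * P.e b (P.u l) / t) ^ s := Real.rpow_nonneg hx1 s
  have hp2 : 0 ≤ (1025 * P.e a (P.u y) / t) ^ s := Real.rpow_nonneg hx2 s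
  have hf' := ph_nonneg t (P.dx a (insert (P.u l) b)) (P.d y) (P.rx a (insert (P.u l) b) y)
  split_ifs with hpos
  · have hd : 0 ≤ P.d l := P.M_nonneg _ _
    have hdy : 0 ≤ P.d y := P.M_nonneg _ _
    have hdx : 0 ≤ P.dx a (insert (P.u l) b) := by
      have : P.M a (insert (P.u l) b) ≤ P.M (insert (P.u l) b) (insert (P.u l) b) := by
        rw [P.symm]
        exact P.diag _ _
      unfold PF.dx
      linarith
    have hlip := ph_lip ht (b := P.d y) (r := P.r l y)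
      (r' := P.rx a (insert (P.u l) b) y) hd hdx hdy
    have hpert := P3b_pert_swap P a b l y
    have h1 := ph_le_one t (P.d l) (P.d y) (P.r l y)
    have hk := le_abs_self (ph t (P.d l) (P.d y) (P.r l y) -
      ph t (P.dx a (insert (P.u l) b)) (P.d y) (P.rx a (insert (P.u l) b) y))
    have hmul : 1025 / t * (|P.d l - P.dx a (insert (P.u l) b)| +
        |P.r l y - P.rx a (insert (P.u l) b) y|) ≤
        1025 / t * (2 * P.D a + 2 * P.D b + 2 * P.e b (P.u l) + P.e a (P.u y)) :=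
      mul_le_mul_of_nonneg_left hpert (by positivity)
    have hsplit : 1025 / t * (2 * P.D a + 2 * P.D b + 2 * P.e b (P.u l) + P.e a (P.u y)) =
        2050 * P.D a / t + 2050 * P.D b / t + 2050 * P.e b (P.u l) / t +
          1025 * P.e a (P.u y) / t := by
      ring
    have hA : 0 ≤ 2050 * P.D a / t := by positivity
    have hB : 0 ≤ 2050 * P.D b / t := by positivity
    have m1 := P3b_min_le_rpow hx1 hs hs1
    have m2 := P3b_min_le_rpow hx2 hs hs1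
    have m3 := P3b_min_add hA hB hx1 hx2
    have m4 : ph t (P.d l) (P.d y) (P.r l y) -
        ph t (P.dx a (insert (P.u l) b)) (P.d y) (P.rx a (insert (P.u l) b) y) ≤
        min 1 (2050 * P.D a / t + 2050 * P.D b / t + 2050 * P.e b (P.u l) / t +
          1025 * P.e a (P.u y) / t) := by
      refine le_min (by linarith) (by linarith)
    linarith
  · have h0 : ph t (P.d l) (P.d y) (P.r l y) = 0 :=
      le_antisymm (not_lt.1 hpos) (ph_nonneg _ _ _ _)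
    rw [h0]
    linarith

/-- The marks of the new variable in the two configurations. -/
theorem dx_empty (g : Finset ι) : P.dx ∅ g = P.D g := by
  unfold PF.dx PF.D; rw [P.empty]; ring

theorem rx_empty (g : Finset ι) (y : L) : P.rx ∅ g y = P.M g {P.u y} := by
  unfold PF.rx; rw [P.empty]; simp

theorem dx_single (l1 l2 : L) : P.dx {P.u l2} {P.u l1} = P.d l1 - P.r l1 l2 := by
  unfold PF.dx PF.d PF.r; rw [P.symm {P.u l2}]

theorem rx_single (l1 l2 l3 : L) :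
    P.rx {P.u l2} {P.u l1} l3 = P.M {P.u l1} {P.u l2, P.u l3} - P.r l1 l2 := by
  unfold PF.rx PF.r
  rw [P.symm {P.u l2} {P.u l1}, Finset.pair_comm]

end Pool.Agent.Lib.MP_9cae81_PC
end

section

/-! Three literals. -/

open Finset
open scoped BigOperators

namespace Pool.Agent.Lib.MP_9cae81_PC

open Pool.Agent.Lib.MP_9cae81_R

variable {L ι : Type} [Fintype L] [Fintype ι] [DecidableEq ι] (P : PF L ι)

/-- TWO CONFIGURATIONS.  For three literals with marks in `[t, 2t)`: one of `(2,1)`, `(2∧3, 1)`,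
`(x_{1\2}, 3)` deviates by at least `t / 512` (`> t/1024` for the first).
`PCGap.triple_gap` with `W = 2`: `t/192 ≤ |e0| + |e1| + |e2|`.  If `|e0| ≤ t/1024` then one of
`|e1|, |e2|` is `≥ (t/192 - t/1024)/2 ≥ t/512`.  `e1` is for the mark `d l + d l'` of the
conjunction; `P.D {u l, u l'}` differs by `e {u l} (u l')`, `ph_lip`.
`1 = y`, `2 = l`, `3 = l'`.  In `ph` the spectator is the third argument:
`ph t (D{2,3}) (d 1) (M {2,3} {1})`, `ph t (d 1 - r 1 2) (d 3) (M {1} {2,3} - r 1 2)`. -/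
theorem triple {t : ℝ} (ht : 0 < t) (s : ℝ) (hs : 0 < s) (hs1 : s ≤ 1) (l1 l2 l3 : L)
    (h1 : t ≤ P.d l1) (h1' : P.d l1 < 2 * t) (h2 : t ≤ P.d l2) (h2' : P.d l2 < 2 * t)
    (h3 : t ≤ P.d l3) (h3' : P.d l3 < 2 * t) :
    1 ≤ (if 0 < ph t (P.d l2) (P.d l1) (P.r l2 l1) then 1 else 0) +
      (ph t (P.D {P.u l2, P.u l3}) (P.d l1) (P.M {P.u l2, P.u l3} {P.u l1}) +
        (1025 * P.e {P.u l2} (P.u l3) / t) ^ s) +
      ph t (P.d l1 - P.r l1 l2) (P.d l3) (P.M {P.u l1} {P.u l2, P.u l3} - P.r l1 l2) := by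
  have hpar : ∀ a b : ℝ, par a b = PCGap.par a b := fun a b => rfl
  -- names
  have hr0 : 0 ≤ P.r l1 l2 := P.M_nonneg _ _
  have hr1 : P.r l1 l2 ≤ P.d l1 := P.M_le_left _ _
  have hsym : P.r l2 l1 = P.r l1 l2 := P.symm _ _
  have hset : ({P.u l2, P.u l3} : Finset ι) = insert (P.u l3) {P.u l2} := by
    rw [Finset.pair_comm]
  have he : P.e {P.u l2} (P.u l3) =
      |P.D {P.u l2, P.u l3} - (P.d l2 + P.d l3)| := by
    unfold PF.e PF.D PF.d
    rw [hset]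
    congr 1; ring
  have hMs : P.M {P.u l2, P.u l3} {P.u l1} = P.M {P.u l1} {P.u l2, P.u l3} := P.symm _ _
  have hpos1 := ph_nonneg t (P.D {P.u l2, P.u l3}) (P.d l1) (P.M {P.u l2, P.u l3} {P.u l1})
  have hpos2 := ph_nonneg t (P.d l1 - P.r l1 l2) (P.d l3)
    (P.M {P.u l1} {P.u l2, P.u l3} - P.r l1 l2)
  have hz0 : 0 ≤ 1025 * P.e {P.u l2} (P.u l3) / t := by
    have : 0 ≤ P.e {P.u l2} (P.u l3) := abs_nonneg _
    positivity
  have hzs0 : 0 ≤ (1025 * P.e {P.u l2} (P.u l3) / t) ^ s := Real.rpow_nonneg hz0 s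
  have hif : (0 : ℝ) ≤ (if 0 < ph t (P.d l2) (P.d l1) (P.r l2 l1) then 1 else 0) := by
    split_ifs <;> norm_num
  have hgap := PCGap.triple_gap (W := 2) (r := P.r l1 l2) (s := P.M {P.u l1} {P.u l2, P.u l3})
    ht h1 h2 h3 h1'.le h2'.le h3'.le hr1
  rw [← hpar, ← hpar, ← hpar] at hgap
  have hconst : t / (12 * (2 : ℝ) ^ 4) = t / 192 := by norm_num
  rw [hconst] at hgap
  by_cases h0 : t / 1024 < |P.r l1 l2 - par (P.d l1) (P.d l2)|
  · -- the first pair deviates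
    have hp : 0 < ph t (P.d l2) (P.d l1) (P.r l2 l1) := by
      apply ph_pos_of ht h2'.le h1 h1'.le
      rw [hsym, hpar, PCGap.par_comm, ← hpar]
      exact h0
    rw [if_pos hp]
    linarith
  · push Not at h0
    by_cases h4 : t / 512 ≤ |P.M {P.u l1} {P.u l2, P.u l3} - P.r l1 l2 -
        par (P.d l1 - P.r l1 l2) (P.d l3)|
    · have hp := ph_one ht (a := P.d l1 - P.r l1 l2) (b := P.d l3)
        (r := P.M {P.u l1} {P.u l2, P.u l3} - P.r l1 l2) (by linarith) h3 h3'.le h4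
      rw [hp]
      linarith
    · push Not at h4
      have h5 : t / 512 ≤ |P.M {P.u l1} {P.u l2, P.u l3} - par (P.d l1) (P.d l2 + P.d l3)| := by
        linarith
      have hp := ph_one ht (a := P.d l2 + P.d l3) (b := P.d l1)
        (r := P.M {P.u l2, P.u l3} {P.u l1}) (by linarith) h1 h1'.le (by
          rw [hMs, hpar, PCGap.par_comm, ← hpar]; exact h5)
      have hl := ph_lip ht (a := P.d l2 + P.d l3) (a' := P.D {P.u l2, P.u l3}) (b := P.d l1)
        (r := P.M {P.u l2, P.u l3} {P.u l1}) (r' := P.M {P.u l2, P.u l3} {P.u l1})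
        (by linarith) (P.D_nonneg _) (by linarith)
      rw [hp, sub_self, abs_zero, add_zero, abs_sub_comm (P.d l2 + P.d l3), ← he] at hl
      have hl' := (abs_le.1 hl).2
      have e1 : 1025 / t * P.e {P.u l2} (P.u l3) = 1025 * P.e {P.u l2} (P.u l3) / t := by ring
      rw [e1] at hl'
      generalize 1025 * P.e {P.u l2} (P.u l3) / t = z at *
      rcases le_total 1 z with hz | hz
      · have : (1 : ℝ) ≤ z ^ s := Real.one_le_rpow hz hs.le
        linarith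
      · have : z ≤ z ^ s := by
          rcases eq_or_lt_of_le hz0 with h6 | h6
          · rw [← h6, Real.zero_rpow hs.ne']
          · calc z = z ^ (1 : ℝ) := (Real.rpow_one z).symm
              _ ≤ z ^ s := Real.rpow_le_rpow_of_exponent_ge h6 hz hs1
        linarith

end Pool.Agent.Lib.MP_9cae81_PC
end

section

/-! MP_9cae81 PC: the dyadic Hardy step of (Co). -/
namespace MP9cae81PC

open Finset

/-- discrete Hardy inequality, `g 0 = 1`, `g (j+1) = (g j + H j) / 2`, weights `s` growing by a factor at most `2`. -/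
theorem hardy_aux (H g s : ℕ → ℝ) (hs : ∀ j, 0 ≤ s j) (hs2 : ∀ j, s (j + 1) ≤ 2 * s j)
    (hg : ∀ j, g (j + 1) = (g j + H j) / 2) (N : ℕ) :
    ∑ j ∈ range N, s j * g j ^ 2 + 4 * (s N * g N ^ 2) ≤
      4 * (s 0 * g 0 ^ 2) + 6 * ∑ j ∈ range N, s j * H j ^ 2 := by
  induction N with
  | zero => simp
  | succ N ih =>
    rw [sum_range_succ, sum_range_succ]
    have h1 : s (N + 1) * g (N + 1) ^ 2 ≤ 2 * s N * g (N + 1) ^ 2 :=
      mul_le_mul_of_nonneg_right (hs2 N) (sq_nonneg _)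
    have h2 : 4 * g (N + 1) ^ 2 ≤ (3 / 2) * g N ^ 2 + 3 * H N ^ 2 := by
      rw [hg]; nlinarith [sq_nonneg (g N - 2 * H N)]
    have h3 := mul_le_mul_of_nonneg_left h2 (hs N)
    nlinarith

/-- The scale sum: good scales pay for everything. `m = 8`. -/
theorem scale_sum (H h g s : ℕ → ℝ) (δ : ℝ) (hδ : 0 < δ)
    (hH0 : ∀ j, 0 ≤ H j) (hanti : Antitone H)
    (hs : ∀ j, 0 ≤ s j) (hs2 : ∀ j, s (j + 1) ≤ 2 * s j) (hs16 : ∀ j, 16 * s j ≤ s (j + 8))
    (hg0 : g 0 = 1) (hg : ∀ j, g (j + 1) = (g j + H j) / 2)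
    (hh0 : ∀ j, 0 ≤ h j) (hhg : ∀ j, h j ≤ g j) (N : ℕ) :
    ∑ j ∈ range N, s j * H j ^ 2 ≤
      96 * ∑ j ∈ range N, s j * ((H j - H (j + 8)) ^ 3 / (δ + h j))
        + 2 * δ * ∑ j ∈ range N, s j * H j + s 0
        + ∑ j ∈ range 8, s (N + j) * H (N + j) ^ 2 := by
  have hhar := hardy_aux H g s hs hs2 hg N
  have hpt : ∀ j, s j * H j ^ 2 ≤ (1 / 25) * (s j * g j ^ 2) + (1 / 4) * (s (j + 8) * H (j + 8) ^ 2)
      + 48 * (s j * ((H j - H (j + 8)) ^ 3 / (δ + h j))) + δ * (s j * H j) := by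
    intro j
    have hd0 : 0 ≤ H j - H (j + 8) := by linarith [hanti (show j ≤ j + 8 by omega)]
    have t1 : 0 ≤ (1 / 25) * (s j * g j ^ 2) := by have := hs j; positivity
    have t2 : 0 ≤ (1 / 4) * (s (j + 8) * H (j + 8) ^ 2) := by have := hs (j + 8); positivity
    have hden : 0 < δ + h j := by linarith [hh0 j]
    have t3 : 0 ≤ 48 * (s j * ((H j - H (j + 8)) ^ 3 / (δ + h j))) := by
      have := hs j
      have : 0 ≤ (H j - H (j + 8)) ^ 3 := pow_nonneg hd0 3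
      positivity
    have t4 : 0 ≤ δ * (s j * H j) := by have := hs j; have := hH0 j; positivity
    by_cases c1 : 5 * H j < h j
    · have : 5 * H j ≤ g j := c1.le.trans (hhg j)
      have h1 : (5 * H j) ^ 2 ≤ g j ^ 2 := by
        have := hH0 j
        gcongr
      have := mul_le_mul_of_nonneg_left h1 (hs j)
      nlinarith
    by_cases c2 : H j < 2 * H (j + 8)
    · have h1 : H j ^ 2 ≤ (2 * H (j + 8)) ^ 2 := by
        have := hH0 j
        gcongr
      have h2 := mul_le_mul_of_nonneg_left h1 (hs j)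
      have h3 := mul_le_mul_of_nonneg_right (hs16 j) (sq_nonneg (H (j + 8)))
      nlinarith
    by_cases c3 : H j < δ
    · have h1 := mul_le_mul_of_nonneg_right c3.le (mul_nonneg (hs j) (hH0 j))
      nlinarith
    · push Not at c1 c2 c3
      have hHj : 0 < H j := lt_of_lt_of_le hδ c3
      have e1 : H j / 2 ≤ H j - H (j + 8) := by linarith
      have e2 : (H j / 2) ^ 3 ≤ (H j - H (j + 8)) ^ 3 := by gcongr
      have e3 : δ + h j ≤ 6 * H j := by linarith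
      have e4 : H j ^ 2 / 48 ≤ (H j - H (j + 8)) ^ 3 / (δ + h j) := by
        rw [div_le_div_iff₀ (by norm_num) hden]
        calc H j ^ 2 * (δ + h j) ≤ H j ^ 2 * (6 * H j) := by gcongr
          _ = (H j / 2) ^ 3 * 48 := by ring
          _ ≤ (H j - H (j + 8)) ^ 3 * 48 := by gcongr
      have := mul_le_mul_of_nonneg_left e4 (hs j)
      nlinarith
  have hsum := sum_le_sum (fun j (_ : j ∈ range N) => hpt j)
  simp only [sum_add_distrib, ← mul_sum] at hsum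
  -- the shifted sum
  have hshift : ∑ j ∈ range N, s (j + 8) * H (j + 8) ^ 2 ≤
      ∑ j ∈ range N, s j * H j ^ 2 + ∑ j ∈ range 8, s (N + j) * H (N + j) ^ 2 := by
    have e : ∑ j ∈ range (N + 8), s j * H j ^ 2 =
        ∑ j ∈ range N, s j * H j ^ 2 + ∑ j ∈ range 8, s (N + j) * H (N + j) ^ 2 :=
      sum_range_add _ _ _
    rw [← e, add_comm N 8, sum_range_add]
    have : ∀ j, s (j + 8) * H (j + 8) ^ 2 = s (8 + j) * H (8 + j) ^ 2 := fun j => by
      rw [add_comm]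
    rw [sum_congr rfl (fun j _ => this j)]
    have : 0 ≤ ∑ j ∈ range 8, s j * H j ^ 2 := sum_nonneg fun j _ => by
      have := hs j; positivity
    linarith
  have g1 : 4 * (s N * g N ^ 2) ≥ 0 := by have := hs N; positivity
  have g2 : s 0 * g 0 ^ 2 = s 0 := by rw [hg0]; ring
  rw [g2] at hhar
  have g3 := hs 0
  have g4 : 0 ≤ ∑ j ∈ range 8, s (N + j) * H (N + j) ^ 2 := sum_nonneg fun j _ => by
    have := hs (N + j); positivity
  have g5 : 0 ≤ ∑ j ∈ range N, s j * H j ^ 2 := sum_nonneg fun j _ => by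
    have := hs j; positivity
  have g6 : 0 ≤ ∑ j ∈ range N, s j * H j := sum_nonneg fun j _ => mul_nonneg (hs j) (hH0 j)
  have g7 : 0 ≤ ∑ j ∈ range N, s j * ((H j - H (j + 8)) ^ 3 / (δ + h j)) :=
    sum_nonneg fun j _ => mul_nonneg (hs j) (div_nonneg (pow_nonneg (by
      linarith [hanti (show j ≤ j + 8 by omega)]) 3) (by linarith [hh0 j]))
  nlinarith

/-! ### the probabilistic form -/

variable {ι : Type*} [Fintype ι]

/-- scales -/
noncomputable def tsc (τ : ℝ) (j : ℕ) : ℝ := τ * 2 ^ j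

theorem tsc_pos {τ : ℝ} (hτ : 0 < τ) (j : ℕ) : 0 < tsc τ j := by unfold tsc; positivity

theorem tsc_succ (τ : ℝ) (j : ℕ) : tsc τ (j + 1) = 2 * tsc τ j := by unfold tsc; ring

theorem tsc_mono {τ : ℝ} (hτ : 0 < τ) : Monotone (tsc τ) :=
  monotone_nat_of_le_succ fun j => by rw [tsc_succ]; linarith [tsc_pos hτ j]

/-- `P (d ≥ t_j)` -/
noncomputable def Hs (p d : ι → ℝ) (τ : ℝ) (j : ℕ) : ℝ :=
  ∑ i, p i * (if tsc τ j ≤ d i then 1 else 0)

/-- `E min (d, t_j) / t_j` -/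
noncomputable def hs' (p d : ι → ℝ) (τ : ℝ) (j : ℕ) : ℝ :=
  (∑ i, p i * min (d i) (tsc τ j)) / tsc τ j

noncomputable def gs (p d : ι → ℝ) (τ : ℝ) : ℕ → ℝ
  | 0 => 1
  | j + 1 => (gs p d τ j + Hs p d τ j) / 2

theorem hs'_le_gs (p d : ι → ℝ) (hp : ∀ i, 0 ≤ p i) (hp1 : ∑ i, p i = 1)
    {τ : ℝ} (hτ : 0 < τ) (j : ℕ) : hs' p d τ j ≤ gs p d τ j := by
  induction j with
  | zero =>
    unfold hs' gs
    rw [div_le_one (tsc_pos hτ _)]
    calc ∑ i, p i * min (d i) (tsc τ 0) ≤ ∑ i, p i * tsc τ 0 :=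
          sum_le_sum fun i _ => mul_le_mul_of_nonneg_left (min_le_right _ _) (hp i)
      _ = tsc τ 0 := by rw [← sum_mul, hp1, one_mul]
  | succ j ih =>
    have ht := tsc_pos hτ j
    have key : hs' p d τ (j + 1) ≤ (hs' p d τ j + Hs p d τ j) / 2 := by
      unfold hs' Hs
      rw [tsc_succ, div_le_iff₀ (by positivity)]
      have e : ((∑ i, p i * min (d i) (tsc τ j)) / tsc τ j +
          ∑ i, p i * (if tsc τ j ≤ d i then 1 else 0)) / 2 * (2 * tsc τ j) =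
          ∑ i, (p i * min (d i) (tsc τ j) + tsc τ j * (p i * (if tsc τ j ≤ d i then 1 else 0))) := by
        rw [sum_add_distrib, ← mul_sum]; field_simp
      rw [e]
      refine sum_le_sum fun i _ => ?_
      by_cases h : tsc τ j ≤ d i
      · rw [if_pos h, min_eq_right h]
        have : min (d i) (2 * tsc τ j) ≤ 2 * tsc τ j := min_le_right _ _
        nlinarith [mul_le_mul_of_nonneg_left this (hp i)]
      · rw [if_neg h]
        push Not at h
        rw [min_eq_left h.le, min_eq_left (by linarith)]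
        simp
    show _ ≤ (gs p d τ j + Hs p d τ j) / 2
    linarith

theorem Hs_nonneg (p d : ι → ℝ) (hp : ∀ i, 0 ≤ p i) (τ : ℝ) (j : ℕ) : 0 ≤ Hs p d τ j :=
  sum_nonneg fun i _ => mul_nonneg (hp i) (by split_ifs <;> norm_num)

theorem Hs_anti (p d : ι → ℝ) (hp : ∀ i, 0 ≤ p i) {τ : ℝ} (hτ : 0 < τ) :
    Antitone (Hs p d τ) := by
  intro a b hab
  unfold Hs
  refine sum_le_sum fun i _ => mul_le_mul_of_nonneg_left ?_ (hp i)
  by_cases h : tsc τ b ≤ d i
  · rw [if_pos h, if_pos ((tsc_mono hτ hab).trans h)]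
  · rw [if_neg h]; split_ifs <;> norm_num

theorem Hs_markov (p d : ι → ℝ) (hp : ∀ i, 0 ≤ p i) (hd : ∀ i, 0 ≤ d i)
    (hE : ∑ i, p i * d i ≤ 1) {τ : ℝ} (hτ : 0 < τ) (j : ℕ) : Hs p d τ j ≤ 1 / tsc τ j := by
  rw [le_div_iff₀ (tsc_pos hτ j)]
  refine le_trans ?_ hE
  unfold Hs
  rw [sum_mul]
  refine sum_le_sum fun i _ => ?_
  by_cases h : tsc τ j ≤ d i
  · rw [if_pos h, mul_one]; exact mul_le_mul_of_nonneg_left h (hp i)
  · rw [if_neg h]; simp; exact mul_nonneg (hp i) (hd i)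

theorem Hs_sub (p d : ι → ℝ) {τ : ℝ} (hτ : 0 < τ) (j : ℕ) :
    Hs p d τ j - Hs p d τ (j + 8) =
      ∑ i, p i * (if tsc τ j ≤ d i ∧ d i < tsc τ (j + 8) then 1 else 0) := by
  unfold Hs
  rw [← sum_sub_distrib]
  refine sum_congr rfl fun i _ => ?_
  have hm := tsc_mono hτ (show j ≤ j + 8 by omega)
  by_cases h : tsc τ j ≤ d i <;> by_cases h' : tsc τ (j + 8) ≤ d i
  · simp [h, h', not_lt.2 h']
  · simp [h, h', not_le.1 h']
  · exact absurd (hm.trans h') h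
  · simp [h, h']

/-- pointwise layer cake from above -/
theorem layer_le {θ : ℝ} (hθ0 : 0 ≤ θ) (hθ1 : θ ≤ 1) {τ x : ℝ} (hτ : 0 < τ) (hx : 0 ≤ x)
    (N : ℕ) (hN : x < tsc τ N) :
    x ^ θ ≤ τ ^ θ + 2 * ∑ j ∈ range N, (tsc τ j) ^ θ * (if tsc τ j ≤ x then 1 else 0) := by
  induction N with
  | zero =>
    have : x ≤ τ := by simpa [tsc] using hN.le
    simpa using Real.rpow_le_rpow hx this hθ0
  | succ N ih =>
    rw [sum_range_succ, mul_add]
    have hnn : 0 ≤ (tsc τ N) ^ θ * (if tsc τ N ≤ x then 1 else 0) := by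
      have := Real.rpow_nonneg (tsc_pos hτ N).le θ
      split_ifs <;> simp [this]
    by_cases h : x < tsc τ N
    · have := ih h; linarith
    · push Not at h
      rw [if_pos h]
      have h1 : x ^ θ ≤ (2 * tsc τ N) ^ θ :=
        Real.rpow_le_rpow hx (by rw [← tsc_succ]; exact hN.le) hθ0
      have h2 : (2 * tsc τ N) ^ θ = 2 ^ θ * (tsc τ N) ^ θ :=
        Real.mul_rpow (by norm_num) (tsc_pos hτ N).le
      have h3 : (2 : ℝ) ^ θ ≤ 2 := by
        calc (2 : ℝ) ^ θ ≤ 2 ^ (1 : ℝ) := Real.rpow_le_rpow_of_exponent_le (by norm_num) hθ1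
          _ = 2 := Real.rpow_one 2
      have h4 := mul_le_mul_of_nonneg_right h3 (Real.rpow_nonneg (tsc_pos hτ N).le θ)
      have h5 : 0 ≤ τ ^ θ := Real.rpow_nonneg hτ.le θ
      have h6 : 0 ≤ ∑ j ∈ range N, (tsc τ j) ^ θ * (if tsc τ j ≤ x then (1:ℝ) else 0) :=
        sum_nonneg fun j _ => by
          have := Real.rpow_nonneg (tsc_pos hτ j).le θ
          split_ifs <;> simp [this]
      linarith

theorem layer_le' {θ : ℝ} (hθ0 : 0 ≤ θ) (hθ1 : θ ≤ 1) {τ x : ℝ} (hτ : 0 < τ) (hx : 0 ≤ x)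
    (N : ℕ) :
    x ^ θ ≤ τ ^ θ + 2 * ∑ j ∈ range N, (tsc τ j) ^ θ * (if tsc τ j ≤ x then 1 else 0)
      + (tsc τ N) ^ (θ - 2) * x ^ 2 := by
  by_cases h : x < tsc τ N
  · have := layer_le hθ0 hθ1 hτ hx N h
    have h1 : 0 ≤ (tsc τ N) ^ (θ - 2) * x ^ 2 :=
      mul_nonneg (Real.rpow_nonneg (tsc_pos hτ N).le _) (sq_nonneg _)
    linarith
  · push Not at h
    have hx0 : 0 < x := lt_of_lt_of_le (tsc_pos hτ N) h
    have e : x ^ θ = x ^ (θ - 2) * x ^ 2 := by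
      rw [← Real.rpow_natCast x 2, ← Real.rpow_add hx0]; congr 1; push_cast; ring
    have h1 : x ^ (θ - 2) ≤ (tsc τ N) ^ (θ - 2) :=
      Real.rpow_le_rpow_of_nonpos (tsc_pos hτ N) h (by linarith)
    have h2 := mul_le_mul_of_nonneg_right h1 (sq_nonneg x)
    have h5 : 0 ≤ τ ^ θ := Real.rpow_nonneg hτ.le θ
    have h6 : 0 ≤ ∑ j ∈ range N, (tsc τ j) ^ θ * (if tsc τ j ≤ x then (1:ℝ) else 0) :=
      sum_nonneg fun j _ => by
        have := Real.rpow_nonneg (tsc_pos hτ j).le θ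
        split_ifs <;> simp [this]
    rw [e]; linarith

theorem two_rpow_ge {θ : ℝ} (hθ : 1 / 2 ≤ θ) : (7 / 5 : ℝ) ≤ 2 ^ θ := by
  have h1 : (2 : ℝ) ^ (1 / 2 : ℝ) ≤ 2 ^ θ := Real.rpow_le_rpow_of_exponent_le (by norm_num) hθ
  have h2 : (7 / 5 : ℝ) ≤ 2 ^ (1 / 2 : ℝ) := by
    rw [← Real.sqrt_eq_rpow]
    exact Real.le_sqrt_of_sq_le (by norm_num)
  linarith

theorem tsc_rpow_succ {τ θ : ℝ} (hτ : 0 < τ) (j : ℕ) :
    (tsc τ (j + 1)) ^ θ = 2 ^ θ * (tsc τ j) ^ θ := by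
  rw [tsc_succ, Real.mul_rpow (by norm_num) (tsc_pos hτ j).le]

/-- `∑_{j < N} t_j ^ θ ≤ (5/2) t_N ^ θ` -/
theorem geom_le {θ : ℝ} (hθ : 1 / 2 ≤ θ) {τ : ℝ} (hτ : 0 < τ) (N : ℕ) :
    ∑ j ∈ range N, (tsc τ j) ^ θ ≤ (5 / 2) * (tsc τ N) ^ θ := by
  induction N with
  | zero => simp; have := Real.rpow_nonneg (tsc_pos hτ 0).le θ; linarith
  | succ N ih =>
    rw [sum_range_succ, tsc_rpow_succ hτ]
    have h0 := Real.rpow_nonneg (tsc_pos hτ N).le θ
    have := mul_le_mul_of_nonneg_right (two_rpow_ge hθ) h0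
    linarith

/-- pointwise layer cake from below -/
theorem layer_ge {θ : ℝ} (hθ : 1 / 2 ≤ θ) {τ x : ℝ} (hτ : 0 < τ) (hx : 0 ≤ x) (N : ℕ) :
    ∑ j ∈ range N, (tsc τ j) ^ θ * (if tsc τ j ≤ x then 1 else 0) ≤ 4 * x ^ θ := by
  induction N with
  | zero => simp; exact Real.rpow_nonneg hx θ
  | succ N ih =>
    by_cases h : tsc τ N ≤ x
    · have h1 : (tsc τ N) ^ θ ≤ x ^ θ := Real.rpow_le_rpow (tsc_pos hτ N).le h (by linarith)
      have h2 : ∑ j ∈ range (N + 1), (tsc τ j) ^ θ * (if tsc τ j ≤ x then (1:ℝ) else 0) ≤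
          ∑ j ∈ range (N + 1), (tsc τ j) ^ θ := sum_le_sum fun j _ => by
        have := Real.rpow_nonneg (tsc_pos hτ j).le θ
        split_ifs <;> simp [this]
      rw [sum_range_succ (fun j => (tsc τ j) ^ θ)] at h2
      have := geom_le hθ hτ N
      have h0 := Real.rpow_nonneg hx θ
      linarith
    · rw [sum_range_succ, if_neg h]; simpa using ih

/-- **Hardy step of (Co)**, for one finite probability space of marks. -/
theorem hardy_Co (p d : ι → ℝ) (hp : ∀ i, 0 ≤ p i) (hp1 : ∑ i, p i = 1) (hd : ∀ i, 0 ≤ d i)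
    (hE : ∑ i, p i * d i ≤ 1) {θ δ τ : ℝ} (hθ : 1 / 2 ≤ θ) (hθ1 : θ ≤ 1) (hδ : 0 < δ)
    (hτ : 0 < τ) (N : ℕ) :
    ∑ i, ∑ i', p i * p i' * (min (d i) (d i')) ^ θ ≤
      192 * ∑ j ∈ range N, (tsc τ j) ^ θ *
          ((∑ i, p i * (if tsc τ j ≤ d i ∧ d i < tsc τ (j + 8) then 1 else 0)) ^ 3
            / (δ + hs' p d τ j))
        + 16 * δ * ∑ i, p i * (d i) ^ θ + 3 * τ ^ θ + 17 * (tsc τ N) ^ (θ - 2) := by
  have hθ0 : 0 ≤ θ := by linarith
  set H := Hs p d τ with hH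
  set s : ℕ → ℝ := fun j => (tsc τ j) ^ θ with hsdef
  have hs0 : ∀ j, 0 ≤ s j := fun j => Real.rpow_nonneg (tsc_pos hτ j).le θ
  have h2θ : (2 : ℝ) ^ θ ≤ 2 := by
    calc (2 : ℝ) ^ θ ≤ 2 ^ (1 : ℝ) := Real.rpow_le_rpow_of_exponent_le (by norm_num) hθ1
      _ = 2 := Real.rpow_one 2
  have hs2 : ∀ j, s (j + 1) ≤ 2 * s j := fun j => by
    show (tsc τ (j + 1)) ^ θ ≤ 2 * (tsc τ j) ^ θ
    rw [tsc_rpow_succ hτ]
    exact mul_le_mul_of_nonneg_right h2θ (hs0 j)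
  have hs16 : ∀ j, 16 * s j ≤ s (j + 8) := fun j => by
    show 16 * (tsc τ j) ^ θ ≤ (tsc τ (j + 8)) ^ θ
    have e : tsc τ (j + 8) = 256 * tsc τ j := by unfold tsc; ring
    rw [e, Real.mul_rpow (by norm_num) (tsc_pos hτ j).le]
    refine mul_le_mul_of_nonneg_right ?_ (hs0 j)
    calc (16 : ℝ) = 256 ^ (1 / 2 : ℝ) := by
          rw [← Real.sqrt_eq_rpow, show (256 : ℝ) = 16 ^ 2 by norm_num,
            Real.sqrt_sq (by norm_num)]
      _ ≤ 256 ^ θ := Real.rpow_le_rpow_of_exponent_le (by norm_num) hθ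
  have hh0 : ∀ j, 0 ≤ hs' p d τ j := fun j =>
    div_nonneg (sum_nonneg fun i _ => mul_nonneg (hp i) (le_min (hd i) (tsc_pos hτ j).le))
      (tsc_pos hτ j).le
  have main := scale_sum H (hs' p d τ) (gs p d τ) s δ hδ (Hs_nonneg p d hp τ)
    (Hs_anti p d hp hτ) hs0 hs2 hs16 rfl (fun j => rfl) hh0 (hs'_le_gs p d hp hp1 hτ) N
  -- top scales
  have htop : ∑ j ∈ range 8, s (N + j) * H (N + j) ^ 2 ≤ 8 * (tsc τ N) ^ (θ - 2) := by
    have : ∀ j ∈ range 8, s (N + j) * H (N + j) ^ 2 ≤ (tsc τ N) ^ (θ - 2) := by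
      intro j _
      have ht := tsc_pos hτ (N + j)
      have h1 : H (N + j) ^ 2 ≤ (1 / tsc τ (N + j)) ^ 2 := by
        have := Hs_nonneg p d hp τ (N + j)
        have := Hs_markov p d hp hd hE hτ (N + j)
        gcongr
      have h2 : s (N + j) * (1 / tsc τ (N + j)) ^ 2 = (tsc τ (N + j)) ^ (θ - 2) := by
        show (tsc τ (N + j)) ^ θ * _ = _
        rw [Real.rpow_sub ht, Real.rpow_two]; field_simp
      have h3 : (tsc τ (N + j)) ^ (θ - 2) ≤ (tsc τ N) ^ (θ - 2) :=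
        Real.rpow_le_rpow_of_nonpos (tsc_pos hτ N) (tsc_mono hτ (by omega)) (by linarith)
      calc s (N + j) * H (N + j) ^ 2 ≤ s (N + j) * (1 / tsc τ (N + j)) ^ 2 :=
            mul_le_mul_of_nonneg_left h1 (hs0 _)
        _ ≤ _ := by rw [h2]; exact h3
    calc _ ≤ ∑ j ∈ range 8, (tsc τ N) ^ (θ - 2) := sum_le_sum this
      _ = _ := by simp
  -- k from above
  have hk : ∑ i, ∑ i', p i * p i' * (min (d i) (d i')) ^ θ ≤
      τ ^ θ + 2 * ∑ j ∈ range N, s j * H j ^ 2 + (tsc τ N) ^ (θ - 2) := by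
    have h1 : ∀ i i', p i * p i' * (min (d i) (d i')) ^ θ ≤
        p i * p i' * (τ ^ θ) + 2 * ∑ j ∈ range N, s j *
          ((p i * (if tsc τ j ≤ d i then 1 else 0)) * (p i' * (if tsc τ j ≤ d i' then 1 else 0)))
        + (tsc τ N) ^ (θ - 2) * ((p i * d i) * (p i' * d i')) := by
      intro i i'
      have hm : 0 ≤ min (d i) (d i') := le_min (hd i) (hd i')
      have hl := layer_le' hθ0 hθ1 hτ hm N
      have hsq : (min (d i) (d i')) ^ 2 ≤ d i * d i' := by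
        rw [sq]; exact mul_le_mul (min_le_left _ _) (min_le_right _ _) hm (hd i)
      have hcoef : 0 ≤ (tsc τ N) ^ (θ - 2) := Real.rpow_nonneg (tsc_pos hτ N).le _
      have hpp : 0 ≤ p i * p i' := mul_nonneg (hp i) (hp i')
      have h2 := mul_le_mul_of_nonneg_left (hl.trans (add_le_add_right
        (mul_le_mul_of_nonneg_left hsq hcoef) _)) hpp
      refine h2.trans (le_of_eq ?_)
      have e : ∑ j ∈ range N, s j *
          ((p i * (if tsc τ j ≤ d i then 1 else 0)) * (p i' * (if tsc τ j ≤ d i' then 1 else 0)))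
          = p i * p i' * ∑ j ∈ range N, (tsc τ j) ^ θ *
            (if tsc τ j ≤ min (d i) (d i') then 1 else 0) := by
        rw [mul_sum]
        refine sum_congr rfl fun j _ => ?_
        by_cases a1 : tsc τ j ≤ d i <;> by_cases a2 : tsc τ j ≤ d i' <;>
          (simp [a1, a2, hsdef]; try ring)
      rw [e]; ring
    have h3 := sum_le_sum fun i (_ : i ∈ (univ : Finset ι)) =>
      sum_le_sum fun i' (_ : i' ∈ (univ : Finset ι)) => h1 i i'
    refine h3.trans ?_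
    have e1 : ∑ i, ∑ i', (p i * p i' * (τ ^ θ) + 2 * ∑ j ∈ range N, s j *
          ((p i * (if tsc τ j ≤ d i then 1 else 0)) * (p i' * (if tsc τ j ≤ d i' then 1 else 0)))
        + (tsc τ N) ^ (θ - 2) * ((p i * d i) * (p i' * d i'))) =
        (∑ i, p i) * (∑ i', p i') * τ ^ θ + 2 * ∑ j ∈ range N, s j * H j ^ 2
          + (tsc τ N) ^ (θ - 2) * ((∑ i, p i * d i) * (∑ i', p i' * d i')) := by
      simp only [sum_add_distrib, ← mul_sum]
      congr 1
      · congr 1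
        · rw [sum_mul_sum, sum_mul]
          refine sum_congr rfl fun i _ => ?_
          rw [sum_mul]
        · congr 1
          have : ∀ i, ∑ i', ∑ j ∈ range N, s j *
            ((p i * (if tsc τ j ≤ d i then (1:ℝ) else 0)) *
              (p i' * (if tsc τ j ≤ d i' then 1 else 0))) =
            ∑ j ∈ range N, s j * ((p i * (if tsc τ j ≤ d i then 1 else 0)) * H j) := by
            intro i
            rw [sum_comm]
            refine sum_congr rfl fun j _ => ?_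
            rw [← mul_sum, ← mul_sum]; rfl
          rw [sum_congr rfl fun i _ => this i, sum_comm]
          refine sum_congr rfl fun j _ => ?_
          rw [← mul_sum, ← sum_mul, sq]; rfl
      · rw [sum_mul]
    rw [e1, hp1]
    have hE0 : 0 ≤ ∑ i, p i * d i := sum_nonneg fun i _ => mul_nonneg (hp i) (hd i)
    have hcoef : 0 ≤ (tsc τ N) ^ (θ - 2) := Real.rpow_nonneg (tsc_pos hτ N).le _
    have : (∑ i, p i * d i) * (∑ i', p i' * d i') ≤ 1 := by nlinarith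
    nlinarith [mul_le_mul_of_nonneg_left this hcoef]
  -- the δ term
  have hδs : ∑ j ∈ range N, s j * H j ≤ 4 * ∑ i, p i * (d i) ^ θ := by
    have e : ∑ j ∈ range N, s j * H j =
        ∑ i, p i * ∑ j ∈ range N, (tsc τ j) ^ θ * (if tsc τ j ≤ d i then 1 else 0) := by
      simp only [hH, Hs, mul_sum]
      rw [sum_comm]
      refine sum_congr rfl fun i _ => sum_congr rfl fun j _ => ?_
      simp only [hsdef]; ring
    rw [e, mul_sum]
    refine sum_le_sum fun i _ => ?_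
    have := mul_le_mul_of_nonneg_left (layer_ge hθ hτ (hd i) N) (hp i)
    linarith
  have hrew : ∀ j, H j - H (j + 8) =
      ∑ i, p i * (if tsc τ j ≤ d i ∧ d i < tsc τ (j + 8) then 1 else 0) := fun j => Hs_sub p d hτ j
  simp only [hrew] at main
  have hs00 : s 0 = τ ^ θ := by simp [hsdef, tsc]
  have hδ4 := mul_le_mul_of_nonneg_left hδs hδ.le
  rw [hs00] at main
  nlinarith


/-! ### Version with single dyadic blocks and abstract production terms `P`, `E` -/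

/-- `∑ w H² ≤ 42 ∑ w Δ² + 6 w_N H_N²`. -/
theorem block_aux (H w : ℕ → ℝ) (hw : ∀ j, 0 ≤ w j) (hw1 : ∀ j, (7 / 5) * w j ≤ w (j + 1)) (N : ℕ) :
    ∑ j ∈ range N, w j * H j ^ 2 ≤
      42 * ∑ j ∈ range N, w j * (H j - H (j + 1)) ^ 2 + 6 * (w N * H N ^ 2) := by
  have h1 : ∀ j, w j * H j ^ 2 ≤ (6 / 7) * (w (j + 1) * H (j + 1) ^ 2)
      + 6 * (w j * (H j - H (j + 1)) ^ 2) := by
    intro j
    have e : H j ^ 2 ≤ (6 / 5) * H (j + 1) ^ 2 + 6 * (H j - H (j + 1)) ^ 2 := by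
      nlinarith [sq_nonneg (H (j + 1) - 5 * (H j - H (j + 1)))]
    have e1 := mul_le_mul_of_nonneg_left e (hw j)
    have e2 := mul_le_mul_of_nonneg_right (hw1 j) (sq_nonneg (H (j + 1)))
    nlinarith
  have h2 := sum_le_sum fun j (_ : j ∈ range N) => h1 j
  rw [sum_add_distrib, ← mul_sum, ← mul_sum] at h2
  have h3 : ∑ j ∈ range N, w (j + 1) * H (j + 1) ^ 2 ≤
      ∑ j ∈ range N, w j * H j ^ 2 + w N * H N ^ 2 := by
    rw [← sum_range_succ (fun j => w j * H j ^ 2), sum_range_succ' (fun j => w j * H j ^ 2)]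
    have : 0 ≤ w 0 * H 0 ^ 2 := mul_nonneg (hw 0) (sq_nonneg _)
    linarith
  linarith

/-- **Hardy step**, sequence form. -/
theorem hardy_seq (H h P E w : ℕ → ℝ) (c C δ : ℝ) (hc : 0 < c) (hC : 0 ≤ C) (hδ : 0 < δ) (N : ℕ)
    (hw : ∀ j, 0 ≤ w j) (hw1 : ∀ j, (7 / 5) * w j ≤ w (j + 1)) (hw2 : ∀ j, w (j + 1) ≤ 2 * w j)
    (hH0 : ∀ j, 0 ≤ H j) (hanti : Antitone H) (hHh : ∀ j, H j ≤ h j)
    (hh : ∀ j, h (j + 1) ≤ (h j + H j) / 2) (hh0 : h 0 ≤ 1)
    (hP : ∀ j < N, 0 ≤ P j) (hE : ∀ j < N, 0 ≤ E j)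
    (hprod : ∀ j < N, c * (H j - H (j + 1)) ^ 3 ≤ (2 * δ + C * h j) * P j + E j) :
    ∑ j ∈ range N, w j * H j ^ 2 ≤
      72 * ((2 + 25 * C) / c) * ∑ j ∈ range N, w j * P j + 72 * δ * ∑ j ∈ range N, w j * H j
        + 72 / (c * δ) * ∑ j ∈ range N, w j * E j + w 0 + 11 * (w N * H N ^ 2) := by
  -- the recursive majorant of `h`
  let g : ℕ → ℝ := fun j => Nat.rec 1 (fun i x => (x + H i) / 2) j
  have hg : ∀ j, g (j + 1) = (g j + H j) / 2 := fun j => rfl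
  have hhg : ∀ j, h j ≤ g j := by
    intro j
    induction j with
    | zero => exact hh0
    | succ j ih => rw [hg]; linarith [hh j]
  have hh00 : ∀ j, 0 ≤ h j := fun j => (hH0 j).trans (hHh j)
  have h1 := hardy_aux H g w hw hw2 hg N
  have hg0 : g 0 = 1 := rfl
  rw [hg0] at h1
  have hgN : 0 ≤ w N * g N ^ 2 := mul_nonneg (hw N) (sq_nonneg _)
  have h2 := block_aux H w hw hw1 N
  have h3 : ∀ j ∈ range N, w j * (H j - H (j + 1)) ^ 2 ≤ (1 / 625) * (w j * g j ^ 2)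
      + δ * (w j * H j) + ((2 + 25 * C) / c) * (w j * P j) + 1 / (c * δ) * (w j * E j) := by
    intro j hj
    have hjN := mem_range.1 hj
    set Δ := H j - H (j + 1) with hΔ
    have hΔ0 : 0 ≤ Δ := by rw [hΔ]; linarith [hanti (Nat.le_succ j)]
    have hΔH : Δ ≤ H j := by rw [hΔ]; linarith [hH0 (j + 1)]
    have t1 : 0 ≤ (1 / 625) * (w j * g j ^ 2) := by have := hw j; positivity
    have t2 : 0 ≤ δ * (w j * H j) := mul_nonneg hδ.le (mul_nonneg (hw j) (hH0 j))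
    have t3 : 0 ≤ ((2 + 25 * C) / c) * (w j * P j) :=
      mul_nonneg (by positivity) (mul_nonneg (hw j) (hP j hjN))
    have t4 : 0 ≤ 1 / (c * δ) * (w j * E j) :=
      mul_nonneg (by positivity) (mul_nonneg (hw j) (hE j hjN))
    by_cases c1 : Δ < h j / 25
    · have : Δ ≤ g j / 25 := by linarith [hhg j]
      have e1 : Δ ^ 2 ≤ (g j / 25) ^ 2 := by gcongr
      have := mul_le_mul_of_nonneg_left e1 (hw j)
      nlinarith
    by_cases c2 : Δ < δ
    · have e1 : Δ * Δ ≤ δ * H j := mul_le_mul c2.le hΔH hΔ0 hδ.le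
      have := mul_le_mul_of_nonneg_left e1 (hw j)
      nlinarith
    push Not at c1 c2
    have hΔp : 0 < Δ := lt_of_lt_of_le hδ c2
    have e1 : (2 * δ + C * h j) * P j ≤ ((2 + 25 * C) * Δ) * P j := by
      refine mul_le_mul_of_nonneg_right ?_ (hP j hjN)
      nlinarith [mul_le_mul_of_nonneg_left c1 hC]
    have e2 := hprod j hjN
    have e3 : c * Δ ^ 2 ≤ (2 + 25 * C) * P j + E j / δ := by
      have e4 : E j ≤ (E j / δ) * Δ := by
        rw [div_mul_eq_mul_div, le_div_iff₀ hδ]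
        exact mul_le_mul_of_nonneg_left c2 (hE j hjN)
      have e5 : (c * Δ ^ 2) * Δ ≤ ((2 + 25 * C) * P j + E j / δ) * Δ := by nlinarith
      exact le_of_mul_le_mul_right e5 hΔp
    have e6 : Δ ^ 2 ≤ ((2 + 25 * C) / c) * P j + 1 / (c * δ) * E j := by
      have : ((2 + 25 * C) / c) * P j + 1 / (c * δ) * E j = ((2 + 25 * C) * P j + E j / δ) / c := by
        field_simp
      rw [this, le_div_iff₀ hc]; linarith
    have := mul_le_mul_of_nonneg_left e6 (hw j)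
    nlinarith
  have h4 := sum_le_sum h3
  simp only [sum_add_distrib, ← mul_sum] at h4
  have s1 : 0 ≤ ∑ j ∈ range N, w j * H j := sum_nonneg fun j _ => mul_nonneg (hw j) (hH0 j)
  have s2 : 0 ≤ ∑ j ∈ range N, w j * P j :=
    sum_nonneg fun j hj => mul_nonneg (hw j) (hP j (mem_range.1 hj))
  have s3 : 0 ≤ ∑ j ∈ range N, w j * E j :=
    sum_nonneg fun j hj => mul_nonneg (hw j) (hE j (mem_range.1 hj))
  have s4 : 0 ≤ w N * H N ^ 2 := mul_nonneg (hw N) (sq_nonneg _)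
  have s5 := hw 0
  have k1 : 0 ≤ δ * ∑ j ∈ range N, w j * H j := mul_nonneg hδ.le s1
  have k2 : 0 ≤ ((2 + 25 * C) / c) * ∑ j ∈ range N, w j * P j := mul_nonneg (by positivity) s2
  have k3 : 0 ≤ 1 / (c * δ) * ∑ j ∈ range N, w j * E j := mul_nonneg (by positivity) s3
  have k4 : 72 / (c * δ) * ∑ j ∈ range N, w j * E j =
      72 * (1 / (c * δ) * ∑ j ∈ range N, w j * E j) := by ring
  have k5 : 72 * ((2 + 25 * C) / c) * ∑ j ∈ range N, w j * P j =
      72 * (((2 + 25 * C) / c) * ∑ j ∈ range N, w j * P j) := by ring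
  have k6 : 72 * δ * ∑ j ∈ range N, w j * H j = 72 * (δ * ∑ j ∈ range N, w j * H j) := by ring
  rw [k4, k5, k6]
  linarith

/-- **Hardy step**, in helper35's `ℤ`-indexed form. -/
theorem hardy_int (H h P E : ℤ → ℝ) (c C δ θ : ℝ) (hc : 0 < c) (hC : 0 ≤ C) (hδ : 0 < δ)
    (hθ : 1 / 2 ≤ θ) (hθ1 : θ ≤ 1) (J : ℕ)
    (hH0 : ∀ j, 0 ≤ H j) (hanti : Antitone H) (hHJ : H (J + 1) ≤ (2 : ℝ) ^ (-(J : ℝ) - 1))
    (hHh : ∀ j, H j ≤ h j)
    (hh : ∀ j, h (j + 1) ≤ (h j + H j) / 2) (hh0 : h (-J) ≤ 1)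
    (hP : ∀ j ∈ Icc (-(J : ℤ)) J, 0 ≤ P j) (hE : ∀ j ∈ Icc (-(J : ℤ)) J, 0 ≤ E j)
    (hprod : ∀ j ∈ Icc (-(J : ℤ)) J,
      c * (H j - H (j + 1)) ^ 3 ≤ (2 * δ + C * h j) * P j + E j) :
    ∑ j ∈ Icc (-(J : ℤ)) J, (2 : ℝ) ^ (θ * j) * H j ^ 2 ≤
      72 * ((2 + 25 * C) / c) * ∑ j ∈ Icc (-(J : ℤ)) J, (2 : ℝ) ^ (θ * j) * P j
        + 72 * δ * ∑ j ∈ Icc (-(J : ℤ)) J, (2 : ℝ) ^ (θ * j) * H j
        + 72 / (c * δ) * ∑ j ∈ Icc (-(J : ℤ)) J, (2 : ℝ) ^ (θ * j) * E j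
        + 12 * (2 : ℝ) ^ (-(θ * J)) := by
  have hre : ∀ f : ℤ → ℝ, ∑ j ∈ Icc (-(J : ℤ)) J, f j =
      ∑ i ∈ range (2 * J + 1), f ((i : ℤ) - J) := by
    intro f
    symm
    refine sum_bij' (fun i _ => (i : ℤ) - J) (fun j _ => (j + J).toNat) ?_ ?_ ?_ ?_ ?_
    · intro i hi; simp only [mem_range] at hi; simp only [mem_Icc]; omega
    · intro j hj; simp only [mem_Icc] at hj; simp only [mem_range]; omega
    · intro i hi; simp
    · intro j hj; simp only [mem_Icc] at hj; omega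
    · intro i hi; rfl
  have h2 : ∀ i : ℕ, (2 : ℝ) ^ (θ * (((i + 1 : ℕ) : ℤ) - (J : ℤ) : ℤ)) =
      (2 : ℝ) ^ θ * (2 : ℝ) ^ (θ * ((i : ℤ) - (J : ℤ) : ℤ)) := by
    intro i
    rw [← Real.rpow_add (by norm_num)]
    congr 1; push_cast; ring
  have h2θ : (2 : ℝ) ^ θ ≤ 2 := by
    calc (2 : ℝ) ^ θ ≤ 2 ^ (1 : ℝ) := Real.rpow_le_rpow_of_exponent_le (by norm_num) hθ1
      _ = 2 := Real.rpow_one 2
  have main := hardy_seq (fun i => H ((i : ℤ) - J)) (fun i => h ((i : ℤ) - J))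
    (fun i => P ((i : ℤ) - J)) (fun i => E ((i : ℤ) - J))
    (fun i => (2 : ℝ) ^ (θ * ((i : ℤ) - (J : ℤ) : ℤ))) c C δ hc hC hδ (2 * J + 1)
    (fun j => by positivity)
    (fun j => by
      show 7 / 5 * (2 : ℝ) ^ (θ * ((j : ℤ) - (J : ℤ) : ℤ)) ≤ (2 : ℝ) ^ (θ * (((j + 1 : ℕ) : ℤ) - (J : ℤ) : ℤ))
      rw [h2]
      exact mul_le_mul_of_nonneg_right (two_rpow_ge hθ) (by positivity))
    (fun j => by
      show (2 : ℝ) ^ (θ * (((j + 1 : ℕ) : ℤ) - (J : ℤ) : ℤ)) ≤ 2 * (2 : ℝ) ^ (θ * ((j : ℤ) - (J : ℤ) : ℤ))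
      rw [h2]
      exact mul_le_mul_of_nonneg_right h2θ (by positivity))
    (fun j => hH0 _) (fun a b hab => hanti (by omega)) (fun j => hHh _)
    (fun j => by
      have := hh ((j : ℤ) - J)
      show h (((j + 1 : ℕ) : ℤ) - J) ≤ _
      rw [show (((j + 1 : ℕ) : ℤ) - (J : ℤ)) = (j : ℤ) - J + 1 by push_cast; ring]
      exact this)
    (by
      show h (((0 : ℕ) : ℤ) - J) ≤ 1
      rw [show (((0 : ℕ) : ℤ) - (J : ℤ)) = -J by push_cast; ring]
      exact hh0)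
    (fun j hj => hP _ (by rw [mem_Icc]; constructor <;> omega))
    (fun j hj => hE _ (by rw [mem_Icc]; constructor <;> omega))
    (fun j hj => by
      have := hprod ((j : ℤ) - J) (by rw [mem_Icc]; constructor <;> omega)
      show c * (H ((j : ℤ) - J) - H (((j + 1 : ℕ) : ℤ) - J)) ^ 3 ≤ _
      rw [show (((j + 1 : ℕ) : ℤ) - (J : ℤ)) = (j : ℤ) - J + 1 by push_cast; ring]
      exact this)
  rw [hre, hre, hre, hre]
  refine main.trans ?_
  have e0 : (2 : ℝ) ^ (θ * (((0 : ℕ) : ℤ) - (J : ℤ) : ℤ)) = (2 : ℝ) ^ (-(θ * J)) := by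
    congr 1; push_cast; ring
  have eN : (2 : ℝ) ^ (θ * (((2 * J + 1 : ℕ) : ℤ) - (J : ℤ) : ℤ)) * H (((2 * J + 1 : ℕ) : ℤ) - J) ^ 2
      ≤ (2 : ℝ) ^ (-(θ * J)) := by
    rw [show (((2 * J + 1 : ℕ) : ℤ) - (J : ℤ)) = (J : ℤ) + 1 by push_cast; ring]
    have q1 : H ((J : ℤ) + 1) ^ 2 ≤ ((2 : ℝ) ^ (-(J : ℝ) - 1)) ^ 2 := by
      have := hH0 ((J : ℤ) + 1)
      gcongr
    have q2 : (2 : ℝ) ^ (θ * ((J : ℤ) + 1 : ℤ)) * ((2 : ℝ) ^ (-(J : ℝ) - 1)) ^ 2 ≤
        (2 : ℝ) ^ (-(θ * J)) := by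
      rw [← Real.rpow_natCast ((2 : ℝ) ^ (-(J : ℝ) - 1)) 2, ← Real.rpow_mul (by norm_num),
        ← Real.rpow_add (by norm_num)]
      refine Real.rpow_le_rpow_of_exponent_le (by norm_num) ?_
      push_cast
      have hJ : (0 : ℝ) ≤ J := Nat.cast_nonneg J
      nlinarith [mul_nonneg hJ (sub_nonneg.2 hθ1)]
    exact (mul_le_mul_of_nonneg_left q1 (by positivity)).trans q2
  rw [e0]
  linarith

theorem hs'_succ_le (p d : ι → ℝ) (hp : ∀ i, 0 ≤ p i)
    {τ : ℝ} (hτ : 0 < τ) (j : ℕ) : hs' p d τ (j + 1) ≤ (hs' p d τ j + Hs p d τ j) / 2 := by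
  have ht := tsc_pos hτ j
  unfold hs' Hs
  rw [tsc_succ, div_le_iff₀ (by positivity)]
  have e : ((∑ i, p i * min (d i) (tsc τ j)) / tsc τ j +
      ∑ i, p i * (if tsc τ j ≤ d i then 1 else 0)) / 2 * (2 * tsc τ j) =
      ∑ i, (p i * min (d i) (tsc τ j) + tsc τ j * (p i * (if tsc τ j ≤ d i then 1 else 0))) := by
    rw [sum_add_distrib, ← mul_sum]; field_simp
  rw [e]
  refine sum_le_sum fun i _ => ?_
  by_cases h : tsc τ j ≤ d i
  · rw [if_pos h, min_eq_right h]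
    have : min (d i) (2 * tsc τ j) ≤ 2 * tsc τ j := min_le_right _ _
    nlinarith [mul_le_mul_of_nonneg_left this (hp i)]
  · rw [if_neg h]
    push Not at h
    rw [min_eq_left h.le, min_eq_left (by linarith)]
    simp

theorem Hs_le_hs' (p d : ι → ℝ) (hp : ∀ i, 0 ≤ p i) (hd : ∀ i, 0 ≤ d i)
    {τ : ℝ} (hτ : 0 < τ) (j : ℕ) : Hs p d τ j ≤ hs' p d τ j := by
  have ht := tsc_pos hτ j
  unfold hs' Hs
  rw [le_div_iff₀ ht, sum_mul]
  refine sum_le_sum fun i _ => ?_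
  by_cases h : tsc τ j ≤ d i
  · rw [if_pos h, min_eq_right h, mul_one]
  · rw [if_neg h]; simp; exact mul_nonneg (hp i) (le_min (hd i) ht.le)

theorem hs'_zero_le (p d : ι → ℝ) (hp : ∀ i, 0 ≤ p i) (hp1 : ∑ i, p i = 1)
    {τ : ℝ} (hτ : 0 < τ) : hs' p d τ 0 ≤ 1 := hs'_le_gs p d hp hp1 hτ 0

/-- `k = E min(d₁,d₂)^θ` from above by the scale sum -/
theorem k_le (p d : ι → ℝ) (hp : ∀ i, 0 ≤ p i) (hp1 : ∑ i, p i = 1) (hd : ∀ i, 0 ≤ d i)
    (hE : ∑ i, p i * d i ≤ 1) {θ τ : ℝ} (hθ0 : 0 ≤ θ) (hθ1 : θ ≤ 1)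
    (hτ : 0 < τ) (N : ℕ) :
    ∑ i, ∑ i', p i * p i' * (min (d i) (d i')) ^ θ ≤
      τ ^ θ + 2 * ∑ j ∈ range N, (tsc τ j) ^ θ * Hs p d τ j ^ 2 + (tsc τ N) ^ (θ - 2) := by
  have h1 : ∀ i i', p i * p i' * (min (d i) (d i')) ^ θ ≤
      p i * p i' * (τ ^ θ) + 2 * ∑ j ∈ range N, (tsc τ j) ^ θ *
        ((p i * (if tsc τ j ≤ d i then 1 else 0)) * (p i' * (if tsc τ j ≤ d i' then 1 else 0)))
      + (tsc τ N) ^ (θ - 2) * ((p i * d i) * (p i' * d i')) := by
    intro i i'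
    have hm : 0 ≤ min (d i) (d i') := le_min (hd i) (hd i')
    have hl := layer_le' hθ0 hθ1 hτ hm N
    have hsq : (min (d i) (d i')) ^ 2 ≤ d i * d i' := by
      rw [sq]; exact mul_le_mul (min_le_left _ _) (min_le_right _ _) hm (hd i)
    have hcoef : 0 ≤ (tsc τ N) ^ (θ - 2) := Real.rpow_nonneg (tsc_pos hτ N).le _
    have hpp : 0 ≤ p i * p i' := mul_nonneg (hp i) (hp i')
    have h2 := mul_le_mul_of_nonneg_left (hl.trans (add_le_add_right
      (mul_le_mul_of_nonneg_left hsq hcoef) _)) hpp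
    refine h2.trans (le_of_eq ?_)
    have e : ∑ j ∈ range N, (tsc τ j) ^ θ *
        ((p i * (if tsc τ j ≤ d i then 1 else 0)) * (p i' * (if tsc τ j ≤ d i' then 1 else 0)))
        = p i * p i' * ∑ j ∈ range N, (tsc τ j) ^ θ *
          (if tsc τ j ≤ min (d i) (d i') then 1 else 0) := by
      rw [mul_sum]
      refine sum_congr rfl fun j _ => ?_
      by_cases a1 : tsc τ j ≤ d i <;> by_cases a2 : tsc τ j ≤ d i' <;>
        (simp [a1, a2]; try ring)
    rw [e]; ring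
  have h3 := sum_le_sum fun i (_ : i ∈ (univ : Finset ι)) =>
    sum_le_sum fun i' (_ : i' ∈ (univ : Finset ι)) => h1 i i'
  refine h3.trans ?_
  have e1 : ∑ i, ∑ i', (p i * p i' * (τ ^ θ) + 2 * ∑ j ∈ range N, (tsc τ j) ^ θ *
        ((p i * (if tsc τ j ≤ d i then 1 else 0)) * (p i' * (if tsc τ j ≤ d i' then 1 else 0)))
      + (tsc τ N) ^ (θ - 2) * ((p i * d i) * (p i' * d i'))) =
      (∑ i, p i) * (∑ i', p i') * τ ^ θ + 2 * ∑ j ∈ range N, (tsc τ j) ^ θ * Hs p d τ j ^ 2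
        + (tsc τ N) ^ (θ - 2) * ((∑ i, p i * d i) * (∑ i', p i' * d i')) := by
    simp only [sum_add_distrib, ← mul_sum]
    congr 1
    · congr 1
      · rw [sum_mul_sum, sum_mul]
        refine sum_congr rfl fun i _ => ?_
        rw [sum_mul]
      · congr 1
        have : ∀ i, ∑ i', ∑ j ∈ range N, (tsc τ j) ^ θ *
          ((p i * (if tsc τ j ≤ d i then (1:ℝ) else 0)) *
            (p i' * (if tsc τ j ≤ d i' then 1 else 0))) =
          ∑ j ∈ range N, (tsc τ j) ^ θ * ((p i * (if tsc τ j ≤ d i then 1 else 0)) * Hs p d τ j) := by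
          intro i
          rw [sum_comm]
          refine sum_congr rfl fun j _ => ?_
          rw [← mul_sum, ← mul_sum]; rfl
        rw [sum_congr rfl fun i _ => this i, sum_comm]
        refine sum_congr rfl fun j _ => ?_
        rw [← mul_sum, ← sum_mul, sq]; rfl
    · rw [sum_mul]
  rw [e1, hp1]
  have hE0 : 0 ≤ ∑ i, p i * d i := sum_nonneg fun i _ => mul_nonneg (hp i) (hd i)
  have hcoef : 0 ≤ (tsc τ N) ^ (θ - 2) := Real.rpow_nonneg (tsc_pos hτ N).le _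
  have : (∑ i, p i * d i) * (∑ i', p i' * d i') ≤ 1 := by nlinarith
  nlinarith [mul_le_mul_of_nonneg_left this hcoef]

theorem sum_wH_le (p d : ι → ℝ) (hp : ∀ i, 0 ≤ p i) (hd : ∀ i, 0 ≤ d i)
    {θ τ : ℝ} (hθ : 1 / 2 ≤ θ) (hτ : 0 < τ) (N : ℕ) :
    ∑ j ∈ range N, (tsc τ j) ^ θ * Hs p d τ j ≤ 4 * ∑ i, p i * (d i) ^ θ := by
  have e : ∑ j ∈ range N, (tsc τ j) ^ θ * Hs p d τ j =
      ∑ i, p i * ∑ j ∈ range N, (tsc τ j) ^ θ * (if tsc τ j ≤ d i then 1 else 0) := by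
    simp only [Hs, mul_sum]
    rw [sum_comm]
    refine sum_congr rfl fun i _ => sum_congr rfl fun j _ => ?_
    ring
  rw [e, mul_sum]
  refine sum_le_sum fun i _ => ?_
  have := mul_le_mul_of_nonneg_left (layer_ge hθ hτ (hd i) N) (hp i)
  linarith

theorem Hs_sub_one (p d : ι → ℝ) {τ : ℝ} (hτ : 0 < τ) (j : ℕ) :
    Hs p d τ j - Hs p d τ (j + 1) =
      ∑ i, p i * (if tsc τ j ≤ d i ∧ d i < 2 * tsc τ j then 1 else 0) := by
  unfold Hs
  rw [← sum_sub_distrib]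
  refine sum_congr rfl fun i _ => ?_
  have ht := tsc_pos hτ j
  rw [tsc_succ]
  by_cases h : tsc τ j ≤ d i <;> by_cases h' : 2 * tsc τ j ≤ d i
  · simp [h, h', not_lt.2 h']
  · simp [h, h', not_le.1 h']
  · exact absurd (by linarith) h
  · simp [h, h']

/-- **Hardy step of (Co)**, per formula, single blocks. -/
theorem hardy_Co2 (p d : ι → ℝ) (hp : ∀ i, 0 ≤ p i) (hp1 : ∑ i, p i = 1) (hd : ∀ i, 0 ≤ d i)
    (hEd : ∑ i, p i * d i ≤ 1) {θ δ τ c C : ℝ} (hθ : 1 / 2 ≤ θ) (hθ1 : θ ≤ 1) (hδ : 0 < δ)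
    (hτ : 0 < τ) (hc : 0 < c) (hC : 0 ≤ C) (N : ℕ) (P E : ℕ → ℝ)
    (hP : ∀ j < N, 0 ≤ P j) (hE : ∀ j < N, 0 ≤ E j)
    (hprod : ∀ j < N, c * (∑ i, p i * (if tsc τ j ≤ d i ∧ d i < 2 * tsc τ j then 1 else 0)) ^ 3 ≤
      (2 * δ + C * hs' p d τ j) * P j + E j) :
    ∑ i, ∑ i', p i * p i' * (min (d i) (d i')) ^ θ ≤
      144 * ((2 + 25 * C) / c) * ∑ j ∈ range N, (tsc τ j) ^ θ * P j
        + 576 * δ * ∑ i, p i * (d i) ^ θ
        + 144 / (c * δ) * ∑ j ∈ range N, (tsc τ j) ^ θ * E j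
        + 3 * τ ^ θ + 23 * (tsc τ N) ^ (θ - 2) := by
  have hθ0 : 0 ≤ θ := by linarith
  have h2θ : (2 : ℝ) ^ θ ≤ 2 := by
    calc (2 : ℝ) ^ θ ≤ 2 ^ (1 : ℝ) := Real.rpow_le_rpow_of_exponent_le (by norm_num) hθ1
      _ = 2 := Real.rpow_one 2
  have hw0 : ∀ j, 0 ≤ (tsc τ j) ^ θ := fun j => Real.rpow_nonneg (tsc_pos hτ j).le θ
  have hseq := hardy_seq (Hs p d τ) (hs' p d τ) P E (fun j => (tsc τ j) ^ θ) c C δ hc hC hδ N
    hw0
    (fun j => by
      show 7 / 5 * (tsc τ j) ^ θ ≤ (tsc τ (j + 1)) ^ θ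
      rw [tsc_rpow_succ hτ]
      exact mul_le_mul_of_nonneg_right (two_rpow_ge hθ) (hw0 j))
    (fun j => by
      show (tsc τ (j + 1)) ^ θ ≤ 2 * (tsc τ j) ^ θ
      rw [tsc_rpow_succ hτ]
      exact mul_le_mul_of_nonneg_right h2θ (hw0 j))
    (Hs_nonneg p d hp τ) (Hs_anti p d hp hτ) (Hs_le_hs' p d hp hd hτ)
    (hs'_succ_le p d hp hτ) (hs'_zero_le p d hp hp1 hτ) hP hE
    (fun j hj => by rw [Hs_sub_one p d hτ]; exact hprod j hj)
  have hk := k_le p d hp hp1 hd hEd hθ0 hθ1 hτ N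
  have hwH := mul_le_mul_of_nonneg_left (sum_wH_le p d hp hd hθ hτ N) hδ.le
  have htop : (tsc τ N) ^ θ * Hs p d τ N ^ 2 ≤ (tsc τ N) ^ (θ - 2) := by
    have ht := tsc_pos hτ N
    have h1 : Hs p d τ N ^ 2 ≤ (1 / tsc τ N) ^ 2 := by
      have := Hs_nonneg p d hp τ N
      have := Hs_markov p d hp hd hEd hτ N
      gcongr
    have h2 : (tsc τ N) ^ θ * (1 / tsc τ N) ^ 2 = (tsc τ N) ^ (θ - 2) := by
      rw [Real.rpow_sub ht, Real.rpow_two]; field_simp
    calc (tsc τ N) ^ θ * Hs p d τ N ^ 2 ≤ (tsc τ N) ^ θ * (1 / tsc τ N) ^ 2 :=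
          mul_le_mul_of_nonneg_left h1 (hw0 _)
      _ = _ := h2
  have h00 : (tsc τ 0) ^ θ = τ ^ θ := by simp [tsc]
  simp only [h00] at hseq
  have k5 : 144 * ((2 + 25 * C) / c) * ∑ j ∈ range N, (tsc τ j) ^ θ * P j =
      2 * (72 * ((2 + 25 * C) / c) * ∑ j ∈ range N, (tsc τ j) ^ θ * P j) := by ring
  have k4 : 144 / (c * δ) * ∑ j ∈ range N, (tsc τ j) ^ θ * E j =
      2 * (72 / (c * δ) * ∑ j ∈ range N, (tsc τ j) ^ θ * E j) := by ring
  rw [k4, k5]
  linarith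

/-- **Dev sum**: each table deviates at boundedly many dyadic scales. -/
theorem dev_sum {θ τ W c0 a b r : ℝ} (hθ : 1 / 2 ≤ θ) (hθ1 : θ ≤ 1) (hτ : 0 < τ) (hW : 1 ≤ W)
    (hc0 : 0 < c0) (ha : 0 ≤ a) (hb : 0 ≤ b) (N : ℕ) (φ : ℕ → ℝ) (hφ1 : ∀ j < N, φ j ≤ 1)
    (hφ : ∀ j < N, 0 < φ j → tsc τ j ≤ W * min a b ∧ min a b ≤ W * tsc τ j ∧
      c0 * tsc τ j ≤ |r - a * b / (a + b)|) :
    ∑ j ∈ range N, (tsc τ j) ^ θ * φ j ≤
      (4 * W ^ 3 / c0 ^ 2) * ((min a b) ^ θ * ((r - a * b / (a + b)) / min a b) ^ 2) := by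
  have hθ0 : 0 ≤ θ := by linarith
  set m := min a b with hm
  have hm0 : 0 ≤ m := le_min ha hb
  have hw0 : ∀ j, 0 ≤ (tsc τ j) ^ θ := fun j => Real.rpow_nonneg (tsc_pos hτ j).le θ
  have hW0 : 0 < W := by linarith
  by_cases hex : ∃ j < N, 0 < φ j
  · obtain ⟨j0, hj0, hφ0⟩ := hex
    obtain ⟨h1, h2, h3⟩ := hφ j0 hj0 hφ0
    have ht0 := tsc_pos hτ j0
    have hmp : 0 < m := by
      by_contra hc
      have : m = 0 := le_antisymm (not_lt.1 hc) hm0
      rw [this] at h1; linarith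
    have hdev : (c0 / W) ^ 2 ≤ ((r - a * b / (a + b)) / m) ^ 2 := by
      rw [← sq_abs ((r - a * b / (a + b)) / m), abs_div, abs_of_pos hmp]
      have : c0 / W ≤ |r - a * b / (a + b)| / m := by
        rw [div_le_div_iff₀ hW0 hmp]
        calc c0 * m ≤ c0 * (W * tsc τ j0) := by gcongr
          _ = (c0 * tsc τ j0) * W := by ring
          _ ≤ |r - a * b / (a + b)| * W := by gcongr
      gcongr
    have hsum : ∑ j ∈ range N, (tsc τ j) ^ θ * φ j ≤
        ∑ j ∈ range N, (tsc τ j) ^ θ * (if tsc τ j ≤ W * m then 1 else 0) := by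
      refine sum_le_sum fun j hj => mul_le_mul_of_nonneg_left ?_ (hw0 j)
      have hjN := mem_range.1 hj
      by_cases hc : 0 < φ j
      · rw [if_pos (hφ j hjN hc).1]; exact hφ1 j hjN
      · push Not at hc
        split_ifs <;> linarith
    have h4 := layer_ge hθ hτ (show 0 ≤ W * m by positivity) N
    have h5 : (W * m) ^ θ = W ^ θ * m ^ θ := Real.mul_rpow hW0.le hm0
    have h6 : W ^ θ ≤ W := by
      calc W ^ θ ≤ W ^ (1 : ℝ) := Real.rpow_le_rpow_of_exponent_le hW hθ1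
        _ = W := Real.rpow_one W
    have hmθ : 0 ≤ m ^ θ := Real.rpow_nonneg hm0 θ
    have h7 : W ^ θ * m ^ θ ≤ W * m ^ θ := mul_le_mul_of_nonneg_right h6 hmθ
    have h8 : 4 * W * m ^ θ = (4 * W ^ 3 / c0 ^ 2) * (m ^ θ * (c0 / W) ^ 2) := by
      field_simp
    calc ∑ j ∈ range N, (tsc τ j) ^ θ * φ j ≤ 4 * W * m ^ θ := by linarith
      _ = (4 * W ^ 3 / c0 ^ 2) * (m ^ θ * (c0 / W) ^ 2) := h8
      _ ≤ _ := by gcongr
  · push Not at hex
    have : ∑ j ∈ range N, (tsc τ j) ^ θ * φ j ≤ 0 :=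
      sum_nonpos fun j hj => mul_nonpos_of_nonneg_of_nonpos (hw0 j) (hex j (mem_range.1 hj))
    refine this.trans ?_
    have := Real.rpow_nonneg hm0 θ
    positivity

end MP9cae81PC
end

section

/-! The deviation functionals. -/

open Finset
open scoped BigOperators

namespace Pool.Agent.Lib.MP_9cae81_PC

open Pool.Agent.Lib.MP_9cae81_R

variable {L ι : Type} [Fintype L] [Nonempty L] [Fintype ι] [DecidableEq ι] (P : PF L ι)
variable {q : ι → ℝ} {c2 β ρ : ℝ}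

omit [Nonempty L] in
theorem P5a_sum_single (f : Finset ι → ℝ) (hf : ∀ F, 0 ≤ f F) :
    ∑ l, f {P.u l} ≤ ∑ F : Finset ι, f F := by
  classical
  have hinj : ∀ x ∈ (univ : Finset L), ∀ y ∈ (univ : Finset L),
      ({P.u x} : Finset ι) = {P.u y} → x = y := by
    intro x _ y _ h
    exact P.u_inj (Finset.singleton_injective h)
  rw [← Finset.sum_image (s := univ) (g := fun l => ({P.u l} : Finset ι)) (f := f) hinj]
  exact Finset.sum_le_sum_of_subset_of_nonneg (Finset.subset_univ _) fun F _ _ => hf F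

theorem P5a_exp : (21 / 200 : ℝ) ≤ Real.exp (-(11 / 5)) := by
  have h1 : Real.exp (1 / 5) < 5 / 4 := by
    have h2 : Real.exp (1 / 5) ^ 5 < (5 / 4 : ℝ) ^ 5 := by
      rw [← Real.exp_nat_mul]
      have := Real.exp_one_lt_d9
      norm_num at this ⊢
      linarith
    exact lt_of_pow_lt_pow_left₀ 5 (by norm_num) h2
  have h3 : Real.exp (11 / 5) = Real.exp 1 * Real.exp 1 * Real.exp (1 / 5) := by
    rw [← Real.exp_add, ← Real.exp_add]; norm_num
  have h4 := Real.exp_one_lt_d9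
  have h5 := Real.exp_pos (1 : ℝ)
  have h6 := Real.exp_pos (1 / 5 : ℝ)
  have h7 : Real.exp 1 * Real.exp 1 ≤ 7.4 := by nlinarith
  have h8 : Real.exp (11 / 5) ≤ 7.4 * (5 / 4) := by
    rw [h3]
    exact mul_le_mul h7 h1.le h6.le (by norm_num)
  rw [Real.exp_neg, ← one_div, le_div_iff₀ (Real.exp_pos _)]
  nlinarith

theorem P5a_dv_nonneg (s : ℝ) {a b : ℝ} (ha : 0 ≤ a) (hb : 0 ≤ b) (R : ℝ) : 0 ≤ PF.dv s a b R := by
  unfold PF.dv
  exact mul_nonneg (Real.rpow_nonneg (le_min ha hb) _) (sq_nonneg _)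

theorem P5a_Av_one : Av (fun _ : L => (1 : ℝ)) = 1 := by
  unfold Av
  have : (Fintype.card L : ℝ) ≠ 0 := by exact_mod_cast Fintype.card_ne_zero
  simp [this]

theorem P5a_wt (hG : Gad P q c2 β ρ) (hc2 : 1 / 2 ≤ c2) (hc : c2 + β ≤ 11 / 5)
    (hρ : ρ ≤ 1 / 100) (l : L) : (1 / 20) / (Fintype.card L : ℝ) ≤ wt q {P.u l} := by
  have hcard : (0 : ℝ) < Fintype.card L := by exact_mod_cast Fintype.card_pos
  have h1 := wt_singleton q hG.nonneg (P.u l)
  have h2 : ∑ p, q p = c2 + β := by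
    have := hG.law (fun _ => 1)
    simp only [mul_one, P5a_Av_one] at this
    exact this
  rw [h2] at h1
  refine le_trans ?_ h1
  have h3 : Real.exp (-(11 / 5)) ≤ Real.exp (-(c2 + β)) := Real.exp_le_exp.2 (by linarith)
  have h4 := P5a_exp
  have h5 := hG.qu l
  have h6 : q (P.u l) ≤ 1 / 100 := (hG.small _).trans hρ
  have h7 : 99 / 100 ≤ 1 - q (P.u l) := by linarith
  have h8 : (1 / 2) / (Fintype.card L : ℝ) ≤ q (P.u l) := by
    rw [h5]; exact div_le_div_of_nonneg_right hc2 hcard.le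
  have h9 : 0 ≤ (1 / 2) / (Fintype.card L : ℝ) := by positivity
  calc (1 / 20) / (Fintype.card L : ℝ) ≤
      ((1 / 2) / (Fintype.card L : ℝ)) * (99 / 100) * (21 / 200) := by
        rw [div_mul_eq_mul_div, div_mul_eq_mul_div]
        exact div_le_div_of_nonneg_right (by norm_num) hcard.le
    _ ≤ q (P.u l) * (1 - q (P.u l)) * Real.exp (-(c2 + β)) := by
        refine mul_le_mul (mul_le_mul h8 h7 (by norm_num) (hG.nonneg _)) (h4.trans h3)
          (by norm_num) (mul_nonneg (hG.nonneg _) (by linarith))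

/-- Keep the gadgets `{u l}`, `{u l'}` exactly: `wt q {u l} ≥ (c2/|L|)(1-ρ) exp(-11/5)`, so
`DevE ≥ (c2 (1-ρ) exp(-11/5))² Dev1 ≥ Dev1 / 400` (`dv ≥ 0`). -/
theorem Dev1_le (hG : Gad P q c2 β ρ) (hc2 : 1 / 2 ≤ c2) (hβ : 0 ≤ β) (hc : c2 + β ≤ 11 / 5)
    (hρ : ρ ≤ 1 / 100) (s : ℝ) : P.Dev1 s ≤ 400 * P.DevE q s := by
  have hcard : (0 : ℝ) < Fintype.card L := by exact_mod_cast Fintype.card_pos
  have hw0 : ∀ F, 0 ≤ wt q F := wt_nonneg hG.nonneg
  have hw := P5a_wt P hG hc2 hc hρ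
  have hdv : ∀ a b : Finset ι, 0 ≤ PF.dv s (P.D a) (P.D b) (P.M a b) := fun a b =>
    P5a_dv_nonneg s (P.D_nonneg a) (P.D_nonneg b) _
  have h1 : ∑ l, ∑ l', wt q {P.u l} * (wt q {P.u l'} *
      PF.dv s (P.D {P.u l}) (P.D {P.u l'}) (P.M {P.u l} {P.u l'})) ≤ P.DevE q s := by
    unfold PF.DevE E2 EE
    have h2 := P5a_sum_single P (fun a => wt q a * ∑ b : Finset ι, wt q b *
      PF.dv s (P.D a) (P.D b) (P.M a b)) (fun a => mul_nonneg (hw0 a)
        (Finset.sum_nonneg fun b _ => mul_nonneg (hw0 b) (hdv a b)))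
    refine le_trans (Finset.sum_le_sum fun l _ => ?_) h2
    rw [← Finset.mul_sum]
    refine mul_le_mul_of_nonneg_left ?_ (hw0 _)
    exact P5a_sum_single P (fun b => wt q b * PF.dv s (P.D {P.u l}) (P.D b) (P.M {P.u l} b))
      (fun b => mul_nonneg (hw0 b) (hdv _ b))
  have h3 : (1 / 400) * P.Dev1 s ≤ ∑ l, ∑ l', wt q {P.u l} * (wt q {P.u l'} *
      PF.dv s (P.D {P.u l}) (P.D {P.u l'}) (P.M {P.u l} {P.u l'})) := by
    unfold PF.Dev1 Av
    rw [Finset.sum_div, Finset.mul_sum]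
    refine Finset.sum_le_sum fun l _ => ?_
    rw [Finset.sum_div, Finset.sum_div, Finset.mul_sum]
    refine Finset.sum_le_sum fun l' _ => ?_
    have h4 : 0 ≤ PF.dv s (P.d l) (P.d l') (P.r l l') := hdv {P.u l} {P.u l'}
    have h5 : (1 / 20) / (Fintype.card L : ℝ) * ((1 / 20) / (Fintype.card L : ℝ) *
        PF.dv s (P.d l) (P.d l') (P.r l l')) ≤
        wt q {P.u l} * (wt q {P.u l'} * PF.dv s (P.d l) (P.d l') (P.r l l')) := by
      refine mul_le_mul (hw l) (mul_le_mul_of_nonneg_right (hw l') h4) ?_ (hw0 _)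
      positivity
    have h6 : (1 / 20) / (Fintype.card L : ℝ) * ((1 / 20) / (Fintype.card L : ℝ) *
        PF.dv s (P.d l) (P.d l') (P.r l l')) =
        1 / 400 * (PF.dv s (P.d l) (P.d l') (P.r l l') / (Fintype.card L : ℝ) /
          (Fintype.card L : ℝ)) := by
      field_simp; ring
    rw [← h6]
    exact h5
  linarith

/-- `dev_sum` (file `Hardy`) with `W = 1024`, `c0 = 1/1024`, `φ j = 1(bump > 0)`, averaged over the
two literals (`ph_pos`, `ph_pos_min`; `4 W³ / c0² = 2^52`). -/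
theorem jt_sum (s : ℝ) (hs : 1 / 2 ≤ s) (hs1 : s ≤ 1) {τ : ℝ} (hτ : 0 < τ) (N : ℕ) :
    ∑ j ∈ range N, (MP9cae81PC.tsc τ j) ^ s * P.jt (MP9cae81PC.tsc τ j) ≤ 2 ^ 52 * P.Dev1 s := by
  have hcard : (0 : ℝ) < Fintype.card L := by exact_mod_cast Fintype.card_pos
  have hd0 : ∀ l, 0 ≤ P.d l := fun l => P.D_nonneg {P.u l}
  have key : ∀ l y, ∑ j ∈ range N, (MP9cae81PC.tsc τ j) ^ s *
      (if 0 < ph (MP9cae81PC.tsc τ j) (P.d l) (P.d y) (P.r l y) then 1 else 0) ≤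
      2 ^ 52 * PF.dv s (P.d l) (P.d y) (P.r l y) := by
    intro l y
    have h := MP9cae81PC.dev_sum (θ := s) (τ := τ) (W := 1024) (c0 := 1 / 1024) (a := P.d l)
      (b := P.d y) (r := P.r l y) hs hs1 hτ (by norm_num) (by norm_num) (hd0 l) (hd0 y) N
      (fun j => if 0 < ph (MP9cae81PC.tsc τ j) (P.d l) (P.d y) (P.r l y) then 1 else 0)
      (fun j _ => by split_ifs <;> norm_num)
      (fun j _ hj => by
        have ht := MP9cae81PC.tsc_pos hτ j
        have hp : 0 < ph (MP9cae81PC.tsc τ j) (P.d l) (P.d y) (P.r l y) := by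
          by_contra hc
          simp [hc] at hj
        obtain ⟨p1, p2, p3, p4⟩ := ph_pos ht hp
        obtain ⟨p5, p6⟩ := ph_pos_min ht (P.M_nonneg _ _) (P.M_le_left _ _)
          (P.M_le_right _ _) hp
        refine ⟨?_, ?_, ?_⟩
        · have : MP9cae81PC.tsc τ j / 1024 ≤ min (P.d l) (P.d y) := le_min p5.le p6.le
          linarith
        · have := min_le_right (P.d l) (P.d y)
          linarith
        · unfold par at p4
          linarith)
    have e : (4 * (1024 : ℝ) ^ 3 / (1 / 1024) ^ 2) = 2 ^ 52 := by norm_num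
    rw [e] at h
    exact h
  unfold PF.jt PF.Dev1 Av
  have h1 : ∑ j ∈ range N, (MP9cae81PC.tsc τ j) ^ s * ((∑ l, (∑ y,
      (if 0 < ph (MP9cae81PC.tsc τ j) (P.d l) (P.d y) (P.r l y) then (1 : ℝ) else 0)) /
        (Fintype.card L : ℝ)) / (Fintype.card L : ℝ)) =
      (∑ l, (∑ y, ∑ j ∈ range N, (MP9cae81PC.tsc τ j) ^ s *
        (if 0 < ph (MP9cae81PC.tsc τ j) (P.d l) (P.d y) (P.r l y) then (1 : ℝ) else 0)) /
        (Fintype.card L : ℝ)) / (Fintype.card L : ℝ) := by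
    simp only [Finset.sum_div, Finset.mul_sum]
    rw [Finset.sum_comm]
    refine Finset.sum_congr rfl fun l _ => ?_
    rw [Finset.sum_comm]
    refine Finset.sum_congr rfl fun y _ => Finset.sum_congr rfl fun j _ => ?_
    ring
  rw [h1]
  have h2 : 2 ^ 52 * ((∑ l, (∑ y, PF.dv s (P.d l) (P.d y) (P.r l y)) / (Fintype.card L : ℝ)) /
      (Fintype.card L : ℝ)) = (∑ l, (∑ y, 2 ^ 52 * PF.dv s (P.d l) (P.d y) (P.r l y)) /
        (Fintype.card L : ℝ)) / (Fintype.card L : ℝ) := by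
    simp only [Finset.sum_div, Finset.mul_sum]
    refine Finset.sum_congr rfl fun l _ => Finset.sum_congr rfl fun y _ => ?_
    ring
  rw [h2]
  refine div_le_div_of_nonneg_right (Finset.sum_le_sum fun l _ => ?_) hcard.le
  exact div_le_div_of_nonneg_right (Finset.sum_le_sum fun y _ => key l y) hcard.le

end Pool.Agent.Lib.MP_9cae81_PC
end
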