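import Pool.Agent.Lib.MP_9cae81_PC.Mg.G005
import Pool.Agent.Lib.MP_9cae81_PC.Mg.G012
import Pool.Agent.Lib.MP_9cae81_PC.P3a

section

/-! One big piece. -/

open Finset
open scoped BigOperators

namespace Pool.Agent.Lib.MP_9cae81_PC

open Pool.Agent.Lib.MP_9cae81_R

private theorem P4c_EE {ι : Type} [Fintype ι] [DecidableEq ι] (q : ι → ℝ) (f g : Finset ι → ℝ)
    (c0 c1 c2 c3 c4 : ℝ) :
    EE q (fun a => EE q (fun b => c0 + c1 * f a + c2 * f b + c3 * g b + c4 * g a)) =
      c0 + c1 * EE q f + c2 * EE q f + c3 * EE q g + c4 * EE q g := by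
  have h1 : ∀ a, EE q (fun b => c0 + c1 * f a + c2 * f b + c3 * g b + c4 * g a) =
      ((c0 + c2 * EE q f + c3 * EE q g) + c1 * f a) + c4 * g a := by
    intro a
    have h2 : (fun b => c0 + c1 * f a + c2 * f b + c3 * g b + c4 * g a) =
        fun b => ((c0 + c1 * f a + c4 * g a) + c2 * f b) + c3 * g b := by
      funext b
      ring
    rw [h2, EE_add q (fun b => (c0 + c1 * f a + c4 * g a) + c2 * f b) (fun b => c3 * g b),
      EE_add q (fun _ => c0 + c1 * f a + c4 * g a) (fun b => c2 * f b), EE_const,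
      EE_mul_left, EE_mul_left]
    ring
  have h3 : (fun a => EE q (fun b => c0 + c1 * f a + c2 * f b + c3 * g b + c4 * g a)) =
      fun a => ((c0 + c2 * EE q f + c3 * EE q g) + c1 * f a) + c4 * g a := funext h1
  rw [h3, EE_add q (fun a => (c0 + c2 * EE q f + c3 * EE q g) + c1 * f a) (fun a => c4 * g a),
    EE_add q (fun _ => c0 + c2 * EE q f + c3 * EE q g) (fun a => c1 * f a), EE_const,
    EE_mul_left, EE_mul_left]
  ring

section av

variable {L : Type} [Fintype L]

private theorem P4c_mono {f g : L → ℝ} (h : ∀ l, f l ≤ g l) : Av f ≤ Av g := by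
  unfold Av
  exact div_le_div_of_nonneg_right (Finset.sum_le_sum fun l _ => h l) (by positivity)

private theorem P4c_nonneg {f : L → ℝ} (h : ∀ l, 0 ≤ f l) : 0 ≤ Av f := by
  unfold Av
  exact div_nonneg (Finset.sum_nonneg fun l _ => h l) (by positivity)

private theorem P4c_sub (f g : L → ℝ) : Av (fun l => f l - g l) = Av f - Av g := by
  unfold Av
  rw [Finset.sum_sub_distrib, sub_div]

private theorem P4c_mul (c : ℝ) (f : L → ℝ) : Av (fun l => c * f l) = c * Av f := by
  unfold Av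
  rw [← Finset.mul_sum, mul_div_assoc]

private theorem P4c_mul' (c : ℝ) (f : L → ℝ) : Av (fun l => f l * c) = Av f * c := by
  unfold Av
  rw [← Finset.sum_mul]
  ring

private theorem P4c_const [Nonempty L] (c : ℝ) : Av (fun _ : L => c) = c := by
  unfold Av
  rw [Finset.sum_const, Finset.card_univ, nsmul_eq_mul]
  have : (Fintype.card L : ℝ) ≠ 0 := by exact_mod_cast Fintype.card_ne_zero
  field_simp

end av

variable {L ι : Type} [Fintype L] [Nonempty L] [Fintype ι] [DecidableEq ι] (P : PF L ι)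
variable {q : ι → ℝ} {c2 β ρ : ℝ}

private theorem P4c_rpow {t : ℝ} (ht : 0 < t) {s : ℝ} (hs1 : s ≤ 1) {c x : ℝ}
    (hc : 1 ≤ c) (hx : 0 ≤ x) : (c * x / t) ^ s ≤ c / t ^ s * x ^ s := by
  have hc0 : 0 ≤ c := by linarith
  rw [mul_div_assoc, Real.mul_rpow hc0 (div_nonneg hx ht.le), Real.div_rpow hx ht.le]
  have h1 : c ^ s ≤ c := by
    calc c ^ s ≤ c ^ (1 : ℝ) := Real.rpow_le_rpow_of_exponent_le hc hs1
      _ = c := Real.rpow_one c
  have h2 : 0 ≤ x ^ s / t ^ s := div_nonneg (Real.rpow_nonneg hx s) (Real.rpow_nonneg ht.le s)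
  calc c ^ s * (x ^ s / t ^ s) ≤ c * (x ^ s / t ^ s) := mul_le_mul_of_nonneg_right h1 h2
    _ = c / t ^ s * x ^ s := by ring

omit [Nonempty L] in
/-- The pointwise bound, for two literals. -/
private theorem P4c_pt {t : ℝ} (ht : 0 < t) (s : ℝ) (hs : 0 < s) (hs1 : s ≤ 1)
    (a b : Finset ι) (l y : L) :
    ph t (P.d l) (P.d y) (P.r l y)
      - (if 0 < ph t (P.d l) (P.d y) (P.r l y) then (1 : ℝ) else 0) *
          (min 1 (2050 * P.D a / t) + min 1 (2050 * P.D b / t))
      - 2050 / t ^ s * (P.e b (P.u l)) ^ s - 1025 / t ^ s * (P.e a (P.u y)) ^ s ≤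
    (if P.D {P.u l} < t / 1024 then 0 else
      ph t (P.dx a (insert (P.u l) b)) (P.d y) (P.rx a (insert (P.u l) b) y)) := by
  have he1 : 0 ≤ P.e b (P.u l) := abs_nonneg _
  have he2 : 0 ≤ P.e a (P.u y) := abs_nonneg _
  have hts : 0 < t ^ s := Real.rpow_pos_of_pos ht s
  have h1 := P4c_rpow ht hs1 (c := 2050) (by norm_num) he1
  have h2 := P4c_rpow ht hs1 (c := 1025) (by norm_num) he2
  have h3 : 0 ≤ 2050 / t ^ s * (P.e b (P.u l)) ^ s :=
    mul_nonneg (by positivity) (Real.rpow_nonneg he1 s)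
  have h4 : 0 ≤ 1025 / t ^ s * (P.e a (P.u y)) ^ s :=
    mul_nonneg (by positivity) (Real.rpow_nonneg he2 s)
  have hD : P.D {P.u l} = P.d l := rfl
  by_cases hl : P.D {P.u l} < t / 1024
  · rw [if_pos hl]
    have h5 : ¬ 0 < ph t (P.d l) (P.d y) (P.r l y) := by
      intro hpos
      have h6 := (ph_pos_min ht (P.M_nonneg {P.u l} {P.u y}) (P.M_le_left {P.u l} {P.u y})
        (P.M_le_right {P.u l} {P.u y}) hpos).1
      rw [hD] at hl
      exact absurd hl (not_lt.mpr (le_of_lt h6))
    rw [if_neg h5]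
    have h7 : ph t (P.d l) (P.d y) (P.r l y) ≤ 0 := not_lt.mp h5
    linarith
  · rw [if_neg hl]
    have h5 := ph_one_unit P ht s hs hs1 a b l y
    have h6 : (if 0 < ph t (P.d l) (P.d y) (P.r l y) then (1 : ℝ) else 0) *
          (min 1 (2050 * P.D a / t) + min 1 (2050 * P.D b / t)) =
        (if 0 < ph t (P.d l) (P.d y) (P.r l y) then
          min 1 (2050 * P.D a / t) + min 1 (2050 * P.D b / t) else 0) := by
      split_ifs
      · rw [one_mul]
      · rw [zero_mul]
    rw [h6]
    linarith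

/-- ONE BIG PIECE.  Keep only the units `c = u l` (`law` / `qu` and `u_inj`; the summand is `≥ 0`):
the sum over `c` is at least `(1 - ρ) c2 Av_l 1(D{u l} ≥ t/1024) Φ a (insert (u l) b)`.  Where the
bump of `(l, y)` is positive `d l > t/1024` (`ph_pos_min`), so the indicator may be dropped after
`ph_one_unit`; then `small_part` twice (times `jt ≤ 1`), `unit_defect` twice (`a`- and `b`-average;
the inner/outer `EE` of a constant is the constant):
loss `≤ 9020 h jt + 41000 Er/t^s + (2050 + 1025) 20 Er/t^s`. -/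
theorem one_big (hG : Gad P q c2 β ρ) (hc2 : 1 / 2 ≤ c2) (hc21 : c2 ≤ 1) (hβ : 0 ≤ β)
    (hc : c2 + β ≤ 11 / 5) (hρ : ρ ≤ 1 / 100) {t : ℝ} (ht : 0 < t) (s : ℝ) (hs : 0 < s)
    (hs1 : s ≤ 1) :
    (1 - ρ) * c2 * P.Gt t - 9020 * P.hh t * P.jt t - 110000 * P.Er q s / t ^ s ≤
      EE (fun c => if P.D {c} < t / 1024 then q c else 0) (fun a =>
        EE (fun c => if P.D {c} < t / 1024 then q c else 0) (fun b =>
          ∑ c, (if P.D {c} < t / 1024 then 0 else q c * (1 - q c)) *
            Av fun y => ph t (P.dx a (insert c b)) (P.d y) (P.rx a (insert c b) y))) := by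
  set qs : ι → ℝ := fun c => if P.D {c} < t / 1024 then q c else 0 with hqs
  have hqs0 : ∀ c, 0 ≤ qs c := by
    intro c
    rw [hqs]
    simp only
    split_ifs
    · exact hG.nonneg c
    · exact le_rfl
  have hqsq : ∀ c, qs c ≤ q c := by
    intro c
    rw [hqs]
    simp only
    split_ifs
    · exact le_rfl
    · exact hG.nonneg c
  have hρ0 : 0 ≤ ρ := by
    obtain ⟨l⟩ := ‹Nonempty L›
    exact (hG.nonneg (P.u l)).trans (hG.small (P.u l))
  have hts : 0 < t ^ s := Real.rpow_pos_of_pos ht s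
  have hcard : (0 : ℝ) < Fintype.card L := by exact_mod_cast Fintype.card_pos
  set K : ℝ := (1 - ρ) * c2 with hK
  have hK0 : 0 ≤ K := mul_nonneg (by linarith) (by linarith)
  have hK1 : K ≤ 1 := by
    rw [hK]
    nlinarith
  -- the pointwise bound
  have hpt : ∀ a b : Finset ι,
      K * P.Gt t + -(K * P.jt t) * min 1 (2050 * P.D a / t) +
        -(K * P.jt t) * min 1 (2050 * P.D b / t) +
        -(K * (2050 / t ^ s)) * (Av fun l => (P.e b (P.u l)) ^ s) +
        -(K * (1025 / t ^ s)) * (Av fun l => (P.e a (P.u l)) ^ s) ≤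
      ∑ c, (if P.D {c} < t / 1024 then 0 else q c * (1 - q c)) *
            Av fun y => ph t (P.dx a (insert c b)) (P.d y) (P.rx a (insert c b) y) := by
    intro a b
    set F : ι → ℝ := fun c => (if P.D {c} < t / 1024 then 0 else q c * (1 - q c)) *
            Av fun y => ph t (P.dx a (insert c b)) (P.d y) (P.rx a (insert c b) y) with hF
    have hΦ0 : ∀ c, 0 ≤ Av fun y => ph t (P.dx a (insert c b)) (P.d y)
        (P.rx a (insert c b) y) := fun c => P4c_nonneg fun y => ph_nonneg _ _ _ _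
    have hF0 : ∀ c, 0 ≤ F c := by
      intro c
      rw [hF]
      refine mul_nonneg ?_ (hΦ0 c)
      split_ifs
      · exact le_rfl
      · have h1 := hG.nonneg c
        have h2 := hG.small c
        exact mul_nonneg h1 (by linarith)
    have h1 : ∑ l, F (P.u l) ≤ ∑ c, F c := by
      calc ∑ l, F (P.u l) = ∑ c ∈ Finset.univ.map ⟨P.u, P.u_inj⟩, F c := by
            rw [Finset.sum_map]
            rfl
        _ ≤ ∑ c, F c := Finset.sum_le_sum_of_subset_of_nonneg (Finset.subset_univ _)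
            fun c _ _ => hF0 c
    refine le_trans ?_ h1
    -- the table
    set T : L → L → ℝ := fun l y => ph t (P.d l) (P.d y) (P.r l y)
      - (if 0 < ph t (P.d l) (P.d y) (P.r l y) then (1 : ℝ) else 0) *
          (min 1 (2050 * P.D a / t) + min 1 (2050 * P.D b / t))
      - 2050 / t ^ s * (P.e b (P.u l)) ^ s - 1025 / t ^ s * (P.e a (P.u y)) ^ s with hT
    have hTav : (Av fun l => Av fun y => T l y) =
        P.Gt t - P.jt t * (min 1 (2050 * P.D a / t) + min 1 (2050 * P.D b / t)) -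
        2050 / t ^ s * (Av fun l => (P.e b (P.u l)) ^ s) -
        1025 / t ^ s * (Av fun l => (P.e a (P.u l)) ^ s) := by
      have e1 : ∀ l, (Av fun y => T l y) = (Av fun y => ph t (P.d l) (P.d y) (P.r l y)) -
          (Av fun y => (if 0 < ph t (P.d l) (P.d y) (P.r l y) then (1 : ℝ) else 0)) *
            (min 1 (2050 * P.D a / t) + min 1 (2050 * P.D b / t)) -
          2050 / t ^ s * (P.e b (P.u l)) ^ s -
          1025 / t ^ s * (Av fun y => (P.e a (P.u y)) ^ s) := by
        intro l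
        rw [hT]
        simp only
        rw [P4c_sub (fun y => ph t (P.d l) (P.d y) (P.r l y)
            - (if 0 < ph t (P.d l) (P.d y) (P.r l y) then (1 : ℝ) else 0) *
              (min 1 (2050 * P.D a / t) + min 1 (2050 * P.D b / t))
            - 2050 / t ^ s * (P.e b (P.u l)) ^ s)
            (fun y => 1025 / t ^ s * (P.e a (P.u y)) ^ s),
          P4c_sub (fun y => ph t (P.d l) (P.d y) (P.r l y)
            - (if 0 < ph t (P.d l) (P.d y) (P.r l y) then (1 : ℝ) else 0) *
              (min 1 (2050 * P.D a / t) + min 1 (2050 * P.D b / t)))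
            (fun _ => 2050 / t ^ s * (P.e b (P.u l)) ^ s),
          P4c_sub (fun y => ph t (P.d l) (P.d y) (P.r l y))
            (fun y => (if 0 < ph t (P.d l) (P.d y) (P.r l y) then (1 : ℝ) else 0) *
              (min 1 (2050 * P.D a / t) + min 1 (2050 * P.D b / t))),
          P4c_const, P4c_mul, P4c_mul']
      have e2 : (fun l => Av fun y => T l y) = fun l =>
          (Av fun y => ph t (P.d l) (P.d y) (P.r l y)) -
          (Av fun y => (if 0 < ph t (P.d l) (P.d y) (P.r l y) then (1 : ℝ) else 0)) *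
            (min 1 (2050 * P.D a / t) + min 1 (2050 * P.D b / t)) -
          2050 / t ^ s * (P.e b (P.u l)) ^ s -
          1025 / t ^ s * (Av fun y => (P.e a (P.u y)) ^ s) := funext e1
      rw [e2, P4c_sub (fun l => (Av fun y => ph t (P.d l) (P.d y) (P.r l y)) -
          (Av fun y => (if 0 < ph t (P.d l) (P.d y) (P.r l y) then (1 : ℝ) else 0)) *
            (min 1 (2050 * P.D a / t) + min 1 (2050 * P.D b / t)) -
          2050 / t ^ s * (P.e b (P.u l)) ^ s)
          (fun _ => 1025 / t ^ s * (Av fun y => (P.e a (P.u y)) ^ s)),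
        P4c_sub (fun l => (Av fun y => ph t (P.d l) (P.d y) (P.r l y)) -
          (Av fun y => (if 0 < ph t (P.d l) (P.d y) (P.r l y) then (1 : ℝ) else 0)) *
            (min 1 (2050 * P.D a / t) + min 1 (2050 * P.D b / t)))
          (fun l => 2050 / t ^ s * (P.e b (P.u l)) ^ s),
        P4c_sub (fun l => (Av fun y => ph t (P.d l) (P.d y) (P.r l y)))
          (fun l => (Av fun y => (if 0 < ph t (P.d l) (P.d y) (P.r l y) then (1 : ℝ) else 0)) *
            (min 1 (2050 * P.D a / t) + min 1 (2050 * P.D b / t))),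
        P4c_const, P4c_mul, P4c_mul']
      rfl
    have h2 : K * (Av fun l => Av fun y => T l y) ≤ ∑ l, F (P.u l) := by
      have e3 : K * (Av fun l => Av fun y => T l y) =
          ∑ l, K / Fintype.card L * (Av fun y => T l y) := by
        rw [← Finset.mul_sum]
        change K * ((∑ l, Av fun y => T l y) / (Fintype.card L : ℝ)) = _
        ring
      rw [e3]
      refine Finset.sum_le_sum fun l _ => ?_
      have hTl : ∀ y, T l y ≤ (if P.D {P.u l} < t / 1024 then 0 else
          ph t (P.dx a (insert (P.u l) b)) (P.d y) (P.rx a (insert (P.u l) b) y)) :=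
        fun y => P4c_pt P ht s hs hs1 a b l y
      have hKc : 0 ≤ K / Fintype.card L := div_nonneg hK0 hcard.le
      rw [hF]
      simp only
      by_cases hl : P.D {P.u l} < t / 1024
      · rw [if_pos hl, zero_mul]
        have h3 : (Av fun y => T l y) ≤ 0 := by
          have h4 : (Av fun y => T l y) ≤ Av fun _ : L => (0 : ℝ) :=
            P4c_mono fun y => by
              have := hTl y
              rw [if_pos hl] at this
              exact this
          rw [P4c_const] at h4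
          exact h4
        exact mul_nonpos_of_nonneg_of_nonpos hKc h3
      · rw [if_neg hl]
        have h3 : (Av fun y => T l y) ≤ Av fun y => ph t (P.dx a (insert (P.u l) b)) (P.d y)
            (P.rx a (insert (P.u l) b) y) :=
          P4c_mono fun y => by
            have := hTl y
            rw [if_neg hl] at this
            exact this
        have h4 : K / Fintype.card L ≤ q (P.u l) * (1 - q (P.u l)) := by
          have h5 := hG.small (P.u l)
          have h6 := hG.qu l
          have h7 : 0 ≤ q (P.u l) := hG.nonneg _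
          have h8 : K / Fintype.card L = q (P.u l) * (1 - ρ) := by
            rw [h6, hK]
            ring
          rw [h8]
          exact mul_le_mul_of_nonneg_left (by linarith) h7
        calc K / Fintype.card L * (Av fun y => T l y) ≤ K / Fintype.card L *
              (Av fun y => ph t (P.dx a (insert (P.u l) b)) (P.d y)
                (P.rx a (insert (P.u l) b) y)) := mul_le_mul_of_nonneg_left h3 hKc
          _ ≤ q (P.u l) * (1 - q (P.u l)) *
              (Av fun y => ph t (P.dx a (insert (P.u l) b)) (P.d y)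
                (P.rx a (insert (P.u l) b) y)) := mul_le_mul_of_nonneg_right h4 (hΦ0 _)
    refine le_trans (le_of_eq ?_) h2
    rw [hTav]
    ring
  -- integrate
  have hint : EE qs (fun a => EE qs (fun b =>
      K * P.Gt t + -(K * P.jt t) * min 1 (2050 * P.D a / t) +
        -(K * P.jt t) * min 1 (2050 * P.D b / t) +
        -(K * (2050 / t ^ s)) * (Av fun l => (P.e b (P.u l)) ^ s) +
        -(K * (1025 / t ^ s)) * (Av fun l => (P.e a (P.u l)) ^ s))) ≤
      EE qs (fun a => EE qs (fun b =>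
          ∑ c, (if P.D {c} < t / 1024 then 0 else q c * (1 - q c)) *
            Av fun y => ph t (P.dx a (insert c b)) (P.d y) (P.rx a (insert c b) y))) :=
    EE_mono hqs0 fun a => EE_mono hqs0 fun b => hpt a b
  refine le_trans ?_ hint
  rw [P4c_EE qs (fun g => min 1 (2050 * P.D g / t)) (fun g => Av fun l => (P.e g (P.u l)) ^ s)
    (K * P.Gt t) (-(K * P.jt t)) (-(K * P.jt t)) (-(K * (2050 / t ^ s))) (-(K * (1025 / t ^ s)))]
  have hm := small_part P hG (by linarith) hβ hc ht s hs hs1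
  have hu := unit_defect P hG hc2 hβ hc s qs hqs0 hqsq
  rw [← hqs] at hm
  have hEr : 0 ≤ P.Er q s := by
    unfold PF.Er
    refine Finset.sum_nonneg fun p _ => mul_nonneg (hG.nonneg p) ?_
    exact EE_nonneg hG.nonneg fun g => Real.rpow_nonneg (abs_nonneg _) s
  have hjt0 : 0 ≤ P.jt t := by
    unfold PF.jt
    refine P4c_nonneg fun l => P4c_nonneg fun y => ?_
    split_ifs <;> norm_num
  have hjt1 : P.jt t ≤ 1 := by
    unfold PF.jt
    have h1 : (Av fun l => Av fun y =>
        if 0 < ph t (P.d l) (P.d y) (P.r l y) then (1 : ℝ) else 0) ≤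
        Av fun _ : L => (Av fun _ : L => (1 : ℝ)) :=
      P4c_mono fun l => P4c_mono fun y => by split_ifs <;> norm_num
    rw [P4c_const, P4c_const] at h1
    exact h1
  have hhh : 0 ≤ P.hh t := by
    unfold PF.hh
    refine div_nonneg (P4c_nonneg fun l => ?_) ht.le
    exact le_min (P.D_nonneg {P.u l}) ht.le
  set mE := EE qs (fun g => min 1 (2050 * P.D g / t)) with hmE
  set uE := EE qs (fun g => Av fun l => (P.e g (P.u l)) ^ s) with huE
  have hEt : 0 ≤ P.Er q s / t ^ s := div_nonneg hEr hts.le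
  have huE0 : 0 ≤ uE := by
    rw [huE]
    exact EE_nonneg hqs0 fun g => P4c_nonneg fun l => Real.rpow_nonneg (abs_nonneg _) s
  have hmE0 : 0 ≤ mE := by
    rw [hmE]
    exact EE_nonneg hqs0 fun g => le_min zero_le_one
      (div_nonneg (mul_nonneg (by norm_num) (P.D_nonneg g)) ht.le)
  -- the two losses
  have hl1 : K * P.jt t * mE ≤ 4510 * P.hh t * P.jt t + 20500 * (P.Er q s / t ^ s) := by
    have h1 : K * P.jt t * mE ≤ P.jt t * mE := by
      have : 0 ≤ P.jt t * mE := mul_nonneg hjt0 hmE0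
      nlinarith
    have h2 : P.jt t * mE ≤ P.jt t * (4510 * P.hh t + 20500 * P.Er q s / t ^ s) :=
      mul_le_mul_of_nonneg_left hm hjt0
    have h3 : P.jt t * (20500 * P.Er q s / t ^ s) ≤ 20500 * (P.Er q s / t ^ s) := by
      have : 20500 * P.Er q s / t ^ s = 20500 * (P.Er q s / t ^ s) := by ring
      rw [this]
      nlinarith
    linarith
  have hl2 : ∀ c : ℝ, 0 ≤ c → K * (c / t ^ s) * uE ≤ c * 20 * (P.Er q s / t ^ s) := by
    intro c hc0
    have h1 : 0 ≤ c / t ^ s := div_nonneg hc0 hts.le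
    have h2 : K * (c / t ^ s) * uE ≤ c / t ^ s * uE := by
      have : 0 ≤ c / t ^ s * uE := mul_nonneg h1 huE0
      nlinarith
    have h3 : c / t ^ s * uE ≤ c / t ^ s * (20 * P.Er q s) := mul_le_mul_of_nonneg_left hu h1
    have h4 : c / t ^ s * (20 * P.Er q s) = c * 20 * (P.Er q s / t ^ s) := by ring
    linarith
  have hl3 := hl2 2050 (by norm_num)
  have hl4 := hl2 1025 (by norm_num)
  have h5 : 110000 * P.Er q s / t ^ s = 110000 * (P.Er q s / t ^ s) := by ring
  rw [h5]
  have h6 : 9020 * P.hh t * P.jt t = 2 * (4510 * P.hh t * P.jt t) := by ring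
  rw [h6]
  linarith

end Pool.Agent.Lib.MP_9cae81_PC
end

section

/-! Non-degeneracy. -/

open Finset
open scoped BigOperators

namespace Pool.Agent.Lib.MP_9cae81_PC

open Pool.Agent.Lib.MP_9cae81_R

variable {L ι : Type} [Fintype L] [Nonempty L] [Fintype ι] [DecidableEq ι] (P : PF L ι)

theorem P5d_Av_mono {f g : L → ℝ} (h : ∀ l, f l ≤ g l) : Av f ≤ Av g := by
  unfold Av
  exact div_le_div_of_nonneg_right (Finset.sum_le_sum fun l _ => h l) (Nat.cast_nonneg _)

theorem P5d_Av_mul_left (a : ℝ) (f : L → ℝ) : Av (fun l => a * f l) = a * Av f := by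
  unfold Av
  rw [← Finset.mul_sum, mul_div_assoc]

theorem P5d_Av_mul_right (a : ℝ) (f : L → ℝ) : Av (fun l => f l * a) = Av f * a := by
  unfold Av
  rw [← Finset.sum_mul, div_mul_eq_mul_div]

/-- The proportion of the literals with mark at least one half. -/
theorem P5d_key (hd : Av P.d = 1) :
    1 / 4 ≤ Av (fun l => (P.d l) ^ 2) * Av (fun l => if 1 / 2 ≤ P.d l then (1 : ℝ) else 0) := by
  have hn : (0 : ℝ) < (Fintype.card L : ℝ) := by exact_mod_cast Fintype.card_pos
  have h1 : ∑ l, P.d l = (Fintype.card L : ℝ) := by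
    unfold Av at hd
    rw [div_eq_one_iff_eq hn.ne'] at hd
    exact hd
  have h2 := Finset.sum_mul_sq_le_sq_mul_sq Finset.univ P.d
    (fun l => if 1 / 2 ≤ P.d l then (1 : ℝ) else 0)
  have h3 : (Fintype.card L : ℝ) / 2 ≤
      ∑ l, P.d l * (if 1 / 2 ≤ P.d l then (1 : ℝ) else 0) := by
    have h4 : ∑ l : L, (P.d l - 1 / 2) = (Fintype.card L : ℝ) / 2 := by
      rw [Finset.sum_sub_distrib, h1]
      simp only [Finset.sum_const, Finset.card_univ, nsmul_eq_mul]
      ring
    rw [← h4]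
    refine Finset.sum_le_sum fun l _ => ?_
    split_ifs with h
    · linarith
    · push Not at h
      linarith
  have h5 : ∑ l, (if 1 / 2 ≤ P.d l then (1 : ℝ) else 0) ^ 2 =
      ∑ l, (if 1 / 2 ≤ P.d l then (1 : ℝ) else 0) := by
    refine Finset.sum_congr rfl fun l _ => ?_
    split_ifs <;> norm_num
  rw [h5] at h2
  have h6 : ((Fintype.card L : ℝ) / 2) ^ 2 ≤
      (∑ l, P.d l * (if 1 / 2 ≤ P.d l then (1 : ℝ) else 0)) ^ 2 :=
    pow_le_pow_left₀ (by positivity) h3 2
  unfold Av
  rw [div_mul_div_comm, div_le_div_iff₀ (by norm_num) (by positivity)]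
  nlinarith

/-- NON-DEGENERACY.  `Av d = 1`, `X = Av d²`: `1 ≤ 1/2 + (X p)^(1/2)`, `p = P(d ≥ 1/2)`, so
`p ≥ 1/(4X)`, `k ≥ (1/2)^s p² ≥ 1/(32 X²)`, and `1/X² ≥ 3/X0² - 2X/X0³` (tangent). -/
theorem Ks_ge (hd : Av P.d = 1) (s : ℝ) (hs : 0 < s) (hs1 : s ≤ 1) (X0 : ℝ) (hX0 : 0 < X0) :
    (1 / 32) * (3 / X0 ^ 2 - 2 * Av (fun l => (P.d l) ^ 2) / X0 ^ 3) ≤ P.Ks s := by
  have hdn : ∀ l, 0 ≤ P.d l := fun l => P.M_nonneg _ _
  set X := Av (fun l => (P.d l) ^ 2) with hX
  set p := Av (fun l => if 1 / 2 ≤ P.d l then (1 : ℝ) else 0) with hp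
  have hkey : 1 / 4 ≤ X * p := P5d_key P hd
  have hX0' : 0 ≤ X := by
    rw [hX]; unfold Av
    exact div_nonneg (Finset.sum_nonneg fun l _ => sq_nonneg _) (Nat.cast_nonneg _)
  have hXpos : 0 < X := by
    rcases hX0'.lt_or_eq with h | h
    · exact h
    · rw [← h] at hkey; norm_num at hkey
  have hpw : ∀ l l' : L, (1 / 2 : ℝ) * ((if 1 / 2 ≤ P.d l then (1 : ℝ) else 0) *
      (if 1 / 2 ≤ P.d l' then (1 : ℝ) else 0)) ≤ (min (P.d l) (P.d l')) ^ s := by
    intro l l'
    have h0 : 0 ≤ (min (P.d l) (P.d l')) ^ s := Real.rpow_nonneg (le_min (hdn l) (hdn l')) s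
    by_cases h1 : 1 / 2 ≤ P.d l
    · by_cases h2 : 1 / 2 ≤ P.d l'
      · rw [if_pos h1, if_pos h2]
        have h3 : (1 / 2 : ℝ) ^ s ≤ (min (P.d l) (P.d l')) ^ s :=
          Real.rpow_le_rpow (by norm_num) (le_min h1 h2) hs.le
        have h4 : (1 / 2 : ℝ) ^ (1 : ℝ) ≤ (1 / 2 : ℝ) ^ s :=
          Real.rpow_le_rpow_of_exponent_ge (by norm_num) (by norm_num) hs1
        rw [Real.rpow_one] at h4
        linarith
      · rw [if_neg h2]; simpa using h0
    · rw [if_neg h1]; simpa using h0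
  have hK : (1 / 2 : ℝ) * (p * p) ≤ P.Ks s := by
    have h1 : Av (fun l : L => Av (fun l' : L => (1 / 2 : ℝ) *
        ((if 1 / 2 ≤ P.d l then (1 : ℝ) else 0) * (if 1 / 2 ≤ P.d l' then (1 : ℝ) else 0)))) =
        (1 / 2 : ℝ) * (p * p) := by
      have h2 : (fun l : L => Av (fun l' : L => (1 / 2 : ℝ) *
          ((if 1 / 2 ≤ P.d l then (1 : ℝ) else 0) * (if 1 / 2 ≤ P.d l' then (1 : ℝ) else 0)))) =
          fun l : L => (1 / 2 : ℝ) * ((if 1 / 2 ≤ P.d l then (1 : ℝ) else 0) * p) := by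
        funext l
        rw [P5d_Av_mul_left, P5d_Av_mul_left]
      rw [h2, P5d_Av_mul_left, P5d_Av_mul_right]
    rw [← h1]
    unfold PF.Ks
    exact P5d_Av_mono fun l => P5d_Av_mono fun l' => hpw l l'
  have hp1 : 1 / (4 * X) ≤ p := by
    rw [div_le_iff₀ (by positivity)]
    nlinarith
  have hp2 : 1 / (16 * X ^ 2) ≤ p * p := by
    have h1 : 1 / (4 * X) * (1 / (4 * X)) ≤ p * p :=
      mul_le_mul hp1 hp1 (by positivity) (le_trans (by positivity) hp1)
    have h2 : 1 / (4 * X) * (1 / (4 * X)) = 1 / (16 * X ^ 2) := by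
      field_simp; norm_num
    rwa [h2] at h1
  have htan : 3 / X0 ^ 2 - 2 * X / X0 ^ 3 ≤ 1 / X ^ 2 := by
    have h1 : 1 / X ^ 2 - (3 / X0 ^ 2 - 2 * X / X0 ^ 3) =
        (X - X0) ^ 2 * (2 * X + X0) / (X ^ 2 * X0 ^ 3) := by
      field_simp
      ring
    have h2 : 0 ≤ (X - X0) ^ 2 * (2 * X + X0) / (X ^ 2 * X0 ^ 3) := by positivity
    linarith
  have h3 : 1 / (16 * X ^ 2) = (1 / X ^ 2) / 16 := by field_simp
  rw [h3] at hp2
  linarith

end Pool.Agent.Lib.MP_9cae81_PC
end
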