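import Pool.Agent.Lib.MP_9cae81_PC.P4e
import Pool.Agent.Lib.MP_9cae81_PC.Mg.G012
import Pool.Agent.Lib.MP_9cae81_PC.Mg.G011

section

/-! Coercivity. -/

open Finset
open scoped BigOperators

namespace Pool.Agent.Lib.MP_9cae81_PC

open Pool.Agent.Lib.MP_9cae81_R

variable {L ι : Type} [Fintype L] [Nonempty L] [Fintype ι] [DecidableEq ι] (P : PF L ι)
variable {q : ι → ℝ} {c2 β ρ : ℝ}

/-- COERCIVITY.  `hardy_Co2` with uniform weights, `δ := δ'/2`, `C = 15000`, `c = 1/1000`, `E = 0` and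
`P j := jt + ((Nt - Gt) + 200000 Er / t^s + 2 ρ) / (δ' + 15000 h)`, which is `≥ 0` and satisfies the
hypothesis by `jlemma`; then `jt_sum`, `Dev1_le`.  `144 (2 + 375000) 1000 ≤ 6 10^10`. -/
theorem co_ineq (hG : Gad P q c2 β ρ) (hc2 : 1 / 2 ≤ c2) (hc21 : c2 ≤ 1) (hβ : 0 ≤ β)
    (hc : c2 + β ≤ 11 / 5) (hρ : ρ ≤ 1 / 100) (hρ0 : 0 ≤ ρ) {δ' : ℝ} (hδ0 : 0 < δ')
    (hδ : 1 - δ' ≤ c2) (hδ1 : δ' ≤ 1) (hd : Av P.d ≤ 1) (s : ℝ) (hs : 1 / 2 ≤ s) (hs1 : s ≤ 1)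
    {τ : ℝ} (hτ : 0 < τ) (N : ℕ) :
    P.Ks s ≤ 6 * 10 ^ 10 * 2 ^ 61 * P.DevE q s + 288 * δ' * P.S1 s +
      6 * 10 ^ 10 * ∑ j ∈ range N, (MP9cae81PC.tsc τ j) ^ s *
        ((P.Nt q (MP9cae81PC.tsc τ j) - P.Gt (MP9cae81PC.tsc τ j)) /
            (δ' + 15000 * P.hh (MP9cae81PC.tsc τ j)) +
          (200000 * P.Er q s / (MP9cae81PC.tsc τ j) ^ s + 2 * ρ) / δ') +
      3 * τ ^ s + 23 * (MP9cae81PC.tsc τ N) ^ (s - 2) := by
  have hcard : (0 : ℝ) < Fintype.card L := by exact_mod_cast Fintype.card_pos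
  have hd0 : ∀ l, 0 ≤ P.d l := fun l => P.D_nonneg {P.u l}
  have ht : ∀ j, 0 < MP9cae81PC.tsc τ j := fun j => MP9cae81PC.tsc_pos hτ j
  have hs0 : 0 < s := by linarith
  -- uniform weights
  have hAv : ∀ f : L → ℝ, ∑ l, (1 / (Fintype.card L : ℝ)) * f l = Av f := by
    intro f
    unfold Av
    rw [← Finset.mul_sum]; ring
  have hhh : ∀ j, MP9cae81PC.hs' (fun _ : L => 1 / (Fintype.card L : ℝ)) P.d τ j =
      P.hh (MP9cae81PC.tsc τ j) := by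
    intro j
    unfold MP9cae81PC.hs' PF.hh
    rw [hAv]
  have hh0 : ∀ j, 0 ≤ P.hh (MP9cae81PC.tsc τ j) := by
    intro j
    unfold PF.hh Av
    refine div_nonneg (div_nonneg (Finset.sum_nonneg fun l _ => le_min (hd0 l) (ht j).le)
      hcard.le) (ht j).le
  have hden : ∀ j, 0 < δ' + 15000 * P.hh (MP9cae81PC.tsc τ j) := fun j => by
    linarith [hh0 j]
  have hEr : 0 ≤ P.Er q s := by
    unfold PF.Er
    refine Finset.sum_nonneg fun p _ => mul_nonneg (hG.nonneg p) ?_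
    refine EE_nonneg hG.nonneg fun g => ?_
    exact Real.rpow_nonneg (abs_nonneg _) _
  have hexc : ∀ j, 0 ≤ 200000 * P.Er q s / (MP9cae81PC.tsc τ j) ^ s + 2 * ρ := fun j => by
    have := Real.rpow_pos_of_pos (ht j) s
    positivity
  set Pj : ℕ → ℝ := fun j => P.jt (MP9cae81PC.tsc τ j) +
    ((P.Nt q (MP9cae81PC.tsc τ j) - P.Gt (MP9cae81PC.tsc τ j)) +
      200000 * P.Er q s / (MP9cae81PC.tsc τ j) ^ s + 2 * ρ) /
        (δ' + 15000 * P.hh (MP9cae81PC.tsc τ j)) with hPj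
  have hDe : ∀ j, 0 ≤ P.De (MP9cae81PC.tsc τ j) := by
    intro j
    unfold PF.De Av
    refine div_nonneg (Finset.sum_nonneg fun l _ => ?_) hcard.le
    split_ifs <;> norm_num
  have hmul : ∀ j, (δ' + 15000 * P.hh (MP9cae81PC.tsc τ j)) * Pj j =
      (δ' + 15000 * P.hh (MP9cae81PC.tsc τ j)) * P.jt (MP9cae81PC.tsc τ j) +
        (P.Nt q (MP9cae81PC.tsc τ j) - P.Gt (MP9cae81PC.tsc τ j)) +
      200000 * P.Er q s / (MP9cae81PC.tsc τ j) ^ s + 2 * ρ := by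
    intro j
    have h1 := (hden j).ne'
    simp only [hPj]
    rw [mul_add, mul_div_cancel₀ _ h1]
    ring
  have hjl : ∀ j, (1 / 1000) * P.De (MP9cae81PC.tsc τ j) ^ 3 ≤
      (δ' + 15000 * P.hh (MP9cae81PC.tsc τ j)) * Pj j := by
    intro j
    rw [hmul]
    exact jlemma P hG hc2 hc21 hβ hc hρ hρ0 hδ hδ1 (ht j) s hs0 hs1
  have hPj0 : ∀ j, 0 ≤ Pj j := by
    intro j
    have h1 : 0 ≤ (δ' + 15000 * P.hh (MP9cae81PC.tsc τ j)) * Pj j :=
      le_trans (by have := hDe j; positivity) (hjl j)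
    exact nonneg_of_mul_nonneg_right h1 (hden j)
  have main := MP9cae81PC.hardy_Co2 (fun _ : L => 1 / (Fintype.card L : ℝ)) P.d
    (fun _ => by positivity) (by
      have := hAv (fun _ => 1)
      simp only [mul_one] at this
      rw [this, P5a_Av_one]) hd0 (by rw [hAv]; exact hd) (θ := s) (δ := δ' / 2) (τ := τ)
    (c := 1 / 1000) (C := 15000) hs hs1 (by linarith) hτ (by norm_num) (by norm_num) N
    Pj (fun _ => 0) (fun j _ => hPj0 j) (fun _ _ => le_refl 0)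
    (fun j _ => by
      have h1 := hjl j
      rw [hhh, hAv]
      have h2 : (2 * (δ' / 2) + 15000 * P.hh (MP9cae81PC.tsc τ j)) * Pj j + 0 =
          (δ' + 15000 * P.hh (MP9cae81PC.tsc τ j)) * Pj j := by ring
      rw [h2]
      exact h1)
  have hK : ∑ i, ∑ i', 1 / (Fintype.card L : ℝ) * (1 / (Fintype.card L : ℝ)) *
      (min (P.d i) (P.d i')) ^ s = P.Ks s := by
    unfold PF.Ks
    rw [← hAv]
    refine Finset.sum_congr rfl fun i _ => ?_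
    rw [← hAv, Finset.mul_sum]
    refine Finset.sum_congr rfl fun i' _ => ?_
    ring
  rw [hK] at main
  have hS1 : ∑ i, 1 / (Fintype.card L : ℝ) * (P.d i) ^ s = P.S1 s := by
    rw [hAv]; rfl
  rw [hS1] at main
  simp only [mul_zero, Finset.sum_const_zero, add_zero] at main
  -- the production sum
  have hwj : ∀ j, 0 ≤ (MP9cae81PC.tsc τ j) ^ s := fun j => Real.rpow_nonneg (ht j).le s
  have hsumP : 0 ≤ ∑ j ∈ range N, (MP9cae81PC.tsc τ j) ^ s * Pj j :=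
    Finset.sum_nonneg fun j _ => mul_nonneg (hwj j) (hPj0 j)
  have hcoef : 144 * ((2 + 25 * 15000) / (1 / 1000)) * ∑ j ∈ range N,
      (MP9cae81PC.tsc τ j) ^ s * Pj j ≤ 6 * 10 ^ 10 * ∑ j ∈ range N,
        (MP9cae81PC.tsc τ j) ^ s * Pj j :=
    mul_le_mul_of_nonneg_right (by norm_num) hsumP
  have hsplit : ∑ j ∈ range N, (MP9cae81PC.tsc τ j) ^ s * Pj j ≤
      ∑ j ∈ range N, (MP9cae81PC.tsc τ j) ^ s * P.jt (MP9cae81PC.tsc τ j) +
      ∑ j ∈ range N, (MP9cae81PC.tsc τ j) ^ s *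
        ((P.Nt q (MP9cae81PC.tsc τ j) - P.Gt (MP9cae81PC.tsc τ j)) /
            (δ' + 15000 * P.hh (MP9cae81PC.tsc τ j)) +
          (200000 * P.Er q s / (MP9cae81PC.tsc τ j) ^ s + 2 * ρ) / δ') := by
    rw [← Finset.sum_add_distrib]
    refine Finset.sum_le_sum fun j _ => ?_
    rw [← mul_add]
    refine mul_le_mul_of_nonneg_left ?_ (hwj j)
    have h1 : (200000 * P.Er q s / (MP9cae81PC.tsc τ j) ^ s + 2 * ρ) /
        (δ' + 15000 * P.hh (MP9cae81PC.tsc τ j)) ≤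
        (200000 * P.Er q s / (MP9cae81PC.tsc τ j) ^ s + 2 * ρ) / δ' :=
      div_le_div_of_nonneg_left (hexc j) hδ0 (by linarith [hh0 j])
    have h2 : Pj j = P.jt (MP9cae81PC.tsc τ j) +
        ((P.Nt q (MP9cae81PC.tsc τ j) - P.Gt (MP9cae81PC.tsc τ j)) /
          (δ' + 15000 * P.hh (MP9cae81PC.tsc τ j)) +
        (200000 * P.Er q s / (MP9cae81PC.tsc τ j) ^ s + 2 * ρ) /
          (δ' + 15000 * P.hh (MP9cae81PC.tsc τ j))) := by
      simp only [hPj]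
      rw [← add_div]; ring
    rw [h2]
    linarith
  have hjt := jt_sum P s hs hs1 hτ N
  have hDev := Dev1_le P hG hc2 hβ hc hρ s
  have hDevE : 0 ≤ P.DevE q s := by
    unfold PF.DevE E2
    refine EE_nonneg hG.nonneg fun a => EE_nonneg hG.nonneg fun b => ?_
    exact P5a_dv_nonneg s (P.D_nonneg a) (P.D_nonneg b) _
  have hjt2 : ∑ j ∈ range N, (MP9cae81PC.tsc τ j) ^ s * P.jt (MP9cae81PC.tsc τ j) ≤
      2 ^ 61 * P.DevE q s := by
    have h1 : (2 : ℝ) ^ 52 * P.Dev1 s ≤ 2 ^ 52 * (400 * P.DevE q s) :=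
      mul_le_mul_of_nonneg_left hDev (by norm_num)
    have h2 : (2 : ℝ) ^ 52 * (400 * P.DevE q s) ≤ 2 ^ 61 * P.DevE q s := by
      rw [← mul_assoc]
      exact mul_le_mul_of_nonneg_right (by norm_num) hDevE
    linarith
  have hfin := mul_le_mul_of_nonneg_left (hsplit.trans (add_le_add_left hjt2 _))
    (show (0 : ℝ) ≤ 6 * 10 ^ 10 by norm_num)
  have h576 : 576 * (δ' / 2) * P.S1 s = 288 * δ' * P.S1 s := by ring
  rw [h576] at main
  rw [mul_add] at hfin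
  linarith

end Pool.Agent.Lib.MP_9cae81_PC
end

section

/-! The final inequality per formula. -/

open Finset
open scoped BigOperators

namespace Pool.Agent.Lib.MP_9cae81_PC

open Pool.Agent.Lib.MP_9cae81_R

private theorem P5c_alg {Cc η κ ε0 δ DE K S Er F1 F2 Sg X Y : ℝ} (hCbig : 216 ≤ Cc) (hηpos : 0 < η)
    (hη1 : η ≤ 1) (hκ : κ = 1 / (40 * Cc)) (hε0 : ε0 = η / (16 * Cc)) (hδ0 : 0 < δ)
    (hK : 0 ≤ K) (hS : 0 ≤ S) (hEr0 : 0 ≤ Er)
    (hmain : η / 2 * DE + 2 * δ * S ≤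
      (5 * η * κ + 2 * ε0) * K + 2 * F1 + 2 * F2 + (60 + 20 * η * κ) * Er)
    (hco : K ≤ Cc * DE + 288 * (3 * δ) * S + 6 * 10 ^ 10 * Sg + 3 * X + 23 * Y) :
    K ≤ 8 * Cc / η * (F1 + F2) + 320 * Cc / η * Er + 12 * 10 ^ 10 * Sg + 6 * X + 46 * Y := by
  have hCpos : 0 < Cc := by linarith
  have hκ0 : 0 < κ := by rw [hκ]; positivity
  have hηκ : η * κ ≤ 1 := by
    have : κ ≤ 1 := by
      rw [hκ, div_le_one (by positivity)]
      linarith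
    nlinarith
  have h1 : DE ≤ (2 / η) * ((5 * η * κ + 2 * ε0) * K + 2 * F1 + 2 * F2 + 80 * Er - 2 * δ * S) := by
    rw [div_mul_eq_mul_div, le_div_iff₀ hηpos]
    have h2 : η * κ * Er ≤ 1 * Er := mul_le_mul_of_nonneg_right hηκ hEr0
    linarith
  have h2 : Cc * DE ≤ Cc * ((2 / η) * ((5 * η * κ + 2 * ε0) * K + 2 * F1 + 2 * F2 + 80 * Er
      - 2 * δ * S)) := mul_le_mul_of_nonneg_left h1 hCpos.le
  have h3 : Cc * ((2 / η) * ((5 * η * κ + 2 * ε0) * K + 2 * F1 + 2 * F2 + 80 * Er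
      - 2 * δ * S)) = (Cc * (10 * κ) + Cc * (4 * ε0 / η)) * K + 4 * Cc / η * (F1 + F2) +
        160 * Cc / η * Er - 4 * (Cc / η) * (δ * S) := by
    field_simp
    ring
  have h4 : Cc * (10 * κ) = 1 / 4 := by
    rw [hκ]; field_simp; norm_num
  have h5 : Cc * (4 * ε0 / η) = 1 / 4 := by
    rw [hε0]; field_simp; norm_num
  rw [h3, h4, h5] at h2
  have h6 : 216 ≤ Cc / η := by
    rw [le_div_iff₀ hηpos]
    nlinarith
  have h7 : 0 ≤ δ * S := mul_nonneg hδ0.le hS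
  have h8 : 216 * (δ * S) ≤ Cc / η * (δ * S) := mul_le_mul_of_nonneg_right h6 h7
  have h9 : 8 * Cc / η * (F1 + F2) = 2 * (4 * Cc / η * (F1 + F2)) := by ring
  have h10 : 320 * Cc / η * Er = 2 * (160 * Cc / η * Er) := by ring
  rw [h9, h10]
  linarith

/-- THE FINAL INEQUALITY per formula.  From `main_ineq`:
`DevE ≤ (2/η) [(5ηκ + 2ε) k + 2 F1 + 2 F2 + 80 Er - 2 δ S1]`, inserted in `co_ineq` with `δ' = 3 δ`,
`Cc = 6 10^10 2^61`.  `κ = 1/(40 Cc)`, `η` from `Kt_le κ` (and `η ≤ 1/4`), `ε0 = η/(16 Cc)`: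
the coefficient of `k` is `Cc (10 κ + 4 ε0/η) ≤ 1/2`, that of `S1` is `-4 Cc δ/η + 864 δ ≤ 0`.
Result with `A1 = 8 Cc/η`, `A2 = 320 Cc/η`, `A3 = 12 10^10`. -/
theorem final_ineq : ∃ η ε0 A1 A2 A3 : ℝ, 0 < η ∧ η ≤ 1 / 4 ∧ 0 < ε0 ∧ ε0 ≤ 1 / 5 ∧ 0 < A1 ∧
    0 < A2 ∧ 0 < A3 ∧
    ∀ (L ι : Type) [Fintype L] [Nonempty L] [Fintype ι] [DecidableEq ι] (P : PF L ι) (q : ι → ℝ)
      (c2 β ρ δ : ℝ), Gad P q c2 β ρ → 0 < δ → δ ≤ 1 / 10 → 1 - 3 * δ ≤ c2 → c2 ≤ 1 - δ → 0 ≤ β →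
      β ≤ 1 + ε0 → 0 ≤ ρ → ρ ≤ 1 / 100 → Av P.d ≤ 1 → ∀ (τ : ℝ), 0 < τ → ∀ N : ℕ,
      P.Ks (1 - η) ≤
        A1 * ((P.S1 (1 - η) - E2 q (fun a b => (P.dx a b) ^ (1 - η))) +
          (P.Rs (1 - η) - E2 q (fun a b => (P.M a b) ^ (1 - η)))) +
        A2 * P.Er q (1 - η) +
        A3 * ∑ j ∈ range N, (MP9cae81PC.tsc τ j) ^ (1 - η) *
          ((P.Nt q (MP9cae81PC.tsc τ j) - P.Gt (MP9cae81PC.tsc τ j)) /
              (3 * δ + 15000 * P.hh (MP9cae81PC.tsc τ j)) +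
            (200000 * P.Er q (1 - η) / (MP9cae81PC.tsc τ j) ^ (1 - η) + 2 * ρ) / (3 * δ)) +
        6 * τ ^ (1 - η) + 46 * (MP9cae81PC.tsc τ N) ^ (-(1 + η)) := by
  set Cc : ℝ := 6 * 10 ^ 10 * 2 ^ 61 with hCc
  have hCpos : 0 < Cc := by rw [hCc]; positivity
  have hCbig : 216 ≤ Cc := by rw [hCc]; norm_num
  set κ : ℝ := 1 / (40 * Cc) with hκ
  have hκ0 : 0 < κ := by rw [hκ]; positivity
  obtain ⟨η0, hη00, hη02, hKt⟩ := MP9cae81PC.Kt_le κ hκ0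
  set η : ℝ := min η0 (1 / 4) with hη
  have hηpos : 0 < η := lt_min hη00 (by norm_num)
  have hη4 : η ≤ 1 / 4 := min_le_right _ _
  have hηη0 : η ≤ η0 := min_le_left _ _
  set ε0 : ℝ := η / (16 * Cc) with hε0
  have hε0pos : 0 < ε0 := by rw [hε0]; positivity
  have hε05 : ε0 ≤ 1 / 5 := by
    rw [hε0, div_le_div_iff₀ (by positivity) (by norm_num)]
    linarith
  refine ⟨η, ε0, 8 * Cc / η, 320 * Cc / η, 12 * 10 ^ 10, hηpos, hη4, hε0pos, hε05,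
    by positivity, by positivity, by norm_num, ?_⟩
  intro L ι _ _ _ _ P q c2 β ρ δ hG hδ0 hδ1 hc2l hc2u hβ0 hβ1 hρ0 hρ1 hd τ hτ N
  set s : ℝ := 1 - η with hs
  have hq := hG.nonneg
  have hM0 : ∀ g h, 0 ≤ P.M g h := by
    intro g h
    have h1 := P.mono ∅ g ∅ h (Finset.empty_subset _) (Finset.empty_subset _)
    rw [P.empty] at h1
    exact h1
  have hKs0 : 0 ≤ P.Ks s := by
    unfold PF.Ks Av
    refine div_nonneg (Finset.sum_nonneg fun l _ => ?_) (by positivity)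
    refine div_nonneg (Finset.sum_nonneg fun l' _ => ?_) (by positivity)
    exact Real.rpow_nonneg (le_min (hM0 _ _) (hM0 _ _)) _
  have hS10 : 0 ≤ P.S1 s := by
    unfold PF.S1 Av
    refine div_nonneg (Finset.sum_nonneg fun l _ => ?_) (by positivity)
    exact Real.rpow_nonneg (hM0 _ _) _
  have hEr0 : 0 ≤ P.Er q s := by
    unfold PF.Er
    refine Finset.sum_nonneg fun p _ => mul_nonneg (hq p) (EE_nonneg hq fun g => ?_)
    exact Real.rpow_nonneg (abs_nonneg _) _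
  have hc : c2 + β ≤ 11 / 5 := by linarith
  have hmain := main_ineq P hG (by linarith) hβ0 hc η κ δ ε0 hηpos (by linarith) hκ0
    (hKt η hηpos hηη0) hc2u hβ1 hε0pos.le
  have hco := co_ineq P hG (by linarith) (by linarith) hβ0 hc hρ1 hρ0 (δ' := 3 * δ)
    (by linarith) hc2l (by linarith) hd s (by linarith) (by linarith) hτ N
  rw [← hs] at hmain
  rw [← hCc] at hco
  have hexp : s - 2 = -(1 + η) := by rw [hs]; ring
  rw [hexp] at hco
  set DE := P.DevE q s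
  set K := P.Ks s
  set S := P.S1 s
  set Er := P.Er q s
  set F1 := P.S1 s - E2 q (fun a b => (P.dx a b) ^ s)
  set F2 := P.Rs s - E2 q (fun a b => (P.M a b) ^ s)
  set Sg := ∑ j ∈ range N, (MP9cae81PC.tsc τ j) ^ s *
    ((P.Nt q (MP9cae81PC.tsc τ j) - P.Gt (MP9cae81PC.tsc τ j)) /
      (3 * δ + 15000 * P.hh (MP9cae81PC.tsc τ j)) +
      (200000 * Er / (MP9cae81PC.tsc τ j) ^ s + 2 * ρ) / (3 * δ))
  set X := τ ^ s
  set Y := (MP9cae81PC.tsc τ N) ^ (-(1 + η))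
  have hη4' : η ≤ 1 := by linarith
  exact P5c_alg hCbig hηpos hη4' hκ hε0 hδ0 hKs0 hS10 hEr0 hmain hco

end Pool.Agent.Lib.MP_9cae81_PC
end
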