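import Pool.Agent.Lib.MP_9cae81_PC.Mg.G005
import Pool.Agent.Lib.MP_9cae81_PC.Mg.G014
import Pool.Agent.Lib.MP_9cae81_PC.Mg.G013
import Pool.Agent.Lib.MP_9cae81_PC.Mg.G003
import Pool.Agent.Lib.MP_9cae81_PC.Mg.G002

section

/-!
# From the interface to the contradiction
-/

set_option autoImplicit false

open Finset Filter
open scoped BigOperators Topology

namespace Pool.Agent.Lib.MP_9cae81_PC

open Pool.Agent.Lib.MP_9cae81_R

/-! ### The window -/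

theorem IfD_window {ε : ℝ} (hε : 0 < ε) (hε1 : ε ≤ 1 / 2) : ∃ N0 : ℕ, ∀ N : ℕ, N0 ≤ N → 1 ≤ N ∧
    ∀ n ∈ Finset.Icc (N - MW N) (N + MW N), 1 ≤ n ∧
      (1 - ε) * (N : ℝ) ≤ n ∧ (n : ℝ) ≤ (1 + ε) * N := by
  obtain ⟨N1, hN1⟩ := exists_nat_gt ((1 / ε) ^ (4 : ℕ))
  refine ⟨max N1 1, fun N hN => ?_⟩
  have hN2 : N1 ≤ N := le_trans (le_max_left _ _) hN
  have hN3 : 1 ≤ N := le_trans (le_max_right _ _) hN
  have hNr : (1 : ℝ) ≤ N := by exact_mod_cast hN3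
  have hNp : (0 : ℝ) < N := by linarith
  have h1 : (1 / ε) ^ (4 : ℕ) ≤ (N : ℝ) := by
    have : (N1 : ℝ) ≤ N := by exact_mod_cast hN2
    linarith
  have h2 : (1 / ε) ≤ (N : ℝ) ^ (1 / 4 : ℝ) := by
    have h3 : ((1 / ε) ^ (4 : ℕ)) ^ (1 / 4 : ℝ) ≤ (N : ℝ) ^ (1 / 4 : ℝ) :=
      Real.rpow_le_rpow (by positivity) h1 (by norm_num)
    have h4 : ((1 / ε) ^ (4 : ℕ)) ^ (1 / 4 : ℝ) = 1 / ε := by
      rw [← Real.rpow_natCast, ← Real.rpow_mul (by positivity)]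
      norm_num
    rwa [h4] at h3
  have h3 : (N : ℝ) ^ (3 / 4 : ℝ) * (N : ℝ) ^ (1 / 4 : ℝ) = N := by
    rw [← Real.rpow_add hNp]; norm_num
  have h4 : (N : ℝ) ^ (3 / 4 : ℝ) ≤ ε * N := by
    have h5 : 0 ≤ (N : ℝ) ^ (3 / 4 : ℝ) := by positivity
    have h6 : 1 ≤ ε * (N : ℝ) ^ (1 / 4 : ℝ) := by
      rw [div_le_iff₀ hε] at h2
      linarith
    calc (N : ℝ) ^ (3 / 4 : ℝ) ≤ (N : ℝ) ^ (3 / 4 : ℝ) * (ε * (N : ℝ) ^ (1 / 4 : ℝ)) :=
          le_mul_of_one_le_right h5 h6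
      _ = ε * ((N : ℝ) ^ (3 / 4 : ℝ) * (N : ℝ) ^ (1 / 4 : ℝ)) := by ring
      _ = ε * N := by rw [h3]
  have h5 : (MW N : ℝ) ≤ ε * N := le_trans (Nat.floor_le (by positivity)) h4
  refine ⟨hN3, fun n hn => ?_⟩
  rw [Finset.mem_Icc] at hn
  obtain ⟨ha, hb⟩ := hn
  have ha' : (N : ℝ) ≤ n + MW N := by exact_mod_cast (by omega : N ≤ n + MW N)
  have hb' : (n : ℝ) ≤ N + MW N := by exact_mod_cast hb
  have hc : (1 - ε) * (N : ℝ) ≤ n := by nlinarith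
  refine ⟨?_, hc, by nlinarith⟩
  have : (0 : ℝ) < n := by nlinarith
  exact_mod_cast this

/-! ### Sums -/

theorem IfD_Br_sum (N : ℕ) (x y : ℝ) (s : Finset ℕ) (g : ℕ → (n : ℕ) → As (Fin n) → ℝ) :
    Br N x y (fun n S => ∑ j ∈ s, g j n S) = ∑ j ∈ s, Br N x y (g j) := by
  classical
  induction s using Finset.induction_on with
  | empty =>
    simp only [Finset.sum_empty]
    have := B2.Br_mul (N := N) (x := x) (y := y) 0 (fun _ _ => (0 : ℝ))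
    simpa using this
  | insert a s ha ih =>
    simp only [Finset.sum_insert ha]
    rw [B2.Br_add (fun n S => g a n S) (fun n S => ∑ j ∈ s, g j n S), ih]

theorem IfD_Br_expand (N : ℕ) (x y A1 A2 A3 a B : ℝ) (s : Finset ℕ) (c r : ℕ → ℝ)
    (g1 g2 g4 g0 : (n : ℕ) → As (Fin n) → ℝ) (g3 : ℕ → (n : ℕ) → As (Fin n) → ℝ) :
    Br N x y (fun n S => A1 * (g1 n S + g2 n S) + A2 * g4 n S +
      A3 * ∑ j ∈ s, (c j * g3 j n S + (a * g4 n S + r j * g0 n S)) + B * g0 n S) =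
    A1 * (Br N x y g1 + Br N x y g2) + A2 * Br N x y g4 +
      A3 * ∑ j ∈ s, (c j * Br N x y (g3 j) + (a * Br N x y g4 + r j * Br N x y g0)) +
      B * Br N x y g0 := by
  rw [B2.Br_add (fun n S => A1 * (g1 n S + g2 n S) + A2 * g4 n S +
      A3 * ∑ j ∈ s, (c j * g3 j n S + (a * g4 n S + r j * g0 n S))) (fun n S => B * g0 n S),
    B2.Br_add (fun n S => A1 * (g1 n S + g2 n S) + A2 * g4 n S)
      (fun n S => A3 * ∑ j ∈ s, (c j * g3 j n S + (a * g4 n S + r j * g0 n S))),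
    B2.Br_add (fun n S => A1 * (g1 n S + g2 n S)) (fun n S => A2 * g4 n S),
    B2.Br_mul A1, B2.Br_mul A2, B2.Br_mul A3, B2.Br_mul B, B2.Br_add g1 g2,
    IfD_Br_sum N x y s (fun j n S => c j * g3 j n S + (a * g4 n S + r j * g0 n S))]
  congr 3
  refine Finset.sum_congr rfl fun j _ => ?_
  rw [B2.Br_add (fun n S => c j * g3 j n S) (fun n S => a * g4 n S + r j * g0 n S),
    B2.Br_add (fun n S => a * g4 n S) (fun n S => r j * g0 n S), B2.Br_mul, B2.Br_mul, B2.Br_mul]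

/-! ### One state -/

section

variable {q : ℝ} (hq : 0 < q) (hq1 : q < 1)

include hq hq1 in
theorem IfD_ss_nonneg {V : Type} [Fintype V] [Nonempty V] (S : As V) : 0 ≤ ss q S :=
  (AS V).s_nonneg hq.le hq1 S

include hq hq1 in
theorem IfD_ss_le_one {V : Type} [Fintype V] [Nonempty V] (S : As V) : ss q S ≤ 1 :=
  (AS V).s_le_one hq.le hq1 S

include hq hq1 in
theorem IfD_ss_empty {V : Type} [Fintype V] [Nonempty V] : ss q (∅ : As V) = 0 :=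
  (AS V).s_of_un hq.le hq1 una_emp

/-- The final inequality of one state, times `ω`. -/
theorem IfD_upper {η ε0 A1 A2 A3 : ℝ}
    (H : ∀ (L ι : Type) [Fintype L] [Nonempty L] [Fintype ι] [DecidableEq ι] (P : PF L ι)
      (q : ι → ℝ) (c2 β ρ δ : ℝ), Gad P q c2 β ρ → 0 < δ → δ ≤ 1 / 10 → 1 - 3 * δ ≤ c2 →
      c2 ≤ 1 - δ → 0 ≤ β → β ≤ 1 + ε0 → 0 ≤ ρ → ρ ≤ 1 / 100 → Av P.d ≤ 1 → ∀ (τ : ℝ), 0 < τ →
      ∀ N : ℕ, P.Ks (1 - η) ≤
        A1 * ((P.S1 (1 - η) - E2 q (fun a b => (P.dx a b) ^ (1 - η))) +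
          (P.Rs (1 - η) - E2 q (fun a b => (P.M a b) ^ (1 - η)))) +
        A2 * P.Er q (1 - η) +
        A3 * ∑ j ∈ range N, (MP9cae81PC.tsc τ j) ^ (1 - η) *
          ((P.Nt q (MP9cae81PC.tsc τ j) - P.Gt (MP9cae81PC.tsc τ j)) /
              (3 * δ + 15000 * P.hh (MP9cae81PC.tsc τ j)) +
            (200000 * P.Er q (1 - η) / (MP9cae81PC.tsc τ j) ^ (1 - η) + 2 * ρ) / (3 * δ)) +
        6 * τ ^ (1 - η) + 46 * (MP9cae81PC.tsc τ N) ^ (-(1 + η)))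
    {δ v w : ℝ} (hδ : 0 < δ) (hδ1 : δ ≤ 1 / 10) (hv : 0 ≤ v) (hw : 0 ≤ w) {n : ℕ}
    (h1 : 1 - 3 * δ ≤ (2 * v + 3 * w) * (2 * ((n + 1 : ℕ) : ℝ)))
    (h2 : (2 * v + 3 * w) * (2 * ((n + 1 : ℕ) : ℝ)) ≤ 1 - δ)
    (h3 : (3 * w) * (2 * ((n + 1 : ℕ) : ℝ)) ^ 2 ≤ 1 + ε0) (h4 : 2 * v + 3 * w ≤ 1 / 100)
    {τ : ℝ} (hτ : 0 < τ) (J : ℕ) (S : As (Fin (n + 1))) :
    ss q S ^ 3 * (PFS hq hq1 S).Ks (1 - η) ≤
      A1 * (H1f hq hq1 (1 - η) v w (n + 1) S + H2f hq hq1 (1 - η) v w (n + 1) S) +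
      A2 * H4f hq hq1 (1 - η) v w (n + 1) S +
      A3 * ∑ j ∈ range J, ((MP9cae81PC.tsc τ j) ^ (1 - η) *
          H3f hq hq1 δ (MP9cae81PC.tsc τ j) v w (n + 1) S +
        (200000 / (3 * δ) * H4f hq hq1 (1 - η) v w (n + 1) S +
          2 * (2 * v + 3 * w) * (MP9cae81PC.tsc τ j) ^ (1 - η) / (3 * δ) * ss q S ^ 3)) +
      (6 * τ ^ (1 - η) + 46 * (MP9cae81PC.tsc τ J) ^ (-(1 + η))) * ss q S ^ 3 := by
  have hω : 0 ≤ ss q S ^ 3 := pow_nonneg (IfD_ss_nonneg hq hq1 S) 3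
  have hg := PFS_gad hq hq1 S hv hw zero_le_one
  have hcard : (Fintype.card (Lt (Fin (n + 1))) : ℝ) = 2 * ((n + 1 : ℕ) : ℝ) := by
    simp [Lt, Fintype.card_prod, mul_comm]
  rw [hcard, one_mul, one_mul] at hg
  have hK := H (Lt (Fin (n + 1))) (Cl (Fin (n + 1))) (PFS hq hq1 S) (gq v w 1) _ _ _ δ hg hδ hδ1 h1 h2
    (by positivity) h3 (by positivity) h4 (PFS_Av_d_le hq hq1 S) τ hτ J
  have hK2 := mul_le_mul_of_nonneg_left hK hω
  refine hK2.trans (le_of_eq ?_)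
  have e1 : H1f hq hq1 (1 - η) v w (n + 1) S = ss q S ^ 3 * ((PFS hq hq1 S).S1 (1 - η) -
    E2 (gq v w 1) (fun a b => ((PFS hq hq1 S).dx a b) ^ (1 - η))) := rfl
  have e2 : H2f hq hq1 (1 - η) v w (n + 1) S = ss q S ^ 3 * ((PFS hq hq1 S).Rs (1 - η) -
    E2 (gq v w 1) (fun a b => ((PFS hq hq1 S).M a b) ^ (1 - η))) := rfl
  have e3 : ∀ t, H3f hq hq1 δ t v w (n + 1) S = ss q S ^ 3 *
    (((PFS hq hq1 S).Nt (gq v w 1) t - (PFS hq hq1 S).Gt t) /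
    (3 * δ + 15000 * (PFS hq hq1 S).hh t)) := fun t => rfl
  have e4 : H4f hq hq1 (1 - η) v w (n + 1) S =
    ss q S ^ 3 * (PFS hq hq1 S).Er (gq v w 1) (1 - η) := rfl
  have e5 : ∀ j ∈ range J, ss q S ^ 3 * ((MP9cae81PC.tsc τ j) ^ (1 - η) *
          (((PFS hq hq1 S).Nt (gq v w 1) (MP9cae81PC.tsc τ j) -
              (PFS hq hq1 S).Gt (MP9cae81PC.tsc τ j)) /
              (3 * δ + 15000 * (PFS hq hq1 S).hh (MP9cae81PC.tsc τ j)) +
            (200000 * (PFS hq hq1 S).Er (gq v w 1) (1 - η) / (MP9cae81PC.tsc τ j) ^ (1 - η) +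
              2 * (2 * v + 3 * w)) / (3 * δ))) =
      (MP9cae81PC.tsc τ j) ^ (1 - η) *
          H3f hq hq1 δ (MP9cae81PC.tsc τ j) v w (n + 1) S +
        (200000 / (3 * δ) * H4f hq hq1 (1 - η) v w (n + 1) S +
          2 * (2 * v + 3 * w) * (MP9cae81PC.tsc τ j) ^ (1 - η) / (3 * δ) * ss q S ^ 3) := by
    intro j _
    have ht : 0 < (MP9cae81PC.tsc τ j) ^ (1 - η) :=
      Real.rpow_pos_of_pos (MP9cae81PC.tsc_pos hτ j) _
    rw [e3, e4]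
    field_simp
  rw [← Finset.sum_congr rfl e5, ← Finset.mul_sum, e1, e2, e4]
  ring

/-- The lower bound of one state, times `ω`. -/
theorem IfD_lower {s : ℝ} (hs : 0 < s) (hs1 : s ≤ 1) {X0 : ℝ} (hX0 : 0 < X0) {n : ℕ}
    (S : As (Fin (n + 1))) :
    3 / (32 * X0 ^ 2) * ss q S ^ 3 - 1 / (16 * X0 ^ 3) * H5f hq hq1 (n + 1) S ≤
      ss q S ^ 3 * (PFS hq hq1 S).Ks s := by
  have hω : 0 ≤ ss q S ^ 3 := pow_nonneg (IfD_ss_nonneg hq hq1 S) 3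
  have e5 : H5f hq hq1 (n + 1) S = ss q S ^ 3 * Av (fun a => ((PFS hq hq1 S).d a) ^ 2) := rfl
  by_cases hS : S = ∅
  · have h0 : ss q S = 0 := by rw [hS]; exact IfD_ss_empty hq hq1
    rw [e5, h0]
    simp
  · have h1 := mul_le_mul_of_nonneg_left (Ks_ge (PFS hq hq1 S) (PFS_Av_d hq hq1 S hS) s hs hs1 X0 hX0)
      hω
    refine le_trans (le_of_eq ?_) h1
    rw [e5]
    field_simp
    ring

end

/-! ### The contradiction -/

/-- The choice of the scale `τ`. -/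
theorem IfD_tau {κ s : ℝ} (hκ : 0 < κ) (hs : 0 < s) : ∃ τ : ℝ, 0 < τ ∧ 6 * τ ^ s ≤ κ / 8 := by
  refine ⟨(κ / 48) ^ (1 / s), Real.rpow_pos_of_pos (by positivity) _, ?_⟩
  rw [← Real.rpow_mul (by positivity), one_div_mul_cancel hs.ne', Real.rpow_one]
  linarith

/-- The choice of the number of scales. -/
theorem IfD_J {κ τ η : ℝ} (hκ : 0 < κ) (hτ : 0 < τ) (hη : 0 < η) :
    ∃ J : ℕ, 46 * (MP9cae81PC.tsc τ J) ^ (-(1 + η)) ≤ κ / 8 := by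
  obtain ⟨J, hJ⟩ := pow_unbounded_of_one_lt ((1 + 368 / κ) / τ) (by norm_num : (1 : ℝ) < 2)
  refine ⟨J, ?_⟩
  have h1 : 1 + 368 / κ < MP9cae81PC.tsc τ J := by
    unfold MP9cae81PC.tsc
    rw [div_lt_iff₀ hτ] at hJ
    linarith
  have h2 : (0 : ℝ) < 368 / κ := by positivity
  have h3 : 1 ≤ MP9cae81PC.tsc τ J := by linarith
  have h4 : (MP9cae81PC.tsc τ J) ^ (-(1 + η)) ≤ (MP9cae81PC.tsc τ J) ^ (-1 : ℝ) :=
    Real.rpow_le_rpow_of_exponent_le h3 (by linarith)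
  rw [Real.rpow_neg_one] at h4
  have h5 : (MP9cae81PC.tsc τ J)⁻¹ ≤ (368 / κ)⁻¹ :=
    inv_anti₀ h2 (by linarith)
  rw [inv_div] at h5
  linarith

/-- The parameters of the gadgets on the window. -/
theorem IfD_param {δ ε ε0 N n y v w : ℝ} (hδ : 0 < δ) (hδ20 : δ ≤ 1 / 20) (hN : 1 ≤ N)
    (hNδ : 3 / δ ≤ N) (hy0 : 0 ≤ y) (hy : y ≤ 2 / 3 * (1 + ε0 / 2)) (hε0 : 0 < ε0)
    (hε5 : ε0 ≤ 1 / 5) (hε : 0 < ε) (hεδ : ε ≤ δ / 2) (hεε : ε ≤ ε0 / 8)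
    (hv : v = (1 - 2 * δ) / (4 * N)) (hw : w = y / (8 * N ^ 2))
    (hlo : (1 - ε) * N ≤ n) (hhi : n ≤ (1 + ε) * N) :
    1 - 3 * δ ≤ (2 * v + 3 * w) * (2 * n) ∧ (2 * v + 3 * w) * (2 * n) ≤ 1 - δ ∧
      (3 * w) * (2 * n) ^ 2 ≤ 1 + ε0 := by
  have hNpos : 0 < N := by linarith
  obtain ⟨r, hr⟩ : ∃ r, r = n / N := ⟨_, rfl⟩
  have hr1 : 1 - ε ≤ r := by rw [hr, le_div_iff₀ hNpos]; exact hlo
  have hr2 : r ≤ 1 + ε := by rw [hr, div_le_iff₀ hNpos]; exact hhi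
  have hc2 : (2 * v + 3 * w) * (2 * n) = (1 - 2 * δ) * r + 3 / 4 * y * r / N := by
    rw [hv, hw, hr]; field_simp; ring
  have hbe : (3 * w) * (2 * n) ^ 2 = 3 / 2 * y * r ^ 2 := by
    rw [hw, hr]; field_simp; ring
  have hyle : y ≤ 1 := by linarith
  have hr0 : 0 ≤ r := by linarith
  have hr3 : r ≤ 2 := by linarith
  have hyr : y * r ≤ 1 * 2 := mul_le_mul hyle hr3 hr0 zero_le_one
  have hsm : 3 / 4 * y * r / N ≤ δ / 2 := by
    rw [div_le_iff₀ hNpos]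
    rw [div_le_iff₀ hδ] at hNδ
    linarith
  have hsm0 : 0 ≤ 3 / 4 * y * r / N := by positivity
  have hd0 : 0 ≤ 1 - 2 * δ := by linarith
  have hd1 : 1 - 2 * δ ≤ 1 := by linarith
  have a1 : (1 - 2 * δ) * (1 - ε) ≤ (1 - 2 * δ) * r := mul_le_mul_of_nonneg_left hr1 hd0
  have a2 : (1 - 2 * δ) * r ≤ (1 - 2 * δ) * (1 + ε) := mul_le_mul_of_nonneg_left hr2 hd0
  have a3 : 0 ≤ δ * ε := by positivity
  refine ⟨?_, ?_, ?_⟩
  · rw [hc2]; nlinarith only [a1, a3, hsm0, hεδ, hδ]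
  · rw [hc2]; nlinarith only [a2, a3, hsm, hεδ, hδ]
  · rw [hbe]
    have h1 : 3 / 2 * y ≤ 1 + ε0 / 2 := by linarith
    have h2 : r ^ 2 ≤ (1 + ε) ^ 2 := pow_le_pow_left₀ hr0 hr2 2
    have h3 : (1 + ε) ^ 2 ≤ 1 + 3 * ε := by nlinarith only [hε, hεε, hε5]
    calc 3 / 2 * y * r ^ 2 ≤ (1 + ε0 / 2) * (1 + 3 * ε) :=
          mul_le_mul h1 (h2.trans h3) (by positivity) (by positivity)
      _ ≤ 1 + ε0 := by nlinarith only [hε, hεε, hε5, hε0]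

theorem IfD_rho {δ N y : ℝ} (hδ : 0 < δ) (hN : 1 ≤ N) (hy0 : 0 ≤ y)
    (hy : y ≤ 1) : 2 * ((1 - 2 * δ) / (4 * N)) + 3 * (y / (8 * N ^ 2)) ≤ 1 / N := by
  have hNpos : 0 < N := by linarith
  have h1 : 2 * ((1 - 2 * δ) / (4 * N)) + 3 * (y / (8 * N ^ 2)) =
      ((1 - 2 * δ) / 2 + 3 * y / (8 * N)) * (1 / N) := by field_simp; ring
  rw [h1]
  have h2 : 3 * y / (8 * N) ≤ 3 / 8 := by
    rw [div_le_iff₀ (by positivity)]
    nlinarith only [hN, hy, hy0]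
  have h3 : (1 - 2 * δ) / 2 + 3 * y / (8 * N) ≤ 1 := by linarith
  exact mul_le_of_le_one_left (by positivity) h3

theorem IfD_Nrho {A E δ κ N m : ℝ} (hκ : 0 < κ) (hN : 0 < N) (hm : 0 < m)
    (h : A * (2 * E / (3 * δ)) * (8 / κ) ≤ N) :
    A * ((1 / N) * (2 * E / (3 * δ)) * m) ≤ κ / 8 * m := by
  obtain ⟨X, hX⟩ : ∃ X, X = A * (2 * E / (3 * δ)) := ⟨_, rfl⟩
  have e : A * ((1 / N) * (2 * E / (3 * δ)) * m) = (X / N) * m := by rw [hX]; ring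
  rw [e]
  refine mul_le_mul_of_nonneg_right ?_ hm.le
  rw [div_le_iff₀ hN]
  rw [← hX] at h
  have h3 : X = X * (8 / κ) * (κ / 8) := by field_simp
  rw [h3]
  calc X * (8 / κ) * (κ / 8) ≤ N * (κ / 8) := mul_le_mul_of_nonneg_right h (by positivity)
    _ = κ / 8 * N := by ring

/-- The final arithmetic. -/
theorem IfD_arith {κ m W h1 h2 h4 h5 Sg B A1 A2 A3 a b K err p1 p2 p3 : ℝ}
    (hBr : a * W + b * h5 ≤ A1 * (h1 + h2) + A2 * h4 + A3 * Sg + B * W)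
    (hlow : κ * m ≤ a * W + b * h5) (hB : B * W ≤ κ / 4 * m)
    (hA : A1 * (h1 + h2) ≤ A1 * (2 * (err * m))) (hA' : A2 * h4 ≤ A2 * (err * m))
    (hA'' : A3 * Sg ≤ A3 * (p1 * (err * m) + p2 * (err * m) + p3))
    (hN : A3 * p3 ≤ κ / 8 * m)
    (hK : K = 2 * A1 + A2 + A3 * (p1 + p2)) (herr : K * err ≤ κ / 8) (hm : 0 < m) (hκ : 0 < κ) :
    False := by
  have hKm : K * err * m ≤ κ / 8 * m := mul_le_mul_of_nonneg_right herr hm.le
  have hKe : K * err * m = A1 * (2 * (err * m)) + A2 * (err * m) +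
      A3 * (p1 * (err * m) + p2 * (err * m)) := by
    rw [hK]; ring
  have e1 : A3 * (p1 * (err * m) + p2 * (err * m) + p3) =
      A3 * (p1 * (err * m) + p2 * (err * m)) + A3 * p3 := by ring
  have h0 : 0 < κ * m := by positivity
  have h6 : κ * m ≤ κ / 8 * m + κ / 8 * m + κ / 4 * m := by linarith
  linarith

/-- THE CONTRADICTION at one large `N`: there are absolute `η`, `ε0` such that for every `δ`, `C`,
`c` there is a finite list `T` of scales and an `err > 0` for which `Hyp` fails for all large `N` and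
all `y ≤ (2/3)(1 + ε0)`. -/
theorem br_final : ∃ η ε0 : ℝ, 0 < η ∧ η ≤ 1 / 4 ∧ 0 < ε0 ∧ ε0 ≤ 1 / 4 ∧
    ∀ δ : ℝ, 0 < δ → δ ≤ 1 / 20 → ∀ C c : ℝ, 0 < C → 0 < c →
      ∃ T : Finset ℝ, (∀ t ∈ T, 0 < t) ∧ ∃ err : ℝ, 0 < err ∧ ∃ N0 : ℕ,
        ∀ (q : ℝ) (hq : 0 < q) (hq1 : q < 1) (N : ℕ) (y : ℝ), N0 ≤ N → 0 ≤ y →
          y ≤ 2 / 3 * (1 + ε0) → ¬ Hyp hq hq1 N (1 - 2 * δ) y (1 - η) δ T err C c := by
  obtain ⟨η, ε0, A1, A2, A3, hη, hη4, hε0, hε5, hA1, hA2, hA3, H⟩ := final_ineq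
  refine ⟨η, ε0 / 2, hη, hη4, by positivity, by linarith, fun δ hδ hδ20 C c hC hc => ?_⟩
  have hs : 0 < 1 - η := by linarith
  obtain ⟨κ, hκdef⟩ : ∃ κ : ℝ, κ = c ^ 3 / (32 * C ^ 2) := ⟨_, rfl⟩
  have hκ : 0 < κ := by rw [hκdef]; positivity
  obtain ⟨τ, hτ, hτ8⟩ := IfD_tau hκ hs
  obtain ⟨J, hJ⟩ := IfD_J hκ hτ hη
  -- the sums of the coefficients
  obtain ⟨E1, hE1⟩ : ∃ E : ℝ, E = ∑ j ∈ range J, (MP9cae81PC.tsc τ j) ^ (1 - η) := ⟨_, rfl⟩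
  have hcj : ∀ j, 0 ≤ (MP9cae81PC.tsc τ j) ^ (1 - η) := fun j =>
    Real.rpow_nonneg (MP9cae81PC.tsc_pos hτ j).le _
  have hE10 : 0 ≤ E1 := by rw [hE1]; exact Finset.sum_nonneg fun j _ => hcj j
  obtain ⟨K, hK⟩ : ∃ K : ℝ, K = 2 * A1 + A2 + A3 * (E1 + J * (200000 / (3 * δ))) := ⟨_, rfl⟩
  have hK0 : 0 ≤ K := by rw [hK]; positivity
  obtain ⟨err, herr⟩ : ∃ e : ℝ, e = κ / (8 * (K + 1)) := ⟨_, rfl⟩
  have herr0 : 0 < err := by rw [herr]; positivity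
  have herrK : K * err ≤ κ / 8 := by
    have h1 : (K + 1) * err = κ / 8 := by rw [herr]; field_simp
    linarith
  -- the window
  obtain ⟨ε, hεdef⟩ : ∃ e : ℝ, e = min (δ / 2) (ε0 / 8) := ⟨_, rfl⟩
  have hε1 : ε ≤ δ / 2 := by rw [hεdef]; exact min_le_left _ _
  have hε2 : ε ≤ ε0 / 8 := by rw [hεdef]; exact min_le_right _ _
  have hε3 : 0 < ε := by rw [hεdef]; exact lt_min (by positivity) (by positivity)
  obtain ⟨N1, hN1⟩ := IfD_window hε3 (by linarith)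
  obtain ⟨N2, hN2⟩ := exists_nat_gt (3 / δ + 100 + A3 * (2 * E1 / (3 * δ)) * (8 / κ))
  refine ⟨(range J).image (MP9cae81PC.tsc τ), ?_, err, herr0, max N1 N2, ?_⟩
  · intro t ht
    obtain ⟨j, -, rfl⟩ := Finset.mem_image.1 ht
    exact MP9cae81PC.tsc_pos hτ j
  intro q hq hq1 N y hN hy0 hy1 hH
  obtain ⟨hNone, hwin⟩ := hN1 N (le_trans (le_max_left _ _) hN)
  have hNp : (1 : ℝ) ≤ N := by exact_mod_cast hNone
  have hNpos : (0 : ℝ) < N := by linarith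
  have hN2' : 3 / δ + 100 + A3 * (2 * E1 / (3 * δ)) * (8 / κ) < (N : ℝ) := by
    have : (N2 : ℝ) ≤ N := by exact_mod_cast le_trans (le_max_right _ _) hN
    linarith
  have hpos1 : 0 ≤ 3 / δ := by positivity
  have hpos2 : 0 ≤ A3 * (2 * E1 / (3 * δ)) * (8 / κ) := by positivity
  have hx0 : (0 : ℝ) ≤ 1 - 2 * δ := by linarith
  obtain ⟨x, hx⟩ : ∃ x : ℝ, x = 1 - 2 * δ := ⟨_, rfl⟩
  rw [← hx] at hH hx0
  obtain ⟨v, hv⟩ : ∃ v : ℝ, v = Iv N x := ⟨_, rfl⟩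
  obtain ⟨w, hw⟩ : ∃ w : ℝ, w = Iw N y := ⟨_, rfl⟩
  have hv0 : 0 ≤ v := by rw [hv]; unfold Iv; positivity
  have hw0 : 0 ≤ w := by rw [hw]; unfold Iw; positivity
  have hv' : v = (1 - 2 * δ) / (4 * (N : ℝ)) := by rw [hv, hx]; rfl
  have hw' : w = y / (8 * (N : ℝ) ^ 2) := by rw [hw]; rfl
  have hyle : y ≤ 1 := by linarith
  have hρ : 2 * v + 3 * w ≤ 1 / N := by
    rw [hv', hw']
    exact IfD_rho hδ hNp hy0 hyle
  have hρ100 : 2 * v + 3 * w ≤ 1 / 100 := by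
    refine hρ.trans ?_
    exact one_div_le_one_div_of_le (by norm_num) (by linarith)
  have hρ0 : 0 ≤ 2 * v + 3 * w := by positivity
  obtain ⟨X0, hX0⟩ : ∃ X : ℝ, X = C / c := ⟨_, rfl⟩
  have hX0p : 0 < X0 := by rw [hX0]; positivity
  obtain ⟨B, hBdef⟩ : ∃ B : ℝ, B = 6 * τ ^ (1 - η) + 46 * (MP9cae81PC.tsc τ J) ^ (-(1 + η)) :=
    ⟨_, rfl⟩
  have hB4 : B ≤ κ / 4 := by rw [hBdef]; linarith
  -- the inequality of every state in the window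
  have hpt : ∀ n ∈ Finset.Icc (N - MW N) (N + MW N), ∀ S : As (Fin n),
      3 / (32 * X0 ^ 2) * ss q S ^ 3 + (-(1 / (16 * X0 ^ 3))) * H5f hq hq1 n S ≤
      A1 * (H1f hq hq1 (1 - η) v w n S + H2f hq hq1 (1 - η) v w n S) +
      A2 * H4f hq hq1 (1 - η) v w n S +
      A3 * ∑ j ∈ range J, ((MP9cae81PC.tsc τ j) ^ (1 - η) *
          H3f hq hq1 δ (MP9cae81PC.tsc τ j) v w n S +
        (200000 / (3 * δ) * H4f hq hq1 (1 - η) v w n S +
          2 * (2 * v + 3 * w) * (MP9cae81PC.tsc τ j) ^ (1 - η) / (3 * δ) * ss q S ^ 3)) +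
      B * ss q S ^ 3 := by
    intro n hn S
    obtain ⟨h1n, hlo, hhi⟩ := hwin n hn
    obtain ⟨n, rfl⟩ : ∃ m, n = m + 1 := ⟨n - 1, by omega⟩
    obtain ⟨g1, g2, g3⟩ := IfD_param (n := ((n + 1 : ℕ) : ℝ)) hδ hδ20 hNp (by linarith) hy0 hy1
      hε0 hε5 hε3 hε1 hε2 hv' hw' hlo hhi
    have h1 := IfD_lower hq hq1 hs (by linarith : 1 - η ≤ 1) hX0p S
    have h2 := IfD_upper hq hq1 H hδ (by linarith) hv0 hw0 (n := n) g1 g2 g3 hρ100 hτ J S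
    rw [← hBdef] at h2
    rw [sub_eq_add_neg, ← neg_mul] at h1
    exact h1.trans h2
  -- integrate
  have hBr := B2.Br_mono (N := N) (x := x) (y := y) hx0 hy0 hpt
  have hL : Br N x y (fun n S => 3 / (32 * X0 ^ 2) * ss q S ^ 3 +
      (-(1 / (16 * X0 ^ 3))) * H5f hq hq1 n S) =
      3 / (32 * X0 ^ 2) * Br N x y (fun _ S => ss q S ^ 3) +
      (-(1 / (16 * X0 ^ 3))) * Br N x y (H5f hq hq1) := by
    rw [B2.Br_add (fun n S => 3 / (32 * X0 ^ 2) * ss q S ^ 3)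
      (fun n S => (-(1 / (16 * X0 ^ 3))) * H5f hq hq1 n S), B2.Br_mul, B2.Br_mul]
  have hR := IfD_Br_expand N x y A1 A2 A3 (200000 / (3 * δ)) B (range J)
    (fun j => (MP9cae81PC.tsc τ j) ^ (1 - η))
    (fun j => 2 * (2 * v + 3 * w) * (MP9cae81PC.tsc τ j) ^ (1 - η) / (3 * δ))
    (H1f hq hq1 (1 - η) v w) (H2f hq hq1 (1 - η) v w) (H4f hq hq1 (1 - η) v w)
    (fun _ S => ss q S ^ 3) (fun j => H3f hq hq1 δ (MP9cae81PC.tsc τ j) v w)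
  rw [hL, hR] at hBr
  -- the values
  have hWm : Br N x y (fun _ S => ss q S ^ 3) ≤ mm q N x y := by
    unfold mm
    refine B2.Br_mono hx0 hy0 fun n hn S => ?_
    obtain ⟨h1n, -, -⟩ := hwin n hn
    obtain ⟨n, rfl⟩ : ∃ m, n = m + 1 := ⟨n - 1, by omega⟩
    have h1 := IfD_ss_nonneg hq hq1 S
    have h2 := IfD_ss_le_one hq hq1 S
    have h3 : ss q S ^ 3 = ss q S ^ 2 * ss q S := by ring
    rw [h3]
    exact mul_le_of_le_one_right (by positivity) h2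
  have hm0 : 0 < mm q N x y := hH.hm
  have hWc : c * mm q N x y ≤ Br N x y (fun _ S => ss q S ^ 3) := hH.h6
  have hh1 := hH.h1
  have hh2 := hH.h2
  have hh4 := hH.h4
  have hh5 := hH.h5
  have hh3 : ∀ j ∈ range J, Br N x y (H3f hq hq1 δ (MP9cae81PC.tsc τ j) v w) ≤
      err * mm q N x y := fun j hj => by
    rw [hv, hw]; exact hH.h3 _ (Finset.mem_image_of_mem _ hj)
  rw [← hv, ← hw] at hh1 hh2 hh4
  generalize Br N x y (fun _ S => ss q S ^ 3) = W at hWm hWc hBr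
  generalize Br N x y (H1f hq hq1 (1 - η) v w) = b1 at hh1 hBr
  generalize Br N x y (H2f hq hq1 (1 - η) v w) = b2 at hh2 hBr
  generalize Br N x y (H4f hq hq1 (1 - η) v w) = b4 at hh4 hBr
  generalize Br N x y (H5f hq hq1) = b5 at hh5 hBr
  generalize mm q N x y = m at hm0 hWm hWc hh1 hh2 hh3 hh4 hh5
  have hW0 : 0 ≤ W := le_trans (by positivity) hWc
  -- the sum over the scales
  have hsum : ∑ j ∈ range J, ((MP9cae81PC.tsc τ j) ^ (1 - η) *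
          Br N x y (H3f hq hq1 δ (MP9cae81PC.tsc τ j) v w) +
        (200000 / (3 * δ) * b4 +
          2 * (2 * v + 3 * w) * (MP9cae81PC.tsc τ j) ^ (1 - η) / (3 * δ) * W)) ≤
      E1 * (err * m) + J * (200000 / (3 * δ)) * (err * m) + (1 / N) * (2 * E1 / (3 * δ)) * m := by
    have h1 : ∀ j ∈ range J, (MP9cae81PC.tsc τ j) ^ (1 - η) *
          Br N x y (H3f hq hq1 δ (MP9cae81PC.tsc τ j) v w) +
        (200000 / (3 * δ) * b4 +
          2 * (2 * v + 3 * w) * (MP9cae81PC.tsc τ j) ^ (1 - η) / (3 * δ) * W) ≤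
        (MP9cae81PC.tsc τ j) ^ (1 - η) * (err * m) + 200000 / (3 * δ) * (err * m) +
          (1 / N) * (2 / (3 * δ)) * m * (MP9cae81PC.tsc τ j) ^ (1 - η) := by
      intro j hj
      have a1 := mul_le_mul_of_nonneg_left (hh3 j hj) (hcj j)
      have a2 : 200000 / (3 * δ) * b4 ≤
          200000 / (3 * δ) * (err * m) := mul_le_mul_of_nonneg_left hh4 (by positivity)
      have a3 : 2 * (2 * v + 3 * w) * (MP9cae81PC.tsc τ j) ^ (1 - η) / (3 * δ) * W ≤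
          (1 / N) * (2 / (3 * δ)) * m * (MP9cae81PC.tsc τ j) ^ (1 - η) := by
        have b1 : 2 * (2 * v + 3 * w) * (MP9cae81PC.tsc τ j) ^ (1 - η) / (3 * δ) * W =
            ((2 * v + 3 * w) * W) * (2 / (3 * δ) * (MP9cae81PC.tsc τ j) ^ (1 - η)) := by ring
        have b2 : (1 / N) * (2 / (3 * δ)) * m * (MP9cae81PC.tsc τ j) ^ (1 - η) =
            ((1 / N) * m) * (2 / (3 * δ) * (MP9cae81PC.tsc τ j) ^ (1 - η)) := by ring
        rw [b1, b2]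
        refine mul_le_mul_of_nonneg_right (mul_le_mul hρ hWm hW0 (by positivity)) ?_
        exact mul_nonneg (by positivity) (hcj j)
      linarith
    refine (Finset.sum_le_sum h1).trans (le_of_eq ?_)
    have s1 : ∑ j ∈ range J, (MP9cae81PC.tsc τ j) ^ (1 - η) * (err * m) = E1 * (err * m) := by
      rw [hE1, Finset.sum_mul]
    have s2 : ∑ j ∈ range J, 200000 / (3 * δ) * (err * m) =
        J * (200000 / (3 * δ)) * (err * m) := by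
      rw [Finset.sum_const, Finset.card_range, nsmul_eq_mul, mul_assoc]
    have s3 : ∑ j ∈ range J, (1 / N) * (2 / (3 * δ)) * m * (MP9cae81PC.tsc τ j) ^ (1 - η) =
        (1 / N) * (2 / (3 * δ)) * m * E1 := by
      rw [hE1, Finset.mul_sum]
    rw [Finset.sum_add_distrib, Finset.sum_add_distrib, s1, s2, s3]
    ring
  have hlow : κ * m ≤ 3 / (32 * X0 ^ 2) * W + (-(1 / (16 * X0 ^ 3))) * b5 := by
    have a1 : 3 / (32 * X0 ^ 2) * (c * m) ≤ 3 / (32 * X0 ^ 2) * W :=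
      mul_le_mul_of_nonneg_left hWc (by positivity)
    have a2 : 1 / (16 * X0 ^ 3) * b5 ≤ 1 / (16 * X0 ^ 3) * (C * m) :=
      mul_le_mul_of_nonneg_left hh5 (by positivity)
    have a3 : κ * m = 3 / (32 * X0 ^ 2) * (c * m) - 1 / (16 * X0 ^ 3) * (C * m) := by
      rw [hκdef, hX0]; field_simp; ring
    linarith
  have hB : B * W ≤ κ / 4 * m :=
    mul_le_mul hB4 hWm hW0 (by positivity)
  exact IfD_arith hBr hlow hB (mul_le_mul_of_nonneg_left (by linarith) hA1.le)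
    (mul_le_mul_of_nonneg_left hh4 hA2.le) (mul_le_mul_of_nonneg_left hsum hA3.le)
    (IfD_Nrho hκ hNpos hm0 (by linarith)) hK herrK hm0 hκ

end Pool.Agent.Lib.MP_9cae81_PC
end

section

/-!
# Block C implies that the probability of unsatisfiability tends to zero
-/

set_option autoImplicit false

open Finset Filter
open scoped BigOperators Topology

namespace Pool.Agent.Lib.MP_9cae81_PC

open Pool.Agent.Lib.MP_9cae81_R

/-- Above density `2/3` of 3-clauses, as soon as the density of 2-clauses is below one. -/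
theorem key_of_blockC (hC : BlockC) : ∃ e0 : ℝ, 0 < e0 ∧ ∀ d : ℝ, 0 < d → d ≤ 1 / 10 →
    Tendsto (fun n : ℕ => ZZ n 0 (1 - d) (2 / 3 * (1 + e0))) atTop (𝓝 0) := by
  obtain ⟨η, ε0, hη, hη4, hε0, hε4, H⟩ := br_final
  refine ⟨ε0, hε0, fun d hd hd10 => ?_⟩
  by_contra hcon
  have hx : 1 - 2 * (d / 2) = 1 - d := by ring
  rw [← hx] at hcon
  obtain ⟨D⟩ := A7_center (by linarith) (by linarith) (by positivity) hcon
  obtain ⟨C, c, hCp, hcp, H2⟩ := hC (1 - η) (by linarith) (by linarith) (d / 2) (by positivity)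
    (by linarith)
  obtain ⟨T, hT, err, herr, N0, H3⟩ := H (d / 2) (by positivity) (by linarith) C c hCp hcp
  obtain ⟨q0, hq0, H4⟩ := H2 T hT err herr
  have hq : 0 < max q0 (1 / 2) := lt_of_lt_of_le (by norm_num) (le_max_right _ _)
  have hq1 : max q0 (1 / 2) < 1 := max_lt hq0 (by norm_num)
  have h5 := H4 (max q0 (1 / 2)) hq hq1 (le_max_left _ _) (2 / 3 * (1 + ε0)) (by linarith) D
  have h6 := D.hN.eventually (eventually_ge_atTop N0)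
  obtain ⟨k, hk1, hk2⟩ := (h5.and h6).exists
  exact H3 _ hq hq1 _ _ hk2 (D.y0 k) (D.yY k) hk1

end Pool.Agent.Lib.MP_9cae81_PC
end
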